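import Pool.Agent.Lib.MP_b7d179_gt.U.Defs

/-! Kit A: roots of strictly crossing families, star shaped discs, descent along quotient maps. -/

namespace Pool.Agent.Lib.MP_b7d179_gt.Gm

open Set Metric

/-- the last parameter in `[s, t]` at which `G x` is nonnegative -/
noncomputable def root {X : Type*} (G : X → ℝ → ℝ) (s t : ℝ) (x : X) : ℝ :=
  sSup {u | u ∈ Icc s t ∧ 0 ≤ G x u}

theorem KitA_root {g : ℝ → ℝ} {s t : ℝ} (hst : s < t) (hc : ContinuousOn g (Icc s t))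
    (h0 : 0 < g s) (h1 : g t < 0) (hx : ∀ u ∈ Icc s t, ∀ v ∈ Icc s t, u < v → g u ≤ 0 → g v < 0)
    {r : ℝ} (hr : r = sSup {u | u ∈ Icc s t ∧ 0 ≤ g u}) :
    r ∈ Ioo s t ∧ g r = 0 ∧ ∀ u ∈ Icc s t, (0 ≤ g u ↔ u ≤ r) ∧ (g u ≤ 0 ↔ r ≤ u) := by
  have hcl : IsClosed {u | u ∈ Icc s t ∧ 0 ≤ g u} :=
    hc.preimage_isClosed_of_isClosed isClosed_Icc isClosed_Ici
  have hb : BddAbove {u | u ∈ Icc s t ∧ 0 ≤ g u} := ⟨t, fun u hu => hu.1.2⟩
  have hm : r ∈ {u | u ∈ Icc s t ∧ 0 ≤ g u} :=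
    hr ▸ hcl.csSup_mem ⟨s, left_mem_Icc.2 hst.le, h0.le⟩ hb
  have hle : ∀ u ∈ Icc s t, 0 ≤ g u → u ≤ r := fun u hu k => hr ▸ le_csSup hb ⟨hu, k⟩
  have hz : g r = 0 := by
    obtain ⟨w, hw, e⟩ := intermediate_value_Icc' hm.1.2
      (hc.mono (Icc_subset_Icc_left hm.1.1)) (⟨h1.le, hm.2⟩ : (0 : ℝ) ∈ Icc (g t) (g r))
    rwa [le_antisymm (hle w ⟨hm.1.1.trans hw.1, hw.2⟩ e.ge) hw.1] at e
  refine ⟨⟨lt_of_le_of_ne hm.1.1 fun e => ?_, lt_of_le_of_ne hm.1.2 fun e => ?_⟩, hz,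
    fun u hu => ⟨⟨hle u hu, fun k => ?_⟩, fun k => ?_, fun k => ?_⟩⟩
  · exact h0.ne' (e ▸ hz)
  · exact h1.ne (e ▸ hz)
  · rcases k.eq_or_lt with e | e
    · exact e ▸ hz.ge
    · by_contra c
      exact (hx u hu r hm.1 e (not_le.1 c).le).ne hz
  · by_contra c
    exact (hx u hu r hm.1 (not_le.1 c) k).ne hz
  · rcases k.eq_or_lt with e | e
    · exact e ▸ hz.le
    · exact (hx r hm.1 u hu e hz.le).le

theorem root_spec {X : Type*} [TopologicalSpace X] {G : X → ℝ → ℝ} {A : Set X} {s t : ℝ}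
    (hst : s < t) (hc : ContinuousOn (fun p : X × ℝ => G p.1 p.2) (A ×ˢ Icc s t))
    (h0 : ∀ x ∈ A, 0 < G x s) (h1 : ∀ x ∈ A, G x t < 0)
    (hx : ∀ x ∈ A, ∀ u ∈ Icc s t, ∀ v ∈ Icc s t, u < v → G x u ≤ 0 → G x v < 0) :
    ContinuousOn (root G s t) A ∧ ∀ x ∈ A, root G s t x ∈ Ioo s t ∧ G x (root G s t x) = 0 ∧
      ∀ u ∈ Icc s t, (0 ≤ G x u ↔ u ≤ root G s t x) ∧ (G x u ≤ 0 ↔ root G s t x ≤ u) := by
  have key : ∀ x ∈ A, root G s t x ∈ Ioo s t ∧ G x (root G s t x) = 0 ∧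
      ∀ u ∈ Icc s t, (0 ≤ G x u ↔ u ≤ root G s t x) ∧ (G x u ≤ 0 ↔ root G s t x ≤ u) :=
    fun x hA => KitA_root hst
      (hc.comp (f := fun u : ℝ => (x, u)) (by fun_prop) fun u hu => ⟨hA, hu⟩)
      (h0 x hA) (h1 x hA) (hx x hA) rfl
  have cu : ∀ u ∈ Icc s t, ContinuousOn (fun y => G y u) A := fun u hu =>
    hc.comp (f := fun y : X => (y, u)) (by fun_prop) fun y hy => ⟨hy, hu⟩
  refine ⟨fun x hA => tendsto_order.2 ⟨fun a ha => ?_, fun a ha => ?_⟩, key⟩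
  · obtain ⟨k1, -, k3⟩ := key x hA
    have lt : max a s < root G s t x := max_lt ha k1.1
    have hu : max a s ∈ Icc s t := ⟨le_max_right _ _, (lt.trans k1.2).le⟩
    have hp : 0 < G x (max a s) := not_le.1 fun c => not_le.2 lt ((k3 _ hu).2.1 c)
    filter_upwards [(cu _ hu x hA).eventually (lt_mem_nhds hp), self_mem_nhdsWithin] with y hy hy'
    exact (le_max_left a s).trans_lt
      (not_le.1 fun c => not_le.2 hy (((key y hy').2.2 _ hu).2.2 c))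
  · obtain ⟨k1, -, k3⟩ := key x hA
    have lt : root G s t x < min a t := lt_min ha k1.2
    have hu : min a t ∈ Icc s t := ⟨(k1.1.trans lt).le, min_le_right _ _⟩
    have hp : G x (min a t) < 0 := not_le.1 fun c => not_le.2 lt ((k3 _ hu).1.1 c)
    filter_upwards [(cu _ hu x hA).eventually (gt_mem_nhds hp), self_mem_nhdsWithin] with y hy hy'
    exact (not_le.1 fun c => not_le.2 hy (((key y hy').2.2 _ hu).1.2 c)).trans_le
      (min_le_left a t)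

theorem KitA_desc {X Y Z : Type*} [TopologicalSpace X] [TopologicalSpace Y] [T2Space Y]
    [TopologicalSpace Z] [Nonempty X] {A : Set X} (hA : IsCompact A) {q : X → Y} {F : X → Z}
    (hq : ContinuousOn q A) (hF : ContinuousOn F A)
    (h : ∀ x ∈ A, ∀ y ∈ A, q x = q y → F x = F y) :
    ∃ f : Y → Z, ContinuousOn f (q '' A) ∧ ∀ x ∈ A, f (q x) = F x := by
  have e : ∀ x ∈ A, F (Function.invFunOn q A (q x)) = F x := fun x hx =>
    h _ (Function.invFunOn_mem ⟨x, hx, rfl⟩) x hx (Function.invFunOn_eq ⟨x, hx, rfl⟩)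
  refine ⟨fun y => F (Function.invFunOn q A y), continuousOn_iff_isClosed.2 fun t ht => ?_, e⟩
  obtain ⟨u, hu, e'⟩ := continuousOn_iff_isClosed.1 hF t ht
  refine ⟨q '' (A ∩ u),
    ((hA.inter_right hu).image_of_continuousOn (hq.mono inter_subset_left)).isClosed, ?_⟩
  ext w
  constructor
  · rintro ⟨h1, x, hx, rfl⟩
    rw [mem_preimage, e x hx] at h1
    exact ⟨⟨x, ⟨hx, (e'.le ⟨h1, hx⟩).1⟩, rfl⟩, x, hx, rfl⟩
  · rintro ⟨⟨x, hx, rfl⟩, h2⟩
    refine ⟨?_, h2⟩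
    rw [mem_preimage, e x hx.1]
    exact (e'.ge ⟨hx.2, hx.1⟩).1

theorem emb_desc {X Y Z : Type*} [TopologicalSpace X] [TopologicalSpace Y] [T2Space Y]
    [TopologicalSpace Z] [Nonempty X] {A : Set X} (hA : IsCompact A) {q : X → Y} {F : X → Z}
    (hq : ContinuousOn q A) (hF : ContinuousOn F A)
    (h : ∀ x ∈ A, ∀ y ∈ A, q x = q y ↔ F x = F y) :
    ∃ f : Y → Z, Emb f (q '' A) ∧ ∀ x ∈ A, f (q x) = F x := by
  obtain ⟨f, c, e⟩ := KitA_desc hA hq hF fun x hx y hy => (h x hx y hy).1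
  refine ⟨f, ⟨c, ?_⟩, e⟩
  rintro _ ⟨x, hx, rfl⟩ _ ⟨y, hy, rfl⟩ k
  rw [e x hx, e y hy] at k
  exact (h x hx y hy).2 k

theorem KitA_polar {a b : ℝ} {e e' : ℂ} (ha : 0 ≤ a) (hb : 0 ≤ b) (he : e ∈ sphere (0 : ℂ) 1)
    (he' : e' ∈ sphere (0 : ℂ) 1) (h : (a : ℂ) * e = b * e') : a = b ∧ (a = 0 ∨ e = e') := by
  have n := congrArg norm h
  rw [norm_mul, norm_mul, mem_sphere_zero_iff_norm.1 he, mem_sphere_zero_iff_norm.1 he',
    Complex.norm_of_nonneg ha, Complex.norm_of_nonneg hb, mul_one, mul_one] at n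
  subst n
  refine ⟨rfl, ?_⟩
  rcases mul_eq_mul_left_iff.1 h with k | k
  · exact Or.inr k
  · exact Or.inl (Complex.ofReal_eq_zero.1 k)

theorem disc_star {R : ℂ → ℝ} (hc : ContinuousOn R (sphere 0 1)) (hp : ∀ e ∈ sphere (0 : ℂ) 1, 0 < R e) :
    Disc {z : ℂ | ∃ e ∈ sphere (0 : ℂ) 1, ∃ t ∈ Icc 0 (R e), z = (t : ℂ) * e}
      ((fun e => (R e : ℂ) * e) '' sphere 0 1) := by
  have cR : ContinuousOn (fun x : ℂ × ℝ => R x.1) (sphere 0 1 ×ˢ Icc 0 1) :=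
    hc.comp continuousOn_fst fun x hx => hx.1
  obtain ⟨f, hf, e⟩ := emb_desc (A := sphere (0 : ℂ) 1 ×ˢ Icc (0 : ℝ) 1)
    ((isCompact_sphere _ _).prod isCompact_Icc) (q := fun x => (x.2 : ℂ) * x.1)
    (F := fun x => ((x.2 * R x.1 : ℝ) : ℂ) * x.1) (by fun_prop)
    ((Complex.continuous_ofReal.comp_continuousOn (continuousOn_snd.mul cR)).mul continuousOn_fst)
    (fun x hx y hy => by
      constructor
      · intro k
        obtain ⟨k1, k2 | k2⟩ := KitA_polar hx.2.1 hy.2.1 hx.1 hy.1 k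
        · simp [← k1, k2]
        · simp only [k1, k2]
      · intro k
        obtain ⟨k1, k2 | k2⟩ := KitA_polar (mul_nonneg hx.2.1 (hp _ hx.1).le)
          (mul_nonneg hy.2.1 (hp _ hy.1).le) hx.1 hy.1 k
        · have a1 : x.2 = 0 := (mul_eq_zero.1 k2).resolve_right (hp _ hx.1).ne'
          have a2 : y.2 = 0 := (mul_eq_zero.1 (k1 ▸ k2)).resolve_right (hp _ hy.1).ne'
          simp [a1, a2]
        · rw [k2] at k1
          simp only [mul_right_cancel₀ (hp _ hy.1).ne' k1, k2])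
  have im : (fun x : ℂ × ℝ => (x.2 : ℂ) * x.1) '' (sphere (0 : ℂ) 1 ×ˢ Icc (0 : ℝ) 1) =
      closedBall 0 1 := by
    ext z
    rw [mem_closedBall_zero_iff]
    constructor
    · rintro ⟨x, hx, rfl⟩
      simp only
      rw [norm_mul, mem_sphere_zero_iff_norm.1 hx.1, Complex.norm_of_nonneg hx.2.1, mul_one]
      exact hx.2.2
    · exact fun hz => ⟨(Complex.exp (z.arg * Complex.I), ‖z‖),
        ⟨by simp, norm_nonneg _, hz⟩, Complex.norm_mul_exp_arg_mul_I z⟩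
  refine ⟨f, im ▸ hf, ?_, ?_⟩
  · rw [← im, image_image]
    ext z
    constructor
    · rintro ⟨x, hx, rfl⟩
      exact ⟨x.1, hx.1, x.2 * R x.1, ⟨mul_nonneg hx.2.1 (hp _ hx.1).le,
        mul_le_of_le_one_left (hp _ hx.1).le hx.2.2⟩, e x hx⟩
    · rintro ⟨u, hu, t, ht, rfl⟩
      have m : (u, t / R u) ∈ sphere (0 : ℂ) 1 ×ˢ Icc (0 : ℝ) 1 :=
        ⟨hu, div_nonneg ht.1 (hp u hu).le, (div_le_one (hp u hu)).2 ht.2⟩
      refine ⟨_, m, (e _ m).trans ?_⟩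
      simp only
      rw [div_mul_cancel₀ _ (hp u hu).ne']
  · refine image_congr fun u hu => ?_
    simpa using e (u, 1) ⟨hu, zero_le_one, le_rfl⟩

theorem homeo_desc {X Z : Type*} [TopologicalSpace X] [TopologicalSpace Z] [T2Space Z] {A : Set X}
    (hA : IsCompact A) {π : X → Z} (hπ : ContinuousOn π A) (hs : π '' A = univ) {f f' : X → X}
    (cf : ContinuousOn f A) (cf' : ContinuousOn f' A) (mf : MapsTo f A A) (mf' : MapsTo f' A A)
    (l : ∀ x ∈ A, f' (f x) = x) (r : ∀ x ∈ A, f (f' x) = x)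
    (k : ∀ x ∈ A, ∀ y ∈ A, π x = π y → π (f x) = π (f y))
    (k' : ∀ x ∈ A, ∀ y ∈ A, π x = π y → π (f' x) = π (f' y)) :
    ∃ h : Z ≃ₜ Z, ∀ x ∈ A, h (π x) = π (f x) ∧ h.symm (π x) = π (f' x) := by
  rcases isEmpty_or_nonempty X with hX | hX
  · exact ⟨Homeomorph.refl Z, fun x _ => isEmptyElim x⟩
  obtain ⟨g, c, e⟩ := KitA_desc hA hπ (hπ.comp cf mf) k
  obtain ⟨g', c', e'⟩ := KitA_desc hA hπ (hπ.comp cf' mf') k'
  rw [hs, continuousOn_univ] at c c'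
  have su : ∀ z, ∃ x ∈ A, π x = z := fun z => hs.ge (mem_univ z)
  refine ⟨⟨⟨g, g', fun z => ?_, fun z => ?_⟩, c, c'⟩, fun x hx => ⟨e x hx, e' x hx⟩⟩
  · obtain ⟨x, hx, rfl⟩ := su z
    rw [e x hx, Function.comp_apply, e' _ (mf hx), Function.comp_apply, l x hx]
  · obtain ⟨x, hx, rfl⟩ := su z
    rw [e' x hx, Function.comp_apply, e _ (mf' hx), Function.comp_apply, r x hx]

/-- rotating a vector with positive first and nonpositive second coordinate lowers the first -/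
theorem cos_sin_lt {p q u v : ℝ} (huv : u < v) (hπ : v ≤ u + Real.pi)
    (h1 : 0 < p * Real.cos u + q * Real.sin u) (h2 : q * Real.cos u ≤ p * Real.sin u) :
    p * Real.cos v + q * Real.sin v < p * Real.cos u + q * Real.sin u := by
  obtain ⟨d, rfl⟩ : ∃ d, v = u + d := ⟨v - u, by ring⟩
  have c : Real.cos d < 1 := by
    rw [← Real.cos_zero]
    exact Real.cos_lt_cos_of_nonneg_of_le_pi le_rfl (by linarith) (by linarith)
  have s : 0 ≤ Real.sin d := Real.sin_nonneg_of_nonneg_of_le_pi (by linarith) (by linarith)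
  rw [Real.cos_add, Real.sin_add]
  nlinarith [mul_pos h1 (sub_pos.2 c), mul_nonneg (sub_nonneg.2 h2) s]

end Pool.Agent.Lib.MP_b7d179_gt.Gm
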