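import Pool.Agent.Lib.MP_b7d179_gt.G.Chart

/-! The limit set is closed and invariant. -/

namespace Pool.Agent.Lib.MP_b7d179_gt.Gm

open Set Metric Complex Stmt

theorem om_eq : Stmt.om = w1 := by
  have e : 2 * Real.pi * I / 3 = ((Real.pi - Real.pi / 3 : ℝ) : ℂ) * I := by push_cast; ring
  rw [Stmt.om, e]
  apply Complex.ext
  · rw [exp_ofReal_mul_I_re, Real.cos_pi_sub, Real.cos_pi_div_three]; norm_num [w1]
  · rw [exp_ofReal_mul_I_im, Real.sin_pi_sub, Real.sin_pi_div_three]; rfl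

theorem ping_cs (i : Fin 6) : Real.cos ((i : ℕ) * Real.pi / 3) = (mv i).re ∧
    Real.sin ((i : ℕ) * Real.pi / 3) = (mv i).im := by
  have key : ∀ n : ℕ, (⟨Real.cos (n * Real.pi / 3), Real.sin (n * Real.pi / 3)⟩ : ℂ) =
      mv (Fin.ofNat 6 n) := by
    intro n
    induction n with
    | zero => simp [mv]
    | succ n ih =>
      have e' : Fin.ofNat 6 (n + 1) = Fin.ofNat 6 n + 1 := Fin.ext (by simp [Fin.val_add])
      have e : ((n + 1 : ℕ) : ℝ) * Real.pi / 3 = Real.pi / 3 + n * Real.pi / 3 := by push_cast; ring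
      rw [e', mv_succ, ← ih, e, Real.cos_add, Real.sin_add,
        Real.cos_pi_div_three, Real.sin_pi_div_three]
      apply Complex.ext <;> simp [mv] <;> ring
  have h := key i
  rw [show Fin.ofNat 6 i = i from Fin.ext (Nat.mod_eq_of_lt i.2)] at h
  rw [← h]
  exact ⟨rfl, rfl⟩

theorem ping_s : ((√2 : ℝ) : ℂ) * ((1 / √2 : ℝ) : ℂ) = 1 := by
  rw [← ofReal_mul, mul_one_div_cancel (Real.sqrt_ne_zero'.2 (by norm_num)), ofReal_one]

theorem ping_pol (i : Fin 6) : pol i 0 = (mv i).re ∧ pol i 1 = (mv i).im ∧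
    pol i 2 = ((1 / √2 : ℝ) : ℂ) :=
  ⟨congrArg ofReal (ping_cs i).1, congrArg ofReal (ping_cs i).2, rfl⟩

theorem ping_form (i : Fin 6) (z : Fin 3 → ℂ) :
    form z (pol i) = z 0 * (mv i).re + z 1 * (mv i).im - z 2 * ((1 / √2 : ℝ) : ℂ) := by
  rw [form, (ping_pol i).1, (ping_pol i).2.1, (ping_pol i).2.2, conj_ofReal, conj_ofReal, conj_ofReal]

theorem ping_half (i : Fin 6) : form (pol i) (pol i) = 1 / 2 := by
  have hm : ((mv i).re : ℂ) ^ 2 + ((mv i).im : ℂ) ^ 2 = 1 := by exact_mod_cast mv_sq i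
  rw [ping_form, (ping_pol i).1, (ping_pol i).2.1, (ping_pol i).2.2]
  have h := ping_s
  generalize ((1 / √2 : ℝ) : ℂ) = t at h
  linear_combination hm + (t ^ 2 / 2) * s2 - (((√2 : ℝ) : ℂ) * t + 1) / 2 * h

theorem ping_refl (i : Fin 6) (z : Fin 3 → ℂ) :
    refl i z = z + (2 * (w1 - 1) * form z (pol i)) • pol i := by
  rw [Stmt.refl, ping_half, om_eq]
  congr 2
  ring

theorem ping_lift (i : Fin 6) (p : E) : refl i ![p.1, p.2, 1] =
    ![p.1 + (1 - w1) * (√2 : ℝ) * uw i p * (mv i).re,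
      p.2 + (1 - w1) * (√2 : ℝ) * uw i p * (mv i).im, jj w1 i p] := by
  have h := ping_s
  have e : 2 * (w1 - 1) * form ![p.1, p.2, 1] (pol i) = (1 - w1) * (√2 : ℝ) * uw i p := by
    rw [ping_form, uw, lin]
    simp only [Matrix.cons_val_zero, Matrix.cons_val_one, Matrix.cons_val]
    generalize ((1 / √2 : ℝ) : ℂ) = t at h
    linear_combination (1 - w1) * ((mv i).re * p.1 + (mv i).im * p.2 - t) * s2 +
      (1 - w1) * ((√2 : ℝ) : ℂ) * h
  rw [ping_refl, e]
  funext k
  fin_cases k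
  · exact congrArg (fun t => p.1 + (1 - w1) * (√2 : ℝ) * uw i p * t) (ping_pol i).1
  · exact congrArg (fun t => p.2 + (1 - w1) * (√2 : ℝ) * uw i p * t) (ping_pol i).2.1
  · change 1 + (1 - w1) * (√2 : ℝ) * uw i p * ((1 / √2 : ℝ) : ℂ) = 1 + (1 - w1) * uw i p
    linear_combination (1 - w1) * uw i p * h

theorem act_gen {u : GL (Fin 3) ℂ} {i : Fin 6}
    (h : ∀ z, (u : Matrix (Fin 3) (Fin 3) ℂ).mulVec z = refl i z) (p : E) : act u p = gE w1 i p := by
  rw [act, h, ping_lift]
  rfl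

/-- words in the generators applied to the centre -/
inductive Orb : E → Prop
  | zero : Orb (0, 0)
  | step {p : E} (i : Fin 6) : Orb p → Orb (gE w1 i p)

theorem Orb.ball {p : E} (h : Orb p) : nsq p < 1 := by
  induction h with
  | zero => simp [nsq]
  | step i _ ih =>
    have := div_pos (sub_pos.2 ih) (normSq_pos.2 (jj_ne w1_nsq i ih.le))
    rw [← nsq_gE w1_nsq i ih.le] at this
    exact sub_pos.1 this

theorem ping_form_refl (i : Fin 6) (z : Fin 3 → ℂ) : form (refl i z) (pol i) = w1 * form z (pol i) := by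
  have e : ∀ (t : ℂ), form (z + t • pol i) (pol i) = form z (pol i) + t * form (pol i) (pol i) :=
    fun t => by simp only [form, Pi.add_apply, Pi.smul_apply, smul_eq_mul]; ring
  rw [ping_refl, e, ping_half]
  ring

theorem ping_three (i : Fin 6) (z : Fin 3 → ℂ) : refl i (refl i (refl i z)) = z := by
  rw [ping_refl i (refl i (refl i z)), ping_form_refl, ping_form_refl, ping_refl i (refl i z),
    ping_form_refl, ping_refl i z]
  funext k
  simp only [Pi.add_apply, Pi.smul_apply, smul_eq_mul]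
  linear_combination 2 * (w1 - 1) * form z (pol i) * pol i k * w1_cube

theorem ping_ex (i : Fin 6) :
    ∃ u : GL (Fin 3) ℂ, ∀ z, (u : Matrix (Fin 3) (Fin 3) ℂ).mulVec z = refl i z := by
  let L : (Fin 3 → ℂ) →ₗ[ℂ] (Fin 3 → ℂ) :=
    { toFun := refl i
      map_add' := fun x y => by
        funext k
        simp only [ping_refl, form, Pi.add_apply, Pi.smul_apply, smul_eq_mul]
        ring
      map_smul' := fun c x => by
        funext k
        simp only [ping_refl, form, Pi.add_apply, Pi.smul_apply, smul_eq_mul, RingHom.id_apply]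
        ring }
  have hM : ∀ z, (LinearMap.toMatrix' L).mulVec z = refl i z := fun z =>
    (Matrix.toLin'_apply _ z).symm.trans (by rw [Matrix.toLin'_toMatrix']; rfl)
  generalize LinearMap.toMatrix' L = M at hM
  have h3 : M * (M * M) = 1 := Matrix.ext_iff_mulVec.2 fun z => by
    rw [← Matrix.mulVec_mulVec, ← Matrix.mulVec_mulVec, hM, hM, hM, ping_three, Matrix.one_mulVec]
  exact ⟨⟨M, M * M, h3, by rw [mul_assoc, h3]⟩, hM⟩

/-- `u` carries the line of `p` to the line of `q` -/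
def pingTo (u : GL (Fin 3) ℂ) (p q : E) : Prop :=
  ∃ t : ℂ, t ≠ 0 ∧ (u : Matrix (Fin 3) (Fin 3) ℂ).mulVec ![p.1, p.2, 1] = t • ![q.1, q.2, 1]

theorem pingTo.act {u : GL (Fin 3) ℂ} {p q : E} (h : pingTo u p q) : q = act u p := by
  obtain ⟨t, ht, h⟩ := h
  rw [Stmt.act, h]
  refine Prod.ext ?_ ?_
  · change q.1 = t * q.1 / (t * 1)
    field_simp
  · change q.2 = t * q.2 / (t * 1)
    field_simp

theorem pingTo.mul {u v : GL (Fin 3) ℂ} {p q r : E} (h : pingTo v p q) (k : pingTo u q r) :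
    pingTo (u * v) p r := by
  obtain ⟨t, ht, h⟩ := h
  obtain ⟨s, hs, k⟩ := k
  exact ⟨t * s, mul_ne_zero ht hs, by
    rw [Units.val_mul, ← Matrix.mulVec_mulVec, h, Matrix.mulVec_smul, k, smul_smul]⟩

theorem ping_one (p : E) : pingTo 1 p p := ⟨1, one_ne_zero, by simp⟩

theorem ping_gen {u : GL (Fin 3) ℂ} {i : Fin 6}
    (h : ∀ z, (u : Matrix (Fin 3) (Fin 3) ℂ).mulVec z = refl i z) {p : E} (hp : nsq p ≤ 1) :
    pingTo u p (gE w1 i p) := by
  have hj := jj_ne w1_nsq i hp
  refine ⟨jj w1 i p, hj, ?_⟩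
  rw [h, ping_lift]
  funext k
  fin_cases k
  · exact (mul_div_cancel₀ _ hj).symm
  · exact (mul_div_cancel₀ _ hj).symm
  · exact (mul_one _).symm

theorem orb_iff (q : E) : (∃ u ∈ Gam, q = act u (0, 0)) ↔ Orb q := by
  constructor
  · rintro ⟨u, hu, rfl⟩
    have key : ∀ p, Orb p → ∃ r, Orb r ∧ pingTo u p r := by
      induction hu using Subgroup.closure_induction'' with
      | mem x hx =>
        obtain ⟨i, hi⟩ := hx
        exact fun p hp => ⟨_, hp.step i, ping_gen hi hp.ball.le⟩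
      | inv_mem x hx =>
        obtain ⟨i, hi⟩ := hx
        have e : x⁻¹ = x * x := inv_eq_of_mul_eq_one_right (Units.ext (Matrix.ext_iff_mulVec.2
          fun z => by
            rw [Units.val_mul, Units.val_mul, ← Matrix.mulVec_mulVec, ← Matrix.mulVec_mulVec, hi, hi,
              hi, ping_three, Units.val_one, Matrix.one_mulVec]))
        exact fun p hp => ⟨_, (hp.step i).step i,
          e ▸ (ping_gen hi hp.ball.le).mul (ping_gen hi (hp.step i).ball.le)⟩
      | one => exact fun p hp => ⟨p, hp, ping_one p⟩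
      | mul x y _ _ hx hy =>
        intro p hp
        obtain ⟨r, hr, h⟩ := hy p hp
        obtain ⟨s, hs, k⟩ := hx r hr
        exact ⟨s, hs, h.mul k⟩
    obtain ⟨r, hr, h⟩ := key _ Orb.zero
    exact h.act ▸ hr
  · intro h
    have key : ∃ u ∈ Gam, pingTo u (0, 0) q := by
      induction h with
      | zero => exact ⟨1, one_mem _, ping_one _⟩
      | step i hp ih =>
        obtain ⟨u, hu, k⟩ := ih
        obtain ⟨v, hv⟩ := ping_ex i
        exact ⟨v * u, mul_mem (Subgroup.subset_closure ⟨i, hv⟩) hu, k.mul (ping_gen hv hp.ball.le)⟩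
    obtain ⟨u, hu, k⟩ := key
    exact ⟨u, hu, k.act⟩

theorem closed_lim : IsClosed limitSet := isClosed_closure.preimage continuous_subtype_val

theorem ping_mem (p : S3) : p ∈ limitSet ↔ p.1 ∈ closure {q | Orb q} := by
  rw [limitSet, mem_ofPred_eq, show {q | ∃ u ∈ Gam, q = act u (0, 0)} = {q | Orb q} from
    Set.ext orb_iff]

theorem ping_inv {f : S3 ≃ₜ S3} {F : E → E} {n : ℕ} (hn : f ^ (n + 1) = 1)
    (hv : ∀ p, (f p).1 = F p.1) (hc : ContinuousOn F {p | nsq p ≤ 1})
    (ho : ∀ p, Orb p → Orb (F p)) (p : S3) : f p ∈ limitSet ↔ p ∈ limitSet := by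
  have one : ∀ q ∈ limitSet, f q ∈ limitSet := fun q hq => by
    rw [ping_mem] at hq ⊢
    rw [hv]
    exact ((hc _ (nsq_S3 q).le).mono fun r (hr : Orb r) => hr.ball.le).mem_closure hq ho
  have all : ∀ k : ℕ, ∀ q ∈ limitSet, (f ^ k) q ∈ limitSet := fun k => by
    induction k with
    | zero => exact fun q hq => hq
    | succ k ih => exact fun q hq => by rw [pow_succ]; exact ih _ (one q hq)
  refine ⟨fun h => ?_, one p⟩
  have := all n _ h
  rwa [← Homeomorph.mul_apply, ← pow_succ, hn] at this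

theorem lim_g (i : Fin 6) (p : S3) : g i p ∈ limitSet ↔ p ∈ limitSet :=
  ping_inv (n := 2) (g_cube i) (g_val i) (contOn_gE w1_nsq i) (fun _ h => h.step i) p

theorem lim_rot (p : S3) : rot p ∈ limitSet ↔ p ∈ limitSet := by
  refine ping_inv (n := 5) rot_six rot_val (by unfold rE lE; fun_prop) (fun q h => ?_) p
  induction h with
  | zero =>
    have e : rE (0, 0) = (0, 0) := by simp [rE, lE]
    exact e.symm ▸ Orb.zero
  | step i _ ih => exact (rE_gE w1 i _).symm ▸ ih.step (i + 1)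

end Pool.Agent.Lib.MP_b7d179_gt.Gm
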