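import Mathlib

/-! Quadratic inequalities in the vertex chart, part A. `A`, `B` range over the ball
`|A|² + |B|² ≤ 3`; `c`, `d` are primitive cube roots of unity. -/

namespace Pool.Agent.Lib.MP_b7d179_gt.Gm

open Complex

/-- primitive cube roots of unity -/
def Om (c : ℂ) : Prop := c ^ 2 + c + 1 = 0

/-- squared distance from two -/
def hh (z : ℂ) : ℝ := normSq (2 - z)

theorem Om.re {c : ℂ} (h : Om c) : c.re = -1 / 2 ∧ c.im ^ 2 = 3 / 4 := by
  have h1 := congrArg Complex.re h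
  have h2 := congrArg Complex.im h
  simp [pow_two] at h1 h2
  have h3 : c.im * (2 * c.re + 1) = 0 := by linarith
  rcases mul_eq_zero.1 h3 with e | e
  · rw [e] at h1; nlinarith [sq_nonneg (2 * c.re + 1)]
  · have r : c.re = -1 / 2 := by linarith
    rw [r] at h1
    exact ⟨r, by nlinarith⟩

/-- real coordinates in the basis `1, c` -/
theorem Om.coord {c : ℂ} (h : Om c) (A : ℂ) : ∃ x y : ℝ, A = x + y * c := by
  have hs : c.im ≠ 0 := fun e => by have := h.re.2; rw [e] at this; norm_num at this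
  refine ⟨A.re - A.im / c.im * c.re, A.im / c.im, Complex.ext ?_ ?_⟩
  · simp only [add_re, mul_re, ofReal_re, ofReal_im]; ring
  · simp only [add_im, mul_im, ofReal_re, ofReal_im]; field_simp; ring

theorem Om.nsq {c : ℂ} (h : Om c) (u v : ℝ) {z : ℂ} (e : z = u + v * c) :
    normSq z = u ^ 2 - u * v + v ^ 2 := by
  obtain ⟨r, s⟩ := h.re
  rw [e, normSq_apply]
  simp only [add_re, mul_re, add_im, mul_im, ofReal_re, ofReal_im, r]
  linear_combination v ^ 2 * s

theorem Om.cases {c d : ℂ} (hc : Om c) (hd : Om d) : d = c ∨ d = -1 - c := by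
  have : (d - c) * (d - (-1 - c)) = 0 := by unfold Om at hc hd; linear_combination hd - hc
  rcases mul_eq_zero.1 this with e | e
  · exact Or.inl (sub_eq_zero.1 e)
  · exact Or.inr (sub_eq_zero.1 e)

section
variable {c : ℂ} (h : Om c) (x y z w : ℝ)
include h

theorem Om.n0 : normSq (x + y * c) = x ^ 2 - x * y + y ^ 2 := h.nsq x y rfl
theorem Om.h0 : hh (x + y * c) = (2 - x) ^ 2 + (2 - x) * y + y ^ 2 := by
  rw [hh, h.nsq (2 - x) (-y) (by push_cast; ring)]; ring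
theorem Om.h1 : hh (c * (x + y * c)) = (2 + y) ^ 2 - (2 + y) * (y - x) + (y - x) ^ 2 :=
  h.nsq (2 + y) (y - x) (by unfold Om at h; push_cast; linear_combination (-y) * h)
theorem Om.q00 : normSq (3 - (x + y * c) - (z + w * c)) =
    (3 - x - z) ^ 2 - (3 - x - z) * (-y - w) + (-y - w) ^ 2 :=
  h.nsq (3 - x - z) (-y - w) (by push_cast; ring)
theorem Om.q01 : normSq (3 - (x + y * c) - c * (z + w * c)) =
    (3 - x + w) ^ 2 - (3 - x + w) * (w - y - z) + (w - y - z) ^ 2 :=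
  h.nsq (3 - x + w) (w - y - z) (by unfold Om at h; push_cast; linear_combination (-w) * h)
theorem Om.q11 : normSq (3 - c * (x + y * c) - c * (z + w * c)) =
    (3 + y + w) ^ 2 - (3 + y + w) * (y + w - x - z) + (y + w - x - z) ^ 2 :=
  h.nsq (3 + y + w) (y + w - x - z)
    (by unfold Om at h; push_cast; linear_combination (-y - w) * h)
theorem Om.q12 : normSq (3 - c * (x + y * c) - (-1 - c) * (z + w * c)) =
    (3 + y + z - w) ^ 2 - (3 + y + z - w) * (y - x + z) + (y - x + z) ^ 2 :=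
  h.nsq (3 + y + z - w) (y - x + z)
    (by unfold Om at h; push_cast; linear_combination (w - y) * h)
end

variable {A B c d : ℂ} (hb : normSq A + normSq B ≤ 3) (hc : Om c)
include hb hc

/-- |3 - A|² ≥ 3 when 1 ≤ hh A, and (3 - A)(1 - c) = (3 - A - c B) - c (3 - A - B). -/
theorem E1 (h1 : 11 * normSq (3 - A - B) ≤ 24) (h2 : 11 * normSq (3 - A - c * B) ≤ 24) :
    hh A < 1 := by
  obtain ⟨x, y, rfl⟩ := hc.coord A
  obtain ⟨z, w, rfl⟩ := hc.coord B
  simp only [hc.n0, hc.h0, hc.q00, hc.q01] at *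
  linarith [sq_nonneg (30 * x - 15 * y + 22 * z - 44 * w - 64), sq_nonneg (15 * y + 22 * z),
    sq_nonneg (982 * z - 491 * w - 286), sq_nonneg (491 * w + 286)]

/-- float minimum of the ratio about 1.28; |3 - A|² ≥ 3 min 1 (hh A). -/
theorem E1c (h1 : 11 * normSq (3 - A - B) ≤ 24) (h2 : 11 * normSq (3 - A - B) ≤ 24 * hh A) :
    53 * normSq (3 - A - B) ≤ 50 * normSq (3 - A - c * B) := by
  obtain ⟨x, y, rfl⟩ := hc.coord A
  obtain ⟨z, w, rfl⟩ := hc.coord B
  simp only [hc.n0, hc.h0, hc.q00, hc.q01] at *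
  linarith [sq_nonneg (494 * x - 247 * y + 552 * z - 1026 * w - 1260),
    sq_nonneg (247 * y + 500 * z + 26 * w), sq_nonneg (199322 * z - 99661 * w - 61272),
    sq_nonneg (99661 * w + 55500)]

theorem E2 (hd : Om d) (h1 : 11 * normSq (3 - A - B) ≤ 24) : 4 ≤ normSq (3 - c * A - d * B) := by
  obtain ⟨x, y, rfl⟩ := hc.coord A
  obtain ⟨z, w, rfl⟩ := hc.coord B
  rcases hc.cases hd with rfl | rfl
  · simp only [hc.n0, hc.q00, hc.q11] at *
    linarith [sq_nonneg (42 * x - 21 * y + 26 * z - 13 * w - 60), sq_nonneg (21 * y + 13 * w + 6),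
      sq_nonneg (34 * z - 17 * w - 30), sq_nonneg (17 * w + 3)]
  · simp only [hc.n0, hc.q00, hc.q12] at *
    linarith [sq_nonneg (52 * x - 26 * y + 17 * z - 16 * w - 51),
      sq_nonneg (26 * y + 5 * z + 6 * w + 15), sq_nonneg (78 * z - 39 * w - 67),
      sq_nonneg (39 * w - 43)]

/-- float minimum 4.34 -/
theorem E3 (h : hh (c * A) ≤ 1) : 4 ≤ normSq (3 - A - B) := by
  obtain ⟨x, y, rfl⟩ := hc.coord A
  obtain ⟨z, w, rfl⟩ := hc.coord B
  simp only [hc.n0, hc.h1, hc.q00] at *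
  linarith [sq_nonneg (12 * x - 6 * y + 2 * z - w), sq_nonneg (6 * y + w + 6),
    sq_nonneg (34 * z - 17 * w - 36), sq_nonneg (17 * w - 6)]

/-- float minimum 6.07 -/
theorem E4 (h : hh (c * A) ≤ 1) : 5 ≤ hh A := by
  obtain ⟨x, y, rfl⟩ := hc.coord A
  obtain ⟨z, w, rfl⟩ := hc.coord B
  simp only [hc.n0, hc.h1, hc.h0] at *
  linarith [sq_nonneg (8 * x - 4 * y + 1), sq_nonneg (4 * y + 5), sq_nonneg (2 * z - w),
    sq_nonneg w]

/-- float minimum of 3 hh B / |3 - A - B|² is 1.453 -/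
theorem E7 (h : normSq (3 - A - c * B) ≤ 2) : 11 * normSq (3 - A - B) ≤ 24 * hh B := by
  obtain ⟨x, y, rfl⟩ := hc.coord A
  obtain ⟨z, w, rfl⟩ := hc.coord B
  simp only [hc.n0, hc.h0, hc.q00, hc.q01] at *
  linarith [sq_nonneg (78 * x - 39 * y - 49 * z - 16 * w - 96), sq_nonneg (39 * y + 27 * z - 38 * w),
    sq_nonneg (2620 * z - 1310 * w - 363), sq_nonneg (1310 * w + 1863)]

omit hc in
/-- float minima: 3 / Q ≥ 2, 3 hh A / Q ≥ 2, 9 hh A - 1 - 4 Q ≥ 0.71 -/
theorem E5 (h1 : hh A ≤ 1) (h2 : hh B ≤ 1) :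
    5 * normSq (3 - A - B) ≤ 8 ∧ 5 * normSq (3 - A - B) ≤ 8 * hh A ∧
      4 * normSq (3 - A - B) + 1 < 9 * hh A := by
  obtain ⟨x, y⟩ := A
  obtain ⟨z, w⟩ := B
  simp only [hh, normSq_apply, sub_re, sub_im, re_ofNat, im_ofNat] at *
  refine ⟨?_, ?_, ?_⟩
  · linarith [sq_nonneg (21 * x - 25 * z + 9), sq_nonneg (21 * y - 25 * w), sq_nonneg (13 * z - 3),
      sq_nonneg w]
  · linarith [sq_nonneg (28 * x - 25 * z - 5), sq_nonneg (28 * y - 25 * w), sq_nonneg (26 * z + 1),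
      sq_nonneg w]
  · linarith [sq_nonneg (15 * x - 8 * z - 12), sq_nonneg (15 * y - 8 * w), sq_nonneg (13 * z - 3),
      sq_nonneg w]

end Pool.Agent.Lib.MP_b7d179_gt.Gm
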