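import Pool.Agent.Lib.MP_b7d179_gt.G.Defs
import Pool.Agent.Lib.MP_b7d179_gt.G.IneqA

/-! Relations between the generators, the symmetries and the coordinate functions. -/

namespace Pool.Agent.Lib.MP_b7d179_gt.Gm

open Set Metric Complex Stmt

theorem act_extE {p q : E} (h1 : xx p = xx q) (h2 : yy p = yy q) : p = q :=
  show xyE (xx p) (yy p) = xyE (xx q) (yy q) by rw [h1, h2]

theorem act_ext {p q : S3} (h1 : xx p.1 = xx q.1) (h2 : yy p.1 = yy q.1) : p = q :=
  Subtype.ext (act_extE h1 h2)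

theorem act_lin {a b c d : ℝ} {n n' : ℂ} (h1 : n'.re * a + n'.im * c = n.re)
    (h2 : n'.re * b + n'.im * d = n.im) (p : E) : lin n' (lE a b c d p) = lin n p := by
  simp only [lin, lE, ← h1, ← h2]
  push_cast
  ring

theorem act_uw {a b c d : ℝ} {i k : Fin 6} (h1 : (mv k).re * a + (mv k).im * c = (mv i).re)
    (h2 : (mv k).re * b + (mv k).im * d = (mv i).im) (p : E) : uw k (lE a b c d p) = uw i p := by
  rw [uw, act_lin h1 h2, uw]

theorem act_wv {a b c d : ℝ} {i k : Fin 6} (h1 : (nv k).re * a + (nv k).im * c = (nv i).re)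
    (h2 : (nv k).re * b + (nv k).im * d = (nv i).im) (p : E) : wv k (lE a b c d p) = wv i p := by
  rw [wv, act_lin h1 h2, wv]

theorem act_gE {a b c d : ℝ} {i k : Fin 6} {p : E} (hu : uw k (lE a b c d p) = uw i p)
    (h1 : a * (mv i).re + b * (mv i).im = (mv k).re)
    (h2 : c * (mv i).re + d * (mv i).im = (mv k).im) (e : ℂ) :
    lE a b c d (gE e i p) = gE e k (lE a b c d p) := by
  simp only [gE, jj, hu, ← h1, ← h2]
  simp only [lE]
  push_cast
  refine Prod.ext ?_ ?_ <;> simp only <;> ring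

theorem act_rot_uw (j : Fin 6) (p : E) :
    uw (j + 1) (lE (1 / 2) (-√3 / 2) (√3 / 2) (1 / 2) p) = uw j p := by
  refine act_uw ?_ ?_ p <;> fin_cases j <;> simp [mv] <;> linarith [r3]

theorem act_rot_gE (c : ℂ) (i : Fin 6) (p : E) : lE (1 / 2) (-√3 / 2) (√3 / 2) (1 / 2) (gE c i p) =
    gE c (i + 1) (lE (1 / 2) (-√3 / 2) (√3 / 2) (1 / 2) p) := by
  refine act_gE (act_rot_uw i p) ?_ ?_ c <;> fin_cases i <;> simp [mv] <;> linarith [r3]

theorem act_orth (i : Fin 6) :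
    (mv i).re * (mv (i + 1)).re + (mv i).im * (mv (i + 1)).im = 1 / 2 := by
  fin_cases i <;> simp [mv] <;> linarith [r3]

/-- the product of the reflections in two orthogonal walls -/
theorem act_two {c d : ℂ} {i k : Fin 6} {p : E}
    (h : (mv i).re * (mv k).re + (mv i).im * (mv k).im = 1 / 2) (hj : jj c i p ≠ 0) :
    gE d k (gE c i p) =
      ((p.1 + (1 - c) * (√2 : ℝ) * uw i p * (mv i).re + (1 - d) * (√2 : ℝ) * uw k p * (mv k).re) /
          (1 + (1 - c) * uw i p + (1 - d) * uw k p),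
        (p.2 + (1 - c) * (√2 : ℝ) * uw i p * (mv i).im + (1 - d) * (√2 : ℝ) * uw k p * (mv k).im) /
          (1 + (1 - c) * uw i p + (1 - d) * uw k p)) := by
  have h' : ((mv i).re : ℂ) * (mv k).re + ((mv i).im : ℂ) * (mv k).im = 1 / 2 := by
    have := congrArg ofReal h
    push_cast at this
    exact this
  have hu : uw k (gE c i p) = uw k p / jj c i p := by
    have e : uw k p = jj c i p - (√2 : ℝ) *
        ((mv k).re * (p.1 + (1 - c) * (√2 : ℝ) * uw i p * (mv i).re) +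
          (mv k).im * (p.2 + (1 - c) * (√2 : ℝ) * uw i p * (mv i).im)) := by
      have hk : uw k p = 1 - (√2 : ℝ) * ((mv k).re * p.1 + (mv k).im * p.2) := rfl
      rw [jj]
      linear_combination hk + (1 - c) * uw i p * (((√2 : ℝ) : ℂ) * (√2 : ℝ) * h' + s2 / 2)
    rw [e, uw, lin]
    simp only [gE]
    field_simp
  have e : jj d k (gE c i p) = (1 + (1 - c) * uw i p + (1 - d) * uw k p) / jj c i p := by
    rw [jj, hu]; field_simp; rw [jj]
  rw [gE, e, hu]
  simp only [gE]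
  refine Prod.ext ?_ ?_ <;> simp only <;> rw [eq_comm, ← div_div_div_cancel_right₀ hj] <;>
    congr 1 <;> ring

theorem act_m : mv 1 ^ 2 - mv 1 + 1 = 0 := by
  apply Complex.ext <;> simp [mv, pow_two] <;> linarith [r3]

theorem act_m6 : mv 1 ^ 6 = 1 := by linear_combination (mv 1 ^ 3 - 1) * (mv 1 + 1) * act_m

theorem act_m5 : (starRingEnd ℂ) (mv 1) = mv 1 ^ 5 := by
  have h : (starRingEnd ℂ) (mv 1) = 1 - mv 1 := by
    apply Complex.ext
    · simp [mv]; norm_num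
    · simp [mv]
  linear_combination h - (mv 1 ^ 3 + mv 1 ^ 2 - 1) * act_m

theorem act_rotE (p : E) : xx (lE (1 / 2) (-√3 / 2) (√3 / 2) (1 / 2) p) = mv 1 * xx p ∧
    yy (lE (1 / 2) (-√3 / 2) (√3 / 2) (1 / 2) p) = mv 1 * yy p := by
  constructor <;> apply Complex.ext <;>
    simp only [xx, yy, lE, mv, add_re, add_im, mul_re, mul_im, ofReal_re, ofReal_im,
      Matrix.cons_val] <;> ring

theorem act_rot (p : S3) : xx (rot p).1 = mv 1 * xx p.1 ∧ yy (rot p).1 = mv 1 * yy p.1 :=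
  act_rotE p.1

theorem act_it (k : ℕ) (p : E) :
    xx ((lE (1 / 2) (-√3 / 2) (√3 / 2) (1 / 2))^[k] p) = mv 1 ^ k * xx p ∧
    yy ((lE (1 / 2) (-√3 / 2) (√3 / 2) (1 / 2))^[k] p) = mv 1 ^ k * yy p := by
  induction k with
  | zero => simp
  | succ k ih =>
    rw [Function.iterate_succ_apply', (act_rotE _).1, (act_rotE _).2, ih.1, ih.2]
    constructor <;> ring

theorem act_rot_pow (k : ℕ) (p : S3) :
    xx ((rot ^ k) p).1 = mv 1 ^ k * xx p.1 ∧ yy ((rot ^ k) p).1 = mv 1 ^ k * yy p.1 := by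
  induction k with
  | zero => simp
  | succ k ih =>
    rw [pow_succ', Homeomorph.mul_apply, (act_rot _).1, (act_rot _).2, ih.1, ih.2]
    constructor <;> ring

theorem act_sw (p : S3) : xx (sw p).1 = mv 5 * (starRingEnd ℂ) (xx p.1) ∧
    yy (sw p).1 = mv 5 * (starRingEnd ℂ) (yy p.1) := by
  change xx (lE _ _ _ _ p.1) = _ ∧ yy (lE _ _ _ _ p.1) = _
  constructor <;> apply Complex.ext <;>
    simp only [xx, yy, lE, mv, add_re, add_im, mul_re, mul_im, ofReal_re, ofReal_im, conj_re,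
      conj_im, Matrix.cons_val] <;> ring

theorem act_sl {x e : ℂ} (hx : ‖x‖ ≤ 1) (he : ‖e‖ = 1) :
    normSq x + normSq (((√(1 - normSq x) : ℝ) : ℂ) * e) = 1 := by
  have h : 0 ≤ 1 - normSq x := by
    rw [normSq_eq_norm_sq]; nlinarith [norm_nonneg x]
  rw [normSq_mul, normSq_ofReal, Real.mul_self_sqrt h, normSq_eq_norm_sq e, he]
  ring

theorem om_w1 : Om w1 := w1_cube
theorem om_w2 : Om (w1 ^ 2) := by
  change (w1 ^ 2) ^ 2 + w1 ^ 2 + 1 = 0
  linear_combination (w1 ^ 2 - w1 + 1) * w1_cube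
theorem g_val (i : Fin 6) (p : S3) : (g i p).1 = gE w1 i p.1 := rfl
theorem g_pow_val (i : Fin 6) (k : ℕ) (p : S3) : ((g i ^ k) p).1 = gE (w1 ^ k) i p.1 := by
  induction k with
  | zero => rw [pow_zero, pow_zero, gE_one]; rfl
  | succ k ih =>
    rw [pow_succ', Homeomorph.mul_apply, g_val, ih,
      gE_gE (by rw [map_pow, w1_nsq, one_pow]) w1_nsq i (nsq_S3 p).le, ← pow_succ']
theorem g_cube (i : Fin 6) : g i ^ 3 = 1 := Homeomorph.ext fun p => Subtype.ext (by
  rw [g_pow_val, w1_three, gE_one]; rfl)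
theorem g_comm (i : Fin 6) : g i * g (i + 1) = g (i + 1) * g i := Homeomorph.ext fun p => Subtype.ext (by
  change gE w1 i (gE w1 (i + 1) p.1) = gE w1 (i + 1) (gE w1 i p.1)
  rw [act_two (act_orth i) (jj_ne w1_nsq i (nsq_S3 p).le),
    act_two (by rw [← act_orth i]; ring) (jj_ne w1_nsq (i + 1) (nsq_S3 p).le)]
  refine Prod.ext ?_ ?_ <;> simp only <;> congr 1 <;> ring)
theorem rot_six : rot ^ 6 = 1 := Homeomorph.ext fun p => act_ext
  (by rw [(act_rot_pow 6 p).1, act_m6, one_mul]; rfl)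
  (by rw [(act_rot_pow 6 p).2, act_m6, one_mul]; rfl)
theorem rot_g (i : Fin 6) : rot * g i = g (i + 1) * rot := Homeomorph.ext fun p =>
  Subtype.ext (act_rot_gE w1 i p.1)
theorem sw_sw : sw * sw = 1 := Homeomorph.ext fun p => Subtype.ext
  (lE_lE (by nlinarith [r3]) (by nlinarith [r3]) (by ring) p.1)
theorem cj_cj : cj * cj = 1 := Homeomorph.ext fun p => Subtype.ext (by
  change cjE (cjE p.1) = p.1
  simp [cjE])
theorem sw_g (i : Fin 6) : sw * g i = g (5 - i) * sw := Homeomorph.ext fun p => Subtype.ext (by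
  refine act_gE (act_uw ?_ ?_ p.1) ?_ ?_ w1 <;> fin_cases i <;> simp [mv] <;> linarith [r3])
theorem cj_g (i : Fin 6) : cj * g i = g i ^ 2 * cj := Homeomorph.ext fun p => Subtype.ext (by
  rw [Homeomorph.mul_apply, Homeomorph.mul_apply, g_pow_val]
  change cjE (gE w1 i p.1) = gE (w1 ^ 2) i (cjE p.1)
  have h : (starRingEnd ℂ) w1 = w1 ^ 2 := by
    apply Complex.ext <;> simp [w1, pow_two] <;> linarith [r3]
  simp only [cjE, gE, jj, uw, lin, map_div₀, map_add, map_mul, map_sub, map_one, conj_ofReal, h])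
theorem sw_rot : sw * rot = rot ^ 5 * sw := Homeomorph.ext fun p => act_ext
  (by
    rw [Homeomorph.mul_apply, Homeomorph.mul_apply, (act_rot_pow 5 _).1, (act_sw _).1, (act_sw _).1,
      (act_rot _).1, map_mul, act_m5]
    ring)
  (by
    rw [Homeomorph.mul_apply, Homeomorph.mul_apply, (act_rot_pow 5 _).2, (act_sw _).2, (act_sw _).2,
      (act_rot _).2, map_mul, act_m5]
    ring)
theorem cj_rot : cj * rot = rot * cj := Homeomorph.ext fun p => Subtype.ext (by
  change cjE (lE _ _ _ _ p.1) = lE _ _ _ _ (cjE p.1)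
  simp only [cjE, lE, map_add, map_mul, conj_ofReal])

/-- the rotation in the ambient space -/
noncomputable def rE : E → E := lE (1 / 2) (-√3 / 2) (√3 / 2) (1 / 2)
theorem rot_val (p : S3) : (rot p).1 = rE p.1 := rfl
theorem nsq_rE (p : E) : nsq (rE p) = nsq p := nsq_lE (by nlinarith [r3]) (by nlinarith [r3]) (by ring) p
theorem wv_rE (j : Fin 6) (p : E) : wv (j + 1) (rE p) = wv j p := by
  refine act_wv ?_ ?_ p <;> fin_cases j <;> simp [nv] <;> linarith [r3]
theorem uw_rE (j : Fin 6) (p : E) : uw (j + 1) (rE p) = uw j p := act_rot_uw j p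
theorem av_rE (j : Fin 6) (p : E) : av (j + 1) (rE p) = av j p := by rw [av, wv_rE, av]
theorem rE_gE (c : ℂ) (i : Fin 6) (p : E) : rE (gE c i p) = gE c (i + 1) (rE p) := act_rot_gE c i p
theorem rE_six (p : E) : rE^[6] p = p := act_extE
  ((act_it 6 p).1.trans (by rw [act_m6, one_mul])) ((act_it 6 p).2.trans (by rw [act_m6, one_mul]))
theorem av_rot (j : Fin 6) (p : S3) : av (j + 1) (rot p).1 = av j p.1 := av_rE j p.1
theorem av_sw (j : Fin 6) (p : S3) : av j (sw p).1 = av (-j) p.1 := by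
  refine congrArg normSq (act_wv ?_ ?_ p.1) <;> fin_cases j <;> simp [nv] <;> linarith [r3]
theorem av_cj (j : Fin 6) (p : S3) : av j (cj p).1 = av j p.1 := by
  change normSq (wv j (cjE p.1)) = normSq (wv j p.1)
  rw [← normSq_conj (wv j p.1)]
  simp only [cjE, wv, lin, map_add, map_mul, map_sub, conj_ofReal]
theorem xx_rot (p : S3) : xx (rot p).1 = mv 1 * xx p.1 := (act_rot p).1
theorem yy_rot (p : S3) : yy (rot p).1 = mv 1 * yy p.1 := (act_rot p).2
theorem xx_sw (p : S3) : xx (sw p).1 = mv 5 * (starRingEnd ℂ) (xx p.1) := (act_sw p).1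
theorem yy_sw (p : S3) : yy (sw p).1 = mv 5 * (starRingEnd ℂ) (yy p.1) := (act_sw p).2
theorem xx_cj (p : S3) : xx (cj p).1 = xx p.1 := rfl
theorem yy_cj (p : S3) : yy (cj p).1 = -yy p.1 := rfl
theorem nv_succ (j : Fin 6) : nv (j + 1) = mv 1 * nv j := by
  fin_cases j <;> apply Complex.ext <;> simp [nv, mv] <;> linarith [r3]
theorem mv_succ (j : Fin 6) : mv (j + 1) = mv 1 * mv j := by
  fin_cases j <;> apply Complex.ext <;> simp [mv] <;> linarith [r3]

/-! real and imaginary parts -/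
theorem cont_xx : Continuous xx := by
  have h : xx = fun p : E => ((p.1.re : ℂ) + (p.2.re : ℂ) * I) :=
    funext fun p => by apply Complex.ext <;> simp [xx]
  rw [h]; fun_prop
theorem cont_yy : Continuous yy := by
  have h : yy = fun p : E => ((p.1.im : ℂ) + (p.2.im : ℂ) * I) :=
    funext fun p => by apply Complex.ext <;> simp [yy]
  rw [h]; fun_prop
theorem nsq_xy (p : E) : nsq p = normSq (xx p) + normSq (yy p) := by
  simp only [nsq, xx, yy, normSq_apply]; ring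
theorem xyE_xx (p : E) : xyE (xx p) (yy p) = p := rfl
theorem xx_xyE (x y : ℂ) : xx (xyE x y) = x := rfl
theorem yy_xyE (x y : ℂ) : yy (xyE x y) = y := rfl
theorem ext_xy {p q : S3} (h1 : xx p.1 = xx q.1) (h2 : yy p.1 = yy q.1) : p = q := act_ext h1 h2
theorem xy_val {x y : ℂ} (h : normSq x + normSq y = 1) : xx (xy x y).1 = x ∧ yy (xy x y).1 = y := by
  rw [xy, pt_val (by rw [nsq_xy]; exact h)]
  exact ⟨rfl, rfl⟩
theorem xy_coe (p : S3) : xy (xx p.1) (yy p.1) = p := pt_coe p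
theorem contOn_xy : ContinuousOn (fun q : ℂ × ℂ => xy q.1 q.2) {q | normSq q.1 + normSq q.2 = 1} := by
  refine contOn_pt (f := fun q : ℂ × ℂ => xyE q.1 q.2) (Continuous.continuousOn ?_) fun q hq => by
    rw [nsq_xy]; exact hq
  exact (cont_xx.comp continuous_id).prodMk (cont_yy.comp continuous_id)
theorem sl_val {x e : ℂ} (hx : ‖x‖ ≤ 1) (he : ‖e‖ = 1) :
    xx (sl x e).1 = x ∧ yy (sl x e).1 = (√(1 - normSq x) : ℝ) * e := xy_val (act_sl hx he)
theorem contOn_sl : ContinuousOn (fun q : ℂ × ℂ => sl q.1 q.2) (closedBall 0 1 ×ˢ sphere 0 1) :=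
  contOn_xy.comp (f := fun q : ℂ × ℂ => (q.1, ((√(1 - normSq q.1) : ℝ) : ℂ) * q.2)) (by fun_prop)
    fun _ hq => act_sl (mem_closedBall_zero_iff.1 hq.1) (mem_sphere_zero_iff_norm.1 hq.2)
theorem sl_surj (p : S3) : ‖xx p.1‖ ≤ 1 ∧ ∃ e : ℂ, ‖e‖ = 1 ∧ sl (xx p.1) e = p := by
  have h := nsq_S3 p
  rw [nsq_xy] at h
  have h1 : √(1 - normSq (xx p.1)) = ‖yy p.1‖ := by
    rw [show 1 - normSq (xx p.1) = normSq (yy p.1) by linarith]; rfl
  refine ⟨?_, ?_⟩
  · rw [← sq_le_one_iff₀ (norm_nonneg _), ← normSq_eq_norm_sq]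
    linarith [normSq_nonneg (yy p.1)]
  · obtain ⟨e, he, k⟩ : ∃ e : ℂ, ‖e‖ = 1 ∧ (‖yy p.1‖ : ℂ) * e = yy p.1 :=
      ⟨exp (arg (yy p.1) * I), norm_exp_ofReal_mul_I _, norm_mul_exp_arg_mul_I _⟩
    exact ⟨e, he, by rw [sl, h1, k, xy_coe]⟩
theorem sl_eq {x e x' e' : ℂ} (hx : ‖x‖ ≤ 1) (he : ‖e‖ = 1) (hx' : ‖x'‖ ≤ 1) (he' : ‖e'‖ = 1) :
    sl x e = sl x' e' ↔ x = x' ∧ (e = e' ∨ ‖x‖ = 1) := by
  constructor
  · intro h
    have h1 : x = x' := by rw [← (sl_val hx he).1, h, (sl_val hx' he').1]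
    have h2 := (sl_val hx he).2
    rw [h, (sl_val hx' he').2, ← h1, mul_eq_mul_left_iff, ofReal_eq_zero, Real.sqrt_eq_zero',
      normSq_eq_norm_sq] at h2
    refine ⟨h1, h2.imp Eq.symm fun k => le_antisymm hx ?_⟩
    nlinarith [norm_nonneg x]
  · rintro ⟨rfl, rfl | k⟩
    · rfl
    · simp [sl, normSq_eq_norm_sq, k]
theorem av_xy (j : Fin 6) (p : E) : av j p = (√3 - √2 * ((starRingEnd ℂ) (nv j) * xx p).re) ^ 2 +
    2 * ((starRingEnd ℂ) (nv j) * yy p).re ^ 2 := by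
  simp only [av, wv, lin, xx, yy, normSq_apply, add_re, add_im, mul_re, mul_im, sub_re, sub_im,
    ofReal_re, ofReal_im, conj_re, conj_im]
  linear_combination ((nv j).re * p.1.im + (nv j).im * p.2.im) ^ 2 * r2
theorem av_sub (p : E) :
    av 0 p - av 1 p = 2 * √3 * (p.2.re * (√2 - p.1.re) - p.1.im * p.2.im) := by
  rw [av_xy, av_xy]
  simp only [nv, xx, yy, mul_re, conj_re, conj_im, Matrix.cons_val]
  linear_combination (-(√3 * p.1.re * p.2.re)) * r2

end Pool.Agent.Lib.MP_b7d179_gt.Gm
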