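import Pool.Agent.Lib.MP_b7d179_gt.T.Defs

/-! Kit C: the piecewise linear push of a point of an interval, and a fixed point homeomorphism. -/

namespace Pool.Agent.Lib.MP_b7d179_gt.Gm

open Set Metric

/-- identity off `(lo, hi)`, linear on `[lo, m]` and `[m, hi]`, takes `m` to `n` -/
noncomputable def pl (lo m n hi t : ℝ) : ℝ :=
  if lo < m ∧ lo < n ∧ m < hi ∧ n < hi then
    (if t ≤ lo ∨ hi ≤ t then t else
      if t ≤ m then lo + (t - lo) * (n - lo) / (m - lo) else hi - (hi - t) * (hi - n) / (hi - m))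
  else t

theorem pl_out {lo m n hi t : ℝ} (h : t ≤ lo ∨ hi ≤ t) : pl lo m n hi t = t := by
  simp only [pl, if_pos h, ite_self]

theorem kitC_bad {lo m n hi : ℝ} (h : ¬ (lo < m ∧ lo < n ∧ m < hi ∧ n < hi)) (t : ℝ) :
    pl lo m n hi t = t := if_neg h

theorem kitC_low {lo m n hi t : ℝ} (h : lo < m ∧ lo < n ∧ m < hi ∧ n < hi) (a : lo ≤ t)
    (b : t ≤ m) : pl lo m n hi t = lo + (t - lo) * ((n - lo) / (m - lo)) := by
  rcases a.eq_or_lt with rfl | a
  · rw [pl_out (Or.inl le_rfl)]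
    simp
  · rw [pl, if_pos h, if_neg (not_or.2 ⟨not_le.2 a, not_le.2 (b.trans_lt h.2.2.1)⟩), if_pos b,
      mul_div_assoc]

theorem kitC_high {lo m n hi t : ℝ} (h : lo < m ∧ lo < n ∧ m < hi ∧ n < hi) (a : m ≤ t)
    (b : t ≤ hi) : pl lo m n hi t = hi - (hi - t) * ((hi - n) / (hi - m)) := by
  rcases a.eq_or_lt with rfl | a
  · have h1 := (sub_pos.2 h.1).ne'
    have h2 := (sub_pos.2 h.2.2.1).ne'
    rw [kitC_low h h.1.le le_rfl]
    field_simp
    ring
  rcases b.eq_or_lt with rfl | b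
  · rw [pl_out (Or.inr le_rfl)]
    simp
  · rw [pl, if_pos h, if_neg (not_or.2 ⟨not_le.2 (h.1.trans a), not_le.2 b⟩), if_neg (not_le.2 a),
      mul_div_assoc]

theorem pl_same (lo m hi t : ℝ) : pl lo m m hi t = t := by
  by_cases h : lo < m ∧ lo < m ∧ m < hi ∧ m < hi
  · rcases le_total t lo with a | a
    · exact pl_out (Or.inl a)
    rcases le_total hi t with b | b
    · exact pl_out (Or.inr b)
    rcases le_total t m with c | c
    · rw [kitC_low h a c, div_self (sub_pos.2 h.1).ne']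
      ring
    · rw [kitC_high h c b, div_self (sub_pos.2 h.2.2.1).ne']
      ring
  · exact kitC_bad h t

theorem pl_node {lo m n hi : ℝ} (h : m = n ∨ (lo < m ∧ lo < n ∧ m < hi ∧ n < hi)) :
    pl lo m n hi m = n := by
  rcases h with rfl | h
  · exact pl_same ..
  · have h1 := (sub_pos.2 h.1).ne'
    rw [kitC_low h h.1.le le_rfl]
    field_simp
    ring

theorem pl_mono (lo m n hi : ℝ) : StrictMono (pl lo m n hi) := by
  by_cases h : lo < m ∧ lo < n ∧ m < hi ∧ n < hi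
  · have p : 0 < (n - lo) / (m - lo) := div_pos (sub_pos.2 h.2.1) (sub_pos.2 h.1)
    have q : 0 < (hi - n) / (hi - m) := div_pos (sub_pos.2 h.2.2.2) (sub_pos.2 h.2.2.1)
    have a1 : StrictMonoOn (pl lo m n hi) (Iic lo) := fun x hx y hy k => by
      rwa [pl_out (Or.inl hx), pl_out (Or.inl hy)]
    have a2 : StrictMonoOn (pl lo m n hi) (Icc lo m) := fun x hx y hy k => by
      rw [kitC_low h hx.1 hx.2, kitC_low h hy.1 hy.2]
      nlinarith [mul_pos (sub_pos.2 k) p]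
    have a3 : StrictMonoOn (pl lo m n hi) (Icc m hi) := fun x hx y hy k => by
      rw [kitC_high h hx.1 hx.2, kitC_high h hy.1 hy.2]
      nlinarith [mul_pos (sub_pos.2 k) q]
    have a4 : StrictMonoOn (pl lo m n hi) (Ici hi) := fun x hx y hy k => by
      rwa [pl_out (Or.inr hx), pl_out (Or.inr hy)]
    have b1 := a1.union a2 isGreatest_Iic (isLeast_Icc h.1.le)
    have b2 := a3.union a4 (isGreatest_Icc h.2.2.1.le) isLeast_Ici
    rw [Iic_union_Icc_eq_Iic h.1.le] at b1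
    rw [Icc_union_Ici_eq_Ici h.2.2.1.le] at b2
    exact b1.Iic_union_Ici b2
  · exact fun x y k => by rwa [kitC_bad h, kitC_bad h]

theorem pl_mem {lo m n hi t : ℝ} (h : t ∈ Icc lo hi) : pl lo m n hi t ∈ Icc lo hi :=
  ⟨(pl_out (Or.inl le_rfl)).symm.trans_le ((pl_mono lo m n hi).monotone h.1),
    ((pl_mono lo m n hi).monotone h.2).trans_eq (pl_out (Or.inr le_rfl))⟩

theorem pl_inv (lo m n hi t : ℝ) : pl lo n m hi (pl lo m n hi t) = t := by
  by_cases h : lo < m ∧ lo < n ∧ m < hi ∧ n < hi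
  · have h' : lo < n ∧ lo < m ∧ n < hi ∧ m < hi := ⟨h.2.1, h.1, h.2.2.2, h.2.2.1⟩
    rcases le_total t lo with a | a
    · rw [pl_out (t := t) (Or.inl a), pl_out (Or.inl a)]
    rcases le_total hi t with b | b
    · rw [pl_out (t := t) (Or.inr b), pl_out (Or.inr b)]
    have k := pl_mem (m := m) (n := n) ⟨a, b⟩
    rcases le_total t m with c | c
    · have h1 := (sub_pos.2 h.1).ne'
      have h2 := (sub_pos.2 h.2.1).ne'
      rw [kitC_low h' k.1 (((pl_mono lo m n hi).monotone c).trans_eq (pl_node (Or.inr h))),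
        kitC_low h a c]
      field_simp
      ring
    · have h1 := (sub_pos.2 h.2.2.1).ne'
      have h2 := (sub_pos.2 h.2.2.2).ne'
      rw [kitC_high h' ((pl_node (Or.inr h)).symm.trans_le ((pl_mono lo m n hi).monotone c)) k.2,
        kitC_high h c b]
      field_simp
      ring
  · rw [kitC_bad h, kitC_bad fun k => h ⟨k.2.1, k.1, k.2.2.2, k.2.2.1⟩]

/-- The closed form in the good case. -/
theorem kitC_form {lo m n hi : ℝ} (h : lo < m ∧ lo < n ∧ m < hi ∧ n < hi) (t : ℝ) :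
    pl lo m n hi t = t + (n - m) * max 0 (min ((t - lo) / (m - lo)) ((hi - t) / (hi - m))) := by
  have h1 := sub_pos.2 h.1
  have h2 := sub_pos.2 h.2.2.1
  rcases le_total t lo with a | a
  · rw [pl_out (Or.inl a), max_eq_left ((min_le_left _ _).trans
      (div_nonpos_of_nonpos_of_nonneg (sub_nonpos.2 a) h1.le))]
    ring
  rcases le_total hi t with b | b
  · rw [pl_out (Or.inr b), max_eq_left ((min_le_right _ _).trans
      (div_nonpos_of_nonpos_of_nonneg (sub_nonpos.2 b) h2.le))]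
    ring
  rw [max_eq_right (le_min (div_nonneg (sub_nonneg.2 a) h1.le) (div_nonneg (sub_nonneg.2 b) h2.le))]
  rcases le_total t m with c | c
  · rw [kitC_low h a c, min_eq_left (((div_le_one h1).2 (sub_le_sub_right c _)).trans
      ((one_le_div h2).2 (sub_le_sub_left c _)))]
    field_simp
    ring
  · rw [kitC_high h c b, min_eq_right (((div_le_one h2).2 (sub_le_sub_left c _)).trans
      ((one_le_div h1).2 (sub_le_sub_right c _)))]
    field_simp
    ring

theorem pl_dist (lo m n hi t : ℝ) : |pl lo m n hi t - t| ≤ |m - n| := by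
  by_cases h : lo < m ∧ lo < n ∧ m < hi ∧ n < hi
  · rw [kitC_form h, add_sub_cancel_left, abs_mul, abs_sub_comm,
      abs_of_nonneg (le_max_left (0 : ℝ) _)]
    refine mul_le_of_le_one_right (abs_nonneg _) (max_le zero_le_one ?_)
    rcases le_total t m with c | c
    · exact (min_le_left _ _).trans ((div_le_one (sub_pos.2 h.1)).2 (sub_le_sub_right c _))
    · exact (min_le_right _ _).trans ((div_le_one (sub_pos.2 h.2.2.1)).2 (sub_le_sub_left c _))
  · rw [kitC_bad h, sub_self, abs_zero]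
    exact abs_nonneg _

open Filter Topology in
theorem pl_cont {X : Type*} [TopologicalSpace X] {A : Set X} {lo m n hi t : X → ℝ}
    (c1 : ContinuousOn lo A) (c2 : ContinuousOn m A) (c3 : ContinuousOn n A)
    (c4 : ContinuousOn hi A) (c5 : ContinuousOn t A)
    (h : ∀ x ∈ A, m x = n x ∨ (lo x < m x ∧ lo x < n x ∧ m x < hi x ∧ n x < hi x)) :
    ContinuousOn (fun x => pl (lo x) (m x) (n x) (hi x) (t x)) A := by
  intro x hx
  rcases h x hx with e | k
  · have a : Tendsto (fun y => |m y - n y|) (𝓝[A] x) (𝓝 0) := by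
      simpa [e] using ((c2 x hx).tendsto.sub (c3 x hx).tendsto).abs
    have b : Tendsto (fun y => pl (lo y) (m y) (n y) (hi y) (t y) - t y) (𝓝[A] x) (𝓝 0) :=
      squeeze_zero_norm (fun y => pl_dist ..) a
    have c := b.add (c5 x hx).tendsto
    simp only [sub_add_cancel, zero_add] at c
    change Tendsto _ _ (𝓝 (pl (lo x) (m x) (n x) (hi x) (t x)))
    rwa [← e, pl_same]
  · have l : ∀ {p q : X → ℝ}, ContinuousOn p A → ContinuousOn q A → p x < q x →
        ∀ᶠ y in 𝓝[A] x, p y < q y := fun a b c => (a x hx).tendsto.eventually_lt (b x hx).tendsto c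
    refine ContinuousWithinAt.congr_of_eventuallyEq (f := fun y => t y + (n y - m y) *
      max 0 (min ((t y - lo y) / (m y - lo y)) ((hi y - t y) / (hi y - m y)))) ?_ ?_
      (kitC_form k _)
    · exact (c5 x hx).add (((c3 x hx).sub (c2 x hx)).mul (continuousWithinAt_const.max
        ((((c5 x hx).sub (c1 x hx)).div ((c2 x hx).sub (c1 x hx)) (sub_pos.2 k.1).ne').min
          (((c4 x hx).sub (c5 x hx)).div ((c4 x hx).sub (c2 x hx)) (sub_pos.2 k.2.2.1).ne'))))
    · filter_upwards [l c1 c2 k.1, l c1 c3 k.2.1, l c2 c4 k.2.2.1, l c3 c4 k.2.2.2] with y a b c d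
      exact kitC_form ⟨a, b, c, d⟩ _

section
variable {Z : Type*} [TopologicalSpace Z]

theorem kitC_mem {e : Z ≃ₜ Z} {A : Set Z} (h : ∀ x, x ∉ A → e x = x) {x : Z} (hx : x ∈ A) :
    e x ∈ A := by
  by_contra k
  exact k ((e.injective (h _ k)).symm ▸ hx)

theorem kitC_symm {e : Z ≃ₜ Z} {A : Set Z} (h : ∀ x, x ∉ A → e x = x) (x : Z) (hx : x ∉ A) :
    e.symm x = x := e.injective ((e.apply_symm_apply x).trans (h x hx).symm)

/-- The product of two conjugates with disjoint supports. -/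
theorem kitC_prod (g g' ψ : Z ≃ₜ Z) {U : Set Z} (dj : Disjoint (g '' U) (g' '' U))
    (h : ∀ x, x ∉ U → ψ x = x) : ∃ P : Z ≃ₜ Z, (∀ x, x ∉ g '' U ∪ g' '' U → P x = x) ∧
      ∀ y ∈ U, P (g y) = g (ψ y) ∧ P (g' y) = g' (ψ y) := by
  have a : ∀ (k : Z ≃ₜ Z) x, x ∉ k '' U → k (ψ (k.symm x)) = x := fun k x hx => by
    rw [h _ fun l => hx ⟨_, l, k.apply_symm_apply x⟩, k.apply_symm_apply]
  refine ⟨((g'.symm.trans ψ).trans g').trans ((g.symm.trans ψ).trans g), fun x hx => ?_,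
    fun y hy => ⟨?_, ?_⟩⟩
  · change g (ψ (g.symm (g' (ψ (g'.symm x))))) = x
    rw [a g' x fun k => hx (Or.inr k), a g x fun k => hx (Or.inl k)]
  · change g (ψ (g.symm (g' (ψ (g'.symm (g y)))))) = _
    rw [a g' _ (disjoint_left.1 dj (mem_image_of_mem _ hy)), g.symm_apply_apply]
  · change g (ψ (g.symm (g' (ψ (g'.symm (g' y)))))) = _
    rw [g'.symm_apply_apply, a g _ (disjoint_right.1 dj (mem_image_of_mem _ (kitC_mem h hy)))]

end

open Filter Topology in
/-- Geometric uniform convergence of homeomorphisms and of their inverses. -/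
theorem kitC_lim {Z : Type*} [MetricSpace Z] [CompactSpace Z] (f : ℕ → Z ≃ₜ Z) {θ C : ℝ}
    (h1 : θ < 1) (hC : ∀ n, 0 ≤ C * θ ^ n) (a : ∀ n x, dist (f n x) (f (n + 1) x) ≤ C * θ ^ n)
    (b : ∀ n x, dist ((f n).symm x) ((f (n + 1)).symm x) ≤ C * θ ^ n) :
    ∃ h : Z ≃ₜ Z, ∀ x, Tendsto (fun n => f n x) atTop (𝓝 (h x)) := by
  obtain ⟨F, hF⟩ := cauchySeq_tendsto_of_complete (cauchySeq_of_le_geometric θ C h1
    (f := fun n => (f n : C(Z, Z))) fun n => (ContinuousMap.dist_le (hC n)).2 (a n))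
  obtain ⟨G, hG⟩ := cauchySeq_tendsto_of_complete (cauchySeq_of_le_geometric θ C h1
    (f := fun n => ((f n).symm : C(Z, Z))) fun n => (ContinuousMap.dist_le (hC n)).2 (b n))
  refine ⟨⟨⟨F, G, fun x => ?_, fun x => ?_⟩, F.continuous, G.continuous⟩,
    fun x => hF.eval_const x⟩
  · exact tendsto_nhds_unique (hG.eval (hF.eval_const x))
      (tendsto_const_nhds.congr fun n => ((f n).symm_apply_apply x).symm)
  · exact tendsto_nhds_unique (hF.eval (hG.eval_const x))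
      (tendsto_const_nhds.congr fun n => ((f n).apply_symm_apply x).symm)

open Filter Topology in
/-- Limit of `f 0 = 1`, `f (n+1) = ∏ k (s (f n) s⁻¹ Θ) k⁻¹` over `k = g, g'`. Proof: the supremum of
`ϱ (f (n+1) x) (f n x)` over the points where the two differ, and the same for the inverses, is at
most `C θ ^ n`. -/
theorem fix_homeo {Z : Type*} [MetricSpace Z] [CompactSpace Z] (g g' s Θ : Z ≃ₜ Z) (U : Set Z)
    (ϱ : Z → Z → ℝ) {θ C : ℝ} (hU : IsClosed U) (h0 : 0 ≤ θ) (h1 : θ < 1)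
    (dj : Disjoint (g '' U) (g' '' U)) (sV : s '' (g '' U ∪ g' '' U) ⊆ U)
    (supp : ∀ x, x ∉ U → Θ x = x) (r0 : ∀ x y, dist x y ≤ ϱ x y) (rC : ∀ x y, ϱ x y ≤ C)
    (rs : ∀ x y, ϱ (s x) (s y) = ϱ x y)
    (rg : ∀ x ∈ U, ∀ y ∈ U, ϱ (g x) (g y) ≤ θ * ϱ x y ∧ ϱ (g' x) (g' y) ≤ θ * ϱ x y)
    (rΘ : ∀ x ∈ s '' (g '' U ∪ g' '' U), ∀ y ∈ s '' (g '' U ∪ g' '' U),
      ϱ (Θ.symm x) (Θ.symm y) ≤ ϱ x y) :
    ∃ h : Z ≃ₜ Z, (∀ x, x ∉ g '' U ∪ g' '' U → h x = x) ∧
      ∀ y ∈ U, h (g y) = g (s (h (s.symm (Θ y)))) ∧ h (g' y) = g' (s (h (s.symm (Θ y)))) := by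
  have _ := hU
  rcases isEmpty_or_nonempty Z with _ | ⟨⟨z⟩⟩
  · exact ⟨.refl Z, fun x => isEmptyElim x, fun x => isEmptyElim x⟩
  have hC : ∀ n, 0 ≤ C * θ ^ n := fun n =>
    mul_nonneg ((dist_nonneg.trans (r0 z z)).trans (rC z z)) (pow_nonneg h0 n)
  set V := g '' U ∪ g' '' U with hV
  let ψ : (Z ≃ₜ Z) → Z ≃ₜ Z := fun f => Θ.trans (s.symm.trans (f.trans s))
  have hψ : ∀ f : Z ≃ₜ Z, (∀ x, x ∉ V → f x = x) → ∀ x, x ∉ U → ψ f x = x := fun f hf x hx => by
    change s (f (s.symm (Θ x))) = x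
    rw [supp x hx, hf _ fun k => hx (sV ⟨_, k, s.apply_symm_apply x⟩), s.apply_symm_apply]
  choose T T1 T2 using fun f : {f : Z ≃ₜ Z // ∀ x, x ∉ V → f x = x} =>
    kitC_prod g g' (ψ f.1) dj (hψ f.1 f.2)
  let F : ℕ → {f : Z ≃ₜ Z // ∀ x, x ∉ V → f x = x} :=
    fun n => Nat.rec ⟨.refl Z, fun _ _ => rfl⟩ (fun _ f => ⟨T f, T1 f⟩) n
  have T3 : ∀ f, ∀ y ∈ U, (T f).symm (g y) = g ((ψ f.1).symm y) ∧
      (T f).symm (g' y) = g' ((ψ f.1).symm y) := fun f y hy => by
    have k := T2 f _ (kitC_mem (kitC_symm (hψ f.1 f.2)) hy)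
    rw [Homeomorph.apply_symm_apply] at k
    exact ⟨by rw [← k.1, Homeomorph.symm_apply_apply], by rw [← k.2, Homeomorph.symm_apply_apply]⟩
  have step : ∀ n {p q : Z}, p ∈ U → q ∈ U → (p = q ∨ ϱ p q ≤ C * θ ^ n) →
      (g p = g q ∨ ϱ (g p) (g q) ≤ C * θ ^ (n + 1)) ∧
        (g' p = g' q ∨ ϱ (g' p) (g' q) ≤ C * θ ^ (n + 1)) := fun n p q hp hq k => by
    rcases k with rfl | k
    · exact ⟨Or.inl rfl, Or.inl rfl⟩
    · have e : θ * ϱ p q ≤ C * θ ^ (n + 1) :=
        (mul_le_mul_of_nonneg_left k h0).trans_eq (by ring)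
      exact ⟨Or.inr ((rg p hp q hq).1.trans e), Or.inr ((rg p hp q hq).2.trans e)⟩
  have A : ∀ n x, (F n).1 x = (F (n + 1)).1 x ∨ ϱ ((F n).1 x) ((F (n + 1)).1 x) ≤ C * θ ^ n := by
    intro n
    induction n with
    | zero => exact fun x => Or.inr ((rC _ _).trans_eq (by simp))
    | succ n ih =>
      intro x
      have k : ∀ y ∈ U, _ := fun y hy => step n (kitC_mem (hψ _ (F n).2) hy)
        (kitC_mem (hψ _ (F (n + 1)).2) hy) ((ih (s.symm (Θ y))).imp (congrArg s)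
          fun l => (rs _ _).trans_le l)
      change T (F n) x = T (F (n + 1)) x ∨ ϱ (T (F n) x) (T (F (n + 1)) x) ≤ _
      by_cases hx : x ∈ V
      · rcases hx with ⟨y, hy, rfl⟩ | ⟨y, hy, rfl⟩
        · rw [(T2 _ y hy).1, (T2 _ y hy).1]
          exact (k y hy).1
        · rw [(T2 _ y hy).2, (T2 _ y hy).2]
          exact (k y hy).2
      · exact Or.inl ((T1 _ x hx).trans (T1 _ x hx).symm)
  have B : ∀ n x, (F n).1.symm x = (F (n + 1)).1.symm x ∨
      ϱ ((F n).1.symm x) ((F (n + 1)).1.symm x) ≤ C * θ ^ n := by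
    intro n
    induction n with
    | zero => exact fun x => Or.inr ((rC _ _).trans_eq (by simp))
    | succ n ih =>
      intro x
      have k : ∀ y ∈ U, _ := fun y hy => step n (kitC_mem (kitC_symm (hψ _ (F n).2)) hy)
        (kitC_mem (kitC_symm (hψ _ (F (n + 1)).2)) hy) (by
          change Θ.symm (s ((F n).1.symm (s.symm y))) = Θ.symm (s ((F (n + 1)).1.symm (s.symm y))) ∨
            ϱ (Θ.symm (s ((F n).1.symm (s.symm y)))) (Θ.symm (s ((F (n + 1)).1.symm (s.symm y)))) ≤ _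
          by_cases hz : s.symm y ∈ V
          · exact (ih (s.symm y)).imp (fun l => by rw [l]) fun l =>
              (rΘ _ (mem_image_of_mem _ (kitC_mem (kitC_symm (F n).2) hz)) _
                (mem_image_of_mem _ (kitC_mem (kitC_symm (F (n + 1)).2) hz))).trans
                  ((rs _ _).trans_le l)
          · exact Or.inl (by rw [kitC_symm (F n).2 _ hz, kitC_symm (F (n + 1)).2 _ hz]))
      change (T (F n)).symm x = (T (F (n + 1))).symm x ∨
        ϱ ((T (F n)).symm x) ((T (F (n + 1))).symm x) ≤ _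
      by_cases hx : x ∈ V
      · rcases hx with ⟨y, hy, rfl⟩ | ⟨y, hy, rfl⟩
        · rw [(T3 _ y hy).1, (T3 _ y hy).1]
          exact (k y hy).1
        · rw [(T3 _ y hy).2, (T3 _ y hy).2]
          exact (k y hy).2
      · exact Or.inl ((kitC_symm (T1 _) x hx).trans (kitC_symm (T1 _) x hx).symm)
  have d : ∀ n {p q : Z}, (p = q ∨ ϱ p q ≤ C * θ ^ n) → dist p q ≤ C * θ ^ n := fun n p q k =>
    k.elim (fun e => (dist_eq_zero.2 e).trans_le (hC n)) fun l => (r0 p q).trans l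
  obtain ⟨h, hh⟩ := kitC_lim (fun n => (F n).1) h1 hC (fun n x => d n (A n x))
    fun n x => d n (B n x)
  have l : ∀ (k : Z ≃ₜ Z) y, (∀ n, T (F n) (k y) = k (ψ (F n).1 y)) →
      h (k y) = k (s (h (s.symm (Θ y)))) := fun k y e =>
    tendsto_nhds_unique ((hh (k y)).comp (tendsto_add_atTop_nat 1))
      ((((k.continuous.comp s.continuous).tendsto _).comp (hh (s.symm (Θ y)))).congr
        fun n => (e n).symm)
  exact ⟨h, fun x hx => tendsto_nhds_unique (hh x)
    (tendsto_const_nhds.congr fun n => ((F n).2 x hx).symm),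
    fun y hy => ⟨l g y fun n => (T2 _ y hy).1, l g' y fun n => (T2 _ y hy).2⟩⟩

end Pool.Agent.Lib.MP_b7d179_gt.Gm
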