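import Pool.Agent.Lib.MP_b7d179_gt.U.Ball3
import Pool.Agent.Lib.MP_b7d179_gt.T.SphB
import Pool.Agent.Lib.MP_b7d179_gt.Stmt
import Pool.Agent.Lib.MP_b7d179_gt.G.KitA
import Pool.Agent.Lib.MP_b7d179_gt.G.KitC

/-! Kit D: splitting spheres and arcs, shells, nested convex bodies. -/

namespace Pool.Agent.Lib.MP_b7d179_gt.Gm

open Set Metric Complex Stmt

variable {Z : Type*} [MetricSpace Z]

theorem kitD_side {D P Q c : Set Z} (hD : Disc D c) (cP : IsClosed P) (cQ : IsClosed Q)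
    (hs : D ⊆ P ∪ Q) (it : P ∩ Q = c) : D ⊆ P ∨ D ⊆ Q := by
  rcases side_of (hD.conn_diff subset_rfl) cP cQ (sdiff_subset.trans hs)
    (it.symm ▸ disjoint_sdiff_left) with h | h
  · exact Or.inl (hD.dense.trans (closure_minimal h cP))
  · exact Or.inr (hD.dense.trans (closure_minimal h cQ))

theorem kitD_eq {S P Q D E c : Set Z} (h : Hemi S D E c) (un : P ∪ Q = S) (it : P ∩ Q = c)
    (a : D ⊆ P) (b : E ⊆ Q) : Disc P c := by
  have e : P = D := by
    refine Subset.antisymm (fun x hx => ?_) a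
    rcases h.union.ge (un.le (Or.inl hx)) with k | k
    · exact k
    · exact h.d1.rim_sub (it.le ⟨hx, b k⟩)
  exact e ▸ h.d1

/-- `Sph.jordan`; each open hemisphere is connected, so it lies in one of `P`, `Q` -/
theorem sph_split {S P Q c u v : Set Z} {p q : Z} (hS : Sph S) (hc : Two c u v p q) (cP : IsClosed P)
    (cQ : IsClosed Q) (un : P ∪ Q = S) (it : P ∩ Q = c) (nP : (P \ c).Nonempty)
    (nQ : (Q \ c).Nonempty) : Disc P c := by
  obtain ⟨D, E, h⟩ := hS.jordan hc (it.ge.trans (inter_subset_left.trans (subset_union_left.trans un.le)))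
  rcases kitD_side h.d1 cP cQ (h.sub1.trans un.ge) it with a | a <;>
    rcases kitD_side h.d2 cP cQ (h.sub2.trans un.ge) it with b | b
  · obtain ⟨x, hx, hn⟩ := nQ
    exact (hn (it.le ⟨union_subset a b (h.union.ge (un.le (Or.inr hx))), hx⟩)).elim
  · exact kitD_eq h un it a b
  · exact kitD_eq h.symm un it b a
  · obtain ⟨x, hx, hn⟩ := nP
    exact (hn (it.le ⟨hx, union_subset a b (h.union.ge (un.le (Or.inl hx)))⟩)).elim

theorem kitD_end {u A B : Set Z} {x p : Z} (hu : Arc u p x) (cA : IsClosed A) (cB : IsClosed B)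
    (s : u ⊆ A ∪ B) (i : A ∩ B = {p}) (hx : x ∉ B) : u ⊆ A := by
  rcases side_of hu.conn_half cA cB (sdiff_subset.trans s) (i.symm ▸ disjoint_sdiff_left) with h | h
  · intro z hz
    by_cases e : z = p
    · exact e ▸ (i.ge (mem_singleton p)).1
    · exact h ⟨hz, e⟩
  · exact (hx (h ⟨hu.right, hu.ne.symm⟩)).elim

theorem kitD_half {a A B : Set Z} {x y p : Z} (ha : Arc a x y) (cA : IsClosed A) (cB : IsClosed B)
    (un : A ∪ B = a) (i : A ∩ B = {p}) (hx : x ∉ B) (hy : y ∉ A) : Arc A x p ∧ Arc B p y := by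
  have hp := i.ge (mem_singleton p)
  obtain ⟨u, v, hu, hv, it, uv⟩ := ha.split (un.le (Or.inl hp.1)) (fun e => hx (e ▸ hp.2))
    (fun e => hy (e ▸ hp.1))
  have a1 : u ⊆ A := kitD_end hu.symm cA cB ((subset_union_left.trans uv.le).trans un.ge) i hx
  have a2 : v ⊆ B := kitD_end hv cB cA
    (((subset_union_right.trans uv.le).trans un.ge).trans (union_comm A B).le)
    ((inter_comm B A).trans i) hy
  have e1 : A = u := by
    refine Subset.antisymm (fun z hz => ?_) a1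
    rcases uv.ge (un.le (Or.inl hz)) with k | k
    · exact k
    · exact (mem_singleton_iff.1 (i.le ⟨hz, a2 k⟩)).symm ▸ hu.right
  have e2 : B = v := by
    refine Subset.antisymm (fun z hz => ?_) a2
    rcases uv.ge (un.le (Or.inr hz)) with k | k
    · exact (mem_singleton_iff.1 (i.le ⟨a1 k, hz⟩)).symm ▸ hv.left
    · exact k
  exact ⟨e1 ▸ hu, e2 ▸ hv⟩

theorem arc_mid {a A M B : Set Z} {x y p q : Z} (ha : Arc a x y) (cA : IsClosed A) (cM : IsClosed M)
    (cB : IsClosed B) (un : A ∪ M ∪ B = a) (d : Disjoint A B) (i1 : A ∩ M = {p}) (i2 : M ∩ B = {q})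
    (hx : x ∈ A \ M) (hy : y ∈ B \ M) : Arc M p q := by
  have i : A ∩ (M ∪ B) = {p} := by
    rw [inter_union_distrib_left, i1, disjoint_iff_inter_eq_empty.1 d, union_empty]
  have h := (kitD_half ha cA (cM.union cB) ((union_assoc A M B).symm.trans un) i
    (fun k => k.elim hx.2 (disjoint_left.1 d hx.1)) (disjoint_right.1 d hy.1)).2
  exact (kitD_half h cM cB rfl i2 (disjoint_left.1 d (i1.ge (mem_singleton p)).1) hy.2).1

theorem kitD_norm {e : ℂ × ℝ} (he : e ∈ sphere (0 : ℂ × ℝ) 1) {t : ℝ} (ht : 0 ≤ t) :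
    ‖t • e‖ = t := by
  rw [norm_smul, mem_sphere_zero_iff_norm.1 he, mul_one, Real.norm_of_nonneg ht]

theorem kitD_polar (x : ℂ × ℝ) : ∃ e ∈ sphere (0 : ℂ × ℝ) 1, x = ‖x‖ • e := by
  by_cases h : ‖x‖ = 0
  · obtain ⟨e, he⟩ := (NormedSpace.sphere_nonempty (x := (0 : ℂ × ℝ)) (r := 1)).2 zero_le_one
    exact ⟨e, he, by rw [h, zero_smul]; exact norm_eq_zero.1 h⟩
  · exact ⟨_, ball1_unit h, by rw [smul_inv_smul₀ h]⟩

theorem kitD_inj {e e' : ℂ × ℝ} (he : e ∈ sphere (0 : ℂ × ℝ) 1) (he' : e' ∈ sphere (0 : ℂ × ℝ) 1)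
    {t t' : ℝ} (ht : 0 ≤ t) (ht' : 0 ≤ t') (h : t • e = t' • e') : t = t' ∧ (t = 0 ∨ e = e') := by
  have k : t = t' := by rw [← kitD_norm he ht, h, kitD_norm he' ht']
  subst k
  refine ⟨rfl, or_iff_not_imp_left.2 fun h0 => smul_right_injective _ h0 h⟩

/-- polar coordinates with the radius `a * t + b` -/
theorem kitD_lay {a b s t : ℝ} (ha : a ≠ 0) (h : ∀ u ∈ Icc s t, a * u + b ∈ Ioc (0 : ℝ) 1) :
    Emb (fun p : (ℂ × ℝ) × ℝ => (a * p.2 + b) • p.1) (sphere 0 1 ×ˢ Icc s t) ∧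
      (fun p : (ℂ × ℝ) × ℝ => (a * p.2 + b) • p.1) '' (sphere 0 1 ×ˢ Icc s t) ⊆ closedBall 0 1 := by
  refine ⟨⟨by fun_prop, fun p hp p' hp' e => ?_⟩, ?_⟩
  · obtain ⟨k, l⟩ := kitD_inj hp.1 hp'.1 (h _ hp.2).1.le (h _ hp'.2).1.le e
    exact Prod.ext (l.resolve_left (h _ hp.2).1.ne') (mul_left_cancel₀ ha (add_right_cancel k))
  · rintro _ ⟨p, hp, rfl⟩
    rw [mem_closedBall_zero_iff, kitD_norm hp.1 (h _ hp.2).1.le]
    exact (h _ hp.2).2

theorem kitD_img {a b : ℝ} (ha : a ≠ 0) {T : Set ℝ} {Y : Set (ℂ × ℝ)} (h0 : ∀ u ∈ T, 0 ≤ a * u + b)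
    (h : ∀ x, x ∈ Y ↔ (‖x‖ - b) / a ∈ T) :
    (fun p : (ℂ × ℝ) × ℝ => (a * p.2 + b) • p.1) '' (sphere 0 1 ×ˢ T) = Y := by
  ext x
  constructor
  · rintro ⟨p, hp, rfl⟩
    rw [h, kitD_norm hp.1 (h0 _ hp.2), add_sub_cancel_right, mul_div_cancel_left₀ _ ha]
    exact hp.2
  · intro hx
    obtain ⟨e, he, k⟩ := kitD_polar x
    refine ⟨(e, (‖x‖ - b) / a), ⟨he, (h x).1 hx⟩, ?_⟩
    simp only [mul_div_cancel₀ _ ha, sub_add_cancel]
    exact k.symm

theorem kitD_aff {r : ℝ} (h : r < 1) : ∃ l : ℝ → ℝ, Emb l (Icc r 1) ∧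
    l '' Icc r 1 = Icc r (3 / 2) ∧ l r = r ∧ l 1 = 3 / 2 := by
  obtain ⟨l, e, i, a, b⟩ := (arcA_Icc h).homeo (arcA_Icc (by linarith : r < 3 / 2))
  exact ⟨l, e, i, a, b⟩

/-- Two pushes backwards (`push`, `Mv.inv`): the shell is the union of the part over the top face
(a ball by `ball_convex`-like charts: radial coordinates over the sphere) and the rest. -/
theorem shell {K B U S : Set Z} {f : ℂ × ℝ → Z} (hK : IsClosed K) (hB : Ball B S)
    (hf : Emb f (closedBall 0 1)) (fU : f '' closedBall 0 1 = U) (fS : f '' sphere 0 1 = S)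
    (it : B ∩ U = S) (dj : Disjoint U K) :
    ∃ h, Mv K h B ∧ h '' B = B ∪ f '' (closedBall 0 1 \ ball 0 (1 / 2)) ∧
      h '' S = f '' sphere 0 (1 / 2) := by
  obtain ⟨H, eH, iH, hH⟩ := ball1_unit_ball.ext hB (hf.mono sphere_subset_closedBall) fS
  have HS : H '' sphere 0 1 = S := (image_congr hH).trans fS
  obtain ⟨r, hr, hT⟩ := exists_pos_lt_subset_ball (x := (0 : ℂ × ℝ)) one_pos
    (eH.1.preimage_isClosed_of_isClosed isClosed_closedBall hK) (fun w hw => by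
      by_contra hn
      have k : w ∈ sphere (0 : ℂ × ℝ) 1 := by
        rw [← closedBall_sdiff_ball]
        exact ⟨hw.1, hn⟩
      exact disjoint_left.1 dj (it.ge (HS.le ⟨w, k, rfl⟩)).2 hw.2)
  set π1 := fun p : (ℂ × ℝ) × ℝ => (1 * p.2 + 0) • p.1 with e1
  set π2 := fun p : (ℂ × ℝ) × ℝ => (-1 * p.2 + 2) • p.1 with e2
  obtain ⟨a1, b1⟩ := kitD_lay (a := 1) (b := 0) (s := r) (t := 1) one_ne_zero
    fun u hu => ⟨by linarith [hu.1, hr.1], by linarith [hu.2]⟩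
  obtain ⟨a2, b2⟩ := kitD_lay (a := -1) (b := 2) (s := 1) (t := 3 / 2) (by norm_num)
    fun u hu => ⟨by linarith [hu.2], by linarith [hu.1]⟩
  have i1 : π1 '' (sphere 0 1 ×ˢ Icc r 1) = closedBall 0 1 \ ball 0 r :=
    kitD_img one_ne_zero (fun u hu => by linarith [hu.1, hr.1]) fun x => by
      simp only [mem_sdiff, mem_closedBall_zero_iff, mem_ball_zero_iff, not_lt, mem_Icc, sub_zero,
        div_one, and_comm]
  have i2 : π2 '' (sphere 0 1 ×ˢ Icc 1 (3 / 2)) = closedBall 0 1 \ ball 0 (1 / 2) :=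
    kitD_img (by norm_num) (fun u hu => by linarith [hu.2]) fun x => by
      simp only [mem_sdiff, mem_closedBall_zero_iff, mem_ball_zero_iff, not_lt, mem_Icc, div_neg,
        div_one]
      exact ⟨fun k => ⟨by linarith [k.1], by linarith [k.2]⟩,
        fun k => ⟨by linarith [k.1], by linarith [k.2]⟩⟩
  have j1 : ∀ t, 0 ≤ t → π1 '' (sphere 0 1 ×ˢ {t}) = sphere 0 t := fun t ht =>
    kitD_img one_ne_zero (fun u hu => by linarith [mem_singleton_iff.1 hu]) fun x => by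
      simp only [mem_sphere_zero_iff_norm, sub_zero, div_one, mem_singleton_iff]
  have j2 : π2 '' (sphere 0 1 ×ˢ {3 / 2}) = sphere 0 (1 / 2) :=
    kitD_img (by norm_num) (fun u hu => by linarith [mem_singleton_iff.1 hu]) fun x => by
      simp only [mem_sphere_zero_iff_norm, div_neg, div_one, mem_singleton_iff]
      exact ⟨fun k => by linarith, fun k => by linarith⟩
  have m : (sphere (0 : ℂ × ℝ) 1 ×ˢ Icc r 1) ∩ (sphere 0 1 ×ˢ Icc 1 (3 / 2)) = sphere 0 1 ×ˢ {1} := by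
    rw [prod_inter_prod, inter_self, Icc_inter_Icc_eq_singleton hr.2.le (by norm_num)]
  have sV : closedBall (0 : ℂ × ℝ) 1 \ ball 0 r ⊆ closedBall 0 1 := sdiff_subset
  have sS : sphere (0 : ℂ × ℝ) 1 ⊆ closedBall 0 1 \ ball 0 r := fun w hw =>
    ⟨sphere_subset_closedBall hw, fun k => by
      rw [mem_ball_zero_iff, mem_sphere_zero_iff_norm.1 hw] at k
      exact k.not_gt hr.2⟩
  have key : ∀ x ∈ B, x ∈ f '' (closedBall 0 1 \ ball 0 (1 / 2)) → x ∈ H '' sphere 0 1 :=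
    fun x hx k => HS.ge (it.le ⟨hx, fU.le (image_mono sdiff_subset k)⟩)
  obtain ⟨G, eG, g1, g2⟩ := (eH.comp a1 b1).paste (hf.comp a2 b2)
    (isClosed_sphere.prod isClosed_Icc) (isClosed_sphere.prod isClosed_Icc)
    (fun p hp => by
      rw [m] at hp
      have k : p.2 = 1 := hp.2
      simp only [Function.comp, k]
      norm_num
      exact hH hp.1)
    (by
      rw [m, image_comp, image_comp, image_comp, ← e1, ← e2, i1, i2, j1 1 zero_le_one]
      exact fun x hx => key x (iH.le (image_mono sV hx.1)) hx.2)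
  have un : (sphere (0 : ℂ × ℝ) 1 ×ˢ Icc r 1) ∪ (sphere 0 1 ×ˢ Icc 1 (3 / 2)) =
      sphere 0 1 ×ˢ Icc r (3 / 2) := by
    rw [← prod_union, Icc_union_Icc_eq_Icc hr.2.le (by norm_num)]
  have iG : G '' (sphere 0 1 ×ˢ Icc r (3 / 2)) =
      H '' (closedBall 0 1 \ ball 0 r) ∪ f '' (closedBall 0 1 \ ball 0 (1 / 2)) := by
    rw [← un, image_union, image_congr g1, image_congr g2, ← i1, ← i2, image_image, image_image]
    rfl
  rw [un] at eG
  obtain ⟨l, el, il, l0, l1⟩ := kitD_aff hr.2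
  have eL : Emb (Prod.map id l : (ℂ × ℝ) × ℝ → _) (sphere 0 1 ×ˢ Icc r 1) :=
    ⟨continuousOn_id.prodMap el.1, (injOn_id _).prodMap el.2⟩
  have iL : ∀ T, (Prod.map id l : (ℂ × ℝ) × ℝ → _) '' (sphere 0 1 ×ˢ T) = sphere 0 1 ×ˢ (l '' T) :=
    fun T => by rw [prodMap_image_prod, image_id]
  obtain ⟨g, eg, gl, -, gi⟩ := (eH.comp a1 b1).inv ((isCompact_sphere _ _).prod isCompact_Icc)
  have iV : (H ∘ π1) '' (sphere 0 1 ×ˢ Icc r 1) = H '' (closedBall 0 1 \ ball 0 r) := by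
    rw [image_comp, i1]
  have ig := gi _ subset_rfl
  have im : ∀ T ⊆ Icc r 1, ((G ∘ Prod.map id l) ∘ g) '' ((H ∘ π1) '' (sphere 0 1 ×ˢ T)) =
      G '' (sphere 0 1 ×ˢ (l '' T)) := fun T hT => by
    rw [image_comp _ g, gi _ (prod_mono_right hT), image_comp, iL]
  have dV : Disjoint (H '' (closedBall 0 1 \ ball 0 r)) K := by
    rw [disjoint_left]
    rintro _ ⟨w, hw, rfl⟩ k
    exact hw.2 (hT ⟨hw.1, k⟩)
  have sR : closedBall (0 : ℂ × ℝ) r ⊆ closedBall 0 1 := closedBall_subset_closedBall hr.2.le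
  have uB : H '' closedBall 0 r ∪ H '' (closedBall 0 1 \ ball 0 r) = B := by
    rw [← image_union, ← iH]
    congr 1
    refine Subset.antisymm (union_subset sR sV) fun w hw => ?_
    by_cases k : w ∈ ball (0 : ℂ × ℝ) r
    · exact Or.inl (ball_subset_closedBall k)
    · exact Or.inr ⟨hw, k⟩
  obtain ⟨F, mv, iF, -, hF⟩ := ball3_core (K := K) (R := H '' closedBall 0 r)
    (V := H '' (closedBall 0 1 \ ball 0 r))
    (V' := H '' (closedBall 0 1 \ ball 0 r) ∪ f '' (closedBall 0 1 \ ball 0 (1 / 2)))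
    (H := (G ∘ Prod.map id l) ∘ g) (eH.compact sR (isCompact_closedBall _ _)).isClosed
    (eH.compact sV ((isCompact_closedBall _ _).diff isOpen_ball)).isClosed
    (iV ▸ (eG.comp eL (by rw [iL, il])).comp eg ig.le) (by rw [← iV, im _ subset_rfl, il, iG, iV])
    (by
      rw [← eH.inter sR sV]
      rintro _ ⟨w, hw, rfl⟩
      have k : w ∈ sphere (0 : ℂ × ℝ) r := by
        rw [← closedBall_sdiff_ball]
        exact ⟨hw.1, hw.2.2⟩
      rw [← j1 r hr.1.le] at k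
      obtain ⟨p, hp, rfl⟩ := k
      have k : p.2 = r := hp.2
      have hp' : p ∈ sphere (0 : ℂ × ℝ) 1 ×ˢ Icc r 1 := ⟨hp.1, k.ge, k.le.trans hr.2.le⟩
      have e : Prod.map id l p = p := Prod.ext rfl (by rw [Prod.map_snd, k, l0])
      change G (Prod.map id l (g ((H ∘ π1) p))) = (H ∘ π1) p
      rw [gl p hp', e, g1 hp'])
    (fun x hx => hx.2.elim id fun k => image_mono sS (key x (iH.le (image_mono sR hx.1)) k)) dV
    (dV.union_left (dj.mono_left ((image_mono sdiff_subset).trans fU.le)))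
  rw [uB] at mv iF
  refine ⟨F, mv, by rw [iF, ← union_assoc, uB], ?_⟩
  have s1 : ({1} : Set ℝ) ⊆ Icc r 1 := singleton_subset_iff.2 (right_mem_Icc.2 hr.2.le)
  rw [← HS, image_congr (hF.mono (image_mono sS)), ← j1 1 zero_le_one, ← image_comp H, im _ s1,
    image_singleton, l1, image_congr (g2.mono (prod_mono_right
      (singleton_subset_iff.2 (right_mem_Icc.2 (by norm_num))))), ← j2, image_image]
  rfl

/-- radial rescaling with `gauge` -/
theorem pair_convex {P : Set (ℂ × ℝ)} (hc : Convex ℝ P) (hk : IsCompact P)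
    (h0 : (0 : ℂ × ℝ) ∈ interior P) (hs : P ⊆ ball 0 1) :
    ∃ f : ℂ × ℝ → ℂ × ℝ, Emb f (closedBall 0 1) ∧ f '' closedBall 0 1 = closedBall 0 1 ∧
      f '' sphere 0 1 = sphere 0 1 ∧ f '' ball 0 (1 / 2) = interior P ∧
      f '' sphere 0 (1 / 2) = frontier P := by
  have n0 : P ∈ nhds (0 : ℂ × ℝ) := mem_interior_iff_mem_nhds.1 h0
  have hg : ∀ e ∈ sphere (0 : ℂ × ℝ) 1, 1 < gauge P e := fun e he => by
    by_contra hn
    have k := hs (hk.isClosed.closure_eq.le ((gauge_le_one_iff_mem_closure hc n0).1 (not_lt.1 hn)))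
    rw [mem_ball_zero_iff, mem_sphere_zero_iff_norm.1 he] at k
    exact k.false
  have ok : ∀ e ∈ sphere (0 : ℂ × ℝ) 1, (0 : ℝ) < 1 / 2 ∧ 0 < (gauge P e)⁻¹ ∧ (1 / 2 : ℝ) < 1 ∧
      (gauge P e)⁻¹ < 1 := fun e he =>
    ⟨by norm_num, inv_pos.2 (one_pos.trans (hg e he)), by norm_num, inv_lt_one_of_one_lt₀ (hg e he)⟩
  set σ : ℂ × ℝ → ℝ → ℝ := fun e t => pl 0 (1 / 2) (gauge P e)⁻¹ 1 t with hσ
  have s0 : ∀ e, σ e 0 = 0 := fun e => pl_out (Or.inl le_rfl)
  have s1 : ∀ e, σ e 1 = 1 := fun e => pl_out (Or.inr le_rfl)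
  have sm : ∀ e, StrictMono (σ e) := fun e => pl_mono _ _ _ _
  have sh : ∀ e ∈ sphere (0 : ℂ × ℝ) 1, σ e (1 / 2) = (gauge P e)⁻¹ := fun e he =>
    pl_node (Or.inr (ok e he))
  have si : ∀ e, ∀ t ∈ Icc (0 : ℝ) 1, σ e t ∈ Icc (0 : ℝ) 1 := fun e t ht => pl_mem ht
  have cσ : ContinuousOn (fun p : (ℂ × ℝ) × ℝ => σ p.1 p.2) (sphere 0 1 ×ˢ Icc 0 1) :=
    pl_cont continuousOn_const continuousOn_const
      (((continuous_gauge hc n0).comp continuous_fst).continuousOn.inv₀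
        fun p hp => (one_pos.trans (hg _ hp.1)).ne')
      continuousOn_const continuousOn_snd fun p hp => Or.inr (ok _ hp.1)
  obtain ⟨f, ef, hf⟩ := emb_desc (A := sphere (0 : ℂ × ℝ) 1 ×ˢ Icc (0 : ℝ) 1)
    ((isCompact_sphere _ _).prod isCompact_Icc) (q := fun p => (1 * p.2 + 0) • p.1)
    (F := fun p => σ p.1 p.2 • p.1) (by fun_prop) (cσ.smul continuousOn_fst) fun p hp p' hp' => by
      simp only [one_mul, add_zero]
      constructor
      · intro e
        obtain ⟨k, l | l⟩ := kitD_inj hp.1 hp'.1 hp.2.1 hp'.2.1 e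
        · rw [← k, l, s0, s0, zero_smul, zero_smul]
        · rw [k, l]
      · intro e
        obtain ⟨k, l | l⟩ := kitD_inj hp.1 hp'.1 (si _ _ hp.2).1 (si _ _ hp'.2).1 e
        · rw [(sm p.1).injective (l.trans (s0 _).symm),
            (sm p'.1).injective ((k.symm.trans l).trans (s0 _).symm), zero_smul, zero_smul]
        · rw [l] at k
          rw [(sm _).injective k, l]
  rw [kitD_img (Y := closedBall 0 1) one_ne_zero (fun u hu => by linarith [hu.1]) fun x => by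
    simp only [mem_closedBall_zero_iff, sub_zero, div_one, mem_Icc, norm_nonneg, true_and]] at ef
  simp only [one_mul, add_zero] at hf
  have im : ∀ X Y : Set (ℂ × ℝ), X ⊆ closedBall 0 1 → Y ⊆ closedBall 0 1 →
      (∀ e ∈ sphere (0 : ℂ × ℝ) 1, ∀ t ∈ Icc (0 : ℝ) 1, σ e t • e ∈ Y ↔ t • e ∈ X) →
      f '' X = Y := fun X Y hX hY h => by
    ext y
    constructor
    · rintro ⟨x, hx, rfl⟩
      obtain ⟨e, he, k⟩ := kitD_polar x
      have n : ‖x‖ ∈ Icc (0 : ℝ) 1 := ⟨norm_nonneg _, mem_closedBall_zero_iff.1 (hX hx)⟩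
      rw [k, hf (e, ‖x‖) ⟨he, n⟩]
      exact (h e he _ n).2 (k ▸ hx)
    · intro hy
      obtain ⟨e, he, k⟩ := kitD_polar y
      have n : pl 0 (gauge P e)⁻¹ (1 / 2) 1 ‖y‖ ∈ Icc (0 : ℝ) 1 :=
        pl_mem ⟨norm_nonneg _, mem_closedBall_zero_iff.1 (hY hy)⟩
      have w : σ e (pl 0 (gauge P e)⁻¹ (1 / 2) 1 ‖y‖) • e = y := by
        rw [show σ e _ = ‖y‖ from pl_inv _ _ _ _ _, ← k]
      exact ⟨_, (h e he _ n).1 (w.symm ▸ hy), (hf (e, _) ⟨he, n⟩).trans w⟩
  have gs : ∀ e ∈ sphere (0 : ℂ × ℝ) 1, ∀ t ∈ Icc (0 : ℝ) 1,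
      gauge P (σ e t • e) = σ e t / σ e (1 / 2) := fun e he t ht => by
    rw [gauge_smul_of_nonneg (si e t ht).1, sh e he, div_inv_eq_mul, smul_eq_mul]
  have sp : ∀ e ∈ sphere (0 : ℂ × ℝ) 1, 0 < σ e (1 / 2) := fun e he => (sh e he).symm ▸ (ok e he).2.1
  have sP : P ⊆ closedBall 0 1 := hs.trans ball_subset_closedBall
  have hh : closedBall (0 : ℂ × ℝ) (1 / 2) ⊆ closedBall 0 1 :=
    closedBall_subset_closedBall (by norm_num)
  refine ⟨f, ef, im _ _ subset_rfl subset_rfl fun e he t ht => ?_,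
    im _ _ sphere_subset_closedBall sphere_subset_closedBall fun e he t ht => ?_,
    im _ _ (ball_subset_closedBall.trans hh) (interior_subset.trans sP) fun e he t ht => ?_,
    im _ _ (sphere_subset_closedBall.trans hh) (hk.isClosed.frontier_subset.trans sP)
      fun e he t ht => ?_⟩
  · rw [mem_closedBall_zero_iff, mem_closedBall_zero_iff, kitD_norm he ht.1,
      kitD_norm he (si e t ht).1]
    exact iff_of_true (si e t ht).2 ht.2
  · rw [mem_sphere_zero_iff_norm, mem_sphere_zero_iff_norm, kitD_norm he ht.1,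
      kitD_norm he (si e t ht).1]
    exact ⟨fun k => (sm e).injective (k.trans (s1 e).symm), fun k => k ▸ s1 e⟩
  · rw [← gauge_lt_one_iff_mem_interior hc n0, gs e he t ht, div_lt_one (sp e he),
      mem_ball_zero_iff, kitD_norm he ht.1, (sm e).lt_iff_lt]
  · rw [← gauge_eq_one_iff_mem_frontier hc n0, gs e he t ht, div_eq_one_iff_eq (sp e he).ne',
      mem_sphere_zero_iff_norm, kitD_norm he ht.1, (sm e).injective.eq_iff]

end Pool.Agent.Lib.MP_b7d179_gt.Gm
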