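import Pool.Agent.Lib.MP_b7d179_gt.G.Xt

/-! Set theoretic facts about the prism. -/

namespace Pool.Agent.Lib.MP_b7d179_gt.Gm

open Set Metric Complex Stmt

theorem pre1_all {Q : ℂ → Prop} {z : ℂ} (h0 : Q z) (h1 : Q (w1 * z)) (h2 : Q (w1 ^ 2 * z))
    (a : ℕ) : Q (w1 ^ a * z) := by
  rw [tubes_mod]
  have : a % 3 < 3 := Nat.mod_lt _ (by norm_num)
  generalize a % 3 = c at this
  interval_cases c
  · rwa [pow_zero, one_mul]
  · rwa [pow_one]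
  · exact h2

theorem pre1_n (a : ℕ) (z : ℂ) : normSq (w1 ^ a * z) = normSq z := by
  rw [normSq_mul, map_pow, w1_nsq, one_pow, one_mul]

theorem pre1_hh {z : ℂ} {x : ℝ} (h : ∀ a : ℕ, (w1 ^ a * z).re ≤ x) (h' : 4 * x ≤ 3 + normSq z)
    (a : ℕ) : 1 ≤ hh (w1 ^ a * z) := by
  have h1 := h a
  rw [← pre1_n a] at h'
  generalize w1 ^ a * z = u at *
  simp only [hh, normSq_apply, sub_re, sub_im, re_ofNat, im_ofNat] at *
  nlinarith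

theorem pre1_Vt {p : S3} {x y : ℝ} (hA : ∀ a : ℕ, (w1 ^ a * Z1 p.1).re ≤ x)
    (hB : ∀ a : ℕ, (w1 ^ a * Z2 p.1).re ≤ y) (h1 : 4 * x ≤ 3 + normSq (Z1 p.1))
    (h2 : 4 * y ≤ 3 + normSq (Z2 p.1))
    (h3 : ∀ a b : ℕ, 2 ≤ normSq (3 - w1 ^ a * Z1 p.1 - w1 ^ b * Z2 p.1)) : p ∈ Vt :=
  (mem_Vt p).2 ⟨pre1_hh hA h1, pre1_hh hB h2, fun a b => by
    have := le_min (pre1_hh hA h1 a) (pre1_hh hB h2 b)
    linarith [h3 a b]⟩

theorem pre1_far {A B : ℂ} (h : A.re + B.re ≤ 3 / 2) : 2 ≤ normSq (3 - A - B) := by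
  simp only [normSq_apply, sub_re, sub_im, re_ofNat, im_ofNat]
  nlinarith [mul_self_nonneg (0 - A.im - B.im)]

/-- the ray at sixty degrees -/
noncomputable def pre1R (r : ℝ) : ℂ := ⟨r / 2, √3 * r / 2⟩

theorem pre1_ray {r : ℝ} (hr : 0 < r) : normSq (pre1R r) = r ^ 2 ∧ pre1R r ∈ Sec0 ∧
    (∀ a : ℕ, (w1 ^ a * pre1R r).re ≤ r / 2) ∧ w1 * (starRingEnd ℂ) (pre1R r) = pre1R r := by
  have h3 := r3
  have p3 := basr_3.1
  refine ⟨?_, ⟨?_, ?_⟩, pre1_all (Q := fun z => z.re ≤ r / 2) le_rfl ?_ ?_, Complex.ext ?_ ?_⟩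
  · simp only [pre1R, normSq_apply]
    linear_combination r ^ 2 / 4 * h3
  · change 0 < √3 * r / 2
    positivity
  · rw [(tubes_w _).2.2.2]
    simp only [pre1R]
    nlinarith
  · rw [(tubes_w _).1]
    simp only [pre1R]
    nlinarith
  · rw [(tubes_w _).2.2.1]
    simp only [pre1R]
    nlinarith
  · rw [(tubes_w _).1]
    simp only [pre1R, conj_re, conj_im]
    linear_combination r / 4 * h3
  · rw [(tubes_w _).2.1]
    simp only [pre1R, conj_re, conj_im]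
    ring

theorem pre1_sec {z : ℂ} (h1 : 0 < z.re) (h2 : 0 < z.im) : z ∈ Sec0 :=
  ⟨h2, by rw [(tubes_w _).2.2.2]; nlinarith [basr_3.1]⟩

theorem pre1_neg {q : S3} (h : q ∈ U0) : (Z1 (g 5 q).1).re < 0 := by
  obtain ⟨-, -, a, b⟩ := h
  rw [(tubes_w _).2.2.2] at b
  rw [(tubes_Z q).2.1, (tubes_w _).1]
  have := basr_3.1
  nlinarith [r3]

theorem pre1_sw (Q : Set S3) (p : S3) : p ∈ sw '' Q ↔ sw p ∈ Q := by
  have e (x : S3) : sw (sw x) = x := by rw [← Homeomorph.mul_apply, sw_sw]; rfl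
  exact ⟨fun ⟨q, h, h'⟩ => by rwa [← h', e], fun h => ⟨_, h, e p⟩⟩

theorem pre1_img {γ : S3 ≃ₜ S3} {Q : Set S3} (h : ∀ p, γ p ∈ Q ↔ p ∈ Q) : γ '' Q = Q :=
  Set.ext fun p => ⟨fun ⟨q, a, b⟩ => b ▸ (h q).2 a, fun a =>
    ⟨γ.symm p, (h _).1 (by rwa [γ.apply_symm_apply]), γ.apply_symm_apply p⟩⟩

theorem pre1_c1 : ∃ p ∈ Vt ∩ Sb 0, p ∈ U0 ∧ g 0 p = p := by
  have h3 := r3
  have p3 := basr_3.1
  have n : normSq (⟨3 / 2, √3 / 2⟩ : ℂ) = 3 := by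
    simp only [normSq_apply]
    linear_combination h3 / 4
  obtain ⟨a, b⟩ := zp_val (A := ⟨3 / 2, √3 / 2⟩) (B := 0) (by rw [n, map_zero, add_zero])
  generalize zp _ _ = p at a b
  have r (k : ℕ) : (w1 ^ k * Z1 p.1).re ≤ 3 / 2 := by
    rw [a]
    refine pre1_all (Q := fun z => z.re ≤ 3 / 2) le_rfl ?_ ?_ k
    · rw [(tubes_w _).1]
      simp only
      nlinarith
    · rw [(tubes_w _).2.2.1]
      simp only
      nlinarith
  have r' (k : ℕ) : (w1 ^ k * Z2 p.1).re ≤ 0 := by simp [b]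
  have v : p ∈ Vt := pre1_Vt r r' (by rw [a, n]; norm_num) (by rw [b]; norm_num)
    fun k l => pre1_far (by linarith [r k, r' l])
  refine ⟨p, ⟨v, (chart_sets p).1.2 ?_⟩, ⟨v, by rw [b, map_zero]; exact normSq_nonneg _, ?_⟩,
    ext_Z (tubes_Z p).1.1 (by rw [(tubes_Z p).1.2, b, mul_zero])⟩
  · simp only [a, hh, normSq_apply, sub_re, sub_im, re_ofNat, im_ofNat]
    linear_combination h3 / 4
  · rw [a]
    exact pre1_sec (by norm_num) (by simp only; linarith)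

theorem pre1_c2 : ∃ p ∈ U0, sw p = p ∧ io p = p := by
  have c0 : 0 < √(3 / 2) := Real.sqrt_pos.2 (by norm_num)
  have c2 : √(3 / 2) ^ 2 = 3 / 2 := Real.sq_sqrt (by norm_num)
  generalize √(3 / 2) = c at c0 c2
  have c3 : c ≤ 3 / 2 := by nlinarith
  obtain ⟨n, s, r, e⟩ := pre1_ray c0
  obtain ⟨a, b⟩ := zp_val (A := pre1R c) (B := pre1R c) (by rw [n, c2]; norm_num)
  generalize zp _ _ = p at a b
  refine ⟨p, ⟨pre1_Vt (a ▸ r) (b ▸ r) (by rw [a, n]; linarith) (by rw [b, n]; linarith)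
    fun k l => pre1_far (by rw [a, b]; linarith [r k, r l]), by rw [a, b], a ▸ s⟩,
    ext_Z (by rw [(Z_sw p).1, a, b]) (by rw [(Z_sw p).2, a, b]), ext_Z ?_ ?_⟩
  · change Z1 (g 5 (g 0 (cj p))).1 = _
    rw [(tubes_Z _).2.1, (tubes_Z _).1.1, (Z_cj p).1, a, e]
  · change Z2 (g 5 (g 0 (cj p))).1 = _
    rw [(tubes_Z _).2.2, (tubes_Z _).1.2, (Z_cj p).2, b, e]

theorem pre1_c3 : ∃ p ∈ Vt ∩ Sb 0, sw p ∈ U0 ∧ 0 < zt p ∧ p ∉ U0 := by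
  have p3 := basr_3
  have c0 : 0 < √(46 / 25) := Real.sqrt_pos.2 (by norm_num)
  have c2 : √(46 / 25) ^ 2 = 46 / 25 := Real.sq_sqrt (by norm_num)
  generalize √(46 / 25) = c at c0 c2
  have c3 : c ≤ 34 / 25 := by nlinarith
  obtain ⟨n, s, r, -⟩ := pre1_ray c0
  have m : normSq (⟨26 / 25, 7 / 25⟩ : ℂ) = 29 / 25 := by
    simp only [normSq_apply]
    norm_num
  obtain ⟨a, b⟩ := zp_val (A := ⟨26 / 25, 7 / 25⟩) (B := pre1R c) (by rw [n, c2, m]; norm_num)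
  generalize zp _ _ = p at a b
  have r1 : (w1 * ⟨26 / 25, 7 / 25⟩ : ℂ).re ≤ 0 := by
    rw [(tubes_w _).1]
    simp only
    linarith [p3.1]
  have r2 : (w1 ^ 2 * ⟨26 / 25, 7 / 25⟩ : ℂ).re ≤ 0 := by
    rw [(tubes_w _).2.2.1]
    simp only
    linarith [p3.2]
  have v : p ∈ Vt := by
    refine pre1_Vt (x := 26 / 25) (fun k => ?_) (b ▸ r) (by rw [a, m]; norm_num)
      (by rw [b, n]; linarith) fun k l => ?_
    · rw [a]
      exact pre1_all (Q := fun z => z.re ≤ 26 / 25) le_rfl (by linarith) (by linarith) k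
    · rw [a, b]
      have h1 := r l
      have h2 := pre1_n l (pre1R c)
      rw [n, c2] at h2
      generalize w1 ^ l * pre1R c = B at h1 h2
      refine pre1_all (Q := fun z => 2 ≤ normSq (3 - z - B)) ?_ (pre1_far (by linarith))
        (pre1_far (by linarith)) k
      simp only [normSq_apply, sub_re, sub_im, re_ofNat, im_ofNat] at h2 ⊢
      nlinarith [mul_self_nonneg B.re, mul_self_nonneg (B.im + 34 / 25)]
  refine ⟨p, ⟨v, (chart_sets p).1.2 ?_⟩, ⟨(sym_Vt (Or.inl rfl) p).1.2 v, ?_, ?_⟩,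
    (zt_Z1 p).1.2 (by rw [a]; norm_num), fun h => ?_⟩
  · simp only [a, hh, normSq_apply, sub_re, sub_im, re_ofNat, im_ofNat]
    norm_num
  · rw [(Z_sw p).1, (Z_sw p).2, a, b, n, m, c2]
    norm_num
  · rwa [(Z_sw p).1, b]
  · have := h.2.1
    rw [a, b, n, m, c2] at this
    norm_num at this

theorem pre1_U : U0 ⊆ Vt := fun _ h => h.1

/-- `q` is the base point of `p` -/
def pre1B (L : S3 → ℝ) (S : S3 × ℝ → S3) (p q : S3) : Prop :=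
  (p ∈ Vt ∧ q = p) ∨ ∃ s, (q, s) ∈ bt Bd L ∧ p = S (q, s)

section
variable {L : S3 → ℝ} {S : S3 × ℝ → S3} (e : IsE L S) {p q : S3}
include e

theorem pre1_ex (hp : p ∈ Core) : ∃ q ∈ Vt, pre1B L S p q := by
  rw [← e.img] at hp
  rcases hp with h | ⟨x, h, rfl⟩
  · exact ⟨p, h, Or.inl ⟨h, rfl⟩⟩
  · exact ⟨x.1, h.1.1, Or.inr ⟨x.2, h, rfl⟩⟩

theorem pre1_mem (h : pre1B L S p q) : p ∈ xt L S U0 ↔ q ∈ U0 := by
  rcases h with ⟨h, rfl⟩ | ⟨s, h, rfl⟩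
  · exact xt_in e pre1_U h
  · exact xt_S e pre1_U h

theorem pre1_sym {γ : S3 ≃ₜ S3} (hγ : γ = sw ∨ γ = cj ∨ γ = g 0 ∨ γ = g 5) (h : pre1B L S p q) :
    pre1B L S (γ p) (γ q) := by
  rcases h with ⟨h, rfl⟩ | ⟨s, h, rfl⟩
  · exact Or.inl ⟨(sym_Vt hγ _).1.2 h, rfl⟩
  · obtain ⟨a, b⟩ := e.sym γ hγ _ h
    exact Or.inr ⟨s, ⟨(sym_Vt hγ _).2.2.2 h.1, h.2.1, h.2.2.trans_eq a.symm⟩, b.symm⟩

theorem pre1_pow {γ : S3 ≃ₜ S3} (hγ : γ = sw ∨ γ = cj ∨ γ = g 0 ∨ γ = g 5) (h : pre1B L S p q)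
    (k : ℕ) : pre1B L S ((γ ^ k) p) ((γ ^ k) q) := by
  induction k with
  | zero => exact h
  | succ k ih => simpa only [pow_succ', Homeomorph.mul_apply] using pre1_sym e hγ ih

theorem pre1_sub : xt L S U0 ⊆ Core := by
  rw [← e.img]
  exact union_subset_union pre1_U (image_mono fun _ h => ⟨h.1.2, h.2⟩)

theorem pre1_pn : Disjoint Pn (g 5 '' xt L S U0) := by
  have hQ : g 5 '' U0 ⊆ Vt := fun _ ⟨q, h, h'⟩ => h' ▸ (sym_Vt (by simp) q).1.2 h.1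
  rw [xt_img e pre1_U (by simp), disjoint_iff_inter_eq_empty, xt_Pn e hQ, image_eq_empty,
    eq_empty_iff_forall_notMem]
  rintro _ ⟨h, q, hq, rfl⟩
  exact lt_asymm (Bu_re h) (pre1_neg hq)

theorem pre1_top {x : S3} (hx : x ∈ Bu) (hU : x ∈ U0) : zt (S (x, L x)) ≠ 0 := by
  obtain ⟨hB, k, hk⟩ := hx
  induction k generalizing x with
  | succ k ih =>
    obtain ⟨a, b⟩ := e.sym (g 0) (by simp) (x, L x) ⟨hB, e.pos x hB, le_rfl⟩
    have := ih ((U0_sym x).1.2 hU) ((sym_Vt (by simp) x).2.2.2 hB) (by rwa [pow_succ] at hk)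
    rw [show L (g 0 x) = L x from a, show S (g 0 x, L x) = _ from b] at this
    exact fun h => this ((g_zt _).2.2 h)
  | zero =>
    rcases hk with h | ⟨h, hs⟩
    · rw [e.zero x hB (ext_self (Or.inl h)), e.s0 x hB]
      exact ((zt_Z1 x).1.2 hU.2.2.1).ne'
    · have m : (x, L x) ∈ bt (Aj 0) L := ⟨h, e.pos x hB, le_rfl⟩
      obtain ⟨s, s0, hy⟩ := e.base.slice _ m
      intro hz
      have h1 := (Hp_zt (Or.inl ((e.base.topu _ m).2 ⟨rfl, hs⟩))).2.1.1 hz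
      have h2 := congrArg im hy
      rw [im_ofReal_mul] at h2
      exact (eq_low h hs ((mul_eq_zero.1 (h2.symm.trans h1)).resolve_left s0.ne')).not_ge hU.2.1

theorem pre1_km {t : ℝ} (h0 : 0 ≤ t) (h1 : t < 2 * Real.pi) :
    km t ∈ xt L S U0 ↔ Real.pi / 3 ≤ t ∧ t ≤ 5 * Real.pi / 6 := by
  obtain ⟨hA, -, -, ⟨r, r0, r1, hx⟩, s, s0, hy⟩ := Mm_spec.2 t
  have hB := Aj_Vt hA
  rw [← e.mid, xt_S e pre1_U (x := (Mm t, L (Mm t))) ⟨hB, e.pos _ hB, le_rfl⟩,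
    ← (Mm_U0' r0 r1 s0 hx hy h0 h1).1]
  exact ⟨fun h => ⟨h.2.1, h.2.2.1⟩, fun h => ⟨hB.1, h.1, pre1_sec
    (near_arg hB.1 (le_trans (by norm_num) (ext_aj hA 0))).1 h.2⟩⟩

end

/-- k1, k2: km t = S (Mm t, L (Mm t)), Mm_U0', near_arg. pn: Bu_re. nz: zt_Z1 on Sb 0 (L = 0), eq_low and
Hp_zt on the annulus. c1: Z2 = 0, Z1 = √3 exp (i π/6). c2: Z1 = Z2 = √(3/2) exp (i π/3).
c3: Z1 = 26/25 + 7/25 i, Z2 = √(46/25) exp (i π/3) (on Sb 0 and in Vt, Vt_Sb). -/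
theorem pre_xt {L : S3 → ℝ} {S : S3 × ℝ → S3} (e : IsE L S) : Pre (xt L S U0) := by
  have pi := Real.pi_pos
  refine ⟨pre1_sub e, fun p hp => ?_, ?_, ?_, fun p hp h => ?_, ?_,
    (pre1_pn e).mono_left (Pn_sw ▸ inter_subset_left), pre1_pn e, fun p hp => ?_, ?_, ?_, ?_⟩
  · obtain ⟨q, hq, b⟩ := pre1_ex e hp
    refine (Vt_cov hq).imp (fun ⟨k, h⟩ => ⟨k, ?_⟩) fun ⟨k, h⟩ => ⟨k, ?_⟩
    · exact (pre1_mem e (pre1_pow e (by simp) b k)).2 h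
    · exact (pre1_sw _ _).2 ((pre1_mem e (pre1_sym e (by simp) (pre1_pow e (by simp) b k))).2
        ((pre1_sw _ _).1 h))
  · rw [xt_img e pre1_U (by simp), pre1_img fun p => (U0_sym p).1]
  · have hQ : cj '' U0 ⊆ Vt := fun _ ⟨q, h, h'⟩ => h' ▸ (sym_Vt (by simp) q).1.2 h.1
    have i (Q : Set S3) : (g 5 * cj : S3 ≃ₜ S3) '' Q = g 5 '' (cj '' Q) := image_comp (g 5) cj Q
    rw [i, xt_img e pre1_U (by simp), xt_img e hQ (by simp), ← i,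
      pre1_img (γ := g 5 * cj) fun p => (U0_sym p).2.1]
  · obtain ⟨q, -, b⟩ := pre1_ex e (pre1_sub e hp)
    exact (U0_sym q).2.2 ((pre1_mem e b).1 hp) ((pre1_mem e (pre1_sym e (by simp) b)).1 h)
  · ext p
    constructor
    · rintro ⟨h, hU⟩
      obtain ⟨t, ht, rfl⟩ := (kc_iff p).1 h
      obtain ⟨a, b⟩ := (pre1_km e ht.1 ht.2).1 hU
      exact ⟨t, ⟨by push_cast; linarith, by push_cast; linarith⟩, rfl⟩
    · rintro ⟨t, ⟨a, b⟩, rfl⟩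
      push_cast at a b
      exact ⟨(km_val t).1, (pre1_km e (by linarith) (by linarith)).2 ⟨by linarith, by linarith⟩⟩
  · rw [xt_Pn e pre1_U] at hp
    obtain ⟨x, hx, rfl⟩ := hp
    exact pre1_top e hx.1 hx.2
  · obtain ⟨p, a, b, c⟩ := pre1_c1
    exact ⟨p, ⟨(ext_Pn p).2 (Or.inl a), Or.inl b⟩, c⟩
  · obtain ⟨p, a, b, c⟩ := pre1_c2
    exact ⟨p, ⟨Or.inl a, p, Or.inl a, b⟩, b, c, fun h => kc_Vt (a := 0) (b := 0) h
      (by rw [ext_00]; exact a.1)⟩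
  · obtain ⟨p, a, b, c, d⟩ := pre1_c3
    exact ⟨p, ⟨(ext_Pn p).2 (Or.inl a), (pre1_sw _ _).2 (Or.inl b)⟩, c,
      fun h => d ((xt_in e pre1_U a.1).1 h), a.1⟩

end Pool.Agent.Lib.MP_b7d179_gt.Gm
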