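import Pool.Agent.Lib.MP_b7d179_gt.G.Tube2
import Pool.Agent.Lib.MP_b7d179_gt.G.Pre1
import Pool.Agent.Lib.MP_b7d179_gt.G.KitD

/-! The edge of the prism on the pair of pants. -/

namespace Pool.Agent.Lib.MP_b7d179_gt.Gm

open Set Metric Complex Stmt

theorem arcE_bite {z : ℂ} (h : hh z = 1) : (w1 * z).re ≤ 0 ∧ (w1 ^ 2 * z).re ≤ 0 := by
  rw [t0_hh, normSq_apply] at h
  obtain ⟨a, -, b, -⟩ := tubes_w z
  have k : (√3 * z.im) ^ 2 ≤ z.re ^ 2 := by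
    rw [mul_pow, Real.sq_sqrt (by norm_num)]
    nlinarith [sq_nonneg (2 * z.re - 3)]
  have := abs_le.1 (abs_le_of_sq_le_sq k (by nlinarith [sq_nonneg z.re, sq_nonneg z.im]))
  rw [a, b]
  constructor <;> linarith [this.1, this.2]

theorem arcE_sec {z : ℂ} (h : z ∈ Sec0) : (w1 * z).re < 0 := by
  obtain ⟨a, -, -, b⟩ := tubes_w z
  have h1 : 0 < z.im := h.1
  have h2 : (w1 ^ 2 * z).im < 0 := h.2
  rw [b] at h2
  rw [a]
  have := basr_3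
  have := r3
  nlinarith [mul_pos (show (0 : ℝ) < √3 by positivity) (show 0 < √3 * z.re + z.im by linarith)]

theorem arcE_quad {z : ℂ} (h : 0 < z.re) : (0 < z.im → z ∈ Sec0) ∧ (z.im < 0 → w1 * z ∈ Sec0) := by
  obtain ⟨-, a, -, b⟩ := tubes_w z
  have := mul_pos (show (0 : ℝ) < √3 by positivity) h
  exact ⟨fun k => ⟨k, by rw [b]; linarith⟩,
    fun k => ⟨by rw [a]; linarith, by rwa [tubes_back]⟩⟩

theorem arcE_arg {p : S3} (hp : p ∈ Aj 0) : 0 < (Z1 p.1).re ∧ 0 < (Z2 p.1).re :=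
  near_arg (Aj_Vt hp).1 (by linarith [ext_aj hp 0])

theorem arcE_sd {p : S3} (hp : p ∈ Aj 0) : (p ∈ Sb 0 → 0 < sd (nv 0) (xx p.1)) ∧
    (p ∈ Sb 5 → sd (nv 0) (xx p.1) < 0) := by
  have n : xx p.1 ≠ 0 := fun h => kc_Vt (a := 0) (b := 0) h ((ext_Vt 0 0 p).2 (Aj_Vt hp).1)
  obtain ⟨a, b⟩ := bas_kk 0 p.1
  have c : kk 0 p.1 ≤ 0 := hp.1.2.2
  refine ⟨fun h => (lens_u (Or.inr ⟨h, ?_⟩) n).2.1, fun h => (lens_v (Or.inr ⟨h, ?_⟩) n).2.1⟩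
  · have : av 0 p.1 = av (0 + 1) p.1 := h
    linarith
  · have : av (0 - 1) p.1 = av 0 p.1 := h
    show av (0 - 1) p.1 ≤ _
    linarith

theorem arcE_five {p : S3} (hp : p ∈ Vt) (h : p ∈ Sb 5) : p ∉ Bu := by
  rintro ⟨-, k, hk⟩
  rw [← ext_0k] at hk
  rcases hk with hk | ⟨hk, s⟩
  · exact (Vt_sph hp ((ext_Sb k p).1 hk) (a := 0) (b := 0)).1 (by rwa [ext_00])
  · obtain ⟨a, b⟩ := Z_gg 0 k p
    obtain ⟨c, d⟩ := arcE_bite ((chart_sets p).2.1.1 h)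
    have r := (arcE_arg hk).2
    rw [b] at r
    rcases t0_pow k with e | e | e <;> rw [e] at b r
    · have : gg 0 k p = p := ext_Z (by rw [a, pow_zero, one_mul]) (by rw [b, one_mul])
      rw [this] at hk s
      exact ((arcE_sd hk).2 h).not_ge s
    · exact r.not_ge c
    · exact r.not_ge d

theorem arcE_mid {p : S3} (hp : p ∈ Aj 0) (s : sd (nv 0) (xx p.1) ≤ 0) (h : p ∈ Bu) :
    ∃ t, 0 ≤ t ∧ t < 2 * Real.pi ∧ p = Mm t := by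
  obtain ⟨-, k, hk⟩ := h
  rw [← ext_0k] at hk
  rcases hk with hk | ⟨hk, s'⟩
  · exact (((arcE_sd hp).1 ((ext_Sb k p).1 hk)).not_ge s).elim
  · rw [KL_one (ext_aj hp) (ext_aj hk)] at s'
    obtain ⟨t, rfl⟩ := Aj_mid hp (le_antisymm s s')
    obtain ⟨u, hu, e⟩ := (kc_iff (km t)).1 (km_val t).1
    have : exp (t * I) = exp (u * I) := by rw [← (km_val t).2, e, (km_val u).2]
    exact ⟨u, hu.1, hu.2, by rw [Mm, Mm, this]⟩

theorem arcE_Mm {t : ℝ} (h0 : 0 ≤ t) (h1 : t < 2 * Real.pi) :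
    (Mm t ∈ Aj 0 ∧ sd (nv 0) (xx (Mm t).1) = 0 ∧ Mm t ∈ Bu) ∧
    (normSq (Z2 (Mm t).1) = normSq (Z1 (Mm t).1) ∧ 0 < (Z1 (Mm t).1).im ↔
      t = Real.pi / 3 ∨ t = 5 * Real.pi / 6) ∧
    (t = Real.pi / 3 → (Z2 (Mm t).1).im < 0) ∧ (t = 5 * Real.pi / 6 → 0 < (Z2 (Mm t).1).im) := by
  obtain ⟨a, -, -, ⟨r, r0, r1, hx⟩, s, s0, hy⟩ := Mm_spec.2 t
  have z : sd (nv 0) (xx (Mm t).1) = 0 := by rw [hx, lens_mul, lens_self, mul_zero]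
  exact ⟨⟨a, z, Aj_Vt a, 0, Or.inr ⟨a, z.ge⟩⟩, (Mm_U0' r0 r1 s0 hx hy h0 h1).2⟩

theorem arcE_Q (p : S3) : p ∈ U0 ∩ sw '' U0 ↔ p ∈ Vt ∧ normSq (Z2 p.1) = normSq (Z1 p.1) ∧
    Z1 p.1 ∈ Sec0 ∧ Z2 p.1 ∈ Sec0 := by
  obtain ⟨a, b⟩ := Z_sw p
  have e : sw (sw p) = p := DFunLike.congr_fun sw_sw p
  constructor
  · rintro ⟨⟨h1, h2, h3⟩, q, ⟨-, k2, k3⟩, rfl⟩
    obtain ⟨c, d⟩ := Z_sw q
    exact ⟨h1, h2.antisymm (by rwa [c, d]), h3, by rwa [d]⟩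
  · rintro ⟨h1, h2, h3, h4⟩
    exact ⟨⟨h1, h2.le, h3⟩, sw p, ⟨(sym_Vt (Or.inl rfl) p).1.2 h1, by rw [a, b, h2], by rwa [a]⟩, e⟩

theorem arcE_base {lo : ℂ → ℝ} (l : IsLo lo) :
    Arc (Bu ∩ (U0 ∩ sw '' U0)) (Mm (5 * Real.pi / 6)) (g 0 (Mm (Real.pi / 3))) := by
  have pi0 := Real.pi_pos
  have hB : arcC ⊆ Bz := fun z hz => ((arcC_iff z).1 hz).1
  have n3 : ∀ z ∈ Bz, normSq z ≤ 3 := fun z hz => by linarith [hz.1]
  have emb : Emb (fun z => fz z (lo z)) Bz :=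
    fz_emb.comp (f := fun z => (z, lo z)) ⟨continuousOn_id.prodMk l.cont,
      fun _ _ _ _ h => congrArg Prod.fst h⟩ (by
        rintro _ ⟨z, hz, rfl⟩
        have := l.pos z hz
        have := (l.pos _ (tube1_Bc hz)).1
        exact ⟨hz, by linarith, by unfold hiO at *; linarith⟩)
  have ha := arcC_arc.image emb hB
  have inU : ∀ z ∈ Bz, fz z (lo z) ∈ U0 := fun z hz =>
    (l.mem _).2 ⟨z, hz, _, le_rfl, (l.pos z hz).2.le, rfl⟩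
  have v1 := (fz_val (n3 _ (hB arcC_arc.left)) (lo c0)).2
  have v2 := (fz_val (n3 _ (hB arcC_arc.right)) (lo (w1 * (starRingEnd ℂ) c0))).2
  have aQ : ∀ p ∈ (fun z => fz z (lo z)) '' arcC, p ∈ U0 ∩ sw '' U0 ∧
      p ∈ Sb 0 ∪ cyc (g 0) (Aj 0) := by
    rintro _ ⟨z, hz, rfl⟩
    obtain ⟨a, b, c⟩ := (arcC_iff z).1 hz
    have v := (fz_val (n3 z a) (lo z)).2
    have := Z_sph (fz z (lo z))
    exact ⟨(arcE_Q _).2 ⟨(inU z a).1, by rw [v] at this ⊢; linarith, (inU z a).2.2, by rwa [v]⟩,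
      (l.bot z a _ le_rfl (l.pos z a).2.le).2 rfl⟩
  have Ma : Bu ∩ (U0 ∩ sw '' U0) ⊆ (fun z => fz z (lo z)) '' arcC := fun p ⟨hb, hq⟩ => by
    obtain ⟨z, hz, t, t1, t2, rfl⟩ := (l.mem p).1 hq.1
    obtain ⟨-, a, -, b⟩ := (arcE_Q _).1 hq
    have v := (fz_val (n3 z hz) t).2
    have := Z_sph (fz z t)
    rw [v] at a b this
    exact ⟨z, (arcC_iff z).2 ⟨hz, by linarith, b⟩, by rw [l.bu hz t1 t2 hb]⟩
  generalize (fun z => fz z (lo z)) '' arcC = a at ha aQ Ma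
  generalize fz c0 (lo c0) = x at ha v1
  generalize fz (w1 * (starRingEnd ℂ) c0) (lo (w1 * (starRingEnd ℂ) c0)) = y at ha v2
  have eM : Bu ∩ (U0 ∩ sw '' U0) = a ∩ Bu :=
    Subset.antisymm (fun p hp => ⟨Ma hp, hp.1⟩) fun p hp => ⟨hp.2, (aQ p hp.1).1⟩
  have cN : IsClosed (Aj 0 ∩ {p : S3 | sd (nv 0) (xx p.1) ≤ 0}) :=
    (closed_sets 0).2.2.2.2.1.inter (isClosed_le (by
      have := cont_xx
      unfold sd; fun_prop) continuous_const)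
  have un : ∀ p ∈ a, p ∈ a ∩ (Aj 0 ∩ {p : S3 | sd (nv 0) (xx p.1) ≤ 0}) ∪ a ∩ Bu ∪
      a ∩ g 0 '' (Aj 0 ∩ {p : S3 | sd (nv 0) (xx p.1) ≤ 0}) := fun p hp => by
    obtain ⟨q, h⟩ := aQ p hp
    have bd := (U0_Bd q.1).2 (Or.inl h)
    rcases h with h | ⟨k, h⟩
    · exact Or.inl (Or.inr ⟨hp, bd, 0, Or.inl h⟩)
    · rcases le_total 0 (sd (nv 0) (xx ((g 0 ^ k) p).1)) with s | s
      · exact Or.inl (Or.inr ⟨hp, bd, k, Or.inr ⟨h, s⟩⟩)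
      · rcases (mem_cyc 0 (Aj 0 ∩ {p : S3 | sd (nv 0) (xx p.1) ≤ 0}) p).1 ⟨k, h, s⟩ with
          (c | c) | ⟨r, c, rfl⟩
        · exact Or.inl (Or.inl ⟨hp, c⟩)
        · exact Or.inr ⟨hp, c⟩
        · have := arcE_sec ((arcE_Q _).1 q).2.2.2
          rw [← ext_0k, (Z_gg 0 2 r).2, mul_left_comm, tubes_back] at this
          exact (this.not_gt (arcE_arg c.1).2).elim
  obtain ⟨⟨m1, m2, m3⟩, m4, -, m5⟩ := arcE_Mm (t := 5 * Real.pi / 6) (by linarith) (by linarith)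
  obtain ⟨⟨k1, k2, k3⟩, k4, k5, -⟩ := arcE_Mm (t := Real.pi / 3) (by linarith) (by linarith)
  have xB : x ∉ Bu := arcE_five (aQ x ha.left).1.1.1
    ((chart_sets x).2.1.2 (by rw [v1]; exact arcB_arc.right.2))
  obtain ⟨y', rfl⟩ := (g 0).surjective y
  have v3 : Z2 y'.1 = (starRingEnd ℂ) c0 := by
    rw [← tubes_back (Z2 y'.1), ← (tubes_Z y').1.2, v2, tubes_back]
  have yB : g 0 y' ∉ Bu := fun h => arcE_five
    ((sym_Vt (Or.inr (Or.inr (Or.inl rfl))) y').1.1 (aQ _ ha.right).1.1.1)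
    ((chart_sets y').2.1.2 (by rw [v3]; exact arcB_arc.left.2)) ((sym_Pn y').2.2.2.1.1 h)
  rw [eM]
  refine arc_mid ha (ha.closed.inter cN) (ha.closed.inter closed_Bu)
    (ha.closed.inter ((g 0).isClosedMap _ cN)) (Subset.antisymm (union_subset
      (union_subset inter_subset_left inter_subset_left) inter_subset_left) un)
    (disjoint_left.2 ?_) (Subset.antisymm ?_ ?_) (Subset.antisymm ?_ ?_) ⟨?_, fun h => xB h.2⟩
    ⟨?_, fun h => yB h.2⟩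
  · rintro _ ⟨-, c, -⟩ ⟨-, r, ⟨d, -⟩, rfl⟩
    have := gg_one.1 (KL_one (ext_aj d) (a := 0) (b := 1) (by rw [ext_0k, pow_one]; exact ext_aj c))
    omega
  · rintro p ⟨⟨hp, c, s⟩, -, b⟩
    obtain ⟨t, t0, t1, rfl⟩ := arcE_mid c s b
    obtain ⟨-, q1, q2, q3⟩ := (arcE_Q _).1 (aQ _ hp).1
    obtain ⟨-, a1, a2, -⟩ := arcE_Mm t0 t1
    rcases a1.1 ⟨q1, q2.1⟩ with e | e
    · exact ((a2 e).not_gt q3.1).elim
    · rw [e]; rfl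
  · rintro _ rfl
    have := Ma ⟨m3, (arcE_Q _).2 ⟨(Aj_Vt m1).1, (m4.2 (Or.inr rfl)).1,
      (arcE_quad (arcE_arg m1).1).1 (m4.2 (Or.inr rfl)).2, (arcE_quad (arcE_arg m1).2).1 (m5 rfl)⟩⟩
    exact ⟨⟨this, m1, m2.le⟩, this, m3⟩
  · rintro _ ⟨⟨hp, b⟩, -, r, ⟨c, s⟩, rfl⟩
    obtain ⟨t, t0, t1, rfl⟩ := arcE_mid c s ((sym_Pn r).2.2.2.1.1 b)
    obtain ⟨-, q1, q2, q3⟩ := (arcE_Q _).1 (aQ _ hp).1
    rw [(tubes_Z _).1.1] at q1 q2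
    rw [(tubes_Z _).1.2] at q1 q3
    rw [t0_n1] at q1
    obtain ⟨-, a1, -, a2⟩ := arcE_Mm t0 t1
    rcases a1.1 ⟨q1, q2.1⟩ with e | e
    · rw [e]; rfl
    · have := q3.2
      rw [tubes_back] at this
      exact ((a2 e).not_gt this).elim
  · rintro _ rfl
    have b := (sym_Pn _).2.2.2.1.2 k3
    have := Ma ⟨b, (arcE_Q _).2 ⟨b.1.1, by
      rw [(tubes_Z _).1.1, (tubes_Z _).1.2, t0_n1]; exact (k4.2 (Or.inl rfl)).1, by
      rw [(tubes_Z _).1.1]; exact (arcE_quad (arcE_arg k1).1).1 (k4.2 (Or.inl rfl)).2, by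
      rw [(tubes_Z _).1.2]; exact (arcE_quad (arcE_arg k1).2).2 (k5 rfl)⟩⟩
    exact ⟨⟨this, b⟩, this, _, ⟨k1, k2.le⟩, rfl⟩
  · rcases un x ha.left with (c | c) | ⟨-, r, c, rfl⟩
    · exact c
    · exact (xB c.2).elim
    · have := (arcE_bite arcB_arc.right.2).2
      rw [← v1, (tubes_Z r).1.2, tubes_back] at this
      exact (this.not_gt (arcE_arg c.1).2).elim
  · rcases un _ ha.right with (c | c) | c
    · have := (arcE_arg c.2.1).2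
      rw [v2] at this
      exact (this.not_ge (arcE_bite arcB_arc.left.2).1).elim
    · exact (yB c.2).elim
    · exact c

/-- U ∩ sw U = xt (U0 ∩ sw U0), U0 ∩ sw U0 lies over arcC. On a = (z ↦ fz z (lo z)) '' arcC apply `arc_mid`
with A = a ∩ Aj 0 ∩ {sd ≤ 0}, M = a ∩ Bu, B = a ∩ g 0 '' (Aj 0 ∩ {sd ≤ 0}), p = Mm (5π/6),
q = g 0 (Mm (π/3)) (Aj_mid, Mm_U0', near_arg; the ends of a are in kap 5 and its image); then `top_emb`. -/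
theorem arcE_xt {lo : ℂ → ℝ} (l : IsLo lo) {L : S3 → ℝ} {S : S3 × ℝ → S3} (e : IsE L S) :
    Arc (cE (xt L S U0)) (kv 5) (g 0 (kv 2)) := by
  have h1 : U0 ⊆ Vt := fun p hp => hp.1
  have h2 : sw '' U0 ⊆ Vt := by
    rintro _ ⟨p, hp, rfl⟩
    exact (sym_Vt (Or.inl rfl) p).1.2 hp.1
  have a := (arcE_base l).image (top_emb e) fun p hp => hp.1.1
  have b := Aj_Vt (Mm_spec.2 (Real.pi / 3)).1
  obtain ⟨c, d⟩ := e.sym (g 0) (Or.inr (Or.inr (Or.inl rfl))) (Mm (Real.pi / 3), L (Mm (Real.pi / 3)))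
    ⟨b, e.pos _ b, le_rfl⟩
  simp only at c d
  rw [cE, cR, xt_img e h1 (Or.inl rfl), xt_inter e h1 h2, xt_Pn e (inter_subset_left.trans h1)]
  convert a using 1
  · rw [e.mid, kv]; congr 1; push_cast; ring
  · rw [c, d, e.mid, kv]; congr 2; push_cast; ring

end Pool.Agent.Lib.MP_b7d179_gt.Gm
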