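import Pool.Agent.Lib.MP_b7d179_gt.G.Xt

/-! The equator. -/

namespace Pool.Agent.Lib.MP_b7d179_gt.Gm

open Set Metric Complex Stmt

theorem eq_Z1 (p : S3) : p.1.2 = 0 ↔ Z1 p.1 = 1 := by
  have hw := wv_ne 0 (nsq_S3 p).le
  have e : ((√3 : ℝ) : ℂ) * uw 5 p.1 - wv 0 p.1 = (√2 : ℝ) * p.1.2 := by
    rw [(chart_w _).1, chart_u5, chart_u0]
    linear_combination ((√2 : ℝ) : ℂ) * p.1.2 / 3 * s3
  rw [Z1, div_eq_one_iff_eq hw, ← sub_eq_zero (b := wv 0 p.1), e, mul_eq_zero, or_iff_right chart_s]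

theorem aq_n {p : S3} (h : Z1 p.1 = 1) : normSq (Z2 p.1) = 2 := by
  have := Z_sph p
  rw [h, normSq_one] at this
  linarith

theorem aq_pow (k : ℕ) (p : S3) :
    Z1 ((g 0 ^ k) p).1 = Z1 p.1 ∧ Z2 ((g 0 ^ k) p).1 = w1 ^ k * Z2 p.1 := by
  rw [g_pow_val]
  exact Z_gE0 (by rw [map_pow, w1_nsq, one_pow]) (nsq_S3 p).le

/-- the first coordinate on the circle `Z1 = 1` -/
theorem aq_co {p : S3} (h : Z1 p.1 = 1) : (√2 : ℝ) * p.1.1 * (2 - Z2 p.1) = 2 - 2 * Z2 p.1 := by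
  have e := (chart_uw (nsq_S3 p).le).2
  rw [h, chart_u0] at e
  linear_combination -e

theorem aq_re {p : S3} (h : Z1 p.1 = 1) : 0 ≤ p.1.1.re ↔ (Z2 p.1).re ≤ 4 / 3 := by
  have n := aq_n h
  have e := aq_co h
  have a := congrArg re e
  have b := congrArg im e
  rw [normSq_apply] at n
  simp only [mul_re, mul_im, sub_re, sub_im, ofReal_re, ofReal_im, re_ofNat, im_ofNat] at a b
  have r : (0 : ℝ) < √2 := by positivity
  generalize (Z2 p.1).re = x at *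
  generalize (Z2 p.1).im = y at *
  have k : √2 * p.1.1.re * (6 - 4 * x) = 8 - 6 * x := by
    linear_combination (2 - x) * a - y * b + (2 - √2 * p.1.1.re) * n
  have x0 : 0 < 6 - 4 * x := by nlinarith [mul_self_nonneg y]
  constructor
  · intro t
    linarith [mul_nonneg (mul_nonneg r.le t) x0.le]
  · intro t
    by_contra u
    linarith [mul_neg_of_neg_of_pos (mul_neg_of_pos_of_neg r (not_le.1 u)) x0]

theorem aq_all {z : ℂ} : (∀ k : ℕ, (w1 ^ k * z).re ≤ 4 / 3) ↔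
    z.re ≤ 4 / 3 ∧ (w1 * z).re ≤ 4 / 3 ∧ (w1 ^ 2 * z).re ≤ 4 / 3 := by
  refine ⟨fun h => ⟨by simpa using h 0, by simpa using h 1, h 2⟩, fun h k => ?_⟩
  rcases t0_pow k with e | e | e <;> rw [e]
  exacts [by simpa using h.1, h.2.1, h.2.2]

theorem aq_Hp {p : S3} (h : p ∈ Hp 0) : 0 ≤ p.1.1.re :=
  (Hp_sec h).elim (fun k => (congrArg re k).ge) fun k => le_trans (by positivity) k.le

/-- on the circle p.2 = 0: Re p.1 ≥ 0 iff Re Z2 ≤ 4/3; Hp_graph, Hp_zt, Xp_Kt -/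
theorem Pn_eq : Pn ∩ {p | zt p = 0} = {p | Z1 p.1 = 1 ∧ ∀ k : ℕ, (w1 ^ k * Z2 p.1).re ≤ 4 / 3} := by
  have sb : ∀ q : S3, Z1 q.1 = 1 → q ∈ Sb 0 := fun q h => by
    rw [(chart_sets q).1, h, hh]; norm_num
  ext p
  constructor
  · rintro ⟨hp | ⟨k, hk⟩, hz⟩
    · have h := (eq_Z1 p).1 ((Hp_zt (Or.inr hp.1)).2.2.1 hz)
      refine ⟨h, fun k => ?_⟩
      have h' := (aq_pow k p).1.trans h
      rw [← (aq_pow k p).2, ← aq_re h']
      exact (kap_pos (sb _ h') (hp.2 k)).le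
    · have z : ∀ l : ℕ, zt ((g 0 ^ l) p) = 0 := fun l => by
        induction l with
        | zero => exact hz
        | succ l ih => rw [pow_succ']; exact (g_zt _).2.2 ih
      have h' := (eq_Z1 _).1 ((Hp_zt (Or.inl hk)).2.2.1 (z k))
      have n := aq_n h'
      have a := (aq_re h').1 (aq_Hp (Or.inl hk))
      have b := (chart_sets _).2.2.2.1.1 ((Xp_Kt 0).2.2.ge hk).2.1
      rw [QQ, h', show (3 : ℂ) - 1 = 2 by norm_num, ← hh, t0_hh, n] at b
      obtain ⟨c1, -, c2, -⟩ := t0_co (Z2 ((g 0 ^ k) p).1)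
      rw [normSq_apply] at n
      have t : ∀ l : ℕ, (w1 ^ l * Z2 ((g 0 ^ k) p).1).re ≤ 4 / 3 := aq_all.2 ⟨a, by
        rw [c1]; nlinarith [r3, sq_nonneg (√3 + (Z2 ((g 0 ^ k) p).1).im)], by
        rw [c2]; nlinarith [r3, sq_nonneg (√3 - (Z2 ((g 0 ^ k) p).1).im)]⟩
      refine ⟨(aq_pow k p).1.symm.trans h', fun l => ?_⟩
      have := t (l + 2 * k)
      rwa [(aq_pow k p).2, ← mul_assoc, ← pow_add, show l + 2 * k + k = l + 3 * k by ring, pow_add,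
        pow_mul, w1_three, one_pow, mul_one] at this
  · rintro ⟨h, hk⟩
    refine ⟨?_, (Hp_zt (Or.inr (sb p h))).2.2.2 ((eq_Z1 p).2 h)⟩
    by_cases c : ∀ k : ℕ, av 0 ((g 0 ^ k) p).1 ≤ 3 / 2
    · exact Or.inl ⟨sb p h, c⟩
    obtain ⟨k, c⟩ := not_forall.1 c
    refine Or.inr ⟨k, ?_⟩
    have h' := (aq_pow k p).1.trans h
    have a := (aq_re h').2 ((aq_pow k p).2 ▸ hk k)
    have b := (eq_Z1 _).2 h'
    generalize (g 0 ^ k) p = q at *
    obtain ⟨q', ⟨m, y⟩, -⟩ := Hp_graph (kap_y q)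
    have y1 : q'.1.1.im = q.1.1.im := congrArg re y
    have y2 : q'.1.2.im = q.1.2.im := (congrArg im y :)
    have m' := Hp_zt (m.imp_right fun t => t.1)
    have b' := m'.2.2.1 (m'.2.1.2 (by rw [y2, b, zero_im]))
    have n := nsq_S3 q
    have n' := nsq_S3 q'
    rw [nsq, b, normSq_zero, normSq_apply] at n
    rw [nsq, b', normSq_zero, normSq_apply, y1] at n'
    have e : q' = q := Subtype.ext (Prod.ext (Complex.ext
      ((mul_self_inj_of_nonneg (aq_Hp m) a).1 (by linarith)) y1) (b'.trans b.symm))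
    exact (e ▸ m).elim id fun t => absurd t.2 c

theorem aq_end : Z1 (kv 6).1 = 1 ∧ Z2 (kv 6).1 = ⟨4 / 3, √2 / 3⟩ ∧ Z1 (kv 0).1 = 1 ∧
    Z2 (kv 0).1 = ⟨4 / 3, -√2 / 3⟩ := by
  have k : ∀ (p : S3) (s : ℝ), s * s = 1 → xx p.1 = 0 → yy p.1 = s →
      Z1 p.1 = 1 ∧ Z2 p.1 = ⟨4 / 3, -s * √2 / 3⟩ := fun p s hs hx hy => by
    have a : p.1.1.re = 0 := congrArg re hx
    have b : p.1.1.im = s := congrArg re hy
    have h := (eq_Z1 p).1 (Complex.ext (congrArg im hx :) (congrArg im hy :))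
    have e := aq_co h
    have e1 := congrArg re e
    have e2 := congrArg im e
    simp only [mul_re, mul_im, sub_re, sub_im, ofReal_re, ofReal_im, re_ofNat, im_ofNat, a, b]
      at e1 e2
    have r := r2
    refine ⟨h, Complex.ext ?_ ?_⟩
    · change _ = 4 / 3
      linear_combination (1 / 3) * e1 - √2 * s / 6 * e2 +
        (2 - (Z2 p.1).re) / 6 * (s * s * r + 2 * hs)
    · change _ = -s * √2 / 3
      linear_combination (1 / 3) * e2 + √2 * s / 6 * e1 - (Z2 p.1).im / 6 * (s * s * r + 2 * hs)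
  have a := k (kv 6) (-1) (by norm_num) (km_val _).1 (by
    rw [kv, (km_val _).2, show ((6 : ℕ) : ℝ) * (Real.pi / 6) = Real.pi by push_cast; ring,
      exp_pi_mul_I]; simp)
  have b := k (kv 0) 1 (by norm_num) (km_val _).1 (by rw [kv, (km_val _).2]; simp)
  exact ⟨a.1, by simpa using a.2, b.1, by simpa using b.2⟩

theorem aq_arc {z : ℂ} (n : normSq z = 2) : (z ∈ Sec0 ∧ ∀ k : ℕ, (w1 ^ k * z).re ≤ 4 / 3) ↔
    -z.re ∈ Icc (-(4 / 3) : ℝ) (2 / 3 - √2 * √3 / 6) ∧ 0 ≤ z.im := by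
  obtain ⟨c1, -, c2, c3⟩ := t0_co z
  rw [aq_all, Sec0, mem_ofPred_eq, c1, c2, c3, mem_Icc]
  rw [normSq_apply] at n
  have a := r2
  have b := r3
  have a0 := kap_r
  have b0 : (173 / 100 : ℝ) < √3 := Real.lt_sqrt_of_sq_lt (by norm_num)
  generalize √2 = s at *
  generalize √3 = t at *
  generalize z.re = x at *
  generalize z.im = y at *
  have st : (s * t / 6) * (s * t / 6) = 1 / 6 := by linear_combination t * t / 36 * a + b / 18
  have s0 : 2 / 5 < s * t / 6 := by nlinarith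
  generalize s * t / 6 = u at *
  constructor
  · rintro ⟨⟨h1, h2⟩, h3, -, h4⟩
    refine ⟨⟨by linarith, ?_⟩, h1.le⟩
    by_contra c
    have ty : 0 < t * y := mul_pos (by linarith) h1
    have q : t * y * (t * y) = 6 - 3 * (x * x) := by linear_combination y * y * b + 3 * n
    have x1 : 0 < x + 2 / 3 + u := by
      by_contra d
      have : -x * t < y := by linarith
      nlinarith
    nlinarith
  · rintro ⟨⟨h1, h2⟩, h3⟩
    have x1 : -4 / 15 < x := by linarith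
    have y0 : 0 < y := lt_of_le_of_ne h3 fun e => by rw [← e] at n; nlinarith
    have ty : 0 < t * y := mul_pos (by linarith) y0
    have q : t * y * (t * y) = 6 - 3 * (x * x) := by linear_combination y * y * b + 3 * n
    refine ⟨⟨y0, ?_⟩, by linarith, by linarith, ?_⟩
    · by_contra c
      have : y ≤ -(t * x) := by linarith
      nlinarith
    · by_contra c
      nlinarith

/-- φ ↦ zp 1 (√2 exp (i φ)) on [φ₀, 2π/3 - φ₀], cos φ₀ = 2√2/3, sin φ₀ = 1/3 -/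
theorem arc_eq : Arc {p : S3 | Z1 p.1 = 1 ∧ Z2 p.1 ∈ Sec0 ∧ ∀ k : ℕ, (w1 ^ k * Z2 p.1).re ≤ 4 / 3}
    (kv 6) (g 0 (kv 0)) := by
  have a0 := kap_r
  have b0 : (173 / 100 : ℝ) < √3 := Real.lt_sqrt_of_sq_lt (by norm_num)
  have s0 : 2 / 5 < √2 * √3 / 6 := by nlinarith
  have s1 : √2 * √3 / 6 < 2 := by nlinarith [r3]
  let c : ℝ → ℂ := fun t => ⟨-t, √(2 - t * t)⟩
  have cc : Continuous c := by
    have : c = fun t : ℝ => ((-t : ℝ) : ℂ) + (√(2 - t * t) : ℝ) * I :=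
      funext fun t => by apply Complex.ext <;> simp [c]
    rw [this]; fun_prop
  have n : ∀ t ∈ Icc (-(4 / 3) : ℝ) (2 / 3 - √2 * √3 / 6), normSq (c t) = 2 := fun t ht => by
    rw [normSq_apply]
    change -t * -t + √(2 - t * t) * √(2 - t * t) = 2
    rw [Real.mul_self_sqrt (by nlinarith [ht.1, ht.2])]
    ring
  have n' : ∀ t ∈ Icc (-(4 / 3) : ℝ) (2 / 3 - √2 * √3 / 6), normSq (1 : ℂ) + normSq (c t) = 3 :=
    fun t ht => by rw [n t ht, normSq_one]; norm_num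
  have back : ∀ p : S3, Z1 p.1 = 1 → 0 ≤ (Z2 p.1).im → zp 1 (c (-(Z2 p.1).re)) = p := fun p h i => by
    have m := aq_n h
    rw [normSq_apply] at m
    have : c (-(Z2 p.1).re) = Z2 p.1 := Complex.ext (neg_neg _) (by
      change √(2 - -(Z2 p.1).re * -(Z2 p.1).re) = _
      rw [show 2 - -(Z2 p.1).re * -(Z2 p.1).re = (Z2 p.1).im * (Z2 p.1).im by linarith,
        Real.sqrt_mul_self i])
    rw [this, ← h, zp_coe]
  have k := arc_Icc (γ := fun t => zp 1 (c t)) (s := -(4 / 3)) (t := 2 / 3 - √2 * √3 / 6)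
    (by linarith) ⟨contOn_zp.comp (f := fun t => ((1 : ℂ), c t)) (by fun_prop) n',
      fun t ht u hu e => by
        have := congrArg (fun p : S3 => (Z2 p.1).re) e
        simp only [(zp_val (n' t ht)).2, (zp_val (n' u hu)).2] at this
        exact neg_injective this⟩
  obtain ⟨e1, e2, e3, e4⟩ := aq_end
  have f := aq_pow 1 (kv 0)
  rw [pow_one, pow_one, e3, e4] at f
  obtain ⟨c1, c2, -⟩ := t0_co ⟨4 / 3, -√2 / 3⟩
  have k1 := back (kv 6) e1 (by rw [e2]; positivity)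
  have k2 := back (g 0 (kv 0)) f.1 (by rw [f.2, c2]; simp only; linarith)
  rw [e2] at k1
  rw [f.2, c1, show -(-(⟨4 / 3, -√2 / 3⟩ : ℂ).re / 2 - √3 * (⟨4 / 3, -√2 / 3⟩ : ℂ).im / 2) =
    2 / 3 - √2 * √3 / 6 by simp only; ring] at k2
  convert k using 1
  · ext p
    constructor
    · rintro ⟨h, h'⟩
      obtain ⟨u, v⟩ := (aq_arc (aq_n h)).1 h'
      exact ⟨_, u, back p h v⟩
    · rintro ⟨t, ht, rfl⟩
      refine ⟨(zp_val (n' t ht)).1, ?_⟩
      rw [(zp_val (n' t ht)).2]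
      exact (aq_arc (n t ht)).2 ⟨by simpa [c] using ht, Real.sqrt_nonneg _⟩
  exacts [k1.symm, k2.symm]

theorem aq_real {z : ℂ} (n : normSq z = 2) (h : z.re ≤ 4 / 3) (i : z.im = 0) :
    0 < (w1 ^ 2 * z).im ∧ (w1 * z).im < 0 := by
  obtain ⟨-, c2, -, c4⟩ := t0_co z
  rw [normSq_apply, i] at n
  have k : -1 < z.re → False := fun k => by nlinarith
  have : √3 * z.re < 0 := mul_neg_of_pos_of_neg (by positivity) (by linarith [not_lt.1 k])
  rw [c2, c4, i]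
  constructor <;> linarith

theorem aq_sec {z : ℂ} (n : normSq z = 2) (h : ∀ k : ℕ, (w1 ^ k * z).re ≤ 4 / 3) :
    z ∈ Sec0 ∨ w1 ^ 1 * z ∈ Sec0 ∨ w1 ^ 2 * z ∈ Sec0 := by
  obtain ⟨h0, h1, h2⟩ := aq_all.1 h
  have e1 : w1 ^ 2 * (w1 * z) = z := by linear_combination z * w1_three
  have e2 : w1 * (w1 * z) = w1 ^ 2 * z := by ring
  have e3 : w1 ^ 2 * (w1 ^ 2 * z) = w1 * z := by linear_combination w1 * z * w1_three
  have e4 : w1 * (w1 ^ 2 * z) = z := by linear_combination z * w1_three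
  simp only [Sec0, mem_ofPred_eq, pow_one, e1, e3]
  have s : z.im + (w1 * z).im + (w1 ^ 2 * z).im = 0 := by
    rw [(t0_co z).2.1, (t0_co z).2.2.2]; ring
  by_cases a : z.im = 0
  · exact Or.inr (Or.inr (aq_real n h0 a))
  by_cases b : (w1 * z).im = 0
  · have := aq_real ((t0_n1 z).trans n) h1 b
    rw [e1, e2] at this
    exact Or.inl this
  by_cases c : (w1 ^ 2 * z).im = 0
  · have := aq_real ((t0_n 2 z).trans n) h2 c
    rw [e3, e4] at this
    exact Or.inr (Or.inl this)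
  rcases lt_or_gt_of_ne a with a | a <;> rcases lt_or_gt_of_ne b with b | b <;>
    rcases lt_or_gt_of_ne c with c | c <;> first | (exfalso; linarith) | tauto

/-- the arc is connected, lies in the three disjoint closed images of sw U (nz, pn) and contains kv 6 -/
theorem arcQ_pre {U : Set S3} (h : Pre U) (cU : IsClosed U) : Arc (cQ U) (kv 6) (g 0 (kv 0)) := by
  have ss : ∀ q, sw (sw q) = q := fun q => DFunLike.congr_fun sw_sw q
  have cc : ∀ q, cj (cj q) = q := fun q => DFunLike.congr_fun cj_cj q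
  have c3 : ∀ i q, g i ((g i ^ 2) q) = q := fun i q => by
    rw [show g i ((g i ^ 2) q) = (g i ^ 3) q by rw [pow_succ' _ 2]; rfl, g_cube]; rfl
  have fr : ∀ p ∈ sw '' U, g 0 p ∉ sw '' U := by
    rintro _ ⟨u, hu, rfl⟩ ⟨v, hv, e⟩
    have k : sw (g 5 u) = g 0 (sw u) := DFunLike.congr_fun (sw_g 5) u
    exact h.free u hu (sw.injective (e.trans k.symm) ▸ hv)
  have cV : IsClosed (sw '' U) := sw.isClosedMap _ cU
  have cov : ∀ p ∈ Pn ∩ {p | zt p = 0},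
      p ∈ sw '' U ∪ (g 0 '' (sw '' U) ∪ (g 0 ^ 2 : S3 ≃ₜ S3) '' (sw '' U)) := fun p hp => by
    rcases h.cov p (Pn_Core hp.1) with k | k
    · rcases (mem_cyc 5 U p).1 k with (k | k) | ⟨u, hu, k⟩
      · exact absurd hp.2 (h.nz p ⟨hp.1, k⟩)
      · exact absurd k (disjoint_left.1 h.pn hp.1)
      · obtain ⟨v, hv, rfl⟩ := h.invc.ge hu
        have e : cj p = v := by
          rw [← cc v, ← k]
          exact congrArg cj ((g 5).injective (c3 5 _))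
        refine absurd ?_ (h.nz (cj p) ⟨(sym_Pn p).2.1.2 hp.1, e ▸ hv⟩)
        rw [cj_zt, hp.2, neg_zero]
    · rw [← union_assoc]
      exact (mem_cyc 0 _ p).1 k
  have dj : ∀ p ∈ sw '' U, p ∉ g 0 '' (sw '' U) ∪ (g 0 ^ 2 : S3 ≃ₜ S3) '' (sw '' U) := by
    rintro p hp (⟨v, hv, rfl⟩ | ⟨v, hv, rfl⟩)
    exacts [fr v hv hp, fr _ hp ((c3 0 v).symm ▸ hv)]
  have k6 : kv 6 ∈ sw '' U := by
    have pi := Real.pi_pos
    refine ⟨kv 4, (h.k1.ge ⟨_, ⟨?_, ?_⟩, rfl⟩).2, ?_⟩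
    · push_cast; linarith
    · push_cast; linarith
    · rw [kv, kv, (km_sym _).2.2.1, ← (km_sym _).2.2.2]
      congr 1
      push_cast; ring
  have A := arc_eq
  have sub : {p : S3 | Z1 p.1 = 1 ∧ Z2 p.1 ∈ Sec0 ∧ ∀ k : ℕ, (w1 ^ k * Z2 p.1).re ≤ 4 / 3} ⊆
      sw '' U := by
    have i : {p : S3 | Z1 p.1 = 1 ∧ Z2 p.1 ∈ Sec0 ∧ ∀ k : ℕ, (w1 ^ k * Z2 p.1).re ≤ 4 / 3} ⊆
        Pn ∩ {p | zt p = 0} := fun p hp => Pn_eq.ge ⟨hp.1, hp.2.2⟩
    obtain ⟨γ, e, i', s, -⟩ := A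
    rw [← i'] at i ⊢
    refine ((isPreconnected_iff_subset_of_disjoint_closed.1 (isPreconnected_Icc.image γ e.1) _ _ cV
      (((g 0).isClosedMap _ cV).union ((g 0 ^ 2 : S3 ≃ₜ S3).isClosedMap _ cV))
      (fun p hp => cov p (i hp)) (eq_empty_of_forall_notMem fun p hp =>
        dj p hp.2.1 hp.2.2)).resolve_right fun t => ?_)
    exact dj _ k6 (t ⟨0, left_mem_Icc.2 zero_le_one, s⟩)
  convert A using 1
  ext p
  constructor
  · rintro ⟨⟨h1, h2⟩, h3⟩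
    obtain ⟨a, b⟩ := Pn_eq.le ⟨h1, h3⟩
    have m : ∀ k : ℕ, w1 ^ k * Z2 p.1 ∈ Sec0 → (g 0 ^ k) p ∈ sw '' U := fun k t =>
      sub ⟨(aq_pow k p).1.trans a, (aq_pow k p).2 ▸ t, fun l => by
        rw [(aq_pow k p).2, ← mul_assoc, ← pow_add]; exact b _⟩
    rcases aq_sec (aq_n a) b with t | t | t
    · exact ⟨a, t, b⟩
    · exact absurd (m 1 t) (by rw [pow_one]; exact fr p h2)
    · exact absurd ((c3 0 p).symm ▸ h2) (fr _ (m 2 t))
  · intro hp
    have := Pn_eq.ge ⟨hp.1, hp.2.2⟩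
    exact ⟨⟨this.1, sub hp⟩, this.2⟩

end Pool.Agent.Lib.MP_b7d179_gt.Gm
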