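import Pool.Agent.Lib.MP_b7d179_gt.G.Sets
import Pool.Agent.Lib.MP_b7d179_gt.G.Act

/-! Inequalities along the rays of a slice. -/

namespace Pool.Agent.Lib.MP_b7d179_gt.Gm

open Set Metric Complex Stmt

theorem basr_2 : 14142 / 10000 < √2 ∧ √2 < 14143 / 10000 :=
  ⟨Real.lt_sqrt_of_sq_lt (by norm_num), (Real.sqrt_lt' (by norm_num)).2 (by norm_num)⟩

theorem basr_3 : 17320 / 10000 < √3 ∧ √3 < 17321 / 10000 :=
  ⟨Real.lt_sqrt_of_sq_lt (by norm_num), (Real.sqrt_lt' (by norm_num)).2 (by norm_num)⟩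

theorem basr_6 : 2449 / 1000 < √2 * √3 ∧ √2 * √3 < 245 / 100 := by
  constructor <;> nlinarith [basr_2.1, basr_2.2, basr_3.1, basr_3.2]

theorem basr_cs (j : Fin 6) (z : ℂ) : ((starRingEnd ℂ) (nv j) * z).re ^ 2 ≤ normSq z := by
  have h := nv_sq j
  simp only [mul_re, conj_re, conj_im, normSq_apply]
  generalize (nv j).re = a at *
  generalize (nv j).im = b at *
  have e : (a * z.re - -b * z.im) ^ 2 + (a * z.im - b * z.re) ^ 2 = z.re * z.re + z.im * z.im := by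
    linear_combination (z.re ^ 2 + z.im ^ 2) * h
  linarith [sq_nonneg (a * z.im - b * z.re)]

theorem basr_sum (j : Fin 6) (z : ℂ) : ((starRingEnd ℂ) (nv (j - 1)) * z).re +
    ((starRingEnd ℂ) (nv (j + 1)) * z).re = ((starRingEnd ℂ) (nv j) * z).re := by
  fin_cases j <;> simp [nv] <;> ring

theorem basr_xy (j : Fin 6) (p : E) : av j p =
    3 - 2 * (√2 * √3) * ((starRingEnd ℂ) (nv j) * xx p).re +
      2 * ((starRingEnd ℂ) (nv j) * xx p).re ^ 2 + 2 * ((starRingEnd ℂ) (nv j) * yy p).re ^ 2 := by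
  rw [av_xy]
  linear_combination r3 + ((starRingEnd ℂ) (nv j) * xx p).re ^ 2 * r2

theorem basr_av (j : Fin 6) {d e : ℂ} (hd : ‖d‖ = 1) (he : ‖e‖ = 1) {r : ℝ} (h0 : 0 ≤ r)
    (h1 : r ≤ 1) : av j (sl (r * d) e).1 =
      3 - 2 * (√2 * √3) * r * ((starRingEnd ℂ) (nv j) * d).re +
        2 * r ^ 2 * ((starRingEnd ℂ) (nv j) * d).re ^ 2 +
        2 * (1 - r ^ 2) * ((starRingEnd ℂ) (nv j) * e).re ^ 2 := by
  have hn : ‖(r : ℂ) * d‖ = r := by rw [norm_mul, hd, mul_one, norm_real, Real.norm_of_nonneg h0]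
  obtain ⟨a, b⟩ := sl_val (x := r * d) (hn.trans_le h1) he
  have k (s : ℝ) (z : ℂ) : ((starRingEnd ℂ) (nv j) * (s * z)).re =
      s * ((starRingEnd ℂ) (nv j) * z).re := by
    rw [mul_left_comm, re_ofReal_mul]
  rw [basr_xy, a, b, k, k, normSq_eq_norm_sq, hn, mul_pow, mul_pow,
    Real.sq_sqrt (by nlinarith)]
  ring

theorem basr_slope {w a t b c u v : ℝ} (w1 : 2449 / 1000 < w) (w2 : w < 245 / 100)
    (a1 : 1 / 5 ≤ a) (a2 : a ≤ 1) (ht : t ≤ 1) (hc : c ^ 2 ≤ 1) (h0 : 0 ≤ u) (huv : u < v)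
    (h1 : v ≤ 1) :
    9 * (3 - 2 * w * v * a + 2 * v ^ 2 * a ^ 2 + 2 * (1 - v ^ 2) * b ^ 2) -
      (3 - 2 * w * v * t + 2 * v ^ 2 * t ^ 2 + 2 * (1 - v ^ 2) * c ^ 2) <
    9 * (3 - 2 * w * u * a + 2 * u ^ 2 * a ^ 2 + 2 * (1 - u ^ 2) * b ^ 2) -
      (3 - 2 * w * u * t + 2 * u ^ 2 * t ^ 2 + 2 * (1 - u ^ 2) * c ^ 2) := by
  have l0 : 0 < w * (9 * a - t) := mul_pos (by linarith) (by linarith)
  have l1 : 2449 / 1000 * a ≤ w * a := mul_le_mul_of_nonneg_right w1.le (by linarith)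
  have l2 : a ^ 2 ≤ 6 / 5 * a - 1 / 5 := by nlinarith
  have l3 : w * t ≤ 2 * t ^ 2 + 76 / 100 := by nlinarith [sq_nonneg (4 * t - w)]
  have l4 : 2 * (9 * a ^ 2 - t ^ 2 - 9 * b ^ 2 + c ^ 2) < w * (9 * a - t) := by
    nlinarith [sq_nonneg b]
  have l5 : (9 * a ^ 2 - t ^ 2 - 9 * b ^ 2 + c ^ 2) * (u + v) < w * (9 * a - t) := by
    rcases le_total (9 * a ^ 2 - t ^ 2 - 9 * b ^ 2 + c ^ 2) 0 with q | q
    · exact (mul_nonpos_of_nonpos_of_nonneg q (by linarith)).trans_lt l0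
    · have := mul_le_mul_of_nonneg_left (by linarith : u + v ≤ 2) q
      linarith
  have := mul_pos (sub_pos.2 huv) (sub_pos.2 l5)
  linarith

/-- 9 av j - av (j ± 1) is a quadratic polynomial in the radius; both polynomials decrease. -/
theorem ray_cross (j : Fin 6) {d e : ℂ} (hd : ‖d‖ = 1) (he : ‖e‖ = 1) {u v : ℝ} (h0 : 0 ≤ u)
    (huv : u < v) (h1 : v ≤ 1) (h : kk j (sl (u * d) e).1 ≤ 0) : kk j (sl (v * d) e).1 < 0 := by
  have hu : u ≤ 1 := huv.le.trans h1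
  have hv : 0 ≤ v := h0.trans huv.le
  have cd (i : Fin 6) : ((starRingEnd ℂ) (nv i) * d).re ^ 2 ≤ 1 := by
    simpa [normSq_eq_norm_sq, hd] using basr_cs i d
  have ce (i : Fin 6) : ((starRingEnd ℂ) (nv i) * e).re ^ 2 ≤ 1 := by
    simpa [normSq_eq_norm_sq, he] using basr_cs i e
  have cd' (i : Fin 6) : ((starRingEnd ℂ) (nv i) * d).re ≤ 1 := by nlinarith [cd i]
  have m1 := min_le_left (av (j - 1) (sl (u * d) e).1) (av (j + 1) (sl (u * d) e).1)
  have m2 := min_le_right (av (j - 1) (sl (u * d) e).1) (av (j + 1) (sl (u * d) e).1)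
  have u2 : 0 ≤ 1 - u ^ 2 := by nlinarith
  have up (i : Fin 6) : av i (sl (u * d) e).1 ≤
      5 - 2 * (√2 * √3) * u * ((starRingEnd ℂ) (nv i) * d).re := by
    rw [basr_av i hd he h0 hu]
    linarith [mul_le_mul_of_nonneg_left (cd i) (sq_nonneg u), mul_le_mul_of_nonneg_left (ce i) u2]
  have lo : 3 - 2 * (√2 * √3) * u * ((starRingEnd ℂ) (nv j) * d).re ≤ av j (sl (u * d) e).1 := by
    rw [basr_av j hd he h0 hu]
    linarith [mul_nonneg (sq_nonneg u) (sq_nonneg ((starRingEnd ℂ) (nv j) * d).re),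
      mul_nonneg u2 (sq_nonneg ((starRingEnd ℂ) (nv j) * e).re)]
  rw [kk] at h
  have a1 : 1 / 5 ≤ ((starRingEnd ℂ) (nv j) * d).re := by
    have s := basr_sum j d
    have k : 20 ≤ 34 * (√2 * √3 * u * ((starRingEnd ℂ) (nv j) * d).re) := by
      have := congrArg (√2 * √3 * u * ·) s
      simp only [mul_add] at this
      linarith [up (j - 1), up (j + 1)]
    have b1 := basr_6.1
    have b2 := basr_6.2
    generalize √2 * √3 = w at *
    generalize ((starRingEnd ℂ) (nv j) * d).re = a at *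
    by_contra c
    have wu : 0 ≤ w * u := mul_nonneg (by linarith) h0
    have := mul_le_mul_of_nonneg_left (not_le.1 c).le wu
    nlinarith
  have s (i : Fin 6) : 9 * av j (sl (v * d) e).1 - av i (sl (v * d) e).1 <
      9 * av j (sl (u * d) e).1 - av i (sl (u * d) e).1 := by
    rw [basr_av j hd he h0 hu, basr_av i hd he h0 hu, basr_av j hd he hv h1, basr_av i hd he hv h1]
    exact basr_slope basr_6.1 basr_6.2 a1 (cd' j) (cd' i) (ce i) h0 huv h1
  rw [kk]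
  rcases min_choice (av (j - 1) (sl (v * d) e).1) (av (j + 1) (sl (v * d) e).1) with k | k <;>
    rw [k] <;> linarith [s (j - 1), s (j + 1)]

theorem kc_int {p : S3} (hp : p ∈ kc) (j : Fin 6) : 0 < kk j p.1 := by
  have hx : xx p.1 = 0 := hp
  have n := nsq_S3 p
  rw [nsq_xy, hx, normSq_zero, zero_add] at n
  have e (i : Fin 6) : av i p.1 = 3 + 2 * ((starRingEnd ℂ) (nv i) * yy p.1).re ^ 2 := by
    rw [basr_xy, hx]; simp
  have m := min_le_left (av (j - 1) p.1) (av (j + 1) p.1)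
  have c := basr_cs (j - 1) (yy p.1)
  rw [kk]
  linarith [e j, e (j - 1), sq_nonneg ((starRingEnd ℂ) (nv j) * yy p.1).re]

theorem real_out {p : S3} (hp : 3 / 5 ≤ normSq (xx p.1)) : ∃ j, av j p.1 < 3 / 2 := by
  by_contra c
  have n := nsq_S3 p
  rw [nsq_xy] at n
  have k (j : Fin 6) : ((starRingEnd ℂ) (nv j) * xx p.1).re < 67 / 100 := by
    have a := not_lt.1 (not_exists.1 c j)
    have b := basr_cs j (xx p.1)
    have b' := basr_cs j (yy p.1)
    have b'' := normSq_nonneg (yy p.1)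
    have b1 := basr_6.1
    rw [basr_xy] at a
    generalize √2 * √3 = w at *
    generalize ((starRingEnd ℂ) (nv j) * xx p.1).re = x at *
    by_contra q
    have q := not_lt.1 q
    have x1 : x ≤ 1 := by nlinarith
    have := mul_le_mul_of_nonneg_right b1.le (by linarith : 0 ≤ x)
    nlinarith [mul_nonneg (sub_nonneg.2 q) (sub_nonneg.2 x1)]
  have k0 := k 0
  have k1 := k 1
  have k2 := k 2
  have k3 := k 3
  have k4 := k 4
  have k5 := k 5
  simp only [nv, mul_re, conj_re, conj_im, Matrix.cons_val] at k0 k1 k2 k3 k4 k5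
  rw [normSq_apply] at hp
  obtain ⟨A, hA⟩ : ∃ A, A = √3 / 2 * (xx p.1).re - (xx p.1).im / 2 := ⟨_, rfl⟩
  obtain ⟨B, hB⟩ : ∃ B, B = (xx p.1).im := ⟨_, rfl⟩
  have e : A ^ 2 + A * B + B ^ 2 = 3 / 4 * ((xx p.1).re * (xx p.1).re + (xx p.1).im * (xx p.1).im) := by
    rw [hA, hB]
    linear_combination (xx p.1).re ^ 2 / 4 * r3
  have sA : A ^ 2 < (67 / 100) ^ 2 := sq_lt_sq' (by linarith) (by linarith)
  have sB : B ^ 2 < (67 / 100) ^ 2 := sq_lt_sq' (by linarith) (by linarith)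
  have sC : (A + B) ^ 2 < (67 / 100) ^ 2 := sq_lt_sq' (by linarith) (by linarith)
  rcases le_total 0 (A * B) with a | a
  · nlinarith
  rcases le_total 0 A with b | b <;> rcases le_total 0 B with b' | b' <;>
    rcases le_total 0 (A + B) with d | d <;> nlinarith

theorem basr_thin {j : Fin 6} {p : E} (h : ((starRingEnd ℂ) (nv j) * xx p).re ≤ 179 / 500) :
    3 / 2 < av j p := by
  rw [av_xy]
  have := mul_le_mul_of_nonneg_left h (Real.sqrt_nonneg 2)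
  have k : 1225 / 1000 ≤ √3 - √2 * ((starRingEnd ℂ) (nv j) * xx p).re := by
    linarith [basr_2.2, basr_3.1]
  nlinarith [sq_nonneg ((starRingEnd ℂ) (nv j) * yy p).re]

/-- a thin slab lies in `KL` -/
theorem slab {p : S3} (hY : |p.1.2.re| ≤ 179 / 500) : 3 / 2 < av 2 p.1 ∧ 3 / 2 < av 5 p.1 ∧
    (p.1.1.re ≤ 1 / 8 → 3 / 2 < av 0 p.1 ∧ 3 / 2 < av 1 p.1) ∧
    (-1 / 8 ≤ p.1.1.re → 3 / 2 < av 3 p.1 ∧ 3 / 2 < av 4 p.1) := by
  obtain ⟨y1, y2⟩ := abs_le.1 hY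
  have s := basr_3.2
  have s0 := Real.sqrt_nonneg 3
  refine ⟨basr_thin ?_, basr_thin ?_, fun h => ⟨basr_thin ?_, basr_thin ?_⟩,
    fun h => ⟨basr_thin ?_, basr_thin ?_⟩⟩ <;>
    simp only [nv, xx, mul_re, conj_re, conj_im, Matrix.cons_val] <;> nlinarith

end Pool.Agent.Lib.MP_b7d179_gt.Gm
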