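import Pool.Agent.Lib.MP_b7d179_gt.G.IneqB1

/-! Quadratic inequalities in the vertex chart, part B: far vertices and potentials. -/

namespace Pool.Agent.Lib.MP_b7d179_gt.Gm

open Complex

variable {A B c d : ℂ} (hb : normSq A + normSq B ≤ 3) (hc : Om c)
include hb hc

/-- opposite vertex; float minima of 3 |5 - 2A - 2B|² / Q: 2.9, 7.1, 7.1 -/
theorem E6o (h : normSq (3 - A - c * B) ≤ 2 ∨ hh (c * A) ≤ 1 ∨
    (Om d ∧ normSq (3 - c * A - d * B) ≤ 2)) :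
    2 * normSq (3 - A - B) ≤ 3 * normSq (5 - 2 * A - 2 * B) := by
  rcases h with h | h | ⟨hd, h⟩
  · exact ib_o1 hb hc h
  · exact ib_o2 hb hc h
  · rcases ib_d hc hd with e | e
    · exact ib_o3 hb hc (e ▸ h)
    · exact ib_o4 hb hc (e ▸ h)

/-- vertex at 120 degrees; float minima of 3 |4 - 2A - B|² / Q: 6.07, 5.2, 1.895, 3.56 -/
theorem E6n (h : normSq (3 - c * A - B) ≤ 2 ∨ hh (c * A) ≤ 1 ∨ hh (c * B) ≤ 1 ∨
    (Om d ∧ normSq (3 - c * A - d * B) ≤ 2)) :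
    17 * normSq (3 - A - B) ≤ 30 * normSq (4 - 2 * A - B) := by
  rcases h with h | h | h | ⟨hd, h⟩
  · exact ib_n1 hb hc h
  · exact ib_n2 hb hc h
  · exact ib_n3 hb hc h
  · rcases ib_d hc hd with e | e
    · exact ib_n4 hb hc (e ▸ h)
    · exact ib_n5 hb hc (e ▸ h)

/-- float minimum of the ratio 1.10 -/
theorem E8 (h : hh (c * A) ≤ 1) : 11 * normSq (3 - c * A) ≤ 20 * normSq (3 - A - B) :=
  ib_8 hb hc h

/-- float minimum of the ratio 3 -/
theorem E9 (h : hh (c * A) ≤ 1) : 2 * normSq (3 - c * A) ≤ normSq (3 - A) :=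
  ib_9 hb hc h

/-- float minimum of the ratio 2.64 -/
theorem E10 (h : 11 * normSq (3 - c * A - B) ≤ 24) :
    11 * normSq (3 - c * A - B) ≤ 5 * normSq (3 - A) :=
  ib_10 hb hc h

/-- float minima of the ratios 0.628 and 1.276; use whichever hypotheses help -/
theorem E11 (hd : d = 1 ∨ Om d) (k0 : normSq (3 - A - B) ≤ 2)
    (k1 : normSq (3 - A - B) ≤ 2 * hh A) (k5 : normSq (3 - A - B) ≤ 2 * hh B)
    (k2 : normSq (3 - A - B) ≤ 2 * normSq (4 - 2 * A - B))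
    (k3 : normSq (3 - A - B) ≤ 2 * normSq (5 - 2 * A - 2 * B))
    (k4 : normSq (3 - A - B) ≤ 2 * normSq (4 - A - 2 * B))
    (hs : 0 ≤ ((A - B) * (starRingEnd ℂ) (3 - A - B)).re) :
    11 * normSq (3 - A) ≤ 20 * normSq (3 - c * A - d * B) ∧
      11 * normSq (3 - A) ≤ 10 * normSq (3 - c * A) := by
  have h := ib_hs hs
  refine ⟨?_, ib_b hb hc k0 h⟩
  rcases hd with e | hd
  · rw [e]
    exact ib_a1 hb hc k0 h
  · rcases ib_d hc hd with e | e
    · rw [e]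
      exact ib_a2 hb hc k0 h
    · rw [e]
      exact ib_a3 hb hc k0 h

end Pool.Agent.Lib.MP_b7d179_gt.Gm
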