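import Pool.Agent.Lib.MP_b7d179_gt.G.Sym
import Pool.Agent.Lib.MP_b7d179_gt.G.IneqB
import Pool.Agent.Lib.MP_b7d179_gt.G.BasR

/-! Inequalities in a chamber. -/

namespace Pool.Agent.Lib.MP_b7d179_gt.Gm

open Set Metric Complex Stmt

/-- scaled component in the direction of a vertex -/
noncomputable def bu (j : Fin 6) (x : ℂ) : ℝ := √2 * √3 / 3 * ((starRingEnd ℂ) (nv j) * x).re

theorem bas_av (j : Fin 6) (p : E) :
    av j p = 3 * ((1 - bu j (xx p)) ^ 2 + bu j (yy p) ^ 2) := by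
  rw [av_xy, bu, bu]
  generalize ((starRingEnd ℂ) (nv j) * xx p).re = u
  generalize ((starRingEnd ℂ) (nv j) * yy p).re = v
  linear_combination (1 - √2 * √2 * u ^ 2 / 3 - √2 * √2 * v ^ 2 / 3) * r3 - v ^ 2 * r2

theorem bas_nv1 (j : Fin 6) : nv (j - 1) + nv (j + 1) = nv j := by
  fin_cases j <;> apply Complex.ext <;> simp [nv] <;> ring

theorem bas_nv3 (j : Fin 6) : nv (j + 3) = -nv j := by
  fin_cases j <;> apply Complex.ext <;> simp [nv] <;> ring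

theorem bas_sum (j : Fin 6) (x : ℂ) : bu j x = bu (j - 1) x + bu (j + 1) x := by
  rw [bu, bu, bu, ← mul_add, ← add_re, ← add_mul, ← map_add, bas_nv1]

theorem bas_neg (j : Fin 6) (x : ℂ) : bu (j + 3) x = -bu j x := by
  rw [bu, bu, bas_nv3, map_neg, neg_mul, neg_re, mul_neg]

theorem bas_n (j : Fin 6) (x : ℂ) :
    normSq x = 2 * (bu j x ^ 2 - bu j x * bu (j + 1) x + bu (j + 1) x ^ 2) := by
  have hk : (√2 * √3 / 3) ^ 2 = 2 / 3 := by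
    linear_combination √2 * √2 / 9 * r3 + 1 / 3 * r2
  have hn := nv_sq j
  have e : mv 1 = ⟨1 / 2, √3 / 2⟩ := rfl
  rw [bu, bu, nv_succ, e]
  generalize √2 * √3 / 3 = k at *
  generalize nv j = n at *
  simp only [normSq_apply, mul_re, mul_im, conj_re, conj_im]
  linear_combination (-(3 * (n.re * x.re + n.im * x.im) ^ 2 / 2 +
    √3 * √3 * (n.re * x.im - n.im * x.re) ^ 2 / 2)) * hk -
    (n.re * x.im - n.im * x.re) ^ 2 / 3 * r3 - (x.re ^ 2 + x.im ^ 2) * hn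

/-- hexagonal coordinates at the vertex `j` -/
theorem bas_co (j : Fin 6) (p : E) : ∃ a b c d : ℝ, bu (j - 1) (xx p) = a ∧ bu (j + 1) (xx p) = b ∧
    nsq p = 2 * (a ^ 2 + a * b + b ^ 2) + 2 * (c ^ 2 + c * d + d ^ 2) ∧
    av (j - 1) p = 3 * ((1 - a) ^ 2 + c ^ 2) ∧ av j p = 3 * ((1 - a - b) ^ 2 + (c + d) ^ 2) ∧
    av (j + 1) p = 3 * ((1 - b) ^ 2 + d ^ 2) ∧ av (j + 2) p = 3 * ((1 + a) ^ 2 + c ^ 2) ∧
    av (j + 3) p = 3 * ((1 + a + b) ^ 2 + (c + d) ^ 2) ∧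
    av (j - 2) p = 3 * ((1 + b) ^ 2 + d ^ 2) := by
  have e1 : j + 2 = j - 1 + 3 := by revert j; decide
  have e2 : j - 2 = j + 1 + 3 := by revert j; decide
  refine ⟨_, _, bu (j - 1) (yy p), bu (j + 1) (yy p), rfl, rfl, ?_, bas_av _ _, ?_, bas_av _ _,
    ?_, ?_, ?_⟩
  · rw [nsq_xy, bas_n j (xx p), bas_n j (yy p), bas_sum j (xx p), bas_sum j (yy p)]; ring
  · rw [bas_av, bas_sum j (xx p), bas_sum j (yy p)]; ring
  · rw [e1, bas_av, bas_neg, bas_neg]; ring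
  · rw [bas_av, bas_neg, bas_neg, bas_sum j (xx p), bas_sum j (yy p)]; ring
  · rw [e2, bas_av, bas_neg, bas_neg]; ring

theorem bas_co0 (p : E) : ∃ a b c d : ℝ, bu 5 (xx p) = a ∧ bu 1 (xx p) = b ∧
    nsq p = 2 * (a ^ 2 + a * b + b ^ 2) + 2 * (c ^ 2 + c * d + d ^ 2) ∧
    av 5 p = 3 * ((1 - a) ^ 2 + c ^ 2) ∧ av 0 p = 3 * ((1 - a - b) ^ 2 + (c + d) ^ 2) ∧
    av 1 p = 3 * ((1 - b) ^ 2 + d ^ 2) ∧ av 2 p = 3 * ((1 + a) ^ 2 + c ^ 2) ∧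
    av 3 p = 3 * ((1 + a + b) ^ 2 + (c + d) ^ 2) ∧
    av 4 p = 3 * ((1 + b) ^ 2 + d ^ 2) := bas_co 0 p

theorem av_opp (j : Fin 6) (p : E) : 6 ≤ av j p + av (j + 3) p := by
  obtain ⟨a, b, c, d, -, -, -, -, e0, -, -, e3, -⟩ := bas_co j p
  rw [e0, e3]
  nlinarith [sq_nonneg (a + b), sq_nonneg (c + d)]
/-- `E5` at the vertex `j` -/
theorem av_mid (j : Fin 6) {p : E} (hp : nsq p ≤ 1) (h1 : av (j - 1) p ≤ av j p)
    (h2 : av (j + 1) p ≤ av j p) :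
    15 / 8 ≤ av j p ∧ 15 / 8 ≤ av (j - 1) p ∧ 15 / 8 ≤ av (j + 1) p := by
  obtain ⟨a, b, c, d, -, -, en, e5, e0, e1, -⟩ := bas_co j p
  have k1 : 15 / 8 ≤ av (j - 1) p := by
    rw [e0, e1] at h2
    rw [e5]
    nlinarith [sq_nonneg (a - b), sq_nonneg (c - d)]
  refine ⟨k1.trans h1, k1, ?_⟩
  rw [e0, e5] at h1
  rw [e1]
  nlinarith [sq_nonneg (a - b), sq_nonneg (c - d)]

theorem bas_kk (j : Fin 6) (p : E) : 9 * av j p - av (j - 1) p - 12 ≤ kk j p ∧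
    9 * av j p - av (j + 1) p - 12 ≤ kk j p := by
  unfold kk
  exact ⟨by linarith [min_le_left (av (j - 1) p) (av (j + 1) p)],
    by linarith [min_le_right (av (j - 1) p) (av (j + 1) p)]⟩

theorem bas_kk_le {j : Fin 6} {p : E} (h1 : av j p ≤ av (j - 1) p) (h2 : av j p ≤ av (j + 1) p) :
    kk j p ≤ 8 * av j p - 12 := by
  unfold kk
  linarith [le_min h1 h2]

theorem kk_av {j : Fin 6} {p : E} (hp : nsq p ≤ 1) (h : kk j p ≤ 0) : av j p ≤ 9 / 5 := by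
  obtain ⟨h1, h2⟩ := bas_kk j p
  obtain ⟨a, b, c, d, -, -, en, e5, e0, e1, -⟩ := bas_co j p
  rw [e0] at h1 h2 ⊢
  rw [e5] at h1
  rw [e1] at h2
  nlinarith [sq_nonneg (25 * a + 23 * b - 3), sq_nonneg (16 * b - 1), sq_nonneg (25 * c + 23 * d),
    sq_nonneg d]

theorem bas_out {j : Fin 6} {p : E} (hp : nsq p ≤ 1) (h1 : av j p ≤ av (j - 1) p)
    (h2 : av j p ≤ av (j + 1) p) (h : kk j p ≤ 0) : av j p ≤ 9 / 5 ∧
    15 / 8 ≤ av (j + 2) p ∧ 15 / 8 ≤ av (j - 2) p ∧ 4 ≤ av (j + 3) p := by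
  have k := kk_av hp h
  refine ⟨k, ?_, ?_, by linarith [av_opp j p]⟩
  · obtain ⟨a, b, c, d, -, -, en, -, e0, e1, e2, -⟩ := bas_co j p
    rw [e0, e1] at h2
    rw [e2]
    nlinarith [sq_nonneg (2 * a + b), sq_nonneg (2 * c + d)]
  · obtain ⟨a, b, c, d, -, -, en, e5, e0, -, -, -, e4⟩ := bas_co j p
    rw [e0, e5] at h1
    rw [e4]
    nlinarith [sq_nonneg (2 * b + a), sq_nonneg (2 * d + c)]

theorem bas_six (j k : Fin 6) :
    k = j ∨ k = j + 1 ∨ k = j - 1 ∨ k = j + 2 ∨ k = j - 2 ∨ k = j + 3 := by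
  revert j k; decide

theorem bas_arg {j : Fin 6} {p : E} (hp : nsq p ≤ 1) (h1 : av j p ≤ av (j - 1) p)
    (h2 : av j p ≤ av (j + 1) p) (h : kk j p ≤ 0) (k : Fin 6) : av j p ≤ av k p := by
  obtain ⟨k1, k2, k3, k4⟩ := bas_out hp h1 h2 h
  rcases bas_six j k with rfl | rfl | rfl | rfl | rfl | rfl <;> linarith

theorem kk_min {m : Fin 6} {p : E} (hp : nsq p ≤ 1) (h : ∀ j, av m p ≤ av j p) {j : Fin 6}
    (hj : kk j p ≤ 0) : kk m p ≤ kk j p := by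
  have k0 := bas_kk_le (h (m - 1)) (h (m + 1))
  obtain ⟨b1, b2⟩ := bas_kk j p
  have hm := h j
  by_cases c1 : av (j - 1) p ≤ av j p
  · linarith
  by_cases c2 : av (j + 1) p ≤ av j p
  · linarith
  obtain ⟨k1, k2, k3, k4⟩ := bas_out hp (not_le.1 c1).le (not_le.1 c2).le hj
  rcases bas_six j m with rfl | rfl | rfl | rfl | rfl | rfl
  exacts [le_rfl, absurd hm c2, absurd hm c1, by linarith, by linarith, by linarith]

theorem bas_min (p : E) : ∃ m, ∀ j, av m p ≤ av j p := Finite.exists_min fun j => av j p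

theorem cover (p : S3) : p ∈ Kt ∨ ∃ j, p ∈ Out j := by
  refine or_iff_not_imp_left.2 fun hn => ?_
  obtain ⟨j, hj⟩ := not_forall.1 hn
  obtain ⟨m, hm⟩ := bas_min p.1
  have h := (not_le.1 hj).le
  exact ⟨m, hm _, hm _, (kk_min (nsq_S3 p).le hm h).trans h⟩
theorem Kt_KL : Kt ⊆ KL := by
  intro p hp j
  obtain ⟨m, hm⟩ := bas_min p.1
  linarith [bas_kk_le (hm (m - 1)) (hm (m + 1)), hp m, hm j]
/-- floats: 1.744, 2.03, 4.6. First part in the chart: Q < 5/3 gives hh A + hh B < 14/3. -/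
theorem Out_le {j : Fin 6} {p : S3} (hp : p ∈ Out j) : av j p.1 ≤ 9 / 5 ∧
    15 / 8 ≤ av (j + 2) p.1 ∧ 15 / 8 ≤ av (j - 2) p.1 ∧ 4 ≤ av (j + 3) p.1 :=
  bas_out (nsq_S3 p).le hp.1 hp.2.1 hp.2.2
theorem Out_disj {j k : Fin 6} (h0 : k ≠ j) (h1 : k ≠ j + 1) (h2 : k ≠ j - 1) :
    Disjoint (Out j) (Out k) := by
  refine Set.disjoint_left.2 fun p hj hk => ?_
  obtain ⟨-, k2, k3, k4⟩ := Out_le hj
  have k1 := (Out_le hk).1
  rcases bas_six j k with e | e | e | rfl | rfl | rfl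
  exacts [h0 e, h1 e, h2 e, by linarith, by linarith, by linarith]
theorem Out_adj (e : Fin 6) :
    Out e ∩ Out (e + 1) = {p | av e p.1 = av (e + 1) p.1 ∧ av e p.1 ≤ 3 / 2} := by
  ext p
  constructor
  · rintro ⟨⟨-, a2, a3⟩, b1, -⟩
    rw [add_sub_cancel_right] at b1
    have := (bas_kk e p.1).2
    exact ⟨le_antisymm a2 b1, by linarith⟩
  · rintro ⟨h1, h2⟩
    have hp := (nsq_S3 p).le
    have k1 : av e p.1 ≤ av (e - 1) p.1 := by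
      by_contra c
      linarith [(av_mid e hp (not_le.1 c).le h1.ge).1]
    have k0 : av (e + 1) p.1 = av (e + 1 - 1) p.1 := by rw [add_sub_cancel_right, h1]
    have k2 : av (e + 1) p.1 ≤ av (e + 1 + 1) p.1 := by
      by_contra c
      linarith [(av_mid (e + 1) hp k0.ge (not_le.1 c).le).1]
    exact ⟨⟨k1, h1.le, by linarith [bas_kk_le k1 h1.le]⟩, k0.le, k2,
      by linarith [bas_kk_le k0.le k2]⟩

theorem bas_Kt {j : Fin 6} {p : S3} (hp : p ∈ Out j) (h : 0 ≤ kk j p.1) : p ∈ Kt := fun k => by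
  by_contra c
  have hc := not_le.1 c
  linarith [kk_min (nsq_S3 p).le (bas_arg (nsq_S3 p).le hp.1 hp.2.1 hp.2.2) hc.le]

theorem Aj_adj (e : Fin 6) : Aj e ∩ Aj (e + 1) = kap e ∧ Aj e ∩ Sb e = kap e ∧
    Aj (e + 1) ∩ Sb e = kap e := by
  have key : ∀ p ∈ kap e, p ∈ Aj e ∧ p ∈ Aj (e + 1) ∧ p ∈ Sb e := by
    rintro p ⟨h1, h2⟩
    have h3 : p ∈ Out e ∩ Out (e + 1) := by
      rw [Out_adj]; exact ⟨h1.trans h2.symm, h1.le⟩
    have h4 := bas_Kt h3.1 (by linarith [(bas_kk e p.1).2])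
    exact ⟨⟨h3.1, h4⟩, ⟨h3.2, h4⟩, h1.trans h2.symm⟩
  refine ⟨Subset.antisymm ?_ fun p hp => ⟨(key p hp).1, (key p hp).2.1⟩,
    Subset.antisymm ?_ fun p hp => ⟨(key p hp).1, (key p hp).2.2⟩,
    Subset.antisymm ?_ fun p hp => (key p hp).2⟩
  · rintro p ⟨⟨a1, a2⟩, b1, -⟩
    have h3 : p ∈ Out e ∩ Out (e + 1) := ⟨a1, b1⟩
    rw [Out_adj] at h3
    have := Kt_KL a2 e
    exact ⟨le_antisymm h3.2 this, h3.1 ▸ le_antisymm h3.2 this⟩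
  · rintro p ⟨⟨a1, a2⟩, b⟩
    have h1 : av e p.1 = av (e + 1) p.1 := b
    have := Kt_KL a2 e
    have k := (bas_kk e p.1).2
    have := a1.2.2
    exact ⟨by linarith, by linarith⟩
  · rintro p ⟨⟨a1, a2⟩, b⟩
    have h1 : av e p.1 = av (e + 1) p.1 := b
    have := Kt_KL a2 e
    have k := (bas_kk (e + 1) p.1).1
    rw [add_sub_cancel_right] at k
    have := a1.2.2
    exact ⟨by linarith, by linarith⟩
theorem Kt_bd {p : S3} (hp : p ∈ Kt) {j : Fin 6} (h : kk j p.1 ≤ 0) : ∃ m, p ∈ Aj m := by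
  obtain ⟨m, hm⟩ := bas_min p.1
  exact ⟨m, ⟨hm _, hm _, (kk_min (nsq_S3 p).le hm h).trans h⟩, hp⟩
theorem Aj_iff (p : S3) : p ∈ Aj 0 ↔ av 0 p.1 ≤ av 5 p.1 ∧ av 0 p.1 ≤ av 1 p.1 ∧ kk 0 p.1 = 0 ∧
    av 0 p.1 ≤ 9 / 5 := by
  constructor
  · rintro ⟨a, b⟩
    exact ⟨a.1, a.2.1, le_antisymm a.2.2 (b 0), (Out_le a).1⟩
  · rintro ⟨a, b, c, -⟩
    have h : p ∈ Out 0 := ⟨a, b, c.le⟩
    exact ⟨h, bas_Kt h c.ge⟩

theorem bas_Sb {p : S3} (hp : p ∈ Sb 0) : p.1.2.re * (√2 - p.1.1.re) = p.1.1.im * p.1.2.im ∧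
    p.1.1.re ^ 2 + p.1.1.im ^ 2 + p.1.2.re ^ 2 + p.1.2.im ^ 2 = 1 := by
  have h : av 0 p.1 = av 1 p.1 := hp
  have k := av_sub p.1
  rw [h, sub_self] at k
  have hs := nsq_S3 p
  simp only [nsq, normSq_apply] at hs
  refine ⟨sub_eq_zero.1 ((mul_eq_zero.1 k.symm).resolve_left (by positivity)), by linarith⟩

/-- (X - Y)² ≤ 1 - 2 √2 Y -/
theorem Sb_Y {p : S3} (hp : p ∈ Sb 0) : 8 * p.1.2.re ^ 2 ≤ 1 := by
  obtain ⟨h, hs⟩ := bas_Sb hp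
  have k1 : 0 ≤ 1 - 2 * √2 * p.1.2.re := by
    nlinarith [sq_nonneg (p.1.1.re - p.1.2.re), sq_nonneg (p.1.1.im - p.1.2.im)]
  have k2 : 0 ≤ 1 + 2 * √2 * p.1.2.re := by
    nlinarith [sq_nonneg (p.1.1.re + p.1.2.re), sq_nonneg (p.1.1.im + p.1.2.im)]
  have k3 : (1 - 2 * √2 * p.1.2.re) * (1 + 2 * √2 * p.1.2.re) = 1 - 8 * p.1.2.re ^ 2 := by
    linear_combination (-4 * p.1.2.re ^ 2) * r2
  linarith [mul_nonneg k1 k2]
/-- on `Sb 0`: av 0 = 7/2 - 3 √2 X + X² + y₁²; float: av 0 ≥ 1.63 when √3 |Y| ≥ X -/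
theorem Sb_sec {p : S3} (hp : p ∈ Sb 0) (h : av 0 p.1 ≤ 3 / 2) : √3 * |p.1.2.re| < p.1.1.re := by
  have h0 : av 0 p.1 = av 1 p.1 := hp
  have hs := nsq_S3 p
  obtain ⟨a, b, c, d, ea, eb, en, -, e0, e1, -⟩ := bas_co0 p.1
  rw [e0, e1] at h0
  rw [e0] at h
  rw [en] at hs
  have k1 : 0 < b - a := by
    nlinarith [sq_nonneg (5 * a - 11 * b + 2), sq_nonneg (49 * b - 18), sq_nonneg (5 * c - 11 * d),
      sq_nonneg d]
  have k2 : 0 < 2 * a + b := by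
    nlinarith [sq_nonneg (101 * a + 85 * b - 19), sq_nonneg (83 * b - 34),
      sq_nonneg (101 * c + 85 * d), sq_nonneg d]
  have n5 : nv 5 = ⟨0, -1⟩ := rfl
  have n1 : nv 1 = ⟨√3 / 2, 1 / 2⟩ := rfl
  simp only [bu, n5, n1, xx, mul_re, conj_re, conj_im] at ea eb
  have l1 : b - a = √2 / 2 * (p.1.1.re + √3 * p.1.2.re) := by
    linear_combination ea - eb + √2 * p.1.1.re / 6 * r3
  have l2 : 2 * a + b = √2 / 2 * (p.1.1.re - √3 * p.1.2.re) := by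
    linear_combination -2 * ea - eb + √2 * p.1.1.re / 6 * r3
  rw [l1, mul_pos_iff_of_pos_left (by positivity)] at k1
  rw [l2, mul_pos_iff_of_pos_left (by positivity)] at k2
  rcases abs_cases p.1.2.re with ⟨e, -⟩ | ⟨e, -⟩ <;> rw [e] <;> linarith
theorem Sb_av {p : S3} (hp : p ∈ Sb 0) :
    av 0 p.1 = 7 / 2 - 3 * √2 * p.1.1.re + p.1.1.re ^ 2 + p.1.1.im ^ 2 := by
  obtain ⟨h, hs⟩ := bas_Sb hp
  have n0 : nv 0 = ⟨√3 / 2, -1 / 2⟩ := rfl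
  rw [av_xy]
  simp only [n0, xx, yy, mul_re, conj_re, conj_im]
  linear_combination (√3 * p.1.1.re / 2 - p.1.2.re / 2) ^ 2 * r2 +
    (1 - √2 * p.1.1.re + p.1.1.re ^ 2 / 2 + p.1.1.im ^ 2 / 2) * r3 + √3 * h + 1 / 2 * hs
/-- float: on this ray kk m ≥ 0.089 when the least `av m` has m ≠ 0 or is tied -/
theorem ray {j : Fin 6} {p : S3} (hp : p ∈ Out j) {r : ℝ} (hr : 0 ≤ r) (hx : xx p.1 = r * nv 0) :
    j = 0 ∧ av 0 p.1 < av 1 p.1 ∧ av 0 p.1 < av 5 p.1 := by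
  have hs := nsq_S3 p
  obtain ⟨a, b, c, d, ea, eb, en, e5, e0, e1, e2, e3, e4⟩ := bas_co0 p.1
  have n5 : nv 5 = ⟨0, -1⟩ := rfl
  have n1 : nv 1 = ⟨√3 / 2, 1 / 2⟩ := rfl
  have n0 : nv 0 = ⟨√3 / 2, -1 / 2⟩ := rfl
  simp only [bu, hx, n5, n1, n0, mul_re, mul_im, conj_re, conj_im, ofReal_re, ofReal_im] at ea eb
  have ha : 0 ≤ a := by
    have : a = √2 * √3 / 6 * r := by linear_combination -ea
    rw [this]; positivity
  obtain rfl : a = b := by linear_combination eb - ea - √2 * √3 * r / 12 * r3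
  rw [en] at hs
  have k1 : av 1 p.1 ≤ av 0 p.1 → 0 < 9 * av 1 p.1 - av 0 p.1 - 12 := by
    rw [e0, e1]
    intro h
    nlinarith [sq_nonneg (21 * a - 5), sq_nonneg (5 * c - 14 * d), sq_nonneg d]
  have k5 : av 5 p.1 ≤ av 0 p.1 → 0 < 9 * av 5 p.1 - av 0 p.1 - 12 := by
    rw [e0, e5]
    intro h
    nlinarith [sq_nonneg (21 * a - 5), sq_nonneg (5 * d - 14 * c), sq_nonneg c]
  have hl := (Out_le hp).1
  obtain ⟨a1, a2, a3⟩ := hp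
  obtain ⟨b1, b2⟩ := bas_kk j p.1
  rcases bas_six 0 j with rfl | rfl | rfl | rfl | rfl | rfl
  · refine ⟨rfl, lt_of_not_ge fun h => ?_, lt_of_not_ge fun h => ?_⟩
    · have a2' : av 0 p.1 ≤ av 1 p.1 := a2
      have b2' : 9 * av 0 p.1 - av 1 p.1 - 12 ≤ kk 0 p.1 := b2
      linarith [k1 h]
    · have a1' : av 0 p.1 ≤ av 5 p.1 := a1
      have b1' : 9 * av 0 p.1 - av 5 p.1 - 12 ≤ kk 0 p.1 := b1
      linarith [k5 h]
  · have b1' : 9 * av 1 p.1 - av 0 p.1 - 12 ≤ kk (0 + 1) p.1 := b1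
    exact absurd (k1 a1) (by linarith)
  · have b2' : 9 * av 5 p.1 - av 0 p.1 - 12 ≤ kk (0 - 1) p.1 := b2
    exact absurd (k5 a2) (by linarith)
  · have hl' : av 2 p.1 ≤ 9 / 5 := hl
    exact absurd hl' (by rw [e2]; nlinarith [sq_nonneg a, sq_nonneg c])
  · have hl' : av 4 p.1 ≤ 9 / 5 := hl
    exact absurd hl' (by rw [e4]; nlinarith [sq_nonneg a, sq_nonneg d])
  · have hl' : av 3 p.1 ≤ 9 / 5 := hl
    exact absurd hl' (by rw [e3]; nlinarith [sq_nonneg a, sq_nonneg (c + d)])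

end Pool.Agent.Lib.MP_b7d179_gt.Gm
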