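import Pool.Agent.Lib.MP_b7d179_gt.G.Act

/-! The chart at vertex `0`. -/

namespace Pool.Agent.Lib.MP_b7d179_gt.Gm

open Set Metric Complex Stmt

/-- `3 |w_c|² / |w_0|²` -/
noncomputable def QQ (p : E) : ℝ := normSq (3 - Z1 p - Z2 p)

theorem chart_t : ((√3 : ℝ) : ℂ) ≠ 0 := fun h => by
  have := s3
  rw [h] at this
  norm_num at this

theorem chart_s : ((√2 : ℝ) : ℂ) ≠ 0 := fun h => by
  have := s2
  rw [h] at this
  norm_num at this

theorem chart_n3 : normSq ((√3 : ℝ) : ℂ) = 3 := by rw [normSq_ofReal, r3]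

theorem chart_u0 (p : E) : uw 0 p = 1 - (√2 : ℝ) * p.1 := by simp [uw, lin, mv]

theorem chart_u5 (p : E) : uw 5 p = 1 - (√2 : ℝ) * (p.1 / 2 - (√3 : ℝ) / 2 * p.2) := by
  have e : mv 5 = ⟨1 / 2, -√3 / 2⟩ := rfl
  simp only [uw, lin, e]
  push_cast
  ring

theorem chart_w (p : E) : wv 0 p = (√3 : ℝ) / 3 * (1 + uw 5 p + uw 0 p) ∧
    wv 1 p = (√3 : ℝ) / 3 * (2 - uw 5 p + 2 * uw 0 p) ∧
    wv 5 p = (√3 : ℝ) / 3 * (2 + 2 * uw 5 p - uw 0 p) ∧
    wv 2 p = (√3 : ℝ) / 3 * (4 - 2 * uw 5 p + uw 0 p) ∧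
    wv 3 p = (√3 : ℝ) / 3 * (5 - uw 5 p - uw 0 p) ∧
    wv 4 p = (√3 : ℝ) / 3 * (4 + uw 5 p - 2 * uw 0 p) := by
  have e0 : nv 0 = ⟨√3 / 2, -1 / 2⟩ := rfl
  have e1 : nv 1 = ⟨√3 / 2, 1 / 2⟩ := rfl
  have e2 : nv 2 = ⟨0, 1⟩ := rfl
  have e3 : nv 3 = ⟨-√3 / 2, 1 / 2⟩ := rfl
  have e4 : nv 4 = ⟨-√3 / 2, -1 / 2⟩ := rfl
  have e5 : nv 5 = ⟨0, -1⟩ := rfl
  simp only [chart_u0, chart_u5, wv, lin, e0, e1, e2, e3, e4, e5]
  push_cast
  refine ⟨?_, ?_, ?_, ?_, ?_, ?_⟩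
  · linear_combination (-((√2 : ℝ) : ℂ) * p.2 / 6) * s3
  · linear_combination (((√2 : ℝ) : ℂ) * p.2 / 6) * s3
  · linear_combination (-((√2 : ℝ) : ℂ) * p.2 / 3) * s3
  · linear_combination (((√2 : ℝ) : ℂ) * p.2 / 3) * s3
  · linear_combination (((√2 : ℝ) : ℂ) * p.2 / 6) * s3
  · linear_combination (-((√2 : ℝ) : ℂ) * p.2 / 6) * s3

theorem chart_form (p : E) :
    normSq (wv 0 p) - normSq (uw 5 p) - normSq (uw 0 p) = 1 - nsq p := by
  have e0 : nv 0 = ⟨√3 / 2, -1 / 2⟩ := rfl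
  have e1 : mv 5 = ⟨1 / 2, -√3 / 2⟩ := rfl
  have e2 : mv 0 = ⟨1, 0⟩ := rfl
  simp only [wv, uw, lin, e0, e1, e2, nsq, normSq_apply, add_re, add_im, mul_re, mul_im, sub_re,
    sub_im, one_re, one_im, ofReal_re, ofReal_im]
  linear_combination (-(p.1.re ^ 2 + p.1.im ^ 2 + p.2.re ^ 2 + p.2.im ^ 2) / 2) * r2 +
    (1 - √2 * p.1.re + √2 ^ 2 * (p.1.re ^ 2 + p.1.im ^ 2 - p.2.re ^ 2 - p.2.im ^ 2) / 4) * r3

theorem chart_ext {p q : E} (h5 : uw 5 p = uw 5 q) (h0 : uw 0 p = uw 0 q) : p = q := by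
  rw [chart_u0, chart_u0] at h0
  rw [chart_u5, chart_u5] at h5
  refine Prod.ext (mul_left_cancel₀ chart_s (by linear_combination -h0))
    (mul_left_cancel₀ (mul_ne_zero chart_s chart_t) (by linear_combination 2 * h5 - h0))

theorem chart_zE (A B : ℂ) :
    uw 5 (zE A B) = A / (3 - A - B) ∧ uw 0 (zE A B) = B / (3 - A - B) := by
  have h2 := chart_s
  have h3 := chart_t
  rw [chart_u0, chart_u5]
  simp only [zE]
  generalize A / (3 - A - B) = a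
  generalize B / (3 - A - B) = b
  constructor <;> field_simp <;> ring

theorem wv_ne (j : Fin 6) {p : E} (hp : nsq p ≤ 1) : wv j p ≠ 0 := by
  intro h
  have h1 : ((√3 : ℝ) : ℂ) = (√2 : ℝ) * lin (nv j) p := sub_eq_zero.1 h
  have h2 := congrArg normSq h1
  rw [normSq_mul, chart_n3, normSq_ofReal, r2] at h2
  have h3 : normSq (lin (nv j) p) ≤ nsq p := by
    have := nv_sq j
    simp only [lin, nsq, normSq_apply, add_re, add_im, mul_re, mul_im, ofReal_re, ofReal_im]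
    generalize (nv j).re = a at *
    generalize (nv j).im = b at *
    have e : p.1.re * p.1.re + p.1.im * p.1.im + (p.2.re * p.2.re + p.2.im * p.2.im) =
        (a ^ 2 + b ^ 2) * (p.1.re * p.1.re + p.1.im * p.1.im + (p.2.re * p.2.re + p.2.im * p.2.im)) := by
      rw [this, one_mul]
    rw [e]
    nlinarith [sq_nonneg (a * p.2.re - b * p.1.re), sq_nonneg (a * p.2.im - b * p.1.im)]
  linarith

theorem chart_Z {p : E} (hp : nsq p ≤ 1) :
    normSq (Z1 p) + normSq (Z2 p) = 3 - 3 * (1 - nsq p) / normSq (wv 0 p) := by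
  have h := normSq_pos.2 (wv_ne 0 hp)
  rw [← chart_form, Z1, Z2, normSq_div, normSq_div, normSq_mul, normSq_mul, chart_n3]
  field_simp
  ring

theorem Z_ball {p : E} (hp : nsq p ≤ 1) : normSq (Z1 p) + normSq (Z2 p) ≤ 3 := by
  have h := normSq_nonneg (wv 0 p)
  have : 0 ≤ 3 * (1 - nsq p) / normSq (wv 0 p) := div_nonneg (by linarith) h
  linarith [chart_Z hp]

theorem Z_sph (p : S3) : normSq (Z1 p.1) + normSq (Z2 p.1) = 3 := by
  rw [chart_Z (nsq_S3 p).le, nsq_S3]; simp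

theorem P_ne {A B : ℂ} (h : normSq A + normSq B ≤ 3) : 3 - A - B ≠ 0 := by
  intro e
  have := congrArg re e
  simp only [sub_re, re_ofNat, zero_re] at this
  simp only [normSq_apply] at h
  nlinarith [sq_nonneg (A.re - B.re), sq_nonneg A.im, sq_nonneg B.im]

theorem P_eq {p : E} (hp : nsq p ≤ 1) : (3 - Z1 p - Z2 p) * wv 0 p = (√3 : ℝ) := by
  have h := wv_ne 0 hp
  have e : (3 - Z1 p - Z2 p) * wv 0 p = 3 * wv 0 p - (√3 : ℝ) * uw 5 p - (√3 : ℝ) * uw 0 p := by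
    rw [Z1, Z2]; field_simp
  rw [e, (chart_w p).1]
  ring

theorem QQ_pos {p : E} (hp : nsq p ≤ 1) : 0 < QQ p := normSq_pos.2 (P_ne (Z_ball hp))

theorem chart_uw {p : E} (hp : nsq p ≤ 1) :
    uw 5 p * (3 - Z1 p - Z2 p) = Z1 p ∧ uw 0 p * (3 - Z1 p - Z2 p) = Z2 p := by
  have h := wv_ne 0 hp
  have e := P_eq hp
  constructor
  · refine mul_right_cancel₀ h ?_
    rw [mul_assoc, e, Z1, div_mul_cancel₀ _ h, mul_comm]
  · refine mul_right_cancel₀ h ?_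
    rw [mul_assoc, e, Z2, div_mul_cancel₀ _ h, mul_comm]

theorem av_chart {p : E} (hp : nsq p ≤ 1) :
    av 0 p * QQ p = 3 ∧ av 1 p * QQ p = 3 * hh (Z1 p) ∧ av 5 p * QQ p = 3 * hh (Z2 p) ∧
      av 2 p * QQ p = 3 * normSq (4 - 2 * Z1 p - Z2 p) ∧
      av 3 p * QQ p = 3 * normSq (5 - 2 * Z1 p - 2 * Z2 p) ∧
      av 4 p * QQ p = 3 * normSq (4 - Z1 p - 2 * Z2 p) := by
  obtain ⟨a, b⟩ := chart_uw hp
  obtain ⟨w0, w1, w5, w2, w3, w4⟩ := chart_w p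
  have k : ∀ (j : Fin 6) (z : ℂ), wv j p * (3 - Z1 p - Z2 p) = (√3 : ℝ) * z →
      av j p * QQ p = 3 * normSq z := fun j z h => by
    rw [av, QQ, ← normSq_mul, h, normSq_mul, chart_n3]
  refine ⟨?_, k 1 (2 - Z1 p) ?_, k 5 (2 - Z2 p) ?_, k 2 _ ?_, k 3 _ ?_, k 4 _ ?_⟩
  · rw [k 0 1 (by rw [mul_comm, P_eq hp, mul_one]), normSq_one, mul_one]
  · rw [w1]; linear_combination (((√3 : ℝ) : ℂ) / 3) * (-a + 2 * b)
  · rw [w5]; linear_combination (((√3 : ℝ) : ℂ) / 3) * (2 * a - b)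
  · rw [w2]; linear_combination (((√3 : ℝ) : ℂ) / 3) * (-2 * a + b)
  · rw [w3]; linear_combination (((√3 : ℝ) : ℂ) / 3) * (-a - b)
  · rw [w4]; linear_combination (((√3 : ℝ) : ℂ) / 3) * (a - 2 * b)

theorem uw_chart {p : E} (hp : nsq p ≤ 1) :
    uw 5 p * (3 - Z1 p - Z2 p) = Z1 p ∧ uw 0 p * (3 - Z1 p - Z2 p) = Z2 p := chart_uw hp

theorem chart_g0 {c : ℂ} (hc : normSq c = 1) {p : E} (hp : nsq p ≤ 1) :
    uw 5 (gE c 0 p) = uw 5 p / jj c 0 p := by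
  have hj := jj_ne hc 0 hp
  have e2 : mv 0 = ⟨1, 0⟩ := rfl
  rw [chart_u5, chart_u5]
  simp only [gE, e2]
  push_cast
  field_simp
  rw [jj]
  linear_combination (-(1 - c) * uw 0 p) * s2

theorem chart_g5 {c : ℂ} (hc : normSq c = 1) {p : E} (hp : nsq p ≤ 1) :
    uw 0 (gE c 5 p) = uw 0 p / jj c 5 p := by
  have hj := jj_ne hc 5 hp
  have e2 : mv 5 = ⟨1 / 2, -√3 / 2⟩ := rfl
  rw [chart_u0, chart_u0]
  simp only [gE, e2]
  push_cast
  field_simp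
  rw [jj]
  linear_combination (-(1 - c) * uw 5 p) * s2

theorem Z_gE0 {c : ℂ} (hc : normSq c = 1) {p : E} (hp : nsq p ≤ 1) :
    Z1 (gE c 0 p) = Z1 p ∧ Z2 (gE c 0 p) = c * Z2 p := by
  have hj := jj_ne hc 0 hp
  have hw := wv_ne 0 hp
  have e : wv 0 (gE c 0 p) = wv 0 p / jj c 0 p := by
    rw [(chart_w _).1, (chart_w p).1, chart_g0 hc hp, uw_gE hc 0 hp]
    field_simp
    rw [jj]
    ring
  simp only [Z1, Z2, e, chart_g0 hc hp, uw_gE hc 0 hp]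
  constructor <;> field_simp

theorem Z_gE5 {c : ℂ} (hc : normSq c = 1) {p : E} (hp : nsq p ≤ 1) :
    Z1 (gE c 5 p) = c * Z1 p ∧ Z2 (gE c 5 p) = Z2 p := by
  have hj := jj_ne hc 5 hp
  have hw := wv_ne 0 hp
  have e : wv 0 (gE c 5 p) = wv 0 p / jj c 5 p := by
    rw [(chart_w _).1, (chart_w p).1, chart_g5 hc hp, uw_gE hc 5 hp]
    field_simp
    rw [jj]
    ring
  simp only [Z1, Z2, e, chart_g5 hc hp, uw_gE hc 5 hp]
  constructor <;> field_simp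

theorem jj_chart {c : ℂ} {p : E} (hp : nsq p ≤ 1) :
    jj c 0 p * (3 - Z1 p - Z2 p) = 3 - Z1 p - c * Z2 p ∧
      jj c 5 p * (3 - Z1 p - Z2 p) = 3 - c * Z1 p - Z2 p := by
  obtain ⟨a, b⟩ := chart_uw hp
  rw [jj, jj]
  exact ⟨by linear_combination (1 - c) * b, by linear_combination (1 - c) * a⟩

theorem gg_val (a b : ℕ) (p : S3) : (gg a b p).1 = gE (w1 ^ a) 5 (gE (w1 ^ b) 0 p.1) := by
  rw [← g_pow_val, ← g_pow_val]; rfl

theorem Z_gg (a b : ℕ) (p : S3) :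
    Z1 (gg a b p).1 = w1 ^ a * Z1 p.1 ∧ Z2 (gg a b p).1 = w1 ^ b * Z2 p.1 := by
  have ha : normSq (w1 ^ a) = 1 := by rw [map_pow, w1_nsq, one_pow]
  have hb : normSq (w1 ^ b) = 1 := by rw [map_pow, w1_nsq, one_pow]
  have h1 := Z_gE0 hb (nsq_S3 p).le
  have h2 := Z_gE5 ha (nsq_gE_one hb 0 _ (nsq_S3 p)).le
  rw [gg_val, h2.1, h2.2, h1.1, h1.2]
  exact ⟨rfl, rfl⟩

theorem gg_mul (a b c d : ℕ) : gg a b * gg c d = gg (a + c) (b + d) := by
  have h : Commute (g 5) (g 0) := g_comm 5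
  rw [gg, gg, gg, pow_add, pow_add, mul_assoc, mul_assoc, ← mul_assoc (g 0 ^ b),
    ← (h.pow_pow c b).eq, mul_assoc]

theorem gg_mod (a b : ℕ) : gg (a % 3) (b % 3) = gg a b := by
  rw [gg, gg, ← pow_eq_pow_mod _ (g_cube 5), ← pow_eq_pow_mod _ (g_cube 0)]

theorem Z_sw (p : S3) : Z1 (sw p).1 = Z2 p.1 ∧ Z2 (sw p).1 = Z1 p.1 := by
  have e : (sw p).1 = lE (1 / 2) (-√3 / 2) (-√3 / 2) (-1 / 2) p.1 := rfl
  have h5 : uw 5 (sw p).1 = uw 0 p.1 := by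
    rw [e, chart_u5, chart_u0]
    simp only [lE]
    push_cast
    linear_combination (-((√2 : ℝ) : ℂ) * p.1.1 / 4) * s3
  have h0 : uw 0 (sw p).1 = uw 5 p.1 := by
    rw [e, chart_u5, chart_u0]
    simp only [lE]
    push_cast
    ring
  have hw : wv 0 (sw p).1 = wv 0 p.1 := by
    rw [(chart_w _).1, (chart_w p.1).1, h5, h0]; ring
  simp only [Z1, Z2, h5, h0, hw, and_self]

theorem Z_cj (p : S3) :
    Z1 (cj p).1 = (starRingEnd ℂ) (Z1 p.1) ∧ Z2 (cj p).1 = (starRingEnd ℂ) (Z2 p.1) := by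
  have e : (cj p).1 = cjE p.1 := rfl
  rw [e]
  constructor <;> simp [Z1, Z2, uw, wv, lin, cjE]

theorem cont_Z1 : Continuous fun p : S3 => Z1 p.1 :=
  (continuous_const.mul ((cont_uw 5).comp continuous_subtype_val)).div
    ((cont_wv 0).comp continuous_subtype_val) fun p => wv_ne 0 (nsq_S3 p).le

theorem cont_Z2 : Continuous fun p : S3 => Z2 p.1 :=
  (continuous_const.mul ((cont_uw 0).comp continuous_subtype_val)).div
    ((cont_wv 0).comp continuous_subtype_val) fun p => wv_ne 0 (nsq_S3 p).le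

theorem chart_zw {A B : ℂ} (h : normSq A + normSq B ≤ 3) :
    wv 0 (zE A B) = (√3 : ℝ) / (3 - A - B) := by
  have hP := P_ne h
  rw [(chart_w _).1, (chart_zE A B).1, (chart_zE A B).2]
  field_simp
  ring

theorem chart_zn {A B : ℂ} (h : normSq A + normSq B = 3) : nsq (zE A B) = 1 := by
  have e := chart_form (zE A B)
  rw [chart_zw h.le, (chart_zE A B).1, (chart_zE A B).2, normSq_div, normSq_div, normSq_div,
    chart_n3, ← sub_div, ← sub_div, show 3 - normSq A - normSq B = 0 by linarith, zero_div] at e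
  linarith

theorem zp_val {A B : ℂ} (h : normSq A + normSq B = 3) : Z1 (zp A B).1 = A ∧ Z2 (zp A B).1 = B := by
  have hP := P_ne h.le
  have h3 := chart_t
  rw [zp, pt_val (chart_zn h), Z1, Z2, chart_zw h.le, (chart_zE A B).1, (chart_zE A B).2]
  constructor <;> field_simp

theorem zp_coe (p : S3) : zp (Z1 p.1) (Z2 p.1) = p := by
  have hP := P_ne (Z_sph p).le
  obtain ⟨a, b⟩ := chart_uw (nsq_S3 p).le
  rw [zp, chart_ext (p := zE (Z1 p.1) (Z2 p.1)) (q := p.1)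
    (by rw [(chart_zE _ _).1, div_eq_iff hP, a]) (by rw [(chart_zE _ _).2, div_eq_iff hP, b]), pt_coe]

theorem ext_Z {p q : S3} (h1 : Z1 p.1 = Z1 q.1) (h2 : Z2 p.1 = Z2 q.1) : p = q := by
  rw [← zp_coe p, h1, h2, zp_coe]

theorem contOn_zp : ContinuousOn (fun q : ℂ × ℂ => zp q.1 q.2) {q | normSq q.1 + normSq q.2 = 3} := by
  refine contOn_pt (f := fun q : ℂ × ℂ => zE q.1 q.2) ?_ fun q hq => chart_zn hq
  have a : ContinuousOn (fun q : ℂ × ℂ => q.1 / (3 - q.1 - q.2)) {q | normSq q.1 + normSq q.2 = 3} :=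
    ContinuousOn.div (by fun_prop) (by fun_prop) fun q hq => P_ne (le_of_eq hq)
  have b : ContinuousOn (fun q : ℂ × ℂ => q.2 / (3 - q.1 - q.2)) {q | normSq q.1 + normSq q.2 = 3} :=
    ContinuousOn.div (by fun_prop) (by fun_prop) fun q hq => P_ne (le_of_eq hq)
  have c := (continuousOn_const (c := (1 : ℂ)).sub b).div_const ((√2 : ℝ) : ℂ)
  exact c.prodMk (continuousOn_const.mul
    (((a.sub continuousOn_const).div_const _).add (c.div_const _)))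

/-- sign of the real part across the axis of vertex `0` -/
theorem side_chart (p : S3) : ((Z1 p.1 - Z2 p.1) * (starRingEnd ℂ) (3 - Z1 p.1 - Z2 p.1)).re =
    √2 * QQ p.1 * ((starRingEnd ℂ) (nv 0) * xx p.1).im := by
  obtain ⟨a, b⟩ := chart_uw (nsq_S3 p).le
  have e : (Z1 p.1 - Z2 p.1) * (starRingEnd ℂ) (3 - Z1 p.1 - Z2 p.1) =
      (uw 5 p.1 - uw 0 p.1) * (QQ p.1 : ℝ) := by
    rw [QQ, ← mul_conj]
    linear_combination (starRingEnd ℂ) (3 - Z1 p.1 - Z2 p.1) * (b - a)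
  have e0 : nv 0 = ⟨√3 / 2, -1 / 2⟩ := rfl
  have e1 : mv 5 = ⟨1 / 2, -√3 / 2⟩ := rfl
  have e2 : mv 0 = ⟨1, 0⟩ := rfl
  rw [e]
  simp only [uw, lin, xx, e0, e1, e2, add_re, add_im, mul_re, mul_im, sub_re, sub_im, one_re, one_im,
    ofReal_re, ofReal_im, conj_re, conj_im]
  ring

/-- the Hermitian product of two points under a generator -/
theorem form_gE {c : ℂ} (hc : normSq c = 1) (i : Fin 6) {p q : E} (hp : nsq p ≤ 1) (hq : nsq q ≤ 1) :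
    (1 - (gE c i p).1 * (starRingEnd ℂ) (gE c i q).1 - (gE c i p).2 * (starRingEnd ℂ) (gE c i q).2) *
      (jj c i p * (starRingEnd ℂ) (jj c i q)) =
      1 - p.1 * (starRingEnd ℂ) q.1 - p.2 * (starRingEnd ℂ) q.2 := by
  have h1 := jj_ne hc i hp
  have h2 : (starRingEnd ℂ) (jj c i q) ≠ 0 := (map_ne_zero _).2 (jj_ne hc i hq)
  have hm : ((mv i).re : ℂ) ^ 2 + ((mv i).im : ℂ) ^ 2 = 1 := by exact_mod_cast mv_sq i
  have hu : uw i p = 1 - (√2 : ℝ) * ((mv i).re * p.1 + (mv i).im * p.2) := rfl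
  have hv : (starRingEnd ℂ) (uw i q) = 1 - (√2 : ℝ) * ((mv i).re * (starRingEnd ℂ) q.1 +
      (mv i).im * (starRingEnd ℂ) q.2) := by simp [uw, lin]
  have hd : c * (starRingEnd ℂ) c = 1 := by rw [mul_conj, hc, ofReal_one]
  have hj : (starRingEnd ℂ) (jj c i q) = 1 + (1 - (starRingEnd ℂ) c) * (starRingEnd ℂ) (uw i q) := by
    simp [jj]
  simp only [gE, map_div₀, map_add, map_mul, map_sub, map_one, conj_ofReal]
  field_simp
  rw [hj, jj]
  generalize (starRingEnd ℂ) (uw i q) = v at *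
  generalize uw i p = u at *
  generalize (starRingEnd ℂ) c = d at *
  linear_combination (-(1 - c) * (1 - d) * u * v) * (((√2 : ℝ) : ℂ) * (√2 : ℝ) * hm + s2) -
    (1 - c) * u * hv - (1 - d) * v * hu - u * v * hd


end Pool.Agent.Lib.MP_b7d179_gt.Gm
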