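import Pool.Agent.Lib.MP_b7d179_gt.G.CombA
import Pool.Agent.Lib.MP_b7d179_gt.Stmt

/-! Every consistent state has a carrier cell. -/

namespace Pool.Agent.Lib.MP_b7d179_gt.Gm

open Set Metric Complex Stmt

/-- a point of the circle in slot `(a, b)` -/
def bsK (a b p : ℕ) : Bs where
  A x := (Nat.beq x a && (Nat.ble 14 p && Nat.ble p 20)) ||
    (Nat.beq x ((a + 2) % 3) && (Nat.ble 2 p && Nat.ble p 8))
  B x := (Nat.beq x b && (Nat.ble 8 p && Nat.ble p 14)) ||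
    (Nat.beq x ((b + 2) % 3) && (Nat.ble 20 p || Nat.ble p 2))
  Y x := Nat.beq x a
  W x := Nat.beq x b
  Zp := Nat.ble 12 p || Nat.beq p 0
  Zm := Nat.ble p 12
  Tp := Nat.ble 4 p && Nat.ble p 16
  Tm := Nat.ble 16 p || Nat.ble p 4
  K x y := Nat.beq x a && Nat.beq y b
  X0 x y := Nat.beq x a && Nat.beq y b
  X1 x y := Nat.beq x a && Nat.beq y b
  X2 x y := Nat.beq x a && Nat.beq y b
  P τ := Nat.beq τ p || (Nat.beq (τ % 2) 1 && (Nat.beq (p + 1) τ || Nat.beq ((τ + 1) % 24) p))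

lemma bsK_ck : (f3.all fun a => f3.all fun b => (List.range 24).all fun p =>
    (bsK a b p).ck (p, a, b) true) = true := by decide +kernel

lemma comb_tri (P : Fin 3 → Prop) (a : Fin 3) {p q : Prop}
    (h0 : P a ↔ p) (h1 : ¬ P (a + 1)) (h2 : P (a + 2) ↔ q) (x : Fin 3) :
    P x ↔ ((x : ℕ) = a ∧ p) ∨ ((x : ℕ) = (a + 2) % 3 ∧ q) := by
  have t : ∀ a x : Fin 3, x = a ∨ x = a + 1 ∨ x = a + 2 := by decide
  have v : ((a + 2 : Fin 3) : ℕ) = (a + 2) % 3 := rfl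
  rw [← v, Fin.val_inj, Fin.val_inj, ← h0, ← h2]
  constructor
  · intro m
    rcases t a x with rfl | rfl | rfl
    exacts [Or.inl ⟨rfl, m⟩, (h1 m).elim, Or.inr ⟨rfl, m⟩]
  · rintro (⟨rfl, m⟩ | ⟨rfl, m⟩) <;> exact m

lemma comb_u0 {s : Pt} (h : s.Ok) {a b a' b' : Fin 3} (m : s.X0 a b ∨ s.X1 a b)
    (m' : s.X0 a' b' ∨ s.X1 a' b') : a = a' ∧ b = b' := by
  obtain rfl := h.uF a a' (Or.inr ⟨b, m⟩) (Or.inr ⟨b', m'⟩)
  exact ⟨rfl, h.legF a b b' m m'⟩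

lemma comb_u2 {s : Pt} (h : s.Ok) {a b a' b' : Fin 3} (m : s.X2 a b ∨ s.X1 a b)
    (m' : s.X2 a' b' ∨ s.X1 a' b') : a = a' ∧ b = b' := by
  obtain rfl := h.uG b b' (Or.inr ⟨a, m⟩) (Or.inr ⟨a', m'⟩)
  exact ⟨h.legG b a a' m m', rfl⟩

lemma comb_K {s : Pt} (h : s.Ok) {a b : Fin 3} (k : s.K a b) : ∃ k, s.Car k := by
  obtain ⟨y, w, x0, x1, x2⟩ := h.kin a b k
  obtain ⟨lt, a0, a2, b0, b2, zp, zm, tp, tm⟩ := h.kps a b k
  have hY : ∀ x, s.Y x ↔ x = a := fun x => ⟨fun m => h.uF _ _ (Or.inl m) (Or.inl y), fun e => e ▸ y⟩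
  have hW : ∀ x, s.W x ↔ x = b := fun x => ⟨fun m => h.uG _ _ (Or.inl m) (Or.inl w), fun e => e ▸ w⟩
  have e : (bsK a b s.ps).Eqv s := by
    constructor <;>
      simp only [bsK, Bool.and_eq_true, Bool.or_eq_true, Nat.beq_eq, Nat.ble_eq, Fin.val_inj]
    · simpa only [Fin.val_inj] using comb_tri s.A a a0 (h.nA a y) a2
    · simpa only [Fin.val_inj] using comb_tri s.B b b0 (h.nB b w) b2
    · exact hY
    · exact hW
    · exact fun x z => ⟨fun m => comb_u0 h (Or.inr (h.kin x z m).2.2.2.1) (Or.inr x1),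
        by rintro ⟨rfl, rfl⟩; exact k⟩
    · exact fun x z => ⟨fun m => comb_u0 h (Or.inl m) (Or.inl x0), by rintro ⟨rfl, rfl⟩; exact x0⟩
    · exact fun x z => ⟨fun m => comb_u0 h (Or.inr m) (Or.inr x1), by rintro ⟨rfl, rfl⟩; exact x1⟩
    · exact fun x z => ⟨fun m => comb_u2 h (Or.inl m) (Or.inl x2), by rintro ⟨rfl, rfl⟩; exact x2⟩
    · intro x z m _
      rw [(hY x).1 m]
      exact ⟨zp, zm⟩
    · intro x z m _
      rw [(hW z).1 m]
      exact ⟨tp, tm⟩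
    · exact fun _ _ _ _ _ => trivial
  have c := bsK_ck
  simp only [List.all_eq_true, List.mem_range] at c
  exact e.car (c a (f3_mem a) b (f3_mem b) _ lt)

/-- a point off the circles -/
def bsN (oA oB oY oW x0 x1 x2 : ℕ) (zp zm tp tm : Bool) : Bs where
  A x := Nat.beq x oA
  B x := Nat.beq x oB
  Y x := Nat.beq x oY
  W x := Nat.beq x oW
  Zp := zp
  Zm := zm
  Tp := tp
  Tm := tm
  K _ _ := false
  X0 x y := Nat.beq (3 * x + y) x0
  X1 x y := Nat.beq (3 * x + y) x1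
  X2 x y := Nat.beq (3 * x + y) x2
  P _ := false

/-- the carrier of a point of the core -/
def carC (oA oB oY oW : ℕ) (zp zm tp tm : Bool) : ℕ × ℕ × ℕ :=
  if oY < 3 then
    (if oB < 3 then ((if oA = oY then 24 else if oA < 3 then 25 else
      bif zp then (bif zm then 28 else 31) else 32), oY, oB)
    else (if oA = oY then 39 else 40, oY, 0))
  else if oW < 3 then
    (if oA < 3 then ((if oB = oW then 26 else if oB < 3 then 27 else
      bif tp then (bif tm then 29 else 33) else 34), oA, oW)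
    else (if oB = oW then 41 else 42, 0, oW))
  else if oA < 3 then (if oB < 3 then (30, oA, oB) else (43, oA, 0)) else (44, 0, oB)

/-- the carrier of a point off the core -/
def carN (oY oW x0 x1 x2 : ℕ) : ℕ × ℕ × ℕ :=
  if x1 < 9 then (if x0 < 9 then 36 else if x2 < 9 then 37 else 48, x1 / 3, x1 % 3)
  else if x0 < 9 then (if oY < 3 then 35 else 47, x0 / 3, x0 % 3)
  else if x2 < 9 then (if oW < 3 then 38 else 49, x2 / 3, x2 % 3)
  else if oY < 3 then (45, oY, 0) else (46, 0, oW)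

set_option synthInstance.maxSize 4000 in
lemma carC_ck : ∀ oA oB oY oW : Fin 4,
    ((∃ a : Fin 3, (a : ℕ) = oA) ∨ ∃ b : Fin 3, (b : ℕ) = oB) →
    (∀ a b : Fin 3, (a : ℕ) = oY → (b : ℕ) ≠ oW) →
    (∀ a : Fin 3, (a : ℕ) = oY → ((a + 1 : Fin 3) : ℕ) ≠ oA) →
    (∀ a : Fin 3, (a : ℕ) = oW → ((a + 1 : Fin 3) : ℕ) ≠ oB) → ∀ zp zm : Bool,
    (zp = true ∨ zm = true) → ((∃ a : Fin 3, (a : ℕ) = oY) ∨ (zp = true ∧ zm = true)) →
    (∀ a : Fin 3, (a : ℕ) = oY → (a : ℕ) = oA → ¬ zm = true) →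
    (∀ a : Fin 3, (a : ℕ) = oY → ((a + 2 : Fin 3) : ℕ) = oA → ¬ zp = true) → ∀ tp tm : Bool,
    (tp = true ∨ tm = true) → ((∃ a : Fin 3, (a : ℕ) = oW) ∨ (tp = true ∧ tm = true)) →
    (∀ a : Fin 3, (a : ℕ) = oW → (a : ℕ) = oB → ¬ tm = true) →
    (∀ a : Fin 3, (a : ℕ) = oW → ((a + 2 : Fin 3) : ℕ) = oB → ¬ tp = true) →
    (bsN oA oB oY oW 9 9 9 zp zm tp tm).ck (carC oA oB oY oW zp zm tp tm) false = true := by
  decide +kernel

set_option synthInstance.maxSize 4000 in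
lemma carN_ck : ∀ (x1 x0 : Fin 10) (oY : Fin 4),
    (∀ a b : Fin 3, 3 * (a : ℕ) + b = x0 → ∀ a' b' : Fin 3, 3 * (a' : ℕ) + b' = x1 → a = a' ∧ b = b') →
    (∀ a b : Fin 3, 3 * (a : ℕ) + b = x0 → ∀ a' : Fin 3, (a' : ℕ) = oY → a = a') →
    (∀ a b : Fin 3, 3 * (a : ℕ) + b = x1 → ∀ a' : Fin 3, (a' : ℕ) ≠ oY) →
    ∀ (x2 : Fin 10) (oW : Fin 4),
    (∀ a b : Fin 3, 3 * (a : ℕ) + b = x2 → (∀ a' b' : Fin 3, 3 * (a' : ℕ) + b' ≠ x0) ∧
      (∀ a' : Fin 3, (a' : ℕ) ≠ oY) ∧ (∀ b' : Fin 3, (b' : ℕ) = oW → b = b') ∧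
      ∀ a' b' : Fin 3, 3 * (a' : ℕ) + b' = x1 → a = a' ∧ b = b') →
    (∀ b : Fin 3, (b : ℕ) = oW → (∀ a' : Fin 3, (a' : ℕ) ≠ oY) ∧
      ∀ a' b' : Fin 3, 3 * (a' : ℕ) + b' ≠ x0 ∧ 3 * (a' : ℕ) + b' ≠ x1) →
    ((∃ a : Fin 3, (a : ℕ) = oY ∨ ∃ b : Fin 3, 3 * (a : ℕ) + b = x0 ∨ 3 * (a : ℕ) + b = x1) ∨
      ∃ b : Fin 3, (b : ℕ) = oW ∨ ∃ a : Fin 3, 3 * (a : ℕ) + b = x2 ∨ 3 * (a : ℕ) + b = x1) →
    (bsN 3 3 oY oW x0 x1 x2 true true true true).ck (carN oY oW x0 x1 x2) false = true := by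
  decide +kernel

lemma comb_opt (P : Fin 3 → Prop) (u : ∀ a a', P a → P a' → a = a') :
    ∃ o : Fin 4, ∀ a : Fin 3, P a ↔ (a : ℕ) = o := by
  by_cases c : ∃ a, P a
  · obtain ⟨a, m⟩ := c
    exact ⟨a.castSucc, fun x => ⟨fun m' => by rw [u x a m' m]; rfl, fun e => Fin.ext e ▸ m⟩⟩
  · exact ⟨3, fun x => ⟨fun m => (c ⟨x, m⟩).elim, fun e => absurd e x.2.ne⟩⟩

lemma comb_opt2 (P : Fin 3 → Fin 3 → Prop) (u : ∀ a b a' b', P a b → P a' b' → a = a' ∧ b = b') :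
    ∃ o : Fin 10, ∀ a b : Fin 3, P a b ↔ 3 * (a : ℕ) + b = o := by
  by_cases c : ∃ a b, P a b
  · obtain ⟨a, b, m⟩ := c
    refine ⟨⟨3 * a + b, by omega⟩, fun x y => ⟨fun m' => ?_, fun e => ?_⟩⟩
    · obtain ⟨rfl, rfl⟩ := u x y a b m' m
      rfl
    · have e' : 3 * (x : ℕ) + y = 3 * a + b := e
      obtain rfl : x = a := Fin.ext (by omega)
      obtain rfl : y = b := Fin.ext (by omega)
      exact m
  · refine ⟨9, fun x y => ⟨fun m => (c ⟨x, y, m⟩).elim, fun e => ?_⟩⟩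
    have e' : 3 * (x : ℕ) + y = 9 := e
    omega

/-- the signs at the only relevant slot -/
lemma comb_sg (Y Zp Zm : Fin 3 → Prop) (u : ∀ a a', Y a → Y a' → a = a') (z : ∀ a, Zp a ∨ Zm a) :
    ∃ p m : Bool, (∀ a, Y a → (Zp a ↔ p = true) ∧ (Zm a ↔ m = true)) ∧ (p = true ∨ m = true) ∧
      ((∃ a, Y a) ∨ (p = true ∧ m = true)) := by
  classical
  by_cases c : ∃ a, Y a
  · obtain ⟨a, m⟩ := c
    refine ⟨decide (Zp a), decide (Zm a), fun x m' => ?_, by simpa using z a, Or.inl ⟨a, m⟩⟩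
    rw [u x a m' m]
    simp
  · exact ⟨true, true, fun x m => (c ⟨x, m⟩).elim, Or.inl rfl, Or.inr ⟨rfl, rfl⟩⟩

/-- Checked by brute force in python (5355 states, 402 carriers; store h52_comb.py). Plan: the state is
determined by four options (the a with A a, the b with B b, the a with F a, the b with G b), a few
bits and ps; replace the state by this finite code (Bool valued `mem`), case split, and check the
table `mem = testBit` by `decide +kernel` in chunks (helper files allowed). -/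
theorem Pt.Ok.car {s : Pt} (h : s.Ok) : ∃ k, s.Car k := by
  by_cases k : ∃ a b, s.K a b
  · obtain ⟨a, b, k⟩ := k
    exact comb_K h k
  have nk : ∀ a b, ¬ s.K a b := fun a b m => k ⟨a, b, m⟩
  have uY : ∀ a a', s.Y a → s.Y a' → a = a' := fun a a' m m' => h.uF a a' (Or.inl m) (Or.inl m')
  have uW : ∀ a a', s.W a → s.W a' → a = a' := fun a a' m m' => h.uG a a' (Or.inl m) (Or.inl m')
  obtain ⟨oY, hY⟩ := comb_opt s.Y uY
  obtain ⟨oW, hW⟩ := comb_opt s.W uW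
  have yw : ∀ a b, s.Y a → ¬ s.G b := fun a b m m' =>
    nk a b (h.k1 a b (Or.inl m) (h.fg a b (Or.inl m) m'))
  have wy : ∀ a b, s.W b → ¬ s.F a := fun a b m m' =>
    nk a b (h.k1 a b (Or.inr m) (h.fg a b m' (Or.inl m)))
  have n9 : ∀ a b : Fin 3, 3 * (a : ℕ) + b ≠ 9 := fun a b => by omega
  by_cases c : s.core
  · obtain ⟨oA, hA⟩ := comb_opt s.A h.uA
    obtain ⟨oB, hB⟩ := comb_opt s.B h.uB
    obtain ⟨zp, zm, hz, z1, z2⟩ := comb_sg s.Y s.Zp s.Zm uY h.zt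
    obtain ⟨tp, tm, ht, t1, t2⟩ := comb_sg s.W s.Tp s.Tm uW h.tt
    have e : (bsN oA oB oY oW 9 9 9 zp zm tp tm).Eqv s := by
      constructor <;> simp only [bsN, Nat.beq_eq, n9, Bool.false_eq_true, iff_false]
      exacts [hA, hB, hY, hW, nk, fun a b m => nk a b (h.k3 a b c (Or.inl m)),
        fun a b m => nk a b (h.k1 a b (Or.inl (h.cF a c (Or.inr ⟨b, Or.inr m⟩))) m),
        fun a b m => nk a b (h.k3 a b c (Or.inr m)), fun a _ m _ => hz a m, fun _ b m _ => ht b m,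
        fun a b m => (nk a b m).elim]
    refine e.car (carC_ck oA oB oY oW ?_ ?_ ?_ ?_ zp zm z1 ?_ ?_ ?_ tp tm t1 ?_ ?_ ?_) <;>
      simp only [ne_eq, ← hA, ← hB, ← hY, ← hW]
    exacts [c, fun a b m m' => yw a b m (Or.inl m'), h.nA, h.nB, z2,
      fun a m m' e => h.z1 a m m' ((hz a m).2.2 e), fun a m m' e => h.z2 a m m' ((hz a m).1.2 e), t2,
      fun a m m' e => h.t1 a m m' ((ht a m).2.2 e), fun a m m' e => h.t2 a m m' ((ht a m).1.2 e)]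
  · obtain ⟨x0, h0⟩ := comb_opt2 s.X0 fun _ _ _ _ m m' => comb_u0 h (Or.inl m) (Or.inl m')
    obtain ⟨x1, h1⟩ := comb_opt2 s.X1 fun _ _ _ _ m m' => comb_u0 h (Or.inr m) (Or.inr m')
    obtain ⟨x2, h2⟩ := comb_opt2 s.X2 fun _ _ _ _ m m' => comb_u2 h (Or.inl m) (Or.inl m')
    have n3 : ∀ a : Fin 3, (a : ℕ) ≠ 3 := fun a => a.2.ne
    have e : (bsN 3 3 oY oW x0 x1 x2 true true true true).Eqv s := by
      constructor <;> simp only [bsN, Nat.beq_eq, n3, Bool.false_eq_true, iff_false]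
      exacts [fun a m => c (Or.inl ⟨a, m⟩), fun a m => c (Or.inr ⟨a, m⟩), hY, hW, nk, h0, h1, h2,
        fun _ b _ m => (c (Or.inr ⟨b, m⟩)).elim, fun a _ _ m => (c (Or.inl ⟨a, m⟩)).elim,
        fun a b m => (nk a b m).elim]
    refine e.car (carN_ck x1 x0 oY ?_ ?_ ?_ x2 oW ?_ ?_ ?_) <;>
      simp only [ne_eq, ← h0, ← h1, ← h2, ← hY, ← hW]
    · exact fun a b m a' b' m' => comb_u0 h (Or.inl m) (Or.inr m')
    · exact fun a b m a' m' => h.uF a a' (Or.inr ⟨b, Or.inl m⟩) (Or.inl m')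
    · exact fun a b m a' m' => yw a' b m' (Or.inr ⟨a, Or.inr m⟩)
    · refine fun a b m => ⟨fun a' b' m' => ?_, fun a' m' => yw a' b m' (Or.inr ⟨a, Or.inl m⟩),
        fun b' m' => h.uG b b' (Or.inr ⟨a, Or.inl m⟩) (Or.inl m'),
        fun a' b' m' => comb_u2 h (Or.inl m) (Or.inr m')⟩
      have x := h.fg a' b (Or.inr ⟨b', Or.inl m'⟩) (Or.inr ⟨a, Or.inl m⟩)
      obtain ⟨-, rfl⟩ := comb_u0 h (Or.inl m') (Or.inr x)
      obtain ⟨rfl, -⟩ := comb_u2 h (Or.inl m) (Or.inr x)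
      exact nk _ _ (h.k2 _ _ m' m)
    · exact fun b m => ⟨fun a' m' => wy a' b m (Or.inl m'), fun a' b' =>
        ⟨fun m' => wy a' b m (Or.inr ⟨b', Or.inl m'⟩), fun m' => wy a' b m (Or.inr ⟨b', Or.inr m'⟩)⟩⟩
    · exact h.cov.resolve_left c

end Pool.Agent.Lib.MP_b7d179_gt.Gm
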