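import Pool.Agent.Lib.MP_b7d179_gt.G.Pt
import Pool.Agent.Lib.MP_b7d179_gt.Stmt

/-! Bits of the masks and the two shifts. -/

namespace Pool.Agent.Lib.MP_b7d179_gt.Gm

open Set Metric Complex Stmt

/-- the dimension of a cell of type `τ` -/
def comb2_rk (τ : ℕ) : ℕ := if τ < 24 then τ % 2 else if τ < 30 then 1 else if τ < 43 then 2 else 3

/-- all bits of cells of dimension at least `r` -/
def comb2_hi (r : ℕ) : ℕ := L.tyM (fun τ => r ≤ comb2_rk τ) * ((2 ^ 450 - 1) / (2 ^ 50 - 1))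

theorem comb2_top : ∀ τ < 50, ∀ a b : Fin 3,
    cm τ a b &&& comb2_hi (comb2_rk τ) = 2 ^ ix τ a b := by decide +kernel

theorem comb2_in : ∀ r < 4, ∀ τ < 50, ∀ a b : Fin 3, r ≤ comb2_rk τ →
    (comb2_hi r).testBit (ix τ a b) = true := by decide +kernel

theorem comb2_lt (τ : ℕ) : comb2_rk τ < 4 := by
  unfold comb2_rk
  split_ifs <;> omega

theorem comb2_le {τ τ' : ℕ} {a b a' b' : Fin 3} (h : τ < 50) (h' : τ' < 50)
    (e : (cm τ a b).testBit (ix τ' a' b') = true) (k : comb2_rk τ ≤ comb2_rk τ') :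
    ix τ a b = ix τ' a' b' := by
  have := congrArg (fun m => Nat.testBit m (ix τ' a' b')) (comb2_top τ h a b)
  simp only [Nat.testBit_and, e, comb2_in _ (comb2_lt τ) τ' h' a' b' k, Bool.and_self] at this
  exact of_decide_eq_true ((Nat.testBit_two_pow ..).symm.trans this.symm)

theorem cm_self {τ : ℕ} {a b : Fin 3} (h : Us τ a b) : (cm τ a b).testBit (ix τ a b) = true := by
  have := congrArg (fun m => Nat.testBit m (ix τ a b)) (comb2_top τ h.1 a b)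
  simp only [Nat.testBit_and, Nat.testBit_two_pow_self, Bool.and_eq_true] at this
  exact this.1

theorem cm_anti {τ τ' : ℕ} {a b a' b' : Fin 3} (h : Us τ a b) (h' : Us τ' a' b')
    (e : (cm τ a b).testBit (ix τ' a' b') = true) (e' : (cm τ' a' b').testBit (ix τ a b) = true) :
    ix τ a b = ix τ' a' b' :=
  (le_total _ _).elim (comb2_le h.1 h'.1 e) fun k => (comb2_le h'.1 h.1 e' k).symm

theorem Pt.Car.uniq {s : Pt} {k k' : ℕ} (h : s.Car k) (h' : s.Car k') : k = k' := by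
  obtain ⟨⟨τ, a, b, u, rfl⟩, h⟩ := h
  obtain ⟨⟨τ', a', b', u', rfl⟩, h'⟩ := h'
  exact cm_anti u u' ((h' _ _ _ u).1 ((h _ _ _ u).2 (cm_self u)))
    ((h _ _ _ u').1 ((h' _ _ _ u').2 (cm_self u')))

theorem comb2_all : ∀ τ < 50, ∀ a b : Fin 3, L.used τ a b = true →
    L.allM.testBit (ix τ a b) = true ∧ L.shU (cm τ a b) = cm τ a (sU τ b) ∧
      L.shV (cm τ a b) = cm τ (sV τ a) b := by decide +kernel

theorem allM_bit {τ : ℕ} {a b : Fin 3} (h : Us τ a b) : L.allM.testBit (ix τ a b) = true :=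
  (comb2_all τ h.1 a b h.2).1

theorem comb2_us : ∀ τ < 50, ∀ a b : Fin 3,
    L.used τ a (sU τ b) = L.used τ a b ∧ L.used τ (sV τ a) b = L.used τ a b := by decide +kernel

theorem Us_sU {τ : ℕ} {a b : Fin 3} : Us τ a (sU τ b) ↔ Us τ a b :=
  and_congr_right fun h => by rw [(comb2_us τ h a b).1]

theorem Us_sV {τ : ℕ} {a b : Fin 3} : Us τ (sV τ a) b ↔ Us τ a b :=
  and_congr_right fun h => by rw [(comb2_us τ h a b).2]

theorem sU_surj (τ : ℕ) (b : Fin 3) : (∃ b', sU τ b' = b) ∧ ∃ a', sV τ a' = b := by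
  unfold sU sV
  constructor <;> split_ifs
  exacts [⟨b, rfl⟩, ⟨b - 1, sub_add_cancel _ _⟩, ⟨b, rfl⟩, ⟨b - 1, sub_add_cancel _ _⟩]

theorem comb2_mv (m : ℕ) {ty τ : ℕ} (ht : ty < 2 ^ 50) (h : τ < 50) (a b a' b' : ℕ) (c d : Fin 3) :
    (L.mvS m ty a b a' b').testBit (ix τ c d) =
      (decide (a' % 3 = c ∧ b' % 3 = d) && (m.testBit (50 * (3 * a + b) + τ) && ty.testBit τ)) := by
  have hc := c.2
  have hd := d.2
  change Nat.testBit ((m >>> _ &&& ty) <<< _) _ = _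
  rw [Nat.testBit_shiftLeft, Nat.testBit_and, Nat.testBit_shiftRight, ix]
  by_cases e : a' % 3 = c ∧ b' % 3 = d
  · rw [e.1, e.2, Nat.add_sub_cancel_left]
    simp
  · rw [decide_eq_false e, Bool.false_and]
    by_cases k : 50 * (3 * (a' % 3) + b' % 3) ≤ 50 * (3 * c + d) + τ
    · rw [Nat.testBit_eq_false_of_lt (n := ty) (ht.trans_le (Nat.pow_le_pow_right two_pos (by omega)))]
      simp
    · rw [decide_eq_false k, Bool.false_and]

theorem comb2_ty : L.tyA < 2 ^ 50 ∧ C.df L.tyAll L.tyA < 2 ^ 50 ∧ L.tyB < 2 ^ 50 ∧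
    C.df L.tyAll L.tyB < 2 ^ 50 ∧ ∀ τ < 50,
      L.tyA.testBit τ = decide (τ = 39 ∨ τ = 40 ∨ τ = 43 ∨ τ = 45) ∧
      (C.df L.tyAll L.tyA).testBit τ = !decide (τ = 39 ∨ τ = 40 ∨ τ = 43 ∨ τ = 45) ∧
      L.tyB.testBit τ = decide (τ = 41 ∨ τ = 42 ∨ τ = 44 ∨ τ = 46) ∧
      (C.df L.tyAll L.tyB).testBit τ = !decide (τ = 41 ∨ τ = 42 ∨ τ = 44 ∨ τ = 46) := by
  decide +kernel

theorem comb2_o3 (f : ℕ → ℕ) (k : ℕ) :
    (L.o3 f).testBit k = ((f 0).testBit k || (f 1).testBit k || (f 2).testBit k) := by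
  simp only [L.o3, C.orL, List.foldr, C.bit_or, Nat.zero_testBit, Bool.or_false, Bool.or_assoc]

theorem shU_bit (m : ℕ) {τ : ℕ} (h : τ < 50) (a b : Fin 3) :
    (L.shU m).testBit (ix τ a (sU τ b)) = m.testBit (ix τ a b) := by
  obtain ⟨t1, t2, -, -, t⟩ := comb2_ty
  obtain ⟨s1, s2, -⟩ := t τ h
  simp only [L.shU, L.o9, comb2_o3, C.bit_or, comb2_mv m t1 h, comb2_mv m t2 h, s1, s2, sU]
  split_ifs with k <;> fin_cases a <;> fin_cases b <;> simp [k, ix]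

theorem shV_bit (m : ℕ) {τ : ℕ} (h : τ < 50) (a b : Fin 3) :
    (L.shV m).testBit (ix τ (sV τ a) b) = m.testBit (ix τ a b) := by
  obtain ⟨-, -, t1, t2, t⟩ := comb2_ty
  obtain ⟨-, -, s1, s2⟩ := t τ h
  simp only [L.shV, L.o9, comb2_o3, C.bit_or, comb2_mv m t1 h, comb2_mv m t2 h, s1, s2, sV]
  split_ifs with k <;> fin_cases a <;> fin_cases b <;> simp [k, ix]

theorem cm_shU {τ : ℕ} {a b : Fin 3} (h : Us τ a b) : L.shU (cm τ a b) = cm τ a (sU τ b) :=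
  (comb2_all τ h.1 a b h.2).2.1

theorem cm_shV {τ : ℕ} {a b : Fin 3} (h : Us τ a b) : L.shV (cm τ a b) = cm τ (sV τ a) b :=
  (comb2_all τ h.1 a b h.2).2.2

end Pool.Agent.Lib.MP_b7d179_gt.Gm
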