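import Pool.Agent.Lib.MP_b7d179_gt.G.Pt

/-! Boolean states and the table check for carriers. -/

namespace Pool.Agent.Lib.MP_b7d179_gt.Gm

/-- a state with Boolean entries; the signs are those at the relevant slots -/
structure Bs where
  A : ℕ → Bool
  B : ℕ → Bool
  Y : ℕ → Bool
  W : ℕ → Bool
  Zp : Bool
  Zm : Bool
  Tp : Bool
  Tm : Bool
  K : ℕ → ℕ → Bool
  X0 : ℕ → ℕ → Bool
  X1 : ℕ → ℕ → Bool
  X2 : ℕ → ℕ → Bool
  P : ℕ → Bool

/-- membership in the cells of types `24` to `49` -/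
def Bs.hi (s : Bs) (a b : ℕ) : List Bool :=
  [s.Y a && s.A a && s.B b, s.Y a && s.A ((a + 2) % 3) && s.B b, s.W b && s.B b && s.A a,
    s.W b && s.B ((b + 2) % 3) && s.A a, s.Y a && s.B b && s.Zp && s.Zm, s.W b && s.A a && s.Tp && s.Tm,
    s.A a && s.B b, s.Y a && s.B b && s.Zp, s.Y a && s.B b && s.Zm, s.W b && s.A a && s.Tp,
    s.W b && s.A a && s.Tm, s.Y a && s.X0 a b, s.X0 a b && s.X1 a b, s.X1 a b && s.X2 a b,
    s.X2 a b && s.W b, s.Y a && s.A a, s.Y a && s.A ((a + 2) % 3), s.W b && s.B b, s.W b && s.B ((b + 2) % 3),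
    s.A a, s.B b, s.Y a, s.W b, s.X0 a b, s.X1 a b, s.X2 a b]

/-- the Boolean state describes the state -/
structure Bs.Eqv (c : Bs) (s : Pt) : Prop where
  A : ∀ a : Fin 3, s.A a ↔ c.A a = true
  B : ∀ a : Fin 3, s.B a ↔ c.B a = true
  Y : ∀ a : Fin 3, s.Y a ↔ c.Y a = true
  W : ∀ a : Fin 3, s.W a ↔ c.W a = true
  K : ∀ a b : Fin 3, s.K a b ↔ c.K a b = true
  X0 : ∀ a b : Fin 3, s.X0 a b ↔ c.X0 a b = true
  X1 : ∀ a b : Fin 3, s.X1 a b ↔ c.X1 a b = true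
  X2 : ∀ a b : Fin 3, s.X2 a b ↔ c.X2 a b = true
  Z : ∀ a b, s.Y a → s.B b → (s.Zp a ↔ c.Zp = true) ∧ (s.Zm a ↔ c.Zm = true)
  T : ∀ a b, s.W b → s.A a → (s.Tp b ↔ c.Tp = true) ∧ (s.Tm b ↔ c.Tm = true)
  ps : ∀ a b, s.K a b → ∀ τ < 24,
    ((τ = s.ps ∨ (τ % 2 = 1 ∧ (s.ps + 1 = τ ∨ (τ + 1) % 24 = s.ps))) ↔ c.P τ = true)

lemma Bs.Eqv.hi {c : Bs} {s : Pt} (h : c.Eqv s) {i : ℕ} (t : i < 26) (a b : Fin 3) :
    s.mem (24 + i) a b ↔ (c.hi a b).getD i false = true := by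
  have z := h.Z a b
  have w := h.T a b
  have e1 : c.A ((a + 2) % 3) = true ↔ s.A (a + 2) := (h.A (a + 2)).symm
  have e2 : c.B ((b + 2) % 3) = true ↔ s.B (b + 2) := (h.B (b + 2)).symm
  interval_cases i <;>
    simp only [Pt.mem, Bs.hi, List.getD_cons_succ, List.getD_cons_zero, Bool.and_eq_true, ← h.A,
      ← h.B, ← h.Y, ← h.W, ← h.X0, ← h.X1, ← h.X2, e1, e2, and_assoc]
  · exact and_congr_right fun y => and_congr_right fun x => and_congr (z y x).1 (z y x).2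
  · exact and_congr_right fun y => and_congr_right fun x => and_congr (w y x).1 (w y x).2
  · exact and_congr_right fun y => and_congr_right fun x => (z y x).1
  · exact and_congr_right fun y => and_congr_right fun x => (z y x).2
  · exact and_congr_right fun y => and_congr_right fun x => (w y x).1
  · exact and_congr_right fun y => and_congr_right fun x => (w y x).2

lemma Bs.Eqv.lo {c : Bs} {s : Pt} (h : c.Eqv s) {τ : ℕ} (t : τ < 24) (a b : Fin 3) :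
    s.mem τ a b ↔ (c.K a b && c.P τ) = true := by
  have e : s.mem τ a b ↔
      s.K a b ∧ (τ = s.ps ∨ (τ % 2 = 1 ∧ (s.ps + 1 = τ ∨ (τ + 1) % 24 = s.ps))) := by
    interval_cases τ <;> exact Iff.rfl
  rw [e, Bool.and_eq_true, ← h.K]
  exact and_congr_right fun k => h.ps a b k τ t

/-- the state of the open cell number `k` -/
def bsOf (k : ℕ) : Bs where
  A a := (cm 43 a 0).testBit k
  B b := (cm 44 0 b).testBit k
  Y a := (cm 45 a 0).testBit k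
  W b := (cm 46 0 b).testBit k
  Zp := (L.o9 (cm 31)).testBit k
  Zm := (L.o9 (cm 32)).testBit k
  Tp := (L.o9 (cm 33)).testBit k
  Tm := (L.o9 (cm 34)).testBit k
  K a b := (L.kap a b).testBit k
  X0 a b := (cm 47 a b).testBit k
  X1 a b := (cm 48 a b).testBit k
  X2 a b := (cm 49 a b).testBit k
  P τ := (L.o9 (cm τ)).testBit k

/-- the closed cells as intersections -/
def hiM (a b : ℕ) : List ℕ :=
  [cm 45 a 0 &&& cm 43 a 0 &&& cm 44 0 b, cm 45 a 0 &&& cm 43 ((a + 2) % 3) 0 &&& cm 44 0 b,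
    cm 46 0 b &&& cm 44 0 b &&& cm 43 a 0, cm 46 0 b &&& cm 44 0 ((b + 2) % 3) &&& cm 43 a 0,
    cm 45 a 0 &&& cm 44 0 b &&& L.o9 (cm 31) &&& L.o9 (cm 32),
    cm 46 0 b &&& cm 43 a 0 &&& L.o9 (cm 33) &&& L.o9 (cm 34), cm 43 a 0 &&& cm 44 0 b,
    cm 45 a 0 &&& cm 44 0 b &&& L.o9 (cm 31), cm 45 a 0 &&& cm 44 0 b &&& L.o9 (cm 32),
    cm 46 0 b &&& cm 43 a 0 &&& L.o9 (cm 33), cm 46 0 b &&& cm 43 a 0 &&& L.o9 (cm 34),
    cm 45 a 0 &&& cm 47 a b, cm 47 a b &&& cm 48 a b, cm 48 a b &&& cm 49 a b,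
    cm 49 a b &&& cm 46 0 b, cm 45 a 0 &&& cm 43 a 0, cm 45 a 0 &&& cm 43 ((a + 2) % 3) 0,
    cm 46 0 b &&& cm 44 0 b, cm 46 0 b &&& cm 44 0 ((b + 2) % 3), cm 43 a 0, cm 44 0 b, cm 45 a 0,
    cm 46 0 b, cm 47 a b, cm 48 a b, cm 49 a b]

lemma hiM_map (k a b : ℕ) : (bsOf k).hi a b = (hiM a b).map fun m => m.testBit k := by
  simp only [Bs.hi, bsOf, hiM, List.map_cons, List.map_nil, Nat.testBit_and]

lemma hiM_tab : ∀ a b : Fin 3, ∀ i < 26, L.used (24 + i) a b = true →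
    cm (24 + i) a b = (hiM a b).getD i 0 := by decide +kernel

lemma loM_tab : ∀ a b : Fin 3, ∀ t < 24, cm t a b = L.kap a b &&& L.o9 (cm t) := by decide +kernel

lemma bsOf_car {s : Pt} {τ : ℕ} {a b : Fin 3} (u : Us τ a b) (h : (bsOf (ix τ a b)).Eqv s) :
    s.Car (ix τ a b) := by
  refine ⟨⟨τ, a, b, u, rfl⟩, fun t a' b' u' => ?_⟩
  by_cases c : t < 24
  · rw [h.lo c, loM_tab a' b' t c, Nat.testBit_and]
    exact Iff.rfl
  · obtain ⟨i, rfl⟩ := Nat.exists_eq_add_of_le (not_lt.1 c)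
    have l : i < 26 := by have := u'.1; omega
    rw [h.hi l, hiM_tab a' b' i l u'.2, hiM_map]
    have := List.getD_map (hiM a' b') 0 (n := i) fun m => m.testBit (ix τ a b)
    rw [Nat.zero_testBit] at this
    rw [this]

def f3 : List ℕ := [0, 1, 2]

lemma f3_mem (a : Fin 3) : (a : ℕ) ∈ f3 := by revert a; decide

/-- two Boolean states agree -/
def Bs.same (c d : Bs) (k : Bool) : Bool :=
  (f3.all fun a => (c.A a == d.A a && c.B a == d.B a && c.Y a == d.Y a && c.W a == d.W a) &&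
    f3.all fun b => (c.K a b == d.K a b && c.X0 a b == d.X0 a b && c.X1 a b == d.X1 a b &&
      c.X2 a b == d.X2 a b) && (!(c.Y a && c.B b) || (c.Zp == d.Zp && c.Zm == d.Zm)) &&
      (!(c.W b && c.A a) || (c.Tp == d.Tp && c.Tm == d.Tm)) && (k || !c.K a b)) &&
  (!k || (List.range 24).all fun τ => c.P τ == d.P τ)

lemma Bs.Eqv.same {c d : Bs} {s : Pt} {k : Bool} (h : c.Eqv s) (e : c.same d k = true) :
    d.Eqv s := by
  simp only [Bs.same, Bool.and_eq_true, List.all_eq_true, beq_iff_eq, Bool.or_eq_true,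
    Bool.not_eq_true', List.mem_range] at e
  have e1 := fun a : Fin 3 => (e.1 a (f3_mem a)).1
  have e2 := fun a b : Fin 3 => (e.1 a (f3_mem a)).2 b (f3_mem b)
  refine ⟨fun a => (e1 a).1.1.1 ▸ h.A a, fun a => (e1 a).1.1.2 ▸ h.B a, fun a => (e1 a).1.2 ▸ h.Y a,
    fun a => (e1 a).2 ▸ h.W a, fun a b => (e2 a b).1.1.1.1.1.1 ▸ h.K a b,
    fun a b => (e2 a b).1.1.1.1.1.2 ▸ h.X0 a b, fun a b => (e2 a b).1.1.1.1.2 ▸ h.X1 a b,
    fun a b => (e2 a b).1.1.1.2 ▸ h.X2 a b, fun a b y x => ?_, fun a b y x => ?_,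
    fun a b y τ t => ?_⟩
  · have := (e2 a b).1.1.2.resolve_left (by simp [(h.Y a).1 y, (h.B b).1 x])
    exact ⟨this.1 ▸ (h.Z a b y x).1, this.2 ▸ (h.Z a b y x).2⟩
  · have := (e2 a b).1.2.resolve_left (by simp [(h.W b).1 y, (h.A a).1 x])
    exact ⟨this.1 ▸ (h.T a b y x).1, this.2 ▸ (h.T a b y x).2⟩
  · have k1 : k = true := (e2 a b).2.resolve_right (by simp [(h.K a b).1 y])
    exact (e.2.resolve_left (by simp [k1]) τ t) ▸ h.ps a b y τ t

/-- the cell `x` carries the state -/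
def Bs.ck (c : Bs) (x : ℕ × ℕ × ℕ) (k : Bool) : Bool :=
  (Nat.blt x.1 50 && L.used x.1 x.2.1 x.2.2 && Nat.blt x.2.1 3 && Nat.blt x.2.2 3) &&
    c.same (bsOf (50 * (3 * x.2.1 + x.2.2) + x.1)) k

lemma Bs.Eqv.car {c : Bs} {s : Pt} (h : c.Eqv s) {x : ℕ × ℕ × ℕ} {k : Bool}
    (e : c.ck x k = true) : ∃ k, s.Car k := by
  simp only [Bs.ck, Bool.and_eq_true, Nat.blt_eq] at e
  exact ⟨_, bsOf_car (τ := x.1) (a := ⟨x.2.1, e.1.1.2⟩) (b := ⟨x.2.2, e.1.2⟩) e.1.1.1 (h.same e.2)⟩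

end Pool.Agent.Lib.MP_b7d179_gt.Gm
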