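import Pool.Agent.Lib.MP_b7d179_gt.G.KitA

/-! Kit B: the region between two graphs over a disc is a ball, over an arc a disc; lenses. -/

namespace Pool.Agent.Lib.MP_b7d179_gt.Gm

open Set Metric

variable {Y Z : Type*} [MetricSpace Y] [MetricSpace Z]

/-- the region between the graphs of `lo` and `hi` over `B` -/
def btw (B : Set Y) (lo hi : Y → ℝ) : Set (Y × ℝ) := {x | x.1 ∈ B ∧ lo x.1 ≤ x.2 ∧ x.2 ≤ hi x.1}

theorem kitB_ends : ({0, 1} : Set ℝ) ⊆ Icc 0 1 :=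
  insert_subset (left_mem_Icc.2 zero_le_one) (singleton_subset_iff.2 (right_mem_Icc.2 zero_le_one))

/-- a convex body is a ball -/
theorem kitB_body {E E' : Type*} [NormedAddCommGroup E] [NormedSpace ℝ E] [Nontrivial E]
    [NormedAddCommGroup E'] [NormedSpace ℝ E'] (L : E ≃L[ℝ] E') {s : Set E'} (hc : Convex ℝ s)
    (hi : (interior s).Nonempty) (hb : Bornology.IsBounded s) (hs : IsClosed s) :
    ∃ f : E → E', Emb f (closedBall 0 1) ∧ f '' closedBall 0 1 = s ∧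
      f '' sphere 0 1 = frontier s := by
  have e0 : interior (L.symm '' s) = L.symm '' interior s :=
    (L.symm.toHomeomorph.image_interior s).symm
  have e1 : closure (L.symm '' s) = L.symm '' closure s :=
    (L.symm.toHomeomorph.image_closure s).symm
  have e2 : frontier (L.symm '' s) = L.symm '' frontier s :=
    (L.symm.toHomeomorph.image_frontier s).symm
  obtain ⟨g, -, g1, g2⟩ := exists_homeomorph_image_interior_closure_frontier_eq_unitBall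
    (hc.is_linear_image L.symm.toLinearEquiv.toLinearMap.isLinear : Convex ℝ (L.symm '' s))
    (e0 ▸ hi.image _) (L.symm.toContinuousLinearMap.lipschitz.isBounded_image hb)
  have key : ∀ t : Set E', (L ∘ g.symm) '' (g '' (L.symm '' t)) = t := fun t => by
    simp [image_image]
  refine ⟨L ∘ g.symm, ⟨by fun_prop, (L.injective.comp g.symm.injective).injOn⟩, ?_, ?_⟩
  · rw [← g1, e1, key, hs.closure_eq]
  · rw [← g2, e2, key]

theorem kitB_cyl {E E' : Type*} [NormedAddCommGroup E] [NormedSpace ℝ E] [Nontrivial E]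
    [NormedAddCommGroup E'] [NormedSpace ℝ E'] (L : E ≃L[ℝ] E' × ℝ) {K : Set E'} (hc : Convex ℝ K)
    (hi : (interior K).Nonempty) (hb : Bornology.IsBounded K) (hs : IsClosed K) :
    ∃ f : E → E' × ℝ, Emb f (closedBall 0 1) ∧ f '' closedBall 0 1 = K ×ˢ Icc 0 1 ∧
      f '' sphere 0 1 = {x | x ∈ K ×ˢ Icc 0 1 ∧ (x.1 ∈ frontier K ∨ x.2 = 0 ∨ x.2 = 1)} := by
  obtain ⟨f, e, i, j⟩ := kitB_body L (hc.prod (convex_Icc (0 : ℝ) 1))
    (by rw [interior_prod_eq, interior_Icc]; exact hi.prod (nonempty_Ioo.2 zero_lt_one))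
    (hb.prod (isBounded_Icc 0 1)) (hs.prod isClosed_Icc)
  refine ⟨f, e, i, ?_⟩
  rw [j, frontier_prod_eq, hs.closure_eq, closure_Icc, frontier_Icc zero_le_one]
  ext x
  constructor
  · rintro (⟨h1, h2⟩ | ⟨h1, h2⟩)
    · exact ⟨⟨h1, (kitB_ends h2)⟩, Or.inr h2⟩
    · exact ⟨⟨hs.frontier_subset h1, h2⟩, Or.inl h1⟩
  · rintro ⟨h1, h2 | h2⟩
    · exact Or.inr ⟨h2, h1.2⟩
    · exact Or.inl ⟨h1.1, h2⟩

theorem kitB_sand {X : Type*} [TopologicalSpace X] {K k : Set X} {φ : X → Y} (e : Emb φ K)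
    (hk : k ⊆ K) {lo hi : Y → ℝ} (cl : ContinuousOn lo (φ '' K)) (ch : ContinuousOn hi (φ '' K))
    (lt : ∀ p ∈ φ '' K, lo p < hi p) : ∃ T : X × ℝ → Y × ℝ, Emb T (K ×ˢ Icc 0 1) ∧
      T '' (K ×ˢ Icc 0 1) = btw (φ '' K) lo hi ∧
      T '' {x | x ∈ K ×ˢ Icc 0 1 ∧ (x.1 ∈ k ∨ x.2 = 0 ∨ x.2 = 1)} =
        {x | x ∈ btw (φ '' K) lo hi ∧ (x.1 ∈ φ '' k ∨ x.2 = lo x.1 ∨ x.2 = hi x.1)} := by
  let T : X × ℝ → Y × ℝ := fun x => (φ x.1, lo (φ x.1) + x.2 * (hi (φ x.1) - lo (φ x.1)))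
  have c0 : ContinuousOn (fun x : X × ℝ => φ x.1) (K ×ˢ Icc 0 1) :=
    e.1.comp continuousOn_fst fun x hx => hx.1
  have m0 : MapsTo (fun x : X × ℝ => φ x.1) (K ×ˢ Icc 0 1) (φ '' K) := fun x hx =>
    mem_image_of_mem _ hx.1
  have pos : ∀ z ∈ K, 0 < hi (φ z) - lo (φ z) := fun z hz =>
    sub_pos.2 (lt _ (mem_image_of_mem _ hz))
  have mem : ∀ x ∈ K ×ˢ Icc (0 : ℝ) 1, T x ∈ btw (φ '' K) lo hi := fun x hx => by
    have h := pos _ hx.1
    refine ⟨m0 hx, ?_, ?_⟩ <;> simp only [T] <;> nlinarith [hx.2.1, hx.2.2]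
  have sur : ∀ y ∈ btw (φ '' K) lo hi, ∃ x ∈ K ×ˢ Icc (0 : ℝ) 1, T x = y := by
    rintro ⟨_, t⟩ ⟨⟨z, hz, rfl⟩, h1, h2⟩
    have h := pos z hz
    refine ⟨(z, (t - lo (φ z)) / (hi (φ z) - lo (φ z))), ⟨hz, div_nonneg (sub_nonneg.2 h1) h.le,
      (div_le_one h).2 (sub_le_sub_right h2 _)⟩, Prod.ext rfl ?_⟩
    simp only [T]
    rw [div_mul_cancel₀ _ h.ne', add_sub_cancel]
  refine ⟨T, ⟨c0.prodMk ((cl.comp c0 m0).add (continuousOn_snd.mul
    ((ch.comp c0 m0).sub (cl.comp c0 m0)))), fun x hx y hy h => ?_⟩,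
    subset_antisymm (image_subset_iff.2 mem) sur, subset_antisymm ?_ ?_⟩
  · have h1 : x.1 = y.1 := e.2 hx.1 hy.1 (congrArg Prod.fst h)
    have h2 := congrArg Prod.snd h
    simp only [T, ← h1, add_right_inj] at h2
    exact Prod.ext h1 (mul_right_cancel₀ (pos _ hx.1).ne' h2)
  · rintro _ ⟨x, ⟨hx, h⟩, rfl⟩
    refine ⟨mem x hx, h.imp (mem_image_of_mem _) (Or.imp (fun h => ?_) fun h => ?_)⟩ <;>
      simp [T, h]
  · rintro y ⟨hy, h⟩
    obtain ⟨x, hx, rfl⟩ := sur y hy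
    have p := (pos _ hx.1).ne'
    refine ⟨x, ⟨hx, h.imp (e.mem_iff hk hx.1).1 (Or.imp (fun h => ?_) fun h => ?_)⟩, rfl⟩
    · exact mul_right_cancel₀ p (by simp only [T] at h; linarith)
    · exact mul_right_cancel₀ p (by simp only [T] at h; linarith)

theorem ball_sand {B c : Set Y} (hB : Disc B c) {lo hi : Y → ℝ} (cl : ContinuousOn lo B)
    (ch : ContinuousOn hi B) (lt : ∀ p ∈ B, lo p < hi p) {F : Y × ℝ → Z}
    (hF : Emb F (btw B lo hi)) :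
    Ball (F '' btw B lo hi)
      (F '' {x | x ∈ btw B lo hi ∧ (x.1 ∈ c ∨ x.2 = lo x.1 ∨ x.2 = hi x.1)}) := by
  obtain ⟨φ, e, rfl, rfl⟩ := hB
  obtain ⟨T, eT, i, j⟩ := kitB_sand e sphere_subset_closedBall cl ch lt
  obtain ⟨f, ef, i', j'⟩ := kitB_cyl (ContinuousLinearEquiv.refl ℝ (ℂ × ℝ)) (convex_closedBall 0 1)
    ⟨0, mem_interior_iff_mem_nhds.2 (closedBall_mem_nhds _ one_pos)⟩ isBounded_closedBall
    isClosed_closedBall
  rw [frontier_closedBall _ one_ne_zero] at j'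
  exact ⟨F ∘ T ∘ f, hF.comp (eT.comp ef i'.le) (by rw [image_comp, i', i]),
    by rw [image_comp, image_comp, i', i], by rw [image_comp, image_comp, j', j]⟩

theorem disc_sand {b : Set Y} {p q : Y} (hb : Arc b p q) {lo hi : Y → ℝ} (cl : ContinuousOn lo b)
    (ch : ContinuousOn hi b) (lt : ∀ x ∈ b, lo x < hi x) {F : Y × ℝ → Z}
    (hF : Emb F (btw b lo hi)) :
    Disc (F '' btw b lo hi)
      (F '' {x | x ∈ btw b lo hi ∧ (x.1 = p ∨ x.1 = q ∨ x.2 = lo x.1 ∨ x.2 = hi x.1)}) := by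
  obtain ⟨φ, e, rfl, rfl, rfl⟩ := hb
  obtain ⟨T, eT, i, j⟩ := kitB_sand e (k := {0, 1}) kitB_ends cl ch lt
  obtain ⟨f, ef, i', j'⟩ := kitB_cyl Complex.equivRealProdCLM (convex_Icc 0 1)
    (by rw [interior_Icc]; exact nonempty_Ioo.2 zero_lt_one) (isBounded_Icc 0 1) isClosed_Icc
  rw [frontier_Icc zero_le_one] at j'
  refine ⟨F ∘ T ∘ f, hF.comp (eT.comp ef i'.le) (by rw [image_comp, i', i]),
    by rw [image_comp, image_comp, i', i], ?_⟩
  rw [image_comp, image_comp, j', j, image_pair]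
  simp only [mem_insert_iff, mem_singleton_iff, or_assoc]

theorem ball_lens {B c : Set Y} (hB : Disc B c) {F : Y × ℝ → Z}
    (cF : ContinuousOn F (B ×ˢ Icc 0 1))
    (h : ∀ x ∈ B ×ˢ Icc (0 : ℝ) 1, ∀ y ∈ B ×ˢ Icc (0 : ℝ) 1,
      F x = F y ↔ x.1 = y.1 ∧ (x.2 = y.2 ∨ x.1 ∈ c)) :
    Ball (F '' (B ×ˢ Icc 0 1)) (F '' (B ×ˢ {0, 1})) := by
  obtain ⟨φ, e, rfl, rfl⟩ := hB
  let q : ℂ × ℝ → WithLp 1 (ℂ × ℝ) := fun x => WithLp.toLp 1 (x.1, (2 * x.2 - 1) * (1 - ‖x.1‖))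
  have nq : ∀ x ∈ closedBall (0 : ℂ) 1 ×ˢ Icc (0 : ℝ) 1,
      ‖q x‖ = ‖x.1‖ + |2 * x.2 - 1| * (1 - ‖x.1‖) := fun x hx => by
    rw [WithLp.prod_norm_eq_of_L1]
    change ‖x.1‖ + ‖(2 * x.2 - 1) * (1 - ‖x.1‖)‖ = _
    rw [Real.norm_eq_abs, abs_mul, abs_of_nonneg (sub_nonneg.2 (mem_closedBall_zero_iff.1 hx.1))]
  have sur : ∀ y : WithLp 1 (ℂ × ℝ), ‖y‖ ≤ 1 → ∃ x ∈ closedBall (0 : ℂ) 1 ×ˢ Icc (0 : ℝ) 1,
      q x = y ∧ (‖y‖ = 1 → x.2 ∈ ({0, 1} : Set ℝ)) := by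
    rintro ⟨z, t⟩ hy
    have n : ‖(WithLp.toLp 1 (z, t))‖ = ‖z‖ + |t| := WithLp.prod_norm_eq_of_L1 _
    rw [n] at hy ⊢
    have h0 : ‖z‖ ≤ 1 := by linarith [abs_nonneg t]
    rcases h0.eq_or_lt with k | k
    · have t0 : t = 0 := abs_nonpos_iff.1 (by linarith)
      exact ⟨(z, 0), ⟨mem_closedBall_zero_iff.2 h0, left_mem_Icc.2 zero_le_one⟩,
        by simp [q, k, t0], fun _ => Or.inl rfl⟩
    · have p : 0 < 1 - ‖z‖ := sub_pos.2 k
      have b := abs_le.1 (show |t / (1 - ‖z‖)| ≤ 1 by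
        rw [abs_div, abs_of_pos p, div_le_one p]; linarith)
      refine ⟨(z, (t / (1 - ‖z‖) + 1) / 2), ⟨mem_closedBall_zero_iff.2 h0, by linarith [b.1],
        by linarith [b.2]⟩, ?_, fun s => ?_⟩
      · simp only [q]
        congr 2
        field_simp
        ring
      · have s' : |t / (1 - ‖z‖)| = 1 := by
          rw [abs_div, abs_of_pos p, div_eq_one_iff_eq p.ne']; linarith
        rcases (abs_eq zero_le_one).1 s' with s' | s'
        · exact Or.inr (by simp [s'])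
        · exact Or.inl (by simp [s'])
  have i1 : q '' (closedBall 0 1 ×ˢ Icc 0 1) = closedBall 0 1 := by
    refine subset_antisymm ?_ fun y hy => ?_
    · rintro _ ⟨x, hx, rfl⟩
      have b : |2 * x.2 - 1| ≤ 1 := abs_le.2 ⟨by linarith [hx.2.1], by linarith [hx.2.2]⟩
      rw [mem_closedBall_zero_iff, nq x hx]
      nlinarith [mem_closedBall_zero_iff.1 hx.1]
    · obtain ⟨x, hx, k, -⟩ := sur y (mem_closedBall_zero_iff.1 hy)
      exact ⟨x, hx, k⟩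
  have i2 : q '' (closedBall 0 1 ×ˢ {0, 1}) = sphere 0 1 := by
    refine subset_antisymm ?_ fun y hy => ?_
    · rintro _ ⟨x, hx, rfl⟩
      rw [mem_sphere_zero_iff_norm, nq x ⟨hx.1, kitB_ends hx.2⟩]
      rcases hx.2 with k | k <;> rw [k] <;> norm_num
    · obtain ⟨x, hx, k, k'⟩ := sur y (mem_sphere_zero_iff_norm.1 hy).le
      exact ⟨x, ⟨hx.1, k' (mem_sphere_zero_iff_norm.1 hy)⟩, k⟩
  have m : MapsTo (Prod.map φ id) (closedBall (0 : ℂ) 1 ×ˢ Icc (0 : ℝ) 1)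
      ((φ '' closedBall 0 1) ×ˢ Icc 0 1) := fun x hx => ⟨mem_image_of_mem _ hx.1, hx.2⟩
  obtain ⟨g, eg, hg⟩ := emb_desc ((isCompact_closedBall (0 : ℂ) 1).prod (isCompact_Icc (a := (0 : ℝ))
    (b := 1))) (q := q) (F := F ∘ Prod.map φ id)
    ((WithLp.prod_continuous_toLp 1 ℂ ℝ).comp (by fun_prop)).continuousOn
    (cF.comp (e.1.prodMap continuousOn_id) m) fun x hx y hy => by
      refine Iff.trans ?_ (h _ (m hx) _ (m hy)).symm
      simp only [q, WithLp.toLp.injEq, Prod.mk.injEq, Prod.map_fst, Prod.map_snd, id,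
        e.2.eq_iff hx.1 hy.1, e.mem_iff sphere_subset_closedBall hx.1, mem_sphere_zero_iff_norm]
      refine and_congr_right fun k => ?_
      rw [← k, mul_eq_mul_right_iff, sub_eq_zero, eq_comm (a := (1 : ℝ))]
      exact or_congr_left ⟨fun s => by linarith, fun s => by rw [s]⟩
  obtain ⟨f, ef, j1, j2⟩ := kitB_body (WithLp.prodContinuousLinearEquiv 1 ℝ ℂ ℝ).symm
    (convex_closedBall 0 1) ⟨0, mem_interior_iff_mem_nhds.2 (closedBall_mem_nhds _ one_pos)⟩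
    isBounded_closedBall isClosed_closedBall
  rw [frontier_closedBall _ one_ne_zero] at j2
  have im : ∀ s ⊆ Icc (0 : ℝ) 1, g '' (q '' (closedBall 0 1 ×ˢ s)) =
      F '' ((φ '' closedBall 0 1) ×ˢ s) := fun s hs => by
    rw [image_image, image_congr fun x hx => hg x ⟨hx.1, hs hx.2⟩, image_comp, prodMap_image_prod,
      image_id]
  exact ⟨g ∘ f, eg.comp ef (j1.trans i1.symm).le, by rw [image_comp, j1, ← i1, im _ subset_rfl],
    by rw [image_comp, j2, ← i2, im _ kitB_ends]⟩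

theorem arc_Icc {γ : ℝ → Z} {s t : ℝ} (hst : s < t) (h : Emb γ (Icc s t)) :
    Arc (γ '' Icc s t) (γ s) (γ t) := by
  have k : Arc (Icc s t) s t := by
    refine ⟨fun v => (t - s) * v + s, ⟨by fun_prop, fun v _ w _ e => ?_⟩, ?_, by simp, by simp⟩
    · exact mul_left_cancel₀ (sub_pos.2 hst).ne' (add_right_cancel e)
    · rw [image_affine_Icc' (sub_pos.2 hst)]
      simp
  exact k.image h subset_rfl

end Pool.Agent.Lib.MP_b7d179_gt.Gm
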