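import Pool.Agent.Lib.MP_b7d179_gt.L.Vx

/-! The position of a point with respect to the cells round a vertex, as a finite state. -/

namespace Pool.Agent.Lib.MP_b7d179_gt.Gm

/-- membership of a point in the prisms, tripod balls, lenses, circles, and the signs -/
structure Pt where
  A : Fin 3 → Prop
  B : Fin 3 → Prop
  Y : Fin 3 → Prop
  W : Fin 3 → Prop
  Zp : Fin 3 → Prop
  Zm : Fin 3 → Prop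
  Tp : Fin 3 → Prop
  Tm : Fin 3 → Prop
  K : Fin 3 → Fin 3 → Prop
  X0 : Fin 3 → Fin 3 → Prop
  X1 : Fin 3 → Fin 3 → Prop
  X2 : Fin 3 → Fin 3 → Prop
  ps : ℕ

namespace Pt
variable (s : Pt)

def core : Prop := (∃ a, s.A a) ∨ ∃ b, s.B b
def F (a : Fin 3) : Prop := s.Y a ∨ ∃ b, s.X0 a b ∨ s.X1 a b
def G (b : Fin 3) : Prop := s.W b ∨ ∃ a, s.X2 a b ∨ s.X1 a b

/-- membership in the closed cell of type `τ` in slot `(a, b)` -/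
def mem (τ : ℕ) (a b : Fin 3) : Prop :=
  match τ with
  | 24 => s.Y a ∧ s.A a ∧ s.B b
  | 25 => s.Y a ∧ s.A (a + 2) ∧ s.B b
  | 26 => s.W b ∧ s.B b ∧ s.A a
  | 27 => s.W b ∧ s.B (b + 2) ∧ s.A a
  | 28 => s.Y a ∧ s.B b ∧ s.Zp a ∧ s.Zm a
  | 29 => s.W b ∧ s.A a ∧ s.Tp b ∧ s.Tm b
  | 30 => s.A a ∧ s.B b
  | 31 => s.Y a ∧ s.B b ∧ s.Zp a
  | 32 => s.Y a ∧ s.B b ∧ s.Zm a
  | 33 => s.W b ∧ s.A a ∧ s.Tp b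
  | 34 => s.W b ∧ s.A a ∧ s.Tm b
  | 35 => s.Y a ∧ s.X0 a b
  | 36 => s.X0 a b ∧ s.X1 a b
  | 37 => s.X1 a b ∧ s.X2 a b
  | 38 => s.X2 a b ∧ s.W b
  | 39 => s.Y a ∧ s.A a
  | 40 => s.Y a ∧ s.A (a + 2)
  | 41 => s.W b ∧ s.B b
  | 42 => s.W b ∧ s.B (b + 2)
  | 43 => s.A a
  | 44 => s.B b
  | 45 => s.Y a
  | 46 => s.W b
  | 47 => s.X0 a b
  | 48 => s.X1 a b
  | 49 => s.X2 a b
  | _ => s.K a b ∧ (τ = s.ps ∨ (τ % 2 = 1 ∧ (s.ps + 1 = τ ∨ (τ + 1) % 24 = s.ps)))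

structure Ok : Prop where
  cov : s.core ∨ (∃ a, s.F a) ∨ ∃ b, s.G b
  uA : ∀ a a', s.A a → s.A a' → a = a'
  uB : ∀ b b', s.B b → s.B b' → b = b'
  uF : ∀ a a', s.F a → s.F a' → a = a'
  uG : ∀ b b', s.G b → s.G b' → b = b'
  legF : ∀ a b b', s.X0 a b ∨ s.X1 a b → s.X0 a b' ∨ s.X1 a b' → b = b'
  legG : ∀ b a a', s.X2 a b ∨ s.X1 a b → s.X2 a' b ∨ s.X1 a' b → a = a'
  cF : ∀ a, s.core → s.F a → s.Y a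
  cG : ∀ b, s.core → s.G b → s.W b
  fg : ∀ a b, s.F a → s.G b → s.X1 a b
  k1 : ∀ a b, s.Y a ∨ s.W b → s.X1 a b → s.K a b
  k2 : ∀ a b, s.X0 a b → s.X2 a b → s.K a b
  k3 : ∀ a b, s.core → s.X0 a b ∨ s.X2 a b → s.K a b
  kin : ∀ a b, s.K a b → s.Y a ∧ s.W b ∧ s.X0 a b ∧ s.X1 a b ∧ s.X2 a b
  nA : ∀ a, s.Y a → ¬ s.A (a + 1)
  nB : ∀ b, s.W b → ¬ s.B (b + 1)
  zt : ∀ a, s.Zp a ∨ s.Zm a
  tt : ∀ b, s.Tp b ∨ s.Tm b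
  z1 : ∀ a, s.Y a → s.A a → ¬ s.Zm a
  z2 : ∀ a, s.Y a → s.A (a + 2) → ¬ s.Zp a
  t1 : ∀ b, s.W b → s.B b → ¬ s.Tm b
  t2 : ∀ b, s.W b → s.B (b + 2) → ¬ s.Tp b
  kps : ∀ a b, s.K a b → s.ps < 24 ∧ (s.A a ↔ 14 ≤ s.ps ∧ s.ps ≤ 20) ∧
    (s.A (a + 2) ↔ 2 ≤ s.ps ∧ s.ps ≤ 8) ∧ (s.B b ↔ 8 ≤ s.ps ∧ s.ps ≤ 14) ∧
    (s.B (b + 2) ↔ 20 ≤ s.ps ∨ s.ps ≤ 2) ∧ (s.Zp a ↔ 12 ≤ s.ps ∨ s.ps = 0) ∧ (s.Zm a ↔ s.ps ≤ 12) ∧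
    (s.Tp b ↔ 4 ≤ s.ps ∧ s.ps ≤ 16) ∧ (s.Tm b ↔ 16 ≤ s.ps ∨ s.ps ≤ 4)

end Pt

/-- mask of the closed cell of type `τ` in slot `(a, b)` -/
def cm (τ a b : ℕ) : ℕ :=
  if τ < 24 then (if τ % 2 = 0 then L.kv a b (τ / 2) else L.ka a b (τ / 2) 1)
  else if τ < 30 then L.ed τ a b else if τ < 43 then L.fc τ a b else L.bc τ a b

/-- number of the bit of a cell -/
def ix (τ : ℕ) (a b : Fin 3) : ℕ := 50 * (3 * a + b) + τ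

/-- the cell exists -/
def Us (τ : ℕ) (a b : Fin 3) : Prop := τ < 50 ∧ L.used τ a b = true

/-- `k` is the number of the open cell of a point with state `s` -/
def Pt.Car (s : Pt) (k : ℕ) : Prop :=
  (∃ τ a b, Us τ a b ∧ k = ix τ a b) ∧
    ∀ τ a b, Us τ a b → (s.mem τ a b ↔ (cm τ a b).testBit k = true)

/-- the slots after applying `g 0` and `g 5` -/
def sU (τ : ℕ) (b : Fin 3) : Fin 3 := if τ = 39 ∨ τ = 40 ∨ τ = 43 ∨ τ = 45 then b else b + 1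
def sV (τ : ℕ) (a : Fin 3) : Fin 3 := if τ = 41 ∨ τ = 42 ∨ τ = 44 ∨ τ = 46 then a else a + 1

end Pool.Agent.Lib.MP_b7d179_gt.Gm
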