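import Pool.Agent.Lib.MP_b7d179_gt.G.Sets
import Pool.Agent.Lib.MP_b7d179_gt.G.KitB
import Pool.Agent.Lib.MP_b7d179_gt.G.Chart
import Pool.Agent.Lib.MP_b7d179_gt.G.Pt

/-! The prism as a region between two graphs, the data of the complex, the potentials. -/

namespace Pool.Agent.Lib.MP_b7d179_gt.Gm

open Set Metric Complex Stmt

noncomputable section

def hiO (lo : ℂ → ℝ) (z : ℂ) : ℝ := 2 * Real.pi / 3 - lo ((starRingEnd ℂ) z)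

/-- the lower graph of the tube -/
structure IsLo (lo : ℂ → ℝ) : Prop where
  cont : ContinuousOn lo Bz
  pos : ∀ z ∈ Bz, 0 < lo z ∧ lo z < hiO lo z
  per : ∀ z ∈ Bz, lo (w1 * z) = lo z
  mem : ∀ p, p ∈ U0 ↔ ∃ z ∈ Bz, ∃ t, lo z ≤ t ∧ t ≤ hiO lo z ∧ p = fz z t
  bot : ∀ z ∈ Bz, ∀ t, lo z ≤ t → t ≤ hiO lo z → (fz z t ∈ Sb 0 ∪ cyc (g 0) (Aj 0) ↔ t = lo z)

/-- the graphs and the fibres, extended into the solid tori -/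
def loX (L : S3 → ℝ) (lo : ℂ → ℝ) (z : ℂ) : ℝ := lo z - L (fz z (lo z))
def hiX (L : S3 → ℝ) (lo : ℂ → ℝ) (z : ℂ) : ℝ := hiO lo z + L (fz z (hiO lo z))
def FX (S : S3 × ℝ → S3) (lo : ℂ → ℝ) (x : ℂ × ℝ) : S3 :=
  if x.2 < lo x.1 then S (fz x.1 (lo x.1), lo x.1 - x.2)
  else if hiO lo x.1 < x.2 then S (fz x.1 (hiO lo x.1), x.2 - hiO lo x.1) else fz x.1 x.2

/-- the rim of the prism -/
def rimU (U : Set S3) : Set S3 :=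
  cHex U ∪ (g 5 * cj : S3 ≃ₜ S3) '' cHex U ∪ cyc (g 0) (cR U ∪ sw '' cSt U)

/-- the set theoretic part of `Prism` -/
structure Pre (U : Set S3) : Prop where
  sub : U ⊆ Core
  cov : ∀ p ∈ Core, p ∈ cyc (g 5) U ∨ p ∈ cyc (g 0) (sw '' U)
  inv : g 0 '' U = U
  invc : (g 5 * cj : S3 ≃ₜ S3) '' U = U
  free : Free (g 5) U
  k1 : kc ∩ U = ka 2 5
  k2 : Disjoint kc (g 5 '' U)
  pn : Disjoint Pn (g 5 '' U)
  nz : ∀ p ∈ Pn ∩ U, zt p ≠ 0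
  c1 : ∃ p ∈ Pn ∩ U, g 0 p = p
  c2 : ∃ p ∈ cR U, sw p = p ∧ io p = p ∧ p ∉ kc
  c3 : ∃ p ∈ cSt U, 0 < zt p ∧ p ∉ U ∧ p ∈ Vt

/-- a chart of the prism that is the fibre chart near the centre -/
def Tub (U : Set S3) : Prop :=
  ∃ (f : ℂ × ℝ → S3) (η : ℝ), 0 < η ∧ η < 1 / 2 ∧ Emb f (closedBall 0 1) ∧ f '' closedBall 0 1 = U ∧
    f '' sphere 0 1 = rimU U ∧
    ∀ x ∈ closedBall (0 : ℂ × ℝ) (1 / 2), f x = fz (2 * η * x.1) (Real.pi / 3 + 2 * η * x.2)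

/-- all the first level data -/
structure Dat where
  U : Set S3
  H : Fin 6 → Set S3
  X : Fin 6 → Set S3
  pr : Prism U
  bk : Book H X
  wl : Wall H X

/-- open cells of the core circle; the angle is counted backwards in units of 15 degrees -/
def oc (τ : ℕ) : Set S3 :=
  if τ % 2 = 0 then {km (-(τ * (Real.pi / 12)))}
  else km '' Ioo (-((τ + 1) * (Real.pi / 12))) (-((τ - 1) * (Real.pi / 12)))

/-- closed cells of the core circle -/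
def ccl (τ : ℕ) : Set S3 :=
  if τ % 2 = 0 then {km (-(τ * (Real.pi / 12)))}
  else km '' Icc (-((τ + 1) * (Real.pi / 12))) (-((τ - 1) * (Real.pi / 12)))

namespace Dat
variable (D : Dat)

/-- the tripod balls at the vertices `1` and `5`, and the two at the vertex `0` -/
def Yf : Set S3 := YF D.H D.X
def Yv : Set S3 := rot.symm '' YN D.H D.X
def Ys : Set S3 := rot.symm '' YF D.H D.X
def Ye : Set S3 := YN D.H D.X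

/-- the state of a point -/
def st (x : S3) : Pt where
  A a := x ∈ gg a 0 '' D.U
  B b := x ∈ gg 0 b '' (sw '' D.U)
  Y a := x ∈ gg a 0 '' D.Yf
  W b := x ∈ gg 0 b '' D.Yv
  Zp a := 0 ≤ zt ((gg a 0).symm x)
  Zm a := zt ((gg a 0).symm x) ≤ 0
  Tp b := 0 ≤ zt (sw ((gg 0 b).symm x))
  Tm b := zt (sw ((gg 0 b).symm x)) ≤ 0
  K a b := x ∈ gg a b '' kc
  X0 a b := x ∈ gg a b '' D.X 2
  X1 a b := x ∈ gg a b '' D.X 3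
  X2 a b := x ∈ gg a b '' D.X 4
  ps := Classical.epsilon fun τ => τ < 24 ∧ x ∈ orb (oc τ)

/-- the closed cells of the slot `(0, 0)` -/
def base (τ : ℕ) : Set S3 :=
  match τ with
  | 24 => cE D.U
  | 25 => (g 0 * cj : S3 ≃ₜ S3) '' cE D.U
  | 26 => sw '' cE D.U
  | 27 => (sw * g 0 * cj : S3 ≃ₜ S3) '' cE D.U
  | 28 => cQ D.U
  | 29 => sw '' cQ D.U
  | 30 => cR D.U
  | 31 => cHS D.U
  | 32 => (g 0 * cj : S3 ≃ₜ S3) '' cHS D.U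
  | 33 => sw '' cHS D.U
  | 34 => (sw * g 0 * cj : S3 ≃ₜ S3) '' cHS D.U
  | 35 => D.H 1
  | 36 => D.H 2
  | 37 => D.H 3
  | 38 => D.H 4
  | 39 => cHex D.U
  | 40 => cj '' cHex D.U
  | 41 => sw '' cHex D.U
  | 42 => (sw * cj : S3 ≃ₜ S3) '' cHex D.U
  | 43 => D.U
  | 44 => sw '' D.U
  | 45 => D.Yf
  | 46 => D.Yv
  | 47 => D.X 2
  | 48 => D.X 3
  | 49 => D.X 4
  | _ => ccl τ

/-- the number of the open cell of a point, and the set of a mask -/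
def lab (x : S3) : ℕ := Classical.epsilon fun k => (D.st x).Car k
def R (m : ℕ) : Set S3 := {x | m.testBit (D.lab x) = true}

/-- how the lenses and tripod balls at the vertex `0` are built from the cells -/
structure Dec : Prop where
  x1 : D.X 1 = D.Yf ∪ g 0 '' (D.X 2 ∪ D.X 3) ∪ (g 0 ^ 2 : S3 ≃ₜ S3) '' (D.X 2 ∪ D.X 3)
  x5 : D.X 5 = D.Yv ∪ g 5 '' (D.X 4 ∪ D.X 3) ∪ (g 5 ^ 2 : S3 ≃ₜ S3) '' (D.X 4 ∪ D.X 3)
  ys : D.X 0 = D.Ys ∪ g 5 '' (D.X 1 ∪ D.X 2) ∪ (g 5 ^ 2 : S3 ≃ₜ S3) '' (D.X 1 ∪ D.X 2)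
  ye : D.X 0 = D.Ye ∪ g 0 '' (D.X 5 ∪ D.X 4) ∪ (g 0 ^ 2 : S3 ≃ₜ S3) '' (D.X 5 ∪ D.X 4)
  inS : ∀ b : ℕ, b % 3 ≠ 0 → gg 0 b '' D.Yv ⊆ D.Ys ∧ ∀ a : ℕ, gg a b '' D.X 4 ⊆ D.Ys
  inE : ∀ a : ℕ, a % 3 ≠ 0 → gg a 0 '' D.Yf ⊆ D.Ye ∧ ∀ b : ℕ, gg a b '' D.X 2 ⊆ D.Ye

/-- lower bounds `r` for the potential of type `T` (0 plain, 1 entered through wall `5`,
2 entered through wall `0`) at a point of `X 0` -/
def Pot (T : ℕ) (z : S3) (r : ℝ) : Prop :=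
  match T with
  | 0 => z ∈ D.X 0 ∧ r ≤ 1
  | 1 => (z ∈ D.Ys ∧ r ≤ 103 / 200 * normSq (1 + uw 5 z.1)) ∨ ∃ d : ℕ, d % 3 ≠ 0 ∧
      ∃ y ∈ D.X 1 ∪ D.X 2, z = gg d 0 y ∧ r * QQ z.1 ≤ 103 / 100 * QQ y.1
  | _ => (z ∈ D.Ye ∧ r ≤ 103 / 200 * normSq (1 + uw 0 z.1)) ∨ ∃ d : ℕ, d % 3 ≠ 0 ∧
      ∃ y ∈ D.X 5 ∪ D.X 4, z = gg 0 d y ∧ r * QQ z.1 ≤ 103 / 100 * QQ y.1

end Dat

/-- the lens `j` of the chamber `(a, b)` lies in the lens `0` -/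
def Stp (a b j : ℕ) : Prop :=
  a < 3 ∧ b < 3 ∧ ((a ≠ 0 ∧ (j = 2 ∨ (j = 1 ∧ b = 0))) ∨ (b ≠ 0 ∧ (j = 4 ∨ (j = 5 ∧ a = 0))) ∨
    (a ≠ 0 ∧ b ≠ 0 ∧ j = 3))

/-- the step of type `T'` to type `T` contracts the potential -/
def Dat.Tr (D : Dat) (T' T a b j : ℕ) : Prop :=
  ∀ x r, D.Pot T' x r → D.Pot T (gg a b ((rot ^ j) x))
    (50 / 49 * r * QQ ((rot ^ j) x).1 / QQ (gg a b ((rot ^ j) x)).1)

/-- the Hermitian distance -/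
def hd (p q : S3) : ℝ :=
  normSq (1 - p.1.1 * (starRingEnd ℂ) q.1.1 - p.1.2 * (starRingEnd ℂ) q.1.2)

/-- products of steps -/
inductive Chn : ℕ → (S3 ≃ₜ S3) → Prop
  | zero : Chn 0 1
  | succ {n : ℕ} {γ : S3 ≃ₜ S3} {a b j : ℕ} : Chn n γ → Stp a b j →
      Chn (n + 1) (γ * (gg a b * rot ^ j))

end

end Pool.Agent.Lib.MP_b7d179_gt.Gm
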