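import Pool.Agent.Lib.MP_b7d179_gt.G.Tube0
import Pool.Agent.Lib.MP_b7d179_gt.G.BasR

/-! Symmetries of the tube, the middle curve. -/

namespace Pool.Agent.Lib.MP_b7d179_gt.Gm

open Set Metric Complex Stmt

theorem tubes_w (z : ℂ) : (w1 * z).re = (-z.re - √3 * z.im) / 2 ∧ (w1 * z).im = (√3 * z.re - z.im) / 2 ∧
    (w1 ^ 2 * z).re = (-z.re + √3 * z.im) / 2 ∧ (w1 ^ 2 * z).im = (-(√3 * z.re) - z.im) / 2 := by
  have e : w1 ^ 2 = -1 - w1 := by linear_combination w1_cube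
  rw [e]
  refine ⟨?_, ?_, ?_, ?_⟩ <;> simp [w1] <;> ring

theorem tubes_conj : (starRingEnd ℂ) w1 = w1 ^ 2 := by
  have e : w1 ^ 2 = -1 - w1 := by linear_combination w1_cube
  rw [e]
  apply Complex.ext <;> simp [w1]
  norm_num

theorem tubes_back (z : ℂ) : w1 ^ 2 * (w1 * z) = z := supp_back om_w1 z

theorem tubes_ray {z : ℂ} (h1 : 3 / 2 ≤ normSq z) (h2 : normSq z ≤ 3) (hi : z.im = 0)
    (hr : 0 ≤ z.re) : hh z < 1 := by
  simp only [hh, normSq_apply, sub_re, sub_im, re_ofNat, im_ofNat, hi] at *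
  have a : 1 < z.re := by nlinarith
  have b : z.re < 3 := by nlinarith
  nlinarith

theorem tubes_sec {z : ℂ} (h1 : 3 / 2 ≤ normSq z) (h2 : normSq z ≤ 3)
    (h : ∀ a : ℕ, 1 ≤ hh (w1 ^ a * z)) : ∃ k : ℕ, w1 ^ k * z ∈ Sec0 := by
  have n (a : ℕ) : normSq (w1 ^ a * z) = normSq z := by rw [normSq_mul, supp_w, one_mul]
  have k (a : ℕ) (hi : (w1 ^ a * z).im = 0) : (w1 ^ a * z).re < 0 := lt_of_not_ge fun hr =>
    (h a).not_gt (tubes_ray ((n a).symm ▸ h1) ((n a).symm ▸ h2) hi hr)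
  have k0 := k 0
  have k1 := k 1
  have k2 := k 2
  rw [pow_zero, one_mul] at k0
  rw [pow_one] at k1
  obtain ⟨a, b, c, d⟩ := tubes_w z
  have s : 0 < √3 := by positivity
  have m0 : 0 < z.im → (w1 ^ 2 * z).im < 0 → ∃ k : ℕ, w1 ^ k * z ∈ Sec0 := fun u v =>
    ⟨0, by rw [pow_zero, one_mul]; exact ⟨u, v⟩⟩
  have m1 : 0 < (w1 * z).im → z.im < 0 → ∃ k : ℕ, w1 ^ k * z ∈ Sec0 := fun u v =>
    ⟨1, by rw [pow_one]; exact ⟨u, by rw [tubes_back]; exact v⟩⟩
  have m2 : 0 < (w1 ^ 2 * z).im → (w1 * z).im < 0 → ∃ k : ℕ, w1 ^ k * z ∈ Sec0 := fun u v =>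
    ⟨2, u, by
      rw [show w1 ^ 2 * (w1 ^ 2 * z) = w1 * z by linear_combination w1 * z * w1_three]; exact v⟩
  rcases lt_trichotomy z.im 0 with y | y | y
  · rcases lt_trichotomy (w1 * z).im 0 with u | u | u
    · exact m2 (by linarith) u
    · have := k1 u
      have x : z.re < 0 := by
        by_contra q
        linarith [mul_nonneg s.le (not_lt.1 q)]
      linarith [mul_pos s (neg_pos.2 y)]
    · exact m1 u y
  · have := mul_pos s (neg_pos.2 (k0 y))
    exact m2 (by linarith) (by linarith)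
  · rcases lt_trichotomy (w1 ^ 2 * z).im 0 with u | u | u
    · exact m0 y u
    · have := k2 u
      have x : z.re < 0 := by
        by_contra q
        linarith [mul_nonneg s.le (not_lt.1 q)]
      linarith [mul_pos s y]
    · exact m2 u (by linarith)

theorem tubes_gg {p : S3} (hp : p ∈ Vt) (a b : ℕ) : gg a b p ∈ Vt := fun c d => by
  rw [← Homeomorph.mul_apply, gg_mul]; exact hp _ _

theorem tubes_g5 (a : ℕ) : gg a 0 = g 5 ^ a := by rw [gg, pow_zero, mul_one]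

theorem tubes_g0 (b : ℕ) : gg 0 b = g 0 ^ b := by rw [gg, pow_zero, one_mul]

theorem tubes_Z (p : S3) : (Z1 (g 0 p).1 = Z1 p.1 ∧ Z2 (g 0 p).1 = w1 * Z2 p.1) ∧
    Z1 (g 5 p).1 = w1 * Z1 p.1 ∧ Z2 (g 5 p).1 = Z2 p.1 :=
  ⟨Z_gE0 w1_nsq (nsq_S3 p).le, Z_gE5 w1_nsq (nsq_S3 p).le⟩

theorem Vt_cov {p : S3} (hp : p ∈ Vt) : p ∈ cyc (g 5) U0 ∨ p ∈ cyc (g 0) (sw '' U0) := by
  obtain ⟨h1, h2, -⟩ := (mem_Vt p).1 hp
  have n := Z_sph p
  have n1 := normSq_nonneg (Z1 p.1)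
  have n2 := normSq_nonneg (Z2 p.1)
  rcases le_total (normSq (Z2 p.1)) (normSq (Z1 p.1)) with h | h
  · obtain ⟨k, hk⟩ := tubes_sec (by linarith) (by linarith) h1
    refine Or.inl ⟨k, ?_⟩
    rw [← tubes_g5]
    obtain ⟨a, b⟩ := Z_gg k 0 p
    refine ⟨tubes_gg hp k 0, ?_, by rw [a]; exact hk⟩
    rwa [a, b, normSq_mul, normSq_mul, supp_w, supp_w, one_mul, one_mul]
  · obtain ⟨k, hk⟩ := tubes_sec (by linarith) (by linarith) h2
    refine Or.inr ⟨k, sw ((g 0 ^ k) p), ?_, by rw [← Homeomorph.mul_apply, sw_sw]; rfl⟩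
    rw [← tubes_g0]
    obtain ⟨a, b⟩ := Z_gg 0 k p
    obtain ⟨c, d⟩ := Z_sw (gg 0 k p)
    refine ⟨(sym_Vt (Or.inl rfl) _).1.2 (tubes_gg hp 0 k), ?_, by rw [c, b]; exact hk⟩
    rwa [c, d, a, b, normSq_mul, normSq_mul, supp_w, supp_w, one_mul, one_mul]

theorem tubes_Zc (p : S3) : Z1 (g 5 (cj p)).1 = w1 * (starRingEnd ℂ) (Z1 p.1) ∧
    Z2 (g 5 (cj p)).1 = (starRingEnd ℂ) (Z2 p.1) := by
  rw [(tubes_Z _).2.1, (tubes_Z _).2.2, (Z_cj p).1, (Z_cj p).2]
  exact ⟨rfl, rfl⟩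

theorem U0_sym (p : S3) : (g 0 p ∈ U0 ↔ p ∈ U0) ∧ (g 5 (cj p) ∈ U0 ↔ p ∈ U0) ∧
    (p ∈ U0 → g 5 p ∉ U0) := by
  refine ⟨and_congr (sym_Vt (by simp) p).1 ?_, and_congr
    ((sym_Vt (by simp) _).1.trans (sym_Vt (by simp) p).1) ?_, fun h k => ?_⟩
  · rw [(tubes_Z p).1.1, (tubes_Z p).1.2, normSq_mul, w1_nsq, one_mul]
  · rw [(tubes_Zc p).1, (tubes_Zc p).2, normSq_mul, w1_nsq, one_mul, normSq_conj, normSq_conj]
    refine and_congr Iff.rfl ?_
    change 0 < _ ∧ _ < 0 ↔ 0 < _ ∧ _ < 0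
    rw [tubes_back, (tubes_w _).2.1, (tubes_w _).2.2.2, conj_re, conj_im]
    constructor <;> rintro ⟨a, b⟩ <;> constructor <;> linarith
  · have a := k.2.2.2
    rw [(tubes_Z p).2.1, tubes_back] at a
    exact lt_asymm a h.2.2.1

/-- near the chamber both coordinates have positive real part and argument below 70 degrees -/
theorem near_arg {p : S3} (hp : p ∈ Vt) (h : 11 / 8 ≤ av 0 p.1) :
    0 < (Z1 p.1).re ∧ 0 < (Z2 p.1).re := by
  obtain ⟨h1, h2, -⟩ := (mem_Vt p).1 hp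
  have a := h1 0
  have b := h2 0
  rw [pow_zero, one_mul] at a b
  have n := Z_sph p
  have q := (supp_le (QQ_pos (nsq_S3 p).le) (av_chart (nsq_S3 p).le).1 _).1 h
  rw [QQ] at q
  generalize Z1 p.1 = A at *
  generalize Z2 p.1 = B at *
  simp only [hh, normSq_apply, sub_re, sub_im, re_ofNat, im_ofNat] at a b n q
  have a' : A.re ≤ 3 / 2 := by nlinarith [mul_self_nonneg B.re, mul_self_nonneg B.im]
  have b' : B.re ≤ 3 / 2 := by nlinarith [mul_self_nonneg A.re, mul_self_nonneg A.im]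
  have c : A.re + B.re > 3 / 2 := by
    by_contra c
    nlinarith [mul_self_nonneg (0 - A.im - B.im)]
  constructor <;> linarith

theorem tubes_mod (a : ℕ) : w1 ^ a = w1 ^ (a % 3) := by
  conv_lhs => rw [← Nat.div_add_mod a 3, pow_add, pow_mul, w1_three, one_pow, one_mul]

/-- which part of `Bd` a point of the tube can be in -/
theorem U0_Bd {p : S3} (hp : p ∈ U0) : p ∈ Bd ↔ p ∈ Sb 0 ∪ cyc (g 0) (Aj 0) ∨
    g 5 (cj p) ∈ Sb 0 ∪ cyc (g 0) (Aj 0) ∨ p ∈ cyc (g 0) (Sb 5) := by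
  have bd {q : S3} (hq : q ∈ Vt) (h : q ∈ Sb 0 ∪ cyc (g 0) (Aj 0)) : q ∈ Bd := by
    rcases h with h | ⟨k, h⟩
    · exact ⟨hq, 0, 0, by rw [supp_gg rfl rfl]; exact Or.inl (Or.inr h)⟩
    · exact ⟨hq, 0, k, by rw [tubes_g0]; exact Or.inl (Or.inl h)⟩
  constructor
  · rintro ⟨hv, a, b, h⟩
    obtain ⟨z1, z2⟩ := Z_gg a b p
    have neg : (w1 * Z1 p.1).re < 0 := by
      obtain ⟨u, v⟩ := hp.2.2
      rw [(tubes_w _).2.2.2] at v
      rw [(tubes_w _).1]
      have s : 0 < √3 := by positivity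
      refine neg_of_mul_neg_left (b := √3) ?_ s.le
      have : √3 * √3 * (Z1 p.1).im = 3 * (Z1 p.1).im := by rw [r3]
      linarith
    have cz : w1 * (starRingEnd ℂ) (Z1 p.1) = (starRingEnd ℂ) (w1 ^ 2 * Z1 p.1) := by
      rw [map_mul, map_pow, tubes_conj]
      linear_combination (-w1 * (starRingEnd ℂ) (Z1 p.1)) * w1_three
    rw [tubes_mod] at z1
    rcases h with (h | h) | h
    · rcases (by omega : a % 3 = 0 ∨ a % 3 = 1 ∨ a % 3 = 2) with k | k | k
      · refine Or.inl (Or.inr ⟨b % 3, ?_⟩)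
        rwa [← gg_mod, k, tubes_g0] at h
      · have := (near_arg (tubes_gg hv a b) (le_trans (by norm_num) (Kt_KL h.2 0))).1
        rw [z1, k, pow_one] at this
        exact absurd this neg.not_gt
      · refine Or.inr (Or.inl (Or.inr ⟨2 * b, ?_⟩))
        have e : (g 0 ^ (2 * b)) (g 5 (cj p)) = cj (gg a b p) := by
          rw [← tubes_g0]
          refine ext_Z ?_ ?_
          · rw [(Z_gg _ _ _).1, (tubes_Zc p).1, (Z_cj _).1, z1, k, pow_zero, one_mul, cz]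
          · rw [(Z_gg _ _ _).2, (tubes_Zc p).2, (Z_cj _).2, z2, map_mul, map_pow, tubes_conj,
              pow_mul]
        rw [e]
        exact (cj_mem 0 _).2.2.2.1.2 h
    · have e := (chart_sets _).1.1 h
      rw [z1] at e
      rcases (by omega : a % 3 = 0 ∨ a % 3 = 1 ∨ a % 3 = 2) with k | k | k <;> rw [k] at e
      · rw [pow_zero, one_mul] at e
        exact Or.inl (Or.inl ((chart_sets p).1.2 e))
      · rw [pow_one] at e
        simp only [hh, normSq_apply, sub_re, sub_im, re_ofNat, im_ofNat] at e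
        nlinarith [mul_self_nonneg (0 - (w1 * Z1 p.1).im), mul_self_nonneg (w1 * Z1 p.1).re]
      · refine Or.inr (Or.inl (Or.inl ((chart_sets _).1.2 ?_)))
        refine Eq.trans ?_ e
        rw [(tubes_Zc p).1, cz, hh, hh, ← normSq_conj (2 - w1 ^ 2 * Z1 p.1),
          map_sub (starRingEnd ℂ), map_ofNat]
    · refine Or.inr (Or.inr ⟨b, (chart_sets _).2.1.2 ?_⟩)
      rw [← tubes_g0, (Z_gg 0 b p).2, ← z2]
      exact (chart_sets _).2.1.1 h
  · rintro (h | h | ⟨k, h⟩)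
    · exact bd hp.1 h
    · exact (sym_Vt (by simp) p).2.2.1 ((sym_Vt (by simp) _).2.2.1
        (bd ((U0_sym p).2.1.2 hp).1 h))
    · exact ⟨hp.1, 0, k, by rw [tubes_g0]; exact Or.inr h⟩

theorem tubes_mid {p : E} {r s C S : ℝ} (hw : wv 0 p ≠ 0) (a : p.1.re = r * (√3 / 2))
    (b : p.2.re = -r / 2) (c : p.1.im = s * (√3 / 2 * C + S / 2))
    (d : p.2.im = s * (√3 / 2 * S - C / 2)) :
    (Z1 p).im * normSq (wv 0 p) = √3 * √2 * s / 2 * ((√3 - √2 * r) * S - C) ∧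
    (Z2 p).im * normSq (wv 0 p) = √3 * √2 * s / 2 * (-((√3 - √2 * r) * S) - C) ∧
    (normSq (Z1 p) - normSq (Z2 p)) * normSq (wv 0 p) = -(6 * √3 * s ^ 2 * (C * S)) := by
  have n := (normSq_pos.2 hw).ne'
  have e0 : nv 0 = ⟨√3 / 2, -1 / 2⟩ := rfl
  have e5 : mv 5 = ⟨1 / 2, -√3 / 2⟩ := rfl
  have e1 : mv 0 = ⟨1, 0⟩ := rfl
  have w1 : (wv 0 p).re = √3 - √2 * r := by
    simp only [wv, lin, e0, sub_re, mul_re, add_re, add_im, mul_im, ofReal_re, ofReal_im, a, b]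
    linear_combination (-√2 * r / 4) * r3
  have w2 : (wv 0 p).im = -(√2 * s * C) := by
    simp only [wv, lin, e0, sub_im, mul_re, add_re, add_im, mul_im, ofReal_re, ofReal_im, c, d]
    linear_combination (-√2 * s * C / 4) * r3
  have u1 : (uw 0 p).re = 1 - √2 * √3 * r / 2 := by
    simp only [uw, lin, e1, sub_re, mul_re, add_re, add_im, mul_im, ofReal_re, ofReal_im, a, b,
      one_re]
    ring
  have u2 : (uw 0 p).im = -(√2 * s * (√3 / 2 * C + S / 2)) := by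
    simp only [uw, lin, e1, sub_im, mul_re, add_re, add_im, mul_im, ofReal_re, ofReal_im, c, d,
      one_im]
    ring
  have v1 : (uw 5 p).re = 1 - √2 * √3 * r / 2 := by
    simp only [uw, lin, e5, sub_re, mul_re, add_re, add_im, mul_im, ofReal_re, ofReal_im, a, b,
      one_re]
    ring
  have v2 : (uw 5 p).im = -(√2 * s * (√3 / 2 * C - S / 2)) := by
    simp only [uw, lin, e5, sub_im, mul_re, add_re, add_im, mul_im, ofReal_re, ofReal_im, c, d,
      one_im]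
    linear_combination (√2 * s * S / 4) * r3
  refine ⟨?_, ?_, ?_⟩
  · rw [Z1, div_im, sub_mul, div_mul_cancel₀ _ n, div_mul_cancel₀ _ n, im_ofReal_mul,
      re_ofReal_mul, w1, w2, v1, v2]
    linear_combination (-√3 * √2 * s * C / 2) * r3
  · rw [Z2, div_im, sub_mul, div_mul_cancel₀ _ n, div_mul_cancel₀ _ n, im_ofReal_mul,
      re_ofReal_mul, w1, w2, u1, u2]
    linear_combination (-√3 * √2 * s * C / 2) * r3
  · rw [Z1, Z2, normSq_div, normSq_div, sub_mul, div_mul_cancel₀ _ n, div_mul_cancel₀ _ n,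
      normSq_mul, normSq_mul, chart_n3, normSq_apply, normSq_apply, u1, u2, v1, v2]
    linear_combination (-3 * √3 * s ^ 2 * C * S) * r2

theorem tubes_quad {θ : ℝ} (h0 : 0 ≤ θ) (h1 : θ < 2 * Real.pi + Real.pi / 2)
    (c : Real.cos θ ≤ 0) (s : 0 ≤ Real.sin θ) : Real.pi / 2 ≤ θ ∧ θ ≤ Real.pi := by
  have := Real.pi_pos
  constructor <;> by_contra k <;> have k := not_le.1 k
  · exact c.not_gt (Real.cos_pos_of_mem_Ioo ⟨by linarith, k⟩)
  · rcases lt_or_ge θ (2 * Real.pi) with l | l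
    · rw [← Real.sin_sub_two_pi] at s
      exact s.not_gt (Real.sin_neg_of_neg_of_neg_pi_lt (by linarith) (by linarith))
    · rw [← Real.cos_sub_two_pi] at c
      exact c.not_gt (Real.cos_pos_of_mem_Ioo ⟨by linarith, by linarith⟩)

/-- on the middle curve |Z1|² - |Z2|² has the sign of cos² (t + π/3) - cos² t, and Im Z1 the sign of
-(nv 0 · y) - (√3 - √2 r) (τ · y), τ the unit vector at -120 degrees -/
theorem Mm_U0' {p : S3} {r s t : ℝ} (hr : 0 < r) (hr' : r < 1) (hs : 0 < s) (hx : xx p.1 = r * nv 0)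
    (hy : yy p.1 = s * exp (t * I)) (h0 : 0 ≤ t) (h1 : t < 2 * Real.pi) :
    (normSq (Z2 p.1) ≤ normSq (Z1 p.1) ∧ 0 < (Z1 p.1).im ↔ Real.pi / 3 ≤ t ∧ t ≤ 5 * Real.pi / 6) ∧
    (normSq (Z2 p.1) = normSq (Z1 p.1) ∧ 0 < (Z1 p.1).im ↔ t = Real.pi / 3 ∨ t = 5 * Real.pi / 6) ∧
    (t = Real.pi / 3 → (Z2 p.1).im < 0) ∧ (t = 5 * Real.pi / 6 → 0 < (Z2 p.1).im) := by
  have pi := Real.pi_pos
  obtain ⟨θ, rfl⟩ : ∃ θ, t = θ - Real.pi / 6 := ⟨t + Real.pi / 6, by ring⟩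
  have hw := wv_ne 0 (nsq_S3 p).le
  have n := normSq_pos.2 hw
  have e0 : nv 0 = ⟨√3 / 2, -1 / 2⟩ := rfl
  obtain ⟨a, b, c⟩ := tubes_mid (r := r) (s := s) (C := Real.cos θ) (S := Real.sin θ) hw
    (by have := congrArg re hx; rwa [re_ofReal_mul, e0] at this)
    (by have := congrArg im hx; rw [im_ofReal_mul, e0] at this; exact this.trans (by ring))
    (by
      have := congrArg re hy
      rw [re_ofReal_mul, exp_ofReal_mul_I_re, Real.cos_sub, Real.cos_pi_div_six,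
        Real.sin_pi_div_six] at this
      exact this.trans (by ring))
    (by
      have := congrArg im hy
      rw [im_ofReal_mul, exp_ofReal_mul_I_im, Real.sin_sub, Real.cos_pi_div_six,
        Real.sin_pi_div_six] at this
      exact this.trans (by ring))
  have d : 0 < √3 - √2 * r := by nlinarith [basr_2.1, basr_2.2, basr_3.1]
  have k : 0 < √3 * √2 * s / 2 := by positivity
  have k' : 0 < 6 * √3 * s ^ 2 := by positivity
  have i1 : 0 < (Z1 p.1).im ↔ 0 < (√3 - √2 * r) * Real.sin θ - Real.cos θ := by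
    rw [← mul_pos_iff_of_pos_right n, a, mul_pos_iff_of_pos_left k]
  have i2 : normSq (Z2 p.1) ≤ normSq (Z1 p.1) ↔ Real.cos θ * Real.sin θ ≤ 0 := by
    rw [← sub_nonneg, ← mul_nonneg_iff_of_pos_right n, c, ← mul_neg, mul_nonneg_iff_of_pos_left k',
      neg_nonneg]
  have i3 : normSq (Z2 p.1) = normSq (Z1 p.1) ↔ Real.cos θ * Real.sin θ = 0 := by
    rw [eq_comm, ← sub_eq_zero, ← mul_eq_zero_iff_right n.ne', c, neg_eq_zero,
      mul_eq_zero_iff_left k'.ne']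
  have sc := Real.sin_sq_add_cos_sq θ
  have q : Real.cos θ * Real.sin θ ≤ 0 ∧ 0 < (√3 - √2 * r) * Real.sin θ - Real.cos θ ↔
      Real.pi / 2 ≤ θ ∧ θ ≤ Real.pi := by
    generalize √3 - √2 * r = D at *
    constructor
    · rintro ⟨u, v⟩
      refine tubes_quad (by linarith) (by linarith) (not_lt.1 fun x => ?_) (not_lt.1 fun x => ?_)
      · have := mul_nonpos_of_nonneg_of_nonpos d.le (nonpos_of_mul_nonpos_right u x)
        linarith
      · have := mul_neg_of_pos_of_neg d x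
        exact u.not_gt (mul_pos_of_neg_of_neg (by linarith) x)
    · rintro ⟨u, v⟩
      have x := Real.cos_nonpos_of_pi_div_two_le_of_le u (by linarith)
      have y := Real.sin_nonneg_of_nonneg_of_le_pi (by linarith) v
      refine ⟨mul_nonpos_of_nonpos_of_nonneg x y, ?_⟩
      rcases y.eq_or_lt with y | y
      · rw [← y] at sc ⊢
        nlinarith
      · linarith [mul_pos d y]
  refine ⟨?_, ?_, fun e => ?_, fun e => ?_⟩
  · rw [i1, i2, q]
    constructor <;> rintro ⟨u, v⟩ <;> constructor <;> linarith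
  · rw [i1, i3]
    constructor
    · rintro ⟨u, v⟩
      obtain ⟨x, y⟩ := q.1 ⟨u.le, v⟩
      rcases x.eq_or_lt with x | x
      · exact Or.inl (by linarith)
      rcases y.eq_or_lt with y | y
      · exact Or.inr (by linarith)
      exact absurd u (mul_neg_of_neg_of_pos (Real.cos_neg_of_pi_div_two_lt_of_lt x (by linarith))
        (Real.sin_pos_of_pos_of_lt_pi (by linarith) y)).ne
    · rintro (e | e)
      · rw [show θ = Real.pi / 2 by linarith]
        simpa using d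
      · rw [show θ = Real.pi by linarith]
        simp
  · rw [show θ = Real.pi / 2 by linarith, Real.sin_pi_div_two, Real.cos_pi_div_two] at b
    exact neg_of_mul_neg_left (b.trans_lt (mul_neg_of_pos_of_neg k (by linarith))) n.le
  · rw [show θ = Real.pi by linarith, Real.sin_pi, Real.cos_pi] at b
    exact pos_of_mul_pos_left ((mul_pos k (by linarith)).trans_eq b.symm) n.le

theorem tubes_low {a b y r w : ℝ} (hb : 0 ≤ b) (ha : 17320 / 10000 * b ≤ a)
    (n : a ^ 2 + b ^ 2 + y ^ 2 = 1) (h1 : 3 / 2 ≤ 3 - 2 * w * a + 2 * a ^ 2 + 3 / 2 * y ^ 2)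
    (h2 : 3 - 2 * w * a + 2 * a ^ 2 + 3 / 2 * y ^ 2 ≤ 9 / 5) (r0 : 0 < r) (r1 : r < 14143 / 10000)
    (w1 : 2449 / 1000 < w) (w2 : w < 245 / 100) : 2 * r * b * (1 - w * a / 2) < 3 / 2 * y ^ 2 := by
  have a0 : 0 ≤ a := by linarith
  have a1 : a ≤ 1 := by nlinarith [sq_nonneg b, sq_nonneg y]
  have wa := mul_le_mul_of_nonneg_right w1.le a0
  have a2 : a ≤ 69 / 100 := by nlinarith [sq_nonneg b]
  have b1 : b ≤ 2 / 5 := by linarith
  have b2 : 299 / 100 * b ^ 2 ≤ a ^ 2 := by nlinarith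
  have a3 : a ^ 2 ≤ 48 / 100 := by nlinarith
  have b3 : b ^ 2 ≤ 16 / 100 := by nlinarith
  have c : 1 - w * a / 2 ≤ 1 / 3 := by nlinarith
  have rb : r * b ≤ 57 / 100 := by nlinarith
  have := mul_le_mul_of_nonneg_left c (mul_nonneg r0.le hb)
  nlinarith

/-- the slices through the equator stay in the lower half on the side of wall `0` -/
theorem eq_low {p : S3} (hp : p ∈ Aj 0) (hs : 0 ≤ sd (nv 0) (xx p.1)) (hy : p.1.2.im = 0) :
    normSq (Z1 p.1) < normSq (Z2 p.1) := by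
  obtain ⟨-, h1, -, h2⟩ := (Aj_iff p).1 hp
  have h3 := Kt_KL hp.2 0
  have n := nsq_S3 p
  have s := basr_3.1
  have e0 : nv 0 = ⟨√3 / 2, -1 / 2⟩ := rfl
  have hY : p.1.2.re ≤ 0 := by
    have e := av_sub p.1
    rw [hy, mul_zero, sub_zero] at e
    have x : p.1.1.re ≤ 1 := by
      simp only [nsq, normSq_apply] at n
      nlinarith [mul_self_nonneg p.1.1.im, mul_self_nonneg p.1.2.re, mul_self_nonneg p.1.2.im]
    by_contra c
    have := mul_pos (by linarith : 0 < 2 * √3)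
      (mul_pos (not_le.1 c) (by linarith [basr_2.1] : 0 < √2 - p.1.1.re))
    linarith
  rw [Z1, Z2, normSq_div, normSq_div, normSq_mul, normSq_mul, chart_n3,
    div_lt_div_iff_of_pos_right (normSq_pos.2 (wv_ne 0 (nsq_S3 p).le)), chart_u0, chart_u5]
  rw [basr_xy] at h2 h3
  simp only [sd, e0, xx, yy, nsq, normSq_apply, mul_re, mul_im, conj_re, conj_im, sub_re, sub_im,
    one_re, one_im, ofReal_re, ofReal_im, div_ofNat_re, div_ofNat_im, hy] at hs h2 h3 n ⊢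
  generalize p.1.1.re = X at *
  generalize p.1.2.re = Y at *
  generalize p.1.1.im = y at *
  have t : √3 * √3 * Y = 3 * Y := by rw [r3]
  have k := tubes_low (a := √3 / 2 * X - Y / 2) (b := X / 2 + √3 / 2 * Y) (y := y)
    (by linarith) (by nlinarith) (by linear_combination n + (X ^ 2 + Y ^ 2) / 4 * r3)
    (w := √2 * √3) (r := √2) (by nlinarith [r3]) (by nlinarith [r3]) (by positivity) basr_2.2
    basr_6.1 basr_6.2
  rw [← sub_pos] at k ⊢
  refine (mul_pos three_pos k).trans_eq ?_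
  linear_combination (-9 / 4 * y ^ 2) * r2 + 3 / 4 * √2 ^ 2 * (X * √3 * Y + X ^ 2) * r3

end Pool.Agent.Lib.MP_b7d179_gt.Gm
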