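import Pool.Agent.Lib.MP_b7d179_gt.G.Ext
import Pool.Agent.Lib.MP_b7d179_gt.G.TubeS
import Pool.Agent.Lib.MP_b7d179_gt.G.Sets2

/-! Calculus of the extended sets; the pair of pants. -/

namespace Pool.Agent.Lib.MP_b7d179_gt.Gm

open Set Metric Complex Stmt

theorem xt0_zt (p : S3) : (Z1 p.1).im * normSq (wv 0 p.1) = √3 * zt p := by
  have hw := (normSq_pos.2 (wv_ne 0 (nsq_S3 p).le)).ne'
  have e : (Z1 p.1).im * normSq (wv 0 p.1) =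
      √3 * ((uw 5 p.1).im * (wv 0 p.1).re - (uw 5 p.1).re * (wv 0 p.1).im) := by
    rw [Z1, div_im]; field_simp; simp; ring
  rw [e]
  congr 1
  simp [zt, uw, wv, lin, mv, nv]
  have a := r2
  have b := r3
  generalize √2 = s at *
  generalize √3 = t at *
  linear_combination (s * p.1.2.im / 2 + s * s * (p.1.2.re * p.1.1.im - p.1.2.im * p.1.1.re) / 4) * b +
    (p.1.2.re * p.1.1.im - p.1.2.im * p.1.1.re) / 2 * a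

theorem zt_Z1 (p : S3) : (0 < zt p ↔ 0 < (Z1 p.1).im) ∧ (zt p = 0 ↔ (Z1 p.1).im = 0) := by
  have hw := normSq_pos.2 (wv_ne 0 (nsq_S3 p).le)
  have h3 : (0 : ℝ) < √3 := by positivity
  have e := xt0_zt p
  refine ⟨?_, ?_⟩
  · rw [← mul_pos_iff_of_pos_left h3, ← e, mul_pos_iff_of_pos_right hw]
  · rw [← mul_eq_zero_iff_left h3.ne', ← e, mul_eq_zero_iff_right hw.ne']

theorem kc_Vt {a b : ℕ} {p : S3} (hp : p ∈ kc) : gg a b p ∉ Vt := fun h =>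
  (kc_int hp 0).not_ge (ext_00 p ▸ (ext_Vt a b p).1 h 0 0 : p ∈ Out 0).2.2

theorem kc_free {a b : ℕ} {p : S3} (hp : p ∈ kc) (h : gg a b p ∈ kc) : gg a b = 1 :=
  KL_one (ext_six (rad_kc 0 hp)) (ext_six (rad_kc 0 h))

theorem gg_one {a b : ℕ} : gg a b = 1 ↔ a % 3 = 0 ∧ b % 3 = 0 := by
  refine ⟨fun h => ?_, fun h => supp_gg h.1 h.2⟩
  have k : ∀ n : ℕ, ((√3 : ℝ) : ℂ) = w1 ^ n * (√3 : ℝ) → n % 3 = 0 := fun n e => by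
    rcases supp_pow n with ⟨e', -⟩ | hc
    · exact e'
    · have : w1 ^ n = 1 := mul_right_cancel₀ chart_t (e.symm.trans (one_mul _).symm)
      rw [this, Om] at hc
      norm_num at hc
  have e1 := (Z_gg a b (zp (√3 : ℝ) 0)).1
  have e2 := (Z_gg a b (zp 0 (√3 : ℝ))).2
  rw [h, Homeomorph.one_apply, (zp_val (by rw [chart_n3]; simp)).1] at e1
  rw [h, Homeomorph.one_apply, (zp_val (by rw [chart_n3]; simp)).2] at e2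
  exact ⟨k a e1, k b e2⟩

theorem xt0_Bu (p : S3) : p ∈ Bu ↔ p ∈ Bd ∧
    (p ∈ Sb 0 ∨ ∃ k, gg 0 k p ∈ Aj 0 ∧ 0 ≤ sd (nv 0) (xx (gg 0 k p).1)) := by
  refine and_congr_right fun _ => ⟨?_, ?_⟩
  · rintro ⟨k, h | h⟩ <;> rw [← ext_0k] at h
    exacts [.inl ((ext_Sb k p).1 h), .inr ⟨k, h⟩]
  · rintro (h | ⟨k, h⟩)
    exacts [⟨0, .inl h⟩, ⟨k, .inr (ext_0k k ▸ h)⟩]

theorem xt0_ss (p : S3) : sw (sw p) = p := by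
  rw [← Homeomorph.mul_apply, sw_sw, Homeomorph.one_apply]

theorem xt0_im {Q : Set S3} {p : S3} : p ∈ sw '' Q ↔ sw p ∈ Q :=
  ⟨fun ⟨q, hq, e⟩ => by rwa [← e, xt0_ss], fun h => ⟨_, h, xt0_ss p⟩⟩

theorem xt0_gg (a b : ℕ) (p : S3) : gg a b (sw p) = sw (gg b a p) :=
  ext_Z (by rw [(Z_gg a b _).1, (Z_sw _).1, (Z_sw _).1, (Z_gg b a _).2])
    (by rw [(Z_gg a b _).2, (Z_sw _).2, (Z_sw _).2, (Z_gg b a _).1])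

theorem xt0_sd (p : S3) : sd (nv 0) (xx (sw p).1) = -sd (nv 0) (xx p.1) := by
  rw [xx_sw, lens_B, lens_B]
  simp [mv]
  linear_combination (-(xx p.1).re / 4) * r3

theorem xt0_Bu' (p : S3) : sw p ∈ Bu ↔ p ∈ Bd ∧
    (p ∈ Sb 5 ∨ ∃ k, gg k 0 p ∈ Aj 0 ∧ sd (nv 0) (xx (gg k 0 p).1) ≤ 0) := by
  rw [xt0_Bu, (sym_Vt (.inl rfl) p).2.2]
  simp only [xt0_gg, xt0_sd, ext_sym (.inl rfl), neg_nonneg]
  exact and_congr_right fun _ => or_congr_left (sw_e 5 p).1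

theorem Bu_re {p : S3} (hp : p ∈ Bu) : 0 < (Z1 p.1).re := by
  obtain ⟨hb, h | ⟨k, h, -⟩⟩ := (xt0_Bu p).1 hp
  · rw [(chart_sets p).1, t0_hh] at h
    linarith [normSq_nonneg (Z1 p.1)]
  · have := (near_arg (Aj_Vt h).1 (by linarith [(ext_aj h 0 : (3 / 2 : ℝ) ≤ _)])).1
    rwa [(Z_gg 0 k p).1, pow_zero, one_mul] at this

theorem xt0_mix {p : S3} (hp : p ∈ Vt) (h : p ∈ Sb 0) {l : ℕ} (h' : gg l 0 p ∈ Aj 0) :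
    0 < sd (nv 0) (xx (gg l 0 p).1) := by
  have e : gg l 0 = 1 := supp_gg ((Vt_sph hp h).2.2 (ext_aj h' 0)) rfl
  rw [e, Homeomorph.one_apply] at h' ⊢
  have k : p ∈ kap 0 := (Aj_adj 0).2.1.le ⟨h', h⟩
  exact (lens_u (.inr ⟨h, k.1.le⟩) fun c => kc_Vt (a := 0) (b := 0) c ((ext_Vt 0 0 p).2 hp)).2.1

theorem xt0_eq {a b c d : ℕ} (h : gg a b = gg c d) : a % 3 = c % 3 ∧ b % 3 = d % 3 := by
  have : gg (2 * a + c) (2 * b + d) = 1 := by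
    rw [← gg_mul, ← h, gg_mul]; exact supp_gg (by omega) (by omega)
  have := gg_one.1 this
  omega

theorem Bu_sw : Bu ∩ sw '' Bu = range Mm := by
  ext p
  rw [mem_inter_iff, xt0_im]
  constructor
  · rintro ⟨h1, h2⟩
    obtain ⟨hb, h | ⟨k, h, s⟩⟩ := (xt0_Bu p).1 h1
    · obtain ⟨-, h' | ⟨l, h', s'⟩⟩ := (xt0_Bu' p).1 h2
      · exact absurd ((ext_00 p).symm ▸ h') (Vt_sph hb.1 h (a := 0) (b := 0)).1
      · exact absurd (xt0_mix hb.1 h h') s'.not_gt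
    · obtain ⟨hb', h' | ⟨l, h', s'⟩⟩ := (xt0_Bu _).1 h2
      · have := xt0_mix hb'.1 h' (l := k) (by rwa [xt0_gg, ext_sym (.inl rfl)])
        rw [xt0_gg, xt0_sd] at this
        linarith
      · rw [xt0_gg, ext_sym (.inl rfl), xt0_sd] at *
        have e := xt0_eq (ext_uniq (ext_aj h) (ext_aj h'))
        rw [supp_gg rfl e.2, Homeomorph.one_apply] at h s
        rw [supp_gg e.1.symm rfl, Homeomorph.one_apply] at s'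
        obtain ⟨t, e⟩ := Aj_mid h (by linarith)
        exact ⟨t, e.symm⟩
  · rintro ⟨t, rfl⟩
    obtain ⟨hA, -, -, ⟨r, -, -, hr⟩, -⟩ := Mm_spec.2 t
    have hd : sd (nv 0) (xx (gg 0 0 (Mm t)).1) = 0 := by rw [ext_00, hr, lens_mul, lens_self, mul_zero]
    exact ⟨(xt0_Bu _).2 ⟨Aj_Vt hA, .inr ⟨0, (ext_00 _).symm ▸ hA, hd.ge⟩⟩,
      (xt0_Bu' _).2 ⟨Aj_Vt hA, .inr ⟨0, (ext_00 _).symm ▸ hA, hd.le⟩⟩⟩

theorem xt0_cyc {i : Fin 6} {Q : Set S3} (h : IsClosed Q) : IsClosed (cyc (g i) Q) := by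
  rw [Set.ext (mem_cyc i Q)]
  exact (h.union ((g i).isClosedMap _ h)).union ((g i ^ 2 : S3 ≃ₜ S3).isClosedMap _ h)

theorem closed_Bu : IsClosed Bu := by
  obtain ⟨-, -, -, -, a, b, -, -, -, -, -, -, -, c⟩ := closed_sets 0
  have := cont_xx
  exact c.inter (xt0_cyc (b.union (a.inter (isClosed_le continuous_const (by unfold sd; fun_prop)))))

theorem Bd_split {p : S3} (hp : p ∈ Bd) : p ∈ cyc (g 5) Bu ∨ p ∈ cyc (g 0) (sw '' Bu) := by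
  obtain ⟨a, b, h⟩ := hp.2
  have e1 : gg 0 b (gg a 0 p) = gg a b p := by rw [ext_mul, zero_add, add_zero]
  have e2 : gg a 0 (gg 0 b p) = gg a b p := by rw [ext_mul, zero_add, add_zero]
  have l : _ → p ∈ cyc (g 5) Bu := fun k =>
    ⟨a, tubes_g5 a ▸ (xt0_Bu _).2 ⟨(ext_Bd a 0 p).2 hp, k⟩⟩
  have r : _ → p ∈ cyc (g 0) (sw '' Bu) := fun k =>
    ⟨b, tubes_g0 b ▸ xt0_im.2 ((xt0_Bu' _).2 ⟨(ext_Bd 0 b p).2 hp, k⟩)⟩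
  rcases h with (h | h) | h
  · rcases le_total 0 (sd (nv 0) (xx (gg a b p).1)) with s | s
    exacts [.inl (l (.inr ⟨b, e1.symm ▸ ⟨h, s⟩⟩)), .inr (r (.inr ⟨a, e2.symm ▸ ⟨h, s⟩⟩))]
  · exact .inl (l (.inl ((ext_Sb b _).1 (e1.symm ▸ h))))
  · refine .inr (r (.inl ?_))
    rw [(chart_sets _).2.1] at h ⊢
    rwa [(Z_gg 0 b p).2, ← (Z_gg a b p).2]

theorem closed_Pn : IsClosed Pn := by
  obtain ⟨-, -, -, -, -, b, -, -, -, -, -, -, c, -⟩ := closed_sets 0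
  have : Pn = Vt ∩ Sb 0 ∪ cyc (g 0) (Ann 0) := by rw [Vt_Sb]; rfl
  exact this ▸ (c.inter b).union (xt0_cyc (closed_Hp 0).1)

theorem xt0_top {L : S3 → ℝ} {S : S3 × ℝ → S3} (e : IsE L S) {x : S3} (hx : x ∈ Bd) :
    (x, L x) ∈ bt Bd L := ⟨hx, e.pos x hx, le_rfl⟩

/-- use `exists_E` -/
theorem Pn_sw : Pn ∩ sw '' Pn = kc := by
  obtain ⟨L, S, e⟩ := exists_E
  have k : kc ⊆ Pn := fun p hp => .inr ⟨0, kc_Ann 0 hp⟩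
  refine subset_antisymm ?_ fun p hp => ⟨k hp, xt0_im.2 (k ((sw_Kt p).2.2.2 hp))⟩
  rintro p ⟨h1, h2⟩
  obtain ⟨x, hx, rfl⟩ := e.top.ge h1
  have s := (e.sym sw (.inl rfl) _ (xt0_top e hx.1))
  have b : (sw x, L x) ∈ bt Bd L := s.1 ▸ xt0_top e ((sym_Vt (.inl rfl) x).2.2.2 hx.1)
  obtain ⟨t, rfl⟩ := Bu_sw.le ⟨hx, xt0_im.2 (e.pn _ b (s.2 ▸ xt0_im.1 h2)).1⟩
  exact (congrArg (· ∈ kc) (e.mid t)).mpr (km_val t).1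

theorem Pn_free : Free (g 5) Pn := by
  obtain ⟨L, S, e⟩ := exists_E
  intro p h1 h2
  obtain ⟨x, hx, rfl⟩ := e.top.ge h1
  have s := (e.sym (g 5) (.inr (.inr (.inr rfl))) _ (xt0_top e hx.1))
  have b : (g 5 x, L x) ∈ bt Bd L :=
    s.1 ▸ xt0_top e ((sym_Vt (.inr (.inr (.inr rfl))) x).2.2.2 hx.1)
  have hy : gg 1 0 x ∈ Bu := by
    rw [tubes_g5, pow_one]; exact (e.pn _ b (s.2 ▸ h2)).1
  obtain ⟨hb, h | ⟨k, h, -⟩⟩ := (xt0_Bu _).1 hx <;> obtain ⟨hb', h' | ⟨l, h', -⟩⟩ := (xt0_Bu _).1 hy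
  · exact absurd ((Vt_sph hb.1 h).2.1 h') (by norm_num)
  · rw [ext_mul] at h'
    exact absurd ((Vt_sph hb.1 h).2.2 (ext_aj h' 0)) (by norm_num)
  · rw [← ext_back 1 0] at h
    exact absurd ((Vt_sph hb'.1 h').2.2 (ext_aj h 0)) (by norm_num)
  · rw [ext_mul] at h'
    exact absurd (xt0_eq (ext_uniq (ext_aj h) (ext_aj h'))).1 (by norm_num)

theorem Pn_Core : Pn ⊆ Core := fun p hp => by
  rcases (ext_Pn p).1 hp with h | ⟨k, h⟩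
  exacts [.inl h.1, .inr ⟨0, k, (Six_Kt 0).2.1 h⟩]

variable {L : S3 → ℝ} {S : S3 × ℝ → S3} (e : IsE L S) {Q Q' : Set S3}
include e

theorem xt0_flat {x : S3 × ℝ} (hx : x ∈ bt Bd L) (h : S x ∈ Vt) : S x = x.1 := by
  rw [← e.s0 x.1 hx.1, ← e.out x hx h]

theorem xt_S (hQ : Q ⊆ Vt) {x : S3 × ℝ} (hx : x ∈ bt Bd L) : S x ∈ xt L S Q ↔ x.1 ∈ Q := by
  refine ⟨?_, fun h => .inr ⟨x, ⟨⟨h, hx.1⟩, hx.2⟩, rfl⟩⟩
  rintro (h | ⟨y, hy, h⟩)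
  · exact xt0_flat e hx (hQ h) ▸ h
  · exact e.emb.2 ⟨hy.1.2, hy.2⟩ hx h ▸ hy.1.1

theorem xt_in (hQ : Q ⊆ Vt) {p : S3} (hp : p ∈ Vt) : p ∈ xt L S Q ↔ p ∈ Q := by
  refine ⟨?_, .inl⟩
  rintro (h | ⟨y, hy, rfl⟩)
  · exact h
  · exact (xt0_flat e ⟨hy.1.2, hy.2⟩ hp).symm ▸ hy.1.1

theorem xt_inter (hQ : Q ⊆ Vt) (hQ' : Q' ⊆ Vt) : xt L S Q ∩ xt L S Q' = xt L S (Q ∩ Q') := by
  refine subset_antisymm ?_ ?_
  · rintro p ⟨h | ⟨y, hy, rfl⟩, h'⟩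
    · exact .inl ⟨h, (xt_in e hQ' (hQ h)).1 h'⟩
    · exact .inr ⟨y, ⟨⟨⟨hy.1.1, (xt_S e hQ' ⟨hy.1.2, hy.2⟩).1 h'⟩, hy.1.2⟩, hy.2⟩, rfl⟩
  · rintro p (h | ⟨y, hy, rfl⟩)
    · exact ⟨.inl h.1, .inl h.2⟩
    · exact ⟨.inr ⟨y, ⟨⟨hy.1.1.1, hy.1.2⟩, hy.2⟩, rfl⟩, .inr ⟨y, ⟨⟨hy.1.1.2, hy.1.2⟩, hy.2⟩, rfl⟩⟩

theorem xt_img (hQ : Q ⊆ Vt) {γ : S3 ≃ₜ S3} (h : γ = sw ∨ γ = cj ∨ γ = g 0 ∨ γ = g 5) :
    γ '' xt L S Q = xt L S (γ '' Q) := by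
  rw [xt, xt, image_union]
  congr 1
  refine subset_antisymm ?_ ?_
  · rintro _ ⟨_, ⟨y, hy, rfl⟩, rfl⟩
    have s := e.sym γ h y ⟨hy.1.2, hy.2⟩
    exact ⟨(γ y.1, y.2), ⟨⟨⟨_, hy.1.1, rfl⟩, (sym_Vt h _).2.2.2 hy.1.2⟩, hy.2.1, s.1.symm ▸ hy.2.2⟩,
      s.2⟩
  · rintro _ ⟨⟨_, t⟩, ⟨⟨⟨y, hy, rfl⟩, hb⟩, h0, h1⟩, rfl⟩
    have hb' := (sym_Vt h _).2.2.1 hb
    have l := (e.sym γ h _ (xt0_top e hb')).1
    exact ⟨_, ⟨(y, t), ⟨⟨hy, hb'⟩, h0, l ▸ h1⟩, rfl⟩, (e.sym γ h (y, t) ⟨hb', h0, l ▸ h1⟩).2.symm⟩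

theorem xt_Vt : xt L S Vt = Core := by
  rw [xt, inter_eq_right.2 fun _ h => h.1, e.img]

theorem xt_Pn (hQ : Q ⊆ Vt) : Pn ∩ xt L S Q = (fun x => S (x, L x)) '' (Bu ∩ Q) := by
  refine subset_antisymm ?_ ?_
  · rintro p ⟨h, h'⟩
    obtain ⟨x, hx, rfl⟩ := e.top.ge h
    exact ⟨x, ⟨hx, (xt_S e hQ (xt0_top e hx.1)).1 h'⟩, rfl⟩
  · rintro _ ⟨x, hx, rfl⟩
    exact ⟨e.top.le ⟨x, hx.1, rfl⟩, (xt_S e hQ (xt0_top e hx.1.1)).2 hx.2⟩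

theorem top_emb : Emb (fun x => S (x, L x)) Bd :=
  ⟨e.emb.1.comp (continuousOn_id.prodMk e.cL) fun _ hx => xt0_top e hx,
    fun _ hx _ hy h => (Prod.mk.inj (e.emb.2 (xt0_top e hx) (xt0_top e hy) h)).1⟩

end Pool.Agent.Lib.MP_b7d179_gt.Gm
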