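import Pool.Agent.Lib.MP_b7d179_gt.G.True2
import Pool.Agent.Lib.MP_b7d179_gt.G.Xt

/-! How the lenses and the tripod balls are built. -/

namespace Pool.Agent.Lib.MP_b7d179_gt.Gm

open Set Metric Complex Stmt

theorem dec_img {γ : S3 ≃ₜ S3} {F F' : Set S3} (h : ∀ p, γ p ∈ F' ↔ p ∈ F) : γ '' F = F' :=
  ext fun p => by
    obtain ⟨q, rfl⟩ := γ.surjective p
    rw [γ.injective.mem_set_image, h]

theorem rot_swPn : rot '' (sw '' Pn) = Pn := by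
  refine dec_img fun p => ?_
  obtain ⟨q, rfl⟩ := sw.surjective p
  rw [sw.injective.mem_set_image]
  exact (sym_Pn q).2.2.1

theorem dec_one (i : Fin 6) (k : ℕ) (p : S3) : (g i ^ k) (g i p) = (g i ^ (k + 1)) p := by
  rw [pow_succ]
  rfl

theorem dec_two (i : Fin 6) (k : ℕ) (p : S3) : (g i ^ (k + 2)) (g i p) = (g i ^ k) p := by
  rw [dec_one, ← sym_p3 i k 1]

theorem dec_cyc (i : Fin 6) (Q : Set S3) (p : S3) : g i p ∈ cyc (g i) Q ↔ p ∈ cyc (g i) Q :=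
  ⟨fun ⟨k, h⟩ => ⟨k + 1, by rwa [dec_one] at h⟩, fun ⟨k, h⟩ => ⟨k + 2, by rwa [dec_two]⟩⟩

theorem dec_free {i : Fin 6} {Q : Set S3} (h : Free (g i) Q) {p : S3} (hp : p ∈ Q) :
    g i p ∉ Q ∧ (g i ^ 2 : S3 ≃ₜ S3) p ∉ Q := by
  refine ⟨h p hp, fun k => h _ k ?_⟩
  rwa [show g i ((g i ^ 2 : S3 ≃ₜ S3) p) = (g i ^ 3) p from by rw [pow_succ' _ 2]; rfl, g_cube]

theorem dec_rk (i : Fin 6) (k : ℕ) (p : S3) : rot ((g i ^ k) p) = (g (i + 1) ^ k) (rot p) := by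
  induction k with
  | zero => rfl
  | succ k ih =>
    rw [pow_succ', pow_succ']
    change rot (g i ((g i ^ k) p)) = g (i + 1) ((g (i + 1) ^ k) (rot p))
    rw [hull_rot, ih]

theorem dec_mod (i : Fin 6) {b : ℕ} (hb : b % 3 ≠ 0) : g i ^ b = g i ∨ g i ^ b = g i ^ 2 := by
  rw [pow_eq_pow_mod _ (g_cube i)]
  obtain h | h : b % 3 = 1 ∨ b % 3 = 2 := by omega
  · exact .inl (by rw [h, pow_one])
  · exact .inr (by rw [h])

theorem dec_back (i : Fin 6) (a : ℕ) {Q : Set S3} {x : S3} (hx : x ∈ Q) :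
    (g i ^ a) x ∈ cyc (g i) Q :=
  (t2_pow (dec_cyc i Q) a x).2 ⟨0, hx⟩

/-- a tripod ball `Y` with the lens `A`, the legs `L` and the disc `h` -/
structure dec_Tri (i : Fin 6) (Y A L h : Set S3) : Prop where
  mem : ∀ p, p ∈ Y ↔ p ∈ A ∪ L ∧ ∀ k : ℕ, (g i ^ k) p ∈ L → (g i ^ k) p ∈ h
  inv : ∀ p, g i p ∈ A ∪ L ↔ p ∈ A ∪ L
  al : A ∩ L = h
  fr : Free (g i) L

namespace dec_Tri
variable {i : Fin 6} {Y A L h : Set S3} (t : dec_Tri i Y A L h)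
include t

theorem all : A ∪ L = Y ∪ cyc (g i) L := by
  refine Subset.antisymm (fun p hp => ?_) ?_
  · by_cases c : p ∈ cyc (g i) L
    · exact .inr c
    · exact .inl ((t.mem p).2 ⟨hp, fun k hk => (c ⟨k, hk⟩).elim⟩)
  · rintro p (hp | ⟨k, hk⟩)
    · exact ((t.mem p).1 hp).1
    · exact (t2_pow t.inv k p).1 (.inr hk)

theorem yinv (p : S3) : g i p ∈ Y ↔ p ∈ Y := by
  rw [t.mem, t.mem, t.inv]
  refine and_congr_right fun _ => ⟨fun a k => ?_, fun a k => ?_⟩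
  · rw [← dec_two]
    exact a _
  · rw [dec_one]
    exact a _

theorem leg : Y ∩ L = h := by
  refine Subset.antisymm (fun p hp => ((t.mem p).1 hp.1).2 0 hp.2) fun p hp => ?_
  have l := (t.al.ge hp).2
  refine ⟨(t.mem p).2 ⟨.inr l, fun k hk => ?_⟩, l⟩
  rw [t.fr.pow l hk]
  exact hp

theorem sub : Y ⊆ A := fun p hp =>
  ((t.mem p).1 hp).1.elim id fun l => (t.al.ge (t.leg.le ⟨hp, l⟩)).1

theorem lens : A = Y ∪ g i '' L ∪ (g i ^ 2 : S3 ≃ₜ S3) '' L := by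
  refine Subset.antisymm (fun p hp => ?_) ?_
  · rcases t.all.le (.inl hp) with a | a
    · exact .inl (.inl a)
    · rcases (mem_cyc i L p).1 a with (a | a) | a
      · exact .inl (.inl (t.leg.ge (t.al.le ⟨hp, a⟩)).1)
      · exact .inl (.inr a)
      · exact .inr a
  · rintro p ((hp | ⟨q, hq, rfl⟩) | ⟨q, hq, rfl⟩)
    · exact t.sub hp
    · exact ((t.inv q).2 (.inr hq)).resolve_right (dec_free t.fr hq).1
    · exact ((t2_pow t.inv 2 q).2 (.inr hq)).resolve_right (dec_free t.fr hq).2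

omit t in
theorem back {A' L' h' : Set S3} (t : dec_Tri (i + 1) Y A' L' h') (a : rot '' A = A')
    (l : rot '' L = L') (e : rot '' h = h') : dec_Tri i (rot.symm '' Y) A L h := by
  have u : ∀ p, rot p ∈ A' ∪ L' ↔ p ∈ A ∪ L := fun p => or_congr (t2_img a p) (t2_img l p)
  refine ⟨fun p => ?_, fun p => ?_, ext fun p => ?_, fun p hp k => ?_⟩
  · rw [Homeomorph.image_symm, mem_preimage, t.mem, u]
    refine and_congr_right fun _ => forall_congr' fun k => ?_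
    rw [← dec_rk, t2_img l, t2_img e]
  · rw [← u, ← u, hull_rot, t.inv]
  · rw [← t2_img e, ← t.al, mem_inter_iff, mem_inter_iff, t2_img a, t2_img l]
  · rw [← t2_img l] at hp k
    rw [hull_rot] at k
    exact t.fr _ hp k

/-- the tripod ball at the vertex `0` from the core and the pieces behind the other wall -/
theorem core {j : Fin 6} {C F V W : Set S3}
    (hc : ∀ (k l : ℕ) p, (g i ^ k) ((g j ^ l) p) = (g j ^ l) ((g i ^ k) p))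
    (c1 : ∀ p, g i p ∈ C ↔ p ∈ C) (c2 : C ⊆ A) (f1 : L ⊆ F) (f2 : ∀ p, g j p ∈ F ↔ p ∈ F)
    (v1 : Free (g j) V) (v2 : ∀ p, p ∈ A ∪ L ∨ p ∈ V) (w1 : ∀ p, g i p ∈ W ↔ p ∈ W) (w2 : W ⊆ V)
    (cf : C ∩ F ⊆ h) (wf : ∀ q ∈ W ∩ F, g j q ∈ h ∧ (g j ^ 2 : S3 ≃ₜ S3) q ∈ h)
    (h1 : h ⊆ C ∪ g j '' W ∪ (g j ^ 2 : S3 ≃ₜ S3) '' W) (af : A ∩ F ⊆ h)
    (av : A ∩ V ⊆ C ∪ cyc (g i) F) (vw : V ⊆ W ∪ cyc (g i) F)
    (cov : ∀ p, p ∈ C ∨ p ∈ cyc (g i) F ∨ p ∈ cyc (g j) V) :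
    Y = C ∪ g j '' W ∪ (g j ^ 2 : S3 ≃ₜ S3) '' W := by
  have i1 : ∀ (l : ℕ) p, g i p ∈ (g j ^ l : S3 ≃ₜ S3) '' W ↔ p ∈ (g j ^ l : S3 ≃ₜ S3) '' W :=
    fun l p => by
      obtain ⟨q, rfl⟩ := (g j ^ l : S3 ≃ₜ S3).surjective p
      have e := hc 1 l q
      rw [pow_one] at e
      rw [e, (g j ^ l : S3 ≃ₜ S3).injective.mem_set_image,
        (g j ^ l : S3 ≃ₜ S3).injective.mem_set_image, w1]
  have i2 : ∀ p, g i p ∈ C ∪ g j '' W ∪ (g j ^ 2 : S3 ≃ₜ S3) '' W ↔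
      p ∈ C ∪ g j '' W ∪ (g j ^ 2 : S3 ≃ₜ S3) '' W := fun p =>
    or_congr (or_congr (c1 p) (by simpa only [pow_one] using i1 1 p)) (i1 2 p)
  have key : ∀ p ∈ Y, p ∈ cyc (g i) F → p ∈ C ∪ g j '' W ∪ (g j ^ 2 : S3 ≃ₜ S3) '' W :=
    fun p hp ⟨k, hk⟩ => (t2_pow i2 k p).1 (h1 (af ⟨t.sub ((t2_pow t.yinv k p).2 hp), hk⟩))
  have up : ∀ (l : ℕ) q, q ∈ cyc (g i) F → (g j ^ l) q ∈ cyc (g i) F := fun l q ⟨k, hk⟩ =>
    ⟨k, by rw [hc]; exact (t2_pow f2 l _).2 hk⟩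
  have inn : ∀ l : ℕ, (∀ q ∈ V, (g j ^ l) q ∉ V) → (∀ q ∈ W ∩ F, (g j ^ l) q ∈ h) →
      ∀ q ∈ W, (g j ^ l) q ∈ Y := fun l a b q hq =>
    (t.mem _).2 ⟨(v2 _).resolve_right (a q (w2 hq)), fun k hk => by
      rw [hc] at hk ⊢
      exact b _ ⟨(t2_pow w1 k q).2 hq, (t2_pow f2 l _).1 (f1 hk)⟩⟩
  refine Subset.antisymm (fun p hp => ?_) ?_
  · rcases cov p with a | a | a
    · exact .inl (.inl a)
    · exact key p hp a
    · rcases (mem_cyc j V p).1 a with (a | ⟨q, hq, rfl⟩) | ⟨q, hq, rfl⟩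
      · exact (av ⟨t.sub hp, a⟩).elim (fun b => .inl (.inl b)) (key p hp)
      · exact (vw hq).elim (fun b => .inl (.inr ⟨q, b, rfl⟩)) fun b => key _ hp (by
          simpa only [pow_one] using up 1 q b)
      · exact (vw hq).elim (fun b => .inr ⟨q, b, rfl⟩) fun b => key _ hp (up 2 q b)
  · rintro p ((hp | ⟨q, hq, rfl⟩) | ⟨q, hq, rfl⟩)
    · exact (t.mem p).2 ⟨.inl (c2 hp), fun k hk => cf ⟨(t2_pow c1 k p).2 hp, f1 hk⟩⟩
    · simpa only [pow_one] using inn 1 (fun q a => by rw [pow_one]; exact v1 q a)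
        (fun q a => by rw [pow_one]; exact (wf q a).1) q hq
    · exact inn 2 (fun q a => (dec_free v1 a).2) (fun q a => (wf q a).2) q hq

/-- the part of the far ball without the last lens meets that lens in a disc -/
theorem meet {P Q : Set S3} (e : L = P ∪ Q) (hP : h ⊆ P) {q : S3} (hq : q ∈ Y ∪ cyc (g i) P)
    (hQ : q ∈ Q) : q ∈ P ∩ Q := by
  have l : q ∈ L := e.ge (.inr hQ)
  rcases hq with a | ⟨k, a⟩
  · exact ⟨hP (t.leg.le ⟨a, l⟩), hQ⟩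
  · rw [t.fr.pow l (e.ge (.inl a))] at a
    exact ⟨a, hQ⟩

end dec_Tri

namespace Dat
variable (D : Dat)

theorem dec_kH (e : Fin 6) : kc ⊆ D.H e := fun _ h =>
  ((D.bk.hh e (e + 1) (by revert e; decide)).ge h).1

theorem dec_kX (j : Fin 6) : kc ⊆ D.X j := fun _ h => ((D.bk.adj j).ge (D.dec_kH j h)).1

theorem dec_f {j k : Fin 6} {p : S3} (a : p ∈ D.X j) (b : p ∈ D.X k)
    (h : k ≠ j ∧ k ≠ j + 1 ∧ k ≠ j - 1) : p ∈ kc :=
  (D.bk.far j k h.1 h.2.1 h.2.2).le ⟨a, b⟩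

theorem dec_tf : dec_Tri 0 D.Yf (D.X 1) (D.X 2 ∪ D.X 3) (D.H 1) := by
  refine ⟨fun p => ?_, fun p => ?_, Subset.antisymm (fun p h => ?_) fun p h => ?_,
    (free_t D.bk D.wl).2.2.1⟩
  · rw [← union_assoc]
    rfl
  · rw [← union_assoc]
    exact t2_img D.wl.farI p
  · exact h.2.elim (fun a => (D.bk.adj 1).le ⟨h.1, a⟩) fun a => D.dec_kH 1 (D.dec_f h.1 a (by decide))
  · exact ⟨((D.bk.adj 1).ge h).1, .inl ((D.bk.adj 1).ge h).2⟩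

theorem dec_te : dec_Tri 0 D.Ye (D.X 0) (D.X 5 ∪ D.X 4) (D.H 5) := by
  refine ⟨fun p => ?_, fun p => ?_, Subset.antisymm (fun p h => ?_) fun p h => ?_,
    (free_t D.bk D.wl).2.2.2⟩
  · rw [← union_assoc]
    rfl
  · rw [← union_assoc]
    exact t2_img D.wl.nearI p
  · exact h.2.elim (fun a => (D.bk.adj 5).le ⟨a, h.1⟩) fun a => D.dec_kH 5 (D.dec_f h.1 a (by decide))
  · exact ⟨((D.bk.adj 5).ge h).2, .inl ((D.bk.adj 5).ge h).1⟩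

theorem dec_tv : dec_Tri 5 D.Yv (D.X 5) (D.X 4 ∪ D.X 3) (D.H 4) :=
  dec_Tri.back (i := 5) D.dec_te (D.bk.rotX 5)
    (by rw [image_union, D.bk.rotX, D.bk.rotX]; rfl) (D.bk.rotH 4)

theorem dec_ts : dec_Tri 5 D.Ys (D.X 0) (D.X 1 ∪ D.X 2) (D.H 0) :=
  dec_Tri.back (i := 5) D.dec_tf (D.bk.rotX 0)
    (by rw [image_union, D.bk.rotX, D.bk.rotX]; rfl) (D.bk.rotH 0)

theorem far_eq : Far D.X = D.Yf ∪ cyc (g 0) (D.X 2 ∪ D.X 3) := by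
  rw [← D.dec_tf.all, Far, union_assoc]

theorem farV_eq : FarV D.X = D.Yv ∪ cyc (g 5) (D.X 4 ∪ D.X 3) := by
  rw [← D.dec_tv.all, FarV, union_assoc]

theorem far_inter : Far D.X ∩ FarV D.X = D.X 3 := by
  refine Subset.antisymm ?_ fun p h => ⟨.inr h, .inr h⟩
  rintro p ⟨(a | a) | a, (b | b) | b⟩
  exacts [D.dec_kX 3 (D.dec_f a b (by decide)), D.dec_kX 3 (D.dec_f a b (by decide)), b,
    D.dec_kX 3 (D.dec_f a b (by decide)),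
    D.dec_kX 3 (D.dec_f a b (by decide)), b, a, a, a]

theorem Y_inv : g 0 '' D.Yf = D.Yf ∧ g 5 '' D.Yv = D.Yv :=
  ⟨dec_img D.dec_tf.yinv, dec_img D.dec_tv.yinv⟩

theorem Y_core : D.Yf ∩ Core = Pn ∧ D.Yv ∩ Core = sw '' Pn := by
  obtain ⟨s1, -, s2, s3⟩ := Pn_sub D.bk D.wl
  have n := t2_pow (P := (· ∈ Pn)) fun q => (sym_Pn q).1
  refine ⟨Subset.antisymm (fun p h => (core_far D.bk D.wl).le ⟨h.2, h.1.1⟩) fun p h => ?_,
    Subset.antisymm (fun p h => (core_farV D.bk D.wl).le ⟨h.2, D.farV_eq.ge (.inl h.1)⟩)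
      fun p h => ⟨?_, ((core_farV D.bk D.wl).ge h).1⟩⟩
  · exact ⟨⟨((core_far D.bk D.wl).ge h).2, fun k a => D.dec_kH 1 (s2.le ⟨(n k p).2 h, a⟩)⟩,
      t2_core h⟩
  · have r := (t2_img rot_swPn p).2 h
    exact ⟨rot p, ⟨.inl (.inl ((D.bk.adj 0).ge (s1 r)).1),
      fun k a => D.dec_kH 5 (s3.le ⟨(n k _).2 r, a⟩)⟩, rot.symm_apply_apply p⟩

theorem Y_leg : D.Yf ∩ (D.X 2 ∪ D.X 3) = D.H 1 ∧ D.Yv ∩ (D.X 4 ∪ D.X 3) = D.H 4 :=
  ⟨D.dec_tf.leg, D.dec_tv.leg⟩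

theorem H5_eq : D.H 5 = sw '' Pn ∪ g 5 '' D.H 2 ∪ (g 5 ^ 2 : S3 ≃ₜ S3) '' D.H 2 := by
  ext p
  rw [← t2_img (D.bk.rotH 5), union_assoc, mem_union, ← t2_img rot_swPn,
    ← sym_two (rot_g 5) (t2_img (D.bk.rotH 2)), ← mem_union, ← union_assoc]
  exact Set.ext_iff.1 D.wl.dec _

theorem ys_eq : D.Ys = Core ∪ g 0 '' (D.Yv ∪ cyc (g 5) (D.X 4)) ∪
    (g 0 ^ 2 : S3 ≃ₜ S3) '' (D.Yv ∪ cyc (g 5) (D.X 4)) := by
  have m : D.H 3 ⊆ D.Yv ∪ cyc (g 5) (D.X 4) := fun p h => .inr ⟨0, ((D.bk.adj 3).ge h).2⟩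
  have s : D.Yv ∪ cyc (g 5) (D.X 4) ⊆ FarV D.X := fun p h =>
    D.farV_eq.ge (h.imp_right fun ⟨k, a⟩ => ⟨k, .inl a⟩)
  refine D.dec_ts.core (F := Far D.X) (V := FarV D.X)
    (fun k l p => (t2_gg k l p).1.symm.trans (t2_gg k l p).2)
    (fun p => (sym_Vt (by simp) p).2.1) (core_sub D.bk D.wl) subset_union_left
    (t2_img D.wl.farI) (free_t D.bk D.wl).2.1 (fun p => ?_)
    (fun p => or_congr (D.dec_tv.yinv p) (dec_cyc 5 _ p)) s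
    (fun p h => t2_H D.wl ((core_far D.bk D.wl).le h)) (fun q h => ?_) (fun p h => ?_)
    (fun p h => ?_) (fun p h => ?_) (fun p h => ?_) (core_cov D.bk D.wl)
  · obtain ⟨j, hj⟩ := D.bk.cov p
    fin_cases j
    exacts [.inl (.inl hj), .inl (.inr (.inl hj)), .inl (.inr (.inr hj)), .inr (.inr hj),
      .inr (.inl (.inr hj)), .inr (.inl (.inl hj))]
  · have a := D.dec_tv.meet rfl (fun p h => ((D.bk.adj 4).ge h).1) h.1
      (D.far_inter.le ⟨h.2, s h.1⟩)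
    have b := (D.bk.adj 3).le ⟨a.2, a.1⟩
    exact ⟨D.wl.dec.ge (.inl (.inr ⟨q, b, rfl⟩)), D.wl.dec.ge (.inr ⟨q, b, rfl⟩)⟩
  · exact (D.wl.dec.le h).imp (Or.imp (t2_core ·) (image_mono m ·)) (image_mono m ·)
  · exact h.2.elim (fun a => D.dec_ts.al.le ⟨h.1, a⟩) fun a => D.dec_kH 0 (D.dec_f h.1 a (by decide))
  · have a : p ∈ D.H 5 :=
      h.2.elim (fun a => D.dec_te.al.le ⟨h.1, a⟩) fun a => D.dec_kH 5 (D.dec_f h.1 a (by decide))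
    have n : D.H 2 ⊆ Far D.X := fun p h => .inr ((D.bk.adj 2).ge h).2
    rcases D.H5_eq.le a with (a | a) | a
    · exact .inl ((core_farV D.bk D.wl).ge a).1
    · exact .inr ((mem_cyc 5 _ p).2 (.inl (.inr (image_mono n a))))
    · exact .inr ((mem_cyc 5 _ p).2 (.inr (image_mono n a)))
  · rcases D.farV_eq.le h with a | ⟨k, a | a⟩
    exacts [.inl (.inl a), .inl (.inr ⟨k, a⟩), .inr ⟨k, .inr a⟩]

theorem ye_eq : D.Ye = Core ∪ g 5 '' (D.Yf ∪ cyc (g 0) (D.X 2)) ∪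
    (g 5 ^ 2 : S3 ≃ₜ S3) '' (D.Yf ∪ cyc (g 0) (D.X 2)) := by
  have m : D.H 2 ⊆ D.Yf ∪ cyc (g 0) (D.X 2) := fun p h => .inr ⟨0, ((D.bk.adj 2).ge h).1⟩
  have s : D.Yf ∪ cyc (g 0) (D.X 2) ⊆ Far D.X := fun p h =>
    D.far_eq.ge (h.imp_right fun ⟨k, a⟩ => ⟨k, .inl a⟩)
  refine D.dec_te.core (F := FarV D.X) (V := Far D.X)
    (fun k l p => (t2_gg l k p).2.symm.trans (t2_gg l k p).1)
    (fun p => (sym_Vt (by simp) p).2.1) (core_sub D.bk D.wl) subset_union_left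
    (t2_img (farV_rot D.bk D.wl).2) (free_t D.bk D.wl).1 (fun p => ?_)
    (fun p => or_congr (D.dec_tf.yinv p) (dec_cyc 0 _ p)) s
    (fun p h => D.H5_eq.ge (.inl (.inl ((core_farV D.bk D.wl).le h)))) (fun q h => ?_)
    (fun p h => ?_) (fun p h => ?_) (fun p h => ?_) (fun p h => ?_)
    fun p => (core_cov D.bk D.wl p).imp_right Or.symm
  · obtain ⟨j, hj⟩ := D.bk.cov p
    fin_cases j
    exacts [.inl (.inl hj), .inr (.inl (.inl hj)), .inr (.inl (.inr hj)), .inr (.inr hj),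
      .inl (.inr (.inr hj)), .inl (.inr (.inl hj))]
  · have b := (D.bk.adj 2).le (D.dec_tf.meet rfl (fun p h => ((D.bk.adj 1).ge h).2) h.1
      (D.far_inter.le ⟨s h.1, h.2⟩))
    exact ⟨D.H5_eq.ge (.inl (.inr ⟨q, b, rfl⟩)), D.H5_eq.ge (.inr ⟨q, b, rfl⟩)⟩
  · exact (D.H5_eq.le h).imp (Or.imp (fun a => ((core_farV D.bk D.wl).ge a).1) (image_mono m ·))
      (image_mono m ·)
  · exact h.2.elim (fun a => D.dec_te.al.le ⟨h.1, a⟩) fun a => D.dec_kH 5 (D.dec_f h.1 a (by decide))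
  · have a : p ∈ D.H 0 :=
      h.2.elim (fun a => D.dec_ts.al.le ⟨h.1, a⟩) fun a => D.dec_kH 0 (D.dec_f h.1 a (by decide))
    have n : D.H 3 ⊆ FarV D.X := fun p h => .inr ((D.bk.adj 3).ge h).1
    rcases D.wl.dec.le a with (a | a) | a
    · exact .inl (t2_core a)
    · exact .inr ((mem_cyc 0 _ p).2 (.inl (.inr (image_mono n a))))
    · exact .inr ((mem_cyc 0 _ p).2 (.inr (image_mono n a)))
  · rcases D.far_eq.le h with a | ⟨k, a | a⟩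
    exacts [.inl (.inl a), .inl (.inr ⟨k, a⟩), .inr ⟨k, .inr a⟩]

theorem dec : D.Dec := by
  have s : ∀ b : ℕ, b % 3 ≠ 0 → ∀ q ∈ D.Yv ∪ cyc (g 5) (D.X 4), (g 0 ^ b) q ∈ D.Ys :=
    fun b hb q hq => by
      rcases dec_mod 0 hb with e | e <;> rw [e]
      exacts [D.ys_eq.ge (.inl (.inr ⟨q, hq, rfl⟩)), D.ys_eq.ge (.inr ⟨q, hq, rfl⟩)]
  have e : ∀ a : ℕ, a % 3 ≠ 0 → ∀ q ∈ D.Yf ∪ cyc (g 0) (D.X 2), (g 5 ^ a) q ∈ D.Ye :=
    fun b hb q hq => by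
      rcases dec_mod 5 hb with e | e <;> rw [e]
      exacts [D.ye_eq.ge (.inl (.inr ⟨q, hq, rfl⟩)), D.ye_eq.ge (.inr ⟨q, hq, rfl⟩)]
  refine ⟨D.dec_tf.lens, D.dec_tv.lens, D.dec_ts.lens, D.dec_te.lens, fun b hb => ⟨?_, fun a => ?_⟩,
    fun a ha => ⟨?_, fun b => ?_⟩⟩ <;> rintro _ ⟨x, hx, rfl⟩
  · exact s b hb x (.inl hx)
  · rw [(t2_gg a b x).2]
    exact s b hb _ (.inr (dec_back 5 a hx))
  · exact e a ha x (.inl hx)
  · exact e a ha _ (.inr (dec_back 0 b hx))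

end Dat

end Pool.Agent.Lib.MP_b7d179_gt.Gm
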