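import Pool.Agent.Lib.MP_b7d179_gt.Stmt
import Pool.Agent.Lib.MP_b7d179_gt.U.Defs

/-! Coordinates on the sphere, the generators as homeomorphisms. -/

namespace Pool.Agent.Lib.MP_b7d179_gt.Gm

open Set Metric Complex Stmt

noncomputable section

abbrev E : Type := ℂ × ℂ

def nsq (p : E) : ℝ := normSq p.1 + normSq p.2

lemma nsq_iff (p : E) : ‖p.1‖ ^ 2 + ‖p.2‖ ^ 2 = 1 ↔ nsq p = 1 := by
  rw [nsq, normSq_eq_norm_sq, normSq_eq_norm_sq]

lemma nsq_S3 (p : S3) : nsq p.1 = 1 := (nsq_iff _).1 p.2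

lemma cont_nsq : Continuous nsq := by unfold nsq; fun_prop

open Classical in
/-- a point of the sphere as a term of `S3` -/
def pt (p : E) : S3 := if h : nsq p = 1 then ⟨p, (nsq_iff p).2 h⟩ else ⟨(1, 0), by simp⟩

lemma pt_val {p : E} (h : nsq p = 1) : (pt p).1 = p := by rw [pt, dif_pos h]

lemma pt_coe (p : S3) : pt p.1 = p := Subtype.ext (pt_val (nsq_S3 p))

lemma contOn_pt {X : Type*} [TopologicalSpace X] {f : X → E} {A : Set X} (hf : ContinuousOn f A)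
    (h : ∀ x ∈ A, nsq (f x) = 1) : ContinuousOn (fun x => pt (f x)) A := by
  rw [Topology.IsInducing.subtypeVal.continuousOn_iff]
  exact hf.congr fun x hx => pt_val (h x hx)

instance : CompactSpace S3 := by
  refine isCompact_iff_compactSpace.1 (Metric.isCompact_of_isClosed_isBounded
    (isClosed_eq (by fun_prop) continuous_const) ((Metric.isBounded_closedBall (x := (0 : E))
      (r := 1)).subset fun p hp => ?_))
  have hp' : ‖p.1‖ ^ 2 + ‖p.2‖ ^ 2 = 1 := hp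
  rw [mem_closedBall_zero_iff, Prod.norm_def, max_le_iff]
  constructor <;> nlinarith [norm_nonneg p.1, norm_nonneg p.2]

/-- a homeomorphism of the sphere from two maps of the ambient space -/
def mkH (f f' : E → E) (m : ∀ p, nsq p = 1 → nsq (f p) = 1) (m' : ∀ p, nsq p = 1 → nsq (f' p) = 1)
    (c : ContinuousOn f {p | nsq p = 1}) (c' : ContinuousOn f' {p | nsq p = 1})
    (l : ∀ p, nsq p = 1 → f' (f p) = p) (r : ∀ p, nsq p = 1 → f (f' p) = p) : S3 ≃ₜ S3 where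
  toFun p := ⟨f p.1, (nsq_iff _).2 (m _ (nsq_S3 p))⟩
  invFun p := ⟨f' p.1, (nsq_iff _).2 (m' _ (nsq_S3 p))⟩
  left_inv p := Subtype.ext (l _ (nsq_S3 p))
  right_inv p := Subtype.ext (r _ (nsq_S3 p))
  continuous_toFun := (c.comp_continuous continuous_subtype_val nsq_S3).subtype_mk _
  continuous_invFun := (c'.comp_continuous continuous_subtype_val nsq_S3).subtype_mk _

/-- the cube root of unity -/
def w1 : ℂ := ⟨-1 / 2, √3 / 2⟩

/-- directions of the six vertices (angles `60 j - 30`) -/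
def nv : Fin 6 → ℂ :=
  ![⟨√3 / 2, -1 / 2⟩, ⟨√3 / 2, 1 / 2⟩, ⟨0, 1⟩, ⟨-√3 / 2, 1 / 2⟩, ⟨-√3 / 2, -1 / 2⟩, ⟨0, -1⟩]

/-- normals of the six walls (angles `60 i`); wall `i` joins the vertices `i` and `i + 1` -/
def mv : Fin 6 → ℂ :=
  ![⟨1, 0⟩, ⟨1 / 2, √3 / 2⟩, ⟨-1 / 2, √3 / 2⟩, ⟨-1, 0⟩, ⟨-1 / 2, -√3 / 2⟩, ⟨1 / 2, -√3 / 2⟩]

def lin (n : ℂ) (p : E) : ℂ := n.re * p.1 + n.im * p.2
def wv (j : Fin 6) (p : E) : ℂ := (√3 : ℝ) - (√2 : ℝ) * lin (nv j) p
def uw (i : Fin 6) (p : E) : ℂ := 1 - (√2 : ℝ) * lin (mv i) p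
def av (j : Fin 6) (p : E) : ℝ := normSq (wv j p)
def jj (c : ℂ) (i : Fin 6) (p : E) : ℂ := 1 + (1 - c) * uw i p

/-- the reflection in wall `i` with eigenvalue `c`, in the ball model -/
def gE (c : ℂ) (i : Fin 6) (p : E) : E :=
  ((p.1 + (1 - c) * (√2 : ℝ) * uw i p * (mv i).re) / jj c i p,
    (p.2 + (1 - c) * (√2 : ℝ) * uw i p * (mv i).im) / jj c i p)

lemma s2 : ((√2 : ℝ) : ℂ) * (√2 : ℝ) = 2 := by
  rw [← ofReal_mul, Real.mul_self_sqrt (by norm_num)]; simp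
lemma s3 : ((√3 : ℝ) : ℂ) * (√3 : ℝ) = 3 := by
  rw [← ofReal_mul, Real.mul_self_sqrt (by norm_num)]; simp
lemma r2 : √2 * √2 = (2 : ℝ) := Real.mul_self_sqrt (by norm_num)
lemma r3 : √3 * √3 = (3 : ℝ) := Real.mul_self_sqrt (by norm_num)

lemma mv_sq (i : Fin 6) : (mv i).re ^ 2 + (mv i).im ^ 2 = 1 := by
  fin_cases i <;> simp [mv] <;> nlinarith [r3]
lemma nv_sq (i : Fin 6) : (nv i).re ^ 2 + (nv i).im ^ 2 = 1 := by
  fin_cases i <;> simp [nv] <;> nlinarith [r3]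
lemma w1_nsq : normSq w1 = 1 := by simp [w1, normSq_apply]; nlinarith [r3]
lemma w1_cube : w1 ^ 2 + w1 + 1 = 0 := by
  apply Complex.ext <;> simp [w1, pow_two] <;> nlinarith [r3]
lemma w1_three : w1 ^ 3 = 1 := by linear_combination (w1 - 1) * w1_cube

lemma form_inv {c : ℂ} (hc : normSq c = 1) (i : Fin 6) (p : E) :
    normSq (p.1 + (1 - c) * (√2 : ℝ) * uw i p * (mv i).re) +
      normSq (p.2 + (1 - c) * (√2 : ℝ) * uw i p * (mv i).im) - normSq (jj c i p) = nsq p - 1 := by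
  have hm := mv_sq i
  have hu : (uw i p).re = 1 - √2 * ((mv i).re * p.1.re + (mv i).im * p.2.re) := by simp [uw, lin]
  have hv : (uw i p).im = -(√2 * ((mv i).re * p.1.im + (mv i).im * p.2.im)) := by simp [uw, lin]
  rw [normSq_apply] at hc
  simp only [jj, nsq, normSq_apply, add_re, add_im, mul_re, mul_im, sub_re, sub_im, one_re, one_im,
    ofReal_re, ofReal_im]
  generalize (uw i p).re = u at *
  generalize (uw i p).im = v at *
  generalize (mv i).re = m at *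
  generalize (mv i).im = n at *
  have h2 := r2
  generalize √2 = s at *
  linear_combination (((1 - c.re) * u + c.im * v) ^ 2 + ((1 - c.re) * v - c.im * u) ^ 2) *
      (s * s * hm + h2) + 2 * ((1 - c.re) * u + c.im * v) * hu +
      2 * ((1 - c.re) * v - c.im * u) * hv + (u ^ 2 + v ^ 2) * hc

lemma uw_lift (c : ℂ) (i : Fin 6) (p : E) :
    jj c i p - (√2 : ℝ) * ((mv i).re * (p.1 + (1 - c) * (√2 : ℝ) * uw i p * (mv i).re) +
      (mv i).im * (p.2 + (1 - c) * (√2 : ℝ) * uw i p * (mv i).im)) = c * uw i p := by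
  have hm : ((mv i).re : ℂ) ^ 2 + ((mv i).im : ℂ) ^ 2 = 1 := by exact_mod_cast mv_sq i
  have hu : uw i p = 1 - (√2 : ℝ) * ((mv i).re * p.1 + (mv i).im * p.2) := rfl
  rw [jj]
  linear_combination (-(1 - c) * uw i p) * (((√2 : ℝ) : ℂ) * (√2 : ℝ) * hm + s2) - hu

lemma jj_ne {c : ℂ} (hc : normSq c = 1) (i : Fin 6) {p : E} (hp : nsq p ≤ 1) : jj c i p ≠ 0 := by
  intro h
  have h1 := form_inv hc i p
  have h2 := uw_lift c i p
  rw [h, normSq_zero] at h1
  have n1 := normSq_nonneg (p.1 + (1 - c) * (√2 : ℝ) * uw i p * (mv i).re)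
  have n2 := normSq_nonneg (p.2 + (1 - c) * (√2 : ℝ) * uw i p * (mv i).im)
  rw [h, normSq_eq_zero.1 (le_antisymm (by linarith) n1),
    normSq_eq_zero.1 (le_antisymm (by linarith) n2)] at h2
  have hc0 : c ≠ 0 := fun e => by simp [e] at hc
  have : uw i p = 0 := by simpa [hc0] using h2
  simp [jj, this] at h

lemma nsq_gE {c : ℂ} (hc : normSq c = 1) (i : Fin 6) {p : E} (hp : nsq p ≤ 1) :
    1 - nsq (gE c i p) = (1 - nsq p) / normSq (jj c i p) := by
  have h := form_inv hc i p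
  have hj := normSq_pos.2 (jj_ne hc i hp)
  simp only [nsq, gE, normSq_div] at h ⊢
  field_simp
  linarith

lemma uw_gE {c : ℂ} (hc : normSq c = 1) (i : Fin 6) {p : E} (hp : nsq p ≤ 1) :
    uw i (gE c i p) = c * uw i p / jj c i p := by
  have hj := jj_ne hc i hp
  rw [← uw_lift c i p]
  simp only [uw, lin, gE]
  field_simp

lemma gE_gE {c d : ℂ} (hc : normSq c = 1) (hd : normSq d = 1) (i : Fin 6) {p : E}
    (hp : nsq p ≤ 1) : gE d i (gE c i p) = gE (d * c) i p := by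
  have hj := jj_ne hc i hp
  have hj' := jj_ne (c := d * c) (by rw [normSq_mul, hc, hd, one_mul]) i hp
  have e : jj d i (gE c i p) = jj (d * c) i p / jj c i p := by
    rw [jj, uw_gE hc i hp]; field_simp; simp only [jj]; ring
  rw [gE, e, uw_gE hc i hp]
  simp only [gE]
  refine Prod.ext ?_ ?_ <;> simp only <;> field_simp <;> ring

lemma gE_one (i : Fin 6) (p : E) : gE 1 i p = p := by simp [gE, jj]

lemma cont_uw (i : Fin 6) : Continuous (uw i) := by unfold uw lin; fun_prop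
lemma cont_wv (i : Fin 6) : Continuous (wv i) := by unfold wv lin; fun_prop
lemma cont_av (i : Fin 6) : Continuous (av i) := continuous_normSq.comp (cont_wv i)
lemma cont_jj (c : ℂ) (i : Fin 6) : Continuous (jj c i) := by
  have := cont_uw i; unfold jj; fun_prop

lemma contOn_gE {c : ℂ} (hc : normSq c = 1) (i : Fin 6) : ContinuousOn (gE c i) {p | nsq p ≤ 1} := by
  have h1 := cont_uw i
  have h2 := cont_jj c i
  exact (ContinuousOn.div (by fun_prop) h2.continuousOn fun p hp => jj_ne hc i hp).prodMk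
    (ContinuousOn.div (by fun_prop) h2.continuousOn fun p hp => jj_ne hc i hp)

lemma nsq_gE_one {c : ℂ} (hc : normSq c = 1) (i : Fin 6) (p : E) (hp : nsq p = 1) :
    nsq (gE c i p) = 1 := by
  have := nsq_gE hc i hp.le
  rw [hp, sub_self, zero_div] at this
  linarith

lemma w2_nsq : normSq (w1 ^ 2) = 1 := by rw [map_pow, w1_nsq, one_pow]

/-- the six generators -/
def g (i : Fin 6) : S3 ≃ₜ S3 :=
  mkH (gE w1 i) (gE (w1 ^ 2) i) (nsq_gE_one w1_nsq i) (nsq_gE_one w2_nsq i)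
    ((contOn_gE w1_nsq i).mono fun _ h => le_of_eq h)
    ((contOn_gE w2_nsq i).mono fun _ h => le_of_eq h)
    (fun p hp => by rw [gE_gE w1_nsq w2_nsq i hp.le, ← pow_succ, w1_three, gE_one])
    (fun p hp => by rw [gE_gE w2_nsq w1_nsq i hp.le, ← pow_succ', w1_three, gE_one])

/-- a real linear map applied to a complex vector -/
def lE (a b c d : ℝ) (p : E) : E := (a * p.1 + b * p.2, c * p.1 + d * p.2)

lemma nsq_lE {a b c d : ℝ} (h1 : a ^ 2 + c ^ 2 = 1) (h2 : b ^ 2 + d ^ 2 = 1) (h3 : a * b + c * d = 0)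
    (p : E) : nsq (lE a b c d p) = nsq p := by
  simp only [nsq, lE, normSq_apply, add_re, add_im, mul_re, mul_im, ofReal_re, ofReal_im]
  linear_combination (p.1.re ^ 2 + p.1.im ^ 2) * h1 + (p.2.re ^ 2 + p.2.im ^ 2) * h2 +
    2 * (p.1.re * p.2.re + p.1.im * p.2.im) * h3

lemma lE_lE {a b c d : ℝ} (h1 : a ^ 2 + c ^ 2 = 1) (h2 : b ^ 2 + d ^ 2 = 1) (h3 : a * b + c * d = 0)
    (p : E) : lE a c b d (lE a b c d p) = p := by
  have k1 : (a : ℂ) ^ 2 + (c : ℂ) ^ 2 = 1 := by exact_mod_cast h1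
  have k2 : (b : ℂ) ^ 2 + (d : ℂ) ^ 2 = 1 := by exact_mod_cast h2
  have k3 : (a : ℂ) * b + (c : ℂ) * d = 0 := by exact_mod_cast h3
  refine Prod.ext ?_ ?_ <;> simp only [lE]
  · linear_combination p.1 * k1 + p.2 * k3
  · linear_combination p.2 * k2 + p.1 * k3

/-- an orthogonal real matrix as a homeomorphism of the sphere -/
def mkO (a b c d : ℝ) (h1 : a ^ 2 + c ^ 2 = 1) (h2 : b ^ 2 + d ^ 2 = 1) (h3 : a * b + c * d = 0)
    (k1 : a ^ 2 + b ^ 2 = 1) (k2 : c ^ 2 + d ^ 2 = 1) (k3 : a * c + b * d = 0) : S3 ≃ₜ S3 :=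
  mkH (lE a b c d) (lE a c b d) (fun p hp => by rw [nsq_lE h1 h2 h3, hp])
    (fun p hp => by rw [nsq_lE k1 k2 k3, hp]) (by unfold lE; fun_prop) (by unfold lE; fun_prop)
    (fun p _ => lE_lE h1 h2 h3 p) (fun p _ => lE_lE k1 k2 k3 p)

/-- rotation by 60 degrees -/
def rot : S3 ≃ₜ S3 :=
  mkO (1 / 2) (-√3 / 2) (√3 / 2) (1 / 2) (by nlinarith [r3]) (by nlinarith [r3]) (by ring)
    (by nlinarith [r3]) (by nlinarith [r3]) (by ring)

/-- reflection in the axis through vertex `0` -/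
def sw : S3 ≃ₜ S3 :=
  mkO (1 / 2) (-√3 / 2) (-√3 / 2) (-1 / 2) (by nlinarith [r3]) (by nlinarith [r3]) (by ring)
    (by nlinarith [r3]) (by nlinarith [r3]) (by ring)

def cjE (p : E) : E := ((starRingEnd ℂ) p.1, (starRingEnd ℂ) p.2)

/-- complex conjugation -/
def cj : S3 ≃ₜ S3 :=
  mkH cjE cjE (fun p hp => by simpa [nsq, cjE] using hp) (fun p hp => by simpa [nsq, cjE] using hp)
    (by unfold cjE; fun_prop) (by unfold cjE; fun_prop) (fun p _ => by simp [cjE])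
    (fun p _ => by simp [cjE])

/-- real and imaginary part, as plane vectors -/
def xx (p : E) : ℂ := ⟨p.1.re, p.2.re⟩
def yy (p : E) : ℂ := ⟨p.1.im, p.2.im⟩
def xyE (x y : ℂ) : E := (⟨x.re, y.re⟩, ⟨x.im, y.im⟩)
def xy (x y : ℂ) : S3 := pt (xyE x y)

/-- the point with real part `x` in the slice of the unit vector `e` -/
def sl (x e : ℂ) : S3 := xy x ((√(1 - normSq x) : ℝ) * e)

/-- the chart at vertex `0` -/
def Z1 (p : E) : ℂ := (√3 : ℝ) * uw 5 p / wv 0 p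
def Z2 (p : E) : ℂ := (√3 : ℝ) * uw 0 p / wv 0 p
def zE (A B : ℂ) : E :=
  ((1 - B / (3 - A - B)) / (√2 : ℝ),
    2 / (√3 : ℝ) * ((A / (3 - A - B) - 1) / (√2 : ℝ) + (1 - B / (3 - A - B)) / (√2 : ℝ) / 2))
def zp (A B : ℂ) : S3 := pt (zE A B)

/-- the stabiliser of vertex `0` -/
def gg (a b : ℕ) : S3 ≃ₜ S3 := g 5 ^ a * g 0 ^ b

end

end Pool.Agent.Lib.MP_b7d179_gt.Gm
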