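import Pool.Agent.Lib.MP_b7d179_gt.G.Sets
import Pool.Agent.Lib.MP_b7d179_gt.G.Chart

/-! Small tools for the supports behind the walls. -/

namespace Pool.Agent.Lib.MP_b7d179_gt.Gm

open Set Metric Complex Stmt

theorem supp_le {x Q y : ℝ} (hQ : 0 < Q) (h : x * Q = y) (r : ℝ) : r ≤ x ↔ r * Q ≤ y :=
  ⟨fun k => h ▸ mul_le_mul_of_nonneg_right k hQ.le, fun k => le_of_mul_le_mul_right (h ▸ k) hQ⟩

theorem supp_n {c : ℂ} (hc : Om c) : normSq c = 1 := by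
  obtain ⟨h1, h2⟩ := hc.re
  rw [normSq_apply, h1]
  linarith

theorem supp_sq {c : ℂ} (hc : Om c) : Om (c ^ 2) := by
  unfold Om at hc ⊢
  linear_combination (c ^ 2 - c + 1) * hc

theorem supp_back {c : ℂ} (hc : Om c) (z : ℂ) : c ^ 2 * (c * z) = z := by
  unfold Om at hc
  linear_combination (c - 1) * z * hc

theorem supp_pow (a : ℕ) : (a % 3 = 0 ∧ w1 ^ a = 1) ∨ Om (w1 ^ a) := by
  have e : w1 ^ a = w1 ^ (a % 3) := by
    conv_lhs => rw [← Nat.div_add_mod a 3, pow_add, pow_mul, w1_three, one_pow, one_mul]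
  rw [e]
  rcases (by omega : a % 3 = 0 ∨ a % 3 = 1 ∨ a % 3 = 2) with h | h | h <;> rw [h]
  · exact .inl ⟨rfl, pow_zero _⟩
  · exact .inr (by rw [pow_one]; exact om_w1)
  · exact .inr om_w2

theorem supp_nsq {c : ℂ} (hc : Om c) (i : Fin 6) {p : E} (hp : nsq p ≤ 1) : nsq (gE c i p) ≤ 1 := by
  have h := nsq_gE (supp_n hc) i hp
  have := div_nonneg (sub_nonneg.2 hp) (normSq_nonneg (jj c i p))
  linarith

theorem supp_rot {A B c d : ℂ} (hb : normSq A + normSq B ≤ 3) (hc : normSq c = 1)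
    (hd : normSq d = 1) : normSq (c * A) + normSq (d * B) ≤ 3 := by
  rwa [normSq_mul, normSq_mul, hc, hd, one_mul, one_mul]

theorem supp_w (a : ℕ) : normSq (w1 ^ a) = 1 := by rw [map_pow, w1_nsq, one_pow]

theorem supp_free {A B c : ℂ} (hb : normSq A + normSq B ≤ 3) (hc : Om c)
    (h1 : 11 * normSq (3 - A - B) ≤ 24) (h2 : 11 * normSq (3 - A - B) ≤ 24 * hh A)
    (k1 : 11 * normSq (3 - A - c * B) ≤ 24) (k2 : 11 * normSq (3 - A - c * B) ≤ 24 * hh A) :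
    False := by
  have a1 := E1c hb hc h1 h2
  have a2 := E1c (B := c * B) (by rwa [normSq_mul, supp_n hc, one_mul]) (supp_sq hc) k1 k2
  rw [supp_back hc] at a2
  have := normSq_pos.2 (P_ne hb)
  linarith

theorem supp_ind {P : Fin 6 → Prop} (h0 : P 0) (hs : ∀ e, P e → P (e + 1)) (e : Fin 6) : P e := by
  have h1 : P 1 := hs 0 h0
  have h2 : P 2 := hs 1 h1
  have h3 : P 3 := hs 2 h2
  have h4 : P 4 := hs 3 h3
  have h5 : P 5 := hs 4 h4
  fin_cases e <;> assumption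

theorem supp_mem {e : Fin 6} {p : S3} (hp : p ∈ Sp e) :
    ∃ c q, Om c ∧ q ∈ Uu e ∧ p.1 = gE c e q.1 := by
  rcases hp with ⟨q, hq, rfl⟩ | ⟨q, hq, rfl⟩
  · exact ⟨w1, q, om_w1, hq, rfl⟩
  · exact ⟨w1 ^ 2, q, om_w2, hq, g_pow_val e 2 q⟩

theorem supp_mir (j : Fin 6) (p : E) : av j (lE 1 0 0 (-1) p) = av (1 - j) p := by
  refine congrArg normSq (act_wv ?_ ?_ p) <;> fin_cases j <;> simp [nv] <;> ring

theorem supp_QQ (a b : ℕ) (p : S3) :
    QQ (gg a b p).1 = normSq (3 - w1 ^ a * Z1 p.1 - w1 ^ b * Z2 p.1) := by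
  rw [QQ, (Z_gg a b p).1, (Z_gg a b p).2]

theorem supp_gg {a b : ℕ} (ha : a % 3 = 0) (hb : b % 3 = 0) : gg a b = 1 := by
  rw [← gg_mod, ha, hb, gg, pow_zero, pow_zero, mul_one]

end Pool.Agent.Lib.MP_b7d179_gt.Gm
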