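import Pool.Agent.Lib.MP_b7d179_gt.G.Basic
import Pool.Agent.Lib.MP_b7d179_gt.G.Supp1

/-! The supports behind the walls. -/

namespace Pool.Agent.Lib.MP_b7d179_gt.Gm

open Set Metric Complex Stmt

/-- statements in the closed ball, at wall `0` -/
theorem jj_big {c : ℂ} (hc : Om c) {p : E} (hp : nsq p ≤ 1) (h0 : 11 / 8 ≤ av 0 p)
    (h1 : 11 / 8 ≤ av 1 p) : 53 / 50 ≤ normSq (jj c 0 p) := by
  have hQ := QQ_pos hp
  obtain ⟨a0, a1, -⟩ := av_chart hp
  have b0 := (supp_le hQ a0 _).1 h0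
  have b1 := (supp_le hQ a1 _).1 h1
  have e : normSq (jj c 0 p) * QQ p = normSq (3 - Z1 p - c * Z2 p) := by
    rw [QQ, ← normSq_mul, (jj_chart hp).1]
  rw [supp_le hQ e]
  unfold QQ at *
  have := E1c (Z_ball hp) hc (by linarith) (by linarith)
  linarith

theorem gE_free {c : ℂ} (hc : Om c) {p : E} (hp : nsq p ≤ 1) (h0 : 11 / 8 ≤ av 0 p)
    (h1 : 11 / 8 ≤ av 1 p) : ¬ (11 / 8 ≤ av 0 (gE c 0 p) ∧ 11 / 8 ≤ av 1 (gE c 0 p)) := by
  rintro ⟨k0, k1⟩
  have hp' := supp_nsq hc 0 hp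
  obtain ⟨a0, a1, -⟩ := av_chart hp
  obtain ⟨c0, c1, -⟩ := av_chart hp'
  have b0 := (supp_le (QQ_pos hp) a0 _).1 h0
  have b1 := (supp_le (QQ_pos hp) a1 _).1 h1
  have d0 := (supp_le (QQ_pos hp') c0 _).1 k0
  have d1 := (supp_le (QQ_pos hp') c1 _).1 k1
  unfold QQ at b0 b1 d0 d1
  rw [(Z_gE0 (supp_n hc) hp).1, (Z_gE0 (supp_n hc) hp).2] at d0 d1
  exact supp_free (Z_ball hp) hc (by linarith) (by linarith) (by linarith) (by linarith)

/-- what the condition at vertex `0` gives (E3, E6o, E6n, E7) -/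
theorem gE_zero {c : ℂ} (hc : Om c) {p : E} (hp : nsq p ≤ 1) (h0 : 3 / 2 ≤ av 0 p) :
    av 0 (gE c 0 p) < av 5 (gE c 0 p) ∧ 2 ≤ av 3 (gE c 0 p) ∧ 17 / 10 ≤ av 4 (gE c 0 p) ∧
      11 / 8 ≤ av 5 (gE c 0 p) := by
  have hp' := supp_nsq hc 0 hp
  have hQ := QQ_pos hp'
  have b0 := (supp_le (QQ_pos hp) (av_chart hp).1 _).1 h0
  obtain ⟨c0, -, c5, -, c3, c4⟩ := av_chart hp'
  obtain ⟨z1, z2⟩ := Z_gE0 (supp_n hc) hp
  have hb := Z_ball hp'
  have k : normSq (3 - Z1 (gE c 0 p) - c ^ 2 * Z2 (gE c 0 p)) ≤ 2 := by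
    rw [z1, z2, supp_back hc]
    unfold QQ at b0
    linarith
  rw [supp_le hQ c3, supp_le hQ c4, supp_le hQ c5]
  refine ⟨lt_of_not_ge fun h => ?_, ?_, ?_, ?_⟩
  · rw [supp_le hQ c0, c5, z2] at h
    have := E3 (A := Z2 p) (B := Z1 p) (by linarith [Z_ball hp]) hc (by linarith)
    rw [sub_right_comm] at this
    unfold QQ at b0
    linarith
  · exact E6o (d := c) hb (supp_sq hc) (.inl k)
  · have := E6n (d := c) (A := Z2 (gE c 0 p)) (B := Z1 (gE c 0 p)) (by linarith) (supp_sq hc)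
      (.inl (by rwa [sub_right_comm]))
    rw [sub_right_comm 3, sub_right_comm 4] at this
    unfold QQ
    linarith
  · have := E7 hb (supp_sq hc) k
    unfold QQ
    linarith

/-- the mirror image at vertex `1` -/
theorem gE_one' {c : ℂ} (hc : Om c) {p : E} (hp : nsq p ≤ 1) (h1 : 3 / 2 ≤ av 1 p) :
    av 1 (gE c 0 p) < av 2 (gE c 0 p) ∧ 2 ≤ av 4 (gE c 0 p) ∧ 17 / 10 ≤ av 3 (gE c 0 p) ∧
      11 / 8 ≤ av 2 (gE c 0 p) := by
  have h := gE_zero hc (p := lE 1 0 0 (-1) p)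
    (by rwa [nsq_lE (by norm_num) (by norm_num) (by norm_num)]) (by rwa [supp_mir])
  rw [← act_gE (i := 0) (act_uw (by simp [mv]) (by simp [mv]) p) (by simp [mv]) (by simp [mv])] at h
  simp only [supp_mir] at h
  exact h

theorem Sp_facts {e : Fin 6} {p : S3} (hp : p ∈ Sp e) : av (e + 1) p.1 < av (e + 2) p.1 ∧
    av e p.1 < av (e - 1) p.1 ∧ 2 ≤ av (e + 3) p.1 ∧ 2 ≤ av (e + 4) p.1 ∧
    11 / 8 ≤ av (e + 2) p.1 ∧ 11 / 8 ≤ av (e - 1) p.1 ∧
    ¬ (11 / 8 ≤ av e p.1 ∧ 11 / 8 ≤ av (e + 1) p.1) := by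
  induction e using supp_ind generalizing p with
  | h0 =>
    obtain ⟨c, q, hc, hq, e⟩ := supp_mem hp
    have n := (nsq_S3 q).le
    have a := gE_zero hc n hq.1
    have b := gE_one' hc n hq.2
    have d := gE_free hc n (le_trans (by norm_num) hq.1) (le_trans (by norm_num) hq.2)
    rw [← e] at a b d
    exact ⟨b.1, a.1, a.2.1, b.2.1, b.2.2.2, a.2.2.2, d⟩
  | hs e ih =>
    obtain ⟨q, rfl⟩ := rot.surjective p
    have i : ∀ e : Fin 6, e + 1 + 2 = e + 2 + 1 ∧ e + 1 - 1 = e - 1 + 1 ∧ e + 1 + 3 = e + 3 + 1 ∧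
        e + 1 + 4 = e + 4 + 1 := by decide
    rw [(i e).1, (i e).2.1, (i e).2.2.1, (i e).2.2.2]
    simp only [av_rot]
    exact ih ((rot_e e q).2.2.2.2.2.2.2.1.1 hp)

theorem Sq_Sp (e : Fin 6) : Sq e ⊆ Sp e := by
  exact union_subset_union (image_mono fun _ h => h.1) (image_mono fun _ h => h.1)

theorem Sp_out (e : Fin 6) : Sp e ⊆ Out e ∪ Out (e + 1) := by
  intro p hp
  obtain ⟨a1, a2, -, -, -, -, a3⟩ := Sp_facts hp
  have i : ∀ e : Fin 6, e + 1 - 1 = e ∧ e + 1 + 1 = e + 2 := by decide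
  rcases le_total (av e p.1) (av (e + 1) p.1) with h | h
  · refine .inl ⟨a2.le, h, ?_⟩
    have := le_min a2.le h
    have k : av e p.1 < 11 / 8 := lt_of_not_ge fun k => a3 ⟨k, k.trans h⟩
    unfold kk
    linarith
  · refine .inr ⟨by rwa [(i e).1], by rw [(i e).2]; exact a1.le, ?_⟩
    have := le_min h a1.le
    have k : av (e + 1) p.1 < 11 / 8 := lt_of_not_ge fun k => a3 ⟨k.trans h, k⟩
    unfold kk
    rw [(i e).1, (i e).2]
    linarith

theorem Sp_two (e : Fin 6) : Disjoint (g e '' Uu e) ((g e ^ 2 : S3 ≃ₜ S3) '' Uu e) := by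
  rw [Set.disjoint_left]
  rintro _ ⟨q, hq, rfl⟩ ⟨q', hq', h⟩
  obtain rfl : g e q' = q := (g e).injective (by rw [← h, pow_two]; rfl)
  exact (Sp_facts (.inl ⟨q', hq', rfl⟩)).2.2.2.2.2.2
    ⟨le_trans (by norm_num) hq.1, le_trans (by norm_num) hq.2⟩

/-- neighbours by E2, distance two by the first two facts, opposite walls by the last -/
theorem Sp_disj {e e' : Fin 6} (h : e ≠ e') : Disjoint (Sp e) (Sp e') := by
  have nb : ∀ (e : Fin 6) (p : S3), p ∈ Sp (e - 1) → p ∉ Sp e := by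
    intro e
    induction e using supp_ind with
    | h0 =>
      intro p h5 h0
      obtain ⟨d, q', hd, hq', e'⟩ := supp_mem (e := 5) h5
      obtain ⟨c, q, hc, hq, e⟩ := supp_mem h0
      have n := (nsq_S3 q).le
      have n' := (nsq_S3 q').le
      have b := (supp_le (QQ_pos n) (av_chart n).1 _).1 hq.1
      have b' := (supp_le (QQ_pos n') (av_chart n').1 _).1 hq'.2
      obtain ⟨z1, z2⟩ := Z_gE0 (supp_n hc) n
      obtain ⟨y1, y2⟩ := Z_gE5 (supp_n hd) n'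
      rw [← e, e'] at z1 z2
      unfold QQ at b b'
      have := E2 (Z_ball n') hd (supp_sq hc) (by linarith)
      rw [← y1, z1, ← y2, z2, supp_back hc] at this
      linarith
    | hs e ih =>
      intro p h1 h2
      obtain ⟨q, rfl⟩ := rot.surjective p
      have i : ∀ e : Fin 6, e + 1 - 1 = e - 1 + 1 := by decide
      rw [i] at h1
      exact ih q ((rot_e _ q).2.2.2.2.2.2.2.1.1 h1) ((rot_e e q).2.2.2.2.2.2.2.1.1 h2)
  have i : ∀ e : Fin 6, e + 2 - 1 = e + 1 ∧ e + 3 + 1 = e + 4 := by decide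
  have two : ∀ (e : Fin 6) (p : S3), p ∈ Sp e → p ∉ Sp (e + 2) := fun e p h1 h2 => by
    have := (Sp_facts h2).2.1
    rw [(i e).1] at this
    exact lt_asymm this (Sp_facts h1).1
  have cs : ∀ e e' : Fin 6, e ≠ e' →
      e = e' - 1 ∨ e' = e - 1 ∨ e' = e + 2 ∨ e = e' + 2 ∨ e' = e + 3 := by decide
  refine Set.disjoint_left.2 fun p h1 h2 => ?_
  rcases cs e e' h with rfl | rfl | rfl | rfl | rfl
  · exact nb _ p h1 h2
  · exact nb _ p h2 h1
  · exact two _ p h1 h2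
  · exact two _ p h2 h1
  · obtain ⟨-, -, a, b, -⟩ := Sp_facts h1
    exact (Sp_facts h2).2.2.2.2.2.2 ⟨by linarith, by rw [(i e).2]; linarith⟩

theorem Sp_nest (e : Fin 6) : Sp (e + 3) ⊆ Uq e := by
  intro p hp
  obtain ⟨-, -, a1, a2, a3, a4, -⟩ := Sp_facts hp
  have i : ∀ e : Fin 6, e + 3 + 3 = e ∧ e + 3 + 4 = e + 1 ∧ e + 3 + 2 = e - 1 ∧
      e + 3 - 1 = e + 2 := by decide
  rw [(i e).1] at a1
  rw [(i e).2.1] at a2
  rw [(i e).2.2.1] at a3
  rw [(i e).2.2.2] at a4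
  exact ⟨⟨by linarith, by linarith⟩, a3, a4⟩

theorem Sp_KL (e : Fin 6) : Disjoint (Sp e) KL := by
  exact Set.disjoint_left.2 fun p hp hk => (Sp_facts hp).2.2.2.2.2.2
    ⟨le_trans (by norm_num) (hk _), le_trans (by norm_num) (hk _)⟩

theorem Sp_pure {e e' : Fin 6} (h : e ≠ e') {p : S3} (hp : p ∈ Sp e)
    (h1 : av e' p.1 = av (e' + 1) p.1) : 3 / 2 < av e' p.1 := by
  obtain ⟨a1, a2, a3, a4, -⟩ := Sp_facts hp
  have i : ∀ e : Fin 6, e + 1 + 1 = e + 2 ∧ e - 1 + 1 = e ∧ e + 2 + 1 = e + 3 := by decide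
  have cs : ∀ e e' : Fin 6, e ≠ e' →
      e' = e + 1 ∨ e' = e - 1 ∨ e' = e + 2 ∨ e' = e + 3 ∨ e' = e + 4 := by decide
  rcases cs e e' h with rfl | rfl | rfl | rfl | rfl
  · rw [(i e).1] at h1
    linarith
  · rw [(i e).2.1] at h1
    linarith
  · rw [(i e).2.2] at h1
    linarith
  · linarith
  · linarith

/-- a point of the vertex cell is in no support but those of the walls `0` and `5`, and in none
when it is near the chamber -/
theorem Vt_clean {p : S3} (hp : p ∈ Vt) (e : Fin 6) (he : p ∈ Sp e) :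
    (e = 0 ∨ e = 5) ∧ av 0 p.1 < 11 / 8 := by
  have ho : p ∈ Out 0 := by simpa [supp_gg] using hp 0 0
  have h9 := (Out_le ho).1
  have h5 : av 0 p.1 ≤ av 5 p.1 := ho.1
  have h1 : av 0 p.1 ≤ av 1 p.1 := ho.2.1
  obtain ⟨a1, a2, a3, a4, -, -, a5⟩ := Sp_facts he
  have cs : ∀ e : Fin 6, e = 0 ∨ e = 5 ∨ (e = 1 ∧ e - 1 = 0) ∨ (e + 1 = 5 ∧ e + 2 = 0) ∨
      e + 3 = 0 ∨ e + 4 = 0 := by decide
  rcases cs e with rfl | rfl | ⟨k, k'⟩ | ⟨k, k'⟩ | k | k
  · exact ⟨.inl rfl, lt_of_not_ge fun k => a5 ⟨k, k.trans h1⟩⟩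
  · exact ⟨.inr rfl, lt_of_not_ge fun k => a5 ⟨k.trans h5, k⟩⟩
  · rw [k', k] at a2
    linarith
  · rw [k', k] at a1
    linarith
  · rw [k] at a3
    linarith
  · rw [k] at a4
    linarith

theorem Vt_Sb : Vt ∩ Sb 0 = {p | p ∈ Sb 0 ∧ ∀ k : ℕ, av 0 ((g 0 ^ k) p).1 ≤ 3 / 2} := by
  have e0 : ∀ k, gg 0 k = g 0 ^ k := fun k => by rw [gg, pow_zero, one_mul]
  ext p
  refine ⟨fun ⟨hp, h⟩ => ⟨h, fun k => ?_⟩, fun ⟨h, hk⟩ => ⟨?_, h⟩⟩
  · rw [← e0]
    obtain ⟨-, -, a3⟩ := hp 0 k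
    have a2 : gg 0 k p ∈ Sb 0 := by
      rw [(chart_sets _).1, (Z_gg 0 k p).1, pow_zero, one_mul]
      exact (chart_sets p).1.1 h
    have := (min_le_right (av (0 - 1) (gg 0 k p).1) _).trans (le_of_eq (Eq.symm a2))
    unfold kk at a3
    linarith
  · have hA := (chart_sets p).1.1 h
    have hb := (Z_sph p).le
    have hQ : ∀ k : ℕ, 2 ≤ normSq (3 - Z1 p.1 - w1 ^ k * Z2 p.1) := fun k => by
      have n := (nsq_S3 (gg 0 k p)).le
      have a := (av_chart n).1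
      have b := QQ_pos n
      have c := hk k
      rw [← e0] at c
      rw [supp_QQ, pow_zero, one_mul] at a b
      nlinarith
    have h1 : ∀ a : ℕ, 1 ≤ hh (w1 ^ a * Z1 p.1) := fun a => by
      rcases supp_pow a with ⟨-, e⟩ | hc
      · rw [e, one_mul, hA]
      · have := E4 (supp_rot hb (supp_w a) (supp_w 0)) (supp_sq hc) (by rw [supp_back hc, hA])
        linarith
    have h2 : ∀ b : ℕ, 1 ≤ hh (w1 ^ b * Z2 p.1) := fun b => le_of_not_gt fun k => by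
      have hb' := supp_rot hb (supp_w 0) (supp_w b)
      rw [pow_zero, one_mul] at hb'
      have := (E5 hb' hA.le k.le).1
      linarith [hQ b]
    refine (mem_Vt p).2 ⟨h1, h2, fun a b => ?_⟩
    have := le_min (h1 a) (h2 b)
    rcases supp_pow a with ⟨-, e⟩ | hc
    · have k := hQ b
      rw [← one_mul (Z1 p.1), ← e] at k
      linarith
    · have := E3 (supp_rot hb (supp_w a) (supp_w b)) (supp_sq hc) (by rw [supp_back hc, hA])
      linarith

/-- at most one chamber is near a point of the vertex cell -/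
theorem Vt_one {p : S3} (hp : p ∈ Vt) (h : 11 / 8 ≤ av 0 p.1) {a b : ℕ}
    (h' : 11 / 8 ≤ av 0 (gg a b p).1) : gg a b = 1 := by
  obtain ⟨h1, h2, -⟩ := (mem_Vt p).1 hp
  have k1 := h1 0
  have k2 := h2 0
  rw [pow_zero, one_mul] at k1 k2
  have n := (nsq_S3 p).le
  have n' := (nsq_S3 (gg a b p)).le
  have hb := Z_ball n
  have b0 := (supp_le (QQ_pos n) (av_chart n).1 _).1 h
  have b1 := (supp_le (QQ_pos n') (av_chart n').1 _).1 h'
  rw [supp_QQ] at b1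
  unfold QQ at b0
  rcases supp_pow a with ⟨ha, e⟩ | hc <;> rcases supp_pow b with ⟨hb', e'⟩ | hd
  · exact supp_gg ha hb'
  · rw [e, one_mul] at b1
    linarith [E1 hb hd (by linarith) (by linarith)]
  · rw [e', one_mul, sub_right_comm] at b1
    rw [sub_right_comm] at b0
    linarith [E1 (A := Z2 p.1) (B := Z1 p.1) (by linarith) hc (by linarith) (by linarith)]
  · linarith [E2 hb hc hd (by linarith)]

theorem Vt_sph {p : S3} (hp : p ∈ Vt) (h : p ∈ Sb 0) {a b : ℕ} :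
    gg a b p ∉ Sb 5 ∧ (gg a b p ∈ Sb 0 → a % 3 = 0) ∧ (3 / 2 ≤ av 0 (gg a b p).1 → a % 3 = 0) := by
  have hA := (chart_sets p).1.1 h
  have hb := (Z_sph p).le
  refine ⟨fun k => ?_, fun k => ?_, fun k => ?_⟩
  · rw [(chart_sets _).2.1, (Z_gg a b p).2] at k
    have k1 := ((mem_Vt p).1 hp).2.2 0 b
    have hb' := supp_rot hb (supp_w 0) (supp_w b)
    rw [pow_zero, one_mul] at hb' k1
    have := (E5 hb' hA.le k.le).2.2
    rw [hA, k, min_self] at k1
    linarith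
  · rw [(chart_sets _).1, (Z_gg a b p).1] at k
    rcases supp_pow a with ⟨ha, -⟩ | hc
    · exact ha
    · linarith [E4 hb hc k.le]
  · rw [(chart_sets _).2.2.2.1, supp_QQ] at k
    rcases supp_pow a with ⟨ha, -⟩ | hc
    · exact ha
    · linarith [E3 (supp_rot hb (supp_w a) (supp_w b)) (supp_sq hc) (by rw [supp_back hc, hA])]

theorem KL_one {p : S3} (hp : p ∈ KL) {a b : ℕ} (h : gg a b p ∈ KL) : gg a b = 1 := by
  have n := (nsq_S3 p).le
  have n' := (nsq_S3 (gg a b p)).le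
  have hb := Z_ball n
  obtain ⟨a0, a1, a5, -⟩ := av_chart n
  obtain ⟨c0, c1, c5, -⟩ := av_chart n'
  have b0 := (supp_le (QQ_pos n) a0 _).1 (hp 0)
  have b1 := (supp_le (QQ_pos n) a1 _).1 (hp 1)
  have b5 := (supp_le (QQ_pos n) a5 _).1 (hp 5)
  have d0 := (supp_le (QQ_pos n') c0 _).1 (h 0)
  have d1 := (supp_le (QQ_pos n') c1 _).1 (h 1)
  have d5 := (supp_le (QQ_pos n') c5 _).1 (h 5)
  have q := QQ_pos n
  have q' := QQ_pos n'
  rw [supp_QQ] at d0 d1 d5 q'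
  rw [(Z_gg a b p).1] at d1
  rw [(Z_gg a b p).2] at d5
  unfold QQ at b0 b1 b5 q
  rcases supp_pow a with ⟨ha, e⟩ | hc <;> rcases supp_pow b with ⟨hb', e'⟩ | hd
  · exact supp_gg ha hb'
  · rw [e, one_mul] at d0 d1 q'
    exact (supp_free hb hd (by linarith) (by linarith) (by linarith) (by linarith)).elim
  · rw [e', one_mul, sub_right_comm] at d0 d5 q'
    rw [sub_right_comm] at b0 b5 q
    exact (supp_free (A := Z2 p.1) (B := Z1 p.1) (by linarith) hc (by linarith) (by linarith)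
      (by linarith) (by linarith)).elim
  · linarith [E2 hb hc hd (by linarith)]

theorem KL_Vt {p : S3} (hp : p ∈ KL) {a b : ℕ} (h : gg a b p ∈ Vt) : p ∈ Vt := by
  intro a' b'
  have := h (a' + 2 * a) (b' + 2 * b)
  rwa [← Homeomorph.mul_apply, gg_mul, ← gg_mod, show (a' + 2 * a + a) % 3 = a' % 3 by omega,
    show (b' + 2 * b + b) % 3 = b' % 3 by omega, gg_mod] at this


end Pool.Agent.Lib.MP_b7d179_gt.Gm
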