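import Pool.Agent.Lib.MP_b7d179_gt.G.Sand
import Pool.Agent.Lib.MP_b7d179_gt.G.Supp

/-! Extension of the region over the annulus to the boundary of the vertex cell. -/

namespace Pool.Agent.Lib.MP_b7d179_gt.Gm

open Set Metric Complex Stmt

theorem ext_00 (p : S3) : gg 0 0 p = p := by rw [supp_gg rfl rfl]; rfl

theorem ext_0k (k : ℕ) : gg 0 k = g 0 ^ k := by rw [gg, pow_zero, one_mul]

theorem ext_mul (a b c d : ℕ) (p : S3) : gg a b (gg c d p) = gg (a + c) (b + d) p := by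
  rw [← gg_mul]; rfl

theorem ext_back (a b c d : ℕ) (p : S3) : gg (c + 2 * a) (d + 2 * b) (gg a b p) = gg c d p := by
  rw [ext_mul, ← gg_mod, show (c + 2 * a + a) % 3 = c % 3 by omega,
    show (d + 2 * b + b) % 3 = d % 3 by omega, gg_mod]

theorem ext_uniq {a b c d : ℕ} {x : S3} (h : gg a b x ∈ KL) (h' : gg c d x ∈ KL) :
    gg a b = gg c d := Homeomorph.ext fun p => by
  have k := KL_one (a := c + 2 * a) (b := d + 2 * b) h (by rwa [ext_back])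
  rw [← ext_back a b c d p, k]; rfl

theorem ext_Vt (a b : ℕ) (p : S3) : gg a b p ∈ Vt ↔ p ∈ Vt :=
  ⟨fun h c d => ext_back a b c d p ▸ h _ _, fun h c d => (ext_mul c d a b p).symm ▸ h _ _⟩

theorem ext_orb (Q : Set S3) (a b : ℕ) (p : S3) : gg a b p ∈ orb Q ↔ p ∈ orb Q :=
  ⟨fun ⟨c, d, h⟩ => ⟨_, _, ext_mul c d a b p ▸ h⟩,
    fun ⟨c, d, h⟩ => ⟨_, _, (ext_back a b c d p).symm ▸ h⟩⟩

theorem ext_Bd (a b : ℕ) (p : S3) : gg a b p ∈ Bd ↔ p ∈ Bd :=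
  and_congr (ext_Vt a b p) (ext_orb _ a b p)

theorem ext_self {Q : Set S3} {p : S3} (h : p ∈ Q) : p ∈ orb Q := ⟨0, 0, (ext_00 p).symm ▸ h⟩

theorem ext_closed {Q : Set S3} (h : IsClosed Q) : IsClosed (orb Q) := by
  have e : orb Q = ⋃ a : Fin 3, ⋃ b : Fin 3, gg a b ⁻¹' Q := by
    ext p; simp only [mem_orb, mem_iUnion, mem_preimage]
  rw [e]
  exact isClosed_iUnion_of_finite fun a => isClosed_iUnion_of_finite fun b =>
    h.preimage (gg a b).continuous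

theorem ext_sph {y : S3} (hy : y ∈ KL) (h : y ∈ orb (Sb 0 ∪ Sb 5)) : y ∈ Sb 0 ∪ Sb 5 := by
  have hb := Z_ball (nsq_S3 y).le
  have hq : normSq (3 - Z1 y.1 - Z2 y.1) ≤ 2 := (chart_sets y).2.2.2.1.1 (hy 0)
  obtain ⟨a, b, h | h⟩ := h
  · rw [(chart_sets _).1, (Z_gg a b y).1] at h
    rcases supp_pow a with ⟨-, e⟩ | hc
    · exact .inl ((chart_sets _).1.2 (by rwa [e, one_mul] at h))
    · linarith [E3 hb hc h.le]
  · rw [(chart_sets _).2.1, (Z_gg a b y).2] at h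
    rcases supp_pow b with ⟨-, e⟩ | hc
    · exact .inr ((chart_sets _).2.1.2 (by rwa [e, one_mul] at h))
    · rw [sub_right_comm] at hq
      linarith [E3 (A := Z2 y.1) (B := Z1 y.1) (by linarith) hc h.le]

theorem ext_cont {X Y ι : Type*} [TopologicalSpace X] [TopologicalSpace Y] [Finite ι] {f : X → Y}
    {s : Set X} {C : ι → Set X} (hC : ∀ i, IsClosed (C i)) (hs : ∀ x ∈ s, ∃ i, x ∈ C i)
    (h : ∀ i, ContinuousOn f (s ∩ C i)) : ContinuousOn f s := by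
  rw [continuousOn_iff_continuous_domRestrict]
  refine (locallyFinite_of_finite fun i => ((↑) : s → X) ⁻¹' C i).continuous
    (eq_univ_of_forall fun x => mem_iUnion.2 (hs x x.2))
    (fun i => (hC i).preimage continuous_subtype_val) fun i => ?_
  exact (h i).comp continuous_subtype_val.continuousOn fun x hx => ⟨x.2, hx⟩

theorem Aj_Vt : Aj 0 ⊆ Bd := by
  refine fun p hp => ⟨?_, ext_self (.inl (.inl hp))⟩
  have n := (nsq_S3 p).le
  have hb := Z_ball n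
  have hb' : normSq (Z2 p.1) + normSq (Z1 p.1) ≤ 3 := by linarith
  have q := QQ_pos n
  obtain ⟨a0, a1, a5, -⟩ := av_chart n
  have hq : normSq (3 - Z1 p.1 - Z2 p.1) ≤ 2 := (chart_sets p).2.2.2.1.1 (Kt_KL hp.2 0)
  have hq' : normSq (3 - Z2 p.1 - Z1 p.1) ≤ 2 := by rwa [sub_right_comm]
  have o5 : av 0 p.1 ≤ av 5 p.1 := hp.1.1
  have o1 : av 0 p.1 ≤ av 1 p.1 := hp.1.2.1
  have hA : 1 ≤ hh (Z1 p.1) := by nlinarith [mul_le_mul_of_nonneg_right o1 q.le]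
  have hB : 1 ≤ hh (Z2 p.1) := by nlinarith [mul_le_mul_of_nonneg_right o5 q.le]
  have hk : 9 ≤ 4 * QQ p.1 + min (hh (Z1 p.1)) (hh (Z2 p.1)) := by
    linarith [(chart_sets p).2.2.2.2, mul_nonpos_of_nonpos_of_nonneg hp.1.2.2 q.le]
  have kA : ∀ a : ℕ, 1 ≤ hh (w1 ^ a * Z1 p.1) := fun a => by
    rcases supp_pow a with ⟨-, e⟩ | hc
    · rwa [e, one_mul]
    · exact le_of_not_ge fun h => by linarith [E3 hb hc h]
  have kB : ∀ a : ℕ, 1 ≤ hh (w1 ^ a * Z2 p.1) := fun a => by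
    rcases supp_pow a with ⟨-, e⟩ | hc
    · rwa [e, one_mul]
    · exact le_of_not_ge fun h => by linarith [E3 hb' hc h]
  refine (mem_Vt p).2 ⟨kA, kB, fun a b => ?_⟩
  have m := le_min (kA a) (kB b)
  rcases supp_pow a with ⟨-, e⟩ | hc <;> rcases supp_pow b with ⟨-, e'⟩ | hd
  · rwa [e, e', one_mul, one_mul]
  · by_contra c
    rw [e, one_mul] at c m
    linarith [E1 hb hd (by linarith) (by linarith)]
  · by_contra c
    rw [e', one_mul] at c m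
    rw [sub_right_comm] at c
    linarith [E1 hb' hc (by linarith) (by linarith)]
  · linarith [E2 hb hc hd (by linarith)]

theorem Six_Vt : Six 0 ∩ Vt = Aj 0 :=
  subset_antisymm (fun p hp => (Six_Out hp.1 (ext_00 p ▸ hp.2 0 0)).1)
    fun _ hp => ⟨(Six_Kt 0).2.2.2 hp, (Aj_Vt hp).1⟩

theorem ext_six {p : S3} (h : p ∈ Six 0) : p ∈ KL := Kt_KL ((Six_Kt 0).1 h)

theorem ext_aj {p : S3} (h : p ∈ Aj 0) : p ∈ KL := Kt_KL h.2

theorem ext_sym {γ : S3 ≃ₜ S3} (h : γ = sw ∨ γ = cj) (p : S3) : γ p ∈ Aj 0 ↔ p ∈ Aj 0 := by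
  rcases h with rfl | rfl
  exacts [(sw_v 0 p).2.1, (cj_mem 0 p).2.2.2.1]

theorem ext_congr {L L' : S3 → ℝ} {S S' : S3 × ℝ → S3} (h : IsS L S) (hL : ∀ x ∈ Aj 0, L' x = L x)
    (hS : ∀ x : S3 × ℝ, x.1 ∈ Aj 0 → S' x = S x) : IsS L' S' := by
  have e : bt (Aj 0) L' = bt (Aj 0) L := by
    ext x; exact and_congr_right fun hx => by rw [hL _ hx]
  have q : EqOn S' S (bt (Aj 0) L) := fun x hx => hS x hx.1
  refine ⟨h.cL.congr hL, fun x hx => (h.pos x hx).trans_eq (hL x hx).symm,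
    fun x hx => by rw [hL x hx]; exact h.zero x hx, by rw [e]; exact h.emb.congr q,
    by rw [e, image_congr q, h.img], fun x hx => (hS (x, 0) hx).trans (h.s0 x hx),
    fun x hx => ?_, fun x hx => ?_, fun x hx => ?_, fun x hx => ?_, fun γ hγ x hx => ?_⟩
  all_goals rw [e] at hx
  · rw [q hx]; exact h.out x hx
  · rw [q hx, hL _ hx.1]; exact h.topu x hx
  · rw [q hx, hL _ hx.1]; exact h.topv x hx
  · rw [q hx]; exact h.slice x hx
  · have := (ext_sym hγ x.1).2 hx.1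
    rw [q hx, hL _ hx.1, hL _ this, hS (γ x.1, x.2) this]
    exact h.sym γ hγ x hx

/-- the definition by cases -/
theorem ext_def (L₀ : S3 → ℝ) (S₀ : S3 × ℝ → S3) : ∃ (L : S3 → ℝ) (S : S3 × ℝ → S3),
    (∀ a b x, gg a b x ∈ Aj 0 → L x = L₀ (gg a b x) ∧ ∀ s, gg a b (S (x, s)) = S₀ (gg a b x, s)) ∧
      ∀ x, x ∉ orb (Aj 0) → L x = 0 ∧ ∀ s, S (x, s) = x := by
  classical
  choose! u v huv using fun x (hx : x ∈ orb (Aj 0)) => (hx : ∃ a b, gg a b x ∈ Aj 0)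
  refine ⟨fun x => if x ∈ orb (Aj 0) then L₀ (gg (u x) (v x) x) else 0,
    fun x => if x.1 ∈ orb (Aj 0) then (gg (u x.1) (v x.1)).symm (S₀ (gg (u x.1) (v x.1) x.1, x.2))
      else x.1, fun a b x hx => ?_, fun x hx => ⟨if_neg hx, fun _ => if_neg hx⟩⟩
  have ho : x ∈ orb (Aj 0) := ⟨a, b, hx⟩
  have e := ext_uniq (ext_aj (huv x ho)) (ext_aj hx)
  simp only [if_pos ho, e, Homeomorph.apply_symm_apply, true_and, implies_true]

theorem ext_Pn (p : S3) : p ∈ Pn ↔ p ∈ Vt ∩ Sb 0 ∨ ∃ k, gg 0 k p ∈ Ann 0 := by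
  simp only [Vt_Sb, ext_0k]; rfl

theorem ext_Sb (k : ℕ) (p : S3) : gg 0 k p ∈ Sb 0 ↔ p ∈ Sb 0 := by
  rw [(chart_sets _).1, (chart_sets _).1, (Z_gg 0 k p).1, pow_zero, one_mul]

/-- On gg a b '' Aj 0 conjugate; elsewhere L = 0 and S (x, s) = x. The nine annuli are disjoint
(Vt_one, KL_one) and meet the spheres where L = 0; `Emb.paste` or a direct definition by cases. -/
theorem exists_E : ∃ L S, IsE L S := by
  obtain ⟨L₀, S₀, h⟩ := exists_S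
  obtain ⟨L, S, h1, h0⟩ := ext_def L₀ S₀
  have base : IsS L S := ext_congr h
    (fun x hx => by simpa only [ext_00] using (h1 0 0 x ((ext_00 x).symm ▸ hx)).1)
    fun x hx => by simpa only [ext_00] using (h1 0 0 x.1 ((ext_00 x.1).symm ▸ hx)).2 x.2
  have mem : ∀ a b, ∀ x ∈ bt Bd L, gg a b x.1 ∈ Aj 0 → (gg a b x.1, x.2) ∈ bt (Aj 0) L₀ :=
    fun a b x hx k => ⟨k, hx.2.1, (h1 a b _ k).1 ▸ hx.2.2⟩
  have six : ∀ a b, ∀ x ∈ bt Bd L, gg a b x.1 ∈ Aj 0 → gg a b (S x) ∈ Six 0 :=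
    fun a b x hx k => (h1 a b _ k).2 x.2 ▸ h.img.le ⟨_, mem a b x hx k, rfl⟩
  have zero : ∀ x, x ∈ orb (Sb 0 ∪ Sb 5) → L x = 0 := fun x hx => by
    by_cases c : x ∈ orb (Aj 0)
    · obtain ⟨a, b, c⟩ := c
      rw [(h1 a b x c).1, h.zero _ c]
      exact ext_sph (ext_aj c) ((ext_orb _ a b x).2 hx)
    · exact (h0 x c).1
  have s0 : ∀ x, S (x, 0) = x := fun x => by
    by_cases c : x ∈ orb (Aj 0)
    · obtain ⟨a, b, c⟩ := c
      exact (gg a b).injective (((h1 a b x c).2 0).trans (h.s0 _ c))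
    · exact (h0 x c).2 0
  have pos : ∀ x, 0 ≤ L x := fun x => by
    by_cases c : x ∈ orb (Aj 0)
    · obtain ⟨a, b, c⟩ := c
      exact (h1 a b x c).1 ▸ h.pos _ c
    · exact (h0 x c).1.ge
  have flat : ∀ x ∈ bt Bd L, L x.1 = 0 → x.2 = 0 ∧ S x = x.1 := fun x hx e => by
    have : x.2 = 0 := le_antisymm (e ▸ hx.2.2) hx.2.1
    exact ⟨this, by rw [← s0 x.1, ← this]⟩
  have near : ∀ x ∈ bt Bd L, ∀ a b, gg a b (S x) ∈ Six 0 → gg a b x.1 ∈ Aj 0 :=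
    fun x hx a b k => by
      by_cases c : x.1 ∈ orb (Aj 0)
      · obtain ⟨a', b', c⟩ := c
        rwa [ext_uniq (ext_six k) (ext_six (six a' b' x hx c))]
      · rw [(flat x hx (h0 _ c).1).2] at k
        exact Six_Vt.le ⟨k, (ext_Vt a b _).2 hx.1.1⟩
  have out : ∀ x ∈ bt Bd L, S x ∈ Vt → x.2 = 0 := fun x hx k => by
    by_cases c : x.1 ∈ orb (Aj 0)
    · obtain ⟨a, b, c⟩ := c
      have := h.out _ (mem a b x hx c) (by rw [← (h1 a b _ c).2]; exact k a b)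
      exact this
    · exact (flat x hx (h0 _ c).1).1
  have onto : ∀ p ∈ orb (Six 0), p ∈ S '' bt Bd L := by
    rintro p ⟨a, b, k⟩
    obtain ⟨y, hy, e⟩ := h.img.ge k
    have c : gg a b ((gg a b).symm y.1) = y.1 := (gg a b).apply_symm_apply _
    obtain ⟨c1, c2⟩ := h1 a b _ (c.symm ▸ hy.1)
    refine ⟨((gg a b).symm y.1, y.2), ⟨(ext_Bd a b _).1 (c.symm ▸ Aj_Vt hy.1), hy.2.1, ?_⟩,
      (gg a b).injective ?_⟩
    · rw [c1, c]; exact hy.2.2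
    · rw [c2, c]; exact e
  have pn : ∀ x ∈ bt Bd L, S x ∈ Pn → x.1 ∈ Bu ∧ x.2 = L x.1 := fun x hx k => by
    rcases (ext_Pn _).1 k with k | ⟨m, k⟩
    · have e := out x hx k.1
      have e' : S x = x.1 := by rw [← s0 x.1, ← e]
      exact ⟨⟨hx.1, 0, .inl (e' ▸ k.2)⟩, e.trans (zero _ (ext_self (.inl (e' ▸ k.2)))).symm⟩
    · have c := near x hx 0 m ((Six_Kt 0).2.1 k)
      obtain ⟨c1, c2⟩ := (h.topu _ (mem 0 m x hx c)).1 ((h1 0 m _ c).2 x.2 ▸ k)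
      exact ⟨⟨hx.1, m, .inr (ext_0k m ▸ ⟨c, c2⟩)⟩, c1.trans (h1 0 m _ c).1.symm⟩
  obtain ⟨C, cC, cov, C0, C1⟩ : ∃ C : Option (Fin 3 × Fin 3) → Set S3, (∀ i, IsClosed (C i)) ∧
      (∀ x ∈ Bd, ∃ i, x ∈ C i) ∧ C none = orb (Sb 0 ∪ Sb 5) ∧
      ∀ i, C (some i) = gg i.1 i.2 ⁻¹' Aj 0 := by
    refine ⟨fun i => i.elim (orb (Sb 0 ∪ Sb 5)) fun i => gg i.1 i.2 ⁻¹' Aj 0, ?_, fun x hx => ?_,
      rfl, fun _ => rfl⟩
    · rintro (_ | i)
      exacts [ext_closed ((closed_sets 0).2.2.2.2.2.1.union (closed_sets 5).2.2.2.2.2.1),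
        (closed_sets 0).2.2.2.2.1.preimage (gg _ _).continuous]
    · obtain ⟨a, b, (k | k) | k⟩ := (mem_orb _ _).1 hx.2
      exacts [⟨some (a, b), k⟩, ⟨none, _, _, .inl k⟩, ⟨none, _, _, .inr k⟩]
  refine ⟨L, S, base, ext_cont cC cov ?_, fun x _ => pos x, fun x _ => zero x,
    ⟨ext_cont (fun i => (cC i).preimage continuous_fst) (fun x hx => cov _ hx.1) ?_,
      fun x hx y hy e => ?_⟩, fun x _ => s0 x, out, subset_antisymm ?_ ?_, subset_antisymm ?_ ?_,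
    pn, fun t => ?_, fun γ hγ x hx => ?_⟩
  · rintro (_ | i)
    · exact continuousOn_const.congr fun x hx => zero x (C0 ▸ hx.2)
    · rw [C1]
      exact (h.cL.comp (gg _ _).continuous.continuousOn fun x hx => hx.2).congr
        fun x hx => (h1 _ _ x hx.2).1
  · rintro (_ | i)
    · exact continuousOn_fst.congr fun x hx => (flat x hx.1 (zero _ (C0 ▸ hx.2))).2
    · rw [C1]
      refine ((gg i.1 i.2).symm.continuous.comp_continuousOn (h.emb.1.comp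
        (f := fun x : S3 × ℝ => (gg i.1 i.2 x.1, x.2)) (by fun_prop)
        fun x hx => mem _ _ x hx.1 hx.2)).congr fun x hx => ?_
      exact (Homeomorph.eq_symm_apply _).2 ((h1 _ _ _ hx.2).2 x.2)
  · by_cases c : x.1 ∈ orb (Aj 0)
    · obtain ⟨a, b, c⟩ := c
      have c' := near y hy a b (e ▸ six a b x hx c)
      have := h.emb.2 (mem a b x hx c) (mem a b y hy c')
        (by rw [← (h1 a b _ c).2, ← (h1 a b _ c').2]; exact congrArg (gg a b) e)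
      exact Prod.ext ((gg a b).injective (Prod.mk.inj this).1) (Prod.mk.inj this).2
    · obtain ⟨c1, c2⟩ := flat x hx (h0 _ c).1
      have c3 := out y hy (e ▸ c2 ▸ hx.1.1)
      exact Prod.ext (by rw [← c2, e, ← s0 y.1, ← c3]) (c1.trans c3.symm)
  · rintro _ (k | ⟨x, hx, rfl⟩)
    · exact .inl k
    · by_cases c : x.1 ∈ orb (Aj 0)
      · obtain ⟨a, b, c⟩ := c
        exact .inr ⟨a, b, six a b x hx c⟩
      · exact .inl ((flat x hx (h0 _ c).1).2 ▸ hx.1.1)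
  · exact union_subset_union_right _ onto
  · rintro _ ⟨x, ⟨hx, m, k | k⟩, rfl⟩ <;> rw [← ext_0k] at k
    · have k' := (ext_Sb m x).1 k
      refine (ext_Pn _).2 (.inl ?_)
      show S (x, L x) ∈ _
      rw [zero x (ext_self (.inl k')), s0]
      exact ⟨hx.1, k'⟩
    · refine (ext_Pn _).2 (.inr ⟨m, ?_⟩)
      show gg 0 m (S (x, L x)) ∈ _
      obtain ⟨ka, kb⟩ : gg 0 m x ∈ Aj 0 ∧ 0 ≤ sd (nv 0) (xx (gg 0 m x).1) := k
      rw [(h1 0 m x ka).2, (h1 0 m x ka).1]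
      exact (h.topu (gg 0 m x, L₀ (gg 0 m x)) ⟨ka, h.pos _ ka, le_rfl⟩).2 ⟨rfl, kb⟩
  · intro p hp
    obtain ⟨x, hx, rfl⟩ : p ∈ S '' bt Bd L := by
      rcases (ext_Pn _).1 hp with k | ⟨m, k⟩
      exacts [⟨(p, 0), ⟨⟨k.1, ext_self (.inl (.inr k.2))⟩, le_rfl, pos p⟩, s0 p⟩,
        onto p ⟨0, m, (Six_Kt 0).2.1 k⟩]
    obtain ⟨c1, c2⟩ := pn x hx hp
    exact ⟨x.1, c1, by show S (x.1, L x.1) = S x; rw [← c2]⟩
  · obtain ⟨hA, -, -, ⟨r, -, -, hr⟩, s, hs, es⟩ := Mm_spec.2 t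
    have hm : (Mm t, L (Mm t)) ∈ bt (Aj 0) L := ⟨hA, pos _, le_rfl⟩
    have hd : sd (nv 0) (xx (Mm t).1) = 0 := by
      rw [hr, sd, mul_left_comm, mul_comm _ (nv 0), mul_conj, ← ofReal_mul, ofReal_im]
    have hk : S (Mm t, L (Mm t)) ∈ kc := (Hp_inter (e := 0) (e' := 5) (by decide)).le
      ⟨.inl ((base.topu _ hm).2 ⟨rfl, hd.ge⟩), .inl ((base.topv _ hm).2 ⟨rfl, hd.le⟩)⟩
    obtain ⟨s', hs', es'⟩ := base.slice _ hm
    have hx : xx (S (Mm t, L (Mm t))).1 = 0 := hk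
    have n := nsq_S3 (S (Mm t, L (Mm t)))
    rw [es, ← mul_assoc, ← ofReal_mul] at es'
    rw [nsq_xy, hx, es', normSq_zero, zero_add, normSq_mul, normSq_ofReal, normSq_eq_norm_sq,
      norm_exp_ofReal_mul_I] at n
    have e : s' * s = 1 := by nlinarith [mul_pos hs' hs]
    exact ext_xy (hx.trans (km_val t).1.symm) (by rw [es', e, (km_val t).2, ofReal_one, one_mul])
  · obtain ⟨δ, hδ, k1, k2⟩ := sym_gg hγ
    have hδ' : (∀ q, δ q ∈ Aj 0 ↔ q ∈ Aj 0) ∧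
        ∀ y ∈ bt (Aj 0) L₀, L₀ (δ y.1) = L₀ y.1 ∧ S₀ (δ y.1, y.2) = δ (S₀ y) := by
      rcases hδ with rfl | rfl | rfl
      exacts [⟨ext_sym (.inl rfl), h.sym _ (.inl rfl)⟩, ⟨ext_sym (.inr rfl), h.sym _ (.inr rfl)⟩,
        ⟨fun _ => .rfl, fun _ _ => ⟨rfl, rfl⟩⟩]
    by_cases c : x.1 ∈ orb (Aj 0)
    · obtain ⟨a, b, c⟩ := c
      obtain ⟨u, hu⟩ := k2 (a, b)
      obtain ⟨c1, c2⟩ := h1 u.1 u.2 (γ x.1) ((hu _).symm ▸ (hδ'.1 _).2 c)
      obtain ⟨d1, d2⟩ := hδ'.2 _ (mem a b x hx c)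
      refine ⟨by rw [c1, hu, d1, (h1 a b _ c).1], (gg u.1 u.2).injective ?_⟩
      rw [c2, hu, hu, d2, (h1 a b _ c).2]
    · have c' : γ x.1 ∉ orb (Aj 0) := fun ⟨a, b, k⟩ => by
        obtain ⟨u, hu⟩ := k1 (a, b)
        exact c ⟨u.1, u.2, (hδ'.1 _).1 (hu x.1 ▸ k)⟩
      exact ⟨(h0 _ c').1.trans (h0 _ c).1.symm, by rw [(h0 _ c').2, (h0 _ c).2]⟩

end Pool.Agent.Lib.MP_b7d179_gt.Gm
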