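import Pool.Agent.Lib.MP_b7d179_gt.G.Xt
import Pool.Agent.Lib.MP_b7d179_gt.G.KitD

/-! The hexagon. -/

namespace Pool.Agent.Lib.MP_b7d179_gt.Gm

open Set Metric Complex Stmt

theorem face1_ss (p : S3) : sw (sw p) = p := DFunLike.congr_fun sw_sw p

theorem face1_s0 (p : S3) : sw (g 0 p) = g 5 (sw p) := DFunLike.congr_fun (sw_g 0) p

theorem face1_c3 (i : Fin 6) (p : S3) : g i (g i (g i p)) = p := by
  have := DFunLike.congr_fun (g_cube i) p
  rwa [pow_succ, pow_two] at this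

theorem face1_msw {Q : Set S3} {p : S3} : p ∈ sw '' Q ↔ sw p ∈ Q :=
  ⟨fun ⟨q, hq, e⟩ => by rwa [← e, face1_ss], fun hp => ⟨_, hp, face1_ss p⟩⟩

theorem face1_pow {Q : Set S3} (hQ : ∀ p, g 0 p ∈ Q ↔ p ∈ Q) (k : ℕ) (p : S3) :
    (g 0 ^ k) p ∈ Q ↔ p ∈ Q := by
  induction k with
  | zero => rfl
  | succ k ih => rw [pow_succ', Homeomorph.mul_apply, hQ, ih]

theorem face1_kk {p : S3} (hp : p ∈ kc) : g 0 p ∉ kc := fun hq => by
  have e : gg 0 1 = g 0 := by rw [gg, pow_zero, pow_one, one_mul]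
  exact absurd (gg_one.1 (kc_free (a := 0) (b := 1) hp (e.symm ▸ hq))).2 (by decide)

theorem face1_kP : kc ⊆ Pn := Pn_sw.ge.trans inter_subset_left

theorem face1_cyc {Q : Set S3} (hQ : IsClosed Q) : IsClosed (cyc (g 0) Q) := by
  rw [show cyc (g 0) Q = _ from Set.ext (mem_cyc 0 Q)]
  exact (hQ.union ((g 0).isClosedMap _ hQ)).union ((g 0 ^ 2 : S3 ≃ₜ S3).isClosedMap _ hQ)

theorem face1_emb (γ : S3 ≃ₜ S3) : Emb γ univ := ⟨γ.continuous.continuousOn, γ.injective.injOn⟩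

/-- two angles of the arc with a prescribed sum -/
theorem face1_sum {a c : ℝ} (ha : a ∈ Icc (((2 : ℕ) : ℝ) * (Real.pi / 6)) ((5 : ℕ) * (Real.pi / 6)))
    (hc : km (c - a) ∈ ka 2 5) :
    ∃ n : ℤ, a + 2 * (Real.pi / 6) ≤ c + n * (2 * Real.pi) ∧ c + n * (2 * Real.pi) ≤ a + 5 * (Real.pi / 6) ∧
      2 * (Real.pi / 6) ≤ a ∧ a ≤ 5 * (Real.pi / 6) := by
  obtain ⟨t, ht, e⟩ := hc
  obtain ⟨n, e⟩ := km_inj e
  obtain ⟨h1, h2⟩ := ha
  obtain ⟨h3, h4⟩ := ht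
  push_cast at h1 h2 h3 h4
  exact ⟨n, by linarith, by linarith, h1, h2⟩

section
variable {U : Set S3} (h : Pre U)
include h

theorem face1_U (p : S3) : g 0 p ∈ U ↔ p ∈ U := by
  conv_lhs => rw [← h.inv]
  exact (g 0).injective.mem_set_image

theorem face1_P (k : ℕ) (p : S3) : (g 0 ^ k) p ∈ cHex U ↔ p ∈ cHex U :=
  face1_pow (fun q => and_congr (sym_Pn q).1 (face1_U h q)) k p

theorem face1_five {p : S3} (hp : p ∈ ka 2 5) (hs : sw p ∈ U) : p = kv 5 := by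
  have k := (sw_Kt p).2.2.2 (h.k1.ge hp).1
  obtain ⟨a, ha, rfl⟩ := hp
  have e := h.k1.le ⟨k, hs⟩
  rw [(km_sym a).2.2.1] at e
  obtain ⟨n, h1, h2, h3, h4⟩ := face1_sum ha e
  have p := Real.pi_pos
  have n1 : (0 : ℝ) < n := by nlinarith
  have n2 : (1 : ℝ) ≤ n := by exact_mod_cast (show (0 : ℤ) < n by exact_mod_cast n1)
  rw [kv, show a = ((5 : ℕ) : ℝ) * (Real.pi / 6) by push_cast; nlinarith]

theorem face1_two {p : S3} (hp : p ∈ ka 2 5) (hs : sw (g 0 p) ∈ U) : p = kv 2 := by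
  have k := (cj_mem 0 _).2.1.2 ((sw_Kt p).2.2.2 (h.k1.ge hp).1)
  have u : cj (sw p) ∈ U := by
    have e : (g 5 * cj : S3 ≃ₜ S3) (g 5 (sw p)) = cj (sw p) := by
      have := DFunLike.congr_fun (cj_g 5) (sw p)
      simp only [Homeomorph.mul_apply, pow_two] at this ⊢
      rw [this, face1_c3]
    rw [← e, ← h.invc, ← face1_s0]
    exact ⟨_, hs, rfl⟩
  obtain ⟨a, ha, rfl⟩ := hp
  have e := h.k1.le ⟨k, u⟩
  rw [(km_sym a).2.2.1, (km_sym _).2.1,
    show -(Real.pi / 3) - a + Real.pi = 2 * (Real.pi / 3) - a by ring] at e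
  obtain ⟨n, h1, h2, h3, h4⟩ := face1_sum ha e
  have p := Real.pi_pos
  have n1 : (n : ℝ) < 1 := by nlinarith
  have n2 : (n : ℝ) ≤ 0 := by
    exact_mod_cast (show n ≤ (0 : ℤ) by have : n < (1 : ℤ) := by exact_mod_cast n1
                                        omega)
  rw [kv, show a = ((2 : ℕ) : ℝ) * (Real.pi / 6) by push_cast; nlinarith]

theorem face1_ss' {p : S3} (hp : sw p ∈ U) : sw (g 0 p) ∉ U := by
  rw [face1_s0]; exact h.free _ hp

/-- consecutive sides meet in one vertex -/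
theorem face1_meet {x y : S3} (hx : x ∈ ka 2 5 ∪ cE U) (hy : y ∈ ka 2 5 ∪ cE U) (e : g 0 y = x) :
    y = kv 2 := by
  subst e
  rcases hx with hx | hx <;> rcases hy with hy | hy
  · exact absurd (h.k1.ge hx).1 (face1_kk (h.k1.ge hy).1)
  · refine absurd ⟨_, face1_msw.1 hy.2.2, (face1_s0 y).symm⟩ (disjoint_left.1 h.k2 ?_)
    exact (sw_Kt _).2.2.2 (h.k1.ge hx).1
  · exact face1_two h hy (face1_msw.1 hx.2.2)
  · exact absurd (face1_msw.1 hx.2.2) (face1_ss' h (face1_msw.1 hy.2.2))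

theorem face1_sub : ka 2 5 ∪ cE U ⊆ cHex U :=
  union_subset (fun _ hp => ⟨face1_kP (h.k1.ge hp).1, (h.k1.ge hp).2⟩) fun _ hp => ⟨hp.1, hp.2.1⟩

theorem face1_far {p : S3} (hp : p ∈ (g 5 * cj : S3 ≃ₜ S3) '' cHex U) : p ∉ Pn := by
  obtain ⟨q, hq, rfl⟩ := hp
  exact Pn_free _ ((sym_Pn q).2.1.2 hq.1)

end

variable {U : Set S3} (h : Pre U) (b : Ball U (rimU U)) (aE : Arc (cE U) (kv 5) (g 0 (kv 2)))
include h b aE

/-- `sph_split` on the rim of the prism -/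
theorem disc_hex : Disc (cHex U) (cyc (g 0) (ka 2 5 ∪ cE U)) := by
  have cU : IsClosed U := b.compact.isClosed
  have cP : IsClosed (cHex U) := closed_Pn.inter cU
  have cS : IsClosed (sw '' U) := sw.isClosedMap _ cU
  have a1 : Arc (ka 2 5) (kv 2) (kv 5) := arc_ka (by norm_num) (by norm_num)
  have w0 : Arc (ka 2 5 ∪ cE U) (kv 2) (g 0 (kv 2)) := a1.cat aE (Subset.antisymm
    (fun p hp => face1_five h hp.1 (face1_msw.1 hp.2.2.2))
    (singleton_subset_iff.2 ⟨a1.right, aE.left⟩))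
  have m := @face1_meet U h
  have sub : cyc (g 0) (ka 2 5 ∪ cE U) ⊆ cHex U := fun p ⟨k, hk⟩ =>
    (face1_P h k p).1 (face1_sub h hk)
  have two : ∃ u v p q, Two (cyc (g 0) (ka 2 5 ∪ cE U)) u v p q := by
    generalize ka 2 5 ∪ cE U = W at w0 m
    have w1 := w0.image (face1_emb (g 0)) (subset_univ _)
    have w2 := w1.image (face1_emb (g 0)) (subset_univ _)
    rw [face1_c3] at w2
    refine ⟨W, g 0 '' W ∪ g 0 '' (g 0 '' W), kv 2, g 0 (kv 2), w0, (w1.cat w2 ?_).symm, ?_, ?_⟩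
    · refine Subset.antisymm ?_ (singleton_subset_iff.2 ⟨w1.right, w2.left⟩)
      rintro _ ⟨⟨x, hx, rfl⟩, _, ⟨y, hy, rfl⟩, e⟩
      have e' := (g 0).injective e
      rw [← e', m hx hy e']
      rfl
    · refine Subset.antisymm ?_ (insert_subset ⟨w0.left, Or.inr w2.right⟩
        (singleton_subset_iff.2 ⟨w0.right, Or.inl w1.left⟩))
      rintro x ⟨hx, ⟨y, hy, e⟩ | ⟨_, ⟨y, hy, rfl⟩, e⟩⟩
      · exact Or.inr (by rw [← e, m hx hy e]; rfl)
      · exact Or.inl (m hy hx (by rw [← e, face1_c3]))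
    · ext p
      rw [mem_cyc, union_assoc, image_image, pow_two]
      rfl
  obtain ⟨u, v, p, q, two⟩ := two
  refine sph_split (Q := (g 5 * cj : S3 ≃ₜ S3) '' cHex U ∪ cyc (g 0) (cR U ∪ sw '' cSt U)) b.sph two
    cP (((g 5 * cj : S3 ≃ₜ S3).isClosedMap _ cP).union
      (face1_cyc ((cU.inter cS).union (sw.isClosedMap _ (closed_Pn.inter cS)))))
    (union_assoc _ _ _).symm (Subset.antisymm ?_ fun x hx => ⟨sub hx, ?_⟩) ?_ ?_
  · rintro x ⟨hx, hq | ⟨k, hk⟩⟩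
    · exact absurd hx.1 (face1_far h hq)
    · have hy := (face1_P h k x).2 hx
      rcases hk with hk | hk
      · exact ⟨k, Or.inr ⟨hy.1, hk⟩⟩
      · exact ⟨k, Or.inl (h.k1.le
          ⟨Pn_sw.le ⟨hy.1, image_mono inter_subset_left hk⟩, hy.2⟩)⟩
  · obtain ⟨k, hk | hk⟩ := hx
    · have hy := h.k1.ge hk
      exact Or.inr ⟨k, Or.inr (face1_msw.2
        ⟨face1_msw.1 (Pn_sw.ge hy.1).2, mem_image_of_mem _ hy.2⟩)⟩
    · exact Or.inr ⟨k, Or.inl hk.2⟩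
  · obtain ⟨x, hx, e⟩ := h.c1
    refine ⟨x, hx, fun ⟨k, hk⟩ => ?_⟩
    have f : (g 0 ^ k) x = x := (face1_pow (Q := {x}) (fun y =>
      ⟨fun hy => (g 0).injective (hy.trans e.symm), fun hy => by rw [hy]; exact e⟩) k x).2 rfl
    rw [f] at hk
    rcases hk with hk | hk
    · exact face1_kk (h.k1.ge hk).1 (e.symm ▸ (h.k1.ge hk).1)
    · exact face1_ss' h (face1_msw.1 hk.2.2) (e.symm ▸ face1_msw.1 hk.2.2)
  · obtain ⟨x, hx, -⟩ := h.c1
    exact ⟨_, Or.inl (mem_image_of_mem _ hx),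
      fun hc => face1_far h (mem_image_of_mem _ hx) (sub hc).1⟩
/-- the hexagon is connected, zt has no zero on it and is positive at kv 3 -/
theorem zpos_hex : ∀ p ∈ Pn ∩ U, 0 < zt p := by
  have c : Continuous zt := by unfold zt; fun_prop
  have p := Real.pi_pos
  have k : kv 3 ∈ ka 2 5 := ⟨_, ⟨by push_cast; linarith, by push_cast; linarith⟩, rfl⟩
  refine fun x hx => (disc_hex h b aE).conn.lt_of_ne c.continuousOn h.nz
    ⟨kv 3, face1_sub h (Or.inl k), ?_⟩ hx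
  refine (Hp_zt (Or.inl (kc_Ann 0 (h.k1.ge k).1))).1.2 ?_
  have e := congrArg im (km_val (((3 : ℕ) : ℝ) * (Real.pi / 6))).2
  rw [exp_ofReal_mul_I_im, show ((3 : ℕ) : ℝ) * (Real.pi / 6) = Real.pi / 2 by push_cast; ring,
    Real.sin_pi_div_two] at e
  rw [kv, show ((3 : ℕ) : ℝ) * (Real.pi / 6) = Real.pi / 2 by push_cast; ring]
  exact lt_of_lt_of_eq one_pos e.symm

end Pool.Agent.Lib.MP_b7d179_gt.Gm
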