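import Pool.Agent.Lib.MP_b7d179_gt.G.Xt
import Pool.Agent.Lib.MP_b7d179_gt.G.KitD

/-! The rectangle. -/

namespace Pool.Agent.Lib.MP_b7d179_gt.Gm

open Set Metric Complex Stmt

theorem face2_ss (p : S3) : sw (sw p) = p := DFunLike.congr_fun sw_sw p
theorem face2_cc (p : S3) : cj (cj p) = p := DFunLike.congr_fun cj_cj p
theorem face2_ggg (i : Fin 6) (p : S3) : g i (g i (g i p)) = p := DFunLike.congr_fun (g_cube i) p
theorem face2_ab (p : S3) : g 5 (g 0 p) = g 0 (g 5 p) := DFunLike.congr_fun (g_comm 5) p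
theorem face2_sa (p : S3) : sw (g 5 p) = g 0 (sw p) := DFunLike.congr_fun (sw_g 5) p
theorem face2_sb (p : S3) : sw (g 0 p) = g 5 (sw p) := DFunLike.congr_fun (sw_g 0) p
theorem face2_cg (i : Fin 6) (p : S3) : cj (g i p) = g i (g i (cj p)) := DFunLike.congr_fun (cj_g i) p
theorem face2_cb (p : S3) : cj (g 0 p) = g 0 (g 0 (cj p)) := face2_cg 0 p
theorem face2_ac (p : S3) : g 5 (cj p) = cj (g 5 (g 5 p)) := by
  rw [face2_cg, face2_cg, face2_ggg]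
theorem face2_sc (p : S3) : sw (cj p) = cj (sw p) := Subtype.ext (by
  change lE _ _ _ _ (cjE p.1) = cjE (lE _ _ _ _ p.1)
  simp only [cjE, lE, map_add, map_mul, conj_ofReal])
theorem face2_io (p : S3) : io p = g 5 (g 0 (cj p)) := rfl

theorem face2_im {γ δ : S3 → S3} (h : ∀ p, γ (δ p) = p) (h' : ∀ p, δ (γ p) = p) (Q : Set S3) (p : S3) :
    p ∈ γ '' Q ↔ δ p ∈ Q :=
  ⟨by rintro ⟨q, hq, rfl⟩; rwa [h'], fun hq => ⟨_, hq, h p⟩⟩

theorem face2_ms (Q : Set S3) (p : S3) : p ∈ sw '' Q ↔ sw p ∈ Q := face2_im face2_ss face2_ss Q p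
theorem face2_mg (i : Fin 6) (Q : Set S3) (p : S3) : p ∈ g i '' Q ↔ g i (g i p) ∈ Q :=
  face2_im (δ := fun p => g i (g i p)) (face2_ggg i) (face2_ggg i) Q p
theorem face2_mg2 (i : Fin 6) (Q : Set S3) (p : S3) : p ∈ (g i ^ 2 : S3 ≃ₜ S3) '' Q ↔ g i p ∈ Q :=
  face2_im (γ := fun p => g i (g i p)) (δ := g i) (face2_ggg i) (face2_ggg i) Q p
theorem face2_ii (p : S3) : io (io p) = p := by
  simp only [face2_io, face2_ab, face2_ac, face2_cb, face2_cc, face2_ggg]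
theorem face2_mi (Q : Set S3) (p : S3) : p ∈ io '' Q ↔ g 5 (g 0 (cj p)) ∈ Q :=
  face2_im face2_ii face2_ii Q p
theorem face2_mc (Q : Set S3) (p : S3) : p ∈ (g 5 * cj : S3 ≃ₜ S3) '' Q ↔ g 5 (cj p) ∈ Q := by
  have k : ∀ p, g 5 (cj (g 5 (cj p))) = p := fun p => by simp only [face2_ac, face2_cc, face2_ggg]
  exact face2_im (δ := fun p => g 5 (cj p)) k k Q p

theorem face2_ang {U : Set S3} (h : Pre U) {p : S3} (hk : p ∈ kc) (hu : p ∈ U) :
    (sw p ∈ U → p = kv 5) ∧ (cj (sw p) ∈ U → p = kv 2) := by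
  have pi := Real.pi_pos
  have k : ∀ q ∈ kc, q ∈ U → ∃ t, Real.pi / 3 ≤ t ∧ t ≤ 5 * (Real.pi / 6) ∧ km t = q := fun q a b => by
    obtain ⟨t, ⟨h1, h2⟩, e⟩ : q ∈ ka 2 5 := h.k1 ▸ ⟨a, b⟩
    exact ⟨t, by push_cast at h1; linarith, by exact_mod_cast h2, e⟩
  have ks := (sw_Kt p).2.2.2 hk
  obtain ⟨t, t1, t2, rfl⟩ := k p hk hu
  constructor
  · intro hs
    obtain ⟨s, s1, s2, e⟩ := k _ ks hs
    obtain ⟨n, e⟩ := km_inj (e.trans (km_sym t).2.2.1)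
    have : (0 : ℝ) < n := by nlinarith
    have : (1 : ℝ) ≤ n := by exact_mod_cast this
    exact congrArg km (by push_cast; nlinarith)
  · intro hs
    obtain ⟨s, s1, s2, e⟩ := k _ ((cj_mem 0 _).2.1.2 ks) hs
    rw [(km_sym t).2.2.1, (km_sym _).2.1] at e
    obtain ⟨n, e⟩ := km_inj e
    have : (n : ℝ) < 1 := by nlinarith
    have : (n : ℝ) ≤ 0 := by exact_mod_cast Int.lt_add_one_iff.1 (by exact_mod_cast this : n < 0 + 1)
    exact congrArg km (by push_cast; nlinarith)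

/-- `sph_split` on the rim of the prism; the corners are kv 5, g 0 (kv 2), g 5 (g 0 (kv 11)), g 5 (kv 8) -/
theorem disc_R {U : Set S3} (h : Pre U) (b : Ball U (rimU U)) (aE : Arc (cE U) (kv 5) (g 0 (kv 2))) :
    Disc (cR U) (cE U ∪ sw '' cE U ∪ io '' cE U ∪ io '' (sw '' cE U)) := by
  have ub : ∀ p, g 0 p ∈ U ↔ p ∈ U := fun p => by
    conv_lhs => rw [← h.inv]
    exact (g 0).injective.mem_set_image
  have uc : ∀ p, cj p ∈ U ↔ g 5 p ∈ U := fun p => by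
    conv_lhs => rw [← h.invc]
    rw [face2_mc, face2_cc]
  have pb : ∀ p, g 0 p ∈ Pn ↔ p ∈ Pn := fun p => (sym_Pn p).1
  have pc : ∀ p, cj p ∈ Pn ↔ p ∈ Pn := fun p => (sym_Pn p).2.1
  have pk : ∀ p, p ∈ kc ↔ p ∈ Pn ∧ sw p ∈ Pn := fun p => by rw [← Pn_sw, mem_inter_iff, face2_ms]
  have fr : ∀ {Q}, Free (g 5) Q → ∀ p, ¬ (p ∈ Q ∧ g 5 p ∈ Q) ∧ ¬ (g 5 p ∈ Q ∧ g 5 (g 5 p) ∈ Q) ∧
      ¬ (g 5 (g 5 p) ∈ Q ∧ p ∈ Q) := fun f p =>
    ⟨fun k => f _ k.1 k.2, fun k => f _ k.1 k.2, fun k => f _ k.1 (by rw [face2_ggg]; exact k.2)⟩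
  have pu : ∀ p, ¬ (g 5 p ∈ Pn ∧ p ∈ U) := fun p k => disjoint_left.1 h.pn k.1 ⟨p, k.2, rfl⟩
  have mE : ∀ p, p ∈ cE U ↔ p ∈ Pn ∧ p ∈ U ∧ sw p ∈ U := fun p => by
    simp only [cE, cR, mem_inter_iff, face2_ms]
  have m1 : ∀ p, p ∈ sw '' cE U ↔ sw p ∈ Pn ∧ p ∈ U ∧ sw p ∈ U := fun p => by
    simp only [face2_ms, mE, face2_ss]; tauto
  have m2 : ∀ p, p ∈ io '' cE U ↔ g 5 (g 5 p) ∈ Pn ∧ p ∈ U ∧ sw p ∈ U := fun p => by
    simp only [face2_mi, mE, face2_sa, face2_sb, face2_sc, face2_ab, face2_ac, ub, uc, pb, pc,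
      face2_ggg]
  have m3 : ∀ p, p ∈ io '' (sw '' cE U) ↔ g 5 (g 5 (sw p)) ∈ Pn ∧ p ∈ U ∧ sw p ∈ U := fun p => by
    simp only [face2_mi, m1, face2_sa, face2_sb, face2_sc, face2_ab, face2_ac, ub, uc, pb, pc,
      face2_ggg]
  obtain ⟨x1, x2, x3⟩ := (mE _).1 aE.left
  obtain ⟨y1, y2, y3⟩ := (mE _).1 aE.right
  have kk : ∀ m, kv m ∈ kc := fun m => (km_val _).1
  have sx : sw (kv 5) = kv 5 :=
    (face2_ang h ((sw_Kt _).2.2.2 (kk 5)) x3).1 (by rwa [face2_ss])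
  rw [face2_sb, ← uc] at y3
  have sy : cj (sw (kv 2)) = kv 2 :=
    (face2_ang h ((cj_mem 0 _).2.1.2 ((sw_Kt _).2.2.2 (kk 2))) y3).2
      (by rwa [face2_sc, face2_cc, face2_ss, ← ub])
  have e3 : io (sw (g 0 (kv 2))) = g 0 (kv 2) := by
    rw [face2_io, face2_sb, face2_cg, sy, ← face2_ab, ← face2_ab, face2_ggg]
  have em : ∀ γ : S3 ≃ₜ S3, Emb γ univ := fun γ => ⟨γ.continuous.continuousOn, γ.injective.injOn⟩
  have a1 := aE.image (em sw) (subset_univ _)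
  have a2 := aE.image (em io) (subset_univ _)
  have a3 := a1.image (em io) (subset_univ _)
  rw [sx] at a1 a3
  rw [e3] at a3
  have i3 : cE U ∩ io '' (sw '' cE U) = {g 0 (kv 2)} := by
    refine eq_singleton_iff_unique_mem.2 ⟨⟨aE.right, a3.right⟩, fun p ⟨k, l⟩ => ?_⟩
    obtain ⟨q, rfl⟩ := (g 0).surjective p
    simp only [mE, m3, face2_sb, face2_ggg, ub, pb, ← uc] at k l
    exact congrArg _ ((face2_ang h ((pk q).2 ⟨k.1, l.1⟩) k.2.1).2 k.2.2)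
  have i1 : cE U ∩ sw '' cE U = {kv 5} := by
    refine eq_singleton_iff_unique_mem.2 ⟨⟨aE.left, a1.left⟩, fun p ⟨k, l⟩ => ?_⟩
    rw [mE] at k
    exact (face2_ang h ((pk p).2 ⟨k.1, ((m1 p).1 l).1⟩) k.2.1).1 k.2.2
  have i2 : sw '' cE U ∩ io '' cE U = {sw (g 0 (kv 2))} := by
    rw [← image_singleton, ← i3]
    ext p
    simp only [mem_inter_iff, face2_ms, mE, m2, m3, face2_ss]
    clear * -
    grind
  have e2 : io (g 0 (kv 2)) = sw (g 0 (kv 2)) := by rw [← e3, face2_ii, e3]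
  rw [e2] at a2
  have i4 : io '' cE U ∩ io '' (sw '' cE U) = {io (kv 5)} := by
    rw [← image_inter io.injective, i1, image_singleton]
  refine sph_split (Q := U ∩ {p | p ∈ Pn ∨ g 5 (g 5 p) ∈ Pn ∨ g 5 (sw p) ∈ U ∨ g 5 (g 5 (sw p)) ∈ U ∨
    sw p ∈ Pn ∨ g 5 (sw p) ∈ Pn ∨ g 5 (g 5 (sw p)) ∈ Pn}) b.sph
    ⟨aE.cat a3.symm i3, a1.cat a2.symm i2, ?_, ?_⟩ ?_ ?_ ?_ ?_ ?_ ?_
  · rw [insert_eq, ← i1, ← i4]
    ext p
    have k := fr Pn_free p
    have l := fr Pn_free (sw p)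
    simp only [mem_inter_iff, mem_union, mE, m1, m2, m3]
    clear * - k l
    grind
  · ac_rfl
  · exact b.compact.isClosed.inter (b.compact.image sw.continuous).isClosed
  · have k : ∀ {Q : Set S3} (f : S3 → S3), IsClosed Q → Continuous f → IsClosed {p | f p ∈ Q} :=
      fun _ q f => q.preimage f
    have u := b.compact.isClosed
    have n := closed_Pn
    have a := (g 5).continuous
    have s := sw.continuous
    refine u.inter ?_
    simp only [ofPred_or]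
    refine .union n (.union (k _ n ?_) (.union (k _ u ?_) (.union (k _ u ?_) (.union (k _ n ?_)
      (.union (k _ n ?_) (k _ n ?_))))))
    all_goals fun_prop
  · ext p
    simp only [rimU, cHex, cR, cSt, mem_cyc, mem_union, mem_inter_iff, mem_ofPred_eq, face2_mc, face2_mg,
      face2_mg2, face2_ms, face2_ss, face2_sa, face2_sb, face2_ac, ub, uc, pc, face2_ggg]
    clear * -
    grind
  · ext p
    have k := fr h.free (sw p)
    have l := pu (sw p)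
    simp only [cR, mem_union, mem_inter_iff, mem_ofPred_eq, mE, m1, m2, m3, face2_ms]
    clear * - k l
    grind
  · obtain ⟨p, hp, s, i, k⟩ := h.c2
    have e : g 5 (g 5 p) ∈ Pn ↔ p ∈ Pn := by
      conv_rhs => rw [← i, face2_io, face2_ab, face2_ac, pb, pc]
    refine ⟨p, hp, fun l => k ((pk p).2 ?_)⟩
    simp only [mem_union, mE, m1, m2, m3, s, e] at l ⊢
    clear * - l
    grind
  · obtain ⟨p, hp, e⟩ := h.c1
    refine ⟨p, ⟨hp.2, .inl hp.1⟩, fun l => ?_⟩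
    have k : sw p ∈ U := by
      simp only [mem_union, mE, m1, m2, m3] at l
      clear * - l
      grind
    exact h.free _ k (by rwa [← face2_sb, e])

end Pool.Agent.Lib.MP_b7d179_gt.Gm
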