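import Pool.Agent.Lib.MP_b7d179_gt.G.Face1

/-! The half strip. -/

namespace Pool.Agent.Lib.MP_b7d179_gt.Gm

open Set Metric Complex Stmt

theorem f3_zt (t : ℝ) : zt (km t) = √2 * Real.sin t := by
  have a := (km_val t).1
  have b := (km_val t).2
  have a1 : (km t).1.1.re = 0 := congrArg re a
  have a2 : (km t).1.2.re = 0 := congrArg im a
  have b2 : (km t).1.2.im = Real.sin t := (congrArg im b).trans (exp_ofReal_mul_I_im t)
  simp [zt, a1, a2, b2, mul_comm]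

theorem f3_pos {t : ℝ} : (0 ≤ zt (km t) ↔ 0 ≤ Real.sin t) ∧ (zt (km t) = 0 ↔ Real.sin t = 0) := by
  have : (0 : ℝ) < √2 := by positivity
  rw [f3_zt, mul_nonneg_iff_of_pos_left this, mul_eq_zero, or_iff_right this.ne']
  exact ⟨Iff.rfl, Iff.rfl⟩

theorem f3_adj {a b c : ℕ} (h : c < a + 12) {x : S3} (h1 : x ∈ ka a b) (h2 : x ∈ ka b c) :
    x = kv b := by
  have p := Real.pi_pos
  have h' : (c : ℝ) < a + 12 := by exact_mod_cast h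
  obtain ⟨s, hs, rfl⟩ := h1
  obtain ⟨t, ht, e⟩ := h2
  obtain ⟨k, rfl⟩ := km_inj e
  have k1 : (k : ℝ) < 1 := by nlinarith [ht.2, hs.1]
  have k2 : (-1 : ℝ) < k := by nlinarith [ht.1, hs.2]
  obtain rfl : k = 0 := by
    have : k < 1 := by exact_mod_cast k1
    have : -1 < k := by exact_mod_cast k2
    omega
  exact congrArg km (le_antisymm hs.2 (by simpa using ht.1))

theorem f3_kc {a b : ℕ} {x : S3} (h : x ∈ ka a b) : x ∈ kc := by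
  obtain ⟨t, -, rfl⟩ := h
  exact (km_val t).1

theorem f3_ss (p : S3) : sw (sw p) = p := DFunLike.congr_fun sw_sw p

theorem f3_cc (p : S3) : cj (cj p) = p := DFunLike.congr_fun cj_cj p

theorem f3_ggg (i : Fin 6) (p : S3) : g i (g i (g i p)) = p := DFunLike.congr_fun (g_cube i) p

theorem f3_cg (i : Fin 6) (p : S3) : cj (g i p) = g i (g i (cj p)) := DFunLike.congr_fun (cj_g i) p

theorem f3_s0 (p : S3) : sw (g 0 p) = g 5 (sw p) := DFunLike.congr_fun (sw_g 0) p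

theorem f3_s5 (p : S3) : sw (g 5 p) = g 0 (sw p) := DFunLike.congr_fun (sw_g 5) p

theorem f3_sw (A : Set S3) (p : S3) : p ∈ sw '' A ↔ sw p ∈ A :=
  ⟨fun ⟨q, h, e⟩ => by rwa [← e, f3_ss], fun h => ⟨_, h, f3_ss p⟩⟩

theorem f3_gc (A : Set S3) (p : S3) : p ∈ (g 5 * cj : S3 ≃ₜ S3) '' A ↔ g 5 (cj p) ∈ A := by
  have k : ∀ q, g 5 (cj (g 5 (cj q))) = q := fun q => by rw [f3_cg, f3_cc, f3_ggg]
  exact ⟨fun ⟨q, h, e⟩ => by rw [← e]; exact (k q).symm ▸ h, fun h => ⟨_, h, k p⟩⟩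

theorem f3_cyc {A : Set S3} {p : S3} (h : sw p ∈ cyc (g 0) (sw '' A)) :
    p ∈ A ∨ g 5 p ∈ A ∨ g 5 (g 5 p) ∈ A := by
  rcases (mem_cyc 0 _ _).1 h with (k | ⟨q, k, e⟩) | ⟨q, k, e⟩
  · exact .inl (by rwa [f3_sw, f3_ss] at k)
  · refine .inr (.inr ?_)
    rwa [← f3_ss p, ← e, f3_s0, f3_ggg, ← f3_sw]
  · refine .inr (.inl ?_)
    rwa [← f3_ss p, ← e, show (g 0 ^ 2 : S3 ≃ₜ S3) q = g 0 (g 0 q) from rfl, f3_s0, f3_s0, f3_ggg,
      ← f3_sw]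

theorem f3_kP {x : S3} (h : x ∈ kc) : x ∈ Pn ∧ sw x ∈ Pn := by
  rw [← Pn_sw] at h
  exact ⟨h.1, (f3_sw _ _).1 h.2⟩

section
variable {U : Set S3} (h : Pre U)
include h

theorem f3_U (p : S3) : g 5 p ∈ U ↔ cj p ∈ U := by
  have := f3_gc U (cj p)
  rwa [h.invc, f3_cc, iff_comm] at this

theorem f3_k1 {x : S3} : x ∈ ka 5 6 ↔ x ∈ kc ∧ sw x ∈ U ∧ 0 ≤ zt x := by
  have p := Real.pi_pos
  have e : ∀ t, sw (km t) = km (5 * Real.pi / 3 - t) := fun t => by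
    rw [(km_sym t).2.2.1, ← (km_sym _).2.2.2]; congr 1; ring
  constructor
  · rintro ⟨t, ⟨t1, t2⟩, rfl⟩
    push_cast at t1 t2
    refine ⟨(km_val t).1, (h.k1.ge ⟨5 * Real.pi / 3 - t, ⟨?_, ?_⟩, (e t).symm⟩).2, f3_pos.1.2
      (Real.sin_nonneg_of_nonneg_of_le_pi (by linarith) (by linarith))⟩ <;> push_cast <;> linarith
  · rintro ⟨a, b, c⟩
    obtain ⟨s, ⟨s1, s2⟩, k⟩ := h.k1.le ⟨(sw_Kt x).2.2.2 a, b⟩
    push_cast at s1 s2
    obtain rfl : x = km (5 * Real.pi / 3 - s) := by rw [← e, k, f3_ss]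
    refine ⟨_, ⟨?_, ?_⟩, rfl⟩ <;> push_cast
    · linarith
    · by_contra! n
      have := Real.sin_pos_of_pos_of_lt_pi (x := 5 * Real.pi / 3 - s - Real.pi) (by linarith)
        (by linarith)
      rw [Real.sin_sub_pi] at this
      linarith [f3_pos.1.1 c]

theorem f3_k2 {x : S3} : x ∈ ka 0 2 ↔ x ∈ kc ∧ sw (g 0 x) ∈ U ∧ 0 ≤ zt x := by
  have p := Real.pi_pos
  have e : ∀ t, cj (sw (km t)) = km (2 * Real.pi / 3 - t) := fun t => by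
    rw [(km_sym t).2.2.1, (km_sym _).2.1]; congr 1; ring
  rw [f3_s0, f3_U h]
  constructor
  · rintro ⟨t, ⟨t1, t2⟩, rfl⟩
    push_cast at t1 t2
    refine ⟨(km_val t).1, (h.k1.ge ⟨2 * Real.pi / 3 - t, ⟨?_, ?_⟩, (e t).symm⟩).2, f3_pos.1.2
      (Real.sin_nonneg_of_nonneg_of_le_pi (by linarith) (by linarith))⟩ <;> push_cast <;> linarith
  · rintro ⟨a, b, c⟩
    obtain ⟨s, ⟨s1, s2⟩, k⟩ := h.k1.le ⟨(cj_mem 0 _).2.1.2 ((sw_Kt x).2.2.2 a), b⟩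
    push_cast at s1 s2
    obtain rfl : x = km (2 * Real.pi / 3 - s) :=
      sw.injective (cj.injective (by rw [e, ← k]; congr 1; ring))
    refine ⟨_, ⟨?_, ?_⟩, rfl⟩ <;> push_cast
    · by_contra! n
      have := Real.sin_neg_of_neg_of_neg_pi_lt (x := 2 * Real.pi / 3 - s) (by linarith)
        (by linarith)
      linarith [f3_pos.1.1 c]
    · linarith

end

theorem f3_g0 (x : S3) : 0 ≤ zt (g 0 x) ↔ 0 ≤ zt x := by
  rw [le_iff_lt_or_eq, le_iff_lt_or_eq, (g_zt x).1, eq_comm, (g_zt x).2, eq_comm]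

theorem f3_two {U : Set S3} (h : Pre U) (zp : ∀ p ∈ Pn ∩ U, 0 < zt p)
    (aE : Arc (cE U) (kv 5) (g 0 (kv 2))) (aQ : Arc (cQ U) (kv 6) (g 0 (kv 0))) :
    Two (cQ U ∪ ka 5 6 ∪ cE U ∪ g 0 '' ka 0 2) (ka 5 6 ∪ cQ U) (cE U ∪ g 0 '' ka 0 2) (kv 5)
      (g 0 (kv 0)) := by
  have p := Real.pi_pos
  have a1 : Arc (ka 5 6) (kv 5) (kv 6) := arc_ka (by norm_num) (by norm_num)
  have a2 : Arc (g 0 '' ka 0 2) (g 0 (kv 0)) (g 0 (kv 2)) :=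
    (arc_ka (by norm_num) (by norm_num)).image (B := univ)
      ⟨(g 0).continuous.continuousOn, (g 0).injective.injOn⟩ (subset_univ _)
  have u := a1.cat aQ (Subset.antisymm (by
    rintro _ ⟨⟨t, ⟨t1, t2⟩, rfl⟩, k⟩
    push_cast at t1 t2
    refine congrArg km (le_antisymm (by simpa using t2) (not_lt.1 fun n => ?_))
    push_cast at n
    exact (Real.sin_pos_of_pos_of_lt_pi (by linarith) (by linarith)).ne' (f3_pos.2.1 k.2))
    (singleton_subset_iff.2 ⟨a1.right, aQ.left⟩))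
  have v := aE.cat a2.symm (Subset.antisymm (by
    rintro _ ⟨k, x, hx, rfl⟩
    have : x ∈ U := ((g 0).injective.mem_set_image).1 (h.inv.ge k.2.1)
    exact congrArg (g 0) (f3_adj (by norm_num) hx (h.k1.le ⟨f3_kc hx, this⟩)))
    (singleton_subset_iff.2 ⟨aE.right, a2.right⟩))
  refine ⟨u, v, Subset.antisymm ?_ (subset_inter u.ends v.ends), by ac_rfl⟩
  rintro x ⟨k | k, l | ⟨y, l, rfl⟩⟩
  · exact .inl (f3_adj (by norm_num) (h.k1.le ⟨f3_kc k, l.2.1⟩) k)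
  · have e : gg 0 1 y = g 0 y := by simp [gg]
    have := gg_one.1 (kc_free (a := 0) (b := 1) (f3_kc l) (by rw [e]; exact f3_kc k))
    omega
  · exact absurd k.2 (zp x ⟨l.1, l.2.1⟩).ne'
  · obtain ⟨t, ⟨t1, t2⟩, rfl⟩ := l
    push_cast at t1 t2
    refine .inr (congrArg (fun s => g 0 (km s)) (le_antisymm (not_lt.1 fun n => ?_)
      (by simpa using t1)))
    push_cast at n
    exact (Real.sin_pos_of_pos_of_lt_pi (by linarith) (by linarith)).ne'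
      (f3_pos.2.1 ((g_zt _).2.1 k.2))

/-- `sph_split` on sw '' rimU U, the rim of sw '' U; the other edge of the strip is Pn ∩ sw U ∩ g 5 ^ 2 U,
where zt < 0 -/
theorem disc_HS {U : Set S3} (h : Pre U) (b : Ball U (rimU U)) (aE : Arc (cE U) (kv 5) (g 0 (kv 2)))
    (aQ : Arc (cQ U) (kv 6) (g 0 (kv 0))) :
    Disc (cHS U) (cQ U ∪ ka 5 6 ∪ cE U ∪ g 0 '' ka 0 2) := by
  have zp := zpos_hex h b aE
  have b' := b.image (f := sw) (A := univ) ⟨sw.continuous.continuousOn, sw.injective.injOn⟩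
    (subset_univ _)
  have cU := b.compact.isClosed
  have cz : Continuous zt := by unfold zt; fun_prop
  have PS : cHS U ⊆ sw '' rimU U := fun x hx => ⟨sw x, .inr ⟨0, .inr ⟨x, hx.1, rfl⟩⟩, f3_ss x⟩
  have cP : cQ U ∪ ka 5 6 ∪ cE U ∪ g 0 '' ka 0 2 ⊆ cHS U := by
    rintro x (((k | k) | k) | ⟨y, k, rfl⟩)
    · exact ⟨k.1, k.2.ge⟩
    · obtain ⟨k1, k2, k3⟩ := (f3_k1 h).1 k
      exact ⟨⟨(f3_kP k1).1, (f3_sw _ _).2 k2⟩, k3⟩
    · exact ⟨⟨k.1, k.2.2⟩, (zp x ⟨k.1, k.2.1⟩).le⟩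
    · obtain ⟨k1, k2, k3⟩ := (f3_k2 h).1 k
      exact ⟨⟨(sym_Pn y).1.2 (f3_kP k1).1, (f3_sw _ _).2 k2⟩, (f3_g0 y).2 k3⟩
  have e2 : ∀ x, g 5 (cj (sw x)) ∈ Pn ↔ sw (g 0 (g 0 x)) ∈ Pn := fun x => by
    rw [← (sym_Pn _).2.1, f3_cg, f3_cc, f3_s0, f3_s0]
  obtain ⟨q, q1, q2, q3, q4⟩ := h.c3
  refine sph_split (Q := sw '' rimU U ∩ {x | sw x ∈ Pn ∨ sw (g 0 (g 0 x)) ∈ Pn ∨ zt x ≤ 0 ∨
      (x ∈ U ∨ g 5 x ∈ U ∨ g 5 (g 5 x) ∈ U) ∨ g 5 x ∈ Pn ∨ g 5 (g 5 x) ∈ Pn}) b'.sph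
    (f3_two h zp aE aQ) ((closed_Pn.inter b'.compact.isClosed).inter
      (isClosed_le continuous_const cz)) (b'.rim_compact.isClosed.inter ?_)
    (Subset.antisymm (union_subset PS inter_subset_left) fun x hx => ?_)
    (Subset.antisymm ?_ fun x hx => ⟨cP hx, PS (cP hx), ?_⟩) ⟨q, ⟨q1, q2.le⟩, ?_⟩
    ⟨g 5 q, ⟨⟨g 0 (sw q), .inr ((mem_cyc 0 _ _).2 (.inl (.inr ⟨_, .inr ⟨q, q1, rfl⟩, rfl⟩))),
      by rw [f3_s0, f3_ss]⟩, ?_⟩, fun k => Pn_free q q1.1 (cP k).1.1⟩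
  · exact (closed_Pn.preimage (by fun_prop)).union ((closed_Pn.preimage (by fun_prop)).union
      ((isClosed_le cz continuous_const).union ((cU.union ((cU.preimage (by fun_prop)).union
        (cU.preimage (by fun_prop)))).union ((closed_Pn.preimage (by fun_prop)).union
          (closed_Pn.preimage (by fun_prop))))))
  · rcases (f3_sw _ _).1 hx with (k | k) | k
    · exact .inr ⟨hx, .inl k.1⟩
    · exact .inr ⟨hx, .inr (.inl ((e2 x).1 ((f3_gc _ _).1 k).1))⟩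
    · obtain ⟨n, k⟩ := k
      rcases k with k | k
      · exact .inr ⟨hx, .inr (.inr (.inr (.inl (f3_cyc ⟨n, k.2⟩))))⟩
      rcases f3_cyc ⟨n, k⟩ with k | k | k
      · rcases le_total 0 (zt x) with l | l
        exacts [.inl ⟨k, l⟩, .inr ⟨hx, .inr (.inr (.inl l))⟩]
      · exact .inr ⟨hx, .inr (.inr (.inr (.inr (.inl k.1))))⟩
      · exact .inr ⟨hx, .inr (.inr (.inr (.inr (.inr k.1))))⟩
  · rintro x ⟨⟨⟨x1, x2⟩, x3⟩, -, k | k | k | (k | k | k) | k | k⟩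
    · exact .inl (.inl (.inr ((f3_k1 h).2
        ⟨Pn_sw.le ⟨x1, (f3_sw _ _).2 k⟩, (f3_sw _ _).1 x2, x3⟩)))
    · refine .inr ⟨g 0 (g 0 x), (f3_k2 h).2 ⟨Pn_sw.le ⟨(sym_Pn _).1.2 ((sym_Pn _).1.2 x1),
        (f3_sw _ _).2 k⟩, ?_, (f3_g0 _).2 ((f3_g0 _).2 x3)⟩, f3_ggg 0 x⟩
      rw [f3_ggg]
      exact (f3_sw _ _).1 x2
    · exact .inl (.inl (.inl ⟨⟨x1, x2⟩, le_antisymm k x3⟩))
    · exact .inl (.inr ⟨x1, k, x2⟩)
    · have := zp _ ⟨(sym_Pn x).2.1.2 x1, (f3_U h x).1 k⟩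
      rw [cj_zt] at this
      exact absurd x3 (not_le.2 (neg_pos.1 this))
    · exact (disjoint_left.1 h.pn x1 ⟨_, k, f3_ggg 5 x⟩).elim
    · exact (Pn_free x x1 k).elim
    · exact (Pn_free _ k ((f3_ggg 5 x).symm ▸ x1)).elim
  · rcases hx with ((k | k) | k) | ⟨y, k, rfl⟩
    · exact .inr (.inr (.inl k.2.le))
    · exact .inl (f3_kP (f3_kc k)).2
    · exact .inr (.inr (.inr (.inl (.inl k.2.1))))
    · refine .inr (.inl ?_)
      rw [f3_ggg]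
      exact (f3_kP (f3_kc k)).2
  · rintro (((k | k) | k) | ⟨y, k, rfl⟩)
    · exact q2.ne' k.2
    · exact kc_Vt (a := 0) (b := 0) (f3_kc k) (by simpa [gg] using q4)
    · exact q3 k.2.1
    · exact kc_Vt (a := 0) (b := 1) (f3_kc k) (by simpa [gg] using q4)
  · refine .inr (.inr (.inr (.inr (.inr ?_))))
    rw [f3_ggg]
    exact q1.1

end Pool.Agent.Lib.MP_b7d179_gt.Gm
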