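import Pool.Agent.Lib.MP_b7d179_gt.G.MeshA

/-! Steps into a lens entered through wall 0. -/

namespace Pool.Agent.Lib.MP_b7d179_gt.Gm

open Set Metric Complex Stmt

variable (D : Dat) {a b j : ℕ}

theorem mc_om (ha : a % 3 ≠ 0) : Om (w1 ^ a) := (supp_pow a).resolve_left fun h => ha h.1

theorem mc_rot {i : Fin 6} {x : S3} (h : x ∈ D.X i) : rot x ∈ D.X (i + 1) :=
  (D.bk.rotX i).le ⟨x, h, rfl⟩

theorem mc_pow {x : S3} (h : x ∈ D.X 0) : (rot ^ 2) x ∈ D.X 2 ∧ (rot ^ 4) x ∈ D.X 4 ∧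
    (rot ^ 5) x ∈ D.X 5 := by
  have h2 := mc_rot D (mc_rot D h)
  have h4 := mc_rot D (mc_rot D h2)
  exact ⟨h2, h4, mc_rot D h4⟩

theorem mc_q {y : S3} (h : 11 / 8 ≤ av 0 y.1) : 11 * normSq (3 - Z1 y.1 - Z2 y.1) ≤ 24 := by
  have n := (nsq_S3 y).le
  have := mul_le_mul_of_nonneg_right h (QQ_pos n).le
  rw [(av_chart n).1, QQ] at this
  linarith

/-- the first alternative of the potential -/
theorem mc_ye {z : S3} (hz : z ∈ D.Ye) {s : ℝ} (h : s ≤ 103 / 200 * normSq (3 - Z1 z.1)) :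
    D.Pot 2 z (s / QQ z.1) :=
  .inl ⟨hz, by rwa [div_le_iff₀ (QQ_pos (nsq_S3 z).le), mul_assoc, (mm_chart z).1]⟩

/-- the second alternative of the potential -/
theorem mc_leg (hb : b % 3 ≠ 0) {y : S3} (hy : y ∈ D.X 5 ∪ D.X 4) {s : ℝ}
    (h : s ≤ 103 / 100 * QQ y.1) : D.Pot 2 (gg 0 b y) (s / QQ (gg 0 b y).1) :=
  .inr ⟨b, hb, y, hy, rfl, by rwa [div_mul_cancel₀ _ (QQ_pos (nsq_S3 _).le).ne']⟩

theorem mc_ten (ha : a % 3 ≠ 0) {y : S3} (hy : y ∈ D.X 2) (b : ℕ) :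
    11 * QQ y.1 ≤ 5 * normSq (3 - Z1 (gg a b y).1) := by
  have hc := mc_om ha
  have hb := supp_rot (Z_ball (nsq_S3 y).le) (supp_w a) normSq_one
  rw [one_mul] at hb
  have := E10 hb (supp_sq hc)
  rw [supp_back hc] at this
  rw [(Z_gg a b y).1]
  exact this (mc_q (hl_av (D.wl.hull 2 hy)).2.2)

theorem tr2_leg (hb : b % 3 ≠ 0) : D.Tr 0 2 0 b 5 ∧ D.Tr 0 2 0 b 4 := by
  have k : ∀ (y : S3) (r : ℝ), r ≤ 1 → 50 / 49 * r * QQ y.1 ≤ 103 / 100 * QQ y.1 := fun y r h =>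
    mul_le_mul_of_nonneg_right (by linarith) (QQ_pos (nsq_S3 y).le).le
  exact ⟨fun x r h => mc_leg D hb (.inl (mc_pow D h.1).2.2) (k _ r h.2),
    fun x r h => mc_leg D hb (.inr (mc_pow D h.1).2.1) (k _ r h.2)⟩

/-- E10 -/
theorem tr2_two (ha : a % 3 ≠ 0) : D.Tr 0 2 a b 2 := by
  intro x r h
  have hy := (mc_pow D h.1).1
  refine mc_ye D ((D.dec.inE a ha).2 b ⟨_, hy, rfl⟩) ?_
  have q := QQ_pos (nsq_S3 ((rot ^ 2) x)).le
  linarith [mc_ten D ha hy b, mul_le_mul_of_nonneg_right h.2 q.le]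

theorem mc_yf (ha : a % 3 ≠ 0) {y : S3} (hy : y ∈ D.Yf) :
    11 * normSq (3 - Z1 y.1) ≤ 10 * normSq (3 - w1 ^ a * Z1 y.1) := by
  have hc := mc_om ha
  rcases YF_hull D.bk D.wl hy with h | ⟨k, h⟩
  · have hb := supp_rot (Z_ball (nsq_S3 y).le) (supp_w a) normSq_one
    have := E9 hb (supp_sq hc)
    rw [supp_back hc] at this
    linarith [this ((chart_sets y).2.2.1.1 h), normSq_nonneg (3 - Z1 y.1)]
  · rw [← tubes_g0] at h
    have e : Z1 (gg 0 k y).1 = Z1 y.1 := by rw [(Z_gg 0 k y).1, pow_zero, one_mul]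
    rw [← e]
    generalize gg 0 k y = q at h
    have n := (nsq_S3 q).le
    have p := QQ_pos n
    obtain ⟨a0, a1, a5, a2, a3, a4⟩ := av_chart n
    have l := fun i => mul_le_mul_of_nonneg_right (hull_KL h i) p.le
    have s : 0 ≤ ((Z1 q.1 - Z2 q.1) * (starRingEnd ℂ) (3 - Z1 q.1 - Z2 q.1)).re := by
      rw [side_chart]
      exact mul_nonneg (by positivity) (Six_side h)
    have l0 := l 0
    have l1 := l 1
    have l2 := l 2
    have l3 := l 3
    have l4 := l 4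
    have l5 := l 5
    rw [QQ] at *
    exact (E11 (Z_ball n) hc (.inl rfl) (by linarith) (by linarith) (by linarith) (by linarith)
      (by linarith) (by linarith) s).2

theorem mc_g (d : ℕ) (p : S3) : rot (gg d 0 p) = gg 0 d (rot p) := by
  rw [tubes_g5, tubes_g0]
  exact congrArg (· p) ((SemiconjBy.pow_right (a := rot) (x := g 5) (y := g 0) (rot_g 5) d).eq)

/-- y in Yf: YF_hull, E9, E11; y = g 0 ^ d y', y' in X 2: E10; y' in X 3: the point is in the leg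
g 0 ^ d (X 5), E1c -/
theorem tr2_one (ha : a % 3 ≠ 0) : D.Tr 1 2 a 0 1 := by
  intro x r h
  rw [pow_one]
  rcases h with ⟨⟨y, hy, rfl⟩, h⟩ | ⟨d, hd, y, hy, rfl, h⟩
  · have e : uw 5 (rot.symm y).1 = uw 0 y.1 := by
      rw [← uw_rE 5, ← rot_val, Homeomorph.apply_symm_apply]; rfl
    rw [e] at h
    rw [Homeomorph.apply_symm_apply]
    refine mc_ye D ((D.dec.inE a ha).1 ⟨_, hy, rfl⟩) ?_
    have := mul_le_mul_of_nonneg_right h (QQ_pos (nsq_S3 y).le).le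
    rw [mul_assoc, (mm_chart y).1] at this
    rw [(Z_gg a 0 y).1]
    linarith [mc_yf D ha hy, normSq_nonneg (3 - Z1 y.1)]
  · have q := QQ_pos (nsq_S3 (rot y)).le
    have k : r * QQ (gg 0 d (rot y)).1 ≤ 103 / 100 * QQ (rot y).1 := by
      refine le_of_mul_le_mul_left ?_ (QQ_pos (nsq_S3 y).le)
      have := mul_le_mul_of_nonneg_right h q.le
      rw [mul_assoc, QQ_ratio] at this
      linarith
    rw [mc_g]
    rcases hy with hy | hy
    · have hy' : rot y ∈ D.X 2 := mc_rot D hy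
      rw [ext_mul, add_zero, zero_add]
      refine mc_ye D ((D.dec.inE a ha).2 d ⟨_, hy', rfl⟩) ?_
      linarith [mc_ten D ha hy' d]
    · have hy' : rot y ∈ D.X 3 := mc_rot D hy
      generalize rot y = p at *
      have e : gg a 0 (gg 0 d p) = gg 0 d (gg a 0 p) := by
        rw [ext_mul, ext_mul, add_comm a, add_comm d]
      have m : gg a 0 p ∈ D.X 5 := by
        rw [D.dec.x5, ← gg_mod, tubes_g5]
        obtain e | e : a % 3 = 1 ∨ a % 3 = 2 := by omega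
        · exact .inl (.inr ⟨p, .inr hy', by rw [e, pow_one]⟩)
        · exact .inr ⟨p, .inr hy', by rw [e]⟩
      rw [e]
      refine mc_leg D hd (.inl m) ?_
      obtain ⟨h5, h0, -⟩ := hl_av (D.wl.hull 3 hy')
      have n := (nsq_S3 p).le
      have l5 := mul_le_mul_of_nonneg_right (show 11 / 8 ≤ av 5 p.1 from h5) q.le
      rw [(av_chart n).2.2.1] at l5
      have := E1c (A := Z2 p.1) (B := Z1 p.1) (add_comm (normSq (Z1 p.1)) _ ▸ Z_ball n) (mc_om ha)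
        (sub_right_comm (3 : ℂ) _ _ ▸ mc_q h0) (by rw [sub_right_comm, ← QQ]; linarith)
      rw [sub_right_comm, sub_right_comm _ (Z2 p.1), ← QQ] at this
      rw [QQ_gg a 0, pow_zero, one_mul]
      linarith

theorem mc_comp {T : ℕ} (hb : b % 3 ≠ 0) (h : D.Tr T 0 0 a (j + 1)) : D.Tr T 2 a b j := by
  intro x r hx
  have k := (tr2_leg D hb).1 _ _ (h x r hx)
  rw [pow_succ' rot j, Homeomorph.mul_apply] at k
  generalize (rot ^ j) x = p at *
  have e : (rot ^ 5) (gg 0 a (rot p)) = gg a 0 p := by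
    rw [← mc_g, ← Homeomorph.mul_apply, ← pow_succ, rot_six, Homeomorph.one_apply]
  rw [e, ext_mul, zero_add, add_zero] at k
  refine k.mono ?_
  have q := fun y : S3 => QQ_pos (nsq_S3 y).le
  have e2 : 50 / 49 * (50 / 49 * r * QQ (rot p).1 / QQ (gg 0 a (rot p)).1) * QQ (gg a 0 p).1 =
      50 / 49 * (50 / 49 * r * QQ p.1) := by
    have := (q (gg 0 a (rot p))).ne'
    field_simp
    linear_combination r * QQ_ratio a p
  rw [e2, mul_div_assoc (50 / 49 : ℝ)]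
  generalize 50 / 49 * r * QQ p.1 / QQ (gg a b p).1 = s
  rcases le_total s 0 with c | c
  exacts [le_max_of_le_right c, le_max_of_le_left (by linarith)]

/-- for a, b ≠ 0 and j = 4, 3: gg a b * rot ^ j = (gg 0 b * rot ^ 5) * (gg 0 a * rot ^ (j + 1)); compose
tr2_leg with tr0_five or tr0_far, `Pot.mono` -/
theorem tr2 (h : Stp a b j) : ∃ T', D.Tr T' 2 a b j := by
  obtain ⟨ha, hb, ⟨h, rfl | ⟨rfl, rfl⟩⟩ | ⟨h, rfl | ⟨rfl, rfl⟩⟩ | ⟨h, h', rfl⟩⟩ := h
  · exact ⟨0, tr2_two D (by omega)⟩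
  · exact ⟨1, tr2_one D (by omega)⟩
  · by_cases c : a = 0
    · exact ⟨0, c ▸ (tr2_leg D (by omega)).2⟩
    · exact ⟨2, mc_comp D (by omega) (tr0_five D (by omega))⟩
  · exact ⟨0, (tr2_leg D (by omega)).1⟩
  · exact ⟨0, mc_comp D (by omega) (tr0_far D ⟨by omega, ha, .inr (.inl ⟨h, .inl rfl⟩)⟩
      (.inr (.inr rfl)))⟩

end Pool.Agent.Lib.MP_b7d179_gt.Gm
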