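import Pool.Agent.Lib.MP_b7d179_gt.G.MeshB
import Pool.Agent.Lib.MP_b7d179_gt.G.MeshC

/-! Nested lenses shrink. -/

namespace Pool.Agent.Lib.MP_b7d179_gt.Gm

open Set Metric Complex Stmt

variable (D : Dat)

lemma mesh_hd_pow (j : ℕ) (p q : S3) : hd ((rot ^ j) p) ((rot ^ j) q) = hd p q := by
  induction j with
  | zero => rfl
  | succ j ih => rw [pow_succ', Homeomorph.mul_apply, Homeomorph.mul_apply, hd_rot, ih]

lemma mesh_QQ_pos (p : S3) : 0 < QQ p.1 := lt_of_lt_of_le (by norm_num) (QQ_bd p).1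

lemma mesh_tr {a b j : ℕ} (h : Stp a b j) (T : ℕ) : ∃ T', D.Tr T' T a b j := by
  match T with
  | 0 => exact tr0 D h
  | 1 => exact tr1 D h
  | k + 2 => exact tr2 D h

theorem chn_pot {n : ℕ} {γ : S3 ≃ₜ S3} (h : Chn n γ) : ∃ J : S3 → ℝ, (∀ x, 0 < J x) ∧
    (∀ x y, hd (γ x) (γ y) * (J x * J y) = hd x y) ∧
    ∀ T, ∃ T', ∀ x r, D.Pot T' x r → D.Pot T (γ x) ((50 / 49) ^ n * r / J x) := by
  induction h with
  | zero =>
    refine ⟨fun _ => 1, fun _ => one_pos, fun x y => by simp, fun T => ⟨T, fun x r hx => ?_⟩⟩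
    simpa using hx
  | @succ n γ a b j _ hs ih =>
    obtain ⟨J, hJ, hd1, hp⟩ := ih
    refine ⟨fun x => J (gg a b ((rot ^ j) x)) * QQ (gg a b ((rot ^ j) x)).1 / QQ ((rot ^ j) x).1,
      fun x => div_pos (mul_pos (hJ _) (mesh_QQ_pos _)) (mesh_QQ_pos _), fun x y => ?_,
      fun T => ?_⟩
    · have e1 := hd1 (gg a b ((rot ^ j) x)) (gg a b ((rot ^ j) y))
      have e2 := hd_gg a b ((rot ^ j) x) ((rot ^ j) y)
      rw [mesh_hd_pow] at e2
      have p1 := (mesh_QQ_pos ((rot ^ j) x)).ne'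
      have p2 := (mesh_QQ_pos ((rot ^ j) y)).ne'
      simp only [Homeomorph.mul_apply]
      rw [div_mul_div_comm, ← mul_div_assoc, div_eq_iff (mul_ne_zero p1 p2), ← e2, ← e1]
      ring
    · obtain ⟨T1, h1⟩ := hp T
      obtain ⟨T', h2⟩ := mesh_tr D hs T1
      refine ⟨T', fun x r hx => ?_⟩
      have k := h1 _ _ (h2 x r hx)
      have p1 := (mesh_QQ_pos ((rot ^ j) x)).ne'
      have p2 := (mesh_QQ_pos (gg a b ((rot ^ j) x))).ne'
      have p3 := (hJ (gg a b ((rot ^ j) x))).ne'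
      have e : (50 / 49 : ℝ) ^ (n + 1) * r / (J (gg a b ((rot ^ j) x)) *
          QQ (gg a b ((rot ^ j) x)).1 / QQ ((rot ^ j) x).1) = (50 / 49) ^ n *
          (50 / 49 * r * QQ ((rot ^ j) x).1 / QQ (gg a b ((rot ^ j) x)).1) /
          J (gg a b ((rot ^ j) x)) := by
        field_simp
        ring
      simp only [Homeomorph.mul_apply]
      rw [e]
      exact k

theorem chn_mesh {ε : ℝ} (hε : 0 < ε) : ∃ n₀, ∀ n, n₀ ≤ n → ∀ γ, Chn n γ → ∀ x ∈ D.X 0, ∀ y ∈ D.X 0,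
    hd (γ x) (γ y) < ε := by
  obtain ⟨n₀, h0⟩ := pow_unbounded_of_one_lt (10300 * (4 / ε + 1)) (by norm_num : (1 : ℝ) < 50 / 49)
  refine ⟨n₀, fun n hn γ h x hx y hy => ?_⟩
  obtain ⟨J, hJ, hd1, hp⟩ := chn_pot D h
  obtain ⟨T', h1⟩ := hp 0
  have hpw : (50 / 49 : ℝ) ^ n₀ ≤ (50 / 49) ^ n := pow_le_pow_right₀ (by norm_num) hn
  have he : 0 < 4 / ε := by positivity
  have big : ∀ z ∈ D.X 0, 4 / ε + 1 < J z := fun z hz => by
    have := (h1 z _ (D.pot_of T' hz)).le.2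
    rw [div_le_iff₀ (hJ z)] at this
    linarith
  have b1 := big x hx
  have b2 := big y hy
  have e := hd1 x y
  have h4 := (hd_dist x y).2
  have hm : 4 / ε < J x * J y := by nlinarith
  rw [div_lt_iff₀ hε] at hm
  by_contra hh
  rw [not_lt] at hh
  have := mul_le_mul_of_nonneg_right hh (mul_pos (hJ x) (hJ y)).le
  linarith

lemma mesh_split (hc : ∀ a b j, L.chL a b j → Stp a b j) {n : ℕ} {γ : S3 ≃ₜ S3}
    (h : L.Desc (g 0) (g 5) rot n γ) : ∃ a b j γ', Chn n γ' ∧ γ = gg a b * rot ^ j * γ' := by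
  induction h with
  | zero a b j => exact ⟨a, b, j, 1, Chn.zero, (mul_one _).symm⟩
  | @succ n γ a' b' j' _ hs ih =>
    obtain ⟨a, b, j, γ', h1, rfl⟩ := ih
    exact ⟨a, b, j, _, h1.succ (hc _ _ _ hs), mul_assoc _ _ _⟩

lemma mesh_dist {ε : ℝ} (hε : 0 < ε) {p q : S3} (h : 4 * hd p q < ε ^ 4) : dist p q < ε :=
  lt_of_pow_lt_pow_left₀ 4 hε.le ((hd_dist p q).1.trans_lt h)

theorem mesh_desc (hc : ∀ a b j, L.chL a b j → Stp a b j) : ∀ ε > 0, ∃ n, ∀ γ,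
    L.Desc (g 0) (g 5) rot n γ → ∀ x ∈ γ '' D.X 0, ∀ y ∈ γ '' D.X 0, dist x y < ε := by
  intro ε hε
  obtain ⟨n, hn⟩ := chn_mesh D (ε := ε ^ 4 / 40000) (by positivity)
  refine ⟨n, fun γ h => ?_⟩
  obtain ⟨a, b, j, γ', h1, rfl⟩ := mesh_split hc h
  rintro _ ⟨x, hx, rfl⟩ _ ⟨y, hy, rfl⟩
  have k := hn n le_rfl γ' h1 x hx y hy
  have e := hd_gg a b ((rot ^ j) (γ' x)) ((rot ^ j) (γ' y))
  rw [mesh_hd_pow] at e
  refine mesh_dist hε ?_
  simp only [Homeomorph.mul_apply]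
  have n1 : 0 ≤ hd (γ' x) (γ' y) := normSq_nonneg _
  have n2 : 0 ≤ hd (gg a b ((rot ^ j) (γ' x))) (gg a b ((rot ^ j) (γ' y))) := normSq_nonneg _
  have q1 : 3 / 10 * (3 / 10) ≤ QQ (gg a b ((rot ^ j) (γ' x))).1 *
      QQ (gg a b ((rot ^ j) (γ' y))).1 :=
    mul_le_mul (QQ_bd _).1 (QQ_bd _).1 (by norm_num) (mesh_QQ_pos _).le
  have q2 : QQ ((rot ^ j) (γ' x)).1 * QQ ((rot ^ j) (γ' y)).1 ≤ 30 * 30 :=
    mul_le_mul (QQ_bd _).2 (QQ_bd _).2 (mesh_QQ_pos _).le (by norm_num)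
  have m1 := mul_le_mul_of_nonneg_left q1 n2
  have m2 := mul_le_mul_of_nonneg_left q2 n1
  linarith

lemma mesh_rotH {e : Fin 6} {p : S3} (h : p ∈ D.H e) : rot p ∈ D.H (e + 1) :=
  D.bk.rotH e ▸ mem_image_of_mem _ h

lemma mesh_rotX {e : Fin 6} {p : S3} (h : p ∈ D.X e) : rot p ∈ D.X (e + 1) :=
  D.bk.rotX e ▸ mem_image_of_mem _ h

lemma mesh_t (p : S3) : (gg 0 1 * rot ^ 4 * (gg 1 0 * rot ^ 2)) p =
    g 0 (rot (rot (rot (rot (g 5 (rot (rot p))))))) := by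
  simp [gg, pow_succ, Homeomorph.mul_apply]

lemma mesh_tH {p : S3} (h : p ∈ D.H 0) : (gg 0 1 * rot ^ 4 * (gg 1 0 * rot ^ 2)) p ∈ D.H 0 := by
  rw [mesh_t]
  have h2 : rot (rot p) ∈ D.H 2 := mesh_rotH D (mesh_rotH D h)
  have h5 : g 5 (rot (rot p)) ∈ D.H 5 := by
    rw [D.H5_eq]
    exact Or.inl (Or.inr (mem_image_of_mem _ h2))
  have h3 : rot (rot (rot (rot (g 5 (rot (rot p)))))) ∈ D.H 3 :=
    mesh_rotH D (mesh_rotH D (mesh_rotH D (mesh_rotH D h5)))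
  rw [D.wl.dec]
  exact Or.inl (Or.inr (mem_image_of_mem _ h3))

lemma mesh_chn (k : ℕ) : Chn (2 * k) ((gg 0 1 * rot ^ 4 * (gg 1 0 * rot ^ 2)) ^ k) := by
  induction k with
  | zero => exact Chn.zero
  | succ k ih =>
    rw [pow_succ, ← mul_assoc]
    exact (ih.succ (a := 0) (b := 1) (j := 4) (by simp [Stp])).succ (by simp [Stp])

lemma mesh_limX : ∃ p ∈ limitSet, p ∈ D.X 0 := by
  obtain ⟨p, hp⟩ := lim_ne
  obtain ⟨j, hj⟩ := D.bk.cov p
  have all : ∀ k : ℕ, ∃ q ∈ limitSet, q ∈ D.X (j + Fin.ofNat 6 k) := fun k => by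
    induction k with
    | zero => exact ⟨p, hp, by simpa using hj⟩
    | succ k ih =>
      obtain ⟨q, h1, h2⟩ := ih
      refine ⟨rot q, (lim_rot q).2 h1, ?_⟩
      have e : j + Fin.ofNat 6 (k + 1) = j + Fin.ofNat 6 k + 1 := by
        rw [add_assoc]
        exact congrArg (j + ·) (Fin.ext (by simp [Fin.val_add]))
      rw [e]
      exact mesh_rotX D h2
  have := all (-j).val
  simpa using this

/-- t = (gg 0 1 * rot ^ 4) * (gg 1 0 * rot ^ 2) maps H 0, X 0 and the limit set into themselves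
(H 0 → g 5 (H 2) ⊆ H 5 → g 0 (H 3) ⊆ H 0); compactness; then rotate -/
theorem lim_hit : (limitSet ∩ D.H 3).Nonempty := by
  have h0 : (limitSet ∩ D.H 0).Nonempty := by
    by_contra hh
    obtain ⟨φ, hφ, hi, -⟩ := D.bk.disc 0
    have hcl : IsCompact (D.H 0) := hi ▸ (isCompact_closedBall 0 1).image_of_continuousOn hφ.1
    obtain ⟨r, hr, hs⟩ := exists_pos_forall_lt_edist closed_lim.isCompact hcl.isClosed
      (not_not.1 fun k => hh (not_disjoint_iff_nonempty_inter.1 k))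
    have hr' : (0 : ℝ) < r := hr
    obtain ⟨p, hp, hpX⟩ := mesh_limX D
    have hq : φ 0 ∈ D.H 0 := hi ▸ mem_image_of_mem _ (mem_closedBall_self zero_le_one)
    have hqX : φ 0 ∈ D.X 0 := (D.bk.adj 0 ▸ hq : φ 0 ∈ D.X 0 ∩ D.X (0 + 1)).1
    obtain ⟨n, hn⟩ := chn_mesh D (ε := (r : ℝ) ^ 4 / 4) (by positivity)
    have k := hn (2 * n) (by omega) _ (mesh_chn n) p hpX _ hqX
    have all : ∀ m : ℕ, ((gg 0 1 * rot ^ 4 * (gg 1 0 * rot ^ 2)) ^ m) p ∈ limitSet ∧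
        ((gg 0 1 * rot ^ 4 * (gg 1 0 * rot ^ 2)) ^ m) (φ 0) ∈ D.H 0 := fun m => by
      induction m with
      | zero => exact ⟨hp, hq⟩
      | succ m ih =>
        rw [pow_succ']
        refine ⟨?_, mesh_tH D ih.2⟩
        rw [Homeomorph.mul_apply, mesh_t]
        simp only [lim_g, lim_rot]
        exact ih.1
    have d1 := mesh_dist hr' ((lt_div_iff₀' (by norm_num)).1 k)
    have d2 := hs _ (all n).1 _ (all n).2
    rw [edist_dist, ← ENNReal.ofReal_coe_nnreal, ENNReal.ofReal_lt_ofReal_iff'] at d2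
    exact absurd (d2.1.trans d1) (lt_irrefl _)
  obtain ⟨p, h1, h2⟩ := h0
  exact ⟨rot (rot (rot p)), by simpa only [lim_rot] using h1,
    mesh_rotH D (mesh_rotH D (mesh_rotH D h2))⟩

end Pool.Agent.Lib.MP_b7d179_gt.Gm
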