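import Pool.Agent.Lib.MP_b7d179_gt.G.Supp
import Pool.Agent.Lib.MP_b7d179_gt.G.KitA
import Pool.Agent.Lib.MP_b7d179_gt.G.KitB

/-! The base of the tube and its fibres. -/

namespace Pool.Agent.Lib.MP_b7d179_gt.Gm

open Set Metric Complex Stmt

/-- angle of the bite on the circle of radius √(3/2): cos al = √(3/2) · 3/4 -/
noncomputable def al : ℝ := Real.arccos (√(3 / 2) * (3 / 4))
/-- the arc of the circle between two bites and the rim of the bite at the positive axis -/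
noncomputable def arcC : Set ℂ :=
  (fun t : ℝ => (√(3 / 2) : ℝ) * exp (t * I)) '' Icc al (2 * Real.pi / 3 - al)
noncomputable def arcB : Set ℂ := {z | normSq z ≤ 3 / 2 ∧ hh z = 1}
noncomputable def c0 : ℂ := (√(3 / 2) : ℝ) * exp (al * I)

/-- the circle of radius √(3/2) -/
noncomputable def t0g (t : ℝ) : ℂ := (√(3 / 2) : ℝ) * exp (t * I)

lemma t0_rho : 0 < √(3 / 2 : ℝ) ∧ √(3 / 2 : ℝ) * √(3 / 2 : ℝ) = 3 / 2 :=
  ⟨by positivity, Real.mul_self_sqrt (by norm_num)⟩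

lemma t0_pos {a b : ℝ} (h : 0 < a * b) (k : 0 ≤ a) : 0 < b :=
  not_le.1 fun e => h.not_ge (mul_nonpos_of_nonneg_of_nonpos k e)

lemma t0_re (t : ℝ) : (t0g t).re = √(3 / 2) * Real.cos t := by
  rw [t0g, re_ofReal_mul, exp_ofReal_mul_I_re]

lemma t0_im (t : ℝ) : (t0g t).im = √(3 / 2) * Real.sin t := by
  rw [t0g, im_ofReal_mul, exp_ofReal_mul_I_im]

lemma t0_nsq (s t : ℝ) : normSq ((s : ℂ) * exp (t * I)) = s * s := by
  rw [normSq_mul, normSq_ofReal, normSq_eq_norm_sq, norm_exp_ofReal_mul_I, one_pow, mul_one]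

lemma t0_al : 0 < al ∧ al < Real.pi / 3 ∧ √(3 / 2) * Real.cos al = 9 / 8 := by
  obtain ⟨a, b⟩ := t0_rho
  have l : √(3 / 2 : ℝ) * (3 / 4) < 1 := by nlinarith
  have c : Real.cos al = √(3 / 2) * (3 / 4) := Real.cos_arccos (by nlinarith) l.le
  refine ⟨Real.arccos_pos.2 l, not_le.1 fun h => ?_, by rw [c]; linarith⟩
  have := Real.cos_le_cos_of_nonneg_of_le_pi (by positivity) (Real.arccos_le_pi _) h
  rw [Real.cos_pi_div_three, ← al, c] at this
  nlinarith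

lemma t0_w : exp (((2 * Real.pi / 3 : ℝ) : ℂ) * I) = w1 := by
  rw [show 2 * Real.pi / 3 = Real.pi - Real.pi / 3 by ring]
  apply Complex.ext
  · rw [exp_ofReal_mul_I_re, Real.cos_pi_sub, Real.cos_pi_div_three]; simp [w1]; ring
  · rw [exp_ofReal_mul_I_im, Real.sin_pi_sub, Real.sin_pi_div_three]; simp [w1]

lemma t0_sub (t : ℝ) : t0g (2 * Real.pi / 3 - t) = w1 * (starRingEnd ℂ) (t0g t) := by
  rw [t0g, t0g, map_mul, conj_ofReal, ← exp_conj, map_mul, conj_ofReal, conj_I, ← t0_w, ofReal_sub,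
    sub_mul, sub_eq_add_neg, exp_add, mul_neg]
  ring

lemma t0_w2 : w1 ^ 2 = (starRingEnd ℂ) w1 := by
  apply Complex.ext <;> simp [w1, pow_two] <;> nlinarith [r3]

lemma t0_conj (t : ℝ) : w1 ^ 2 * t0g t = (starRingEnd ℂ) (t0g (2 * Real.pi / 3 - t)) := by
  rw [t0_sub, map_mul, conj_conj, t0_w2]

lemma t0_inj {s t : ℝ} (hs : s ∈ Icc 0 (2 * Real.pi / 3)) (ht : t ∈ Icc 0 (2 * Real.pi / 3))
    (h : exp (s * I) = exp (t * I)) : s = t := by
  have := congrArg re h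
  rw [exp_ofReal_mul_I_re, exp_ofReal_mul_I_re] at this
  exact Real.injOn_cos ⟨hs.1, by linarith [hs.2, Real.pi_pos]⟩ ⟨ht.1, by linarith [ht.2, Real.pi_pos]⟩
    this

theorem arcC_arc : Arc arcC c0 (w1 * (starRingEnd ℂ) c0) := by
  obtain ⟨a, b, -⟩ := t0_al
  have := arc_Icc (γ := t0g) (s := al) (t := 2 * Real.pi / 3 - al) (by linarith)
    ⟨by unfold t0g; fun_prop, fun s hs t ht h => t0_inj ⟨by linarith [hs.1], by linarith [hs.2]⟩
      ⟨by linarith [ht.1], by linarith [ht.2]⟩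
      (mul_left_cancel₀ (ofReal_ne_zero.2 t0_rho.1.ne') h)⟩
  rwa [t0_sub] at this

lemma t0_c0 : c0.re = 9 / 8 ∧ 0 < c0.im ∧ c0.im ^ 2 = 15 / 64 := by
  obtain ⟨a, b, c⟩ := t0_al
  have r : c0.re = 9 / 8 := (t0_re al).trans c
  have n : normSq c0 = 3 / 2 := (t0_nsq _ _).trans t0_rho.2
  rw [normSq_apply, r] at n
  exact ⟨r, (mul_pos t0_rho.1 (Real.sin_pos_of_pos_of_lt_pi a (by linarith))).trans_eq (t0_im al).symm,
    by linarith⟩

lemma t0_hh (z : ℂ) : hh z = 4 - 4 * z.re + normSq z := by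
  simp [hh, normSq_apply]; ring

theorem arcB_arc : Arc arcB ((starRingEnd ℂ) c0) c0 := by
  obtain ⟨a, b, c⟩ := t0_c0
  have q : √(1 - c0.im ^ 2) = 7 / 8 := by
    rw [c, show (1 - 15 / 64 : ℝ) = (7 / 8) ^ 2 by norm_num, Real.sqrt_sq (by norm_num)]
  have := arc_Icc (γ := fun y : ℝ => ((2 - √(1 - y ^ 2) : ℝ) : ℂ) + y * I) (s := -c0.im)
    (t := c0.im) (by linarith) ⟨by fun_prop, fun s _ t _ h => by simpa using congrArg im h⟩
  have e1 : ((2 - √(1 - (-c0.im) ^ 2) : ℝ) : ℂ) + (-c0.im : ℝ) * I = (starRingEnd ℂ) c0 := by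
    rw [neg_sq, q]
    apply Complex.ext <;> simp [a]
    norm_num
  have e2 : ((2 - √(1 - c0.im ^ 2) : ℝ) : ℂ) + c0.im * I = c0 := by
    rw [q]
    apply Complex.ext <;> simp [a]
    norm_num
  have e : (fun y : ℝ => ((2 - √(1 - y ^ 2) : ℝ) : ℂ) + y * I) '' Icc (-c0.im) c0.im = arcB := by
    refine Subset.antisymm ?_ fun z hz => ?_
    · rintro _ ⟨y, hy, rfl⟩
      have y2 : y ^ 2 ≤ 15 / 64 := c ▸ sq_le_sq' hy.1 hy.2
      have s1 := Real.mul_self_sqrt (show 0 ≤ 1 - y ^ 2 by linarith)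
      have s2 : 7 / 8 ≤ √(1 - y ^ 2) := Real.le_sqrt_of_sq_le (by linarith)
      simp only [arcB, mem_setOf_eq, t0_hh, normSq_apply, add_re, add_im, ofReal_re, ofReal_im,
        mul_re, mul_im, I_re, I_im]
      constructor <;> nlinarith
    · obtain ⟨h1, h2⟩ := hz
      rw [t0_hh] at h2
      rw [normSq_apply] at h1 h2
      refine ⟨z.im, abs_le.1 (abs_le_of_sq_le_sq (by nlinarith) b.le), ?_⟩
      have : √(1 - z.im ^ 2) = 2 - z.re := by
        rw [show 1 - z.im ^ 2 = (2 - z.re) ^ 2 by linarith, Real.sqrt_sq (by linarith)]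
      simp only [this]
      apply Complex.ext <;> simp
  rwa [e, e1, e2] at this

lemma t0_in {t : ℝ} (h : al ≤ t) (h' : t < Real.pi) : (t0g t).re ≤ 9 / 8 ∧ 0 < (t0g t).im := by
  obtain ⟨a, -, c⟩ := t0_al
  rw [t0_re, t0_im, ← c]
  exact ⟨mul_le_mul_of_nonneg_left (Real.cos_le_cos_of_nonneg_of_le_pi a.le h'.le h) t0_rho.1.le,
    mul_pos t0_rho.1 (Real.sin_pos_of_pos_of_lt_pi (by linarith) h')⟩

lemma t0_out {t : ℝ} (h : -Real.pi ≤ t) (h1 : (t0g t).re ≤ 9 / 8) (h2 : 0 < (t0g t).im) :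
    al ≤ t := by
  obtain ⟨a, b, c⟩ := t0_al
  rw [t0_im] at h2
  rw [t0_re, ← c] at h1
  have t0 : 0 ≤ t := not_lt.1 fun k => (Real.sin_nonpos_of_nonpos_of_neg_pi_le k.le h).not_gt
    (t0_pos h2 t0_rho.1.le)
  exact not_lt.1 fun k => (Real.cos_lt_cos_of_nonneg_of_le_pi t0 (by linarith) k).not_ge
    (le_of_mul_le_mul_left h1 t0_rho.1)

lemma t0_pow (b : ℕ) : w1 ^ b = 1 ∨ w1 ^ b = w1 ∨ w1 ^ b = w1 ^ 2 := by
  induction b with
  | zero => simp
  | succ b ih =>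
    rcases ih with h | h | h <;> rw [pow_succ, h]
    exacts [Or.inr (Or.inl (one_mul _)), Or.inr (Or.inr (sq _).symm),
      Or.inl (by rw [← pow_succ, w1_three])]

lemma t0_n (b : ℕ) (z : ℂ) : normSq (w1 ^ b * z) = normSq z := by
  rw [normSq_mul, map_pow, w1_nsq, one_pow, one_mul]

lemma t0_n1 (z : ℂ) : normSq (w1 * z) = normSq z := by simpa using t0_n 1 z

lemma t0_Bz (z : ℂ) : z ∈ Bz ↔ normSq z ≤ 3 / 2 ∧ 1 ≤ hh z ∧ 1 ≤ hh (w1 * z) ∧
    1 ≤ hh (w1 ^ 2 * z) := by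
  refine and_congr_right fun _ => ⟨fun h => ⟨by simpa [hh] using h 0, by simpa [hh] using h 1, h 2⟩,
    fun h b => ?_⟩
  rcases t0_pow b with e | e | e <;> rw [e]
  exacts [by simpa [hh] using h.1, h.2.1, h.2.2]

lemma t0_co (z : ℂ) : (w1 * z).re = -z.re / 2 - √3 * z.im / 2 ∧
    (w1 * z).im = √3 * z.re / 2 - z.im / 2 ∧ (w1 ^ 2 * z).re = -z.re / 2 + √3 * z.im / 2 ∧
    (w1 ^ 2 * z).im = -(√3 * z.re) / 2 - z.im / 2 := by
  rw [t0_w2]
  refine ⟨?_, ?_, ?_, ?_⟩ <;> simp [w1] <;> ring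

theorem arcC_iff (z : ℂ) : z ∈ arcC ↔ z ∈ Bz ∧ normSq z = 3 / 2 ∧ z ∈ Sec0 := by
  obtain ⟨a, b, -⟩ := t0_al
  have pi := Real.pi_pos
  constructor
  · rintro ⟨t, ht, rfl⟩
    change t0g t ∈ Bz ∧ normSq (t0g t) = 3 / 2 ∧ t0g t ∈ Sec0
    have n : normSq (t0g t) = 3 / 2 := (t0_nsq _ _).trans t0_rho.2
    obtain ⟨h1, h2⟩ := t0_in ht.1 (by linarith [ht.2])
    obtain ⟨h3, h4⟩ := t0_in (t := 2 * Real.pi / 3 - t) (by linarith [ht.2]) (by linarith [ht.1])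
    have s : (w1 ^ 2 * t0g t).im < 0 := by rw [t0_conj, conj_im]; linarith
    refine ⟨(t0_Bz _).2 ⟨n.le, ?_, ?_, ?_⟩, n, h2, s⟩ <;> rw [t0_hh]
    · linarith
    · obtain ⟨c1, -, -, c4⟩ := t0_co (t0g t)
      have : √3 * (w1 * t0g t).re < 0 := by rw [c1]; nlinarith [r3]
      have := neg_of_mul_neg_right this (Real.sqrt_nonneg 3)
      linarith [normSq_nonneg (w1 * t0g t)]
    · rw [t0_n, t0_conj, conj_re]; linarith
  · rintro ⟨hz, n, s1, s2⟩
    obtain ⟨-, h0, -, h2⟩ := (t0_Bz z).1 hz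
    have e : t0g (arg z) = z := by
      rw [t0g, ← n, normSq_eq_norm_sq, Real.sqrt_sq (norm_nonneg _), norm_mul_exp_arg_mul_I]
    rw [t0_hh] at h0 h2
    rw [t0_n] at h2
    rw [← e, t0_conj] at h2 s2
    rw [conj_im] at s2
    rw [conj_re, e] at h2
    have := t0_out (t := 2 * Real.pi / 3 - arg z) (by linarith [arg_le_pi z]) (by linarith)
      (by linarith)
    exact ⟨arg z, ⟨t0_out (neg_pi_lt_arg z).le (by rw [e]; linarith) (by rwa [e]), by linarith⟩, e⟩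

/-- the least of the four functions -/
noncomputable def t0M (z : ℂ) : ℝ :=
  min (3 / 2 - normSq z) (min (hh z - 1) (min (hh (w1 * z) - 1) (hh (w1 ^ 2 * z) - 1)))

lemma t0_M (z : ℂ) : 0 ≤ t0M z ↔ z ∈ Bz := by simp only [t0M, le_min_iff, sub_nonneg, t0_Bz]

lemma t0_real {z : ℂ} (n : normSq z = 3 / 2) (h : 1 ≤ hh z) (i : z.im = 0) :
    0 < (w1 ^ 2 * z).im ∧ (w1 * z).im < 0 := by
  obtain ⟨-, c2, -, c4⟩ := t0_co z
  rw [t0_hh, n] at h
  have n' := n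
  rw [normSq_apply, i] at n'
  have k : -1 < z.re → False := fun k => by nlinarith
  have : √3 * z.re < 0 := mul_neg_of_pos_of_neg (by positivity) (by linarith [not_lt.1 k])
  rw [c2, c4, i]
  constructor <;> linarith

lemma t0_sec {z : ℂ} (n : normSq z = 3 / 2) (h : z ∈ Bz) : ∃ b : ℕ, w1 ^ b * z ∈ Sec0 := by
  obtain ⟨-, h0, h1, h2⟩ := (t0_Bz z).1 h
  have e1 : w1 ^ 2 * (w1 * z) = z := by linear_combination z * w1_three
  have e2 : w1 * (w1 * z) = w1 ^ 2 * z := by ring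
  have e3 : w1 ^ 2 * (w1 ^ 2 * z) = w1 * z := by linear_combination w1 * z * w1_three
  have e4 : w1 * (w1 ^ 2 * z) = z := by linear_combination z * w1_three
  have k : (0 < z.im ∧ (w1 ^ 2 * z).im < 0) ∨ (0 < (w1 * z).im ∧ z.im < 0) ∨
      (0 < (w1 ^ 2 * z).im ∧ (w1 * z).im < 0) := by
    have s : z.im + (w1 * z).im + (w1 ^ 2 * z).im = 0 := by
      rw [(t0_co z).2.1, (t0_co z).2.2.2]; ring
    by_cases a : z.im = 0
    · exact Or.inr (Or.inr (t0_real n h0 a))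
    by_cases b : (w1 * z).im = 0
    · have := t0_real ((t0_n1 z).trans n) h1 b
      rw [e1, e2] at this
      exact Or.inl this
    by_cases c : (w1 ^ 2 * z).im = 0
    · have := t0_real ((t0_n 2 z).trans n) h2 c
      rw [e3, e4] at this
      exact Or.inr (Or.inl this)
    rcases lt_or_gt_of_ne a with a | a <;> rcases lt_or_gt_of_ne b with b | b <;>
      rcases lt_or_gt_of_ne c with c | c <;> first | (exfalso; linarith) | tauto
  rcases k with k | k | k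
  exacts [⟨0, by rw [pow_zero, one_mul]; exact k⟩,
    ⟨1, by rw [pow_one]; exact ⟨k.1, by rw [e1]; exact k.2⟩⟩, ⟨2, k.1, by rw [e3]; exact k.2⟩]

lemma t0_rot (b : ℕ) (z : ℂ) (h : z ∈ Bz) : w1 ^ b * z ∈ Bz :=
  ⟨(t0_n b z).trans_le h.1, fun c => by rw [← mul_assoc, ← pow_add]; exact h.2 _⟩

lemma t0_arcB {z : ℂ} (h : z ∈ arcB) : z ∈ Bz := by
  obtain ⟨c1, -, c3, -⟩ := t0_co z
  have h2 := h.2
  rw [t0_hh, normSq_apply] at h2
  have x : 3 / 4 ≤ z.re := by nlinarith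
  have y : z.im * z.im ≤ 1 := by nlinarith [sq_nonneg (2 - z.re)]
  have y1 : √3 * z.im ≤ 2 := by nlinarith [r3, sq_nonneg (√3 - z.im)]
  have y2 : -2 ≤ √3 * z.im := by nlinarith [r3, sq_nonneg (√3 + z.im)]
  refine (t0_Bz z).2 ⟨h.1, h.2.ge, ?_, ?_⟩ <;> rw [t0_hh]
  · linarith [normSq_nonneg (w1 * z)]
  · linarith [normSq_nonneg (w1 ^ 2 * z)]

lemma t0_rim (z : ℂ) : t0M z = 0 ↔ ∃ b : ℕ, w1 ^ b * z ∈ arcC ∪ arcB := by
  constructor
  · intro h
    have hz := (t0_M z).1 h.ge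
    have l := h.le
    simp only [t0M, min_le_iff, sub_nonpos] at l
    obtain ⟨n, h0, h1, h2⟩ := (t0_Bz z).1 hz
    rcases l with l | l | l | l
    · obtain ⟨b, hb⟩ := t0_sec (le_antisymm n l) hz
      exact ⟨b, Or.inl ((arcC_iff _).2 ⟨t0_rot b z hz, (t0_n b z).trans (le_antisymm n l), hb⟩)⟩
    · exact ⟨0, Or.inr (by rw [pow_zero, one_mul]; exact ⟨n, le_antisymm l h0⟩)⟩
    · exact ⟨1, Or.inr (by rw [pow_one]; exact ⟨(t0_n1 z).trans_le n, le_antisymm l h1⟩)⟩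
    · exact ⟨2, Or.inr ⟨(t0_n 2 z).trans_le n, le_antisymm l h2⟩⟩
  · rintro ⟨b, h⟩
    have hz : z ∈ Bz := by
      have := t0_rot (2 * b) _ (h.elim (fun k => ((arcC_iff _).1 k).1) t0_arcB)
      rwa [← mul_assoc, ← pow_add, show 2 * b + b = 3 * b by ring, pow_mul, w1_three, one_pow,
        one_mul] at this
    refine le_antisymm ?_ ((t0_M z).2 hz)
    simp only [t0M, min_le_iff, sub_nonpos]
    rcases h with h | h
    · exact Or.inl ((t0_n b z).symm.trans ((arcC_iff _).1 h).2.1).ge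
    · have := h.2.le
      rcases t0_pow b with e | e | e <;> rw [e] at this
      exacts [Or.inr (Or.inl (by rwa [one_mul] at this)), Or.inr (Or.inr (Or.inl this)),
        Or.inr (Or.inr (Or.inr this))]

lemma t0_cross {e : ℂ} (he : normSq e = 1) {u v : ℝ} (h0 : 0 ≤ u) (l : u < v) (hv : v * v ≤ 3 / 2)
    (h : hh (u * e) - 1 ≤ 0) : hh (v * e) - 1 < 0 := by
  rw [t0_hh, normSq_mul, normSq_ofReal, he, re_ofReal_mul] at h ⊢
  have k : 0 < u * (4 * e.re - u - v) := by nlinarith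
  have := t0_pos k h0
  nlinarith

/-- star shaped; the rim is made of three circle arcs and three bites -/
theorem Bz_disc : Disc Bz {z | ∃ b : ℕ, w1 ^ b * z ∈ arcC ∪ arcB} := by
  have n : ∀ {e : ℂ}, e ∈ sphere (0 : ℂ) 1 → normSq e = 1 := fun h => by
    rw [normSq_eq_norm_sq, mem_sphere_zero_iff_norm.1 h, one_pow]
  have q : ∀ {e : ℂ}, e ∈ sphere (0 : ℂ) 1 → ∀ r : ℝ, normSq (r * e) = r * r := fun h r => by
    rw [normSq_mul, normSq_ofReal, n h, mul_one]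
  obtain ⟨h1, h2⟩ := root_spec (G := fun (e : ℂ) (r : ℝ) => t0M (r * e)) (A := sphere 0 1)
    zero_lt_two (by unfold t0M hh; fun_prop) (fun e _ => by norm_num [t0M, t0_hh])
    (fun e m => (min_le_left _ _).trans_lt (by rw [q m]; norm_num))
    (fun e m u hu v hv l h => by
      simp only [t0M, min_le_iff, min_lt_iff, q m] at h ⊢
      by_cases k : v * v ≤ 3 / 2
      · rcases h with h | h | h | h
        · exact Or.inl (by nlinarith [hu.1])
        · exact Or.inr (Or.inl (t0_cross (n m) hu.1 l k h))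
        · refine Or.inr (Or.inr (Or.inl ?_))
          rw [mul_left_comm] at h ⊢
          exact t0_cross ((t0_n1 e).trans (n m)) hu.1 l k h
        · refine Or.inr (Or.inr (Or.inr ?_))
          rw [mul_left_comm] at h ⊢
          exact t0_cross ((t0_n 2 e).trans (n m)) hu.1 l k h
      · exact Or.inl (by linarith))
  have pol : ∀ z ∈ Bz, ∃ e ∈ sphere (0 : ℂ) 1, ∃ r ∈ Icc (0 : ℝ) 2, z = r * e := fun z hz => by
    obtain ⟨e, he, k⟩ := exists_norm_mul_eq_self z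
    have := hz.1
    rw [normSq_eq_norm_sq] at this
    exact ⟨e, mem_sphere_zero_iff_norm.2 he, _, ⟨norm_nonneg z, by nlinarith⟩, by rw [mul_comm, k]⟩
  have d := disc_star h1 fun e m => (h2 e m).1.1
  refine (congrArg₂ Disc (Subset.antisymm ?_ fun z hz => ?_)
    (Subset.antisymm ?_ fun z hz => ?_)).mp d
  · rintro _ ⟨e, m, r, hr, rfl⟩
    exact (t0_M _).1 (((h2 e m).2.2 r ⟨hr.1, hr.2.trans (h2 e m).1.2.le⟩).1.2 hr.2)
  · obtain ⟨e, m, r, hr, rfl⟩ := pol z hz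
    exact ⟨e, m, r, ⟨hr.1, ((h2 e m).2.2 r hr).1.1 ((t0_M _).2 hz)⟩, rfl⟩
  · rintro _ ⟨e, m, rfl⟩
    exact (t0_rim _).1 (h2 e m).2.1
  · have k := (t0_rim z).2 hz
    obtain ⟨e, m, r, hr, rfl⟩ := pol z ((t0_M z).1 k.ge)
    exact ⟨e, m, by rw [le_antisymm (((h2 e m).2.2 r hr).1.1 k.ge) (((h2 e m).2.2 r hr).2.1 k.le)]⟩

lemma t0_fz {z : ℂ} (hz : normSq z ≤ 3) (t : ℝ) :
    normSq ((√(3 - normSq z) : ℝ) * exp (t * I)) + normSq z = 3 := by
  rw [t0_nsq, Real.mul_self_sqrt (by linarith)]; ring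

theorem fz_val {z : ℂ} (hz : normSq z ≤ 3) (t : ℝ) :
    Z1 (fz z t).1 = (√(3 - normSq z) : ℝ) * exp (t * I) ∧ Z2 (fz z t).1 = z := zp_val (t0_fz hz t)

theorem fz_emb : Emb (fun x : ℂ × ℝ => fz x.1 x.2) (Bz ×ˢ Icc 0 (2 * Real.pi / 3)) := by
  have l : ∀ {z : ℂ}, z ∈ Bz → normSq z ≤ 3 := fun h => by linarith [h.1]
  refine ⟨contOn_zp.comp (f := fun x : ℂ × ℝ => ((√(3 - normSq x.1) : ℝ) * exp (x.2 * I), x.1))
    (by fun_prop) fun x m => t0_fz (l m.1) _, ?_⟩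
  rintro ⟨z, s⟩ m ⟨z', t⟩ m' h
  obtain ⟨a, b⟩ := fz_val (l m.1) s
  obtain ⟨a', b'⟩ := fz_val (l m'.1) t
  have h' : fz z s = fz z' t := h
  rw [h'] at a b
  obtain rfl : z = z' := b.symm.trans b'
  have p : 0 < √(3 - normSq z) := Real.sqrt_pos.2 (by linarith [m.1.1])
  exact Prod.ext rfl (t0_inj m.2 m'.2 (mul_left_cancel₀ (ofReal_ne_zero.2 p.ne') (a.symm.trans a')))

end Pool.Agent.Lib.MP_b7d179_gt.Gm
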