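import Pool.Agent.Lib.MP_b7d179_gt.G.ZStd
import Pool.Agent.Lib.MP_b7d179_gt.G.KitD
import Pool.Agent.Lib.MP_b7d179_gt.G.Tube0
import Pool.Agent.Lib.MP_b7d179_gt.G.Sets2

/-! The complement of the prism is moved onto a standard ball. -/

namespace Pool.Agent.Lib.MP_b7d179_gt.Gm

open Set Metric Complex Stmt

/-- the cap in fibre coordinates -/
def capP (η c : ℝ) : Set (ℂ × ℝ) :=
  {x | x ∈ closedBall (0 : ℂ × ℝ) 1 ∧ c * √3 ≤ √(3 - normSq (η * x.1)) * Real.cos (η * x.2)}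

lemma root_cb {η : ℝ} (h0 : 0 < η) {x : ℂ × ℝ} (hx : x ∈ closedBall (0 : ℂ × ℝ) 1) :
    ‖η * x.1‖ ≤ η ∧ |η * x.2| ≤ η := by
  rw [mem_closedBall_zero_iff, Prod.norm_def, max_le_iff, Real.norm_eq_abs] at hx
  rw [norm_mul, norm_real, Real.norm_eq_abs, abs_mul, abs_of_pos h0]
  exact ⟨mul_le_of_le_one_right h0.le hx.1, mul_le_of_le_one_right h0.le hx.2⟩

lemma root_sq {u v : ℂ} (hu : normSq u ≤ 3) (hv : normSq v ≤ 3) {s t : ℝ} (hs : 0 ≤ s) (ht : 0 ≤ t)
    (st : s + t = 1) :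
    s * √(3 - normSq u) + t * √(3 - normSq v) ≤ √(3 - normSq (s * u + t * v)) := by
  have a := Real.mul_self_sqrt (sub_nonneg.2 hu)
  have b := Real.mul_self_sqrt (sub_nonneg.2 hv)
  refine Real.le_sqrt_of_sq_le ?_
  generalize √(3 - normSq u) = p at *
  generalize √(3 - normSq v) = q at *
  simp only [normSq_apply, add_re, add_im, mul_re, mul_im, ofReal_re, ofReal_im] at *
  obtain rfl : t = 1 - s := by linarith
  have : 0 ≤ s * (1 - s) * ((p - q) ^ 2 + (u.re - v.re) ^ 2 + (u.im - v.im) ^ 2) := by positivity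
  linear_combination this + s * a + (1 - s) * b

lemma root_key {η k : ℝ} (h0 : 0 < η) (h1 : η < 1 / 2) {x y : ℂ × ℝ}
    (hx : x ∈ closedBall (0 : ℂ × ℝ) 1) (hy : y ∈ closedBall (0 : ℂ × ℝ) 1) {s t : ℝ} (hs : 0 ≤ s)
    (ht : 0 ≤ t) (st : s + t = 1) (hk : 0 ≤ k)
    (a : k ≤ √(3 - normSq (η * x.1)) * Real.cos (η * x.2))
    (b : k ≤ √(3 - normSq (η * y.1)) * Real.cos (η * y.2)) :
    s ^ 2 * k + t ^ 2 * (√(3 - normSq (η * y.1)) * Real.cos (η * y.2)) + 2 * s * t * k ≤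
      √(3 - normSq (η * (s • x + t • y).1)) * Real.cos (η * (s • x + t • y).2) := by
  have pi := Real.pi_gt_three
  have I (z : ℂ × ℝ) (hz : z ∈ closedBall (0 : ℂ × ℝ) 1) :
      normSq (η * z.1) ≤ 3 ∧ η * z.2 ∈ Icc (-(Real.pi / 2)) (Real.pi / 2) := by
    obtain ⟨p, q⟩ := root_cb h0 hz
    rw [abs_le] at q
    rw [normSq_eq_norm_sq]
    exact ⟨by nlinarith [norm_nonneg (η * z.1)], by linarith, by linarith⟩
  have c1 := root_sq (I x hx).1 (I y hy).1 hs ht st
  have c2 := strictConcaveOn_cos_Icc.concaveOn.2 (I x hx).2 (I y hy).2 hs ht st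
  have e1 : η * (s • x + t • y).1 = s * (η * x.1) + t * (η * y.1) := by simp; ring
  have e2 : η * (s • x + t • y).2 = s • (η * x.2) + t • (η * y.2) := by simp; ring
  have p1 := Real.sqrt_nonneg (3 - normSq (η * x.1))
  have p2 := Real.sqrt_nonneg (3 - normSq (η * y.1))
  have q1 := Real.cos_nonneg_of_mem_Icc (I x hx).2
  have q2 := Real.cos_nonneg_of_mem_Icc (I y hy).2
  rw [e1, e2]
  refine le_trans ?_ (mul_le_mul c1 c2 (by simp only [smul_eq_mul]; positivity) (Real.sqrt_nonneg _))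
  simp only [smul_eq_mul]
  generalize √(3 - normSq (η * x.1)) = a1 at *
  generalize √(3 - normSq (η * y.1)) = a2 at *
  generalize Real.cos (η * x.2) = b1 at *
  generalize Real.cos (η * y.2) = b2 at *
  have m : 2 * k ≤ a1 * b2 + a2 * b1 := by
    refine (le_abs_self _).trans (abs_le_of_sq_le_sq ?_ (by positivity))
    nlinarith [mul_le_mul a b hk (hk.trans a), sq_nonneg (a1 * b2 - a2 * b1)]
  nlinarith [mul_le_mul_of_nonneg_left m (mul_nonneg hs ht),
    mul_le_mul_of_nonneg_left a (sq_nonneg s)]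

lemma root_val {z : ℂ} (hz : normSq z ≤ 3) (t : ℝ) :
    ((starRingEnd ℂ) (exp (Real.pi / 3 * I)) * Z1 (fz z (Real.pi / 3 + t)).1).re =
      √(3 - normSq z) * Real.cos t := by
  rw [(fz_val hz _).1, ← exp_conj, mul_left_comm, ← exp_add, re_ofReal_mul, ← exp_ofReal_mul_I_re]
  congr 3
  simp only [map_mul, map_div₀, conj_ofReal, conj_I, map_ofNat]
  push_cast
  ring

/-- √(3 - η²|z|²) is concave, c √3 / cos (η τ) is convex; c close to 1 -/
theorem capP_spec {η : ℝ} (h0 : 0 < η) (h1 : η < 1 / 2) : ∃ c : ℝ, 0 < c ∧ c < 1 ∧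
    Convex ℝ (capP η c) ∧ IsCompact (capP η c) ∧ capP η c ⊆ ball 0 1 ∧
    interior (capP η c) = {x | x ∈ closedBall (0 : ℂ × ℝ) 1 ∧
      c * √3 < √(3 - normSq (η * x.1)) * Real.cos (η * x.2)} ∧
    ∀ p : S3, c * √3 ≤ ((starRingEnd ℂ) (exp (Real.pi / 3 * I)) * Z1 p.1).re →
      ∃ x ∈ capP η c, p = fz (η * x.1) (Real.pi / 3 + η * x.2) := by
  have pi := Real.pi_gt_three
  have t3 : 0 < √3 := by positivity
  obtain ⟨c, hc, c1⟩ := exists_between (max_lt
    ((div_lt_one t3).2 (Real.sqrt_lt_sqrt (x := 3 - η ^ 2) (by nlinarith) (by nlinarith)))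
    ((Real.cos_lt_cos_of_nonneg_of_le_pi le_rfl (y := η) (by linarith) h0).trans_eq Real.cos_zero))
  rw [max_lt_iff, div_lt_iff₀ t3] at hc
  have c0 : 0 < c := (Real.cos_pos_of_mem_Ioo ⟨by linarith, by linarith⟩).trans hc.2
  have ck : 0 < c * √3 := mul_pos c0 t3
  have S (z : ℂ) (θ : ℝ) (hθ : |θ| ≤ Real.pi) (h : c * √3 ≤ √(3 - normSq z) * Real.cos θ) :
      ‖z‖ < η ∧ |θ| < η := by
    have p := Real.sqrt_nonneg (3 - normSq z)
    have q : √(3 - normSq z) ≤ √3 := Real.sqrt_le_sqrt (by linarith [normSq_nonneg z])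
    have r := t0_pos (ck.trans_le h) p
    refine ⟨not_le.1 fun k => ?_, not_le.1 fun k => ?_⟩
    · have : √(3 - normSq z) ≤ √(3 - η ^ 2) :=
        Real.sqrt_le_sqrt (by rw [normSq_eq_norm_sq]; nlinarith)
      nlinarith [Real.cos_le_one θ]
    · have := Real.cos_le_cos_of_nonneg_of_le_pi h0.le hθ k
      rw [Real.cos_abs] at this
      nlinarith
  have sub : capP η c ⊆ ball 0 1 := fun x hx => by
    obtain ⟨a, b⟩ := S _ _ ((root_cb h0 hx.1).2.trans (by linarith)) hx.2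
    rw [norm_mul, norm_real, Real.norm_eq_abs, abs_of_pos h0] at a
    rw [abs_mul, abs_of_pos h0] at b
    rw [mem_ball_zero_iff, Prod.norm_def, max_lt_iff, Real.norm_eq_abs]
    exact ⟨(mul_lt_iff_lt_one_right h0).1 a, (mul_lt_iff_lt_one_right h0).1 b⟩
  have cG : Continuous fun x : ℂ × ℝ => √(3 - normSq (η * x.1)) * Real.cos (η * x.2) := by fun_prop
  refine ⟨c, c0, c1, fun x hx y hy s t hs ht st => ⟨convex_closedBall _ _ hx.1 hy.1 hs ht st, ?_⟩,
    (isCompact_closedBall _ _).inter_right (isClosed_le continuous_const cG), sub,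
    Subset.antisymm (fun x hx => ⟨(interior_subset hx).1, ?_⟩) fun x hx => ?_, fun p hp => ?_⟩
  · refine le_trans ?_ (root_key h0 h1 hx.1 hy.1 hs ht st ck.le hx.2 hy.2)
    obtain rfl : t = 1 - s := by linarith
    nlinarith [mul_le_mul_of_nonneg_left hy.2 (sq_nonneg (1 - s))]
  · obtain ⟨t, ht, hm⟩ := (((by fun_prop : Continuous fun t : ℝ => t • x).tendsto' (1 : ℝ) x
      (one_smul _ _)).eventually (mem_interior_iff_mem_nhds.1 hx)).exists_gt
    have u : t⁻¹ < 1 := inv_lt_one_of_one_lt₀ ht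
    have z : √(3 - normSq (η * (0 : ℂ × ℝ).1)) * Real.cos (η * (0 : ℂ × ℝ).2) = √3 := by simp
    have := root_key h0 h1 hm.1 (mem_closedBall_self zero_le_one) (s := t⁻¹) (t := 1 - t⁻¹)
      (by positivity) (by linarith) (by ring) ck.le hm.2 (by rw [z]; nlinarith)
    rw [z, smul_zero, add_zero, inv_smul_smul₀ (by positivity)] at this
    refine lt_of_lt_of_le ?_ this
    nlinarith [mul_pos (pow_pos (sub_pos.2 u) 2) (mul_pos (sub_pos.2 c1) t3)]
  · exact mem_interior.2 ⟨_, fun y hy => ⟨ball_subset_closedBall hy.1, le_of_lt hy.2⟩,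
      isOpen_ball.inter (isOpen_lt continuous_const cG), sub ⟨hx.1, hx.2.le⟩, hx.2⟩
  · have n := Z_sph p
    have hz : normSq (Z2 p.1) ≤ 3 := by linarith [normSq_nonneg (Z1 p.1)]
    have e1 : ‖exp (Real.pi / 3 * I)‖ = 1 := by
      simpa using norm_exp_ofReal_mul_I (Real.pi / 3)
    set w := (starRingEnd ℂ) (exp (Real.pi / 3 * I)) * Z1 p.1 with hw
    have e2 : √(3 - normSq (Z2 p.1)) = ‖w‖ := by
      rw [hw, norm_mul, norm_conj, e1, one_mul, ← n, add_sub_cancel_right, normSq_eq_norm_sq,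
        Real.sqrt_sq (norm_nonneg _)]
    have e3 : p = fz (Z2 p.1) (Real.pi / 3 + arg w) := by
      refine ext_Z ?_ (fz_val hz _).2.symm
      rw [(fz_val hz _).1, e2, ofReal_add, add_mul, exp_add, mul_left_comm, norm_mul_exp_arg_mul_I,
        hw, ← mul_assoc, ofReal_div, ofReal_ofNat, mul_conj, normSq_eq_norm_sq, e1]
      simp
    have e4 : c * √3 ≤ √(3 - normSq (Z2 p.1)) * Real.cos (arg w) := by
      rwa [← root_val hz, ← e3]
    obtain ⟨a, b⟩ := S _ _ (abs_arg_le_pi w) e4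
    have f1 : η * (Z2 p.1 / η) = Z2 p.1 := mul_div_cancel₀ _ (ofReal_ne_zero.2 h0.ne')
    have f2 : η * (arg w / η) = arg w := mul_div_cancel₀ _ h0.ne'
    refine ⟨(Z2 p.1 / η, arg w / η), ⟨?_, by simpa only [f1, f2] using e4⟩,
      by simpa only [f1, f2] using e3⟩
    rw [mem_closedBall_zero_iff, Prod.norm_def, max_le_iff, norm_div, norm_div, norm_real,
      Real.norm_eq_abs, Real.norm_eq_abs, abs_of_pos h0, div_le_one h0, div_le_one h0]
    exact ⟨a.le, b.le⟩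

lemma root_sh {K B U S : Set S3} {f : ℂ × ℝ → S3} (hK : IsClosed K) (hB : Ball B S)
    (hf : Emb f (closedBall 0 1)) (fU : f '' closedBall 0 1 = U) (fS : f '' sphere 0 1 = S)
    (it : B ∩ U = S) (un : B ∪ U = univ) (dj : Disjoint U K) :
    ∃ h, Mv K h B ∧ h '' B = (f '' ball 0 (1 / 2))ᶜ ∧ h '' S = f '' sphere 0 (1 / 2) := by
  obtain ⟨h, m, a, b⟩ := shell hK hB hf fU fS it dj
  have s : ball (0 : ℂ × ℝ) (1 / 2) ⊆ closedBall 0 1 :=
    ball_subset_closedBall.trans (closedBall_subset_closedBall (by norm_num))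
  refine ⟨h, m, ?_, b⟩
  rw [a, hf.diff subset_rfl s, fU]
  refine Subset.antisymm (union_subset ?_ fun x hx => hx.2) fun x hx =>
    (un.ge (mem_univ x)).imp id fun k => ⟨k, hx⟩
  rintro _ k ⟨y, hy, rfl⟩
  have := (hf.mem_iff sphere_subset_closedBall (s hy)).1
    (fS.ge (it.le ⟨k, fU.le (mem_image_of_mem _ (s hy))⟩))
  rw [mem_ball_zero_iff, mem_sphere_zero_iff_norm.1 this] at hy
  norm_num at hy

/-- `shell` twice: first onto the complement of the small cylinder, then, with the chart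
x ↦ fz (η y.1) (π/3 + η y.2), y = (pair_convex) x, onto the complement of the cap; `std_Z` -/
theorem root_mv {U K B : Set S3} (t : Tub U) (hK : IsClosed K) (dj : Disjoint U K)
    (hB : Ball B (rimU U)) (it : B ∩ U = rimU U) (un : B ∪ U = univ) :
    ∃ h, Mv K h B ∧ L.Std (h '' B) (h '' rimU U) := by
  obtain ⟨f, η, h0, h1, hf, fU, fS, e⟩ := t
  obtain ⟨c, c0, c1, cv, ck, sub, int, sur⟩ := capP_spec h0 h1
  obtain ⟨h, m, a, b⟩ := root_sh hK hB hf fU fS it un dj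
  obtain ⟨φ, eφ, i1, i2, i3, i4⟩ := pair_convex cv ck (by
    rw [int]
    exact ⟨mem_closedBall_self zero_le_one, by simpa using c1⟩) sub
  have hd (x : ℂ × ℝ) : ‖(1 / 2 : ℝ) • x‖ = ‖x‖ / 2 := by rw [norm_smul]; simp; ring
  have d1 : (fun x : ℂ × ℝ => (1 / 2 : ℝ) • x) '' closedBall 0 1 ⊆ closedBall 0 1 := by
    rintro _ ⟨x, hx, rfl⟩
    rw [mem_closedBall_zero_iff] at hx ⊢
    rw [hd]; linarith
  have d2 : (fun x : ℂ × ℝ => (1 / 2 : ℝ) • x) '' ball 0 1 = ball 0 (1 / 2) := by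
    rw [image_smul, smul_unitBall (by norm_num)]; norm_num
  have d3 : (fun x : ℂ × ℝ => (1 / 2 : ℝ) • x) '' sphere 0 1 = sphere 0 (1 / 2) := by
    rw [image_smul, smul_sphere' (by norm_num)]; norm_num
  set F := f ∘ fun x : ℂ × ℝ => (1 / 2 : ℝ) • x with hF
  have eF : Emb F (closedBall 0 1) :=
    hf.comp ⟨by fun_prop, (smul_right_injective _ (by norm_num)).injOn⟩ d1
  have vF (x : ℂ × ℝ) (hx : x ∈ closedBall (0 : ℂ × ℝ) 1) :
      F x = fz (η * x.1) (Real.pi / 3 + η * x.2) := by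
    rw [hF, Function.comp, e _ (by rw [mem_closedBall_zero_iff] at hx ⊢; rw [hd]; linarith)]
    congr 1 <;> simp <;> ring
  have zF (x : ℂ × ℝ) (hx : x ∈ closedBall (0 : ℂ × ℝ) 1) :
      ((starRingEnd ℂ) (exp (Real.pi / 3 * I)) * Z1 (F x).1).re =
        √(3 - normSq (η * x.1)) * Real.cos (η * x.2) := by
    rw [vF x hx, root_val]
    rw [normSq_eq_norm_sq]
    nlinarith [(root_cb h0 hx).1, norm_nonneg (η * x.1)]
  rw [← d2, ← image_comp, ← hF] at a
  rw [← d3, ← image_comp, ← hF] at b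
  obtain ⟨k, m', a', b'⟩ := root_sh (U := F '' closedBall 0 1) (f := F ∘ φ) hK
    (hB.image m.1 subset_rfl) (eF.comp eφ i1.le) (by rw [image_comp, i1])
    (by rw [image_comp, i2, b]) (by
      rw [a, b, inter_comm, ← sdiff_eq, ← eF.diff subset_rfl ball_subset_closedBall,
        closedBall_sdiff_ball])
    (by
      rw [a, eq_univ_iff_forall]
      exact fun x => (em _).symm.imp id fun k => image_mono ball_subset_closedBall k)
    (dj.mono_left (by rw [hF, image_comp, ← fU]; exact image_mono d1))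
  refine ⟨k ∘ h, m.comp m', ?_⟩
  have s := std_Z (e := exp (Real.pi / 3 * I)) (c := c)
    (by simpa using norm_exp_ofReal_mul_I (Real.pi / 3)) (by rwa [abs_of_pos c0])
  rw [image_comp, image_comp, a', b', image_comp F φ, image_comp F φ, i3, i4,
    ck.isClosed.frontier_eq, int]
  convert s using 1 <;> ext p
  · rw [mem_compl_iff, mem_ofPred_eq, ← not_lt]
    refine not_congr ⟨?_, fun hp => ?_⟩
    · rintro ⟨x, hx, rfl⟩
      exact hx.2.trans_eq (zF x hx.1).symm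
    · obtain ⟨x, hx, r⟩ := sur p hp.le
      rw [← vF x hx.1] at r
      exact ⟨x, ⟨hx.1, by rwa [← zF x hx.1, ← r]⟩, r.symm⟩
  · constructor
    · rintro ⟨x, hx, rfl⟩
      exact (zF x hx.1.1).trans (le_antisymm (not_lt.1 fun k => hx.2 ⟨hx.1.1, k⟩) hx.1.2)
    · intro hp
      obtain ⟨x, hx, r⟩ := sur p (ge_of_eq hp)
      rw [← vF x hx.1] at r
      exact ⟨x, ⟨hx, fun k => k.2.ne' (by rwa [← zF x hx.1, ← r])⟩, r.symm⟩

end Pool.Agent.Lib.MP_b7d179_gt.Gm
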