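import Pool.Agent.Lib.MP_b7d179_gt.G.Lab
import Pool.Agent.Lib.MP_b7d179_gt.G.ArcQ

/-! The action of the rotation. -/

namespace Pool.Agent.Lib.MP_b7d179_gt.Gm

open Set Metric Complex Stmt

theorem rp_val (p : S3) : (rot (sw p)).1 = (p.1.1, -p.1.2) := by
  have e : (rot (sw p)).1 = lE (1 / 2) (-√3 / 2) (√3 / 2) (1 / 2)
    (lE (1 / 2) (-√3 / 2) (-√3 / 2) (-1 / 2) p.1) := rfl
  rw [e]
  refine Prod.ext ?_ ?_ <;> simp only [lE] <;> push_cast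
  · linear_combination (p.1.1 / 4) * s3
  · linear_combination (-p.1.2 / 4) * s3

theorem rp_zt (p : S3) : zt (rot (sw p)) = -zt p := by
  simp only [zt, rp_val, neg_mul, neg_im]

theorem rp_inv (p : S3) : rot (sw (rot (sw p))) = p :=
  Subtype.ext (by rw [rp_val, rp_val, neg_neg])

theorem rp_half {P Q : S3 → Prop} (h : ∀ p, Q (rot (sw p)) ↔ P p) :
    rot '' (sw '' (Pn ∩ {p | P p})) = Pn ∩ {p | Q p} := by
  ext q
  constructor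
  · rintro ⟨_, ⟨p, ⟨h1, h2⟩, rfl⟩, rfl⟩
    exact ⟨(sym_Pn p).2.2.1.2 h1, (h p).2 h2⟩
  · rintro ⟨h1, h2⟩
    refine ⟨_, ⟨rot (sw q), ⟨(sym_Pn q).2.2.1.2 h1, (h _).1 ?_⟩, rfl⟩, rp_inv q⟩
    rw [rp_inv]
    exact h2

theorem rp_cQ (U : Set S3) : rot '' (sw '' cQ U) = cQ U := by
  rw [image_image]
  refine EqOn.image_eq_self fun p hp => Subtype.ext ?_
  have h : p ∈ Pn ∩ {p | zt p = 0} := ⟨hp.1.1, hp.2⟩
  rw [Pn_eq] at h
  have h2 := (eq_Z1 p).2 h.1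
  exact (rp_val p).trans (Prod.ext rfl (by simp [h2]))

theorem rp_gg (a : ℕ) (Q : Set S3) : rot '' (gg a 0 '' Q) = gg 0 a '' (rot '' Q) := by
  have e : rot * gg a 0 = gg 0 a * rot := by
    rw [gg, gg, pow_zero, pow_zero, mul_one, one_mul]
    exact SemiconjBy.pow_right (rot_g 5) a
  rw [image_image, image_image]
  exact image_congr fun p _ => DFunLike.congr_fun e p

theorem rp_shift {f : S3 → S3} {n : ℕ} (hn : n % 2 = 0)
    (h : ∀ t, f (km t) = km (t + n * (Real.pi / 12))) (τ : ℕ) : f '' oc (τ + n) = oc τ := by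
  unfold oc
  rw [show (τ + n) % 2 = τ % 2 by omega]
  split_ifs
  · rw [image_singleton, h]
    congr 2
    push_cast
    ring
  · rw [image_image, image_congr fun t _ => h t, ← image_image km, image_add_const_Ioo]
    congr 2 <;> push_cast <;> ring

theorem rp_oc (τ : ℕ) (h : τ < 24) : rot '' oc τ = oc ((τ + 20) % 24) := by
  have h24 : ∀ σ, oc (σ + 24) = oc σ := fun σ => by
    rw [← rp_shift (f := id) (n := 24) rfl (fun t => ?_) σ, image_id]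
    rw [id, ← (km_sym t).2.2.2]
    congr 1
    push_cast
    ring
  have h4 : ∀ σ, rot '' oc (σ + 4) = oc σ := rp_shift rfl fun t => by
    rw [(km_sym t).1]
    congr 1
    push_cast
    ring
  rw [← h24 τ, show τ + 24 = τ + 20 + 4 by omega, h4]
  rcases lt_or_ge τ 4 with k | k
  · rw [Nat.mod_eq_of_lt (by omega)]
  · rw [← h24 ((τ + 20) % 24)]
    congr 1
    omega

theorem rp_sq (γ : S3 ≃ₜ S3) (Q : Set S3) : γ '' (γ '' Q) = (γ ^ 2 : S3 ≃ₜ S3) '' Q := by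
  rw [image_image, pow_two]
  rfl

theorem rp_cyc (i : Fin 6) (Q : Set S3) :
    cyc (g i) Q = Q ∪ g i '' Q ∪ (g i ^ 2 : S3 ≃ₜ S3) '' Q := Set.ext (mem_cyc i Q)

namespace Dat
variable (D : Dat)

theorem rp_U (m : ℕ) : D.R (Nat.lor (L.shU m) (L.shU (L.shU m))) =
    g 0 '' D.R m ∪ (g 0 ^ 2 : S3 ≃ₜ S3) '' D.R m := by
  rw [D.rl.or, ← D.su, ← D.su, ← D.su, rp_sq]

theorem rp_V (m : ℕ) : D.R (Nat.lor (L.shV m) (L.shV (L.shV m))) =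
    g 5 '' D.R m ∪ (g 5 ^ 2 : S3 ≃ₜ S3) '' D.R m := by
  rw [D.rl.or, ← D.sv, ← D.sv, ← D.sv, rp_sq]

theorem rp_f : D.R (L.fc 35 0 0) = D.H 1 ∧ D.R (L.fc 36 0 0) = D.H 2 ∧ D.R (L.fc 37 0 0) = D.H 3 ∧
    D.R (L.fc 38 0 0) = D.H 4 :=
  ⟨D.R_base (τ := 35) (by omega), D.R_base (τ := 36) (by omega), D.R_base (τ := 37) (by omega),
    D.R_base (τ := 38) (by omega)⟩

theorem rp_b : D.R (L.bc 45 0 0) = D.Yf ∧ D.R (L.bc 46 0 0) = D.Yv ∧ D.R (L.bc 47 0 0) = D.X 2 ∧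
    D.R (L.bc 48 0 0) = D.X 3 ∧ D.R (L.bc 49 0 0) = D.X 4 :=
  ⟨D.R_base (τ := 45) (by omega), D.R_base (τ := 46) (by omega), D.R_base (τ := 47) (by omega),
    D.R_base (τ := 48) (by omega), D.R_base (τ := 49) (by omega)⟩

theorem R_H : D.R (L.h12 0 0) = D.H 0 ∧ D.R (L.h61 0 0) = D.H 5 := by
  have e1 : L.h12 0 0 = Nat.lor (L.pU 0)
    (Nat.lor (L.shU (L.fc 37 0 0)) (L.shU (L.shU (L.fc 37 0 0)))) := by decide +kernel
  have e2 : L.h61 0 0 = Nat.lor (L.pV 0)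
    (Nat.lor (L.shV (L.fc 36 0 0)) (L.shV (L.shV (L.fc 36 0 0)))) := by decide +kernel
  rw [e1, e2, D.rl.or (L.pU 0), D.rl.or (L.pV 0), D.rp_U, D.rp_V, D.rp_f.2.1, D.rp_f.2.2.1, D.R_pU.1,
    D.R_pU.2, D.wl.dec, D.H5_eq, union_assoc, union_assoc]
  exact ⟨rfl, rfl⟩

theorem rp_Y : D.R L.yS = D.Ys ∧ D.R L.yE = D.Ye := by
  have e1 : L.yS = Nat.lor L.core (Nat.lor (L.shU (L.yV 0)) (L.shU (L.shU (L.yV 0)))) := by
    decide +kernel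
  have e2 : L.yE = Nat.lor L.core (Nat.lor (L.shV (L.yU 0)) (L.shV (L.shV (L.yU 0)))) := by
    decide +kernel
  have e3 : L.yV 0 = Nat.lor (L.bc 46 0 0) (Nat.lor (L.bc 49 0 0)
    (Nat.lor (L.shV (L.bc 49 0 0)) (L.shV (L.shV (L.bc 49 0 0))))) := by decide +kernel
  have e4 : L.yU 0 = Nat.lor (L.bc 45 0 0) (Nat.lor (L.bc 47 0 0)
    (Nat.lor (L.shU (L.bc 47 0 0)) (L.shU (L.shU (L.bc 47 0 0))))) := by decide +kernel
  have k3 : D.R (L.yV 0) = D.Yv ∪ cyc (g 5) (D.X 4) := by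
    rw [e3, D.rl.or, D.rl.or (L.bc 49 0 0), D.rp_V, D.rp_b.2.1, D.rp_b.2.2.2.2, rp_cyc, union_assoc]
  have k4 : D.R (L.yU 0) = D.Yf ∪ cyc (g 0) (D.X 2) := by
    rw [e4, D.rl.or, D.rl.or (L.bc 47 0 0), D.rp_U, D.rp_b.1, D.rp_b.2.2.1, rp_cyc, union_assoc]
  constructor
  · rw [e1, D.rl.or, D.rp_U, k3, D.R_core, D.ys_eq, union_assoc]
  · rw [e2, D.rl.or, D.rp_V, k4, D.R_core, D.ye_eq, union_assoc]

theorem R_X : D.R L.x1 = D.X 0 ∧ D.R (L.x2 0 0) = D.X 1 ∧ D.R (L.x6 0 0) = D.X 5 := by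
  have e1 : L.x1 = Nat.lor L.yS (Nat.lor (L.shV (Nat.lor (L.x2 0 0) (L.bc 47 0 0)))
    (L.shV (L.shV (Nat.lor (L.x2 0 0) (L.bc 47 0 0))))) := by decide +kernel
  have e2 : L.x2 0 0 = Nat.lor (L.bc 45 0 0) (Nat.lor (L.shU (Nat.lor (L.bc 47 0 0) (L.bc 48 0 0)))
    (L.shU (L.shU (Nat.lor (L.bc 47 0 0) (L.bc 48 0 0))))) := by decide +kernel
  have e3 : L.x6 0 0 = Nat.lor (L.bc 46 0 0) (Nat.lor (L.shV (Nat.lor (L.bc 49 0 0) (L.bc 48 0 0)))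
    (L.shV (L.shV (Nat.lor (L.bc 49 0 0) (L.bc 48 0 0))))) := by decide +kernel
  obtain ⟨b1, b2, b3, b4, b5⟩ := D.rp_b
  have k2 : D.R (L.x2 0 0) = D.X 1 := by
    rw [e2, D.rl.or, D.rp_U, D.rl.or, b1, b3, b4, D.dec.x1, union_assoc]
  refine ⟨?_, k2, ?_⟩
  · rw [e1, D.rl.or, D.rp_V, D.rl.or, k2, b3, D.rp_Y.1, D.dec.ys, union_assoc]
  · rw [e3, D.rl.or, D.rp_V, D.rl.or, b2, b4, b5, D.dec.x5, union_assoc]

theorem R_Y : D.R L.yS = D.Ys ∧ D.R L.yE = D.Ye := D.rp_Y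

theorem rp_ccl {τ : ℕ} (h : τ < 24) : D.R (cm τ 0 0) = ccl τ := by
  rw [D.R_base (by omega)]
  interval_cases τ <;> rfl

theorem R_oc {τ : ℕ} (h : τ < 24) : D.R (L.bt τ 0 0) = oc τ := by
  have e0 : ∀ τ < 24, τ % 2 = 0 → L.bt τ 0 0 = cm τ 0 0 := by decide +kernel
  have e1 : ∀ τ < 24, τ % 2 = 1 → L.bt τ 0 0 =
    C.df (cm τ 0 0) (Nat.lor (cm (τ - 1) 0 0) (cm ((τ + 1) % 24) 0 0)) := by decide +kernel
  rcases Nat.mod_two_eq_zero_or_one τ with k | k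
  · rw [e0 τ h k, D.rp_ccl h, ccl, oc, if_pos k, if_pos k]
  · have h1 : τ - 1 < 24 := by omega
    have h2 : (τ + 1) % 24 < 24 := by omega
    rw [e1 τ h k, D.rl.df, D.rl.or, D.rp_ccl h, D.rp_ccl h1, D.rp_ccl h2]
    ext p
    constructor
    · rintro ⟨a, b⟩
      obtain ⟨σ, ⟨s1, s2⟩, -⟩ := oc_ex ((oc_kc τ).2 a)
      rw [mem_union, oc_ccl s1 h1 s2, oc_ccl s1 h2 s2] at b
      rw [oc_ccl s1 h s2] at a
      obtain rfl : τ = σ := by omega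
      exact s2
    · intro a
      rw [mem_sdiff, mem_union, oc_ccl h h a, oc_ccl h h1 a, oc_ccl h h2 a]
      omega

theorem rp_q (a : Fin 3) : rot '' D.R (cm 29 a 0) = D.R (cm 28 0 a) := by
  have e1 : D.R (cm 29 a 0) = gg a 0 '' (sw '' cQ D.U) :=
    D.R_cm (τ := 29) (a := a) (b := 0) ⟨by omega, rfl⟩
  have e2 : D.R (cm 28 0 a) = gg 0 a '' cQ D.U :=
    D.R_cm (τ := 28) (a := 0) (b := a) ⟨by omega, rfl⟩
  rw [e1, e2, rp_gg, rp_cQ]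

/-- rot ∘ sw is (p.1, p.2) ↦ (p.1, -p.2): it fixes the equator (Pn_eq, eq_Z1) and reverses zt -/
theorem sr : ∀ p ∈ L.rPairs, rot '' D.R p.1 = D.R p.2 := by
  obtain ⟨f1, f2, f3, f4⟩ := D.rp_f
  obtain ⟨b1, b2, b3, b4, b5⟩ := D.rp_b
  obtain ⟨h0, h5⟩ := D.R_H
  obtain ⟨x0, x1, x5⟩ := D.R_X
  obtain ⟨y1, y2⟩ := D.R_Y
  obtain ⟨z1, z2, z3, z4⟩ := D.R_half
  intro p hp
  rcases List.mem_append.1 hp with hp | hp
  · obtain ⟨τ, h, rfl⟩ := List.mem_map.1 hp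
    rw [List.mem_range] at h
    rw [D.R_oc h, D.R_oc (by omega), rp_oc τ h]
  simp only [List.mem_cons, List.not_mem_nil, or_false] at hp
  rcases hp with rfl | rfl | rfl | rfl | rfl | rfl | rfl | rfl | rfl | rfl | rfl | rfl | rfl | rfl |
    rfl | rfl | rfl | rfl | rfl <;> dsimp only
  · exact D.rp_q 0
  · exact D.rp_q 1
  · exact D.rp_q 2
  · rw [z3, z2]; exact rp_half fun p => by rw [rp_zt, neg_nonpos]
  · rw [z4, z1]; exact rp_half fun p => by rw [rp_zt, neg_nonneg]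
  · rw [h5, h0]; exact D.bk.rotH 5
  · rw [h0, f1]; exact D.bk.rotH 0
  · rw [f1, f2]; exact D.bk.rotH 1
  · rw [f2, f3]; exact D.bk.rotH 2
  · rw [f3, f4]; exact D.bk.rotH 3
  · rw [f4, h5]; exact D.bk.rotH 4
  · rw [x0, x1]; exact D.bk.rotX 0
  · rw [x1, b3]; exact D.bk.rotX 1
  · rw [b3, b4]; exact D.bk.rotX 2
  · rw [b4, b5]; exact D.bk.rotX 3
  · rw [b5, x5]; exact D.bk.rotX 4
  · rw [x5, x0]; exact D.bk.rotX 5
  · rw [y1, b1]; exact rot.toEquiv.image_symm_image _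
  · rw [b2, y2]; exact rot.toEquiv.image_symm_image _

end Dat

end Pool.Agent.Lib.MP_b7d179_gt.Gm
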