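import Pool.Agent.Lib.MP_b7d179_gt.G.Lab

/-! The table of arcs. -/

namespace Pool.Agent.Lib.MP_b7d179_gt.Gm

open Set Metric Complex Stmt

/-- the entry of the table for the type `τ` in the slot `(a, b)` -/
def tab1E (τ a b : ℕ) : ℕ × ℕ × ℕ :=
  if τ < 24 then (L.ka a b (τ / 2) 1, L.kv a b (τ / 2), L.kv a b (τ / 2 + 1))
  else (L.ed τ a b, L.eEnds τ a b)

theorem tab1_mv : ∀ τ < 30, ∀ a < 3, ∀ b < 3, tab1E τ a b =
    (L.shV^[a] (L.shU^[b] (tab1E τ 0 0).1), L.shV^[a] (L.shU^[b] (tab1E τ 0 0).2.1),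
      L.shV^[a] (L.shU^[b] (tab1E τ 0 0).2.2)) := by decide +kernel

theorem tab1_sh : ∀ i < 12, L.kv 0 (0 + 1) i = L.shU (L.kv 0 0 i) ∧
    L.kv (0 + 1) 0 i = L.shV (L.kv 0 0 i) := by decide +kernel

theorem tab1_km {s t : ℝ} (n : ℕ) (h : s + n * (2 * Real.pi) = t) : km s = km t := by
  subst h
  induction n with
  | zero => simp
  | succ n ih => rw [ih, ← (km_sym (s + n * (2 * Real.pi))).2.2.2]; congr 1; push_cast; ring

theorem tab1_sw (m n k : ℕ) (h : m + n + 2 = 12 * k) : sw (kv m) = kv n := by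
  have e : (m : ℝ) + n + 2 = 12 * k := by exact_mod_cast h
  rw [kv, kv, (km_sym _).2.2.1]
  exact tab1_km k (by linear_combination (-(Real.pi / 6)) * e)

theorem tab1_cj (m : ℕ) : cj (kv m) = kv (m + 6) := by
  rw [kv, kv, (km_sym _).2.1]; congr 1; push_cast; ring

theorem tab1_img (γ : S3 ≃ₜ S3) {A : Set S3} {x y : S3} (h : Arc A x y) :
    Arc (γ '' A) (γ x) (γ y) :=
  h.image ⟨γ.continuous.continuousOn, γ.injective.injOn⟩ (subset_univ _)

namespace Dat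
variable (D : Dat)

/-- the entry is an arc with its two ends -/
def Tab1 (e : ℕ × ℕ × ℕ) : Prop := ∃ x y, Arc (D.R e.1) x y ∧ D.R e.2.1 = {x} ∧ D.R e.2.2 = {y}

theorem tab1_U {i : ℕ} (h : i < 12) : D.R (L.kv 0 (0 + 1) i) = {g 0 (kv (12 - i))} := by
  rw [(tab1_sh i h).1, ← D.su, D.R_kv h.le, image_singleton]

theorem tab1_V {i : ℕ} (h : i < 12) : D.R (L.kv (0 + 1) 0 i) = {g 5 (kv (12 - i))} := by
  rw [(tab1_sh i h).2, ← D.sv, D.R_kv h.le, image_singleton]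

theorem tab1_base {τ : ℕ} (h : τ < 30) (k : 24 ≤ τ ∨ τ % 2 = 1) : D.Tab1 (tab1E τ 0 0) := by
  by_cases c : τ < 24
  · rw [tab1E, if_pos c]
    refine ⟨_, _, ?_, D.R_kv (by omega), D.R_kv (by omega)⟩
    rw [D.R_ka (by omega), Nat.sub_sub]
    exact (arc_ka (by omega) (by omega)).symm
  have s0 : ∀ p, sw (g 0 p) = g 5 (sw p) := fun p => DFunLike.congr_fun (sw_g 0) p
  have a25 : Arc ((g 0 * cj : S3 ≃ₜ S3) '' cE D.U) (kv 8) (g 0 (kv 11)) := by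
    have := (tab1_img (g 0 * cj) D.pr.aE).symm
    have e : (g 0 * cj : S3 ≃ₜ S3) (g 0 (kv 2)) = cj (kv 2) := by
      rw [← Homeomorph.mul_apply, mul_assoc, cj_g, ← mul_assoc, ← pow_succ', g_cube, one_mul]
    rwa [e, Homeomorph.mul_apply, tab1_cj, tab1_cj] at this
  have b : D.R (L.ed τ 0 0) = D.base τ := by
    rw [← D.R_base (by omega), cm, if_neg c, if_pos h]
  rw [tab1E, if_neg c]
  unfold Tab1
  simp only [b]
  obtain rfl | rfl | rfl | rfl | rfl | rfl :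
    τ = 24 ∨ τ = 25 ∨ τ = 26 ∨ τ = 27 ∨ τ = 28 ∨ τ = 29 := by omega
  · exact ⟨_, _, D.pr.aE, D.R_kv (i := 7) (by omega), D.tab1_U (i := 10) (by omega)⟩
  · exact ⟨_, _, a25, D.R_kv (i := 4) (by omega), D.tab1_U (i := 1) (by omega)⟩
  · have := tab1_img sw D.pr.aE
    rw [s0, tab1_sw 5 5 1 rfl, tab1_sw 2 8 1 rfl] at this
    exact ⟨_, _, this, D.R_kv (i := 7) (by omega), D.tab1_V (i := 4) (by omega)⟩
  · have := tab1_img sw a25
    rw [s0, tab1_sw 8 2 1 rfl, tab1_sw 11 11 2 rfl, image_image] at this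
    exact ⟨_, _, this, D.R_kv (i := 10) (by omega), D.tab1_V (i := 1) (by omega)⟩
  · have := D.pr.aQ
    rw [show kv 0 = kv 12 from tab1_km 1 (by push_cast; ring)] at this
    exact ⟨_, _, this, D.R_kv (i := 6) (by omega), D.tab1_U (i := 0) (by omega)⟩
  · have := tab1_img sw D.pr.aQ
    rw [s0, tab1_sw 6 4 1 rfl, tab1_sw 0 10 1 rfl] at this
    exact ⟨_, _, this, D.R_kv (i := 8) (by omega), D.tab1_V (i := 2) (by omega)⟩

theorem tab1_all {τ a b : ℕ} (h : τ < 30) (k : 24 ≤ τ ∨ τ % 2 = 1) (ha : a < 3) (hb : b < 3) :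
    D.Tab1 (tab1E τ a b) := by
  obtain ⟨x, y, h1, h2, h3⟩ := D.tab1_base h k
  rw [tab1_mv τ h a ha b hb]
  refine ⟨gg a b x, gg a b y, ?_, ?_, ?_⟩ <;> simp only [← D.R_gg]
  · exact tab1_img _ h1
  · rw [h2, image_singleton]
  · rw [h3, image_singleton]

end Dat

/-- move the slot to (0, 0) with `R_gg` (mask identities by `decide +kernel`) -/
theorem Dat.tab1 (D : Dat) (t m u v : ℕ) (h : L.vx.a1 t = some (m, u, v)) :
    ∃ x y, Arc (D.R m) x y ∧ D.R u = {x} ∧ D.R v = {y} := by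
  have e : L.vx.a1 t = if t / 2 < 450 ∧ t / 2 % 50 < 30 ∧ (24 ≤ t / 2 % 50 ∨ t / 2 % 50 % 2 = 1) then
      some (if t % 2 = 0 then tab1E (t / 2 % 50) (t / 2 / 150) (t / 2 / 50 % 3) else
        ((tab1E (t / 2 % 50) (t / 2 / 150) (t / 2 / 50 % 3)).1,
          (tab1E (t / 2 % 50) (t / 2 / 150) (t / 2 / 50 % 3)).2.2,
          (tab1E (t / 2 % 50) (t / 2 / 150) (t / 2 / 50 % 3)).2.1)) else none := rfl
  rw [e] at h
  by_cases c : t / 2 < 450 ∧ t / 2 % 50 < 30 ∧ (24 ≤ t / 2 % 50 ∨ t / 2 % 50 % 2 = 1)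
  · rw [if_pos c, Option.some_inj] at h
    obtain ⟨x, y, h1, h2, h3⟩ := D.tab1_all (a := t / 2 / 150) (b := t / 2 / 50 % 3) c.2.1 c.2.2
      (by omega) (by omega)
    generalize tab1E (t / 2 % 50) (t / 2 / 150) (t / 2 / 50 % 3) = w at h h1 h2 h3
    split_ifs at h
    · subst h
      exact ⟨x, y, h1, h2, h3⟩
    · obtain ⟨rfl, rfl, rfl⟩ := h
      exact ⟨y, x, h1.symm, h3, h2⟩
  · rw [if_neg c] at h
    cases h

end Pool.Agent.Lib.MP_b7d179_gt.Gm
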