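import Pool.Agent.Lib.MP_b7d179_gt.G.Lab

/-! The table of discs. -/

namespace Pool.Agent.Lib.MP_b7d179_gt.Gm

open Set Metric Complex Stmt

theorem tab2_img (f : S3 ≃ₜ S3) {A c : Set S3} (h : Disc A c) : Disc (f '' A) (f '' c) :=
  h.image ⟨f.continuous.continuousOn, f.injective.injOn⟩ subset_rfl

theorem tab2_mul (f f' : S3 ≃ₜ S3) (Q : Set S3) : (f * f' : S3 ≃ₜ S3) '' Q = f '' (f' '' Q) :=
  (image_image f f' Q).symm

theorem tab2_semi {f a b : S3 ≃ₜ S3} (h : f * a = b * f) (Q : Set S3) :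
    f '' (a '' Q) = b '' (f '' Q) := by rw [← tab2_mul, h, tab2_mul]

theorem tab2_swg : sw * g 0 = g 5 * sw := sw_g 0

theorem tab2_cj (m n : ℕ) : cj '' ka m n = ka (m + 6) (n + 6) := by
  have : (fun t => cj (km t)) = fun t => km (t + Real.pi) := funext fun t => (km_sym t).2.1
  rw [ka, ka, image_image, this, ← image_image km (· + Real.pi), image_add_const_Icc]
  congr 2 <;> push_cast <;> ring

theorem tab2_per (m n : ℕ) : ka (m + 12) (n + 12) = ka m n := by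
  rw [show ka (m + 12) (n + 12) = ka (m + 6 + 6) (n + 6 + 6) from rfl, ← tab2_cj, ← tab2_cj,
    ← tab2_mul, cj_cj]
  exact image_id _

theorem tab2_sw {m n m' n' : ℕ} (h : m' + n = 22) (h' : n' + m = 22) : sw '' ka m n = ka m' n' := by
  have : (fun t => sw (km t)) = fun t => km (22 * (Real.pi / 6) - t) := funext fun t => by
    rw [(km_sym t).2.2.1, ← (km_sym _).2.2.2, ← (km_sym _).2.2.2]
    congr 1
    ring
  have k : (m' : ℝ) + n = 22 := by exact_mod_cast h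
  have k' : (n' : ℝ) + m = 22 := by exact_mod_cast h'
  rw [ka, ka, image_image, this, ← image_image km (22 * (Real.pi / 6) - ·), image_const_sub_Icc,
    eq_sub_of_add_eq k, eq_sub_of_add_eq k']
  congr 2 <;> ring

theorem tab2_split : ka 11 14 = ka 0 2 ∪ ka 11 12 := by
  have p := Real.pi_pos
  rw [← tab2_per 0 2, union_comm, ka, ka, ka, ← image_union, Icc_union_Icc_eq_Icc] <;>
    push_cast <;> linarith

theorem tab2_cyc {f a b : S3 ≃ₜ S3} (h : f * a = b * f) (Q : Set S3) :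
    f '' cyc a Q = cyc b (f '' Q) := by
  have e (k : ℕ) (p : S3) : f ((a ^ k) p) = (b ^ k) (f p) :=
    DFunLike.congr_fun (SemiconjBy.pow_right h k).eq p
  ext p
  obtain ⟨p, rfl⟩ := f.surjective p
  rw [f.injective.mem_set_image]
  exact exists_congr fun k => by rw [← e, f.injective.mem_set_image]

theorem tab2_sq (Q : Set S3) : cyc (g 0 ^ 2) Q = cyc (g 0) Q := by
  refine Subset.antisymm (fun p ⟨k, h⟩ => ⟨2 * k, pow_mul (g 0) 2 k ▸ h⟩) fun p ⟨k, h⟩ => ⟨2 * k, ?_⟩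
  rwa [← pow_mul, show 2 * (2 * k) = k + 3 * k by ring, sym_p3]

theorem tab2_sh (A B : Set S3) : cyc (g 0) (A ∪ g 0 '' B) = cyc (g 0) (A ∪ B) := by
  refine Subset.antisymm ?_ ?_
  · rintro p ⟨k, h | ⟨q, h, e⟩⟩
    · exact ⟨k, .inl h⟩
    · refine ⟨2 + k, .inr ?_⟩
      rw [← sym_pw, ← e]
      exact (show g 0 (g 0 (g 0 q)) = q from DFunLike.congr_fun (g_cube 0) q).symm ▸ h
  · rintro p ⟨k, h | h⟩
    · exact ⟨k, .inl h⟩
    · exact ⟨k + 1, .inr ⟨_, h, by rw [pow_succ']; rfl⟩⟩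

theorem tab2_back : g 0 * cj * g 0 = cj := by
  rw [mul_assoc, cj_g, ← mul_assoc, ← pow_succ', g_cube, one_mul]

theorem tab2_io : io * sw = g 0 * (sw * g 0 * cj) := by
  have c : cj * sw = sw * cj := Homeomorph.ext fun p => ext_Z
    ((Z_cj (sw p)).1.trans (by rw [(Z_sw _).1]; exact ((Z_sw (cj p)).1.trans (Z_cj p).2).symm))
    ((Z_cj (sw p)).2.trans (by rw [(Z_sw _).2]; exact ((Z_sw (cj p)).2.trans (Z_cj p).1).symm))
  have d : g 5 * g 0 = g 0 * g 5 := g_comm 5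
  rw [io, tab2_swg, d, mul_assoc, c, mul_assoc, mul_assoc]

namespace Dat
variable (D : Dat)

theorem tab2_Q : (g 0 * cj : S3 ≃ₜ S3) '' cQ D.U = cQ D.U := by
  have s : ∀ p ∈ cQ D.U, g 0 (cj p) ∈ cQ D.U := by
    rintro _ ⟨⟨a, q, b, rfl⟩, c⟩
    refine ⟨⟨(sym_Pn _).1.2 ((sym_Pn _).2.1.2 a), g 5 (cj q), D.pr.invc.le ⟨q, b, rfl⟩, ?_⟩,
      (g_zt _).2.2 (by rw [cj_zt, show zt (sw q) = 0 from c, neg_zero])⟩
    refine ext_Z ?_ ?_ <;>
      simp only [(tubes_Z _).1.1, (tubes_Z _).1.2, (tubes_Z _).2.1, (tubes_Z _).2.2, (Z_cj _).1,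
        (Z_cj _).2, (Z_sw _).1, (Z_sw _).2]
  refine Subset.antisymm (by rintro _ ⟨p, h, rfl⟩; exact s p h) fun p h => ⟨_, s p h, ?_⟩
  exact (DFunLike.congr_fun tab2_back (cj p)).trans (DFunLike.congr_fun cj_cj p)

theorem tab2_U (m : ℕ) : D.R (L.o3 fun j => L.shU^[j] m) = cyc (g 0) (D.R m) := by
  ext p
  rw [mem_cyc, pow_two, tab2_mul, D.su, D.su, union_assoc, ← D.rl.or, ← D.rl.or]
  exact iff_of_eq (congrArg (fun k => p ∈ D.R (Nat.lor m (Nat.lor _ k))) (Nat.or_zero _))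

theorem tab2_V (m : ℕ) : D.R (L.o3 fun j => L.shV^[j] m) = cyc (g 5) (D.R m) := by
  ext p
  rw [mem_cyc, pow_two, tab2_mul, D.sv, D.sv, union_assoc, ← D.rl.or, ← D.rl.or]
  exact iff_of_eq (congrArg (fun k => p ∈ D.R (Nat.lor m (Nat.lor _ k))) (Nat.or_zero _))

theorem tab2_32 : Disc (D.base 32) (cQ D.U ∪ g 0 '' ka 11 12 ∪ D.base 25 ∪ ka 6 8) := by
  have := tab2_img (g 0 * cj) D.pr.dHS
  rwa [image_union, image_union, image_union, D.tab2_Q, tab2_mul _ _ (ka 5 6), tab2_cj,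
    ← tab2_mul _ (g 0) (ka 0 2), tab2_back, tab2_cj] at this

theorem tab2_40 : Disc (D.base 40) (cyc (g 0) (ka 8 11 ∪ D.base 25)) := by
  have := tab2_img cj D.pr.dHex
  rwa [tab2_cyc (cj_g 0), tab2_sq, image_union, tab2_cj, ← tab2_sh, ← tab2_mul] at this

theorem tab2_base {τ : ℕ} (h : 30 ≤ τ) (h' : τ < 43) : Disc (D.base τ) (D.R (L.fr τ 0 0)) := by
  have b (σ : ℕ) (h : σ < 50) := D.R_base h
  have s (Q : Set S3) : (sw * g 0 * cj : S3 ≃ₜ S3) '' Q = sw '' ((g 0 * cj : S3 ≃ₜ S3) '' Q) := by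
    rw [mul_assoc, tab2_mul]
  have s27 : D.base 27 = sw '' D.base 25 := s _
  have s34 : D.base 34 = sw '' D.base 32 := s _
  have s42 : D.base 42 = sw '' D.base 40 := tab2_mul _ _ _
  interval_cases τ
  · rw [show L.fr 30 0 0 = Nat.lor (Nat.lor (Nat.lor (cm 24 0 0) (cm 26 0 0)) (L.shV (cm 25 0 0)))
      (L.shU (cm 27 0 0)) by decide +kernel, D.rl.or, D.rl.or, D.rl.or, ← D.su, ← D.sv,
      b 24 (by norm_num), b 25 (by norm_num), b 26 (by norm_num), b 27 (by norm_num)]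
    have := D.pr.dR
    rwa [← tab2_mul io sw, tab2_io, tab2_mul, io, mul_assoc, tab2_mul] at this
  · rw [show L.fr 31 0 0 = Nat.lor (Nat.lor (Nat.lor (cm 28 0 0) (L.ka 0 0 6 1)) (cm 24 0 0))
      (L.shU (L.ka 0 0 10 2)) by decide +kernel, D.rl.or, D.rl.or, D.rl.or, ← D.su,
      b 24 (by norm_num), b 28 (by norm_num), D.R_ka (by norm_num), D.R_ka (by norm_num)]
    exact D.pr.dHS
  · rw [show L.fr 32 0 0 = Nat.lor (Nat.lor (Nat.lor (cm 28 0 0) (L.shU (L.ka 0 0 0 1)))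
      (cm 25 0 0)) (L.ka 0 0 4 2) by decide +kernel, D.rl.or, D.rl.or, D.rl.or, ← D.su,
      b 25 (by norm_num), b 28 (by norm_num), D.R_ka (by norm_num), D.R_ka (by norm_num)]
    exact D.tab2_32
  · rw [show L.fr 33 0 0 = Nat.lor (Nat.lor (Nat.lor (cm 29 0 0) (L.ka 0 0 7 1)) (cm 26 0 0))
      (L.shV (L.ka 0 0 2 2)) by decide +kernel, D.rl.or, D.rl.or, D.rl.or, ← D.sv,
      b 26 (by norm_num), b 29 (by norm_num), D.R_ka (by norm_num), D.R_ka (by norm_num)]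
    have := tab2_img sw D.pr.dHS
    rwa [image_union, image_union, image_union, tab2_semi tab2_swg,
      tab2_sw (m' := 4 + 12) (n' := 5 + 12) rfl rfl, tab2_sw (m' := 8 + 12) (n' := 10 + 12) rfl rfl,
      tab2_per, tab2_per] at this
  · rw [show L.fr 34 0 0 = Nat.lor (Nat.lor (Nat.lor (cm 29 0 0) (L.shV (L.ka 0 0 1 1)))
      (cm 27 0 0)) (L.ka 0 0 8 2) by decide +kernel, D.rl.or, D.rl.or, D.rl.or, ← D.sv,
      b 27 (by norm_num), b 29 (by norm_num), D.R_ka (by norm_num), D.R_ka (by norm_num)]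
    have := tab2_img sw D.tab2_32
    rw [image_union, image_union, image_union, tab2_semi tab2_swg,
      tab2_sw (m' := 10) (n' := 11) rfl rfl, tab2_sw (m' := 2 + 12) (n' := 4 + 12) rfl rfl,
      tab2_per] at this
    rwa [s34, s27]
  · exact D.R_kap.symm ▸ D.bk.disc 1
  · exact D.R_kap.symm ▸ D.bk.disc 2
  · exact D.R_kap.symm ▸ D.bk.disc 3
  · exact D.R_kap.symm ▸ D.bk.disc 4
  · rw [show L.fr 39 0 0 = L.o3 fun j => L.shU^[j] (Nat.lor (L.ka 0 0 7 3) (cm 24 0 0)) by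
      decide +kernel, D.tab2_U, D.rl.or, b 24 (by norm_num), D.R_ka (by norm_num)]
    exact D.pr.dHex
  · rw [show L.fr 40 0 0 = L.o3 fun j => L.shU^[j] (Nat.lor (L.ka 0 0 1 3) (cm 25 0 0)) by
      decide +kernel, D.tab2_U, D.rl.or, b 25 (by norm_num), D.R_ka (by norm_num)]
    exact D.tab2_40
  · rw [show L.fr 41 0 0 = L.o3 fun j => L.shV^[j] (Nat.lor (L.ka 0 0 4 3) (cm 26 0 0)) by
      decide +kernel, D.tab2_V, D.rl.or, b 26 (by norm_num), D.R_ka (by norm_num)]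
    have := tab2_img sw D.pr.dHex
    rwa [tab2_cyc tab2_swg, image_union, tab2_sw (m' := 5 + 12) (n' := 8 + 12) rfl rfl,
      tab2_per] at this
  · rw [show L.fr 42 0 0 = L.o3 fun j => L.shV^[j] (Nat.lor (Nat.lor (L.ka 0 0 10 2) (L.ka 0 0 0 1))
      (cm 27 0 0)) by decide +kernel, D.tab2_V, D.rl.or, D.rl.or, b 27 (by norm_num),
      D.R_ka (by norm_num), D.R_ka (by norm_num)]
    have := tab2_img sw D.tab2_40
    rw [tab2_cyc tab2_swg, image_union, tab2_sw (m' := 11) (n' := 14) rfl rfl, tab2_split] at this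
    rwa [s42, s27]

end Dat

theorem tab2_mask : ∀ (σ : Fin 13) (a b : Fin 3), L.used (30 + σ) a b = true →
    L.fc (30 + σ) a b = L.shV^[a] (L.shU^[b] (cm (30 + σ) 0 0)) ∧
      L.fr (30 + σ) a b = L.shV^[a] (L.shU^[b] (L.fr (30 + σ) 0 0)) := by decide +kernel

theorem Dat.tab2 (D : Dat) (t m r : ℕ) (h : L.vx.a2 t = some (m, r)) : Disc (D.R m) (D.R r) := by
  simp only [L.vx] at h
  split_ifs at h with c
  obtain ⟨c1, c2, c3, c4⟩ := c
  have := tab2_mask ⟨t % 50 - 30, by omega⟩ ⟨t / 150, by omega⟩ ⟨t / 50 % 3, by omega⟩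
  simp only [Nat.add_sub_cancel' c2] at this
  obtain ⟨e1, e2⟩ := this c4
  obtain ⟨rfl, rfl⟩ := Prod.mk.inj (Option.some.inj h)
  rw [e1, e2, ← D.R_gg, ← D.R_gg, D.R_base (by omega)]
  exact tab2_img _ (D.tab2_base c2 c3)

end Pool.Agent.Lib.MP_b7d179_gt.Gm
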