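import Pool.Agent.Lib.MP_b7d179_gt.G.Sym1

/-! Symmetries of the vertex cell and of the pair of pants. -/

namespace Pool.Agent.Lib.MP_b7d179_gt.Gm

open Set Metric Complex Stmt

theorem chart_sets (p : S3) : (p ∈ Sb 0 ↔ hh (Z1 p.1) = 1) ∧ (p ∈ Sb 5 ↔ hh (Z2 p.1) = 1) ∧
    (p ∈ Cap 0 ↔ hh (Z1 p.1) ≤ 1) ∧ (3 / 2 ≤ av 0 p.1 ↔ QQ p.1 ≤ 2) ∧
    (kk 0 p.1 * QQ p.1 = 3 * (9 - 4 * QQ p.1 - min (hh (Z1 p.1)) (hh (Z2 p.1)))) := by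
  obtain ⟨h0, h1, h5, -⟩ := av_chart (nsq_S3 p).le
  have q := QQ_pos (nsq_S3 p).le
  refine ⟨?_, ?_, ?_, ?_, ?_⟩
  · show av 0 p.1 = av 1 p.1 ↔ _
    rw [← mul_left_inj' q.ne', h0, h1]
    constructor <;> intro h <;> linarith
  · show av 5 p.1 = av 0 p.1 ↔ _
    rw [← mul_left_inj' q.ne', h0, h5]
    constructor <;> intro h <;> linarith
  · show av 1 p.1 ≤ av 0 p.1 ↔ _
    rw [← mul_le_mul_iff_left₀ q, h0, h1]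
    constructor <;> intro h <;> linarith
  · rw [← mul_le_mul_iff_left₀ q, h0]
    constructor <;> intro h <;> linarith
  · show (9 * av 0 p.1 - min (av 5 p.1) (av 1 p.1) - 12) * _ = _
    rw [sub_mul, sub_mul, min_mul_of_nonneg _ _ q.le, h1, h5, mul_assoc, h0,
      ← mul_min_of_nonneg _ _ (by norm_num : (0 : ℝ) ≤ 3), min_comm]
    ring

theorem sym_ind {P : Fin 6 → Prop} (h0 : P 0) (h : ∀ e, P e → P (e + 1)) (e : Fin 6) : P e := by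
  fin_cases e
  exacts [h0, h _ h0, h _ (h _ h0), h _ (h _ (h _ h0)), h _ (h _ (h _ (h _ h0))),
    h _ (h _ (h _ (h _ (h _ h0))))]

theorem g_Sb (e : Fin 6) (p : S3) : (g e p ∈ Sb e ↔ p ∈ Sb e) ∧ (g e p ∈ Cap e ↔ p ∈ Cap e) := by
  induction e using sym_ind generalizing p with
  | h0 =>
    rw [(chart_sets _).1, (chart_sets _).1, (chart_sets _).2.2.1, (chart_sets _).2.2.1, g_val,
      (Z_gE0 w1_nsq (nsq_S3 p).le).1]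
    exact ⟨Iff.rfl, Iff.rfl⟩
  | h e ih =>
    obtain ⟨q, rfl⟩ := rot.surjective p
    have k : g (e + 1) (rot q) = rot (g e q) := (DFunLike.congr_fun (rot_g e) q).symm
    rw [k, (rot_e e _).1, (rot_e e _).1, (rot_e e _).2.1, (rot_e e _).2.1]
    exact ih q

theorem g_zt (p : S3) : (0 < zt (g 0 p) ↔ 0 < zt p) ∧ (zt (g 0 p) = 0 ↔ zt p = 0) := by
  have hj := jj_ne w1_nsq 0 (nsq_S3 p).le
  have n := normSq_pos.2 hj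
  have e1 : ((√2 : ℝ) : ℂ) - (g 0 p).1.1 = ((√2 : ℝ) - p.1.1) / jj w1 0 p.1 := by
    rw [g_val, gE, eq_div_iff hj, sub_mul, div_mul_cancel₀ _ hj, jj]
    simp [mv]; ring
  have e2 : (g 0 p).1.2 = p.1.2 / jj w1 0 p.1 := by rw [g_val, gE]; simp [mv]
  have e : zt (g 0 p) = zt p / normSq (jj w1 0 p.1) := by
    rw [zt, zt, e1, e2, map_div₀, div_mul_div_comm, mul_conj, div_ofReal_im]
  rw [e, div_pos_iff_of_pos_right n, div_eq_zero_iff, or_iff_left n.ne']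
  exact ⟨Iff.rfl, Iff.rfl⟩

theorem cj_zt (p : S3) : zt (cj p) = -zt p := by
  show ((starRingEnd ℂ) p.1.2 * (starRingEnd ℂ) ((√2 : ℝ) - (starRingEnd ℂ) p.1.1)).im = _
  simp [zt]; ring

theorem mem_orb (Q : Set S3) (p : S3) :
    p ∈ orb Q ↔ ∃ a b : Fin 3, gg a b p ∈ Q :=
  ⟨fun ⟨a, b, h⟩ => ⟨⟨a % 3, Nat.mod_lt _ three_pos⟩, ⟨b % 3, Nat.mod_lt _ three_pos⟩,
    (gg_mod a b).symm ▸ h⟩, fun ⟨a, b, h⟩ => ⟨a, b, h⟩⟩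

theorem sym_pw (i : Fin 6) (k l : ℕ) (p : S3) : (g i ^ k) ((g i ^ l) p) = (g i ^ (k + l)) p := by
  rw [pow_add]; rfl

theorem sym_p3 (i : Fin 6) (k l : ℕ) : g i ^ (k + 3 * l) = g i ^ k := by
  rw [pow_add, pow_mul, g_cube, one_pow, mul_one]

theorem mem_cyc (i : Fin 6) (Q : Set S3) (p : S3) :
    p ∈ cyc (g i) Q ↔ p ∈ Q ∪ g i '' Q ∪ (g i ^ 2 : S3 ≃ₜ S3) '' Q := by
  have c : ∀ q, (g i ^ 3) q = q := fun q => by rw [g_cube]; rfl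
  constructor
  · rintro ⟨k, h⟩
    rw [← Nat.mod_add_div k 3, sym_p3] at h
    obtain e | e | e : k % 3 = 0 ∨ k % 3 = 1 ∨ k % 3 = 2 := by omega
    all_goals rw [e] at h
    exacts [.inl (.inl h), .inr ⟨_, h, (sym_pw i 2 1 p).trans (c p)⟩,
      .inl (.inr ⟨_, h, (show _ = (g i ^ 3) p by rw [pow_succ' _ 2]; rfl).trans (c p)⟩)]
  · rintro ((h | ⟨q, h, rfl⟩) | ⟨q, h, rfl⟩)
    · exact ⟨0, h⟩
    · refine ⟨2, ?_⟩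
      rwa [show (g i ^ 2) (g i q) = (g i ^ 3) q by rw [pow_succ _ 2]; rfl, c]
    · exact ⟨1, by rwa [sym_pw, c]⟩

theorem mem_Vt (p : S3) : p ∈ Vt ↔ (∀ a : ℕ, 1 ≤ hh (w1 ^ a * Z1 p.1)) ∧
    (∀ b : ℕ, 1 ≤ hh (w1 ^ b * Z2 p.1)) ∧ ∀ a b : ℕ,
      9 ≤ 4 * normSq (3 - w1 ^ a * Z1 p.1 - w1 ^ b * Z2 p.1) +
        min (hh (w1 ^ a * Z1 p.1)) (hh (w1 ^ b * Z2 p.1)) := by
  have k : ∀ q : S3, q ∈ Out 0 ↔ 1 ≤ hh (Z1 q.1) ∧ 1 ≤ hh (Z2 q.1) ∧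
      9 ≤ 4 * normSq (3 - Z1 q.1 - Z2 q.1) + min (hh (Z1 q.1)) (hh (Z2 q.1)) := fun q => by
    obtain ⟨h0, h1, h5, -⟩ := av_chart (nsq_S3 q).le
    have n := QQ_pos (nsq_S3 q).le
    show av 0 q.1 ≤ av 5 q.1 ∧ av 0 q.1 ≤ av 1 q.1 ∧ kk 0 q.1 ≤ 0 ↔ _ ∧ _ ∧ 9 ≤ 4 * QQ q.1 + _
    rw [← mul_le_mul_iff_left₀ n, ← mul_le_mul_iff_left₀ n (b := av 0 q.1),
      ← mul_le_mul_iff_left₀ n (b := kk 0 q.1), h0, h1, h5, (chart_sets q).2.2.2.2]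
    constructor <;> rintro ⟨a, b, c⟩ <;> exact ⟨by linarith, by linarith, by linarith⟩
  simp only [Vt, mem_ofPred_eq, k, Z_gg]
  exact ⟨fun h => ⟨fun a => (h a 0).1, fun b => (h 0 b).2.1, fun a b => (h a b).2.2⟩,
    fun h a b => ⟨h.1 a, h.2.1 b, h.2.2 a b⟩⟩

theorem sym_ex {ι : Type*} {f : ι → S3 → S3} {γ δ : S3 → S3} {Q : Set S3}
    (hQ : ∀ q, δ q ∈ Q ↔ q ∈ Q) (h1 : ∀ a, ∃ b, ∀ p, f a (γ p) = δ (f b p))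
    (h2 : ∀ b, ∃ a, ∀ p, f a (γ p) = δ (f b p)) (p : S3) :
    ((∃ a, f a (γ p) ∈ Q) ↔ ∃ a, f a p ∈ Q) ∧ ((∀ a, f a (γ p) ∈ Q) ↔ ∀ a, f a p ∈ Q) :=
  ⟨⟨fun ⟨a, h⟩ => (h1 a).elim fun b e => ⟨b, (hQ _).1 (e p ▸ h)⟩,
    fun ⟨b, h⟩ => (h2 b).elim fun a e => ⟨a, (e p).symm ▸ (hQ _).2 h⟩⟩,
    fun h b => (h2 b).elim fun a e => (hQ _).1 (e p ▸ h a),
    fun h a => (h1 a).elim fun b e => (e p).symm ▸ (hQ _).2 (h b)⟩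

theorem sym_cw : (starRingEnd ℂ) w1 = w1 ^ 2 := by
  have : (starRingEnd ℂ) w1 = -1 - w1 := by apply Complex.ext <;> simp [w1]; ring
  linear_combination this - w1_cube

theorem sym_gg {γ : S3 ≃ₜ S3} (h : γ = sw ∨ γ = cj ∨ γ = g 0 ∨ γ = g 5) :
    ∃ δ : S3 → S3, (δ = sw ∨ δ = cj ∨ δ = id) ∧
      (∀ a : ℕ × ℕ, ∃ b : ℕ × ℕ, ∀ p, gg a.1 a.2 (γ p) = δ (gg b.1 b.2 p)) ∧
      ∀ b : ℕ × ℕ, ∃ a : ℕ × ℕ, ∀ p, gg a.1 a.2 (γ p) = δ (gg b.1 b.2 p) := by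
  have w : ∀ a : ℕ, (w1 ^ 2) ^ (2 * a) = w1 ^ a := fun a => by
    rw [pow_mul, ← pow_mul w1, show 2 * 2 = 3 + 1 from rfl, pow_succ, w1_three, one_mul]
  have z0 := fun p : S3 => Z_gE0 w1_nsq (nsq_S3 p).le
  have z5 := fun p : S3 => Z_gE5 w1_nsq (nsq_S3 p).le
  have v : ∀ (a : ℕ) (z : ℂ), w1 ^ (a + 2) * (w1 * z) = w1 ^ a * z := fun a z => by
    linear_combination w1 ^ a * z * w1_three
  rcases h with rfl | rfl | rfl | rfl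
  · exact ⟨sw, .inl rfl, fun a => ⟨a.swap, fun p => ext_Z (by simp [Z_gg, Z_sw])
      (by simp [Z_gg, Z_sw])⟩, fun a => ⟨a.swap, fun p => ext_Z (by simp [Z_gg, Z_sw])
      (by simp [Z_gg, Z_sw])⟩⟩
  · refine ⟨cj, .inr (.inl rfl), fun a => ⟨(2 * a.1, 2 * a.2), fun p => ext_Z ?_ ?_⟩,
      fun a => ⟨(2 * a.1, 2 * a.2), fun p => ext_Z ?_ ?_⟩⟩
    · simp only [Z_gg, Z_cj, map_mul, map_pow, sym_cw, w]
    · simp only [Z_gg, Z_cj, map_mul, map_pow, sym_cw, w]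
    · simp only [Z_gg, Z_cj, map_mul, map_pow, sym_cw, pow_mul]
    · simp only [Z_gg, Z_cj, map_mul, map_pow, sym_cw, pow_mul]
  · refine ⟨id, .inr (.inr rfl), fun a => ⟨(a.1, a.2 + 1), fun p => ext_Z ?_ ?_⟩,
      fun a => ⟨(a.1, a.2 + 2), fun p => ext_Z ?_ ?_⟩⟩ <;>
    simp only [Z_gg, g_val, z0, v, id, pow_succ _ a.2, mul_assoc]
  · refine ⟨id, .inr (.inr rfl), fun a => ⟨(a.1 + 1, a.2), fun p => ext_Z ?_ ?_⟩,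
      fun a => ⟨(a.1 + 2, a.2), fun p => ext_Z ?_ ?_⟩⟩ <;>
    simp only [Z_gg, g_val, z5, v, id, pow_succ _ a.1, mul_assoc]

theorem sym_Vt {γ : S3 ≃ₜ S3} (h : γ = sw ∨ γ = cj ∨ γ = g 0 ∨ γ = g 5) (p : S3) :
    (γ p ∈ Vt ↔ p ∈ Vt) ∧ (γ p ∈ Core ↔ p ∈ Core) ∧ (γ p ∈ Bd ↔ p ∈ Bd) := by
  obtain ⟨δ, hδ, h1, h2⟩ := sym_gg h
  have k := fun Q (hQ : ∀ q, δ q ∈ Q ↔ q ∈ Q) =>
    sym_ex (f := fun (a : ℕ × ℕ) p => gg a.1 a.2 p) hQ h1 h2 p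
  simp only [Prod.exists, Prod.forall] at k
  obtain ⟨a, b, c⟩ : (∀ q, δ q ∈ Out 0 ↔ q ∈ Out 0) ∧ (∀ q, δ q ∈ Six 0 ↔ q ∈ Six 0) ∧
      ∀ q, δ q ∈ Aj 0 ∪ Sb 0 ∪ Sb 5 ↔ q ∈ Aj 0 ∪ Sb 0 ∪ Sb 5 := by
    rcases hδ with rfl | rfl | rfl
    · exact ⟨fun q => (sw_v 0 q).1, fun q => (sw_v 0 q).2.2.1, fun q => (or_congr (or_congr
        (sw_v 0 q).2.1 (sw_e 5 q).1) (sw_e 0 q).1).trans or_right_comm⟩
    · exact ⟨fun q => (cj_mem 0 q).2.2.1, fun q => (cj_mem 0 q).2.2.2.2.1, fun q => or_congr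
        (or_congr (cj_mem 0 q).2.2.2.1 (cj_mem 0 q).2.2.2.2.2.1) (cj_mem 5 q).2.2.2.2.2.1⟩
    · exact ⟨fun _ => Iff.rfl, fun _ => Iff.rfl, fun _ => Iff.rfl⟩
  exact ⟨(k _ a).2, or_congr (k _ a).2 (k _ b).1, and_congr (k _ a).2 (k _ c).1⟩

theorem sym_Pn (p : S3) : (g 0 p ∈ Pn ↔ p ∈ Pn) ∧ (cj p ∈ Pn ↔ p ∈ Pn) ∧
    (rot (sw p) ∈ Pn ↔ p ∈ Pn) ∧ (g 0 p ∈ Bu ↔ p ∈ Bu) ∧ (cj p ∈ Bu ↔ p ∈ Bu) := by
  have s : ∀ (k : ℕ) q, (g 0 ^ k) q ∈ Sb 0 ↔ q ∈ Sb 0 := fun k q => by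
    rw [(chart_sets _).1, (chart_sets _).1, g_pow_val,
      (Z_gE0 (by rw [map_pow, w1_nsq, one_pow]) (nsq_S3 q).le).1]
  have e : ∀ q, q ∈ Pn ↔ (∀ k : ℕ, (g 0 ^ k) q ∈ {r | r ∈ Sb 0 ∧ av 0 r.1 ≤ 3 / 2}) ∨
      ∃ k : ℕ, (g 0 ^ k) q ∈ Ann 0 := fun q => or_congr_left
    ⟨fun h k => ⟨(s k q).2 h.1, h.2 k⟩, fun h => ⟨(h 0).1, fun k => (h k).2⟩⟩
  have k0 := fun Q : Set S3 => sym_ex (f := fun (k : ℕ) p => (g 0 ^ k) p) (γ := g 0) (δ := id)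
    (Q := Q) (fun _ => Iff.rfl) (fun k => ⟨k + 1, fun p => by rw [pow_succ]; rfl⟩)
    (fun k => ⟨k + 2, fun p => by rw [← sym_p3 0 k 1, pow_succ _ (k + 2)]; rfl⟩) p
  have c : ∀ (k : ℕ) q, (g 0 ^ (2 * k)) (cj q) = cj ((g 0 ^ k) q) := fun k q => by
    rw [pow_mul]; exact (DFunLike.congr_fun (SemiconjBy.pow_right (cj_g 0) k) q).symm
  have k1 := fun (Q : Set S3) (hQ : ∀ q, cj q ∈ Q ↔ q ∈ Q) =>
    sym_ex (f := fun (k : ℕ) p => (g 0 ^ k) p) (γ := cj) hQ (fun k => ⟨2 * k, fun p => by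
      rw [← c, ← sym_p3 0 k k]; congr 2; ring⟩) (fun k => ⟨2 * k, c k⟩) p
  have t : rot * sw * g 0 = g 0 * (rot * sw) := by
    rw [mul_assoc, sw_g, ← mul_assoc, rot_g, mul_assoc]; rfl
  have d : ∀ (k : ℕ) q, (g 0 ^ k) (rot (sw q)) = rot (sw ((g 0 ^ k) q)) := fun k q =>
    (DFunLike.congr_fun (SemiconjBy.pow_right t k) q).symm
  have k2 := fun (Q : Set S3) (hQ : ∀ q, rot (sw q) ∈ Q ↔ q ∈ Q) =>
    sym_ex (f := fun (k : ℕ) p => (g 0 ^ k) p) (γ := fun q => rot (sw q)) hQ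
      (fun k => ⟨k, d k⟩) (fun k => ⟨k, d k⟩) p
  refine ⟨?_, ?_, ?_, and_congr (sym_Vt (.inr (.inr (.inl rfl))) p).2.2 (k0 _).1,
    and_congr (sym_Vt (.inr (.inl rfl)) p).2.2 (k1 _ fun q => or_congr (cj_mem 0 q).2.2.2.2.2.1
      (and_congr_left fun _ => (cj_mem 0 q).2.2.2.1)).1⟩ <;> rw [e, e]
  · exact or_congr (k0 _).2 (k0 _).1
  · exact or_congr (k1 _ fun q => and_congr (cj_mem 0 q).2.2.2.2.2.1 (by rw [av_cj])).2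
      (k1 _ fun q => (cj_mem 0 q).2.2.2.2.2.2.2).1
  · refine or_congr (k2 _ fun q => (and_congr_left fun _ => (rot_e 5 _).1.trans (sw_e 0 q).1).trans
      (and_congr_right fun h => ?_)).2
      (k2 _ fun q => (rot_e 5 _).2.2.2.2.2.1.trans (sw_e 0 q).2.2.2.2.1).1
    rw [sym_av, av_sw, show av 0 q.1 = av 1 q.1 from h]
    rfl

end Pool.Agent.Lib.MP_b7d179_gt.Gm
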