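import Pool.Agent.Lib.MP_b7d179_gt.G.Sets
import Pool.Agent.Lib.MP_b7d179_gt.G.Chart
import Pool.Agent.Lib.MP_b7d179_gt.G.Sym2
import Pool.Agent.Lib.MP_b7d179_gt.T.ArcA

/-! Symmetries and closedness of the first level sets. -/

namespace Pool.Agent.Lib.MP_b7d179_gt.Gm

open Set Metric Complex Stmt

theorem sym_n (t : ℝ) : normSq (0 : ℂ) + normSq (exp (t * I)) = 1 := by
  rw [normSq_zero, zero_add, normSq_eq_norm_sq, norm_exp_ofReal_mul_I, one_pow]

theorem km_val (t : ℝ) : xx (km t).1 = 0 ∧ yy (km t).1 = exp (t * I) := xy_val (sym_n t)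

theorem km_sym (t : ℝ) : rot (km t) = km (t + Real.pi / 3) ∧ cj (km t) = km (t + Real.pi) ∧
    sw (km t) = km (-(Real.pi / 3) - t) ∧ km (t + 2 * Real.pi) = km t := by
  have m : ∀ s : ℝ, exp (s * I) = ⟨Real.cos s, Real.sin s⟩ := fun s =>
    Complex.ext (exp_ofReal_mul_I_re s) (exp_ofReal_mul_I_im s)
  have a : ∀ s u : ℝ, exp ((s + u : ℝ) * I) = exp (u * I) * exp (s * I) := fun s u => by
    rw [← exp_add]; push_cast; ring_nf
  refine ⟨ext_xy ?_ ?_, ext_xy ?_ ?_, ext_xy ?_ ?_, ext_xy ?_ ?_⟩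
  · rw [xx_rot, (km_val _).1, (km_val _).1, mul_zero]
  · rw [yy_rot, (km_val _).2, (km_val _).2, a, m (Real.pi / 3), Real.cos_pi_div_three,
      Real.sin_pi_div_three]
    rfl
  · rw [xx_cj, (km_val _).1, (km_val _).1]
  · rw [yy_cj, (km_val _).2, (km_val _).2, a, exp_pi_mul_I, neg_one_mul]
  · rw [xx_sw, (km_val _).1, (km_val _).1, map_zero, mul_zero]
  · rw [yy_sw, (km_val _).2, (km_val _).2, sub_eq_neg_add, a, m (-(Real.pi / 3)), Real.cos_neg,
      Real.sin_neg, Real.cos_pi_div_three, Real.sin_pi_div_three, ← neg_div, ← exp_conj, map_mul,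
      conj_ofReal, conj_I, mul_neg, ofReal_neg, neg_mul]
    rfl
  · rw [(km_val _).1, (km_val _).1]
  · rw [(km_val _).2, (km_val _).2, a]
    push_cast
    rw [exp_two_pi_mul_I, one_mul]

theorem cont_km : Continuous km :=
  contOn_xy.comp_continuous (f := fun t : ℝ => ((0 : ℂ), exp (t * I))) (by fun_prop) sym_n

theorem kc_iff (p : S3) : p ∈ kc ↔ ∃ t ∈ Ico (0 : ℝ) (2 * Real.pi), p = km t := by
  refine ⟨fun h => ?_, fun ⟨t, _, e⟩ => e ▸ (km_val t).1⟩
  have h0 : xx p.1 = 0 := h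
  have n := nsq_xy p.1
  rw [nsq_S3, h0, normSq_zero, zero_add, normSq_eq_norm_sq] at n
  obtain ⟨s, e⟩ := (norm_eq_one_iff _).1 ((pow_eq_one_iff_of_nonneg (norm_nonneg _)
    two_ne_zero).1 n.symm)
  obtain ⟨t, ht, k⟩ := Function.Periodic.exists_mem_Ico₀ (fun t => (km_sym t).2.2.2)
    Real.two_pi_pos s
  exact ⟨t, ht, (ext_xy (h0.trans (km_val s).1.symm) (e.symm.trans (km_val s).2.symm)).trans k⟩

theorem km_inj {s t : ℝ} (h : km s = km t) : ∃ n : ℤ, s = t + n * (2 * Real.pi) := by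
  obtain ⟨n, e⟩ := exp_eq_exp_iff_exists_int.1
    ((km_val s).2.symm.trans ((congrArg (fun p : S3 => yy p.1) h).trans (km_val t).2))
  exact ⟨n, by simpa using congrArg im e⟩

theorem arc_ka {m n : ℕ} (h : m < n) (h' : n < m + 12) : Arc (ka m n) (kv m) (kv n) := by
  have p := Real.pi_pos
  have h1 : (m : ℝ) < n := by exact_mod_cast h
  have h2 : (n : ℝ) < m + 12 := by exact_mod_cast h'
  refine arcA_of ⟨cont_km.continuousOn, fun s hs t ht e => ?_⟩ (by gcongr) subset_rfl
  obtain ⟨k, rfl⟩ := km_inj e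
  have a : (k : ℝ) < 1 := by nlinarith [hs.2, ht.1]
  have b : (-1 : ℝ) < k := by nlinarith [hs.1, ht.2]
  obtain rfl : k = 0 := by
    have : k < 1 := by exact_mod_cast a
    have : -1 < k := by exact_mod_cast b
    omega
  simp

theorem cont_kk (j : Fin 6) : Continuous (kk j) := by
  have := cont_av; unfold kk; fun_prop

theorem closed_sets (j : Fin 6) : IsClosed Kt ∧ IsClosed KL ∧ IsClosed kc ∧ IsClosed (Out j) ∧
    IsClosed (Aj j) ∧ IsClosed (Sb j) ∧ IsClosed (Cap j) ∧ IsClosed (kap j) ∧ IsClosed (Uu j) ∧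
    IsClosed (Uq j) ∧ IsClosed (Sp j) ∧ IsClosed (Sq j) ∧ IsClosed Vt ∧ IsClosed Bd := by
  have a : ∀ i, Continuous fun p : S3 => av i p.1 := fun i =>
    (cont_av i).comp continuous_subtype_val
  have k : ∀ i, Continuous fun p : S3 => kk i p.1 := fun i =>
    (cont_kk i).comp continuous_subtype_val
  have hK : IsClosed Kt := by
    rw [Kt, ofPred_forall]; exact isClosed_iInter fun i => isClosed_le continuous_const (k i)
  have hO : ∀ i, IsClosed (Out i) := fun i => (isClosed_le (a _) (a _)).inter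
    ((isClosed_le (a _) (a _)).inter (isClosed_le (k _) continuous_const))
  have hS : ∀ i, IsClosed (Sb i) := fun i => isClosed_eq (a _) (a _)
  have hU : IsClosed (Uu j) :=
    (isClosed_le continuous_const (a _)).inter (isClosed_le continuous_const (a _))
  have hQ : IsClosed (Uq j) :=
    hU.inter ((isClosed_le continuous_const (a _)).inter (isClosed_le continuous_const (a _)))
  have hV : IsClosed Vt := by
    simp only [Vt, ofPred_forall]
    exact isClosed_iInter fun b => isClosed_iInter fun c => (hO 0).preimage (gg b c).continuous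
  refine ⟨hK, ?_, isClosed_eq (cont_xx.comp continuous_subtype_val) continuous_const, hO j,
    (hO j).inter hK, hS j, isClosed_le (a _) (a _),
    (isClosed_eq (a _) continuous_const).inter (isClosed_eq (a _) continuous_const), hU, hQ,
    ((g j).isClosedMap _ hU).union ((g j ^ 2).isClosedMap _ hU),
    ((g j).isClosedMap _ hQ).union ((g j ^ 2).isClosedMap _ hQ), hV, hV.inter ?_⟩
  · rw [KL, ofPred_forall]; exact isClosed_iInter fun i => isClosed_le continuous_const (a i)
  · rw [show orb (Aj 0 ∪ Sb 0 ∪ Sb 5) = ⋃ b : Fin 3, ⋃ c : Fin 3, gg b c ⁻¹' (Aj 0 ∪ Sb 0 ∪ Sb 5)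
      from Set.ext fun p => by simp only [mem_orb, mem_iUnion, mem_preimage]]
    exact isClosed_iUnion_of_finite fun b => isClosed_iUnion_of_finite fun c =>
      ((((hO 0).inter hK).union (hS 0)).union (hS 5)).preimage (gg b c).continuous

end Pool.Agent.Lib.MP_b7d179_gt.Gm
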