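import Pool.Agent.Lib.MP_b7d179_gt.G.True2
import Pool.Agent.Lib.MP_b7d179_gt.G.Sym
import Pool.Agent.Lib.MP_b7d179_gt.U.Ball3

/-! The tripod balls are balls. -/

namespace Pool.Agent.Lib.MP_b7d179_gt.Gm

open Set Metric Complex Stmt

section
variable {Z : Type*} [MetricSpace Z] {B S B1 S1 W SW D C R SR W' SW' D' C' : Set Z}

/-- the rest is determined by the leg -/
lemma true3_rest (gl : Gl B S B1 S1 W SW D C) (b1 : Ball B1 S1) (bw : Ball W SW) (p : Z) :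
    (p ∈ B1 ↔ p ∈ B ∧ (p ∈ W → p ∈ D)) ∧ (p ∈ S1 ↔ (p ∈ S ∧ (p ∈ W → p ∈ D)) ∨ p ∈ D) ∧
      (p ∈ D → p ∈ W) := by
  have e : p ∈ B1 ↔ p ∈ B ∧ (p ∈ W → p ∈ D) := by
    rw [gl.u, ← gl.i]
    simp only [mem_union, mem_inter_iff]
    tauto
  have sb : p ∈ S → p ∈ B := fun m => (gl.ball b1 bw).rim_sub m
  refine ⟨e, ?_, fun m => (gl.i.ge m).2⟩
  rw [(gl.th b1 bw).2.2.1]
  simp only [mem_union, mem_inter_iff, e]
  tauto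

/-- a second leg survives the removal of the first -/
lemma true3_step (gl : Gl B S B1 S1 W SW D C) (b1 : Ball B1 S1) (bw : Ball W SW)
    (gl' : Gl B S R SR W' SW' D' C') (br : Ball R SR) (bw' : Ball W' SW') (dj : Disjoint W W') :
    ∃ R' SR', Gl B1 S1 R' SR' W' SW' D' C' ∧ Ball R' SR' := by
  obtain ⟨h, mv, hB, hS, -⟩ := push gl b1 bw bw'.compact.isClosed dj
  have wB : W' ⊆ B := gl'.u ▸ subset_union_right
  have fx : ∀ A ⊆ W', h '' A = A := fun A hA =>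
    (image_congr fun x hx => mv.fix ⟨hA hx, wB (hA hx)⟩).trans (image_id' A)
  have dW : D' ⊆ W' := gl'.s2.trans bw'.rim_sub
  have k := gl'.image br.rim_sub bw'.rim_sub mv.1 subset_rfl
  rw [hB, hS, fx W' subset_rfl, fx SW' bw'.rim_sub, fx D' dW, fx C' (gl'.d.rim_sub.trans dW)] at k
  exact ⟨_, _, k, br.image mv.1 (gl'.u ▸ subset_union_left)⟩

lemma true3_pre (e : Z ≃ₜ Z) (gl : Gl B S B1 S1 W SW D C) (b1 : Ball B1 S1) (bw : Ball W SW)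
    (iB : e '' B = B) (iS : e '' S = S) :
    Gl B S (e ⁻¹' B1) (e ⁻¹' S1) (e ⁻¹' W) (e ⁻¹' SW) (e ⁻¹' D) (e ⁻¹' C) ∧
      Ball (e ⁻¹' B1) (e ⁻¹' S1) ∧ Ball (e ⁻¹' W) (e ⁻¹' SW) := by
  have em : Emb e.symm univ := ⟨e.symm.continuous.continuousOn, e.symm.injective.injOn⟩
  have k := gl.image b1.rim_sub bw.rim_sub em (subset_univ _)
  have k1 := b1.image em (subset_univ _)
  have k2 := bw.image em (subset_univ _)
  have f : ∀ A : Set Z, e '' A = A → e ⁻¹' A = A := fun A hA => by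
    conv_lhs => rw [← hA]
    exact e.injective.preimage_image A
  simp only [Homeomorph.image_symm] at k k1 k2
  rw [f B iB, f S iS] at k
  exact ⟨k, k1, k2⟩

lemma true3_sq {γ : Z ≃ₜ Z} (p : Z) : (γ ^ 2 : Z ≃ₜ Z) p = γ (γ p) := by
  rw [pow_two]
  rfl

lemma true3_cube {γ : Z ≃ₜ Z} (h3 : γ ^ 3 = 1) (p : Z) : γ (γ (γ p)) = p := by
  have : (γ ^ 3 : Z ≃ₜ Z) p = p := by rw [h3]; rfl
  rwa [pow_three] at this

lemma true3_all {γ : Z ≃ₜ Z} (h3 : γ ^ 3 = 1) (P : Z → Prop) (p : Z) :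
    (∀ k : ℕ, P ((γ ^ k) p)) ↔ P p ∧ P (γ p) ∧ P (γ (γ p)) := by
  refine ⟨fun h => ⟨h 0, by simpa using h 1, true3_sq p ▸ h 2⟩, fun h k => ?_⟩
  rw [pow_eq_pow_mod k h3]
  have : k % 3 = 0 ∨ k % 3 = 1 ∨ k % 3 = 2 := by omega
  rcases this with e | e | e <;> rw [e]
  · exact h.1
  · simpa using h.2.1
  · exact true3_sq (γ := γ) p ▸ h.2.2

lemma true3_ex {γ : Z ≃ₜ Z} (h3 : γ ^ 3 = 1) (P : Z → Prop) (p : Z) :
    (∃ k : ℕ, P ((γ ^ k) p)) ↔ P p ∨ P (γ p) ∨ P (γ (γ p)) := by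
  have := true3_all h3 (fun q => ¬ P q) p
  rw [← not_iff_not, not_exists, this]
  tauto

end

/-- Three pushes (ball kit of U: a ball `B = B1 ∪ W` glued along a disc is moved onto `B1` by a map that
fixes a neighbourhood of a closed set `K` missing `W`; take for `K` the other two legs). -/
theorem tripod {Z : Type*} [MetricSpace Z] {γ : Z ≃ₜ Z} (h3 : γ ^ 3 = 1) {B S B1 S1 W SW D C : Set Z}
    (gl : Gl B S B1 S1 W SW D C) (b1 : Ball B1 S1) (bw : Ball W SW) (iB : γ '' B = B)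
    (iS : γ '' S = S) (fr : ∀ p ∈ W, γ p ∉ W) :
    Ball {p | p ∈ B ∧ ∀ k : ℕ, (γ ^ k) p ∈ W → (γ ^ k) p ∈ D}
      ({p | p ∈ S ∧ ∀ k : ℕ, (γ ^ k) p ∈ W → (γ ^ k) p ∈ D} ∪ {p | ∃ k : ℕ, (γ ^ k) p ∈ D}) := by
  have i2 : ∀ A : Set Z, γ '' A = A → (γ.trans γ) '' A = A := fun A hA => by
    change (γ ∘ γ) '' A = A
    rw [image_comp, hA, hA]
  obtain ⟨g1, r1, w1⟩ := true3_pre γ gl b1 bw iB iS
  obtain ⟨g2, r2, w2⟩ := true3_pre (γ.trans γ) gl b1 bw (i2 B iB) (i2 S iS)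
  have f2 : ∀ p ∈ W, γ (γ p) ∉ W := fun p hp m => fr _ m (by rw [true3_cube h3]; exact hp)
  obtain ⟨R, SR, g3, r3⟩ := true3_step gl b1 bw g1 r1 w1 (disjoint_left.2 fr)
  obtain ⟨R', SR', g4, r4⟩ := true3_step gl b1 bw g2 r2 w2 (disjoint_left.2 f2)
  obtain ⟨T, ST, g5, r5⟩ := true3_step g3 r3 w1 g4 r4 w2 (disjoint_left.2 fun p hp => fr _ hp)
  have key : ∀ p, (p ∈ T ↔ p ∈ B ∧ ∀ k : ℕ, (γ ^ k) p ∈ W → (γ ^ k) p ∈ D) ∧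
      (p ∈ ST ↔ (p ∈ S ∧ ∀ k : ℕ, (γ ^ k) p ∈ W → (γ ^ k) p ∈ D) ∨ ∃ k : ℕ, (γ ^ k) p ∈ D) := by
    intro p
    obtain ⟨a1, a2, a3⟩ := true3_rest gl b1 bw p
    obtain ⟨c1, c2, c3⟩ := true3_rest g3 r3 w1 p
    obtain ⟨d1, d2, d3⟩ := true3_rest g5 r5 w2 p
    have e1 := fr p
    have e2 := f2 p
    have e3 := fr (γ p)
    rw [true3_all h3 (fun q => q ∈ W → q ∈ D), true3_ex h3 (fun q => q ∈ D), d1, d2, c1, c2, a1, a2]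
    simp only [mem_preimage, Homeomorph.trans_apply] at c3 d3 ⊢
    refine ⟨⟨fun m => ⟨m.1.1.1, m.1.1.2, m.1.2, m.2⟩, fun m => ⟨⟨⟨m.1, m.2.1⟩, m.2.2.1⟩, m.2.2.2⟩⟩,
      ⟨?_, ?_⟩⟩
    · rintro (⟨⟨⟨m, m0⟩ | m, m1⟩ | m, m2⟩ | m)
      exacts [Or.inl ⟨m, m0, m1, m2⟩, Or.inr (Or.inl m), Or.inr (Or.inr (Or.inl m)),
        Or.inr (Or.inr (Or.inr m))]
    · rintro (⟨m, m0, m1, m2⟩ | m | m | m)
      exacts [Or.inl ⟨Or.inl ⟨Or.inl ⟨m, m0⟩, m1⟩, m2⟩,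
        Or.inl ⟨Or.inl ⟨Or.inr m, fun x => (e1 (a3 m) x).elim⟩, fun x => (e2 (a3 m) x).elim⟩,
        Or.inl ⟨Or.inr m, fun x => (e3 (c3 m) x).elim⟩, Or.inr m]
  have e1 : T = _ := Set.ext fun p => (key p).1
  have e2 : ST = _ := Set.ext fun p => (key p).2
  rw [e1, e2] at r5
  exact r5

/-- two lenses with a common face -/
lemma true3_gl {Z : Type*} [MetricSpace Z] {A A' P Q R c : Set Z} (d : Disc Q c) (i : A ∩ A' = Q)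
    (h1 : P ∩ Q = c) (h2 : Q ∩ R = c) : Gl (A ∪ A') (P ∪ R) A (P ∪ Q) A' (Q ∪ R) Q c := by
  refine ⟨d, i, subset_union_right, subset_union_left, rfl, Set.ext fun p => ?_⟩
  have a : p ∈ P ∧ p ∈ Q ↔ p ∈ c := by rw [← h1]; rfl
  have b : p ∈ Q ∧ p ∈ R ↔ p ∈ c := by rw [← h2]; rfl
  simp only [mem_union, mem_diff]
  tauto

variable {H X : Fin 6 → Set S3} (b : Book H X) (w : Wall H X)
include b w

omit b in
lemma true3_leg {A W Q : Set S3} (gl : Gl (A ∪ W) (H 0 ∪ H 3) A (H 0 ∪ Q) W (Q ∪ H 3) Q kc)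
    (b1 : Ball A (H 0 ∪ Q)) (bw : Ball W (Q ∪ H 3)) (iB : g 0 '' (A ∪ W) = A ∪ W)
    (fr : Free (g 0) W) (pw : Pn ∩ W = kc) :
    Ball {p | p ∈ A ∪ W ∧ ∀ k : ℕ, (g 0 ^ k) p ∈ W → (g 0 ^ k) p ∈ Q} (Pn ∪ cyc (g 0) Q) := by
  have c3 := true3_cube (g_cube 0)
  have m : ∀ p, p ∈ H 0 ∪ H 3 ↔ p ∈ Pn ∨ p ∈ H 3 ∨ g 0 p ∈ H 3 ∨ g 0 (g 0 p) ∈ H 3 := fun p => by
    have a : p ∈ g 0 '' H 3 ↔ g 0 (g 0 p) ∈ H 3 :=
      ⟨by rintro ⟨q, hq, rfl⟩; rwa [c3], fun h => ⟨_, h, c3 p⟩⟩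
    have a' : p ∈ (g 0 ^ 2 : S3 ≃ₜ S3) '' H 3 ↔ g 0 p ∈ H 3 :=
      ⟨by rintro ⟨q, hq, rfl⟩; rwa [true3_sq, c3], fun h => ⟨_, h, by rw [true3_sq, c3]⟩⟩
    rw [w.dec]
    simp only [mem_union, a, a']
    tauto
  have m' : ∀ p, g 0 p ∈ H 0 ∪ H 3 ↔ p ∈ H 0 ∪ H 3 := fun p => by
    rw [m, m, c3, (sym_Pn p).1]
    tauto
  have iS : g 0 '' (H 0 ∪ H 3) = H 0 ∪ H 3 := Set.ext fun p =>
    ⟨by rintro ⟨q, hq, rfl⟩; exact (m' q).2 hq, fun h => ⟨_, (m' _).2 ((m' _).2 h), c3 p⟩⟩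
  have k := tripod (g_cube 0) gl b1 bw iB iS fr
  have hw : ∀ q, q ∈ H 3 → q ∈ W := fun q hq => bw.rim_sub (Or.inr hq)
  have hq : ∀ q, q ∈ Pn → q ∈ W → q ∈ Q := fun q h h' => gl.d.rim_sub (pw ▸ ⟨h, h'⟩)
  convert k using 1
  ext p
  simp only [cyc, mem_setOf_eq, mem_union (a := Pn), mem_union (b := {p | ∃ k : ℕ, (g 0 ^ k) p ∈ Q})]
  rw [true3_all (g_cube 0) (fun q => q ∈ W → q ∈ Q), true3_ex (g_cube 0) (fun q => q ∈ Q), m]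
  have e1 := (sym_Pn p).1
  have e2 := (sym_Pn (g 0 p)).1
  constructor
  · rintro (h | h)
    · exact Or.inl ⟨Or.inl h, hq _ h, hq _ (e1.2 h), hq _ (e2.2 (e1.2 h))⟩
    · exact Or.inr h
  · rintro (⟨h | h | h | h, h0, h1, h2⟩ | h)
    exacts [Or.inl h, Or.inr (Or.inl (h0 (hw _ h))), Or.inr (Or.inr (Or.inl (h1 (hw _ h)))),
      Or.inr (Or.inr (Or.inr (h2 (hw _ h)))), Or.inr h]

theorem YF_ball : Ball (YF H X) (Pn ∪ cyc (g 0) (H 1)) := by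
  have bw : Ball (X 2 ∪ X 3) (H 1 ∪ H 3) :=
    (true3_gl (b.disc 2) (b.adj 2) (b.hh 1 2 (by decide)) (b.hh 2 3 (by decide))).ball
      (b.ball 2) (b.ball 3)
  have i : X 1 ∩ (X 2 ∪ X 3) = H 1 := by
    rw [inter_union_distrib_left, b.far 1 3 (by decide) (by decide) (by decide)]
    exact (congrArg (· ∪ kc) (b.adj 1)).trans (union_eq_left.2 (b.disc 1).rim_sub)
  have e : Far X = X 1 ∪ (X 2 ∪ X 3) := union_assoc _ _ _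
  have k := true3_leg w (true3_gl (b.disc 1) i (b.hh 0 1 (by decide)) (b.hh 1 3 (by decide)))
    (b.ball 1) bw (e ▸ w.farI) (free_t b w).2.2.1 (Pn_sub b w).2.2.1
  rw [← e] at k
  exact k

theorem YN_ball : Ball (YN H X) (Pn ∪ cyc (g 0) (H 5)) := by
  have b5 : Ball (X 5) (H 5 ∪ H 4) := union_comm (H 4) (H 5) ▸ b.ball 5
  have b4 : Ball (X 4) (H 4 ∪ H 3) := union_comm (H 3) (H 4) ▸ b.ball 4
  have b0 : Ball (X 0) (H 0 ∪ H 5) := union_comm (H 5) (H 0) ▸ b.ball 0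
  have bw : Ball (X 5 ∪ X 4) (H 5 ∪ H 3) :=
    (true3_gl (b.disc 4) ((inter_comm _ _).trans (b.adj 4)) (b.hh 5 4 (by decide))
      (b.hh 4 3 (by decide))).ball b5 b4
  have i : X 0 ∩ (X 5 ∪ X 4) = H 5 := by
    rw [inter_union_distrib_left, b.far 0 4 (by decide) (by decide) (by decide), inter_comm]
    exact (congrArg (· ∪ kc) (b.adj 5)).trans (union_eq_left.2 (b.disc 5).rim_sub)
  have e : Near X = X 0 ∪ (X 5 ∪ X 4) := union_assoc _ _ _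
  have k := true3_leg w (true3_gl (b.disc 5) i (b.hh 0 5 (by decide)) (b.hh 5 3 (by decide)))
    b0 bw (e ▸ w.nearI) (free_t b w).2.2.2 (Pn_sub b w).2.2.2
  rw [← e] at k
  exact k

end Pool.Agent.Lib.MP_b7d179_gt.Gm
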