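import Pool.Agent.Lib.MP_b7d179_gt.G.Lab
import Pool.Agent.Lib.MP_b7d179_gt.G.True3
import Pool.Agent.Lib.MP_b7d179_gt.G.Dec

/-! The table of balls. -/

namespace Pool.Agent.Lib.MP_b7d179_gt.Gm

open Set Metric Complex Stmt

theorem tab3_cyc {γ : S3 ≃ₜ S3} (h3 : γ ^ 3 = 1) (Q : Set S3) :
    cyc γ Q = Q ∪ (γ '' Q ∪ γ '' (γ '' Q)) := by
  have c3 := true3_cube h3
  ext p
  have a : p ∈ γ '' Q ↔ γ (γ p) ∈ Q := ⟨by rintro ⟨q, hq, rfl⟩; rwa [c3], fun h => ⟨_, h, c3 p⟩⟩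
  have a' : p ∈ γ '' (γ '' Q) ↔ γ p ∈ Q :=
    ⟨by rintro ⟨_, ⟨q, hq, rfl⟩, rfl⟩; rwa [c3], fun h => ⟨_, ⟨_, h, rfl⟩, c3 p⟩⟩
  simp only [mem_union, a, a']
  exact (true3_ex h3 (· ∈ Q) p).trans (or_congr_right or_comm)

theorem tab3_conj {r γ δ : S3 ≃ₜ S3} (e : r * γ = δ * r) (Q : Set S3) :
    r '' cyc γ Q = cyc δ (r '' Q) := by
  have key (k : ℕ) (q : S3) : r ((γ ^ k) q) = (δ ^ k) (r q) :=
    DFunLike.congr_fun (SemiconjBy.pow_right (a := r) (x := γ) (y := δ) e k).eq q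
  ext p
  constructor
  · rintro ⟨q, ⟨k, hk⟩, rfl⟩
    exact ⟨k, _, hk, key k q⟩
  · rintro ⟨k, q, hq, e⟩
    refine ⟨r.symm p, ⟨k, ?_⟩, r.apply_symm_apply p⟩
    have : r ((γ ^ k) (r.symm p)) = r q := by rw [key, r.apply_symm_apply, e]
    rwa [r.injective this]

theorem tab3_img {B S : Set S3} (h : Ball B S) (γ : S3 ≃ₜ S3) : Ball (γ '' B) (γ '' S) :=
  h.image (A := univ) ⟨γ.continuous.continuousOn, γ.injective.injOn⟩ (subset_univ _)

theorem tab3_ss (Q : Set S3) : sw '' (sw '' Q) = Q := by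
  rw [image_image]
  exact (image_congr fun p _ => t2_ss p).trans (image_id' Q)

set_option synthInstance.maxSize 1000 in
theorem tab3_slot : ∀ τ < 50, ∀ a < 3, ∀ b < 3, 43 ≤ τ ∧ L.used τ a b = true →
    L.bc τ a b = L.shV^[a] (L.shU^[b] (cm τ 0 0)) ∧
      L.br τ a b = L.shV^[a] (L.shU^[b] (L.br τ 0 0)) := by
  decide +kernel

/-- the orbits of a mask -/
def tab3U (m : ℕ) : ℕ := Nat.lor m (Nat.lor (L.shU m) (L.shU (L.shU m)))
def tab3V (m : ℕ) : ℕ := Nat.lor m (Nat.lor (L.shV m) (L.shV (L.shV m)))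

theorem tab3_rims :
    L.br 44 0 0 = Nat.lor (Nat.lor (cm 41 0 0) (L.shU (cm 42 0 0)))
      (tab3V (Nat.lor (cm 30 0 0) (Nat.land (L.pU 0) (cm 44 0 0)))) ∧
    L.br 45 0 0 = Nat.lor (L.pU 0) (tab3U (cm 35 0 0)) ∧
    L.br 46 0 0 = Nat.lor (L.pV 0) (tab3V (cm 38 0 0)) ∧
    L.br 47 0 0 = Nat.lor (cm 35 0 0) (cm 36 0 0) ∧
    L.br 48 0 0 = Nat.lor (cm 36 0 0) (cm 37 0 0) ∧
    L.br 49 0 0 = Nat.lor (cm 37 0 0) (cm 38 0 0) := by
  decide +kernel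

theorem Dat.tab3_U (D : Dat) (m : ℕ) : D.R (tab3U m) = cyc (g 0) (D.R m) := by
  rw [tab3U, D.rl.or, D.rl.or, ← D.su, ← D.su, ← D.su, tab3_cyc (g_cube 0)]

theorem Dat.tab3_V (D : Dat) (m : ℕ) : D.R (tab3V m) = cyc (g 5) (D.R m) := by
  rw [tab3V, D.rl.or, D.rl.or, ← D.sv, ← D.sv, ← D.sv, tab3_cyc (g_cube 5)]

theorem Dat.tab3_base (D : Dat) {τ : ℕ} (h1 : 43 ≤ τ) (h2 : τ < 50) :
    Ball (D.base τ) (D.R (L.br τ 0 0)) := by
  obtain ⟨r4, r5, r6, r7, r8, r9⟩ := tab3_rims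
  have b (τ : ℕ) (h : τ < 50) : D.R (cm τ 0 0) = D.base τ := D.R_base h
  interval_cases τ
  · rw [D.R_rim]
    exact D.pr.ball
  · have k := tab3_img D.pr.ball sw
    have e1 : sw '' ((g 5 * cj : S3 ≃ₜ S3) '' cHex D.U) =
        g 0 '' ((sw * cj : S3 ≃ₜ S3) '' cHex D.U) := by
      rw [image_image, image_image]
      exact image_congr fun p _ => DFunLike.congr_fun (sw_g 5) (cj p)
    have e2 : sw '' cR D.U = cR D.U := by
      rw [cR, image_inter sw.injective, tab3_ss, inter_comm]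
    rw [image_union, image_union, e1, tab3_conj (sw_g 0), image_union, e2, tab3_ss] at k
    rw [r4, D.rl.or, D.rl.or, ← D.su, D.tab3_V, D.rl.or, D.rl.and, D.R_pU.1, b 41 (by decide),
      b 42 (by decide), b 30 (by decide), b 44 (by decide)]
    exact k
  · rw [r5, D.rl.or, D.tab3_U, D.R_pU.1, b 35 (by decide)]
    exact YF_ball D.bk D.wl
  · have k := tab3_img (YN_ball D.bk D.wl) rot.symm
    have e : rot '' (sw '' Pn ∪ cyc (g 5) (D.H 4)) = Pn ∪ cyc (g 0) (D.H 5) := by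
      rw [image_union, rot_swPn, tab3_conj (rot_g 5), D.bk.rotH]
      rfl
    rw [← e, ← rot.preimage_symm, rot.symm.image_preimage] at k
    rw [r6, D.rl.or, D.tab3_V, D.R_pU.2, b 38 (by decide)]
    exact k
  · rw [r7, D.rl.or, b 35 (by decide), b 36 (by decide)]
    exact D.bk.ball 2
  · rw [r8, D.rl.or, b 36 (by decide), b 37 (by decide)]
    exact D.bk.ball 3
  · rw [r9, D.rl.or, b 37 (by decide), b 38 (by decide)]
    exact D.bk.ball 4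

theorem Dat.tab3 (D : Dat) (t m r : ℕ) (h : L.vx.a3 t = some (m, r)) : Ball (D.R m) (D.R r) := by
  simp only [L.vx] at h
  split_ifs at h with c
  obtain ⟨rfl, rfl⟩ := Prod.mk.inj (Option.some.inj h)
  have h50 : t % 50 < 50 := Nat.mod_lt _ (by decide)
  obtain ⟨e1, e2⟩ := tab3_slot (t % 50) h50 (t / 150) (by omega) (t / 50 % 3)
    (Nat.mod_lt _ (by decide)) c.2
  rw [e1, e2, ← D.R_gg, ← D.R_gg, D.R_base h50]
  exact tab3_img (D.tab3_base c.2.1 h50) _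

end Pool.Agent.Lib.MP_b7d179_gt.Gm
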