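import Pool.Agent.Lib.MP_b7d179_gt.G.Rim
import Pool.Agent.Lib.MP_b7d179_gt.G.KitC

/-! A chart of the prism that is the fibre chart near the centre. -/

namespace Pool.Agent.Lib.MP_b7d179_gt.Gm

open Set Metric Complex Stmt

theorem tub_pol {z : ℂ} {r : ℝ} (hz : z ∈ closedBall (0 : ℂ) r) :
    ∃ e ∈ sphere (0 : ℂ) 1, ∃ t ∈ Icc (0 : ℝ) r, z = t * e :=
  ⟨exp (z.arg * I), by simp, ‖z‖, ⟨norm_nonneg _, mem_closedBall_zero_iff.1 hz⟩,
    (norm_mul_exp_arg_mul_I z).symm⟩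

theorem tub_nrm {e : ℂ} (he : e ∈ sphere (0 : ℂ) 1) {t : ℝ} (ht : 0 ≤ t) : ‖(t : ℂ) * e‖ = t := by
  rw [norm_mul, mem_sphere_zero_iff_norm.1 he, Complex.norm_of_nonneg ht, mul_one]

/-- radial maps -/
theorem tub_star {ρ : ℂ → ℝ → ℝ}
    (hc : ContinuousOn (fun x : ℂ × ℝ => ρ x.1 x.2) (sphere 0 1 ×ˢ Icc 0 1))
    (h0 : ∀ e, ρ e 0 = 0) (hm : ∀ e ∈ sphere (0 : ℂ) 1, StrictMono (ρ e)) :
    ∃ φ : ℂ → ℂ, Emb φ (closedBall 0 1) ∧
      ∀ e ∈ sphere (0 : ℂ) 1, ∀ t ∈ Icc (0 : ℝ) 1, φ (t * e) = ρ e t * e := by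
  have p : ∀ x ∈ sphere (0 : ℂ) 1 ×ˢ Icc (0 : ℝ) 1, 0 ≤ ρ x.1 x.2 := fun x hx =>
    (h0 x.1).ge.trans ((hm _ hx.1).monotone hx.2.1)
  obtain ⟨f, hf, e⟩ := emb_desc (A := sphere (0 : ℂ) 1 ×ˢ Icc (0 : ℝ) 1)
    ((isCompact_sphere _ _).prod isCompact_Icc) (q := fun x => (x.2 : ℂ) * x.1)
    (F := fun x => ((ρ x.1 x.2 : ℝ) : ℂ) * x.1) (by fun_prop)
    ((Complex.continuous_ofReal.comp_continuousOn hc).mul continuousOn_fst)
    (fun x hx y hy => by
      constructor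
      · intro k
        obtain ⟨k1, k2 | k2⟩ := KitA_polar hx.2.1 hy.2.1 hx.1 hy.1 k
        · simp [← k1, k2, h0]
        · simp only [k1, k2]
      · intro k
        obtain ⟨k1, k2 | k2⟩ := KitA_polar (p x hx) (p y hy) hx.1 hy.1 k
        · have a1 : x.2 = 0 := (hm _ hx.1).injective (k2.trans (h0 _).symm)
          have a2 : y.2 = 0 := (hm _ hy.1).injective ((k1.symm.trans k2).trans (h0 _).symm)
          simp [a1, a2]
        · rw [k2] at k1
          simp only [(hm _ hy.1).injective k1, k2])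
  refine ⟨f, hf.mono fun z hz => ?_, fun u hu t ht => e (u, t) ⟨hu, ht⟩⟩
  obtain ⟨u, hu, t, ht, rfl⟩ := tub_pol hz
  exact ⟨(u, t), ⟨hu, ht⟩, rfl⟩

/-- the radius of the base -/
theorem tub_rad : ∃ R : ℂ → ℝ, ContinuousOn R (sphere 0 1) ∧ ∀ e ∈ sphere (0 : ℂ) 1,
    1 ≤ R e ∧ R e < 2 ∧ t0M (R e * e) = 0 ∧
      ∀ u ∈ Icc (0 : ℝ) 2, (0 ≤ t0M (u * e) ↔ u ≤ R e) ∧ (t0M (u * e) ≤ 0 ↔ R e ≤ u) := by
  have n : ∀ {e : ℂ}, e ∈ sphere (0 : ℂ) 1 → normSq e = 1 := fun h => by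
    rw [normSq_eq_norm_sq, mem_sphere_zero_iff_norm.1 h, one_pow]
  have q : ∀ {e : ℂ}, e ∈ sphere (0 : ℂ) 1 → ∀ r : ℝ, normSq (r * e) = r * r := fun h r => by
    rw [normSq_mul, normSq_ofReal, n h, mul_one]
  obtain ⟨h1, h2⟩ := root_spec (G := fun (e : ℂ) (r : ℝ) => t0M (r * e)) (A := sphere 0 1)
    zero_lt_two (by unfold t0M hh; fun_prop) (fun e _ => by norm_num [t0M, t0_hh])
    (fun e m => (min_le_left _ _).trans_lt (by rw [q m]; norm_num))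
    (fun e m u hu v hv l h => by
      simp only [t0M, min_le_iff, min_lt_iff, q m] at h ⊢
      by_cases k : v * v ≤ 3 / 2
      · rcases h with h | h | h | h
        · exact Or.inl (by nlinarith [hu.1])
        · exact Or.inr (Or.inl (t0_cross (n m) hu.1 l k h))
        · refine Or.inr (Or.inr (Or.inl ?_))
          rw [mul_left_comm] at h ⊢
          exact t0_cross ((t0_n1 e).trans (n m)) hu.1 l k h
        · refine Or.inr (Or.inr (Or.inr ?_))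
          rw [mul_left_comm] at h ⊢
          exact t0_cross ((t0_n 2 e).trans (n m)) hu.1 l k h
      · exact Or.inl (by linarith))
  refine ⟨_, h1, fun e m => ⟨((h2 e m).2.2 1 ⟨zero_le_one, one_le_two⟩).1.1 ((t0_M _).2
    ⟨by rw [q m]; norm_num, fun b => ?_⟩), (h2 e m).1.2, (h2 e m).2⟩⟩
  have a := (t0_n b _).trans (q m 1)
  change 1 ≤ hh _
  rw [t0_hh, a]
  rw [normSq_apply] at a
  nlinarith [mul_self_nonneg (w1 ^ b * (((1 : ℝ) : ℂ) * e)).im,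
    mul_self_nonneg ((w1 ^ b * (((1 : ℝ) : ℂ) * e)).re - 1)]

/-- a chart of a star shaped disc that is linear near the centre (radial `pl`) -/
theorem Bz_chart : ∃ η₀ : ℝ, 0 < η₀ ∧ ∀ η, 0 < η → η < η₀ → ∃ φ : ℂ → ℂ, Emb φ (closedBall 0 1) ∧
    φ '' closedBall 0 1 = Bz ∧ φ '' sphere 0 1 = {z | ∃ b : ℕ, w1 ^ b * z ∈ arcC ∪ arcB} ∧
    ∀ z ∈ closedBall (0 : ℂ) (1 / 2), φ z = 2 * η * z := by
  obtain ⟨R, cR, hR⟩ := tub_rad
  refine ⟨1 / 2, one_half_pos, fun η h0 h1 => ?_⟩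
  let ρ : ℂ → ℝ → ℝ := fun e t => 2 * η * t + max 0 (2 * t - 1) * (R e - 2 * η)
  have z0 : ∀ e, ρ e 0 = 0 := fun e => by simp [ρ]
  have z1 : ∀ e, ρ e 1 = R e := fun e => by norm_num [ρ]
  have hm : ∀ e ∈ sphere (0 : ℂ) 1, StrictMono (ρ e) := fun e m s t l =>
    add_lt_add_of_lt_of_le (by nlinarith) (mul_le_mul_of_nonneg_right
      (max_le_max_left _ (by linarith)) (by linarith [(hR e m).1]))
  obtain ⟨φ, hφ, e⟩ := tub_star (ρ := ρ) (ContinuousOn.add (by fun_prop) (ContinuousOn.mul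
    (by fun_prop) ((cR.comp continuousOn_fst fun x hx => hx.1).sub continuousOn_const))) z0 hm
  have pol : ∀ z ∈ Bz, ∃ e ∈ sphere (0 : ℂ) 1, ∃ r ∈ Icc (0 : ℝ) 2, z = r * e := fun z hz => by
    have := hz.1
    rw [normSq_eq_norm_sq] at this
    exact tub_pol (mem_closedBall_zero_iff.2 (by nlinarith))
  have s1 : ∀ u ∈ sphere (0 : ℂ) 1, φ u = R u * u := fun u m => by
    simpa [z1] using e u m 1 ⟨zero_le_one, le_rfl⟩
  refine ⟨φ, hφ, Subset.antisymm ?_ fun z hz => ?_, Subset.antisymm ?_ fun z hz => ?_,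
    fun z hz => ?_⟩
  · rintro _ ⟨z, hz, rfl⟩
    obtain ⟨u, m, t, ht, rfl⟩ := tub_pol hz
    have a := ((hm u m).monotone ht.2).trans_eq (z1 u)
    rw [e u m t ht]
    exact (t0_M _).1 (((hR u m).2.2.2 _ ⟨(z0 u).ge.trans ((hm u m).monotone ht.1),
      a.trans (hR u m).2.1.le⟩).1.2 a)
  · obtain ⟨u, m, r, hr, rfl⟩ := pol z hz
    obtain ⟨t, ht, k⟩ := intermediate_value_Icc zero_le_one (f := ρ u) (by fun_prop)
      (⟨(z0 u).le.trans hr.1, (((hR u m).2.2.2 r hr).1.1 ((t0_M _).2 hz)).trans_eq (z1 u).symm⟩ :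
        r ∈ Icc (ρ u 0) (ρ u 1))
    exact ⟨t * u, mem_closedBall_zero_iff.2 ((tub_nrm m ht.1).trans_le ht.2), by rw [e u m t ht, k]⟩
  · rintro _ ⟨u, m, rfl⟩
    rw [s1 u m]
    exact (t0_rim _).1 (hR u m).2.2.1
  · have k := (t0_rim z).2 hz
    obtain ⟨u, m, r, hr, rfl⟩ := pol z ((t0_M z).1 k.ge)
    exact ⟨u, m, by rw [s1 u m, le_antisymm (((hR u m).2.2.2 r hr).1.1 k.ge)
      (((hR u m).2.2.2 r hr).2.1 k.le)]⟩
  · obtain ⟨u, m, t, ht, rfl⟩ := tub_pol hz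
    rw [e u m t ⟨ht.1, by linarith [ht.2]⟩]
    simp only [ρ, max_eq_left (show 2 * t - 1 ≤ 0 by linarith [ht.2])]
    push_cast
    ring

/-- the vertical map: `[-1, 1] → [a, b]`, equal to `m + 2 η s` on `[-1/2, 1/2]` when there is room -/
noncomputable def tubV (m η a b s : ℝ) : ℝ :=
  max (a + 2 * min η ((b - a) / 4)) (min m (b - 2 * min η ((b - a) / 4))) +
    2 * min η ((b - a) / 4) * s + max 0 (2 * s - 1) * (b - max (a + 2 * min η ((b - a) / 4))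
      (min m (b - 2 * min η ((b - a) / 4))) - 2 * min η ((b - a) / 4)) -
    max 0 (-(2 * s) - 1) * (max (a + 2 * min η ((b - a) / 4))
      (min m (b - 2 * min η ((b - a) / 4))) - 2 * min η ((b - a) / 4) - a)

theorem tubV_ends (m η a b : ℝ) : tubV m η a b (-1) = a ∧ tubV m η a b 1 = b := by
  constructor <;> norm_num [tubV]
  ring

theorem tubV_mono (m : ℝ) {η a b : ℝ} (h : 0 < η) (l : a < b) : StrictMono (tubV m η a b) := by
  intro s t k
  have p : 0 < min η ((b - a) / 4) := lt_min h (by linarith)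
  have q := min_le_right η ((b - a) / 4)
  unfold tubV
  generalize min η ((b - a) / 4) = ε at *
  have c1 := le_max_left (a + 2 * ε) (min m (b - 2 * ε))
  have c2 : max (a + 2 * ε) (min m (b - 2 * ε)) ≤ b - 2 * ε := max_le (by linarith) (min_le_right _ _)
  generalize max (a + 2 * ε) (min m (b - 2 * ε)) = c at *
  have u := mul_le_mul_of_nonneg_right (max_le_max_left 0 (show 2 * s - 1 ≤ 2 * t - 1 by linarith))
    (show 0 ≤ b - c - 2 * ε by linarith)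
  have v := mul_le_mul_of_nonneg_right (max_le_max_left 0
    (show -(2 * t) - 1 ≤ -(2 * s) - 1 by linarith)) (show 0 ≤ c - 2 * ε - a by linarith)
  nlinarith

theorem tubV_mid {m η a b s : ℝ} (h1 : a + 2 * η ≤ m) (h2 : m + 2 * η ≤ b) (hs : |s| ≤ 1 / 2) :
    tubV m η a b s = m + 2 * η * s := by
  rw [abs_le] at hs
  rw [tubV, min_eq_left (show η ≤ (b - a) / 4 by linarith), min_eq_left (show m ≤ b - 2 * η by
    linarith), max_eq_right h1, max_eq_left (show 2 * s - 1 ≤ 0 by linarith),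
    max_eq_left (show -(2 * s) - 1 ≤ 0 by linarith)]
  ring

/-- lo 0 < π/3 < hiO lo 0. Vertical map [-1, 1] → [loX z, hiX z]: piecewise linear with the nodes
-1, -1/2, 1/2, 1 ↦ loX, π/3 - η, π/3 + η, hiX, the inner nodes clamped where there is no room. -/
theorem tub_xt {lo : ℂ → ℝ} (l : IsLo lo) {L : S3 → ℝ} {S : S3 × ℝ → S3} (e : IsE L S) :
    Tub (xt L S U0) := by
  obtain ⟨η₀, p0, hφ⟩ := Bz_chart
  obtain ⟨ca, cb, le⟩ := cont_X l e
  have b0 : (0 : ℂ) ∈ Bz := ⟨by norm_num, fun b => by norm_num⟩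
  have l0 : lo 0 < Real.pi / 3 := by
    have := (l.pos 0 b0).2
    rw [hiO, map_zero] at this
    linarith
  obtain ⟨r, pr, hr⟩ := Metric.continuousWithinAt_iff.1 (l.cont 0 b0) ((Real.pi / 3 - lo 0) / 3)
    (by linarith)
  obtain ⟨η, h0, h1, h2, h3, h4⟩ : ∃ η : ℝ, 0 < η ∧ η < η₀ ∧ η < 1 / 2 ∧ η < r ∧
      η < (Real.pi / 3 - lo 0) / 3 := by
    obtain ⟨η, a, b⟩ := exists_between (lt_min p0 (lt_min one_half_pos (lt_min pr
      (show 0 < (Real.pi / 3 - lo 0) / 3 by linarith))))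
    simp only [lt_min_iff] at b
    exact ⟨η, a, b⟩
  have nr : ∀ w ∈ Bz, ‖w‖ ≤ η → lo w + 2 * η ≤ Real.pi / 3 := fun w hw k => by
    have := hr hw (by rw [dist_zero_right]; linarith)
    rw [Real.dist_eq, abs_lt] at this
    linarith
  obtain ⟨φ, eφ, i1, i2, i3⟩ := hφ η h0 h1
  have mφ : ∀ z ∈ closedBall (0 : ℂ) 1, φ z ∈ Bz := fun z hz => i1 ▸ mem_image_of_mem _ hz
  have lt : ∀ w ∈ Bz, loX L lo w < hiX L lo w := fun w hw =>
    (le w hw).1.trans_lt ((l.pos w hw).2.trans_le (le w hw).2)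
  let V : ℂ → ℝ → ℝ := fun w => tubV (Real.pi / 3) η (loX L lo w) (hiX L lo w)
  let T : ℂ × ℝ → ℂ × ℝ := fun x => (φ x.1, V (φ x.1) x.2)
  have bl : ∀ x : ℂ × ℝ, x ∈ closedBall (0 : ℂ × ℝ) 1 ↔
      x.1 ∈ closedBall (0 : ℂ) 1 ∧ -1 ≤ x.2 ∧ x.2 ≤ 1 := fun x => by
    simp only [mem_closedBall_zero_iff, Prod.norm_def, max_le_iff, Real.norm_eq_abs, abs_le]
  have vm : ∀ z ∈ closedBall (0 : ℂ) 1, StrictMono (V (φ z)) := fun z hz =>
    tubV_mono _ h0 (lt _ (mφ z hz))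
  have c0 : ContinuousOn (fun x : ℂ × ℝ => φ x.1) (closedBall 0 1) :=
    eφ.1.comp continuousOn_fst fun x hx => ((bl x).1 hx).1
  have eT : Emb T (closedBall 0 1) := by
    have cc : Continuous fun y : ℝ × ℝ × ℝ => tubV (Real.pi / 3) η y.1 y.2.1 y.2.2 := by
      unfold tubV; fun_prop
    refine ⟨c0.prodMk (cc.comp_continuousOn ((ca.comp c0 fun x hx => mφ _ ((bl x).1 hx).1).prodMk
      ((cb.comp c0 fun x hx => mφ _ ((bl x).1 hx).1).prodMk continuousOn_snd))),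
      fun x hx y hy h => ?_⟩
    have k1 : x.1 = y.1 := eφ.2 ((bl x).1 hx).1 ((bl y).1 hy).1 (congrArg Prod.fst h)
    have k2 := congrArg Prod.snd h
    simp only [T, ← k1] at k2
    exact Prod.ext k1 ((vm _ ((bl x).1 hx).1).injective k2)
  have mem : ∀ x ∈ closedBall (0 : ℂ × ℝ) 1, T x ∈ btw Bz (loX L lo) (hiX L lo) := fun x hx => by
    obtain ⟨a, b, c⟩ := (bl x).1 hx
    exact ⟨mφ _ a, (tubV_ends ..).1.ge.trans ((vm _ a).monotone b),
      ((vm _ a).monotone c).trans (tubV_ends ..).2.le⟩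
  have sur : ∀ y ∈ btw Bz (loX L lo) (hiX L lo), ∃ x ∈ closedBall (0 : ℂ × ℝ) 1, T x = y := by
    rintro ⟨w, t⟩ ⟨hw, a, b⟩
    obtain ⟨z, hz, rfl⟩ := i1.ge hw
    obtain ⟨s, hs, k⟩ := intermediate_value_Icc (show (-1 : ℝ) ≤ 1 by norm_num) (f := V (φ z))
      (by simp only [V]; unfold tubV; fun_prop)
      (⟨(tubV_ends ..).1.le.trans a, b.trans (tubV_ends ..).2.ge⟩ :
        t ∈ Icc (V (φ z) (-1)) (V (φ z) 1))
    exact ⟨(z, s), (bl _).2 ⟨hz, hs⟩, Prod.ext rfl k⟩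
  have iT : T '' closedBall 0 1 = btw Bz (loX L lo) (hiX L lo) :=
    subset_antisymm (image_subset_iff.2 mem) sur
  have sp : ∀ x ∈ closedBall (0 : ℂ × ℝ) 1, x ∈ sphere (0 : ℂ × ℝ) 1 ↔
      ((T x).1 ∈ {z | ∃ b : ℕ, w1 ^ b * z ∈ arcC ∪ arcB} ∨ (T x).2 = loX L lo (T x).1 ∨
        (T x).2 = hiX L lo (T x).1) := fun x hx => by
    obtain ⟨a, b, c⟩ := (bl x).1 hx
    have u : V (φ x.1) x.2 = loX L lo (φ x.1) ↔ x.2 = -1 :=
      (Eq.congr_right (tubV_ends ..).1).symm.trans (vm _ a).injective.eq_iff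
    have v : V (φ x.1) x.2 = hiX L lo (φ x.1) ↔ x.2 = 1 :=
      (Eq.congr_right (tubV_ends ..).2).symm.trans (vm _ a).injective.eq_iff
    simp only [T]
    rw [← i2, eφ.mem_iff sphere_subset_closedBall a, u, v, mem_sphere_zero_iff_norm,
      mem_sphere_zero_iff_norm, Prod.norm_def, Real.norm_eq_abs, max_eq_iff,
      abs_eq zero_le_one]
    have := mem_closedBall_zero_iff.1 a
    have := abs_le.2 ⟨b, c⟩
    constructor
    · tauto
    · rintro (h | h | h)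
      exacts [Or.inl ⟨h, h ▸ this⟩, Or.inr ⟨Or.inr h, by rw [h]; simpa⟩,
        Or.inr ⟨Or.inl h, by rw [h]; simpa⟩]
  refine ⟨FX S lo ∘ T, η, h0, h2, (FX_emb l e).comp eT iT.le, by rw [image_comp, iT, FX_img l e],
    ?_, fun x hx => ?_⟩
  · rw [image_comp, ← FX_rim l e]
    congr 1
    refine subset_antisymm ?_ fun y hy => ?_
    · rintro _ ⟨x, hx, rfl⟩
      exact ⟨mem x (sphere_subset_closedBall hx), (sp x (sphere_subset_closedBall hx)).1 hx⟩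
    · obtain ⟨x, hx, rfl⟩ := sur y hy.1
      exact ⟨x, (sp x hx).2 hy.2, rfl⟩
  · rw [mem_closedBall_zero_iff, Prod.norm_def, max_le_iff, Real.norm_eq_abs] at hx
    have k := i3 x.1 (mem_closedBall_zero_iff.2 hx.1)
    have hw := mφ x.1 (mem_closedBall_zero_iff.2 (by linarith [hx.1]))
    have nw : ‖φ x.1‖ ≤ η := by
      rw [k, norm_mul, norm_mul, Complex.norm_of_nonneg h0.le, Complex.norm_two]
      nlinarith [hx.1]
    have a := nr _ hw nw
    have b : Real.pi / 3 + 2 * η ≤ hiO lo (φ x.1) := by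
      have := nr _ (tube1_Bc hw) (by rwa [Complex.norm_conj])
      rw [hiO]
      linarith
    have v : V (φ x.1) x.2 = Real.pi / 3 + 2 * η * x.2 :=
      tubV_mid (by linarith [(le _ hw).1]) (by linarith [(le _ hw).2]) hx.2
    have s := abs_le.1 hx.2
    change FX S lo (φ x.1, V (φ x.1) x.2) = _
    rw [v, FX, if_neg (by simp only; nlinarith), if_neg (by simp only; nlinarith), k]

end Pool.Agent.Lib.MP_b7d179_gt.Gm
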