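import Pool.Agent.Lib.MP_b7d179_gt.G.True1
import Pool.Agent.Lib.MP_b7d179_gt.G.Tub
import Pool.Agent.Lib.MP_b7d179_gt.G.ArcE
import Pool.Agent.Lib.MP_b7d179_gt.G.Face2
import Pool.Agent.Lib.MP_b7d179_gt.G.Face3
import Pool.Agent.Lib.MP_b7d179_gt.G.Tab1
import Pool.Agent.Lib.MP_b7d179_gt.G.Tab2
import Pool.Agent.Lib.MP_b7d179_gt.G.Tab3
import Pool.Agent.Lib.MP_b7d179_gt.G.Rp
import Pool.Agent.Lib.MP_b7d179_gt.G.Mesh
import Pool.Agent.Lib.MP_b7d179_gt.G.Root
import Pool.Agent.Lib.MP_b7d179_gt.G.Ping2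
import Pool.Agent.Lib.MP_b7d179_gt.F.Final

/-! The export of the geometry. -/

namespace Pool.Agent.Lib.MP_b7d179_gt.Gm

open Set Metric Complex Stmt

theorem exists_dat : ∃ D : Dat, Tub D.U := by
  obtain ⟨h, hh⟩ := exists_h
  obtain ⟨L, S, e⟩ := exists_E
  obtain ⟨lo, l⟩ := exists_isLo
  have p := pre_xt e
  have b := ball_xt l e
  have aE := arcE_xt l e
  have aQ := arcQ_pre p b.compact.isClosed
  exact ⟨⟨xt L S U0, HH h, XX h, ⟨p.sub, p.cov, p.inv, p.invc, p.free, p.k1, p.k2, p.pn,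
    zpos_hex p b aE, aE, aQ, disc_HS p b aE aQ, disc_hex p b aE, disc_R p b aE, b⟩, book_t hh,
    wall_t hh⟩, tub_xt l e⟩

theorem geo_img {γ : S3 ≃ₜ S3} (h : ∀ p, γ p ∈ limitSet ↔ p ∈ limitSet) :
    γ '' limitSet = limitSet := by
  ext q
  constructor
  · rintro ⟨p, hp, rfl⟩
    exact (h p).2 hp
  · exact fun hq => ⟨γ.symm q, (h _).1 (by simpa using hq), by simp⟩

/-- the data for the tower -/
noncomputable def Dat.geo (D : Dat) (hc : ∀ a b j, L.chL a b j → Stp a b j) : L.Geo S3 where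
  K := limitSet
  u := g 0
  v := g 5
  r := rot
  R := D.R
  ok := ⟨D.rl, D.tab1, D.tab2, D.tab3⟩
  kcl := closed_lim
  ku := geo_img (lim_g 0)
  kr := geo_img lim_rot
  u3 := g_cube 0
  r6 := rot_six
  rv := rot_g 5
  uv := (g_comm 5).symm
  su m _ := D.su m
  sv m _ := D.sv m
  sr := D.sr
  fre := by
    show Disjoint (D.R L.core) limitSet
    rw [D.R_core]
    exact lim_Core.symm
  hit := by
    have e : D.R (L.fc 37 0 0) = D.H 3 := D.R_base (τ := 37) (by norm_num)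
    rw [e]
    exact lim_hit D
  all := by
    rw [D.R_all]
    exact subset_univ _
  mesh := by
    rw [D.R_X.1]
    exact mesh_desc D hc

theorem geoEx_of (hc : ∀ a b j, L.chL a b j → Stp a b j)
    (hb : ∀ Γ : L.Geo S3, Ball (Γ.R L.root) (Γ.R (L.br 43 0 0))) : L.GeoEx := by
  obtain ⟨D, t⟩ := exists_dat
  have b : Ball (D.R L.root) (D.R (L.br 43 0 0)) := hb (D.geo hc)
  have eU : D.R (L.bc 43 0 0) = D.U := D.R_base (τ := 43) (by norm_num)
  refine ⟨D.geo hc, rfl, ?_⟩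
  show ∃ h : S3 → S3, Mv limitSet h (D.R L.root) ∧
    L.Std (h '' D.R L.root) (h '' D.R (L.br 43 0 0))
  rw [D.R_rim] at b ⊢
  refine root_mv t closed_lim (lim_Core.symm.mono_left D.pr.sub) b ?_ ?_
  · rw [← D.R_rim, ← eU]
    exact D.rl.inter (by decide +kernel)
  · rw [← eU, ← D.rl.or, ← D.R_all]
    exact congrArg D.R (Nat.eq_of_beq_eq_true (by decide +kernel))

/-- the root is a ball because it is a good ball of the tower -/
theorem geoEx (hL : F.LEx) : L.GeoEx :=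
  geoEx_of (fun _ _ _ h => h) fun Γ => by
    obtain ⟨σ, -, ok, g⟩ := hL Γ
    exact g.ball ok.toOk0

end Pool.Agent.Lib.MP_b7d179_gt.Gm
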