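import Pool.Agent.Lib.MP_b7d179_gt.G.Lens
import Pool.Agent.Lib.MP_b7d179_gt.G.Supp

/-! Disjointness of the hulls. -/

namespace Pool.Agent.Lib.MP_b7d179_gt.Gm

open Set Metric Complex Stmt

theorem hull_KL {j : Fin 6} {p : S3} (hp : p ∈ Six j) : p ∈ KL := Kt_KL ((Six_Kt j).1 hp)

theorem Sp_Hp {e e' : Fin 6} (h : e ≠ e') : Disjoint (Sp e) (Hp e') := by
  refine Set.disjoint_left.2 fun p h1 h2 => ?_
  rcases h2 with h2 | h2
  · exact Set.disjoint_left.1 (Sp_KL e) h1 (hull_KL ((Six_Kt e').2.1 h2))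
  · exact (Sp_pure h h1 h2.1).not_ge h2.2

theorem Sp_Xp {e j : Fin 6} (h0 : j ≠ e) (h1 : j ≠ e + 1) : Disjoint (Sp e) (Xp j) := by
  refine Set.disjoint_left.2 fun p k1 k2 => ?_
  rcases k2 with k2 | k2
  · exact Set.disjoint_left.1 (Sp_KL e) k1 (hull_KL k2)
  · obtain ⟨a1, a2, a3, a4, -⟩ := Sp_facts k1
    have b := (Out_le k2).1
    obtain ⟨b1, b2, -⟩ := k2
    have i : ∀ e : Fin 6, e + 2 - 1 = e + 1 ∧ e - 1 + 1 = e := by decide
    have cs : ∀ e j : Fin 6, j ≠ e → j ≠ e + 1 →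
        j = e + 2 ∨ j = e - 1 ∨ j = e + 3 ∨ j = e + 4 := by decide
    rcases cs e j h0 h1 with rfl | rfl | rfl | rfl
    · rw [(i e).1] at b1
      linarith
    · rw [(i e).2] at b2
      linarith
    · linarith
    · linarith

theorem hl_av {j : Fin 6} {p : S3} (hp : p ∈ hl j) : 11 / 8 ≤ av (j + 2) p.1 ∧
    11 / 8 ≤ av (j + 3) p.1 ∧ 11 / 8 ≤ av (j - 2) p.1 := by
  have i : ∀ j : Fin 6, j - 1 + 3 = j + 2 ∧ j - 1 + 4 = j + 3 ∧ j - 1 - 1 = j - 2 ∧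
      j + 4 = j - 2 := by decide
  rcases hp with ((hp | hp) | hp) | hp
  · have k := hull_KL hp
    exact ⟨by linarith [k (j + 2)], by linarith [k (j + 3)], by linarith [k (j - 2)]⟩
  · obtain ⟨-, a, b, c⟩ := Out_le hp
    exact ⟨by linarith, by linarith, by linarith⟩
  · obtain ⟨-, -, a, b, -, c, -⟩ := Sp_facts (Sq_Sp _ hp)
    rw [(i j).1] at a
    rw [(i j).2.1] at b
    rw [(i j).2.2.1] at c
    exact ⟨by linarith, by linarith, c⟩
  · obtain ⟨-, -, a, b, c, -⟩ := Sp_facts (Sq_Sp _ hp)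
    rw [(i j).2.2.2] at b
    exact ⟨c, by linarith, by linarith⟩

/-- the case table in the chart -/
theorem hull_core {A B c : ℂ} (hb : normSq A + normSq B ≤ 3) (hc : Om c) (k l : ℕ)
    (h : (11 * normSq (3 - A - w1 ^ k * B) ≤ 24 ∧
      11 * normSq (3 - A - w1 ^ k * B) ≤ 24 * hh (w1 ^ k * B)) ∨ hh A ≤ 1)
    (h' : (11 * normSq (3 - c * A - w1 ^ l * B) ≤ 24 ∧
      11 * normSq (3 - c * A - w1 ^ l * B) ≤ 24 * hh (w1 ^ l * B)) ∨ hh (c * A) ≤ 1) : False := by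
  have hk : normSq A + normSq (w1 ^ k * B) ≤ 3 := by rwa [normSq_mul, supp_w, one_mul]
  rcases h with h | h <;> rcases h' with h' | h'
  · have e : w1 ^ l * B = w1 ^ (l + 2 * k) * (w1 ^ k * B) := by
      rw [← mul_assoc, ← pow_add, show l + 2 * k + k = l + 3 * k by ring, pow_add, pow_mul,
        w1_three, one_pow, mul_one]
    rw [e] at h'
    rcases supp_pow (l + 2 * k) with ⟨-, d⟩ | d
    · rw [d, one_mul, sub_right_comm] at h'
      rw [sub_right_comm] at h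
      exact supp_free (by linarith) hc h.1 h.2 h'.1 h'.2
    · linarith [E2 hk hc d h.1, h'.1]
  · linarith [E3 hk hc h', h.1]
  · have := E3 (supp_rot hb (supp_n hc) (supp_w l)) (supp_sq hc) (by rwa [supp_back hc])
    linarith [h'.1]
  · linarith [E4 hb hc h']

/-- a common hull at the vertex `0` -/
def hullW : Set S3 :=
  {p | ∃ k : ℕ, 11 / 8 ≤ av 0 ((g 0 ^ k) p).1 ∧ 11 / 8 ≤ av 5 ((g 0 ^ k) p).1} ∪ Cap 0

theorem hull_chart {p : S3} (hp : p ∈ hullW) : ∃ k : ℕ,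
    (11 * normSq (3 - Z1 p.1 - w1 ^ k * Z2 p.1) ≤ 24 ∧
      11 * normSq (3 - Z1 p.1 - w1 ^ k * Z2 p.1) ≤ 24 * hh (w1 ^ k * Z2 p.1)) ∨ hh (Z1 p.1) ≤ 1 := by
  rcases hp with ⟨k, a, b⟩ | hp
  · have n := (nsq_S3 ((g 0 ^ k) p)).le
    obtain ⟨c0, -, c5, -⟩ := av_chart n
    rw [supp_le (QQ_pos n) c0] at a
    rw [supp_le (QQ_pos n) c5] at b
    obtain ⟨z1, z2⟩ := Z_gE0 (supp_w k) (nsq_S3 p).le
    rw [QQ, g_pow_val, z1, z2] at a b
    exact ⟨k, .inl ⟨by linarith, by linarith⟩⟩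
  · exact ⟨0, .inr ((chart_sets p).2.2.1.1 hp)⟩

theorem hull_free : Free (g 5) hullW := fun p hp hq => by
  obtain ⟨k, a⟩ := hull_chart hp
  obtain ⟨l, b⟩ := hull_chart hq
  obtain ⟨z1, z2⟩ := Z_gE5 w1_nsq (nsq_S3 p).le
  rw [g_val, z1, z2] at b
  exact hull_core (Z_sph p).le om_w1 k l a b

theorem hull_Uq {p : S3} {k : ℕ} (h : (g 0 ^ k) p ∈ Uq 0) : p ∈ hullW :=
  .inl ⟨k, le_trans (by norm_num) h.1.1, h.2.1⟩

theorem hull_legs : hl 1 ∪ hl 2 ⊆ hullW := by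
  rintro p ((((hp | hp) | hp) | hp) | hp)
  · have k := hull_KL hp
    exact .inl ⟨0, le_trans (by norm_num) (k 0), le_trans (by norm_num) (k 5)⟩
  · exact .inr hp.1
  · rcases hp with ⟨q, hq, rfl⟩ | ⟨q, hq, rfl⟩
    · refine hull_Uq (k := 2) ?_
      rwa [show (g 0 ^ 2) (g (1 - 1) q) = (g 0 ^ 3) q from by rw [pow_succ _ 2]; rfl, g_cube]
    · refine hull_Uq (k := 1) ?_
      rwa [show (g 0 ^ 1) ((g (1 - 1) ^ 2 : S3 ≃ₜ S3) q) = (g 0 ^ 3) q from by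
        rw [pow_succ' _ 2, pow_one]; rfl, g_cube]
  · exact .inr (Sp_facts (Sq_Sp _ hp)).2.1.le
  · exact .inl ⟨0, (hl_av hp).2.2, (hl_av hp).2.1⟩

theorem hull_rot (i : Fin 6) (p : S3) : rot (g i p) = g (i + 1) (rot p) :=
  DFunLike.congr_fun (rot_g i) p

theorem hull_sw (i : Fin 6) (p : S3) : sw (g i p) = g (5 - i) (sw p) :=
  DFunLike.congr_fun (sw_g i) p

/-- At vertex `1`: a point of `hl 2 ∪ hl 3` has av 0, av 1 ≥ 11/8, or lies in `Cap 1`, or in `Sq 1`;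
E1c, E2, E3, E4 in the chart moved by `rot`. -/
theorem legs_free : Free (g 0) (hl 2 ∪ hl 3) := by
  have k : ∀ q : S3, rot q ∈ hl 2 ∪ hl 3 → q ∈ hullW := fun q h =>
    hull_legs (h.imp (rot_v 1 q).2.2.2.2.1 (rot_v 2 q).2.2.2.2.1)
  intro p hp hq
  obtain ⟨q, rfl⟩ := rot.surjective p
  exact hull_free q (k q hp) (k _ (by rwa [hull_rot]))

theorem legs_free' : Free (g 0) (hl 5 ∪ hl 4) := by
  have k : ∀ q : S3, q ∈ hl 5 ∪ hl 4 → sw q ∈ hullW := fun q h =>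
    hull_legs (h.imp (sw_v 5 q).2.2.2.2.2 (sw_v 4 q).2.2.2.2.2)
  intro p hp hq
  have := k _ hq
  rw [hull_sw] at this
  exact hull_free _ (k p hp) this

theorem far_free : Free (g 5) FH := by
  have k : FH ⊆ hullW := union_subset subset_union_right fun _ ⟨_, h⟩ => hull_Uq h
  exact fun p hp hq => hull_free p (k hp) (k hq)

theorem near_free : Free (g 1) NH := by
  have a : ∀ (j : Fin 6) (q : S3), av (j + 1) (rot (sw q)).1 = av (-j) q.1 := fun j q => by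
    rw [av_rot, av_sw]
  have c : ∀ (k : ℕ) (q : S3), (g 0 ^ k) (rot (sw q)) = rot (sw ((g 0 ^ k) q)) := fun k => by
    induction k with
    | zero => exact fun _ => rfl
    | succ k ih =>
      intro q
      rw [pow_succ]
      change (g 0 ^ k) (g 0 (rot (sw q))) = rot (sw ((g 0 ^ k) (g 0 q)))
      rw [← ih, hull_sw, hull_rot]
      rfl
  have k : ∀ q ∈ NH, rot (sw q) ∈ hullW := by
    rintro q (h | ⟨k, h⟩)
    · exact .inr ((a 0 q).le.trans (le_trans h (a 5 q).ge))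
    · refine .inl ⟨k, ?_, ?_⟩ <;> rw [c]
      · exact le_trans (by norm_num) (h.1.2.trans (a 5 _).ge)
      · exact h.2.2.trans (a 4 _).ge
  intro p hp hq
  have := k _ hq
  rw [hull_sw, hull_rot] at this
  exact hull_free _ (k p hp) this

theorem Free.pow {i : Fin 6} {Q : Set S3} (h : Free (g i) Q) {p : S3} (hp : p ∈ Q) {k : ℕ}
    (hk : (g i ^ k) p ∈ Q) : g i ^ k = 1 := by
  rw [pow_eq_pow_mod _ (g_cube i)] at hk ⊢
  rcases (by omega : k % 3 = 0 ∨ k % 3 = 1 ∨ k % 3 = 2) with e | e | e <;> rw [e] at hk ⊢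
  · exact pow_zero _
  · exact (h p hp (by rwa [pow_one] at hk)).elim
  · refine (h _ hk ?_).elim
    rwa [show g i ((g i ^ 2) p) = (g i ^ 3) p from by rw [pow_succ' _ 2]; rfl, g_cube]

end Pool.Agent.Lib.MP_b7d179_gt.Gm
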