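import Pool.Agent.Lib.MP_b7d179_gt.G.IneqA

/-! Coordinates `A = x + y c` and the single cases of the inequalities of part B. -/

namespace Pool.Agent.Lib.MP_b7d179_gt.Gm

open Complex

theorem ib_co {c : ℂ} (hc : Om c) (z : ℂ) : ∃ x y : ℝ, z = x + y * c := by
  obtain ⟨h1, h2⟩ := hc.re
  have h3 : c.im ≠ 0 := by
    intro h
    rw [h] at h2
    norm_num at h2
  refine ⟨z.re - z.im / c.im * c.re, z.im / c.im, ?_⟩
  apply Complex.ext
  · simp only [add_re, ofReal_re, mul_re, ofReal_im]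
    ring
  · simp only [add_im, ofReal_re, mul_im, ofReal_im]
    field_simp
    ring

theorem ib_nq {c : ℂ} (hc : Om c) {z : ℂ} (p q : ℝ) (K : ℂ)
    (h : z = p + q * c + K * (c ^ 2 + c + 1)) : normSq z = p ^ 2 - p * q + q ^ 2 := by
  obtain ⟨h1, h2⟩ := hc.re
  have h0 : c ^ 2 + c + 1 = 0 := hc
  rw [h, h0, mul_zero, add_zero, normSq_apply]
  simp only [add_re, ofReal_re, mul_re, ofReal_im, add_im, mul_im]
  rw [h1]
  linear_combination q ^ 2 * h2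

theorem ib_d {c d : ℂ} (hc : Om c) (hd : Om d) : d = c ∨ d = -1 - c := by
  have h0 : c ^ 2 + c + 1 = 0 := hc
  have h1 : d ^ 2 + d + 1 = 0 := hd
  have h : (d - c) * (d - (-1 - c)) = 0 := by linear_combination h1 - h0
  rcases mul_eq_zero.1 h with h | h
  · exact Or.inl (sub_eq_zero.1 h)
  · exact Or.inr (sub_eq_zero.1 h)

theorem ib_hs {A B : ℂ} (hs : 0 ≤ ((A - B) * (starRingEnd ℂ) (3 - A - B)).re) :
    normSq (3 - 2 * A) ≤ normSq (3 - 2 * B) := by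
  simp only [normSq_apply, mul_re, mul_im, sub_re, sub_im, conj_re, conj_im, re_ofNat,
    im_ofNat] at hs ⊢
  linarith

variable {A B c : ℂ} (hb : normSq A + normSq B ≤ 3) (hc : Om c)
include hb hc

theorem ib_o1 (h : normSq (3 - A - c * B) ≤ 2) :
    2 * normSq (3 - A - B) ≤ 3 * normSq (5 - 2 * A - 2 * B) := by
  obtain ⟨x, y, hA⟩ := ib_co hc A
  obtain ⟨u, v, hB⟩ := ib_co hc B
  have e0 := ib_nq hc (z := A) (x) (y)
    ((0 : ℝ) : ℂ) (by rw [hA]; push_cast; ring)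
  have e1 := ib_nq hc (z := B) (u) (v)
    ((0 : ℝ) : ℂ) (by rw [hB]; push_cast; ring)
  have e2 := ib_nq hc (z := 3 - A - B) (3 - x - u) (-y - v)
    ((0 : ℝ) : ℂ) (by rw [hA, hB]; push_cast; ring)
  have e3 := ib_nq hc (z := 5 - 2 * A - 2 * B) (5 - 2 * x - 2 * u) (-2 * y - 2 * v)
    ((0 : ℝ) : ℂ) (by rw [hA, hB]; push_cast; ring)
  have e4 := ib_nq hc (z := 3 - A - c * B) (3 - x + v) (-y - u + v)
    ((-v : ℝ) : ℂ) (by rw [hA, hB]; push_cast; ring)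
  linarith [sq_nonneg (15 - 6 * x + 9 * y - 8 * u + 16 * v),
    sq_nonneg (-9 + 4 * x + y + 8 * u),
    sq_nonneg (66 - 43 * x + 86 * y),
    sq_nonneg (-72 + 43 * x)]

theorem ib_o2 (h : normSq (2 - c * A) ≤ 1) :
    2 * normSq (3 - A - B) ≤ 3 * normSq (5 - 2 * A - 2 * B) := by
  obtain ⟨x, y, hA⟩ := ib_co hc A
  obtain ⟨u, v, hB⟩ := ib_co hc B
  have e0 := ib_nq hc (z := A) (x) (y)
    ((0 : ℝ) : ℂ) (by rw [hA]; push_cast; ring)
  have e1 := ib_nq hc (z := B) (u) (v)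
    ((0 : ℝ) : ℂ) (by rw [hB]; push_cast; ring)
  have e2 := ib_nq hc (z := 3 - A - B) (3 - x - u) (-y - v)
    ((0 : ℝ) : ℂ) (by rw [hA, hB]; push_cast; ring)
  have e3 := ib_nq hc (z := 5 - 2 * A - 2 * B) (5 - 2 * x - 2 * u) (-2 * y - 2 * v)
    ((0 : ℝ) : ℂ) (by rw [hA, hB]; push_cast; ring)
  have e4 := ib_nq hc (z := 2 - c * A) (2 + y) (-x + y)
    ((-y : ℝ) : ℂ) (by rw [hA]; push_cast; ring)
  linarith [sq_nonneg (24 - 10 * x + 20 * y - 27 * u + 54 * v),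
    sq_nonneg (-24 + 10 * x + 27 * u),
    sq_nonneg (1596 - 1223 * x + 2446 * y),
    sq_nonneg (780 + 1223 * x)]

theorem ib_o3 (h : normSq (3 - c * A - c * B) ≤ 2) :
    2 * normSq (3 - A - B) ≤ 3 * normSq (5 - 2 * A - 2 * B) := by
  obtain ⟨x, y, hA⟩ := ib_co hc A
  obtain ⟨u, v, hB⟩ := ib_co hc B
  have e0 := ib_nq hc (z := A) (x) (y)
    ((0 : ℝ) : ℂ) (by rw [hA]; push_cast; ring)
  have e1 := ib_nq hc (z := B) (u) (v)
    ((0 : ℝ) : ℂ) (by rw [hB]; push_cast; ring)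
  have e2 := ib_nq hc (z := 3 - A - B) (3 - x - u) (-y - v)
    ((0 : ℝ) : ℂ) (by rw [hA, hB]; push_cast; ring)
  have e3 := ib_nq hc (z := 5 - 2 * A - 2 * B) (5 - 2 * x - 2 * u) (-2 * y - 2 * v)
    ((0 : ℝ) : ℂ) (by rw [hA, hB]; push_cast; ring)
  have e4 := ib_nq hc (z := 3 - c * A - c * B) (3 + y + v) (-x + y - u + v)
    ((-y - v : ℝ) : ℂ) (by rw [hA, hB]; push_cast; ring)
  linarith [sq_nonneg (90 - 32 * x + 64 * y - 63 * u + 126 * v),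
    sq_nonneg (42 + 32 * x + 63 * u),
    sq_nonneg (18 - 19 * x + 38 * y),
    sq_nonneg (42 + 95 * x)]

theorem ib_o4 (h : normSq (3 - c * A - (-1 - c) * B) ≤ 2) :
    2 * normSq (3 - A - B) ≤ 3 * normSq (5 - 2 * A - 2 * B) := by
  obtain ⟨x, y, hA⟩ := ib_co hc A
  obtain ⟨u, v, hB⟩ := ib_co hc B
  have e0 := ib_nq hc (z := A) (x) (y)
    ((0 : ℝ) : ℂ) (by rw [hA]; push_cast; ring)
  have e1 := ib_nq hc (z := B) (u) (v)
    ((0 : ℝ) : ℂ) (by rw [hB]; push_cast; ring)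
  have e2 := ib_nq hc (z := 3 - A - B) (3 - x - u) (-y - v)
    ((0 : ℝ) : ℂ) (by rw [hA, hB]; push_cast; ring)
  have e3 := ib_nq hc (z := 5 - 2 * A - 2 * B) (5 - 2 * x - 2 * u) (-2 * y - 2 * v)
    ((0 : ℝ) : ℂ) (by rw [hA, hB]; push_cast; ring)
  have e4 := ib_nq hc (z := 3 - c * A - (-1 - c) * B) (3 + y + u - v) (-x + y + u)
    ((-y + v : ℝ) : ℂ) (by rw [hA, hB]; push_cast; ring)
  linarith [sq_nonneg (-54 - 23 * x + 7 * y - 44 * u + 88 * v),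
    sq_nonneg (-24 - 3 * x + 13 * y + 44 * u),
    sq_nonneg (1143 - 599 * x + 1198 * y),
    sq_nonneg (131 + 599 * x)]

theorem ib_n1 (h : normSq (3 - c * A - B) ≤ 2) :
    17 * normSq (3 - A - B) ≤ 30 * normSq (4 - 2 * A - B) := by
  obtain ⟨x, y, hA⟩ := ib_co hc A
  obtain ⟨u, v, hB⟩ := ib_co hc B
  have e0 := ib_nq hc (z := A) (x) (y)
    ((0 : ℝ) : ℂ) (by rw [hA]; push_cast; ring)
  have e1 := ib_nq hc (z := B) (u) (v)
    ((0 : ℝ) : ℂ) (by rw [hB]; push_cast; ring)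
  have e2 := ib_nq hc (z := 3 - A - B) (3 - x - u) (-y - v)
    ((0 : ℝ) : ℂ) (by rw [hA, hB]; push_cast; ring)
  have e3 := ib_nq hc (z := 4 - 2 * A - B) (4 - 2 * x - u) (-2 * y - v)
    ((0 : ℝ) : ℂ) (by rw [hA, hB]; push_cast; ring)
  have e4 := ib_nq hc (z := 3 - c * A - B) (3 + y - u) (-x + y - v)
    ((-y : ℝ) : ℂ) (by rw [hA, hB]; push_cast; ring)
  linarith [sq_nonneg (207 + 49 * x + 40 * y - 129 * u + 258 * v),
    sq_nonneg (-207 + 43 * x - 46 * y + 129 * u),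
    sq_nonneg (2970 - 3283 * x + 6566 * y),
    sq_nonneg (-900 + 3283 * x)]

theorem ib_n2 (h : normSq (2 - c * A) ≤ 1) :
    17 * normSq (3 - A - B) ≤ 30 * normSq (4 - 2 * A - B) := by
  obtain ⟨x, y, hA⟩ := ib_co hc A
  obtain ⟨u, v, hB⟩ := ib_co hc B
  have e0 := ib_nq hc (z := A) (x) (y)
    ((0 : ℝ) : ℂ) (by rw [hA]; push_cast; ring)
  have e1 := ib_nq hc (z := B) (u) (v)
    ((0 : ℝ) : ℂ) (by rw [hB]; push_cast; ring)
  have e2 := ib_nq hc (z := 3 - A - B) (3 - x - u) (-y - v)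
    ((0 : ℝ) : ℂ) (by rw [hA, hB]; push_cast; ring)
  have e3 := ib_nq hc (z := 4 - 2 * A - B) (4 - 2 * x - u) (-2 * y - v)
    ((0 : ℝ) : ℂ) (by rw [hA, hB]; push_cast; ring)
  have e4 := ib_nq hc (z := 2 - c * A) (2 + y) (-x + y)
    ((-y : ℝ) : ℂ) (by rw [hA]; push_cast; ring)
  linarith [sq_nonneg (69 - 43 * x + 86 * y - 159 * u + 318 * v),
    sq_nonneg (-69 + 43 * x + 159 * u),
    sq_nonneg (4122 - 3161 * x + 6322 * y),
    sq_nonneg (18258 + 34771 * x)]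

theorem ib_n3 (h : normSq (2 - c * B) ≤ 1) :
    17 * normSq (3 - A - B) ≤ 30 * normSq (4 - 2 * A - B) := by
  obtain ⟨x, y, hA⟩ := ib_co hc A
  obtain ⟨u, v, hB⟩ := ib_co hc B
  have e0 := ib_nq hc (z := A) (x) (y)
    ((0 : ℝ) : ℂ) (by rw [hA]; push_cast; ring)
  have e1 := ib_nq hc (z := B) (u) (v)
    ((0 : ℝ) : ℂ) (by rw [hB]; push_cast; ring)
  have e2 := ib_nq hc (z := 3 - A - B) (3 - x - u) (-y - v)
    ((0 : ℝ) : ℂ) (by rw [hA, hB]; push_cast; ring)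
  have e3 := ib_nq hc (z := 4 - 2 * A - B) (4 - 2 * x - u) (-2 * y - v)
    ((0 : ℝ) : ℂ) (by rw [hA, hB]; push_cast; ring)
  have e4 := ib_nq hc (z := 2 - c * B) (2 + v) (-u + v)
    ((-v : ℝ) : ℂ) (by rw [hB]; push_cast; ring)
  linarith [sq_nonneg (177 - 43 * x + 86 * y - 116 * u + 232 * v),
    sq_nonneg (39 + 43 * x + 116 * u),
    sq_nonneg (4771 - 5261 * x + 10522 * y),
    sq_nonneg (-7867 + 5261 * x)]

theorem ib_n4 (h : normSq (3 - c * A - c * B) ≤ 2) :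
    17 * normSq (3 - A - B) ≤ 30 * normSq (4 - 2 * A - B) := by
  obtain ⟨x, y, hA⟩ := ib_co hc A
  obtain ⟨u, v, hB⟩ := ib_co hc B
  have e0 := ib_nq hc (z := A) (x) (y)
    ((0 : ℝ) : ℂ) (by rw [hA]; push_cast; ring)
  have e1 := ib_nq hc (z := B) (u) (v)
    ((0 : ℝ) : ℂ) (by rw [hB]; push_cast; ring)
  have e2 := ib_nq hc (z := 3 - A - B) (3 - x - u) (-y - v)
    ((0 : ℝ) : ℂ) (by rw [hA, hB]; push_cast; ring)
  have e3 := ib_nq hc (z := 4 - 2 * A - B) (4 - 2 * x - u) (-2 * y - v)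
    ((0 : ℝ) : ℂ) (by rw [hA, hB]; push_cast; ring)
  have e4 := ib_nq hc (z := 3 - c * A - c * B) (3 + y + v) (-x + y - u + v)
    ((-y - v : ℝ) : ℂ) (by rw [hA, hB]; push_cast; ring)
  linarith [sq_nonneg (216 - 82 * x + 164 * y - 151 * u + 302 * v),
    sq_nonneg (147 + 82 * x + 151 * u),
    sq_nonneg (1997 - 1906 * x + 3812 * y),
    sq_nonneg (361 + 7624 * x)]

theorem ib_n5 (h : normSq (3 - c * A - (-1 - c) * B) ≤ 2) :
    17 * normSq (3 - A - B) ≤ 30 * normSq (4 - 2 * A - B) := by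
  obtain ⟨x, y, hA⟩ := ib_co hc A
  obtain ⟨u, v, hB⟩ := ib_co hc B
  have e0 := ib_nq hc (z := A) (x) (y)
    ((0 : ℝ) : ℂ) (by rw [hA]; push_cast; ring)
  have e1 := ib_nq hc (z := B) (u) (v)
    ((0 : ℝ) : ℂ) (by rw [hB]; push_cast; ring)
  have e2 := ib_nq hc (z := 3 - A - B) (3 - x - u) (-y - v)
    ((0 : ℝ) : ℂ) (by rw [hA, hB]; push_cast; ring)
  have e3 := ib_nq hc (z := 4 - 2 * A - B) (4 - 2 * x - u) (-2 * y - v)
    ((0 : ℝ) : ℂ) (by rw [hA, hB]; push_cast; ring)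
  have e4 := ib_nq hc (z := 3 - c * A - (-1 - c) * B) (3 + y + u - v) (-x + y + u)
    ((-y + v : ℝ) : ℂ) (by rw [hA, hB]; push_cast; ring)
  linarith [sq_nonneg (-405 - 122 * x + 7 * y - 214 * u + 428 * v),
    sq_nonneg (-69 - 36 * x + 79 * y + 214 * u),
    sq_nonneg (33586 - 20121 * x + 40242 * y),
    sq_nonneg (-1828 + 20121 * x)]

theorem ib_8 (h : normSq (2 - c * A) ≤ 1) :
    11 * normSq (3 - c * A) ≤ 20 * normSq (3 - A - B) := by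
  obtain ⟨x, y, hA⟩ := ib_co hc A
  obtain ⟨u, v, hB⟩ := ib_co hc B
  have e0 := ib_nq hc (z := A) (x) (y)
    ((0 : ℝ) : ℂ) (by rw [hA]; push_cast; ring)
  have e1 := ib_nq hc (z := B) (u) (v)
    ((0 : ℝ) : ℂ) (by rw [hB]; push_cast; ring)
  have e2 := ib_nq hc (z := 3 - A - B) (3 - x - u) (-y - v)
    ((0 : ℝ) : ℂ) (by rw [hA, hB]; push_cast; ring)
  have e3 := ib_nq hc (z := 3 - c * A) (3 + y) (-x + y)
    ((-y : ℝ) : ℂ) (by rw [hA]; push_cast; ring)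
  have e4 := ib_nq hc (z := 2 - c * A) (2 + y) (-x + y)
    ((-y : ℝ) : ℂ) (by rw [hA]; push_cast; ring)
  linarith [sq_nonneg (30 - 10 * x + 20 * y - 31 * u + 62 * v),
    sq_nonneg (-30 + 10 * x + 31 * u),
    sq_nonneg (5321 - 3923 * x + 7846 * y),
    sq_nonneg (2801 + 3923 * x)]

theorem ib_9 (h : normSq (2 - c * A) ≤ 1) :
    2 * normSq (3 - c * A) ≤ normSq (3 - A) := by
  obtain ⟨x, y, hA⟩ := ib_co hc A
  obtain ⟨u, v, hB⟩ := ib_co hc B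
  have e0 := ib_nq hc (z := A) (x) (y)
    ((0 : ℝ) : ℂ) (by rw [hA]; push_cast; ring)
  have e1 := ib_nq hc (z := B) (u) (v)
    ((0 : ℝ) : ℂ) (by rw [hB]; push_cast; ring)
  have e2 := ib_nq hc (z := 3 - A) (3 - x) (-y)
    ((0 : ℝ) : ℂ) (by rw [hA]; push_cast; ring)
  have e3 := ib_nq hc (z := 3 - c * A) (3 + y) (-x + y)
    ((-y : ℝ) : ℂ) (by rw [hA]; push_cast; ring)
  have e4 := ib_nq hc (z := 2 - c * A) (2 + y) (-x + y)
    ((-y : ℝ) : ℂ) (by rw [hA]; push_cast; ring)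
  linarith [sq_nonneg (-u + 2 * v),
    sq_nonneg (u),
    sq_nonneg (11 - 7 * x + 14 * y),
    sq_nonneg (5 + 7 * x)]

theorem ib_10 (h : 11 * normSq (3 - c * A - B) ≤ 24) :
    11 * normSq (3 - c * A - B) ≤ 5 * normSq (3 - A) := by
  obtain ⟨x, y, hA⟩ := ib_co hc A
  obtain ⟨u, v, hB⟩ := ib_co hc B
  have e0 := ib_nq hc (z := A) (x) (y)
    ((0 : ℝ) : ℂ) (by rw [hA]; push_cast; ring)
  have e1 := ib_nq hc (z := B) (u) (v)
    ((0 : ℝ) : ℂ) (by rw [hB]; push_cast; ring)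
  have e2 := ib_nq hc (z := 3 - A) (3 - x) (-y)
    ((0 : ℝ) : ℂ) (by rw [hA]; push_cast; ring)
  have e3 := ib_nq hc (z := 3 - c * A - B) (3 + y - u) (-x + y - v)
    ((-y : ℝ) : ℂ) (by rw [hA, hB]; push_cast; ring)
  linarith [sq_nonneg (33 + 22 * x - 11 * y - 18 * u + 36 * v),
    sq_nonneg (-33 - 11 * y + 18 * u),
    sq_nonneg (501 - 293 * x + 586 * y),
    sq_nonneg (-39 + 293 * x)]

theorem ib_a1 (k0 : normSq (3 - A - B) ≤ 2)
    (hs : normSq (3 - 2 * A) ≤ normSq (3 - 2 * B)) :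
    11 * normSq (3 - A) ≤ 20 * normSq (3 - c * A - 1 * B) := by
  obtain ⟨x, y, hA⟩ := ib_co hc A
  obtain ⟨u, v, hB⟩ := ib_co hc B
  have e0 := ib_nq hc (z := A) (x) (y)
    ((0 : ℝ) : ℂ) (by rw [hA]; push_cast; ring)
  have e1 := ib_nq hc (z := B) (u) (v)
    ((0 : ℝ) : ℂ) (by rw [hB]; push_cast; ring)
  have e2 := ib_nq hc (z := 3 - A - B) (3 - x - u) (-y - v)
    ((0 : ℝ) : ℂ) (by rw [hA, hB]; push_cast; ring)
  have e3 := ib_nq hc (z := 3 - 2 * A) (3 - 2 * x) (-2 * y)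
    ((0 : ℝ) : ℂ) (by rw [hA]; push_cast; ring)
  have e4 := ib_nq hc (z := 3 - 2 * B) (3 - 2 * u) (-2 * v)
    ((0 : ℝ) : ℂ) (by rw [hB]; push_cast; ring)
  have e5 := ib_nq hc (z := 3 - A) (3 - x) (-y)
    ((0 : ℝ) : ℂ) (by rw [hA]; push_cast; ring)
  have e6 := ib_nq hc (z := 3 - c * A - 1 * B) (3 + y - u) (-x + y - v)
    ((-y : ℝ) : ℂ) (by rw [hA, hB]; push_cast; ring)
  linarith [sq_nonneg (27 + 23 * x + 14 * y - 15 * u + 30 * v),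
    sq_nonneg (-27 + 17 * x - 20 * y + 15 * u),
    sq_nonneg (1431 - 1391 * x + 2782 * y),
    sq_nonneg (-711 + 1391 * x)]

theorem ib_a2 (k0 : normSq (3 - A - B) ≤ 2)
    (hs : normSq (3 - 2 * A) ≤ normSq (3 - 2 * B)) :
    11 * normSq (3 - A) ≤ 20 * normSq (3 - c * A - c * B) := by
  obtain ⟨x, y, hA⟩ := ib_co hc A
  obtain ⟨u, v, hB⟩ := ib_co hc B
  have e0 := ib_nq hc (z := A) (x) (y)
    ((0 : ℝ) : ℂ) (by rw [hA]; push_cast; ring)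
  have e1 := ib_nq hc (z := B) (u) (v)
    ((0 : ℝ) : ℂ) (by rw [hB]; push_cast; ring)
  have e2 := ib_nq hc (z := 3 - A - B) (3 - x - u) (-y - v)
    ((0 : ℝ) : ℂ) (by rw [hA, hB]; push_cast; ring)
  have e3 := ib_nq hc (z := 3 - 2 * A) (3 - 2 * x) (-2 * y)
    ((0 : ℝ) : ℂ) (by rw [hA]; push_cast; ring)
  have e4 := ib_nq hc (z := 3 - 2 * B) (3 - 2 * u) (-2 * v)
    ((0 : ℝ) : ℂ) (by rw [hB]; push_cast; ring)
  have e5 := ib_nq hc (z := 3 - A) (3 - x) (-y)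
    ((0 : ℝ) : ℂ) (by rw [hA]; push_cast; ring)
  have e6 := ib_nq hc (z := 3 - c * A - c * B) (3 + y + v) (-x + y - u + v)
    ((-y - v : ℝ) : ℂ) (by rw [hA, hB]; push_cast; ring)
  linarith [sq_nonneg (97 - 35 * x + 70 * y - 61 * u + 122 * v),
    sq_nonneg (-57 + 35 * x + 61 * u),
    sq_nonneg (2827 - 2923 * x + 5846 * y),
    sq_nonneg (-1787 + 2923 * x)]

theorem ib_a3 (k0 : normSq (3 - A - B) ≤ 2)
    (hs : normSq (3 - 2 * A) ≤ normSq (3 - 2 * B)) :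
    11 * normSq (3 - A) ≤ 20 * normSq (3 - c * A - (-1 - c) * B) := by
  obtain ⟨x, y, hA⟩ := ib_co hc A
  obtain ⟨u, v, hB⟩ := ib_co hc B
  have e0 := ib_nq hc (z := A) (x) (y)
    ((0 : ℝ) : ℂ) (by rw [hA]; push_cast; ring)
  have e1 := ib_nq hc (z := B) (u) (v)
    ((0 : ℝ) : ℂ) (by rw [hB]; push_cast; ring)
  have e2 := ib_nq hc (z := 3 - A - B) (3 - x - u) (-y - v)
    ((0 : ℝ) : ℂ) (by rw [hA, hB]; push_cast; ring)
  have e3 := ib_nq hc (z := 3 - 2 * A) (3 - 2 * x) (-2 * y)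
    ((0 : ℝ) : ℂ) (by rw [hA]; push_cast; ring)
  have e4 := ib_nq hc (z := 3 - 2 * B) (3 - 2 * u) (-2 * v)
    ((0 : ℝ) : ℂ) (by rw [hB]; push_cast; ring)
  have e5 := ib_nq hc (z := 3 - A) (3 - x) (-y)
    ((0 : ℝ) : ℂ) (by rw [hA]; push_cast; ring)
  have e6 := ib_nq hc (z := 3 - c * A - (-1 - c) * B) (3 + y + u - v) (-x + y + u)
    ((-y + v : ℝ) : ℂ) (by rw [hA, hB]; push_cast; ring)
  linarith [sq_nonneg (6 - 24 * x + 28 * y - 39 * u + 78 * v),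
    sq_nonneg (-138 + 32 * x + 20 * y + 117 * u),
    sq_nonneg (1281 - 626 * x + 1252 * y),
    sq_nonneg (-1167 + 4382 * x)]

theorem ib_b (k0 : normSq (3 - A - B) ≤ 2)
    (hs : normSq (3 - 2 * A) ≤ normSq (3 - 2 * B)) :
    11 * normSq (3 - A) ≤ 10 * normSq (3 - c * A) := by
  obtain ⟨x, y, hA⟩ := ib_co hc A
  obtain ⟨u, v, hB⟩ := ib_co hc B
  have e0 := ib_nq hc (z := A) (x) (y)
    ((0 : ℝ) : ℂ) (by rw [hA]; push_cast; ring)
  have e1 := ib_nq hc (z := B) (u) (v)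
    ((0 : ℝ) : ℂ) (by rw [hB]; push_cast; ring)
  have e2 := ib_nq hc (z := 3 - A - B) (3 - x - u) (-y - v)
    ((0 : ℝ) : ℂ) (by rw [hA, hB]; push_cast; ring)
  have e3 := ib_nq hc (z := 3 - 2 * A) (3 - 2 * x) (-2 * y)
    ((0 : ℝ) : ℂ) (by rw [hA]; push_cast; ring)
  have e4 := ib_nq hc (z := 3 - 2 * B) (3 - 2 * u) (-2 * v)
    ((0 : ℝ) : ℂ) (by rw [hB]; push_cast; ring)
  have e5 := ib_nq hc (z := 3 - A) (3 - x) (-y)
    ((0 : ℝ) : ℂ) (by rw [hA]; push_cast; ring)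
  have e6 := ib_nq hc (z := 3 - c * A) (3 + y) (-x + y)
    ((-y : ℝ) : ℂ) (by rw [hA]; push_cast; ring)
  linarith [sq_nonneg (18 - 13 * x + 26 * y - 11 * u + 22 * v),
    sq_nonneg (-18 + 13 * x + 11 * u),
    sq_nonneg (819 - 509 * x + 1018 * y),
    sq_nonneg (-159 + 509 * x)]

end Pool.Agent.Lib.MP_b7d179_gt.Gm
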