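import Pool.Agent.Lib.MP_b7d179_gt.G.Dec

/-! The state of a point: prisms and signs. -/

namespace Pool.Agent.Lib.MP_b7d179_gt.Gm

open Set Metric Complex Stmt

theorem instA_5 (a : ℕ) : gg a 0 = g 5 ^ a := by rw [gg, pow_zero, mul_one]

theorem instA_0 (b : ℕ) : gg 0 b = g 0 ^ b := by rw [gg, pow_zero, one_mul]

theorem instA_mul (γ δ : S3 ≃ₜ S3) (Q : Set S3) : (γ * δ : S3 ≃ₜ S3) '' Q = γ '' (δ '' Q) :=
  (image_image γ δ Q).symm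

theorem instA_add (i : Fin 6) (a k : Fin 3) :
    g i ^ ((a + k : Fin 3) : ℕ) = g i ^ (a : ℕ) * g i ^ (k : ℕ) := by
  rw [← pow_add, Fin.val_add, ← pow_eq_pow_mod _ (g_cube i)]

theorem instA_cyc (i : Fin 6) (Q : Set S3) (p : S3) :
    p ∈ cyc (g i) Q ↔ ∃ a : Fin 3, p ∈ (g i ^ (a : ℕ) : S3 ≃ₜ S3) '' Q := by
  rw [mem_cyc, Fin.exists_fin_succ, Fin.exists_fin_two, mem_union, mem_union, or_assoc]
  refine or_congr ?_ (or_congr ?_ Iff.rfl)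
  · exact ⟨fun h => ⟨p, h, rfl⟩, fun ⟨_, h, e⟩ => e ▸ h⟩
  · change _ ↔ p ∈ (g i ^ 1 : S3 ≃ₜ S3) '' Q
    rw [pow_one]

theorem instA_ss (p : S3) : sw (sw p) = p := DFunLike.congr_fun sw_sw p

theorem instA_msw {Q : Set S3} {p : S3} : p ∈ sw '' Q ↔ sw p ∈ Q :=
  ⟨fun ⟨q, hq, e⟩ => by rwa [← e, instA_ss], fun hp => ⟨_, hp, instA_ss p⟩⟩

/-- `sw` exchanges the powers of `g 0` and `g 5` -/
theorem instA_swp (k : ℕ) (p : S3) : sw ((g 0 ^ k) p) = (g 5 ^ k) (sw p) :=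
  DFunLike.congr_fun (SemiconjBy.pow_right (sw_g 0) k) p

theorem instA_core {i : Fin 6} (hi : i = 0 ∨ i = 5) (k : ℕ) (p : S3) :
    (g i ^ k) p ∈ Core ↔ p ∈ Core := by
  induction k with
  | zero => rfl
  | succ k ih =>
    rw [pow_succ', Homeomorph.mul_apply, ← ih]
    rcases hi with rfl | rfl
    · exact (sym_Vt (Or.inr (Or.inr (Or.inl rfl))) _).2.1
    · exact (sym_Vt (Or.inr (Or.inr (Or.inr rfl))) _).2.1

theorem instA_free {i : Fin 6} {Q : Set S3} (h : Free (g i) Q) {x : S3} {a a' : Fin 3}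
    (ha : x ∈ (g i ^ (a : ℕ) : S3 ≃ₜ S3) '' Q) (ha' : x ∈ (g i ^ (a' : ℕ) : S3 ≃ₜ S3) '' Q) :
    a = a' := by
  have key : ∀ c : Fin 3, x ∈ (g i ^ (c : ℕ) : S3 ≃ₜ S3) '' Q →
      x ∉ (g i ^ ((c + 1 : Fin 3) : ℕ) : S3 ≃ₜ S3) '' Q := by
    rintro c ⟨u, hu, e⟩ hv
    rw [instA_add, instA_mul, ← e, (g i ^ (c : ℕ)).injective.mem_set_image] at hv
    obtain ⟨v, hv, rfl⟩ := hv
    exact h v hv (by simpa using hu)
  by_contra n
  have : a' = a + 1 ∨ a = a' + 1 := by clear ha ha' key; revert a a'; decide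
  rcases this with rfl | rfl
  exacts [key _ ha ha', key _ ha' ha]

namespace Dat
variable (D : Dat) (x : S3)

theorem instA_a (a : Fin 3) : (D.st x).A a ↔ x ∈ (g 5 ^ (a : ℕ) : S3 ≃ₜ S3) '' D.U := by
  rw [← instA_5]; rfl

theorem instA_b (b : Fin 3) : (D.st x).B b ↔ x ∈ (g 0 ^ (b : ℕ) : S3 ≃ₜ S3) '' (sw '' D.U) := by
  rw [← instA_0]; rfl

theorem instA_A {a : Fin 3} (h : (D.st x).A a) : x ∈ Core := by
  obtain ⟨u, hu, rfl⟩ := h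
  rw [instA_5, instA_core (Or.inr rfl)]
  exact D.pr.sub hu

theorem instA_B {b : Fin 3} (h : (D.st x).B b) : x ∈ Core := by
  obtain ⟨_, ⟨u, hu, rfl⟩, rfl⟩ := h
  rw [instA_0, instA_core (Or.inl rfl), (sym_Vt (Or.inl rfl) u).2.1]
  exact D.pr.sub hu

theorem instA_neg {y : S3} (hy : y ∈ Pn) (h : y ∈ (g 5 ^ 2 : S3 ≃ₜ S3) '' D.U) : zt y < 0 := by
  obtain ⟨u, hu, rfl⟩ := h
  have e : cj ((g 5 ^ 2) u) = (g 5 * cj : S3 ≃ₜ S3) u := by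
    have := DFunLike.congr_fun (SemiconjBy.pow_right (cj_g 5) 2) u
    rwa [← pow_mul, show 2 * 2 = 1 + 3 * 1 from rfl, sym_p3, pow_one] at this
  have := D.pr.zpos _ ⟨(sym_Pn _).2.1.2 hy, e ▸ D.pr.invc.le (mem_image_of_mem _ hu)⟩
  rw [cj_zt] at this
  linarith

theorem st_core : (D.st x).core ↔ x ∈ Core := by
  refine ⟨fun h => h.elim (fun ⟨_, h⟩ => D.instA_A x h) fun ⟨_, h⟩ => D.instA_B x h, fun h => ?_⟩
  refine (D.pr.cov x h).imp (fun h => ?_) fun h => ?_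
  · obtain ⟨a, ha⟩ := (instA_cyc 5 _ x).1 h
    exact ⟨a, (D.instA_a x a).2 ha⟩
  · obtain ⟨a, ha⟩ := (instA_cyc 0 _ x).1 h
    exact ⟨a, (D.instA_b x a).2 ha⟩
theorem st_F (a : Fin 3) : (D.st x).F a ↔ x ∈ gg a 0 '' Far D.X := by
  have e : ∀ b : ℕ, gg a b = gg a 0 * g 0 ^ b := fun b => by rw [instA_5, gg]
  rw [D.far_eq, image_union, mem_union]
  refine or_congr Iff.rfl ⟨?_, ?_⟩
  · rintro ⟨b, h⟩
    have : x ∈ gg a b '' (D.X 2 ∪ D.X 3) := by rw [image_union]; exact h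
    rw [e, instA_mul] at this
    exact image_mono (fun p hp => (instA_cyc 0 _ p).2 ⟨b, hp⟩) this
  · rintro ⟨p, hp, rfl⟩
    obtain ⟨b, hb⟩ := (instA_cyc 0 _ p).1 hp
    have := mem_image_of_mem (gg a 0) hb
    rw [← instA_mul, ← e, image_union] at this
    exact ⟨b, this⟩
theorem st_G (b : Fin 3) : (D.st x).G b ↔ x ∈ gg 0 b '' FarV D.X := by
  have e : ∀ a : ℕ, gg a b = gg 0 b * g 5 ^ a := fun a => by
    rw [← instA_5, gg_mul, zero_add, add_zero]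
  rw [D.farV_eq, image_union, mem_union]
  refine or_congr Iff.rfl ⟨?_, ?_⟩
  · rintro ⟨a, h⟩
    have : x ∈ gg a b '' (D.X 4 ∪ D.X 3) := by rw [image_union]; exact h
    rw [e, instA_mul] at this
    exact image_mono (fun p hp => (instA_cyc 5 _ p).2 ⟨a, hp⟩) this
  · rintro ⟨p, hp, rfl⟩
    obtain ⟨a, ha⟩ := (instA_cyc 5 _ p).1 hp
    have := mem_image_of_mem (gg 0 b) ha
    rw [← instA_mul, ← e, image_union] at this
    exact ⟨a, this⟩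
theorem st_P (a : Fin 3) : ((D.st x).Y a ∧ x ∈ Core ↔ x ∈ gg a 0 '' Pn) ∧
    ((D.st x).W a ∧ x ∈ Core ↔ x ∈ gg 0 a '' (sw '' Pn)) := by
  rw [← D.Y_core.2, ← D.Y_core.1]
  refine ⟨⟨?_, ?_⟩, ?_, ?_⟩
  · rintro ⟨⟨p, hp, rfl⟩, h⟩
    exact ⟨p, ⟨hp, (instA_core (Or.inr rfl) a p).1 (instA_5 a ▸ h)⟩, rfl⟩
  · rintro ⟨p, hp, rfl⟩
    exact ⟨⟨p, hp.1, rfl⟩, (instA_5 a).symm ▸ (instA_core (Or.inr rfl) a p).2 hp.2⟩
  · rintro ⟨⟨p, hp, rfl⟩, h⟩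
    exact ⟨p, ⟨hp, (instA_core (Or.inl rfl) a p).1 (instA_0 a ▸ h)⟩, rfl⟩
  · rintro ⟨p, hp, rfl⟩
    exact ⟨⟨p, hp.1, rfl⟩, (instA_0 a).symm ▸ (instA_core (Or.inl rfl) a p).2 hp.2⟩

/-- a point of a tripod ball and a prism, moved to the slot `0` -/
theorem instA_YA {a k : Fin 3} (h : (D.st x).Y a) (h' : (D.st x).A (a + k)) :
    (gg a 0).symm x ∈ Pn ∧ (gg a 0).symm x ∈ (g 5 ^ (k : ℕ) : S3 ≃ₜ S3) '' D.U := by
  obtain ⟨p, hp, rfl⟩ := (D.st_P x a).1.1 ⟨h, D.instA_A x h'⟩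
  have : gg a 0 p ∈ gg (a + k : Fin 3) 0 '' D.U := h'
  rw [instA_5 (a + k : Fin 3), instA_add, instA_mul, ← instA_5 a,
    (gg a 0).injective.mem_set_image] at this
  rw [Homeomorph.symm_apply_apply]
  exact ⟨hp, this⟩

theorem instA_WB {b k : Fin 3} (h : (D.st x).W b) (h' : (D.st x).B (b + k)) :
    sw ((gg 0 b).symm x) ∈ Pn ∧ sw ((gg 0 b).symm x) ∈ (g 5 ^ (k : ℕ) : S3 ≃ₜ S3) '' D.U := by
  obtain ⟨p, hp, rfl⟩ := (D.st_P x b).2.1 ⟨h, D.instA_B x h'⟩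
  have : gg 0 b p ∈ gg 0 (b + k : Fin 3) '' (sw '' D.U) := h'
  rw [instA_0 (b + k : Fin 3), instA_add, instA_mul, ← instA_0 b,
    (gg 0 b).injective.mem_set_image] at this
  rw [Homeomorph.symm_apply_apply]
  obtain ⟨q, hq, rfl⟩ := this
  exact ⟨instA_msw.1 hp, _, instA_msw.1 hq, (instA_swp _ _).symm⟩

theorem st_u : (∀ a a', (D.st x).A a → (D.st x).A a' → a = a') ∧
    (∀ b b', (D.st x).B b → (D.st x).B b' → b = b') := by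
  refine ⟨fun a a' h h' => instA_free D.pr.free ((D.instA_a x a).1 h) ((D.instA_a x a').1 h'),
    fun b b' h h' => instA_free (i := 0) (Q := sw '' D.U) (fun p hp hq => ?_)
      ((D.instA_b x b).1 h) ((D.instA_b x b').1 h')⟩
  have e : sw (g 0 p) = g 5 (sw p) := DFunLike.congr_fun (sw_g 0) p
  exact D.pr.free _ (instA_msw.1 hp) (e ▸ instA_msw.1 hq)
theorem st_n : (∀ a, (D.st x).Y a → ¬ (D.st x).A (a + 1)) ∧
    (∀ b, (D.st x).W b → ¬ (D.st x).B (b + 1)) := by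
  have e : g 5 ^ ((1 : Fin 3) : ℕ) = g 5 := pow_one _
  exact ⟨fun a h h' => disjoint_left.1 D.pr.pn (D.instA_YA x h h').1 (e ▸ (D.instA_YA x h h').2),
    fun b h h' => disjoint_left.1 D.pr.pn (D.instA_WB x h h').1 (e ▸ (D.instA_WB x h h').2)⟩
theorem st_z : (∀ a, (D.st x).Y a → (D.st x).A a → ¬ (D.st x).Zm a) ∧
    (∀ a, (D.st x).Y a → (D.st x).A (a + 2) → ¬ (D.st x).Zp a) ∧
    (∀ b, (D.st x).W b → (D.st x).B b → ¬ (D.st x).Tm b) ∧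
    (∀ b, (D.st x).W b → (D.st x).B (b + 2) → ¬ (D.st x).Tp b) := by
  have z : ∀ {y}, y ∈ Pn ∧ y ∈ (g 5 ^ ((0 : Fin 3) : ℕ) : S3 ≃ₜ S3) '' D.U → 0 < zt y :=
    fun ⟨h, _, hu, e⟩ => D.pr.zpos _ ⟨h, e ▸ hu⟩
  refine ⟨fun a h h' => (z (D.instA_YA x (k := 0) h (by rwa [add_zero]))).not_ge,
    fun a h h' => (D.instA_neg (D.instA_YA x h h').1 (D.instA_YA x h h').2).not_ge,
    fun b h h' => (z (D.instA_WB x (k := 0) h (by rwa [add_zero]))).not_ge,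
    fun b h h' => (D.instA_neg (D.instA_WB x h h').1 (D.instA_WB x h h').2).not_ge⟩

end Dat

end Pool.Agent.Lib.MP_b7d179_gt.Gm
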