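import Pool.Agent.Lib.MP_b7d179_gt.G.Xt

/-! The state of a point on a circle. -/

namespace Pool.Agent.Lib.MP_b7d179_gt.Gm

open Set Metric Complex Stmt

theorem instC_per (t : ℝ) (n : ℤ) : km (t + n * (2 * Real.pi)) = km t :=
  Function.Periodic.int_mul (f := km) (fun t => (km_sym t).2.2.2) n t

theorem instC_pos {p : S3} {σ : ℕ} (hp : p ∈ oc σ) : ∃ s : ℝ, p = km (-(s * (Real.pi / 12))) ∧
    ∀ k : ℤ, ((2 * k : ℝ) ≤ s ↔ 2 * k ≤ σ) ∧ (s ≤ (2 * k : ℝ) ↔ σ ≤ 2 * k) := by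
  have q : 0 < Real.pi / 12 := by positivity
  unfold oc at hp
  split_ifs at hp with e
  · exact ⟨σ, hp, fun k => ⟨by exact_mod_cast Iff.rfl, by exact_mod_cast Iff.rfl⟩⟩
  · obtain ⟨t, ⟨t1, t2⟩, rfl⟩ := hp
    obtain ⟨s, rfl⟩ : ∃ s, t = -(s * (Real.pi / 12)) := ⟨-t / (Real.pi / 12), by field_simp⟩
    have a : s < σ + 1 := lt_of_mul_lt_mul_right (neg_lt_neg_iff.1 t1) q.le
    have b : (σ : ℝ) - 1 < s := lt_of_mul_lt_mul_right (neg_lt_neg_iff.1 t2) q.le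
    refine ⟨s, rfl, fun k => ⟨⟨fun h => ?_, fun h => ?_⟩, fun h => ?_, fun h => ?_⟩⟩
    · have : 2 * k < (σ : ℤ) + 1 := by exact_mod_cast h.trans_lt a
      omega
    · have : ((2 * k : ℤ) : ℝ) ≤ ((σ : ℤ) - 1 : ℤ) := Int.cast_le.2 (by omega)
      push_cast at this
      linarith
    · have : (σ : ℤ) - 1 < 2 * k := by exact_mod_cast b.trans_le h
      omega
    · have : (((σ : ℤ) + 1 : ℤ) : ℝ) ≤ (2 * k : ℤ) := Int.cast_le.2 (by omega)
      push_cast at this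
      linarith

theorem instC_arc {p : S3} {σ : ℕ} (hp : p ∈ oc σ) (a b : ℤ) {u v : ℝ}
    (hu : u = -(2 * b * (Real.pi / 12))) (hv : v = -(2 * a * (Real.pi / 12))) :
    p ∈ km '' Icc u v ↔ (σ - 2 * a) % 24 ≤ 2 * b - 2 * a := by
  have q : 0 < Real.pi / 12 := by positivity
  obtain ⟨s, rfl, h⟩ := instC_pos hp
  subst hu hv
  constructor
  · rintro ⟨t, ⟨t1, t2⟩, e⟩
    obtain ⟨n, rfl⟩ := km_inj e
    have c : s ≤ (2 * (b + 12 * n : ℤ) : ℝ) :=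
      le_of_mul_le_mul_right (by push_cast; linarith) q
    have d : (2 * (a + 12 * n : ℤ) : ℝ) ≤ s :=
      le_of_mul_le_mul_right (by push_cast; linarith) q
    have := (h _).2.1 c
    have := (h _).1.1 d
    omega
  · intro k
    obtain ⟨n, hn⟩ : ∃ n : ℤ, n = (σ - 2 * a) / 24 := ⟨_, rfl⟩
    have c := mul_le_mul_of_nonneg_right ((h (b + 12 * n)).2.2 (by omega)) q.le
    have d := mul_le_mul_of_nonneg_right ((h (a + 12 * n)).1.2 (by omega)) q.le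
    push_cast at c d
    exact ⟨_, ⟨by linarith, by linarith⟩, instC_per _ n⟩

theorem instC_sub (τ : ℕ) : oc τ ⊆ ccl τ := by
  unfold oc ccl
  split_ifs
  exacts [subset_rfl, image_mono Ioo_subset_Icc_self]

theorem oc_kc (τ : ℕ) : oc τ ⊆ kc ∧ ccl τ ⊆ kc := by
  have : ccl τ ⊆ kc := by
    unfold ccl
    split_ifs
    · rintro _ rfl; exact (km_val _).1
    · rintro _ ⟨t, -, rfl⟩; exact (km_val _).1
  exact ⟨(instC_sub τ).trans this, this⟩

theorem oc_ccl {p : S3} {σ τ : ℕ} (hσ : σ < 24) (hτ : τ < 24) (hp : p ∈ oc σ) :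
    p ∈ ccl τ ↔ τ = σ ∨ (τ % 2 = 1 ∧ (σ + 1 = τ ∨ (τ + 1) % 24 = σ)) := by
  unfold ccl
  split_ifs with e
  · obtain ⟨a, rfl⟩ : ∃ a, τ = 2 * a := ⟨τ / 2, by omega⟩
    rw [← image_singleton, ← Icc_self, instC_arc hp a a (by push_cast; ring) (by push_cast; ring)]
    omega
  · obtain ⟨a, rfl⟩ : ∃ a, τ = 2 * a + 1 := ⟨τ / 2, by omega⟩
    rw [instC_arc hp a (a + 1) (by push_cast; ring) (by push_cast; ring)]
    omega

theorem oc_ex {p : S3} (hp : p ∈ kc) : ∃! τ, τ < 24 ∧ p ∈ oc τ := by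
  have q : 0 < Real.pi / 12 := by positivity
  obtain ⟨t, -, rfl⟩ := (kc_iff p).1 hp
  obtain ⟨s, ⟨s0, s1⟩, e⟩ := Function.Periodic.exists_mem_Ico₀
    (f := fun s : ℝ => km (-(s * (Real.pi / 12)))) (c := 24) (fun s => by
      beta_reduce; rw [← instC_per _ 1]; congr 1; push_cast; ring) (by norm_num) (-t / (Real.pi / 12))
  have e' : km t = km (-(s * (Real.pi / 12))) := by rw [← e]; congr 1; field_simp
  have k1 := Nat.floor_le (a := s / 2) (by positivity)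
  have k2 := Nat.lt_floor_add_one (s / 2)
  generalize ⌊s / 2⌋₊ = k at k1 k2
  have k3 : k < 12 := by exact_mod_cast (show (k : ℝ) < 12 by linarith)
  refine existsUnique_of_exists_of_unique ?_ fun σ τ a b => ?_
  · rcases (show (2 * k : ℝ) ≤ s by linarith).eq_or_lt with c | c
    · refine ⟨2 * k, by omega, ?_⟩
      rw [oc, if_pos (by omega), e', ← c]
      push_cast
      rfl
    · refine ⟨2 * k + 1, by omega, ?_⟩
      rw [oc, if_neg (by omega), e']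
      refine ⟨_, ⟨neg_lt_neg (mul_lt_mul_of_pos_right ?_ q),
        neg_lt_neg (mul_lt_mul_of_pos_right ?_ q)⟩, rfl⟩ <;> push_cast <;> linarith
  · have := (oc_ccl a.1 b.1 a.2).1 (instC_sub _ b.2)
    have := (oc_ccl b.1 a.1 b.2).1 (instC_sub _ a.2)
    omega

/-- membership in an arc; the cell σ sits at the angle 24 - σ in units of 15 degrees -/
theorem oc_ka {p : S3} {σ m n : ℕ} (hσ : σ < 24) (hp : p ∈ oc σ) (h : m ≤ n) (h' : n ≤ 12) :
    p ∈ ka m n ↔ (2 * m ≤ 24 - σ ∧ 24 - σ ≤ 2 * n) ∨ (σ = 0 ∧ m = 0) := by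
  rw [ka, instC_arc hp (-n) (-m) (by push_cast; ring) (by push_cast; ring)]
  omega

theorem instC_zt (t : ℝ) : zt (km t) = √2 * Real.sin t := by
  have a := (km_val t).1
  have b := (km_val t).2
  have a1 : (km t).1.1.re = 0 := congrArg re a
  have a2 : (km t).1.2.re = 0 := congrArg im a
  have b2 : (km t).1.2.im = Real.sin t := (congrArg im b).trans (exp_ofReal_mul_I_im t)
  simp [zt, a1, a2, b2, mul_comm]

theorem instC_sw (p : S3) (u v : ℝ) :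
    sw p ∈ km '' Icc u v ↔ p ∈ km '' Icc (-(Real.pi / 3) - v) (-(Real.pi / 3) - u) := by
  constructor
  · rintro ⟨t, ⟨a, b⟩, e⟩
    refine ⟨-(Real.pi / 3) - t, ⟨by linarith, by linarith⟩, ?_⟩
    rw [← (km_sym t).2.2.1, e]
    exact DFunLike.congr_fun sw_sw p
  · rintro ⟨t, ⟨a, b⟩, rfl⟩
    exact ⟨_, ⟨by linarith, by linarith⟩, (km_sym t).2.2.1.symm⟩

theorem instC_cj (p : S3) (u v : ℝ) :
    cj p ∈ km '' Icc u v ↔ p ∈ km '' Icc (u - Real.pi) (v - Real.pi) := by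
  constructor
  · rintro ⟨t, ⟨a, b⟩, e⟩
    refine ⟨t - Real.pi, ⟨by linarith, by linarith⟩, cj.injective ?_⟩
    rw [(km_sym _).2.1, sub_add_cancel, e]
  · rintro ⟨t, ⟨a, b⟩, rfl⟩
    exact ⟨_, ⟨by linarith, by linarith⟩, (km_sym t).2.1.symm⟩

theorem instC_sgn {p : S3} (hp : p ∈ kc) : (0 ≤ zt p ↔ p ∈ km '' Icc 0 Real.pi) ∧
    (zt p ≤ 0 ↔ p ∈ km '' Icc (-Real.pi) 0) := by
  have r : (0 : ℝ) < √2 := by positivity
  have k (p : S3) (hp : p ∈ kc) : 0 ≤ zt p ↔ p ∈ km '' Icc 0 Real.pi := by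
    constructor
    · intro h
      obtain ⟨t, ⟨a, b⟩, rfl⟩ := (kc_iff p).1 hp
      refine ⟨t, ⟨a, not_lt.1 fun c => ?_⟩, rfl⟩
      have := Real.sin_neg_of_neg_of_neg_pi_lt (x := t - 2 * Real.pi) (by linarith) (by linarith)
      rw [Real.sin_sub_two_pi] at this
      rw [instC_zt] at h
      nlinarith
    · rintro ⟨t, ⟨a, b⟩, rfl⟩
      rw [instC_zt]
      exact mul_nonneg r.le (Real.sin_nonneg_of_nonneg_of_le_pi a b)
  refine ⟨k p hp, ?_⟩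
  have := k (cj p) ((cj_mem 0 p).2.1.2 hp)
  rw [instC_cj, zero_sub, sub_self] at this
  obtain ⟨t, -, rfl⟩ := (kc_iff p).1 hp
  rw [← this, (km_sym t).2.1, instC_zt, instC_zt, Real.sin_add_pi, mul_neg, neg_nonneg]

theorem instC_symm {a b c d e f : ℕ} (h1 : (c + e) % 3 = a % 3) (h2 : (d + f) % 3 = b % 3)
    (p : S3) : (gg c d).symm (gg a b p) = gg 0 f (gg e 0 p) := by
  rw [Homeomorph.symm_apply_eq, ext_mul, ext_mul, add_zero, add_zero, ← gg_mod, ← gg_mod (c + e),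
    h1, h2]

theorem instC_img (γ : S3 ≃ₜ S3) (Q : Set S3) (x : S3) : x ∈ γ '' Q ↔ γ.symm x ∈ Q :=
  ⟨fun ⟨q, h, e⟩ => by rwa [← e, γ.symm_apply_apply], fun h => ⟨_, h, γ.apply_symm_apply x⟩⟩

theorem instC_it {P : S3 → Prop} (h : ∀ p, P (g 0 p) ↔ P p) (k : ℕ) (p : S3) :
    P (gg 0 k p) ↔ P p := by
  rw [ext_0k]
  induction k with
  | zero => rfl
  | succ k ih => rw [pow_succ', Homeomorph.mul_apply, h, ih]

theorem instC_swg (e f : ℕ) (p : S3) : sw (gg 0 f (gg e 0 p)) = gg 0 e (gg f 0 (sw p)) := by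
  have a (i : Fin 6) (k : ℕ) (p : S3) : sw ((g i ^ k) p) = (g (5 - i) ^ k) (sw p) := by
    induction k with
    | zero => rfl
    | succ k ih =>
      rw [pow_succ', pow_succ', Homeomorph.mul_apply, Homeomorph.mul_apply, ← ih]
      exact DFunLike.congr_fun (sw_g i) _
  rw [ext_mul 0 e, zero_add, add_zero, ext_0k, tubes_g5, a, a]
  rfl

namespace Dat
variable (D : Dat) (x : S3)

theorem st_ps {a b : Fin 3} {p : S3} (hp : p ∈ kc) :
    (D.st (gg a b p)).ps < 24 ∧ p ∈ oc (D.st (gg a b p)).ps := by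
  obtain ⟨τ, h, -⟩ := oc_ex hp
  obtain ⟨k, c, d, e⟩ := Classical.epsilon_spec (p := fun τ => τ < 24 ∧ gg a b p ∈ orb (oc τ))
    ⟨τ, h.1, (ext_orb _ _ _ _).2 ⟨0, 0, (ext_00 p).symm ▸ h.2⟩⟩
  refine ⟨k, ?_⟩
  rw [ext_mul] at e
  rwa [kc_free hp ((oc_kc _).1 e)] at e

theorem st_kps (a b : Fin 3) (h : (D.st x).K a b) : (D.st x).ps < 24 ∧
    ((D.st x).A a ↔ 14 ≤ (D.st x).ps ∧ (D.st x).ps ≤ 20) ∧
    ((D.st x).A (a + 2) ↔ 2 ≤ (D.st x).ps ∧ (D.st x).ps ≤ 8) ∧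
    ((D.st x).B b ↔ 8 ≤ (D.st x).ps ∧ (D.st x).ps ≤ 14) ∧
    ((D.st x).B (b + 2) ↔ 20 ≤ (D.st x).ps ∨ (D.st x).ps ≤ 2) ∧
    ((D.st x).Zp a ↔ 12 ≤ (D.st x).ps ∨ (D.st x).ps = 0) ∧ ((D.st x).Zm a ↔ (D.st x).ps ≤ 12) ∧
    ((D.st x).Tp b ↔ 4 ≤ (D.st x).ps ∧ (D.st x).ps ≤ 16) ∧
    ((D.st x).Tm b ↔ 16 ≤ (D.st x).ps ∨ (D.st x).ps ≤ 4) := by
  obtain ⟨p, hp, rfl⟩ := h
  obtain ⟨h1, h2⟩ := D.st_ps (a := a) (b := b) hp
  have hs := (sw_Kt p).2.2.2 hp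
  have i0 (k q) : gg 0 k q ∈ D.U ↔ q ∈ D.U := instC_it (P := (· ∈ D.U)) (fun q => by
    conv_lhs => rw [← D.pr.inv]
    exact (g 0).injective.mem_set_image) k q
  have z0 (k q) : 0 ≤ zt (gg 0 k q) ↔ 0 ≤ zt q := instC_it (P := fun q => 0 ≤ zt q) (fun q => by
    rw [le_iff_lt_or_eq, le_iff_lt_or_eq, (g_zt q).1, eq_comm, (g_zt q).2, eq_comm]) k q
  have z1 (k q) : zt (gg 0 k q) ≤ 0 ↔ zt q ≤ 0 := instC_it (P := fun q => zt q ≤ 0) (fun q => by
    rw [← not_lt, ← not_lt, (g_zt q).1]) k q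
  have u0 (q) (hq : q ∈ kc) : gg 0 0 q ∈ D.U ↔ q ∈ ka 2 5 := by
    rw [ext_00, ← D.pr.k1]
    exact (and_iff_right hq).symm
  have u1 (q) (hq : q ∈ kc) : gg 1 0 q ∈ D.U ↔ cj q ∈ ka 2 5 := by
    rw [← u0 _ ((cj_mem 0 q).2.1.2 hq), ext_00, tubes_g5, pow_one]
    conv_lhs => rw [← D.pr.invc, ← show cj (cj q) = q from DFunLike.congr_fun cj_cj q]
    exact (g 5 * cj : S3 ≃ₜ S3).injective.mem_set_image
  have w (q : S3) : q ∈ sw '' D.U ↔ sw q ∈ D.U := by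
    conv_lhs => rw [← show sw (sw q) = q from DFunLike.congr_fun sw_sw q]
    exact sw.injective.mem_set_image
  have m (c : Fin 3) : (((c + 2 : Fin 3) : ℕ) + 1) % 3 = c % 3 := by fin_cases c <;> rfl
  simp only [st] at h1 h2 ⊢
  generalize Classical.epsilon (fun τ => τ < 24 ∧ gg a b p ∈ orb (oc τ)) = σ at h1 h2 ⊢
  refine ⟨h1, ?_, ?_, ?_, ?_, ?_, ?_, ?_, ?_⟩
  · rw [instC_img, instC_symm (e := 0) (f := b) (by rw [add_zero]) (by rw [zero_add]), i0, u0 p hp, ka,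
      instC_arc h2 (-5) (-2) (by push_cast; ring) (by push_cast; ring)]
    omega
  · rw [instC_img, instC_symm (e := 1) (f := b) (m a) (by rw [zero_add]), i0, u1 p hp, ka, instC_cj,
      instC_arc h2 1 4 (by push_cast; ring) (by push_cast; ring)]
    omega
  · rw [instC_img, instC_symm (e := a) (f := 0) (by rw [zero_add]) (by rw [add_zero]), w, instC_swg, i0, u0 _ hs,
      ka, instC_sw, instC_arc h2 4 7 (by push_cast; ring) (by push_cast; ring)]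
    omega
  · rw [instC_img, instC_symm (e := a) (f := 1) (by rw [zero_add]) (m b), w, instC_swg, i0, u1 _ hs,
      ka, instC_cj, instC_sw, instC_arc h2 (-2) 1 (by push_cast; ring) (by push_cast; ring)]
    omega
  · rw [instC_symm (e := 0) (f := b) (by rw [add_zero]) (by rw [zero_add]), z0, ext_00, (instC_sgn hp).1,
      instC_arc h2 (-6) 0 (by push_cast; ring) (by push_cast; ring)]
    omega
  · rw [instC_symm (e := 0) (f := b) (by rw [add_zero]) (by rw [zero_add]), z1, ext_00, (instC_sgn hp).2,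
      instC_arc h2 0 6 (by push_cast; ring) (by push_cast; ring)]
    omega
  · rw [instC_symm (e := a) (f := 0) (by rw [zero_add]) (by rw [add_zero]), instC_swg, z0, ext_00,
      (instC_sgn hs).1, instC_sw, instC_arc h2 2 8 (by push_cast; ring) (by push_cast; ring)]
    omega
  · rw [instC_symm (e := a) (f := 0) (by rw [zero_add]) (by rw [add_zero]), instC_swg, z1, ext_00,
      (instC_sgn hs).2, instC_sw, instC_arc h2 (-4) 2 (by push_cast; ring) (by push_cast; ring)]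
    omega

theorem mem_circ {τ : ℕ} (h : τ < 24) (a b : Fin 3) :
    (D.st x).mem τ a b ↔ x ∈ gg a b '' D.base τ := by
  have e1 : (D.st x).mem τ a b ↔ (D.st x).K a b ∧ (τ = (D.st x).ps ∨
      (τ % 2 = 1 ∧ ((D.st x).ps + 1 = τ ∨ (τ + 1) % 24 = (D.st x).ps))) := by
    interval_cases τ <;> exact Iff.rfl
  have e2 : D.base τ = ccl τ := by interval_cases τ <;> rfl
  rw [e1, e2]
  constructor
  · rintro ⟨⟨p, hp, rfl⟩, k⟩
    obtain ⟨h1, h2⟩ := D.st_ps (a := a) (b := b) hp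
    exact ⟨p, (oc_ccl h1 h h2).2 k, rfl⟩
  · rintro ⟨p, k, rfl⟩
    have hp := (oc_kc τ).2 k
    obtain ⟨h1, h2⟩ := D.st_ps (a := a) (b := b) hp
    exact ⟨⟨p, hp, rfl⟩, (oc_ccl h1 h h2).1 k⟩

end Dat

end Pool.Agent.Lib.MP_b7d179_gt.Gm
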