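import Pool.Agent.Lib.MP_b7d179_gt.G.InstA
import Pool.Agent.Lib.MP_b7d179_gt.G.InstC

/-! The state of a point is consistent. -/

namespace Pool.Agent.Lib.MP_b7d179_gt.Gm

open Set Metric Complex Stmt

/-- the images of a free set under a map of order three are disjoint -/
theorem instB_free {γ : S3 ≃ₜ S3} (h3 : γ ^ 3 = 1) {Q : Set S3} (f : Free γ Q) {a a' : Fin 3} {p q : S3}
    (hp : p ∈ Q) (hq : q ∈ Q) (e : (γ ^ (a : ℕ)) p = (γ ^ (a' : ℕ)) q) : a = a' := by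
  have c (z) : γ (γ (γ z)) = z := by
    have : (γ ^ 3 : S3 ≃ₜ S3) z = z := by rw [h3]; rfl
    simpa [pow_succ] using this
  have k1 {p q} (hp : p ∈ Q) (hq : q ∈ Q) : p ≠ γ q := fun e => f q hq (e ▸ hp)
  have k2 {p q} (hp : p ∈ Q) (hq : q ∈ Q) : p ≠ γ (γ q) := fun e => f p hp (by rwa [e, c])
  fin_cases a <;> fin_cases a' <;> simp [pow_succ] at e ⊢
  exacts [k1 hp hq e, k2 hp hq e, k1 hq hp e.symm, k1 hp hq e, k2 hq hp e.symm, k1 hq hp e.symm]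

theorem instB_inv {γ : S3 ≃ₜ S3} {Q : Set S3} (h : γ '' Q = Q) (k : ℕ) (p : S3) :
    (γ ^ k) p ∈ Q ↔ p ∈ Q := t2_pow (P := (· ∈ Q)) (t2_img h) k p

theorem instB_u (a b : ℕ) (p : S3) : gg a b p = gg a 0 ((g 0 ^ b) p) := by simp [gg]

theorem instB_v (a b : ℕ) (p : S3) : gg a b p = gg 0 b ((g 5 ^ a) p) := by
  rw [(t2_gg a b p).2]; simp [gg]

theorem instB_a (a : ℕ) (p : S3) : gg a 0 p = (g 5 ^ a) p := by simp [gg]

theorem instB_b (b : ℕ) (p : S3) : gg 0 b p = (g 0 ^ b) p := by simp [gg]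

/-- sets invariant under the first generator -/
theorem instB_U {Q : Set S3} (h : g 0 '' Q = Q) (a b : ℕ) (p : S3) :
    gg a b p ∈ gg a 0 '' Q ↔ p ∈ Q := by
  rw [instB_u, (gg a 0).injective.mem_set_image, instB_inv h]

/-- sets invariant under the second generator -/
theorem instB_V {Q : Set S3} (h : g 5 '' Q = Q) (a b : ℕ) (p : S3) :
    gg a b p ∈ gg 0 b '' Q ↔ p ∈ Q := by
  rw [instB_v, (gg 0 b).injective.mem_set_image, instB_inv h]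

theorem instB_core (a b : ℕ) (p : S3) : gg a b p ∈ Core ↔ p ∈ Core := by
  rw [(t2_gg a b p).1, t2_pow (P := (· ∈ Core)) fun q => (sym_Vt (γ := g 5) (by simp) q).2.1,
    t2_pow (P := (· ∈ Core)) fun q => (sym_Vt (γ := g 0) (by simp) q).2.1]

theorem instB_cyc {γ : S3 ≃ₜ S3} (h3 : γ ^ 3 = 1) {Q : Set S3} {x : S3} (h : x ∈ cyc γ Q) :
    ∃ a : Fin 3, ∃ p ∈ Q, (γ ^ (a : ℕ)) p = x := by
  obtain ⟨k, hk⟩ := h
  refine ⟨⟨2 * k % 3, Nat.mod_lt _ (by norm_num)⟩, _, hk, ?_⟩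
  rw [← Homeomorph.mul_apply, ← pow_add, ← Nat.div_add_mod (2 * k % 3 + k) 3,
    show (2 * k % 3 + k) % 3 = 0 by omega, add_zero, pow_mul, h3, one_pow]
  rfl

theorem Dat.st_ok (D : Dat) (x : S3) : (D.st x).Ok := by
  obtain ⟨f1, f2, f3, f4⟩ := free_t D.bk D.wl
  have f5 : Free (g 5) (D.X 4 ∪ D.X 3) := fun p a b => by
    have e : rot '' (D.X 4 ∪ D.X 3) = D.X 5 ∪ D.X 4 := by
      rw [image_union, D.bk.rotX, D.bk.rotX]; rfl
    refine f4 (rot p) ((t2_img e p).2 a) ?_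
    rw [show g 0 (rot p) = rot (g 5 p) from (DFunLike.congr_fun (rot_g 5) p).symm]
    exact (t2_img e _).2 b
  have im {a b : ℕ} {Q : Set S3} {p : S3} : gg a b p ∈ gg a b '' Q ↔ p ∈ Q :=
    (gg a b).injective.mem_set_image
  have far (j k : Fin 6) (h : k ≠ j ∧ k ≠ j + 1 ∧ k ≠ j - 1) := D.bk.far j k h.1 h.2.1 h.2.2
  obtain ⟨z1, z2, t1, t2⟩ := D.st_z x
  refine ⟨?_, (D.st_u x).1, (D.st_u x).2, fun a a' h h' => ?_, fun b b' h h' => ?_,
    fun a b b' h h' => ?_, fun b a a' h h' => ?_, fun a h h' => ?_, fun b h h' => ?_,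
    fun a b h h' => ?_, fun a b h h' => ?_, fun a b h h' => ?_, fun a b h h' => ?_,
    fun a b h => ?_, (D.st_n x).1, (D.st_n x).2, fun a => le_total _ _, fun b => le_total _ _,
    z1, z2, t1, t2, D.st_kps x⟩
  · rcases core_cov D.bk D.wl x with h | h | h
    · exact .inl ((D.st_core x).2 h)
    · obtain ⟨a, p, h1, h2⟩ := instB_cyc (g_cube 5) h
      exact .inr (.inl ⟨a, (D.st_F x a).2 ⟨p, h1, (instB_a a p).trans h2⟩⟩)
    · obtain ⟨b, p, h1, h2⟩ := instB_cyc (g_cube 0) h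
      exact .inr (.inr ⟨b, (D.st_G x b).2 ⟨p, h1, (instB_b b p).trans h2⟩⟩)
  · obtain ⟨p, h1, h2⟩ := (D.st_F x a).1 h
    obtain ⟨q, h3, h4⟩ := (D.st_F x a').1 h'
    exact instB_free (g_cube 5) f1 h1 h3 (by rw [← instB_a, ← instB_a, h2, h4])
  · obtain ⟨p, h1, h2⟩ := (D.st_G x b).1 h
    obtain ⟨q, h3, h4⟩ := (D.st_G x b').1 h'
    exact instB_free (g_cube 0) f2 h1 h3 (by rw [← instB_b, ← instB_b, h2, h4])
  · obtain ⟨p, h1, h2⟩ : x ∈ gg a b '' (D.X 2 ∪ D.X 3) := by rw [image_union]; exact h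
    obtain ⟨q, h3, h4⟩ : x ∈ gg a b' '' (D.X 2 ∪ D.X 3) := by rw [image_union]; exact h'
    exact instB_free (g_cube 0) f3 h1 h3 ((gg a 0).injective (by rw [← instB_u, ← instB_u, h2, h4]))
  · obtain ⟨p, h1, h2⟩ : x ∈ gg a b '' (D.X 4 ∪ D.X 3) := by rw [image_union]; exact h
    obtain ⟨q, h3, h4⟩ : x ∈ gg a' b '' (D.X 4 ∪ D.X 3) := by rw [image_union]; exact h'
    exact instB_free (g_cube 5) f5 h1 h3 ((gg 0 b).injective (by rw [← instB_v, ← instB_v, h2, h4]))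
  · obtain ⟨p, h1, h2⟩ := (D.st_F x a).1 h'
    have c := (D.st_core x).1 h
    rw [← h2, instB_core] at c
    exact ((D.st_P x a).1.2 ⟨p, (core_far D.bk D.wl).le ⟨c, h1⟩, h2⟩).1
  · obtain ⟨p, h1, h2⟩ := (D.st_G x b).1 h'
    have c := (D.st_core x).1 h
    rw [← h2, instB_core] at c
    exact ((D.st_P x b).2.2 ⟨p, (core_farV D.bk D.wl).le ⟨c, h1⟩, h2⟩).1
  · obtain ⟨p, rfl⟩ := (gg a b).surjective x
    exact im.2 (D.far_inter.le ⟨(instB_U D.wl.farI a b p).1 ((D.st_F _ a).1 h),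
      (instB_V (farV_rot D.bk D.wl).2 a b p).1 ((D.st_G _ b).1 h')⟩)
  · obtain ⟨p, h1, rfl⟩ := h'
    refine im.2 (h.elim (fun h => ?_) fun h => ?_)
    · have := D.Y_leg.1.le ⟨(instB_U D.Y_inv.1 a b p).1 h, .inr h1⟩
      exact (far 1 3 (by decide)).le ⟨((D.bk.adj 1).ge this).1, h1⟩
    · have := D.Y_leg.2.le ⟨(instB_V D.Y_inv.2 a b p).1 h, .inr h1⟩
      exact (far 3 5 (by decide)).le ⟨h1, ((D.bk.adj 4).ge this).2⟩
  · obtain ⟨p, h1, rfl⟩ := h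
    exact im.2 ((far 2 4 (by decide)).le ⟨h1, im.1 h'⟩)
  · obtain ⟨p, rfl⟩ := (gg a b).surjective x
    have c := core_sub D.bk D.wl ((instB_core a b p).1 ((D.st_core _).1 h))
    exact im.2 (h'.elim (fun h => (far 0 2 (by decide)).le ⟨c, im.1 h⟩)
      fun h => (far 0 4 (by decide)).le ⟨c, im.1 h⟩)
  · obtain ⟨p, h1, rfl⟩ := h
    have c := Pn_sw.ge h1
    exact ⟨(instB_U D.Y_inv.1 a b p).2 (D.Y_core.1.ge c.1).1,
      (instB_V D.Y_inv.2 a b p).2 (D.Y_core.2.ge c.2).1, im.2 ((far 2 4 (by decide)).ge h1).1,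
      im.2 ((far 1 3 (by decide)).ge h1).2, im.2 ((far 2 4 (by decide)).ge h1).2⟩

end Pool.Agent.Lib.MP_b7d179_gt.Gm
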