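import Pool.Agent.Lib.MP_b7d179_gt.G.InstA
import Pool.Agent.Lib.MP_b7d179_gt.G.InstC

/-! The cells of the state are the images of the base cells. -/

namespace Pool.Agent.Lib.MP_b7d179_gt.Gm

open Set Metric Complex Stmt

theorem idd_gg {a b c d e f : ℕ} (h1 : a % 3 = (c + e) % 3) (h2 : b % 3 = (d + f) % 3) (p : S3) :
    gg a b p = gg c d (gg e f p) := by
  rw [← Homeomorph.mul_apply, gg_mul, ← gg_mod a b, h1, h2, gg_mod]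

theorem idd_mem {a b c d : ℕ} (e f : ℕ) (h1 : a % 3 = (c + e) % 3) (h2 : b % 3 = (d + f) % 3)
    (p : S3) (Q : Set S3) : gg a b p ∈ gg c d '' Q ↔ gg e f p ∈ Q := by
  rw [idd_gg h1 h2]
  exact (gg c d).injective.mem_set_image

theorem idd_inv {γ δ : S3 ≃ₜ S3} (h : ∀ p, γ (δ p) = p) (Q : Set S3) (p : S3) :
    p ∈ γ '' Q ↔ δ p ∈ Q := by
  rw [← γ.injective.mem_set_image (a := δ p), h]

theorem idd_cc (p : S3) : cj (cj p) = p := DFunLike.congr_fun cj_cj p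

theorem idd_sc (p : S3) : sw (cj p) = cj (sw p) := Subtype.ext (by
  change lE _ _ _ _ (cjE p.1) = cjE (lE _ _ _ _ p.1)
  simp only [cjE, lE, map_add, map_mul, conj_ofReal])

theorem idd_s0 (p : S3) : sw (g 0 p) = g 5 (sw p) := DFunLike.congr_fun (sw_g 0) p

theorem idd_s5 (p : S3) : sw (g 5 p) = g 0 (sw p) := DFunLike.congr_fun (sw_g 5) p

theorem idd_05 (p : S3) : g 5 (g 0 p) = g 0 (g 5 p) := DFunLike.congr_fun (g_comm 5) p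

theorem idd_gc (p : S3) : g 0 (cj (g 0 (cj p))) = p := by
  have h : cj (g 0 (cj p)) = (g 0 ^ 2 : S3 ≃ₜ S3) (cj (cj p)) := DFunLike.congr_fun (cj_g 0) _
  rw [h, idd_cc, ← Homeomorph.mul_apply, ← pow_succ', g_cube]
  rfl

theorem idd_sw (Q : Set S3) (p : S3) : p ∈ sw '' Q ↔ sw p ∈ Q := idd_inv t2_ss Q p

theorem idd_cj (Q : Set S3) (p : S3) : p ∈ cj '' Q ↔ cj p ∈ Q := idd_inv idd_cc Q p

theorem idd_i1 (Q : Set S3) (p : S3) : p ∈ (g 0 * cj : S3 ≃ₜ S3) '' Q ↔ g 0 (cj p) ∈ Q :=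
  idd_inv (δ := g 0 * cj) idd_gc Q p

theorem idd_i2 (Q : Set S3) (p : S3) :
    p ∈ (sw * g 0 * cj : S3 ≃ₜ S3) '' Q ↔ g 0 (cj (sw p)) ∈ Q :=
  idd_inv (δ := g 0 * cj * sw) (fun q => (congrArg sw (idd_gc (sw q))).trans (t2_ss q)) Q p

theorem idd_i3 (Q : Set S3) (p : S3) : p ∈ (sw * cj : S3 ≃ₜ S3) '' Q ↔ cj (sw p) ∈ Q :=
  idd_inv (δ := cj * sw) (fun q => (congrArg sw (idd_cc (sw q))).trans (t2_ss q)) Q p

theorem idd_zt (p : S3) : (0 ≤ zt (g 0 p) ↔ 0 ≤ zt p) ∧ (zt (g 0 p) ≤ 0 ↔ zt p ≤ 0) := by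
  obtain ⟨a, b⟩ := g_zt p
  refine ⟨?_, by rw [← not_lt, ← not_lt, a]⟩
  rw [le_iff_lt_or_eq, le_iff_lt_or_eq, a, eq_comm, b, eq_comm]

theorem idd_img {γ : S3 ≃ₜ S3} {Q : Set S3} (h : ∀ p, γ p ∈ Q ↔ p ∈ Q) : γ '' Q = Q :=
  Set.ext fun x => by
    obtain ⟨p, rfl⟩ := γ.surjective x
    rw [γ.injective.mem_set_image, h]

namespace Dat
variable (D : Dat)

theorem idd_U (p : S3) : (g 0 p ∈ D.U ↔ p ∈ D.U) ∧ (cj p ∈ D.U ↔ g 5 p ∈ D.U) ∧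
    (g 5 (cj p) ∈ D.U ↔ p ∈ D.U) :=
  ⟨t2_img D.pr.inv p, by rw [← t2_img D.pr.invc (cj p), Homeomorph.mul_apply, idd_cc],
    t2_img D.pr.invc p⟩

theorem idd_st (a b : Fin 3) (p : S3) :
    ((D.st (gg a b p)).A a ↔ p ∈ D.U) ∧ ((D.st (gg a b p)).A (a + 2) ↔ g 5 p ∈ D.U) ∧
    ((D.st (gg a b p)).B b ↔ sw p ∈ D.U) ∧ ((D.st (gg a b p)).B (b + 2) ↔ g 5 (sw p) ∈ D.U) ∧
    ((D.st (gg a b p)).Y a ↔ p ∈ D.Yf) ∧ ((D.st (gg a b p)).W b ↔ p ∈ D.Yv) ∧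
    ((D.st (gg a b p)).Zp a ↔ 0 ≤ zt p) ∧ ((D.st (gg a b p)).Zm a ↔ zt p ≤ 0) ∧
    ((D.st (gg a b p)).Tp b ↔ 0 ≤ zt (sw p)) ∧ ((D.st (gg a b p)).Tm b ↔ zt (sw p) ≤ 0) ∧
    ((D.st (gg a b p)).X0 a b ↔ p ∈ D.X 2) ∧ ((D.st (gg a b p)).X1 a b ↔ p ∈ D.X 3) ∧
    ((D.st (gg a b p)).X2 a b ↔ p ∈ D.X 4) := by
  have u0 : ∀ {P : S3 → Prop}, (∀ q, P (g 0 q) ↔ P q) → (P (gg 0 b p) ↔ P p) := fun h => by
    rw [(t2_gg 0 b p).2]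
    exact t2_pow h b p
  have u5 : ∀ {P : S3 → Prop}, (∀ q, P (g 5 q) ↔ P q) → (P (gg a 0 p) ↔ P p) := fun h => by
    rw [(t2_gg a 0 p).1]
    exact t2_pow h a p
  have e0 : (gg a 0).symm (gg a b p) = gg 0 b p := by
    rw [idd_gg (a := a) (b := b) (c := a) (d := 0) (e := 0) (f := b) rfl (by omega),
      Homeomorph.symm_apply_apply]
  have e5 : (gg 0 b).symm (gg a b p) = gg a 0 p := by
    rw [idd_gg (a := a) (b := b) (c := 0) (d := b) (e := a) (f := 0) (by omega) rfl,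
      Homeomorph.symm_apply_apply]
  have sU : ∀ q, g 5 q ∈ sw '' D.U ↔ q ∈ sw '' D.U := fun q => by
    rw [idd_sw, idd_sw, idd_s5, (D.idd_U _).1]
  refine ⟨(idd_mem 0 b rfl (by omega) p _).trans (u0 (P := (· ∈ D.U)) fun q => (D.idd_U q).1),
    (idd_mem 1 b (by rw [Fin.val_add]; omega) (by omega) p _).trans ?_,
    (idd_mem a 0 (by omega) rfl p _).trans ((u5 (P := (· ∈ sw '' D.U)) sU).trans (idd_sw _ _)),
    (idd_mem a 1 (by omega) (by rw [Fin.val_add]; omega) p _).trans ?_,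
    (idd_mem 0 b rfl (by omega) p _).trans (u0 (P := (· ∈ D.Yf)) (t2_img D.Y_inv.1)),
    (idd_mem a 0 (by omega) rfl p _).trans (u5 (P := (· ∈ D.Yv)) (t2_img D.Y_inv.2)),
    ?_, ?_, ?_, ?_, (gg a b).injective.mem_set_image, (gg a b).injective.mem_set_image,
    (gg a b).injective.mem_set_image⟩
  · rw [(t2_gg 1 b p).2, pow_one]
    exact t2_pow (P := (· ∈ D.U)) (fun q => (D.idd_U q).1) b _
  · rw [(t2_gg a 1 p).1, pow_one, ← idd_s0, ← idd_sw]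
    exact t2_pow (P := (· ∈ sw '' D.U)) sU a _
  · change 0 ≤ zt _ ↔ _
    rw [e0]
    exact u0 (P := fun q => 0 ≤ zt q) fun q => (idd_zt q).1
  · change zt _ ≤ 0 ↔ _
    rw [e0]
    exact u0 (P := fun q => zt q ≤ 0) fun q => (idd_zt q).2
  · change 0 ≤ zt _ ↔ _
    rw [e5]
    exact u5 (P := fun q => 0 ≤ zt (sw q)) fun q => by rw [idd_s5]; exact (idd_zt _).1
  · change zt _ ≤ 0 ↔ _
    rw [e5]
    exact u5 (P := fun q => zt (sw q) ≤ 0) fun q => by rw [idd_s5]; exact (idd_zt _).2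

theorem idd_Y {p : S3} (h : p ∈ D.U ∨ g 5 p ∈ D.U ∨ sw p ∈ D.U ∨ g 5 (sw p) ∈ D.U) :
    (p ∈ D.Yf ↔ p ∈ Pn) ∧ (p ∈ D.Yv ↔ sw p ∈ Pn) := by
  have c5 : ∀ q, g 5 q ∈ Core ↔ q ∈ Core := fun q => (sym_Vt (.inr (.inr (.inr rfl))) q).2.1
  have cs : sw p ∈ Core ↔ p ∈ Core := (sym_Vt (.inl rfl) p).2.1
  have c : p ∈ Core := by
    rcases h with h | h | h | h
    exacts [D.pr.sub h, (c5 _).1 (D.pr.sub h), cs.1 (D.pr.sub h), cs.1 ((c5 _).1 (D.pr.sub h))]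
  rw [← idd_sw, ← D.Y_core.2, ← D.Y_core.1]
  exact ⟨(and_iff_left c).symm, (and_iff_left c).symm⟩

theorem idd_H (p : S3) : (p ∈ D.H 1 ↔ p ∈ D.Yf ∧ p ∈ D.X 2) ∧
    (p ∈ D.H 2 ↔ p ∈ D.X 2 ∧ p ∈ D.X 3) ∧ (p ∈ D.H 3 ↔ p ∈ D.X 3 ∧ p ∈ D.X 4) ∧
    (p ∈ D.H 4 ↔ p ∈ D.X 4 ∧ p ∈ D.Yv) :=
  ⟨⟨fun h => ⟨(D.Y_leg.1.ge h).1, ((D.bk.adj 1).ge h).2⟩, fun h => D.Y_leg.1.le ⟨h.1, .inl h.2⟩⟩,
    by rw [← D.bk.adj 2]; rfl, by rw [← D.bk.adj 3]; rfl,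
    ⟨fun h => ⟨((D.bk.adj 4).ge h).1, (D.Y_leg.2.ge h).1⟩, fun h => D.Y_leg.2.le ⟨h.2, .inl h.1⟩⟩⟩

/-- the base cells as intersections, e.g. base 25 = Pn ∩ g 5 ^ 2 U ∩ sw U -/
theorem mem_iff (x : S3) {τ : ℕ} {a b : Fin 3} (h : Us τ a b) :
    (D.st x).mem τ a b ↔ x ∈ gg a b '' D.base τ := by
  rcases lt_or_ge τ 24 with l | l
  · exact D.mem_circ x l a b
  obtain ⟨p, rfl⟩ := (gg a b).surjective x
  rw [(gg a b).injective.mem_set_image]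
  obtain ⟨h1, h2, h3, h4, h5, h6, h7, h8, h9, h10, h11, h12, h13⟩ := D.idd_st a b p
  obtain ⟨k1, k2, k3, k4⟩ := D.idd_H p
  have y := D.idd_Y (p := p)
  have z : ∀ r : ℝ, r = 0 ↔ 0 ≤ r ∧ r ≤ 0 := fun r => by rw [eq_comm, le_antisymm_iff]
  have u := h.1
  interval_cases τ <;>
    simp only [Pt.mem, base, h1, h2, h3, h4, h5, h6, h7, h8, h9, h10, h11, h12, h13, k1, k2, k3, k4,
      cE, cQ, cR, cHS, cSt, cHex, idd_i1, idd_i2, idd_i3, idd_cj, idd_sw, mem_inter_iff,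
      mem_ofPred_eq, t2_ss, idd_s0, idd_sc, (sym_Pn _).1, (sym_Pn _).2.1, (D.idd_U _).1,
      (D.idd_U _).2.2, (D.idd_U _).2.1, (idd_zt _).1, cj_zt, z (zt _), Left.nonneg_neg_iff] <;>
    clear h1 h2 h3 h4 h5 h6 h7 h8 h9 h10 h11 h12 h13 k1 k2 k3 k4 z h <;>
    generalize (p ∈ D.Yf) = A, (p ∈ D.Yv) = B, (p ∈ Pn) = C, (sw p ∈ Pn) = E, (p ∈ D.U) = F,
      (g 5 p ∈ D.U) = G, (sw p ∈ D.U) = H, (g 5 (sw p) ∈ D.U) = J, zt p = r, zt (sw p) = r' at y ⊢ <;>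
    tauto

theorem base_inv (τ : ℕ) : (τ = 39 ∨ τ = 40 ∨ τ = 43 ∨ τ = 45 → g 0 '' D.base τ = D.base τ) ∧
    (τ = 41 ∨ τ = 42 ∨ τ = 44 ∨ τ = 46 → g 5 '' D.base τ = D.base τ) := by
  constructor
  · rintro (rfl | rfl | rfl | rfl)
    rotate_left 2
    exacts [D.pr.inv, D.Y_inv.1, idd_img fun p => by
      simp only [base, cHex, mem_inter_iff, (sym_Pn _).1, (D.idd_U _).1], idd_img fun p => by
      simp only [base, cHex, idd_cj, mem_inter_iff, (sym_Pn _).1, (sym_Pn _).2.1, (D.idd_U _).2.1,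
        idd_05, (D.idd_U _).1]]
  · rintro (rfl | rfl | rfl | rfl)
    rotate_left 3
    exacts [D.Y_inv.2, idd_img fun p => by
      simp only [base, cHex, idd_sw, idd_s5, mem_inter_iff, (sym_Pn _).1, (D.idd_U _).1],
      idd_img fun p => by
      simp only [base, cHex, idd_i3, idd_s5, mem_inter_iff, (sym_Pn _).1, (sym_Pn _).2.1,
        (D.idd_U _).2.1, idd_05, (D.idd_U _).1], idd_img fun p => by
      simp only [base, idd_sw, idd_s5, (D.idd_U _).1]]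

end Dat

end Pool.Agent.Lib.MP_b7d179_gt.Gm
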