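import Pool.Agent.Lib.MP_b7d179_gt.G.Act

/-! Real lemmas for the curve in one slice, and small tools. -/

namespace Pool.Agent.Lib.MP_b7d179_gt.Gm

open Set Metric Complex Stmt

theorem kap_r : (141 / 100 : ℝ) < √2 ∧ √2 < (142 / 100 : ℝ) :=
  ⟨Real.lt_sqrt_of_sq_lt (by norm_num), Real.sqrt_lt' (by norm_num) |>.2 (by norm_num)⟩

theorem kap_Y {r X X' Y Y' u v k : ℝ} (hX : X ≤ X') (hr : X' < r) (h0 : 0 ≤ u) (huv : u ≤ v)
    (e : Y * (r - X) = u * k) (e' : Y' * (r - X') = v * k) : Y ^ 2 ≤ Y' ^ 2 := by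
  have h1 : 0 < (r - X') ^ 2 := pow_pos (sub_pos.2 hr) 2
  have h2 : (r - X') ^ 2 ≤ (r - X) ^ 2 := pow_le_pow_left₀ (by linarith) (by linarith) 2
  have h3 : u ^ 2 ≤ v ^ 2 := pow_le_pow_left₀ h0 huv 2
  refine le_of_mul_le_mul_right ?_ h1
  calc Y ^ 2 * (r - X') ^ 2 ≤ Y ^ 2 * (r - X) ^ 2 := mul_le_mul_of_nonneg_left h2 (sq_nonneg _)
    _ = u ^ 2 * k ^ 2 := by rw [← mul_pow, e, mul_pow]
    _ ≤ v ^ 2 * k ^ 2 := mul_le_mul_of_nonneg_right h3 (sq_nonneg _)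
    _ = Y' ^ 2 * (r - X') ^ 2 := by rw [← mul_pow, ← e', mul_pow]

theorem kap_X {r X X' Y Y' u v k : ℝ} (hr : 1 < r) (x0 : 0 < X) (h0 : 0 ≤ u) (huv : u ≤ v)
    (e : Y * (r - X) = u * k) (e' : Y' * (r - X') = v * k) (n : X ^ 2 + Y ^ 2 + u = 1)
    (n' : X' ^ 2 + Y' ^ 2 + v = 1) (hX : X ≤ X') : X = X' ∧ u = v := by
  have h1 : X' ≤ 1 := by nlinarith [sq_nonneg Y']
  have h2 := kap_Y hX (by linarith) h0 huv e e'
  have h3 : X ^ 2 ≤ X' ^ 2 := pow_le_pow_left₀ x0.le hX 2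
  refine ⟨?_, by linarith⟩
  exact (pow_left_inj₀ x0.le (x0.le.trans hX) two_ne_zero).1 (by linarith)

theorem kap_root {c d : ℝ} (h : c ^ 2 + d ^ 2 = 1) : ∃ X Y q : ℝ, 0 < q ∧
    Y * (√2 - X) = q * (c * d) ∧ X ^ 2 + Y ^ 2 + q = 1 ∧
    7 / 2 - 3 * √2 * X + X ^ 2 + q * c ^ 2 = 3 / 2 := by
  obtain ⟨r1, r2'⟩ := kap_r
  have hr := r2
  generalize √2 = r at *
  have c0 := sq_nonneg c
  have d0 := sq_nonneg d
  have hc : ContinuousOn (fun X : ℝ => c ^ 2 * (1 - X ^ 2) * (r - X) ^ 2 -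
      (3 * r * X - X ^ 2 - 2) * ((r - X) ^ 2 + (3 * r * X - X ^ 2 - 2) * d ^ 2))
      (Icc (1 / 2) (3 / 4)) := by fun_prop
  have pos : ∀ X ∈ Icc (1 / 2 : ℝ) (3 / 4),
      0 < (r - X) ^ 2 + (3 * r * X - X ^ 2 - 2) * d ^ 2 := fun X hX => by
    have a1 : -(1 / 5) ≤ 3 * r * X - X ^ 2 - 2 := by nlinarith [hX.1, hX.2]
    have a2 : 2 / 5 ≤ (r - X) ^ 2 := by nlinarith [hX.1, hX.2]
    nlinarith [mul_nonneg (sub_nonneg.2 a1) d0]
  obtain ⟨X, hX, e⟩ := intermediate_value_Icc' (by norm_num : (1 / 2 : ℝ) ≤ 3 / 4) hc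
    (show (0 : ℝ) ∈ Icc _ _ from ⟨by
      have a1 : 1 / 2 ≤ 3 * r * (3 / 4) - (3 / 4) ^ 2 - 2 := by linarith
      have a2 : 0 ≤ (r - 3 / 4) ^ 2 := sq_nonneg _
      have a3 := mul_nonneg (le_trans (by norm_num) a1) d0
      have a4 : c ^ 2 * (1 - (3 / 4) ^ 2) ≤ 3 * r * (3 / 4) - (3 / 4) ^ 2 - 2 := by nlinarith
      nlinarith [mul_le_mul_of_nonneg_right a4 a2, mul_nonneg (le_trans (by norm_num) a1) a3], by
      have a1 : 0 ≤ -(3 * r * (1 / 2) - (1 / 2) ^ 2 - 2) := by linarith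
      have a2 := mul_nonneg a1 (pos (1 / 2) ⟨le_rfl, by norm_num⟩).le
      have a3 : 0 ≤ c ^ 2 * (1 - (1 / 2) ^ 2) * (r - 1 / 2) ^ 2 := by positivity
      linarith⟩)
  have p := pos X hX
  have a : 0 < r - X := by linarith [hX.2]
  have m : 0 < 1 - X ^ 2 := by nlinarith [hX.1, hX.2]
  have e' : c ^ 2 * (1 - X ^ 2) * (r - X) ^ 2 -
      (3 * r * X - X ^ 2 - 2) * ((r - X) ^ 2 + (3 * r * X - X ^ 2 - 2) * d ^ 2) = 0 := e
  obtain ⟨q, hq⟩ : ∃ q, q * ((r - X) ^ 2 + (3 * r * X - X ^ 2 - 2) * d ^ 2) =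
      (1 - X ^ 2) * (r - X) ^ 2 := ⟨_, div_mul_cancel₀ _ p.ne'⟩
  have q0 : 0 < q := by
    refine (mul_pos_iff_of_pos_right p).1 ?_
    rw [hq]
    positivity
  have qc : q * c ^ 2 = 3 * r * X - X ^ 2 - 2 :=
    mul_right_cancel₀ p.ne' (by linear_combination c ^ 2 * hq + e')
  obtain ⟨Y, hY⟩ : ∃ Y, Y * (r - X) = q * (c * d) := ⟨_, div_mul_cancel₀ _ a.ne'⟩
  refine ⟨X, Y, q, q0, hY, mul_right_cancel₀ (pow_pos a 2).ne' ?_, by linarith⟩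
  linear_combination hq + (Y * (r - X) + q * (c * d)) * hY + q * d ^ 2 * qc

theorem kap_low {c d q : ℝ} (h : c ^ 2 + d ^ 2 = 1) (q0 : 0 ≤ q) (q1 : q ≤ 3 / 4) :
    ∃ X Y : ℝ, 0 < X ∧ Y * (√2 - X) = q * (c * d) ∧ X ^ 2 + Y ^ 2 + q = 1 := by
  obtain ⟨r1, r2'⟩ := kap_r
  have hr := r2
  generalize √2 = r at *
  have hc : ContinuousOn (fun X : ℝ => (X ^ 2 + q - 1) * (r - X) ^ 2 + (q * (c * d)) ^ 2)
      (Icc 0 1) := by fun_prop
  have k : (c * d) ^ 2 ≤ 1 / 4 := by nlinarith [sq_nonneg (c ^ 2 - d ^ 2)]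
  have neg : ((0 : ℝ) ^ 2 + q - 1) * (r - 0) ^ 2 + (q * (c * d)) ^ 2 < 0 := by
    have a1 : q ^ 2 ≤ 1 := by nlinarith
    have a2 : q ^ 2 * (c * d) ^ 2 ≤ 1 * (1 / 4) := mul_le_mul a1 k (sq_nonneg _) zero_le_one
    have a3 : (r - 0) ^ 2 = 2 := by linarith
    rw [a3, mul_pow]
    linarith
  obtain ⟨X, hX, e⟩ := intermediate_value_Icc zero_le_one hc
    (show (0 : ℝ) ∈ Icc _ _ from ⟨neg.le, by
      have : 0 ≤ q * (r - 1) ^ 2 := by positivity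
      nlinarith [sq_nonneg (q * (c * d))]⟩)
  have e' : (X ^ 2 + q - 1) * (r - X) ^ 2 + (q * (c * d)) ^ 2 = 0 := e
  have a : 0 < r - X := by linarith [hX.2]
  obtain ⟨Y, hY⟩ : ∃ Y, Y * (r - X) = q * (c * d) := ⟨_, div_mul_cancel₀ _ a.ne'⟩
  refine ⟨X, Y, lt_of_le_of_ne hX.1 fun h0 => ?_, hY, mul_right_cancel₀ (pow_pos a 2).ne' ?_⟩
  · rw [← h0] at e'
    exact neg.ne e'
  · linear_combination e' + (Y * (r - X) + q * (c * d)) * hY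

theorem kap_ind {P : Fin 6 → Prop} (h0 : P 0) (hs : ∀ e, P e → P (e + 1)) (e : Fin 6) : P e := by
  have h1 := hs 0 h0
  have h2 := hs _ h1
  have h3 := hs _ h2
  have h4 := hs _ h3
  have h5 := hs _ h4
  fin_cases e
  exacts [h0, h1, h2, h3, h4, h5]

theorem kap_unit {e : ℂ} (he : ‖e‖ = 1) : e.re ^ 2 + e.im ^ 2 = 1 := by
  have h := normSq_eq_norm_sq e
  rw [he, normSq_apply] at h
  linarith

theorem kap_nsq (p : S3) : normSq (xx p.1) + normSq (yy p.1) = 1 := by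
  rw [← nsq_xy]; exact nsq_S3 p

theorem kap_ns {p : S3} {e : ℂ} (he : ‖e‖ = 1) {s : ℝ} (h : yy p.1 = s * e) :
    normSq (xx p.1) + s ^ 2 = 1 := by
  have := kap_nsq p
  rwa [h, normSq_mul, normSq_eq_norm_sq e, he, normSq_ofReal, one_pow, mul_one, ← pow_two] at this

theorem kap_co {p : S3} {e : ℂ} (he : ‖e‖ = 1) {s : ℝ} (h : yy p.1 = s * e) :
    p.1.1.im = s * e.re ∧ p.1.2.im = s * e.im ∧ p.1.1.re ^ 2 + p.1.2.re ^ 2 + s ^ 2 = 1 := by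
  refine ⟨by simpa [yy] using congrArg re h, by simpa [yy] using congrArg im h, ?_⟩
  have := kap_ns he h
  simp only [xx, normSq_apply] at this
  linarith

theorem kap_sl {p : S3} {e : ℂ} (he : ‖e‖ = 1) {s : ℝ} (hs : 0 ≤ s) (h : yy p.1 = s * e) :
    sl (xx p.1) e = p := by
  have h1 : √(1 - normSq (xx p.1)) = s := by
    rw [show 1 - normSq (xx p.1) = s ^ 2 by linarith [kap_ns he h], Real.sqrt_sq hs]
  rw [sl, h1, ← h, xy_coe]

theorem kap_polar (y : ℂ) : ∃ e : ℂ, ‖e‖ = 1 ∧ y = (‖y‖ : ℝ) * e :=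
  ⟨exp (arg y * I), norm_exp_ofReal_mul_I _, (norm_mul_exp_arg_mul_I _).symm⟩

theorem kap_dir {e e' : ℂ} (he : ‖e‖ = 1) (he' : ‖e'‖ = 1) {s t : ℝ} (hs : 0 < s) (ht : 0 < t)
    (h : (s : ℂ) * e = t * e') : s = t ∧ e = e' := by
  have h1 := congrArg norm h
  rw [norm_mul, norm_mul, he, he', norm_real, norm_real, Real.norm_of_nonneg hs.le,
    Real.norm_of_nonneg ht.le, mul_one, mul_one] at h1
  subst h1
  exact ⟨rfl, mul_left_cancel₀ (ofReal_ne_zero.2 hs.ne') h⟩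

theorem kap_m1 : normSq (mv 1) = 1 := by
  have := mv_sq 1
  rw [normSq_apply]
  linarith

theorem kap_sb (p : E) :
    av 0 p = av 1 p ↔ p.2.re * (√2 - p.1.re) = p.1.im * p.2.im := by
  have h := av_sub p
  have h3 : (2 * √3 : ℝ) ≠ 0 := by positivity
  constructor
  · intro e
    rw [e, sub_self] at h
    exact sub_eq_zero.1 ((mul_eq_zero.1 h.symm).resolve_left h3)
  · intro e
    rw [e, sub_self, mul_zero] at h
    exact sub_eq_zero.1 h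

/-- the direction `mv e` is the nearest one -/
def KapS (e : Fin 6) (x : ℂ) : Prop :=
  ∀ j, j ≠ e → ((starRingEnd ℂ) (mv j) * x).re < ((starRingEnd ℂ) (mv e) * x).re

theorem kapS_zero {x : ℂ} (h : √3 * |x.im| < x.re) : KapS 0 x := by
  have h3 : (0 : ℝ) ≤ √3 := Real.sqrt_nonneg 3
  have a1 := mul_le_mul_of_nonneg_left (le_abs_self x.im) h3
  have a2 := mul_le_mul_of_nonneg_left (neg_le_abs x.im) h3
  intro j hj
  fin_cases j
  · exact absurd rfl hj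
  all_goals
    simp [mv]
    linarith

theorem kapS_succ {e : Fin 6} {x : ℂ} (h : KapS e x) : KapS (e + 1) (mv 1 * x) := by
  have k : ∀ j, (starRingEnd ℂ) (mv (j + 1)) * (mv 1 * x) = (starRingEnd ℂ) (mv j) * x := fun j => by
    have := mul_conj (mv 1)
    rw [kap_m1, ofReal_one] at this
    rw [mv_succ, map_mul]
    linear_combination (starRingEnd ℂ) (mv j) * x * this
  intro j hj
  obtain ⟨i, rfl⟩ : ∃ i, j = i + 1 := ⟨j - 1, (sub_add_cancel j 1).symm⟩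
  rw [k, k]
  exact h i fun e => hj (by rw [e])

end Pool.Agent.Lib.MP_b7d179_gt.Gm
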