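import Pool.Agent.Lib.MP_b7d179_gt.G.Basic
import Pool.Agent.Lib.MP_b7d179_gt.G.KitA
import Pool.Agent.Lib.MP_b7d179_gt.G.Kap1

/-! The curve kap 0 and the disc Hp 0 as graphs. -/

namespace Pool.Agent.Lib.MP_b7d179_gt.Gm

open Set Metric Complex Stmt

theorem kap_eq {p : S3} (hp : p ∈ Sb 0) {e : ℂ} (he : ‖e‖ = 1) {s : ℝ} (h : yy p.1 = s * e) :
    p.1.2.re * (√2 - p.1.1.re) = s ^ 2 * (e.re * e.im) := by
  obtain ⟨a, b, -⟩ := kap_co he h
  rw [(kap_sb p.1).1 hp, a, b]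
  ring

/-- On `Sb 0` in one slice (`y = s e`, `q = s²`, `e = c + i d`): X² + q² c² d² / (√2 - X)² + q = 1 and
av 0 = a² + √2 a + q c² - 1/2 with a = √2 - X. So for X > 0 a larger `s` gives a smaller X and a
larger av 0. -/
theorem pure_mono {p q : S3} (hp : p ∈ Sb 0) (hq : q ∈ Sb 0) (xp : 0 < p.1.1.re) (xq : 0 < q.1.1.re)
    {e : ℂ} (he : ‖e‖ = 1) {s t : ℝ} (hs : 0 ≤ s) (yp : yy p.1 = s * e) (yq : yy q.1 = t * e) :
    (s = t → p = q) ∧ (s < t → av 0 p.1 < av 0 q.1) := by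
  have r1 := kap_r.1
  have hr : (1 : ℝ) < √2 := by linarith
  have ep := kap_eq hp he yp
  have eq := kap_eq hq he yq
  obtain ⟨a, -, n⟩ := kap_co he yp
  obtain ⟨a', -, n'⟩ := kap_co he yq
  have x1 : p.1.1.re ≤ 1 := by nlinarith [sq_nonneg p.1.2.re, sq_nonneg s]
  constructor
  · rintro rfl
    have hX : p.1.1.re = q.1.1.re := (le_total p.1.1.re q.1.1.re).elim
      (fun h => (kap_X hr xp (sq_nonneg s) le_rfl ep eq n n' h).1)
      (fun h => (kap_X hr xq (sq_nonneg s) le_rfl eq ep n' n h).1.symm)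
    have hY : p.1.2.re = q.1.2.re := by
      rw [← hX, ← ep] at eq
      exact (mul_right_cancel₀ (by linarith) eq).symm
    exact ext_xy (Complex.ext hX hY) (yp.trans yq.symm)
  · intro hst
    have h2 : s ^ 2 < t ^ 2 := pow_lt_pow_left₀ hst hs two_ne_zero
    have hX : q.1.1.re < p.1.1.re := lt_of_not_ge fun h =>
      h2.ne (kap_X hr xp (sq_nonneg s) h2.le ep eq n n' h).2
    rw [Sb_av hp, Sb_av hq, a, a', mul_pow, mul_pow]
    have b1 := mul_le_mul_of_nonneg_right h2.le (sq_nonneg e.re)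
    have b2 : 0 < (p.1.1.re - q.1.1.re) * (3 * √2 - p.1.1.re - q.1.1.re) :=
      mul_pos (by linarith) (by linarith)
    linarith

theorem kap_Sb {q : S3} (h : q ∈ kap 0) : q ∈ Sb 0 := h.1.trans h.2.symm

theorem kap_pos {p : S3} (hp : p ∈ Sb 0) (h : av 0 p.1 ≤ 3 / 2) : 0 < p.1.1.re :=
  lt_of_le_of_lt (by positivity) (Sb_sec hp h)

/-- a point of `Sb 0` from its coordinates -/
theorem kap_mk {e : ℂ} (he : ‖e‖ = 1) {X Y q : ℝ} (q0 : 0 ≤ q)
    (h1 : Y * (√2 - X) = q * (e.re * e.im)) (h2 : X ^ 2 + Y ^ 2 + q = 1) :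
    ∃ p ∈ Sb 0, p.1.1.re = X ∧ yy p.1 = (√q : ℝ) * e := by
  have k := Real.mul_self_sqrt q0
  obtain ⟨a, b⟩ := xy_val (x := ⟨X, Y⟩) (y := (√q : ℝ) * e) (by
    rw [normSq_mul, normSq_eq_norm_sq e, he, normSq_ofReal, normSq_apply, k]
    linarith)
  have a1 : (xy ⟨X, Y⟩ ((√q : ℝ) * e)).1.1.re = X := congrArg re a
  have a2 : (xy ⟨X, Y⟩ ((√q : ℝ) * e)).1.2.re = Y := congrArg im a
  obtain ⟨b1, b2, -⟩ := kap_co he b
  refine ⟨_, (kap_sb _).2 ?_, a1, b⟩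
  rw [a1, a2, b1, b2, h1]
  linear_combination (-(e.re * e.im)) * k

theorem kap_ex {e : ℂ} (he : ‖e‖ = 1) : ∃! q, q ∈ kap 0 ∧ ∃ s : ℝ, 0 < s ∧ yy q.1 = s * e := by
  obtain ⟨X, Y, q, q0, h1, h2, h3⟩ := kap_root (kap_unit he)
  obtain ⟨p, hp, a, b⟩ := kap_mk he q0.le h1 h2
  have h4 : av 0 p.1 = 3 / 2 := by
    rw [Sb_av hp, a, (kap_co he b).1, mul_pow, Real.sq_sqrt q0.le, h3]
  refine existsUnique_of_exists_of_unique
    ⟨p, ⟨h4, (Eq.symm hp).trans h4⟩, √q, Real.sqrt_pos.2 q0, b⟩ ?_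
  rintro u v ⟨hu, s, s0, yu⟩ ⟨hv, t, t0, yv⟩
  have su := kap_Sb hu
  have sv := kap_Sb hv
  have xu := kap_pos su hu.1.le
  have xv := kap_pos sv hv.1.le
  rcases lt_trichotomy s t with h | h | h
  · exact absurd (hu.1.trans hv.1.symm) ((pure_mono su sv xu xv he s0.le yu yv).2 h).ne
  · exact (pure_mono su sv xu xv he s0.le yu yv).1 h
  · exact absurd (hv.1.trans hu.1.symm) ((pure_mono sv su xv xu he t0.le yv yu).2 h).ne

theorem kap_kp {e : ℂ} (he : ‖e‖ = 1) : kp e ∈ kap 0 ∧ ∃ s : ℝ, 0 < s ∧ yy (kp e).1 = s * e :=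
  Classical.epsilon_spec (kap_ex he).exists

theorem kap_bd {q : S3} (h : q ∈ kap 0) : 1 / 2 < q.1.1.re ∧ q.1.1.re < 3 / 4 ∧ yy q.1 ≠ 0 := by
  obtain ⟨r1, r2'⟩ := kap_r
  have a := Sb_av (kap_Sb h)
  have y := Sb_Y (kap_Sb h)
  have x0 := kap_pos (kap_Sb h) h.1.le
  have n := kap_nsq q
  have n' := n
  rw [h.1] at a
  simp only [xx, yy, normSq_apply] at n
  have b : q.1.1.re < 3 / 4 := by nlinarith [sq_nonneg q.1.2.re, sq_nonneg q.1.2.im]
  refine ⟨by nlinarith [sq_nonneg q.1.1.im], b, fun h0 => ?_⟩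
  rw [h0, normSq_zero] at n'
  simp only [xx, normSq_apply] at n'
  nlinarith

theorem kp_spec {e : ℂ} (he : ‖e‖ = 1) : kp e ∈ kap 0 ∧ sl (xx (kp e).1) e = kp e ∧
    ‖xx (kp e).1‖ < 1 ∧ √3 * |(xx (kp e).1).im| < (xx (kp e).1).re ∧
    8 * (xx (kp e).1).im ^ 2 ≤ 1 ∧ 1 / 2 < (xx (kp e).1).re ∧ (xx (kp e).1).re < 3 / 4 := by
  obtain ⟨h, s, s0, y⟩ := kap_kp he
  refine ⟨h, kap_sl he s0.le y, ?_, Sb_sec (kap_Sb h) h.1.le, Sb_Y (kap_Sb h), (kap_bd h).1,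
    (kap_bd h).2.1⟩
  rw [← sq_lt_one_iff₀ (norm_nonneg _), ← normSq_eq_norm_sq]
  linarith [kap_ns he y, pow_pos s0 2]

theorem kap_iff (q : S3) : q ∈ kap 0 ↔ ∃ e : ℂ, ‖e‖ = 1 ∧ q = kp e := by
  constructor
  · intro h
    obtain ⟨e, he, y⟩ := kap_polar (yy q.1)
    exact ⟨e, he, (kap_ex he).unique ⟨h, _, norm_pos_iff.2 (kap_bd h).2.2, y⟩ (kap_kp he)⟩
  · rintro ⟨e, he, rfl⟩
    exact (kap_kp he).1

theorem kp_cont : ContinuousOn kp (sphere 0 1) := by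
  have cy : Continuous fun q : S3 => yy q.1 := cont_yy.comp continuous_subtype_val
  have val : ∀ e : ℂ, ‖e‖ = 1 → yy (kp e).1 / (‖yy (kp e).1‖ : ℝ) = e := fun e he => by
    obtain ⟨-, s, s0, y⟩ := kap_kp he
    rw [y, norm_mul, he, norm_real, Real.norm_of_nonneg s0.le, mul_one,
      mul_div_cancel_left₀ _ (ofReal_ne_zero.2 s0.ne')]
  have em : Emb (fun q : S3 => yy q.1 / (‖yy q.1‖ : ℝ)) (kap 0) := by
    refine ⟨cy.continuousOn.div (continuous_ofReal.comp cy.norm).continuousOn fun q hq =>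
      ofReal_ne_zero.2 (norm_ne_zero_iff.2 (kap_bd hq).2.2), fun u hu v hv h => ?_⟩
    obtain ⟨e, he, rfl⟩ := (kap_iff u).1 hu
    obtain ⟨e', he', rfl⟩ := (kap_iff v).1 hv
    rw [(val e he).symm.trans (h.trans (val e' he'))]
  obtain ⟨g, hg, l, -⟩ := em.inv (closed_sets 0).2.2.2.2.2.2.2.1.isCompact
  refine (hg.1.mono fun e he => ⟨kp e, (kap_kp (mem_sphere_zero_iff_norm.1 he)).1,
    val e (mem_sphere_zero_iff_norm.1 he)⟩).congr fun e he => ?_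
  have := l _ (kap_kp (mem_sphere_zero_iff_norm.1 he)).1
  rw [val e (mem_sphere_zero_iff_norm.1 he)] at this
  exact this.symm

theorem kap_lt {e : ℂ} (he : ‖e‖ = 1) {t : ℝ} (ht : t ∈ Icc (0 : ℝ) 1) :
    ‖t * xx (kp e).1‖ < 1 ∧ normSq (t * xx (kp e).1) ≤ normSq (xx (kp e).1) := by
  constructor
  · rw [norm_mul, norm_real, Real.norm_of_nonneg ht.1]
    exact lt_of_le_of_lt (mul_le_of_le_one_left (norm_nonneg _) ht.2) (kp_spec he).2.2.1
  · rw [normSq_mul, normSq_ofReal]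
    exact mul_le_of_le_one_left (normSq_nonneg _) (mul_le_one₀ ht.2 ht.1 ht.2)

theorem kap_sq {x : ℂ} (h : ‖x‖ < 1) : 0 < √(1 - normSq x) := by
  rw [Real.sqrt_pos, normSq_eq_norm_sq]
  nlinarith [norm_nonneg x]

theorem Ann_iff (p : S3) : p ∈ Ann 0 ↔
    ∃ e : ℂ, ‖e‖ = 1 ∧ ∃ t ∈ Icc (0 : ℝ) 1, p = sl (t * xx (kp e).1) e := by
  constructor
  · rintro ⟨q, hq, t, ht, s, s0, x, y⟩
    obtain ⟨e, he, rfl⟩ := (kap_iff q).1 hq
    obtain ⟨-, u, u0, y'⟩ := kap_kp he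
    refine ⟨e, he, t, ht, ?_⟩
    rw [← x]
    exact (kap_sl he (mul_pos s0 u0).le (by rw [y, y']; push_cast; ring)).symm
  · rintro ⟨e, he, t, ht, rfl⟩
    obtain ⟨hk, u, u0, y'⟩ := kap_kp he
    have l := (kap_lt he ht).1
    obtain ⟨a, b⟩ := sl_val l.le he
    refine ⟨kp e, hk, t, ht, _, div_pos (kap_sq l) u0, a, ?_⟩
    have := ofReal_ne_zero.2 u0.ne'
    rw [b, y']
    push_cast
    field_simp

theorem kc_Ann (e : Fin 6) : kc ⊆ Ann e := by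
  refine kap_ind (P := fun e => kc ⊆ Ann e) (fun p hp => ?_) (fun e h p hp => ?_) e
  · obtain ⟨-, e, he, h⟩ := sl_surj p
    refine (Ann_iff p).2 ⟨e, he, 0, ⟨le_rfl, zero_le_one⟩, ?_⟩
    rw [ofReal_zero, zero_mul, ← show xx p.1 = 0 from hp, h]
  · obtain ⟨q, rfl⟩ := rot.surjective p
    exact (rot_e e q).2.2.2.2.2.1.2 (h ((rot_Kt q).2.2.1 hp))

theorem closed_Hp (e : Fin 6) : IsClosed (Ann e) ∧ IsClosed (Hp e) := by
  have h : IsClosed (Ann e) := by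
    refine kap_ind (P := fun e => IsClosed (Ann e)) ?_ (fun e h => ?_) e
    · have c1 : ContinuousOn (fun q : ℂ × ℝ => xx (kp q.1).1) (sphere 0 1 ×ˢ Icc 0 1) :=
        (cont_xx.comp continuous_subtype_val).comp_continuousOn
          (kp_cont.comp continuousOn_fst fun _ h => h.1)
      have c2 : ContinuousOn (fun q : ℂ × ℝ => sl (q.2 * xx (kp q.1).1) q.1)
          (sphere 0 1 ×ˢ Icc 0 1) :=
        contOn_sl.comp (f := fun q : ℂ × ℝ => ((q.2 : ℂ) * xx (kp q.1).1, q.1))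
          ((ContinuousOn.mul (by fun_prop) c1).prodMk continuousOn_fst) fun q hq =>
          ⟨mem_closedBall_zero_iff.2 (kap_lt (mem_sphere_zero_iff_norm.1 hq.1) hq.2).1.le, hq.1⟩
      convert (((isCompact_sphere (0 : ℂ) 1).prod isCompact_Icc).image_of_continuousOn
        c2).isClosed using 1
      ext p
      rw [Ann_iff]
      exact ⟨fun ⟨e, he, t, ht, h⟩ => ⟨(e, t), ⟨mem_sphere_zero_iff_norm.2 he, ht⟩, h.symm⟩,
        fun ⟨q, hq, h⟩ => ⟨q.1, mem_sphere_zero_iff_norm.1 hq.1, q.2, hq.2, h.symm⟩⟩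
    · refine rot.isClosed_preimage.1 ?_
      convert h using 1
      exact Set.ext fun q => (rot_e e q).2.2.2.2.2.1
  have c : ∀ j, Continuous fun p : S3 => av j p.1 := fun j =>
    (cont_av j).comp continuous_subtype_val
  exact ⟨h, h.union ((isClosed_eq (c _) (c _)).inter (isClosed_le (c _) continuous_const))⟩

theorem Hp_sec {p : S3} (hp : p ∈ Hp 0) : p ∈ kc ∨ √3 * |p.1.2.re| < p.1.1.re := by
  rcases hp with ⟨q, hq, t, ht, s, -, x, -⟩ | hp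
  · rcases ht.1.eq_or_lt with h | h
    · exact Or.inl (x.trans (by rw [← h, ofReal_zero, zero_mul]))
    · have a : p.1.1.re = t * q.1.1.re := by simpa [xx] using congrArg re x
      have b : p.1.2.re = t * q.1.2.re := by simpa [xx] using congrArg im x
      have := mul_lt_mul_of_pos_left (Sb_sec (kap_Sb hq) hq.1.le) h
      rw [a, b, abs_mul, abs_of_pos h]
      exact Or.inr (by linarith)
  · exact Or.inr (Sb_sec hp.1 hp.2)

theorem kap_x0 {e : ℂ} (he : ‖e‖ = 1) : 0 < normSq (xx (kp e).1) :=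
  normSq_pos.2 fun h => by
    have := (kp_spec he).2.2.2.2.2.1
    rw [h] at this
    norm_num at this

theorem kap_inj {p p' : S3} (hp : p ∈ Ann 0) (hp' : p' ∈ Ann 0) (h : yy p.1 = yy p'.1) :
    p = p' := by
  obtain ⟨e, he, t, ht, rfl⟩ := (Ann_iff p).1 hp
  obtain ⟨e', he', t', ht', rfl⟩ := (Ann_iff p').1 hp'
  have l := (kap_lt he ht).1
  have l' := (kap_lt he' ht').1
  have n := kap_nsq (sl (t * xx (kp e).1) e)
  have n' := kap_nsq (sl (t' * xx (kp e').1) e')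
  rw [h, (sl_val l.le he).1] at n
  rw [(sl_val l'.le he').1] at n'
  rw [(sl_val l.le he).2, (sl_val l'.le he').2] at h
  obtain ⟨-, rfl⟩ := kap_dir he he' (kap_sq l) (kap_sq l') h
  rw [normSq_mul, normSq_ofReal] at n n'
  rw [(mul_self_inj ht.1 ht'.1).1 (mul_right_cancel₀ (kap_x0 he).ne' (by linarith))]

theorem kap_cross {p p' : S3} (hp : p ∈ Ann 0) (hp' : p' ∈ Sb 0) (ha : av 0 p'.1 ≤ 3 / 2)
    (h : yy p.1 = yy p'.1) : p' ∈ Ann 0 := by
  obtain ⟨e, he, t, ht, rfl⟩ := (Ann_iff p).1 hp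
  obtain ⟨hk, u, u0, y⟩ := kap_kp he
  obtain ⟨l, m⟩ := kap_lt he ht
  rw [(sl_val l.le he).2] at h
  have m' : u ≤ √(1 - normSq (t * xx (kp e).1)) :=
    Real.le_sqrt_of_sq_le (by linarith [kap_ns he y])
  have k := pure_mono (kap_Sb hk) hp' (kap_pos (kap_Sb hk) hk.1.le) (kap_pos hp' ha) he u0.le y
    h.symm
  rcases m'.eq_or_lt with m' | m'
  · rw [← k.1 m']
    exact ⟨kp e, hk, 1, ⟨zero_le_one, le_rfl⟩, 1, one_pos, by simp, by simp⟩
  · exact absurd (k.2 m') (not_lt.2 (ha.trans hk.1.ge))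

theorem Hp_graph {y : ℂ} (hy : ‖y‖ ≤ 1) : ∃! p, p ∈ Hp 0 ∧ yy p.1 = y := by
  obtain ⟨e, he, ye⟩ := kap_polar y
  have s0 := norm_nonneg y
  refine existsUnique_of_exists_of_unique ?_ ?_
  · obtain ⟨hk, u, u0, yk⟩ := kap_kp he
    have n := kap_ns he yk
    have x0 := kap_x0 he
    rcases le_or_gt u ‖y‖ with h | h
    · have a1 : u ^ 2 ≤ ‖y‖ ^ 2 := pow_le_pow_left₀ u0.le h 2
      have a2 : 0 ≤ (1 - ‖y‖ ^ 2) / normSq (xx (kp e).1) := div_nonneg (by nlinarith) x0.le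
      have ht : √((1 - ‖y‖ ^ 2) / normSq (xx (kp e).1)) ∈ Icc (0 : ℝ) 1 :=
        ⟨Real.sqrt_nonneg _, Real.sqrt_le_one.2 ((div_le_one x0).2 (by linarith))⟩
      refine ⟨_, Or.inl ((Ann_iff _).2 ⟨e, he, _, ht, rfl⟩), ?_⟩
      rw [(sl_val (kap_lt he ht).1.le he).2, normSq_mul, normSq_ofReal, Real.mul_self_sqrt a2,
        div_mul_cancel₀ _ x0.ne', sub_sub_cancel, Real.sqrt_sq s0, ← ye]
    · have a1 : ‖y‖ ^ 2 < u ^ 2 := pow_lt_pow_left₀ h s0 two_ne_zero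
      have a2 := (kap_co he yk).2.2
      have a3 := (kap_bd hk).1
      obtain ⟨X, Y, X0, h1, h2⟩ := kap_low (kap_unit he) (sq_nonneg ‖y‖)
        (by nlinarith [sq_nonneg (kp e).1.2.re])
      obtain ⟨p, hp, a, b⟩ := kap_mk he (sq_nonneg _) h1 h2
      rw [Real.sqrt_sq s0] at b
      have k := (pure_mono hp (kap_Sb hk) (a ▸ X0) (by linarith) he s0 b yk).2 h
      exact ⟨p, Or.inr ⟨hp, k.le.trans hk.1.le⟩, b.trans ye.symm⟩
  · rintro p p' ⟨hp | hp, a⟩ ⟨hp' | hp', a'⟩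
    · exact kap_inj hp hp' (a.trans a'.symm)
    · exact kap_inj hp (kap_cross hp hp'.1 hp'.2 (a.trans a'.symm)) (a.trans a'.symm)
    · exact kap_inj (kap_cross hp' hp.1 hp.2 (a'.trans a.symm)) hp' (a.trans a'.symm)
    · exact (pure_mono hp.1 hp'.1 (kap_pos hp.1 hp.2) (kap_pos hp'.1 hp'.2) he s0 (a.trans ye)
        (a'.trans ye)).1 rfl

theorem kap_graph (e : Fin 6) : ∀ y : ℂ, ‖y‖ ≤ 1 → ∃! p, p ∈ Hp e ∧ yy p.1 = y := by
  refine kap_ind (P := fun e => ∀ y : ℂ, ‖y‖ ≤ 1 → ∃! p, p ∈ Hp e ∧ yy p.1 = y)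
    (fun _ => Hp_graph) (fun e h y hy => ?_) e
  have m1 : ‖mv 1‖ = 1 := by rw [Complex.norm_def, kap_m1, Real.sqrt_one]
  have m0 : mv 1 ≠ 0 := norm_ne_zero_iff.1 (by rw [m1]; exact one_ne_zero)
  obtain ⟨p, ⟨hp, a⟩, u⟩ := h (y / mv 1) (by rwa [norm_div, m1, div_one])
  refine ⟨rot p, ⟨(rot_e e p).2.2.2.2.2.2.1.2 hp, by rw [yy_rot, a, mul_div_cancel₀ _ m0]⟩, ?_⟩
  rintro q ⟨hq, b⟩
  obtain ⟨q, rfl⟩ := rot.surjective q
  rw [u q ⟨(rot_e e q).2.2.2.2.2.2.1.1 hq, by rw [← b, yy_rot, mul_div_cancel_left₀ _ m0]⟩]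

theorem kap_y (p : S3) : ‖yy p.1‖ ≤ 1 := by
  rw [← sq_le_one_iff₀ (norm_nonneg _), ← normSq_eq_norm_sq]
  linarith [kap_nsq p, normSq_nonneg (xx p.1)]

theorem Hp_param (e : Fin 6) : ∃ f : ℂ → S3, Emb f (closedBall 0 1) ∧ f '' closedBall 0 1 = Hp e ∧
    ∀ y ∈ closedBall (0 : ℂ) 1, yy (f y).1 = y := by
  have em : Emb (fun q : S3 => yy q.1) (Hp e) :=
    ⟨(cont_yy.comp continuous_subtype_val).continuousOn, fun u hu v hv h =>
      (kap_graph e _ (kap_y v)).unique ⟨hu, h⟩ ⟨hv, rfl⟩⟩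
  have i : (fun q : S3 => yy q.1) '' Hp e = closedBall 0 1 := Set.ext fun y =>
    ⟨fun ⟨p, _, h⟩ => h ▸ mem_closedBall_zero_iff.2 (kap_y p),
      fun hy => (kap_graph e y (mem_closedBall_zero_iff.1 hy)).exists⟩
  obtain ⟨g, hg, -, r, k⟩ := em.inv (closed_Hp e).2.isCompact
  have k' := k _ subset_rfl
  rw [i] at hg r k'
  exact ⟨g, hg, k', r⟩

theorem Hp_disc (e : Fin 6) : Disc (Hp e) kc := by
  obtain ⟨f, a, b, c⟩ := Hp_param e
  refine ⟨f, a, b, Subset.antisymm ?_ fun p hp => ?_⟩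
  · rintro _ ⟨y, hy, rfl⟩
    have n := kap_nsq (f y)
    rw [c y (sphere_subset_closedBall hy), normSq_eq_norm_sq y, mem_sphere_zero_iff_norm.1 hy] at n
    exact normSq_eq_zero.1 (by linarith)
  · obtain ⟨y, hy, rfl⟩ := b.ge (Or.inl (kc_Ann e hp))
    have n := kap_nsq (f y)
    rw [c y hy, show xx (f y).1 = 0 from hp, normSq_zero, zero_add] at n
    exact ⟨y, mem_sphere_zero_iff_norm.2 (by rw [Complex.norm_def, n, Real.sqrt_one]), rfl⟩

theorem kap_sec (e : Fin 6) : ∀ p ∈ Hp e, p ∈ kc ∨ KapS e (xx p.1) := by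
  refine kap_ind (P := fun e => ∀ p ∈ Hp e, p ∈ kc ∨ KapS e (xx p.1))
    (fun p hp => (Hp_sec hp).imp_right fun h => kapS_zero h) (fun e h p hp => ?_) e
  obtain ⟨q, rfl⟩ := rot.surjective p
  refine (h q ((rot_e e q).2.2.2.2.2.2.1.1 hp)).imp (rot_Kt q).2.2.2 fun k => ?_
  rw [xx_rot]
  exact kapS_succ k

theorem Hp_inter {e e' : Fin 6} (h : e ≠ e') : Hp e ∩ Hp e' = kc :=
  Subset.antisymm (fun p hp => (kap_sec e p hp.1).elim id fun a => (kap_sec e' p hp.2).elim id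
    fun b => absurd (a e' h.symm) (not_lt.2 (b e h).le))
    fun _ hp => ⟨Or.inl (kc_Ann e hp), Or.inl (kc_Ann e' hp)⟩

/-- sign of the equator function -/
theorem Hp_zt {p : S3} (hp : p ∈ Ann 0 ∪ Sb 0) :
    (0 < zt p ↔ 0 < p.1.2.im) ∧ (zt p = 0 ↔ p.1.2.im = 0) ∧ (zt p = 0 ↔ p.1.2 = 0) := by
  have r1 := kap_r.1
  have le1 : ∀ q : S3, q.1.1.re ≤ 1 := fun q => by
    have n := nsq_S3 q
    simp only [nsq, normSq_apply] at n
    nlinarith [mul_self_nonneg q.1.1.im, mul_self_nonneg q.1.2.re, mul_self_nonneg q.1.2.im]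
  have z : zt p = p.1.2.re * p.1.1.im + p.1.2.im * (√2 - p.1.1.re) := by
    simp only [zt, mul_im, conj_re, conj_im, sub_re, sub_im, ofReal_re, ofReal_im]
    ring
  have x1 : 0 < √2 - p.1.1.re := by linarith [le1 p]
  obtain ⟨A, M, A0, M0, h1, h2⟩ : ∃ A M : ℝ, 0 < A ∧ 0 < M ∧ zt p * A = p.1.2.im * M ∧
      (p.1.2.im = 0 → p.1.2.re = 0) := by
    rcases hp with ⟨q, hq, t, ht, s, s0, x, y⟩ | hp
    · have b : p.1.2.re = t * q.1.2.re := by simpa [xx] using congrArg im x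
      have c : p.1.1.im = s * q.1.1.im := by simpa [yy] using congrArg re y
      have d : p.1.2.im = s * q.1.2.im := by simpa [yy] using congrArg im y
      have e := (kap_sb q.1).1 (kap_Sb hq)
      have x2 : 0 < √2 - q.1.1.re := by linarith [le1 q]
      have t0 := ht.1
      refine ⟨_, t * q.1.1.im ^ 2 + (√2 - p.1.1.re) * (√2 - q.1.1.re), x2, by positivity, ?_,
        fun h => ?_⟩
      · rw [z, b, c, d]
        linear_combination t * s * q.1.1.im * e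
      · rw [d] at h
        rw [(mul_eq_zero.1 h).resolve_left s0.ne', mul_zero] at e
        rw [b, (mul_eq_zero.1 e).resolve_right x2.ne', mul_zero]
    · have e := (kap_sb p.1).1 hp
      refine ⟨_, p.1.1.im ^ 2 + (√2 - p.1.1.re) ^ 2, x1, by positivity, ?_, fun h => ?_⟩
      · rw [z]
        linear_combination p.1.1.im * e
      · rw [h, mul_zero] at e
        exact (mul_eq_zero.1 e).resolve_right x1.ne'
  have k : zt p = 0 ↔ p.1.2.im = 0 := by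
    rw [← mul_eq_zero_iff_right A0.ne', h1, mul_eq_zero_iff_right M0.ne']
  refine ⟨by rw [← mul_pos_iff_of_pos_right A0, h1, mul_pos_iff_of_pos_right M0], k, k.trans
    ⟨fun h => Complex.ext (h2 h) h, fun h => by rw [h, zero_im]⟩⟩

end Pool.Agent.Lib.MP_b7d179_gt.Gm
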