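import Pool.Agent.Lib.MP_b7d179_gt.G.InstB
import Pool.Agent.Lib.MP_b7d179_gt.G.InstD
import Pool.Agent.Lib.MP_b7d179_gt.G.Comb
import Pool.Agent.Lib.MP_b7d179_gt.G.Comb2

/-! The realisation of the masks. -/

namespace Pool.Agent.Lib.MP_b7d179_gt.Gm

open Set Metric Complex Stmt

theorem lab_00 : gg 0 0 = 1 := by rw [gg, pow_zero, pow_zero, one_mul]

theorem lab_0b (b : ℕ) : gg 0 b = g 0 ^ b := by rw [gg, pow_zero, one_mul]

theorem lab_a0 (a : ℕ) : gg a 0 = g 5 ^ a := by rw [gg, pow_zero, mul_one]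

theorem lab_img (γ δ : S3 ≃ₜ S3) (Q : Set S3) : (γ * δ : S3 ≃ₜ S3) '' Q = γ '' (δ '' Q) := by
  rw [image_image]
  rfl

theorem lab_one (Q : Set S3) : (1 : S3 ≃ₜ S3) '' Q = Q := image_id' Q

theorem lab_succ (i : Fin 6) (b : Fin 3) : g i ^ ((b + 1 : Fin 3) : ℕ) = g i * g i ^ (b : ℕ) := by
  rw [← pow_succ', Fin.val_add, Fin.val_one]
  exact (pow_eq_pow_mod _ (g_cube i)).symm

theorem lab_comm : Commute (g 5) (g 0) := g_comm 5

theorem lab_u1 (a b : ℕ) : g 0 * gg a b = gg a b * g 0 :=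
  ((lab_comm.symm.pow_right a).mul_right ((Commute.refl _).pow_right b)).eq

theorem lab_v1 (a b : ℕ) : g 5 * gg a b = gg a b * g 5 :=
  (((Commute.refl _).pow_right a).mul_right (lab_comm.pow_right b)).eq

theorem lab_u2 (a : ℕ) (b : Fin 3) : g 0 * gg a b = gg a (b + 1 : Fin 3) := by
  rw [gg, gg, lab_succ, ← mul_assoc, (lab_comm.symm.pow_right a).eq, mul_assoc]

theorem lab_v2 (a : Fin 3) (b : ℕ) : g 5 * gg a b = gg (a + 1 : Fin 3) b := by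
  rw [gg, gg, lab_succ, mul_assoc]

theorem lab_sw (p : S3) : sw (sw p) = p := congrArg (fun γ : S3 ≃ₜ S3 => γ p) sw_sw

theorem lab_swi (Q : Set S3) (p : S3) : p ∈ sw '' Q ↔ sw p ∈ Q :=
  ⟨fun ⟨q, hq, e⟩ => by rw [← e, lab_sw]; exact hq, fun h => ⟨_, h, lab_sw p⟩⟩

theorem lab_per (s t : ℝ) : km '' Icc (s + 2 * Real.pi) (t + 2 * Real.pi) = km '' Icc s t := by
  rw [← image_add_const_Icc, image_image]
  exact image_congr fun u _ => (km_sym u).2.2.2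

theorem lab_arc {j : ℕ} (h : j < 12) : ccl (2 * j + 1) = ka (12 - (j + 1)) (12 - j) := by
  rw [ccl, if_neg (by omega), ← lab_per, ka, Nat.cast_sub (by omega), Nat.cast_sub h.le]
  congr 2 <;> push_cast <;> ring

theorem lab_cat {l m n : ℕ} (h : l ≤ m) (h' : m ≤ n) : ka m n ∪ ka l m = ka l n := by
  have k : 0 ≤ Real.pi / 6 := by positivity
  rw [ka, ka, ka, ← image_union, union_comm, Icc_union_Icc_eq_Icc
    (mul_le_mul_of_nonneg_right (Nat.cast_le.2 h) k) (mul_le_mul_of_nonneg_right (Nat.cast_le.2 h') k)]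

theorem lab_left {m n : ℕ} (h : m ≤ n) : kv m ∈ ka m n :=
  ⟨_, left_mem_Icc.2 (mul_le_mul_of_nonneg_right (Nat.cast_le.2 h) (by positivity)), rfl⟩

theorem lab_three (a : Fin 3) : a = 0 ∨ a = 0 + 1 ∨ a = 0 + 2 := by revert a; decide

namespace Dat
variable (D : Dat)

theorem lab_car (x : S3) : (D.st x).Car (D.lab x) := Classical.epsilon_spec (D.st_ok x).car

theorem rl : C.Rl D.R := by
  refine ⟨fun a b => ?_, fun a b => ?_, fun a b => ?_⟩ <;> ext x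
  · simp only [R, mem_ofPred_eq, mem_inter_iff, C.bit_and, Bool.and_eq_true]
  · simp only [R, mem_ofPred_eq, mem_union, C.bit_or, Bool.or_eq_true]
  · simp [R, C.bit_df]

theorem lab_mem {τ : ℕ} {a b : Fin 3} (h : Us τ a b) (x : S3) :
    x ∈ D.R (cm τ a b) ↔ (D.st x).mem τ a b := ((D.lab_car x).2 τ a b h).symm

theorem R_cm {τ : ℕ} {a b : Fin 3} (h : Us τ a b) : D.R (cm τ a b) = gg a b '' D.base τ :=
  Set.ext fun x => (D.lab_mem h x).trans (D.mem_iff x h)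

theorem R_base {τ : ℕ} (h : τ < 50) : D.R (cm τ 0 0) = D.base τ := by
  have u : Us τ 0 0 := ⟨h, by unfold L.used; split_ifs <;> rfl⟩
  exact (D.R_cm u).trans (by rw [Fin.val_zero, lab_00, lab_one])

theorem R_all : D.R L.allM = univ := by
  refine eq_univ_of_forall fun x => ?_
  obtain ⟨τ, a, b, h, e⟩ := (D.lab_car x).1
  change L.allM.testBit (D.lab x) = true
  rw [e]
  exact allM_bit h

theorem lab_gU (τ : ℕ) (a b : Fin 3) :
    g 0 '' (gg a b '' D.base τ) = gg a (sU τ b) '' D.base τ := by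
  rw [← lab_img, sU]
  split_ifs with h
  · rw [lab_u1, lab_img, (D.base_inv τ).1 h]
  · rw [lab_u2]

theorem lab_gV (τ : ℕ) (a b : Fin 3) :
    g 5 '' (gg a b '' D.base τ) = gg (sV τ a) b '' D.base τ := by
  rw [← lab_img, sV]
  split_ifs with h
  · rw [lab_v1, lab_img, (D.base_inv τ).2 h]
  · rw [lab_v2]

theorem lab_U (m : ℕ) (x : S3) : g 0 x ∈ D.R (L.shU m) ↔ x ∈ D.R m := by
  obtain ⟨⟨τ, a, b, h, e⟩, k⟩ := D.lab_car x
  have c : (D.st (g 0 x)).Car (ix τ a (sU τ b)) := by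
    refine ⟨⟨τ, a, _, Us_sU.2 h, rfl⟩, fun σ a' b' h' => ?_⟩
    obtain ⟨b'', rfl⟩ := (sU_surj σ b').1
    have u := Us_sU.1 h'
    rw [D.mem_iff _ h', ← lab_gU, (g 0).injective.mem_set_image, ← cm_shU u, shU_bit _ h.1, ← e,
      ← k σ a' b'' u, D.mem_iff _ u]
  change (L.shU m).testBit (D.lab (g 0 x)) = true ↔ m.testBit (D.lab x) = true
  rw [(D.lab_car _).uniq c, shU_bit _ h.1, e]

theorem lab_V (m : ℕ) (x : S3) : g 5 x ∈ D.R (L.shV m) ↔ x ∈ D.R m := by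
  obtain ⟨⟨τ, a, b, h, e⟩, k⟩ := D.lab_car x
  have c : (D.st (g 5 x)).Car (ix τ (sV τ a) b) := by
    refine ⟨⟨τ, _, b, Us_sV.2 h, rfl⟩, fun σ a' b' h' => ?_⟩
    obtain ⟨a'', rfl⟩ := (sU_surj σ a').2
    have u := Us_sV.1 h'
    rw [D.mem_iff _ h', ← lab_gV, (g 5).injective.mem_set_image, ← cm_shV u, shV_bit _ h.1, ← e,
      ← k σ a'' b' u, D.mem_iff _ u]
  change (L.shV m).testBit (D.lab (g 5 x)) = true ↔ m.testBit (D.lab x) = true
  rw [(D.lab_car _).uniq c, shV_bit _ h.1, e]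

theorem su (m : ℕ) : g 0 '' D.R m = D.R (L.shU m) := by
  ext y
  obtain ⟨x, rfl⟩ := (g 0).surjective y
  rw [(g 0).injective.mem_set_image, lab_U]

theorem sv (m : ℕ) : g 5 '' D.R m = D.R (L.shV m) := by
  ext y
  obtain ⟨x, rfl⟩ := (g 5).surjective y
  rw [(g 5).injective.mem_set_image, lab_V]

theorem R_gg (a b m : ℕ) : gg a b '' D.R m = D.R (L.shV^[a] (L.shU^[b] m)) := by
  have hU : ∀ b m : ℕ, (g 0 ^ b : S3 ≃ₜ S3) '' D.R m = D.R (L.shU^[b] m) := fun b => by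
    induction b with
    | zero => exact fun m => lab_one _
    | succ n ih => exact fun m => by rw [pow_succ, lab_img, su, ih, Function.iterate_succ_apply]
  have hV : ∀ a m : ℕ, (g 5 ^ a : S3 ≃ₜ S3) '' D.R m = D.R (L.shV^[a] m) := fun a => by
    induction a with
    | zero => exact fun m => lab_one _
    | succ n ih => exact fun m => by rw [pow_succ, lab_img, sv, ih, Function.iterate_succ_apply]
  rw [gg, lab_img, hU, hV]

theorem lab_ccl {τ : ℕ} (h : τ < 24) : D.R (cm τ 0 0) = ccl τ := by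
  rw [D.R_base (by omega)]
  unfold base
  split <;> first | omega | rfl

theorem R_kv {i : ℕ} (h : i ≤ 12) : D.R (L.kv 0 0 i) = {kv (12 - i)} := by
  have e : L.kv 0 0 i = cm (2 * (i % 12)) 0 0 := by
    rw [cm, if_pos (by omega), if_pos (by omega), L.kv, L.kv]
    congr 2
    omega
  rw [e, D.lab_ccl (by omega), ccl, if_pos (by omega), kv]
  rcases h.eq_or_lt with rfl | h
  · simp
  · rw [Nat.mod_eq_of_lt h, ← (km_sym _).2.2.2, Nat.cast_sub h.le]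
    congr 2
    push_cast
    ring

theorem lab_ka {j : ℕ} (h : j < 12) : D.R (L.ka 0 0 j 1) = ka (12 - (j + 1)) (12 - j) := by
  have e : L.ka 0 0 j 1 = cm (2 * j + 1) 0 0 := by
    rw [cm, if_pos (by omega), if_neg (by omega)]
    congr 1
    omega
  rw [e, D.lab_ccl (by omega), lab_arc h]

theorem R_ka {i n : ℕ} (h : i + n ≤ 12) : D.R (L.ka 0 0 i n) = ka (12 - i - n) (12 - i) := by
  induction n with
  | zero => rw [L.ka, D.R_kv (i := i) h, Nat.sub_zero, ka, Icc_self, image_singleton, kv]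
  | succ n ih =>
    have k := D.lab_ka (j := i + n) (by omega)
    rw [L.ka, L.ka, D.rl.or, D.R_kv (by omega), Nat.add_zero] at k
    have e : 12 - (i + n) = 12 - i - n := by omega
    have e' : 12 - (i + n + 1) = 12 - i - (n + 1) := by omega
    rw [e, e'] at k
    rw [L.ka, D.rl.or, ih (by omega), ← lab_cat (l := 12 - i - (n + 1)) (m := 12 - i - n) (by omega)
      (by omega), ← k, ← union_assoc,
      union_eq_left.2 (singleton_subset_iff.2 (lab_left (Nat.sub_le _ _)))]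
    rfl

theorem R_kap : D.R (L.kap 0 0) = kc := by
  rw [L.kap, D.R_ka le_rfl]
  ext p
  constructor
  · rintro ⟨t, -, rfl⟩
    exact (km_val t).1
  · intro hp
    obtain ⟨t, ht, rfl⟩ := (kc_iff p).1 hp
    refine ⟨t, ⟨?_, ?_⟩, rfl⟩
    · simpa using ht.1
    · have := ht.2
      push_cast
      linarith

theorem lab_o3 (f : ℕ → ℕ) (x : S3) : x ∈ D.R (L.o3 f) ↔ ∃ j : Fin 3, x ∈ D.R (f j) := by
  rw [L.o3, D.rl.orL]
  simp [Fin.exists_fin_succ]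

theorem R_core : D.R L.core = Core := by
  ext x
  rw [L.core, lab_o3, ← D.st_core, Pt.core, ← exists_or]
  refine exists_congr fun j => ?_
  rw [D.rl.or, mem_union]
  exact or_congr (D.lab_mem (τ := 43) (a := j) (b := 0) ⟨by decide, rfl⟩ x)
    (D.lab_mem (τ := 44) (a := 0) (b := j) ⟨by decide, rfl⟩ x)

theorem lab_U0 {σ τ : ℕ} (h : Us σ 0 0) (h' : ∀ j, Us τ 0 j) (x : S3) :
    x ∈ D.R (Nat.lor (cm σ 0 0) (L.o3 fun j => cm τ 0 j)) ↔
      (D.st x).mem σ 0 0 ∨ ∃ j, (D.st x).mem τ 0 j := by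
  rw [D.rl.or, mem_union, lab_o3]
  exact or_congr (D.lab_mem h x) (exists_congr fun j => D.lab_mem (h' j) x)

theorem lab_V0 {σ τ : ℕ} (h : Us σ 0 0) (h' : ∀ j, Us τ j 0) (x : S3) :
    x ∈ D.R (Nat.lor (cm σ 0 0) (L.o3 fun j => cm τ j 0)) ↔
      (D.st x).mem σ 0 0 ∨ ∃ j, (D.st x).mem τ j 0 := by
  rw [D.rl.or, mem_union, lab_o3]
  exact or_congr (D.lab_mem h x) (exists_congr fun j => D.lab_mem (h' j) x)

theorem lab_P (x : S3) : (x ∈ Pn ↔ (D.st x).Y 0 ∧ (D.st x).core) ∧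
    (sw x ∈ Pn ↔ (D.st x).W 0 ∧ (D.st x).core) := by
  have h := D.st_P x 0
  rw [Fin.val_zero, lab_00, lab_one, lab_one, lab_swi, ← D.st_core] at h
  exact ⟨h.1.symm, h.2.symm⟩

theorem lab_Z (x : S3) : (0 ≤ zt x ↔ (D.st x).Zp 0) ∧ (zt x ≤ 0 ↔ (D.st x).Zm 0) ∧
    (0 ≤ zt (sw x) ↔ (D.st x).Tp 0) ∧ (zt (sw x) ≤ 0 ↔ (D.st x).Tm 0) := by
  simp only [st, Fin.val_zero, lab_00]
  exact ⟨Iff.rfl, Iff.rfl, Iff.rfl, Iff.rfl⟩

theorem lab_half : D.R (L.hiU 0) = Pn ∩ {p | 0 ≤ zt p} ∧ D.R (L.loU 0) = Pn ∩ {p | zt p ≤ 0} ∧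
    D.R (L.loV 0) = sw '' (Pn ∩ {p | 0 ≤ zt p}) ∧ D.R (L.hiV 0) = sw '' (Pn ∩ {p | zt p ≤ 0}) := by
  refine ⟨?_, ?_, ?_, ?_⟩ <;> ext x <;> have ok := D.st_ok x
  · refine (D.lab_U0 (σ := 39) (τ := 31) ⟨by decide, rfl⟩ (fun j => ⟨by decide, rfl⟩) x).trans ?_
    refine Iff.trans ?_ (and_congr (D.lab_P x).1 (D.lab_Z x).1).symm
    constructor
    · rintro (h | ⟨j, h⟩)
      · exact ⟨⟨h.1, Or.inl ⟨_, h.2⟩⟩, (ok.zt 0).resolve_right (ok.z1 0 h.1 h.2)⟩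
      · exact ⟨⟨h.1, Or.inr ⟨_, h.2.1⟩⟩, h.2.2⟩
    · rintro ⟨⟨y, ⟨a, h⟩ | ⟨b, h⟩⟩, z⟩
      · rcases lab_three a with rfl | rfl | rfl
        · exact Or.inl ⟨y, h⟩
        · exact (ok.nA 0 y h).elim
        · exact (ok.z2 0 y h z).elim
      · exact Or.inr ⟨b, y, h, z⟩
  · refine (D.lab_U0 (σ := 40) (τ := 32) ⟨by decide, rfl⟩ (fun j => ⟨by decide, rfl⟩) x).trans ?_
    refine Iff.trans ?_ (and_congr (D.lab_P x).1 (D.lab_Z x).2.1).symm
    constructor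
    · rintro (h | ⟨j, h⟩)
      · exact ⟨⟨h.1, Or.inl ⟨_, h.2⟩⟩, (ok.zt 0).resolve_left (ok.z2 0 h.1 h.2)⟩
      · exact ⟨⟨h.1, Or.inr ⟨_, h.2.1⟩⟩, h.2.2⟩
    · rintro ⟨⟨y, ⟨a, h⟩ | ⟨b, h⟩⟩, z⟩
      · rcases lab_three a with rfl | rfl | rfl
        · exact (ok.z1 0 y h z).elim
        · exact (ok.nA 0 y h).elim
        · exact Or.inl ⟨y, h⟩
      · exact Or.inr ⟨b, y, h, z⟩
  · refine (D.lab_V0 (σ := 41) (τ := 33) ⟨by decide, rfl⟩ (fun j => ⟨by decide, rfl⟩) x).trans ?_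
    rw [lab_swi]
    refine Iff.trans ?_ (and_congr (D.lab_P x).2 (D.lab_Z x).2.2.1).symm
    constructor
    · rintro (h | ⟨j, h⟩)
      · exact ⟨⟨h.1, Or.inr ⟨_, h.2⟩⟩, (ok.tt 0).resolve_right (ok.t1 0 h.1 h.2)⟩
      · exact ⟨⟨h.1, Or.inl ⟨_, h.2.1⟩⟩, h.2.2⟩
    · rintro ⟨⟨y, ⟨a, h⟩ | ⟨b, h⟩⟩, z⟩
      · exact Or.inr ⟨a, y, h, z⟩
      · rcases lab_three b with rfl | rfl | rfl
        · exact Or.inl ⟨y, h⟩
        · exact (ok.nB 0 y h).elim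
        · exact (ok.t2 0 y h z).elim
  · refine (D.lab_V0 (σ := 42) (τ := 34) ⟨by decide, rfl⟩ (fun j => ⟨by decide, rfl⟩) x).trans ?_
    rw [lab_swi]
    refine Iff.trans ?_ (and_congr (D.lab_P x).2 (D.lab_Z x).2.2.2).symm
    constructor
    · rintro (h | ⟨j, h⟩)
      · exact ⟨⟨h.1, Or.inr ⟨_, h.2⟩⟩, (ok.tt 0).resolve_left (ok.t2 0 h.1 h.2)⟩
      · exact ⟨⟨h.1, Or.inl ⟨_, h.2.1⟩⟩, h.2.2⟩
    · rintro ⟨⟨y, ⟨a, h⟩ | ⟨b, h⟩⟩, z⟩
      · exact Or.inr ⟨a, y, h, z⟩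
      · rcases lab_three b with rfl | rfl | rfl
        · exact (ok.t1 0 y h z).elim
        · exact (ok.nB 0 y h).elim
        · exact Or.inl ⟨y, h⟩

theorem R_pU : D.R (L.pU 0) = Pn ∧ D.R (L.pV 0) = sw '' Pn := by
  obtain ⟨a, b, c, d⟩ := D.lab_half
  have e : Pn ∩ {p | 0 ≤ zt p} ∪ Pn ∩ {p | zt p ≤ 0} = Pn := by
    rw [← inter_union_distrib_left]
    exact inter_eq_left.2 fun p _ => le_total 0 (zt p)
  exact ⟨by rw [L.pU, D.rl.or, a, b, e], by rw [L.pV, D.rl.or, c, d, ← image_union, union_comm, e]⟩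

theorem R_half : D.R (L.hiU 0) = Pn ∩ {p | 0 ≤ zt p} ∧ D.R (L.loU 0) = Pn ∩ {p | zt p ≤ 0} ∧
    D.R (L.loV 0) = sw '' (Pn ∩ {p | 0 ≤ zt p}) ∧ D.R (L.hiV 0) = sw '' (Pn ∩ {p | zt p ≤ 0}) :=
  D.lab_half

theorem lab_st : D.base 33 ∪ D.base 34 = sw '' cSt D.U := by
  ext x
  have a : (D.st x).A 0 ↔ sw x ∈ sw '' D.U := by
    rw [sw.injective.mem_set_image]
    simp only [st, Fin.val_zero, lab_00, lab_one]
  rw [← D.R_base (by decide), ← D.R_base (by decide), mem_union, lab_swi, cSt, mem_inter_iff,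
    (D.lab_P x).2, ← a]
  refine (or_congr (D.lab_mem (τ := 33) (a := 0) (b := 0) ⟨by decide, rfl⟩ x)
    (D.lab_mem (τ := 34) (a := 0) (b := 0) ⟨by decide, rfl⟩ x)).trans ?_
  constructor
  · rintro (h | h) <;> exact ⟨⟨h.1, Or.inl ⟨_, h.2.1⟩⟩, h.2.1⟩
  · exact fun h => ((D.st_ok x).tt 0).imp (fun k => ⟨h.1.1, h.2, k⟩) fun k => ⟨h.1.1, h.2, k⟩

theorem R_rim : D.R (L.br 43 0 0) = rimU D.U := by
  have a : D.R (L.fc 39 0 0) = cHex D.U := D.R_base (τ := 39) (by decide)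
  have b : D.R (L.fc 40 (0 + 1) 0) = (g 5 * cj : S3 ≃ₜ S3) '' cHex D.U :=
    (D.R_cm (τ := 40) (a := 1) (b := 0) ⟨by decide, rfl⟩).trans
      (by rw [Fin.val_zero, Fin.val_one, lab_a0, pow_one, lab_img]; rfl)
  have c : ∀ j : Fin 3, D.R (Nat.lor (L.fc 30 0 j) (L.stV 0 j)) =
      (g 0 ^ (j : ℕ) : S3 ≃ₜ S3) '' (cR D.U ∪ sw '' cSt D.U) := fun j => by
    rw [L.stV, D.rl.or, D.rl.or, ← lab_st, image_union, image_union, ← lab_0b]
    exact congrArg₂ (· ∪ ·) (D.R_cm (τ := 30) (a := 0) (b := j) ⟨by decide, rfl⟩)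
      (congrArg₂ (· ∪ ·) (D.R_cm (τ := 33) (a := 0) (b := j) ⟨by decide, rfl⟩)
        (D.R_cm (τ := 34) (a := 0) (b := j) ⟨by decide, rfl⟩))
  ext x
  have e : L.br 43 0 0 = Nat.lor (L.fc 39 0 0) (Nat.lor (L.fc 40 (0 + 1) 0)
    (Nat.lor (L.o3 fun j => Nat.lor (L.fc 30 0 j) (L.stV 0 j)) 0)) := rfl
  rw [e, D.rl.or, D.rl.or, D.rl.or, D.rl.zero, union_empty, a, b, rimU, union_assoc, mem_union,
    mem_union, mem_union, mem_union, lab_o3, mem_cyc]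
  simp only [c, Fin.exists_fin_succ, Fin.val_zero, Fin.val_succ, pow_zero, lab_one, zero_add,
    pow_one, mem_union, or_assoc, IsEmpty.exists_iff, or_false, one_add_one_eq_two]

end Dat

end Pool.Agent.Lib.MP_b7d179_gt.Gm
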