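import Pool.Agent.Lib.MP_b7d179_gt.G.Rad

/-! Plane sectors on the circles of points with a given imaginary part. -/

namespace Pool.Agent.Lib.MP_b7d179_gt.Gm

open Set Metric Complex Stmt

/-- real part of `x / nv 0` -/
noncomputable def lensA (x : ℂ) : ℝ := ((starRingEnd ℂ) (nv 0) * x).re

/-- the point with imaginary part `y` and real part in the direction of `z` -/
noncomputable def lensP (y z : ℂ) : S3 := xy (((√(1 - normSq y) / ‖z‖ : ℝ) : ℂ) * z) y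

theorem lens_sd (a b : ℂ) : sd a b = a.re * b.im - a.im * b.re := by
  simp only [sd, mul_im, conj_re, conj_im]; ring

theorem lens_A (x : ℂ) : lensA x = √3 / 2 * x.re - x.im / 2 := by
  simp [lensA, nv]; ring

theorem lens_B (x : ℂ) : sd (nv 0) x = √3 / 2 * x.im + x.re / 2 := by
  simp [lens_sd, nv]; ring

theorem lens_ab (a b : ℂ) : sd a b = lensA a * sd (nv 0) b - sd (nv 0) a * lensA b := by
  rw [lens_A, lens_A, lens_B, lens_B, lens_sd]
  linear_combination (a.im * b.re - a.re * b.im) / 4 * r3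

theorem lens_lin (n a b : ℂ) (s t : ℝ) : sd n (s * a + t * b) = s * sd n a + t * sd n b := by
  simp only [lens_sd, add_re, add_im, mul_re, mul_im, ofReal_re, ofReal_im]; ring

theorem lens_mul (n a : ℂ) (s : ℝ) : sd n (s * a) = s * sd n a := by
  simp only [lens_sd, mul_re, mul_im, ofReal_re, ofReal_im]; ring

theorem lens_self (a : ℂ) : sd a a = 0 := by rw [lens_sd]; ring

theorem lens_anti (a b : ℂ) : sd a b = -sd b a := by rw [lens_sd, lens_sd]; ring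

theorem lens_nsq (p : S3) : normSq (xx p.1) = 1 - normSq (yy p.1) := by
  linarith [nsq_xy p.1, nsq_S3 p]

theorem lens_norm (p : S3) : √(1 - normSq (yy p.1)) = ‖xx p.1‖ := by
  rw [← lens_nsq, normSq_eq_norm_sq, Real.sqrt_sq (norm_nonneg _)]

theorem lens_ne {p q : S3} (h : yy q.1 = yy p.1) (hp : xx p.1 ≠ 0) : xx q.1 ≠ 0 := fun e => by
  apply hp
  rw [← normSq_eq_zero, lens_nsq, ← h, ← lens_nsq, e, normSq_zero]

theorem lens_nrm (q : S3) {s : ℝ} (hs : 0 < s) : lensP (yy q.1) (s * xx q.1) = q := by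
  rw [lensP, lens_norm]
  conv_rhs => rw [← xy_coe q]
  congr 1
  by_cases h : xx q.1 = 0
  · simp [h]
  · have : (‖xx q.1‖ : ℂ) ≠ 0 := by simpa using h
    have : (s : ℂ) ≠ 0 := by simpa using hs.ne'
    rw [norm_mul, norm_real, Real.norm_of_nonneg hs.le]
    push_cast
    field_simp

theorem lens_one (q : S3) : lensP (yy q.1) (xx q.1) = q := by
  simpa using lens_nrm q one_pos

theorem lens_sph {y z : ℂ} (hy : normSq y ≤ 1) (hz : z ≠ 0 ∨ normSq y = 1) :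
    normSq (((√(1 - normSq y) / ‖z‖ : ℝ) : ℂ) * z) + normSq y = 1 := by
  rcases hz with hz | hz
  · have : ‖z‖ ≠ 0 := by simpa using hz
    rw [normSq_mul, normSq_ofReal, normSq_eq_norm_sq z, div_mul_div_comm,
      Real.mul_self_sqrt (by linarith)]
    field_simp
    ring
  · simp [hz]

theorem lens_val {y z : ℂ} (hy : normSq y ≤ 1) (hz : z ≠ 0 ∨ normSq y = 1) :
    xx (lensP y z).1 = ((√(1 - normSq y) / ‖z‖ : ℝ) : ℂ) * z ∧ yy (lensP y z).1 = y :=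
  xy_val (lens_sph hy hz)

theorem lens_uniq {e : Fin 6} {p q : S3} (hp : p ∈ Hp e) (hq : q ∈ Hp e) (h : yy p.1 = yy q.1) :
    p = q := by
  obtain ⟨f, -, i, hf⟩ := Hp_param e
  rw [← i] at hp hq
  obtain ⟨a, ha, rfl⟩ := hp
  obtain ⟨b, hb, rfl⟩ := hq
  rw [hf a ha, hf b hb] at h
  rw [h]

theorem lens_ex (e : Fin 6) (p : S3) : ∃ u ∈ Hp e, yy u.1 = yy p.1 := by
  obtain ⟨f, -, i, hf⟩ := Hp_param e
  have hy : yy p.1 ∈ closedBall (0 : ℂ) 1 := by
    rw [mem_closedBall_zero_iff, ← sq_le_one_iff₀ (norm_nonneg _), ← normSq_eq_norm_sq]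
    linarith [lens_nsq p, normSq_nonneg (xx p.1)]
  exact ⟨f _, i ▸ mem_image_of_mem f hy, hf _ hy⟩

theorem lens_u {u : S3} (hu : u ∈ Hp 0) (h : xx u.1 ≠ 0) :
    0 < lensA (xx u.1) ∧ 0 < sd (nv 0) (xx u.1) ∧ 0 < (xx u.1).re ∧
      sd (nv 0) (xx u.1) < √3 * lensA (xx u.1) := by
  have k : √3 * |(xx u.1).im| < (xx u.1).re := (Hp_sec hu).resolve_left h
  rw [lens_A, lens_B]
  have h3 := r3
  have h4 : 0 < √3 := Real.sqrt_pos.2 (by norm_num)
  have a1 := le_abs_self (xx u.1).im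
  have a2 := neg_abs_le (xx u.1).im
  have a3 := abs_nonneg (xx u.1).im
  generalize |(xx u.1).im| = m at *
  generalize (xx u.1).im = b at *
  generalize (xx u.1).re = a at *
  generalize √3 = t at *
  have b1 : t * b ≤ t * m := by nlinarith
  have b2 : -(t * m) ≤ t * b := by nlinarith
  have b3 : 0 ≤ t * m := by positivity
  have b4 : 3 * m < t * a := by nlinarith
  refine ⟨by linarith, by linarith, by linarith, ?_⟩
  have : t * (t / 2 * a - b / 2) = 3 / 2 * a - t * b / 2 := by linear_combination a / 2 * h3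
  rw [this]
  linarith

theorem lens_v {v : S3} (hv : v ∈ Hp 5) (h : xx v.1 ≠ 0) :
    0 < lensA (xx v.1) ∧ sd (nv 0) (xx v.1) < 0 ∧ 0 < (xx v.1).re := by
  have h1 : sw v ∈ Hp 0 := (sw_e 5 v).2.2.2.2.2.1.2 hv
  have m5 : mv 5 ≠ 0 := fun e => by simpa [mv] using congrArg re e
  obtain ⟨a, b, -, d⟩ := lens_u h1 (by rw [xx_sw]; simpa [m5] using h)
  have e1 : lensA (xx (sw v).1) = lensA (xx v.1) := by
    rw [xx_sw, lens_A, lens_A]
    simp [mv]
    linear_combination (-(xx v.1).im / 4) * r3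
  have e2 : sd (nv 0) (xx (sw v).1) = -sd (nv 0) (xx v.1) := by
    rw [xx_sw, lens_B, lens_B]
    simp [mv]
    linear_combination (-(xx v.1).re / 4) * r3
  rw [e1] at a d
  rw [e2] at b d
  refine ⟨a, by linarith, ?_⟩
  rw [lens_A, lens_B] at d
  have : √3 * (√3 / 2 * (xx v.1).re - (xx v.1).im / 2) =
      3 / 2 * (xx v.1).re - √3 * (xx v.1).im / 2 := by linear_combination (xx v.1).re / 2 * r3
  rw [this] at d
  linarith

theorem lens_uv {u v : S3} (hu : u ∈ Hp 0) (hv : v ∈ Hp 5) (a : xx u.1 ≠ 0) (b : xx v.1 ≠ 0) :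
    0 < sd (xx v.1) (xx u.1) := by
  obtain ⟨a1, a2, -⟩ := lens_u hu a
  obtain ⟨b1, b2, -⟩ := lens_v hv b
  rw [lens_ab]
  nlinarith [mul_pos a1 (neg_pos.2 b2), mul_pos b1 a2]

theorem lens_conn {y : ℂ} (hy : normSq y < 1) {S : Set ℂ} (hS : Convex ℝ S) (h0 : (0 : ℂ) ∉ S)
    (hs : ∀ z ∈ S, ∀ s : ℝ, 0 < s → (s : ℂ) * z ∈ S)
    (hH : ∀ w : S3, yy w.1 = y → xx w.1 ∈ S → w ∉ Hp 0 ∧ w ∉ Hp 5) {p q : S3}
    (yp : yy p.1 = y) (yq : yy q.1 = y) (xp : xx p.1 ∈ S) (xq : xx q.1 ∈ S) (hp : p ∈ Xp 0) :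
    q ∈ Xp 0 := by
  have ne : ∀ z ∈ S, z ≠ 0 := fun z hz e => h0 (e ▸ hz)
  have c : ContinuousOn (lensP y) S := by
    refine contOn_xy.comp (f := fun z : ℂ => (((√(1 - normSq y) / ‖z‖ : ℝ) : ℂ) * z, y)) ?_
      fun z hz => lens_sph hy.le (Or.inl (ne z hz))
    refine ContinuousOn.prodMk (ContinuousOn.mul ?_ continuousOn_id) continuousOn_const
    exact continuous_ofReal.comp_continuousOn (continuousOn_const.div continuous_norm.continuousOn
      fun z hz => by simpa using ne z hz)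
  have mem : ∀ w : S3, yy w.1 = y → xx w.1 ∈ S → w ∈ lensP y '' S := fun w h1 h2 =>
    ⟨_, h2, h1 ▸ lens_one w⟩
  have dj : ∀ w ∈ lensP y '' S, w ∈ Xp 0 → ∀ j, j ≠ 0 → w ∉ Xp j := by
    rintro _ ⟨z, hz, rfl⟩ h1 j hj h2
    obtain ⟨e1, e2⟩ := lens_val hy.le (Or.inl (ne z hz))
    have hx : xx (lensP y z).1 ∈ S := e1 ▸ hs z hz _
      (div_pos (Real.sqrt_pos.2 (by linarith)) (norm_pos_iff.2 (ne z hz)))
    obtain ⟨n0, n5⟩ := hH _ e2 hx
    by_cases j1 : j = 0 + 1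
    · exact n0 (Xp_adj 0 ▸ ⟨h1, j1 ▸ h2⟩)
    by_cases j5 : j = 5
    · exact n5 (Xp_adj 5 ▸ ⟨j5 ▸ h2, h1⟩)
    exact ne _ hx (show lensP y z ∈ kc from Xp_far hj j1 j5 ▸ ⟨h1, h2⟩)
  rcases isPreconnected_iff_subset_of_disjoint_closed.1 (hS.isPreconnected.image _ c) (Xp 0)
    (⋃ j ∈ {j : Fin 6 | j ≠ 0}, Xp j) (closed_Xp 0).2
    ((toFinite _).isClosed_biUnion fun j _ => (closed_Xp j).2)
    (fun w _ => by
      obtain ⟨j, hj⟩ := Xp_cov w
      by_cases j0 : j = 0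
      · exact Or.inl (j0 ▸ hj)
      · exact Or.inr (mem_biUnion j0 hj))
    (eq_empty_of_forall_notMem fun w hw => by
      obtain ⟨j, hj, h⟩ := mem_iUnion₂.1 hw.2.2
      exact dj w hw.1 hw.2.1 j hj h) with h | h
  · exact h (mem q yq xq)
  · obtain ⟨j, hj, h⟩ := mem_iUnion₂.1 (h (mem p yp xp))
    exact (dj p (mem p yp xp) hp j hj h).elim

theorem lens_half (a : ℂ) : Convex ℝ {z | 0 < sd a z} ∧ Convex ℝ {z | sd a z < 0} := by
  have l : IsLinearMap ℝ (sd a) :=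
    ⟨fun x y => by simpa using lens_lin a x y 1 1, fun s x => lens_mul a x s⟩
  exact ⟨convex_halfSpace_gt l 0, convex_halfSpace_lt l 0⟩

theorem lens_ray {y : ℂ} (hy : normSq y < 1) : ∃ p q : S3, ∃ r : ℝ, 0 < r ∧ yy p.1 = y ∧
    yy q.1 = y ∧ xx p.1 = r * nv 0 ∧ xx q.1 = (-r : ℝ) * nv 0 ∧ p ∈ Xp 0 ∧ q ∉ Xp 0 := by
  have hr : 0 < √(1 - normSq y) := Real.sqrt_pos.2 (by linarith)
  have n1 : normSq (nv 0) = 1 := by rw [normSq_apply]; linarith [nv_sq 0]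
  have k : ∀ s : ℝ, s * s = 1 - normSq y → normSq ((s : ℂ) * nv 0) + normSq y = 1 := fun s h => by
    rw [normSq_mul, normSq_ofReal, n1]; linarith
  have h2 := Real.mul_self_sqrt (show 0 ≤ 1 - normSq y by linarith)
  obtain ⟨a1, a2⟩ := xy_val (k _ h2)
  obtain ⟨b1, b2⟩ := xy_val (k (-√(1 - normSq y)) (by linarith))
  refine ⟨_, _, _, hr, a2, b2, a1, b1, ?_, fun h => ?_⟩
  · obtain ⟨j, hj⟩ := Xp_cov (xy (√(1 - normSq y) * nv 0) y)
    exact Xp_ray hj hr a1 ▸ hj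
  · have h3 := (rot_v 2 _).2.2.2.1.2 ((rot_v 1 _).2.2.2.1.2 ((rot_v 0 _).2.2.2.1.2 h))
    refine absurd (Xp_ray h3 hr ?_) (by decide)
    rw [xx_rot, xx_rot, xx_rot, b1]
    push_cast
    linear_combination (-(√(1 - normSq y) : ℝ) * nv 0 * (mv 1 + 1) : ℂ) * act_m

theorem lens_par {a b : ℂ} (h : normSq a = normSq b) (h' : sd a b = 0) : b = a ∨ b = -a := by
  rw [lens_sd] at h'
  rw [normSq_apply, normSq_apply] at h
  have k : (a.re * b.re + a.im * b.im - (a.re * a.re + a.im * a.im)) *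
      (a.re * b.re + a.im * b.im + (a.re * a.re + a.im * a.im)) = 0 := by
    linear_combination (-(a.re * a.re + a.im * a.im)) * h - (a.re * b.im - a.im * b.re) * h'
  rcases mul_eq_zero.1 k with k | k
  · left
    rw [← sub_eq_zero, ← normSq_eq_zero, normSq_apply, sub_re, sub_im]
    linear_combination -2 * k - h
  · right
    rw [← sub_eq_zero, ← normSq_eq_zero, normSq_apply, sub_re, sub_im, neg_re, neg_im]
    linear_combination 2 * k - h

theorem lens_HX : Hp 0 ⊆ Xp 0 ∧ Hp 5 ⊆ Xp 0 :=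
  ⟨fun _ h => (Xp_adj 0 ▸ h : _ ∈ Xp 0 ∩ Xp (0 + 1)).1,
    fun _ h => (Xp_adj 5 ▸ h : _ ∈ Xp 5 ∩ Xp (5 + 1)).2⟩

end Pool.Agent.Lib.MP_b7d179_gt.Gm
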