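import Pool.Agent.Lib.MP_b7d179_gt.G.Rad
import Pool.Agent.Lib.MP_b7d179_gt.G.KitB
import Pool.Agent.Lib.MP_b7d179_gt.G.Lens1

/-! The first level lenses are balls. -/

namespace Pool.Agent.Lib.MP_b7d179_gt.Gm

open Set Metric Complex Stmt

/-- On the circle of points with given `y` the six closed sets `Xp j` meet only in the six points of
the `Hp e`, one in each open sector between `nv e` and `nv (e + 1)` (Hp_sec), and the direction
`nv j` is in `Xp j` only (Xp_ray): connectedness of the arcs. -/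
theorem Xp_sector {p u v : S3} (hu : u ∈ Hp 0) (hv : v ∈ Hp 5) (yu : yy u.1 = yy p.1)
    (yv : yy v.1 = yy p.1) :
    p ∈ Xp 0 ↔ sd (xx u.1) (xx p.1) ≤ 0 ∧ 0 ≤ sd (xx v.1) (xx p.1) := by
  by_cases h0 : xx p.1 = 0
  · refine iff_of_true (lens_HX.1 (Or.inl (kc_Ann 0 h0))) ?_
    simp [h0, sd]
  have u0 := lens_ne yu h0
  have v0 := lens_ne yv h0
  have hy : normSq (yy p.1) < 1 := by linarith [lens_nsq p, normSq_pos.2 h0]
  have uv := lens_uv hu hv u0 v0
  have vu : sd (xx u.1) (xx v.1) < 0 := by rw [lens_anti]; linarith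
  obtain ⟨-, bu, -⟩ := lens_u hu u0
  obtain ⟨-, bv, -⟩ := lens_v hv v0
  obtain ⟨a, b, r, hr, ya, yb, xa, xb, ha, hb⟩ := lens_ray hy
  have eu : ∀ w : S3, yy w.1 = yy p.1 → w ∈ Hp 0 → w = u := fun w h k =>
    lens_uniq k hu (h.trans yu.symm)
  have ev : ∀ w : S3, yy w.1 = yy p.1 → w ∈ Hp 5 → w = v := fun w h k =>
    lens_uniq k hv (h.trans yv.symm)
  constructor
  · intro hp
    constructor <;> by_contra! h
    · refine hb (lens_conn hy (lens_half (xx u.1)).1 (by simp [sd]) (fun z hz s hs => ?_)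
        (fun w h1 h2 => ⟨fun k => ?_, fun k => ?_⟩) rfl yb h ?_ hp)
      · rw [mem_ofPred_eq, lens_mul]; exact mul_pos hs hz
      · rw [eu w h1 k, mem_ofPred_eq, lens_self] at h2; exact lt_irrefl _ h2
      · rw [ev w h1 k, mem_ofPred_eq] at h2; linarith
      · rw [mem_ofPred_eq, xb, lens_mul, lens_anti]; nlinarith
    · refine hb (lens_conn hy (lens_half (xx v.1)).2 (by simp [sd]) (fun z hz s hs => ?_)
        (fun w h1 h2 => ⟨fun k => ?_, fun k => ?_⟩) rfl yb h ?_ hp)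
      · rw [mem_ofPred_eq, lens_mul]; exact mul_neg_of_pos_of_neg hs hz
      · rw [eu w h1 k, mem_ofPred_eq] at h2; linarith
      · rw [ev w h1 k, mem_ofPred_eq, lens_self] at h2; exact lt_irrefl _ h2
      · rw [mem_ofPred_eq, xb, lens_mul, lens_anti]; nlinarith
  · rintro ⟨h1, h2⟩
    have ng : ∀ c d : ℂ, sd c (-d) = -sd c d := fun c d => by simp [sd]
    rcases h1.eq_or_lt with h1 | h1
    · rcases lens_par (by rw [lens_nsq, lens_nsq, yu]) h1 with k | k
      · exact lens_HX.1 (ext_xy k yu.symm ▸ hu)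
      · rw [k, ng] at h2; linarith
    rcases h2.eq_or_lt with h2 | h2
    · rcases lens_par (by rw [lens_nsq, lens_nsq, yv]) h2.symm with k | k
      · exact lens_HX.2 (ext_xy k yv.symm ▸ hv)
      · rw [k, ng] at h1; linarith
    refine lens_conn hy ((lens_half (xx u.1)).2.inter (lens_half (xx v.1)).1) (by simp [sd])
      (fun z hz s hs => ⟨?_, ?_⟩) (fun w h1 h2 => ⟨fun k => ?_, fun k => ?_⟩) ya rfl ⟨?_, ?_⟩
      ⟨h1, h2⟩ ha
    · rw [mem_ofPred_eq, lens_mul]; exact mul_neg_of_pos_of_neg hs hz.1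
    · rw [mem_ofPred_eq, lens_mul]; exact mul_pos hs hz.2
    · have := h2.1; rw [eu w h1 k, mem_ofPred_eq, lens_self] at this; exact lt_irrefl _ this
    · have := h2.2; rw [ev w h1 k, mem_ofPred_eq, lens_self] at this; exact lt_irrefl _ this
    · rw [mem_ofPred_eq, xa, lens_mul, lens_anti]; nlinarith
    · rw [mem_ofPred_eq, xa, lens_mul, lens_anti]; nlinarith

theorem lens_dec {p u v : S3} (hp : p ∈ Xp 0) (h0 : xx p.1 ≠ 0) (hu : u ∈ Hp 0) (hv : v ∈ Hp 5)
    (yu : yy u.1 = yy p.1) (yv : yy v.1 = yy p.1) : ∃ s : ℝ, 0 < s ∧ ∃ t ∈ Icc (0 : ℝ) 1,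
      ((1 - t : ℝ) : ℂ) * xx v.1 + t * xx u.1 = s * xx p.1 := by
  obtain ⟨h1, h2⟩ := (Xp_sector hu hv yu yv).1 hp
  have uv := lens_uv hu hv (lens_ne yu h0) (lens_ne yv h0)
  have cr : (sd (xx v.1) (xx u.1) : ℂ) * xx p.1 =
      (-sd (xx u.1) (xx p.1) : ℝ) * xx v.1 + (sd (xx v.1) (xx p.1) : ℝ) * xx u.1 := by
    apply Complex.ext <;>
      simp only [lens_sd, add_re, add_im, mul_re, mul_im, ofReal_re, ofReal_im] <;> ring
  generalize sd (xx v.1) (xx u.1) = d at *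
  generalize sd (xx u.1) (xx p.1) = a at *
  generalize sd (xx v.1) (xx p.1) = b at *
  have hm : 0 < b - a := by
    by_contra! h
    have a0 : a = 0 := by linarith
    have b0 : b = 0 := by linarith
    simp [a0, b0, h0, uv.ne'] at cr
  refine ⟨d / (b - a), div_pos uv hm, b / (b - a), ⟨div_nonneg h2 hm.le,
    (div_le_one hm).2 (by linarith)⟩, ?_⟩
  have : ((b : ℂ) - a) ≠ 0 := by exact_mod_cast hm.ne'
  push_cast at cr ⊢
  field_simp
  linear_combination -cr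

theorem lens_fun {p : S3} (hp : p ∈ Xp 0) (h0 : xx p.1 ≠ 0) :
    0 < lensA (xx p.1) ∧ 0 < (xx p.1).re := by
  obtain ⟨u, hu, yu⟩ := lens_ex 0 p
  obtain ⟨v, hv, yv⟩ := lens_ex 5 p
  obtain ⟨s, hs, t, ⟨t0, t1⟩, e⟩ := lens_dec hp h0 hu hv yu yv
  obtain ⟨a1, -, a2, -⟩ := lens_u hu (lens_ne yu h0)
  obtain ⟨b1, -, b2⟩ := lens_v hv (lens_ne yv h0)
  have e1 := congrArg re e
  have e2 := congrArg im e
  simp only [add_re, add_im, mul_re, mul_im, ofReal_re, ofReal_im] at e1 e2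
  have cv : ∀ a b : ℝ, 0 < a → 0 < b → 0 < (1 - t) * a + t * b := fun a b ha hb => by
    rcases t0.eq_or_lt with h | h
    · rw [← h]; linarith
    · nlinarith [mul_pos h hb, mul_nonneg (sub_nonneg.2 t1) ha.le]
  constructor
  · refine (mul_pos_iff_of_pos_left hs).1 ((cv _ _ b1 a1).trans_eq ?_)
    rw [lens_A, lens_A, lens_A]
    linear_combination √3 / 2 * e1 - e2 / 2
  · exact (mul_pos_iff_of_pos_left hs).1 ((cv _ _ b2 a2).trans_eq (by linear_combination e1))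

theorem Xp_pos {p : S3} (hp : p ∈ Xp 0) : p ∈ kc ∨ 0 < ((starRingEnd ℂ) (nv 0) * xx p.1).re :=
  or_iff_not_imp_left.2 fun h => (lens_fun hp h).1

theorem Aj_mid {p : S3} (hp : p ∈ Aj 0) (h : sd (nv 0) (xx p.1) = 0) : ∃ t, p = Mm t := by
  obtain ⟨d, e, hd, he, k⟩ := Aj_rad hp
  obtain ⟨r0, r1, -⟩ := Rad_spec.2 d e hd he
  have hx : xx p.1 = Rad d e * d := k ▸ (sl_val (by
    rw [norm_mul, hd, norm_real, Real.norm_of_nonneg r0.le]; linarith) he).1
  have d0 : d ≠ 0 := fun e => by simp [e] at hd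
  have a := (lens_fun (Or.inl ((Six_Kt 0).2.2.2 hp)) (by rw [hx]; simp [d0, r0.ne'])).1
  rw [hx, lens_mul, mul_eq_zero, or_iff_right r0.ne'] at h
  have n1 : normSq (nv 0) = 1 := by rw [normSq_apply]; linarith [nv_sq 0]
  obtain ⟨t, rfl⟩ := (Complex.norm_eq_one_iff e).1 he
  rcases lens_par (by rw [n1, normSq_eq_norm_sq, hd, one_pow]) h with q | q
  · exact ⟨t, by rw [k, q, Mm]⟩
  · exfalso
    have : lensA (xx p.1) = -Rad d (exp (t * I)) := by
      rw [hx, lensA, ← mul_assoc, mul_comm _ ((_ : ℝ) : ℂ), mul_assoc, re_ofReal_mul]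
      generalize Rad d _ = r
      rw [q, mul_neg, ← normSq_eq_conj_mul_self, n1]
      simp
    linarith

theorem Six_side {p : S3} (hp : p ∈ Six 1) : 0 ≤ sd (nv 0) (xx p.1) := by
  obtain ⟨q, rfl⟩ := rot.surjective p
  have e : sd (nv 0) (xx (rot q).1) = (xx q.1).re := by
    rw [xx_rot, lens_B]
    simp [mv]
    linear_combination ((xx q.1).re / 4) * r3
  rw [e]
  by_cases h : xx q.1 = 0
  · simp [h]
  · exact (lens_fun (Or.inl ((rot_v 0 q).2.2.1.1 hp)) h).2.le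

theorem lens_ball : Ball (Xp 0) (Hp 5 ∪ Hp 0) := by
  obtain ⟨u, eu, iu, yu⟩ := Hp_param 0
  obtain ⟨v, ev, iv, yv⟩ := Hp_param 5
  have hu : ∀ y ∈ closedBall (0 : ℂ) 1, u y ∈ Hp 0 := fun y h => iu ▸ mem_image_of_mem u h
  have hv : ∀ y ∈ closedBall (0 : ℂ) 1, v y ∈ Hp 5 := fun y h => iv ▸ mem_image_of_mem v h
  let w : ℂ × ℝ → ℂ := fun x => ((1 - x.2 : ℝ) : ℂ) * xx (v x.1).1 + x.2 * xx (u x.1).1
  have le : ∀ y ∈ closedBall (0 : ℂ) 1, normSq y ≤ 1 := fun y h => by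
    rw [normSq_eq_norm_sq, sq_le_one_iff₀ (norm_nonneg _)]; exact mem_closedBall_zero_iff.1 h
  have sp : ∀ y : ℂ, y ∈ sphere (0 : ℂ) 1 ↔ normSq y = 1 := fun y => by
    rw [mem_sphere_zero_iff_norm, normSq_eq_norm_sq, pow_eq_one_iff_of_nonneg (norm_nonneg _)
      two_ne_zero]
  have uv : ∀ y ∈ closedBall (0 : ℂ) 1, normSq y ≠ 1 → 0 < sd (xx (v y).1) (xx (u y).1) :=
    fun y h k => lens_uv (hu y h) (hv y h)
      (fun e => k (by linarith [lens_nsq (u y), yu y h ▸ e ▸ lens_nsq (u y), normSq_zero]))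
      (fun e => k (by linarith [lens_nsq (v y), yv y h ▸ e ▸ lens_nsq (v y), normSq_zero]))
  have su : ∀ x : ℂ × ℝ, sd (xx (u x.1).1) (w x) = -(1 - x.2) * sd (xx (v x.1).1) (xx (u x.1).1) :=
    fun x => by rw [lens_lin, lens_self, lens_anti]; ring
  have sv : ∀ x : ℂ × ℝ, sd (xx (v x.1).1) (w x) = x.2 * sd (xx (v x.1).1) (xx (u x.1).1) :=
    fun x => by rw [lens_lin, lens_self]; ring
  have ne : ∀ x : ℂ × ℝ, x.1 ∈ closedBall (0 : ℂ) 1 → w x ≠ 0 ∨ normSq x.1 = 1 := fun x h =>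
    or_iff_not_imp_right.2 fun k e => by
      have a := su x
      have b := sv x
      rw [e, show ∀ a, sd a 0 = 0 from fun a => by simp [sd]] at a b
      linarith [uv _ h k]
  have val := fun (x : ℂ × ℝ) (h : x.1 ∈ closedBall (0 : ℂ) 1) => lens_val (le _ h) (ne x h)
  have cw : ContinuousOn w (closedBall 0 1 ×ˢ Icc 0 1) := by
    have c : ∀ f : ℂ → S3, ContinuousOn f (closedBall 0 1) →
        ContinuousOn (fun x : ℂ × ℝ => xx (f x.1).1) (closedBall 0 1 ×ˢ Icc 0 1) := fun f hf =>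
      (cont_xx.comp continuous_subtype_val).comp_continuousOn
        (hf.comp continuousOn_fst fun _ h => h.1)
    exact (ContinuousOn.mul (by fun_prop) (c v ev.1)).add (ContinuousOn.mul (by fun_prop) (c u eu.1))
  have cr : Continuous fun x : ℂ × ℝ => √(1 - normSq x.1) := by fun_prop
  have cG : ContinuousOn (fun x : ℂ × ℝ => ((√(1 - normSq x.1) / ‖w x‖ : ℝ) : ℂ) * w x)
      (closedBall 0 1 ×ˢ Icc 0 1) := fun x hx => by
    rcases ne x hx.1 with k | k
    · exact (continuous_ofReal.continuousAt.comp_continuousWithinAt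
        (cr.continuousWithinAt.div (cw x hx).norm (norm_ne_zero_iff.2 k))).mul (cw x hx)
    · have t := (cr.continuousWithinAt (s := closedBall 0 1 ×ˢ Icc 0 1) (x := x)).tendsto
      rw [ContinuousWithinAt]
      simp only [k, sub_self, Real.sqrt_zero, zero_div, ofReal_zero, zero_mul] at t ⊢
      refine squeeze_zero_norm (fun z => ?_) t
      rw [norm_mul, norm_real, Real.norm_of_nonneg (by positivity)]
      rcases eq_or_ne ‖w z‖ 0 with h | h
      · rw [h, mul_zero]; exact Real.sqrt_nonneg _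
      · rw [div_mul_cancel₀ _ h]
  have e0 : ∀ y ∈ closedBall (0 : ℂ) 1, lensP y (w (y, 0)) = v y := fun y h => by
    simpa [w, yv y h] using lens_one (v y)
  have e1 : ∀ y ∈ closedBall (0 : ℂ) 1, lensP y (w (y, 1)) = u y := fun y h => by
    simpa [w, yu y h] using lens_one (u y)
  have B := ball_lens (F := fun x : ℂ × ℝ => lensP x.1 (w x)) disc_unit
    (contOn_xy.comp (cG.prodMk continuousOn_fst) fun x hx => lens_sph (le _ hx.1) (ne x hx.1))
    (by
      rintro ⟨y, t⟩ ⟨hy, -⟩ ⟨y', t'⟩ ⟨hy', -⟩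
      obtain ⟨a1, a2⟩ := val (y, t) hy
      obtain ⟨b1, b2⟩ := val (y', t') hy'
      refine ⟨fun h => ?_, ?_⟩
      · obtain rfl : y = y' := a2.symm.trans (h ▸ b2)
        refine ⟨rfl, or_iff_not_imp_right.2 fun k => ?_⟩
        rw [sp] at k
        have p : ∀ s : ℝ, 0 < √(1 - normSq y) / ‖w (y, s)‖ := fun s => div_pos
          (Real.sqrt_pos.2 (sub_pos.2 ((le y hy).lt_of_ne k)))
          (norm_pos_iff.2 ((ne (y, s) hy).resolve_right k))
        have h1 := congrArg (sd (xx (u y).1)) (a1.symm.trans (h ▸ b1))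
        have h2 := congrArg (sd (xx (v y).1)) (a1.symm.trans (h ▸ b1))
        rw [lens_mul, lens_mul] at h1 h2
        rw [su (y, t), su (y, t')] at h1
        rw [sv (y, t), sv (y, t')] at h2
        have d := uv y hy k
        have p1 := p t
        simp only at h1 h2 ⊢
        generalize √(1 - normSq y) / ‖w (y, t)‖ = a at *
        generalize √(1 - normSq y) / ‖w (y, t')‖ = b at *
        generalize sd (xx (v y).1) (xx (u y).1) = D at *
        have ab : a = b := mul_right_cancel₀ d.ne' (by linear_combination h2 - h1)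
        rw [← ab] at h2
        exact mul_right_cancel₀ d.ne' (mul_left_cancel₀ p1.ne' h2)
      · rintro ⟨rfl : y = y', rfl | k⟩
        · rfl
        · simp only [lensP, (sp y).1 k]; simp)
  convert B using 1
  · ext p
    constructor
    · intro hp
      have hy : yy p.1 ∈ closedBall (0 : ℂ) 1 := by
        rw [mem_closedBall_zero_iff, ← sq_le_one_iff₀ (norm_nonneg _), ← normSq_eq_norm_sq]
        linarith [lens_nsq p, normSq_nonneg (xx p.1)]
      by_cases h0 : xx p.1 = 0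
      · refine ⟨(yy p.1, 0), ⟨hy, left_mem_Icc.2 zero_le_one⟩, ?_⟩
        conv_rhs => rw [← xy_coe p]
        simp [lensP, lens_norm, h0]
      · obtain ⟨s, hs, t, ht, e⟩ := lens_dec hp h0 (hu _ hy) (hv _ hy) (yu _ hy) (yv _ hy)
        exact ⟨(yy p.1, t), ⟨hy, ht⟩, (congrArg (lensP _) e).trans (lens_nrm p hs)⟩
    · rintro ⟨⟨y, t⟩, ⟨hy, t0, t1⟩, rfl⟩
      obtain ⟨a1, a2⟩ := val (y, t) hy
      by_cases k : normSq y = 1
      · exact lens_HX.1 (Or.inl (kc_Ann 0 (a1.trans (by simp [k]))))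
      have d := uv y hy k
      have p : 0 ≤ √(1 - normSq y) / ‖w (y, t)‖ := by positivity
      rw [Xp_sector (hu y hy) (hv y hy) ((yu y hy).trans a2.symm) ((yv y hy).trans a2.symm), a1,
        lens_mul, lens_mul, su (y, t), sv (y, t)]
      exact ⟨mul_nonpos_of_nonneg_of_nonpos p (mul_nonpos_of_nonpos_of_nonneg
        (neg_nonpos.2 (sub_nonneg.2 t1)) d.le), mul_nonneg p (mul_nonneg t0 d.le)⟩
  · rw [← iu, ← iv]
    ext p
    constructor
    · rintro (⟨y, hy, rfl⟩ | ⟨y, hy, rfl⟩)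
      exacts [⟨(y, 0), ⟨hy, Or.inl rfl⟩, e0 y hy⟩, ⟨(y, 1), ⟨hy, Or.inr rfl⟩, e1 y hy⟩]
    · rintro ⟨⟨y, t⟩, ⟨hy, rfl | rfl⟩, rfl⟩
      exacts [Or.inl ⟨y, hy, (e0 y hy).symm⟩, Or.inr ⟨y, hy, (e1 y hy).symm⟩]

theorem lens_rot {A B : Set S3} (h : ∀ p, rot p ∈ B ↔ p ∈ A) : rot '' A = B := by
  ext q
  obtain ⟨p, rfl⟩ := rot.surjective q
  rw [rot.injective.mem_set_image, h]

theorem lens_rotH (e : Fin 6) : rot '' Hp e = Hp (e + 1) :=
  lens_rot fun p => (rot_e e p).2.2.2.2.2.2.1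

theorem lens_rotX (j : Fin 6) : rot '' Xp j = Xp (j + 1) := lens_rot fun p => (rot_v j p).2.2.2.1

/-- `ball_lens` with (y, t) ↦ xy (r u / |u|) y, u = (1 - t) x_v + t x_u, r = √(1 - |y|²) -/
theorem Xp_ball (j : Fin 6) : Ball (Xp j) (Hp (j - 1) ∪ Hp j) := by
  have hs : ∀ j : Fin 6, Ball (Xp j) (Hp (j - 1) ∪ Hp j) →
      Ball (Xp (j + 1)) (Hp (j + 1 - 1) ∪ Hp (j + 1)) := by
    rintro j ⟨f, e, i, r⟩
    refine ⟨rot ∘ f, ⟨rot.continuous.comp_continuousOn e.1, rot.injective.comp_injOn e.2⟩, ?_, ?_⟩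
    · rw [image_comp, i, lens_rotX]
    · rw [image_comp, r, image_union, lens_rotH, lens_rotH, sub_add_cancel, add_sub_cancel_right]
  have h0 : Ball (Xp 0) (Hp (0 - 1) ∪ Hp 0) := lens_ball
  have h1 := hs _ h0
  have h2 := hs _ h1
  have h3 := hs _ h2
  have h4 := hs _ h3
  have h5 := hs _ h4
  fin_cases j
  exacts [h0, h1, h2, h3, h4, h5]

theorem book_p : Book Hp Xp :=
  ⟨Hp_disc, fun _ _ => Hp_inter, Xp_ball, Xp_adj, fun _ _ => Xp_far, Xp_cov, lens_rotH, lens_rotX⟩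

end Pool.Agent.Lib.MP_b7d179_gt.Gm
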