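import Pool.Agent.Lib.MP_b7d179_gt.G.Dec
import Pool.Agent.Lib.MP_b7d179_gt.G.Ping

/-! The Hermitian distance, bounds for the potentials, the limit set is not empty. -/

namespace Pool.Agent.Lib.MP_b7d179_gt.Gm

open Set Metric Complex Stmt

theorem hd_dist (p q : S3) : dist p q ^ 4 ≤ 4 * hd p q ∧ hd p q ≤ 4 := by
  have hp := nsq_S3 p
  have hq := nsq_S3 q
  have h1 : dist p q ^ 2 ≤ normSq (p.1.1 - q.1.1) + normSq (p.1.2 - q.1.2) := by
    rw [Subtype.dist_eq, Prod.dist_eq, dist_eq_norm, dist_eq_norm, normSq_eq_norm_sq,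
      normSq_eq_norm_sq]
    rcases max_choice ‖p.1.1 - q.1.1‖ ‖p.1.2 - q.1.2‖ with h | h <;> rw [h] <;>
      nlinarith [sq_nonneg ‖p.1.1 - q.1.1‖, sq_nonneg ‖p.1.2 - q.1.2‖]
  have e : dist p q ^ 4 = (dist p q ^ 2) ^ 2 := by ring
  have h2 := pow_le_pow_left₀ (sq_nonneg _) h1 2
  rw [← e] at h2
  simp only [hd, nsq, normSq_apply, sub_re, sub_im, mul_re, mul_im, conj_re, conj_im, one_re,
    one_im] at hp hq h2 ⊢
  generalize p.1.1.re = a at *
  generalize p.1.1.im = b at *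
  generalize p.1.2.re = c at *
  generalize p.1.2.im = d at *
  generalize q.1.1.re = a' at *
  generalize q.1.1.im = b' at *
  generalize q.1.2.re = c' at *
  generalize q.1.2.im = d' at *
  have k : (a - a') * (a - a') + (b - b') * (b - b') + ((c - c') * (c - c') + (d - d') * (d - d')) =
      2 * (1 - (a * a' + b * b' + c * c' + d * d')) := by linear_combination hp + hq
  have l : (a * a' + b * b' + c * c' + d * d') ^ 2 + (b * a' - a * b' + d * c' - c * d') ^ 2 +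
      (a * c' - b * d' - c * a' + d * b') ^ 2 + (a * d' + b * c' - c * b' - d * a') ^ 2 = 1 := by
    linear_combination (a' * a' + b' * b' + (c' * c' + d' * d')) * hp + hq
  rw [k] at h2
  have m := sq_nonneg (b * a' - a * b' + d * c' - c * d')
  have n1 := sq_nonneg (a * c' - b * d' - c * a' + d * b')
  have n2 := sq_nonneg (a * d' + b * c' - c * b' - d * a')
  have e2 : (1 - (a * a' - b * -b') - (c * c' - d * -d')) * (1 - (a * a' - b * -b') - (c * c' - d * -d')) +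
      (0 - (a * -b' + b * a') - (c * -d' + d * c')) * (0 - (a * -b' + b * a') - (c * -d' + d * c')) =
      (1 - (a * a' + b * b' + c * c' + d * d')) ^ 2 + (b * a' - a * b' + d * c' - c * d') ^ 2 := by
    ring
  rw [e2]
  generalize a * a' + b * b' + c * c' + d * d' = u at *
  generalize b * a' - a * b' + d * c' - c * d' = v at *
  constructor
  · nlinarith
  · nlinarith [sq_nonneg (u + 1)]

theorem hd_rot (p q : S3) : hd (rot p) (rot q) = hd p q := by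
  rw [hd, hd, rot_val, rot_val]
  congr 1
  simp only [rE, lE, map_add, map_mul, conj_ofReal]
  push_cast
  linear_combination (-(p.1.1 * (starRingEnd ℂ) q.1.1 + p.1.2 * (starRingEnd ℂ) q.1.2) / 4) * s3

theorem mesh0_n (a : ℕ) : normSq (w1 ^ a) = 1 := by rw [map_pow, w1_nsq, one_pow]

theorem mesh0_Q (a : ℕ) (p : S3) :
    QQ ((g 0 ^ a) p).1 = normSq (jj (w1 ^ a) 0 p.1) * QQ p.1 ∧
      QQ ((g 5 ^ a) p).1 = normSq (jj (w1 ^ a) 5 p.1) * QQ p.1 := by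
  have hp := (nsq_S3 p).le
  rw [g_pow_val, g_pow_val, QQ, QQ, QQ, (Z_gE0 (mesh0_n a) hp).1, (Z_gE0 (mesh0_n a) hp).2,
    (Z_gE5 (mesh0_n a) hp).1, (Z_gE5 (mesh0_n a) hp).2, ← normSq_mul, ← normSq_mul,
    (jj_chart hp).1, (jj_chart hp).2]
  exact ⟨rfl, rfl⟩

theorem mesh0_hd (i : Fin 6) (a : ℕ) (p q : S3) :
    hd ((g i ^ a) p) ((g i ^ a) q) * (normSq (jj (w1 ^ a) i p.1) * normSq (jj (w1 ^ a) i q.1)) =
      hd p q := by
  rw [hd, hd, g_pow_val, g_pow_val, ← form_gE (mesh0_n a) i (nsq_S3 p).le (nsq_S3 q).le,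
    normSq_mul, normSq_mul, normSq_conj]

/-- form_gE, jj_chart -/
theorem hd_gg (a b : ℕ) (p q : S3) :
    hd (gg a b p) (gg a b q) * (QQ (gg a b p).1 * QQ (gg a b q).1) = hd p q * (QQ p.1 * QQ q.1) := by
  rw [gg, Homeomorph.mul_apply, Homeomorph.mul_apply, (mesh0_Q a _).2, (mesh0_Q a _).2,
    (mesh0_Q b _).1, (mesh0_Q b _).1, ← mesh0_hd 0 b p q, ← mesh0_hd 5 a ((g 0 ^ b) p) ((g 0 ^ b) q)]
  ring

theorem QQ_bd (p : S3) : 3 / 10 ≤ QQ p.1 ∧ QQ p.1 ≤ 30 := by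
  have h := Z_sph p
  simp only [QQ, normSq_apply, sub_re, sub_im, re_ofNat, im_ofNat] at h ⊢
  generalize (Z1 p.1).re = a at *
  generalize (Z1 p.1).im = b at *
  generalize (Z2 p.1).re = c at *
  generalize (Z2 p.1).im = d at *
  have k : (a + c) ^ 2 + (b + d) ^ 2 ≤ 6 := by nlinarith [sq_nonneg (a - c), sq_nonneg (b - d)]
  have e : (3 - a - c) * (3 - a - c) + (0 - b - d) * (0 - b - d) =
      (3 - (a + c)) ^ 2 + (b + d) ^ 2 := by ring
  rw [e]
  generalize a + c = u at *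
  generalize b + d = v at *
  have k1 : u ≤ 245 / 100 := by nlinarith [sq_nonneg v]
  have k2 : -(245 / 100) ≤ u := by nlinarith [sq_nonneg v]
  constructor <;> nlinarith [sq_nonneg v]

theorem mm_bd (e : Fin 6) (p : S3) : 1 / 3 ≤ normSq (1 + uw e p.1) ∧ normSq (1 + uw e p.1) ≤ 12 := by
  have h := nsq_S3 p
  have hm := mv_sq e
  have h2 := r2
  obtain ⟨s1, s2⟩ := basr_2
  simp only [uw, lin, nsq, normSq_apply, sub_re, sub_im, add_re, add_im, mul_re, mul_im, ofReal_re,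
    ofReal_im, one_re, one_im, zero_mul, sub_zero, add_zero] at h ⊢
  generalize p.1.1.re = a at *
  generalize p.1.1.im = b at *
  generalize p.1.2.re = c at *
  generalize p.1.2.im = d at *
  generalize (mv e).re = m at *
  generalize (mv e).im = n at *
  have k : (m * a + n * c) ^ 2 + (m * b + n * d) ^ 2 ≤ 1 := by
    nlinarith [sq_nonneg (m * c - n * a), sq_nonneg (m * d - n * b)]
  generalize m * a + n * c = u at *
  generalize m * b + n * d = v at *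
  generalize √2 = s at *
  have k1 : u ≤ 1 := by nlinarith [sq_nonneg v]
  have k2 : -1 ≤ u := by nlinarith [sq_nonneg v]
  have e1 : (1 + (1 - s * u)) * (1 + (1 - s * u)) + (0 + (0 - s * v)) * (0 + (0 - s * v)) =
      4 - 4 * (s * u) + 2 * (u ^ 2 + v ^ 2) := by linear_combination (u ^ 2 + v ^ 2) * h2
  have k3 : s * u ≤ s := by nlinarith
  have k4 : -s ≤ s * u := by nlinarith
  constructor
  · nlinarith [sq_nonneg (s * v)]
  · rw [e1]; linarith

theorem mm_chart (p : S3) : normSq (1 + uw 0 p.1) * QQ p.1 = normSq (3 - Z1 p.1) ∧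
    normSq (1 + uw 5 p.1) * QQ p.1 = normSq (3 - Z2 p.1) := by
  obtain ⟨a, b⟩ := chart_uw (nsq_S3 p).le
  rw [QQ, ← normSq_mul, ← normSq_mul]
  exact ⟨congrArg normSq (by linear_combination b), congrArg normSq (by linear_combination a)⟩

theorem QQ_gg (a b : ℕ) (p : S3) :
    QQ (gg a b p).1 = normSq (3 - w1 ^ a * Z1 p.1 - w1 ^ b * Z2 p.1) := by
  rw [QQ, (Z_gg a b p).1, (Z_gg a b p).2]

/-- both ratios are |jj|² (jj_chart, uw_rE) -/
theorem QQ_ratio (d : ℕ) (p : S3) :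
    QQ (gg d 0 p).1 * QQ (rot p).1 = QQ p.1 * QQ (gg 0 d (rot p)).1 := by
  have e : jj (w1 ^ d) 0 (rot p).1 = jj (w1 ^ d) 5 p.1 := by
    rw [jj, jj, rot_val, ← uw_rE 5 p.1]; rfl
  rw [gg, gg, pow_zero, pow_zero, mul_one, one_mul, (mesh0_Q d p).2, (mesh0_Q d (rot p)).1, e]
  ring

theorem Yv_hull (D : Dat) : D.Yv ⊆ {p | av 5 p.1 ≤ av 0 p.1} ∪ cyc (g 5) (Six 5) := by
  rintro _ ⟨q, hq, rfl⟩
  obtain ⟨p, rfl⟩ := rot.surjective q
  rw [Homeomorph.symm_apply_apply]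
  rcases YN_hull D.bk D.wl hq with h | ⟨k, h⟩
  · left
    change av 5 p.1 ≤ av 0 p.1
    rw [← av_rot 5 p, ← av_rot 0 p]
    exact h
  · refine .inr ⟨k, (rot_v 5 _).2.2.1.1 ?_⟩
    have s : SemiconjBy rot (g 5) (g 0) := rot_g 5
    have e : rot ((g 5 ^ k) p) = (g 0 ^ k) (rot p) := by
      rw [← Homeomorph.mul_apply, (s.pow_right k).eq, Homeomorph.mul_apply]
    rw [e]
    exact h

theorem Six_side' {p : S3} (hp : p ∈ Six 5) : sd (nv 0) (xx p.1) ≤ 0 := by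
  have h := Six_side (p := sw p) ((sw_v 5 p).2.2.1.2 hp)
  have e0 : nv 0 = ⟨√3 / 2, -1 / 2⟩ := rfl
  have e1 : mv 5 = ⟨1 / 2, -√3 / 2⟩ := rfl
  rw [xx_sw] at h
  simp only [sd, e0, e1, mul_re, mul_im, conj_re, conj_im] at h ⊢
  have e : √3 * √3 * (xx p.1).re = 3 * (xx p.1).re := by rw [r3]
  linarith

theorem Dat.Pot.mono {D : Dat} {T : ℕ} {z : S3} {r r' : ℝ} (h : D.Pot T z r) (hr : r' ≤ max r 0) :
    D.Pot T z r' := by
  have k1 : ∀ c : ℝ, 0 ≤ c → r ≤ c → r' ≤ c := fun c h0 h1 => hr.trans (max_le h1 h0)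
  have k2 : ∀ y : S3, r * QQ z.1 ≤ 103 / 100 * QQ y.1 → r' * QQ z.1 ≤ 103 / 100 * QQ y.1 := by
    intro y h
    have a := (QQ_bd z).1
    have b := (QQ_bd y).1
    rcases le_max_iff.1 hr with c | c <;> nlinarith
  have k3 : ∀ w : ℂ, 0 ≤ 103 / 200 * normSq w := fun w => by have := normSq_nonneg w; positivity
  match T, h with
  | 0, h => exact ⟨h.1, k1 1 zero_le_one h.2⟩
  | 1, h =>
    exact Or.imp (fun h => ⟨h.1, k1 _ (k3 _) h.2⟩)
      (fun ⟨d, hd, y, hy, e, k⟩ => ⟨d, hd, y, hy, e, k2 y k⟩) h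
  | n + 2, h =>
    exact Or.imp (fun h => ⟨h.1, k1 _ (k3 _) h.2⟩)
      (fun ⟨d, hd, y, hy, e, k⟩ => ⟨d, hd, y, hy, e, k2 y k⟩) h

theorem mesh0_cyc {γ : S3 ≃ₜ S3} (h3 : γ ^ 3 = 1) {A B : Set S3} {d : ℕ} (hd : d % 3 ≠ 0) {y : S3}
    (hy : y ∈ B) : (γ ^ d) y ∈ A ∪ γ '' B ∪ (γ ^ 2 : S3 ≃ₜ S3) '' B := by
  rw [pow_eq_pow_mod d h3]
  rcases (by omega : d % 3 = 1 ∨ d % 3 = 2) with e | e <;> rw [e]
  · exact .inl (.inr ⟨y, hy, by rw [pow_one]⟩)
  · exact .inr ⟨y, hy, rfl⟩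

theorem mesh0_g5 (d : ℕ) : gg d 0 = g 5 ^ d := by rw [gg, pow_zero, mul_one]
theorem mesh0_g0 (d : ℕ) : gg 0 d = g 0 ^ d := by rw [gg, pow_zero, one_mul]

theorem Dat.Pot.le {D : Dat} {T : ℕ} {z : S3} {r : ℝ} (h : D.Pot T z r) : z ∈ D.X 0 ∧ r ≤ 103 := by
  have k1 : ∀ e, r ≤ 103 / 200 * normSq (1 + uw e z.1) → r ≤ 103 := fun e h => by
    linarith [(mm_bd e z).2]
  have k2 : ∀ y : S3, r * QQ z.1 ≤ 103 / 100 * QQ y.1 → r ≤ 103 := fun y h => by
    have a := (QQ_bd z).1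
    have b := (QQ_bd y).2
    by_contra c
    nlinarith
  match T, h with
  | 0, h => exact ⟨h.1, by linarith [h.2]⟩
  | 1, h =>
    rcases h with h | ⟨d, hd, y, hy, e, k⟩
    · exact ⟨D.dec.ys.ge (.inl (.inl h.1)), k1 _ h.2⟩
    · exact ⟨D.dec.ys.ge (by rw [e, mesh0_g5]; exact mesh0_cyc (g_cube 5) hd hy), k2 y k⟩
  | n + 2, h =>
    rcases h with h | ⟨d, hd, y, hy, e, k⟩
    · exact ⟨D.dec.ye.ge (.inl (.inl h.1)), k1 _ h.2⟩
    · exact ⟨D.dec.ye.ge (by rw [e, mesh0_g0]; exact mesh0_cyc (g_cube 0) hd hy), k2 y k⟩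

theorem Dat.pot_of (D : Dat) (T : ℕ) {z : S3} (h : z ∈ D.X 0) : D.Pot T z (1 / 100) := by
  have k1 : ∀ e, (1 / 100 : ℝ) ≤ 103 / 200 * normSq (1 + uw e z.1) := fun e => by
    linarith [(mm_bd e z).1]
  have k2 : ∀ y : S3, 1 / 100 * QQ z.1 ≤ 103 / 100 * QQ y.1 := fun y => by
    linarith [(QQ_bd z).2, (QQ_bd y).1]
  match T with
  | 0 => exact ⟨h, by norm_num⟩
  | 1 =>
    rcases D.dec.ys.le h with (a | ⟨y, hy, e⟩) | ⟨y, hy, e⟩
    · exact .inl ⟨a, k1 _⟩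
    · exact .inr ⟨1, by norm_num, y, hy, by rw [mesh0_g5, pow_one, e], k2 y⟩
    · exact .inr ⟨2, by norm_num, y, hy, by rw [mesh0_g5, e], k2 y⟩
  | n + 2 =>
    rcases D.dec.ye.le h with (a | ⟨y, hy, e⟩) | ⟨y, hy, e⟩
    · exact .inl ⟨a, k1 _⟩
    · exact .inr ⟨1, by norm_num, y, hy, by rw [mesh0_g0, pow_one, e], k2 y⟩
    · exact .inr ⟨2, by norm_num, y, hy, by rw [mesh0_g0, e], k2 y⟩

theorem mesh0_rE {q : E} (h : Orb q) : Orb (rE q) := by
  induction h with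
  | zero =>
    have e : rE (0, 0) = (0, 0) := by simp [rE, lE]
    exact e.symm ▸ Orb.zero
  | step i _ ih => exact (rE_gE w1 i _).symm ▸ ih.step (i + 1)

theorem mesh0_seq (n : ℕ) :
    ∃ p, Orb p ∧ 3 / 2 ≤ av 3 p ∧ 3 / 2 ≤ av 4 p ∧ 1 - nsq p ≤ (50 / 53) ^ n := by
  induction n with
  | zero =>
    have e : ∀ j, av j (0, 0) = 3 := fun j => by simp [av, wv, lin, normSq_ofReal]
    exact ⟨_, Orb.zero, by rw [e]; norm_num, by rw [e]; norm_num, by simp [nsq]⟩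
  | succ n ih =>
    obtain ⟨p, h, a3, a4, k⟩ := ih
    have h' := mesh0_rE (mesh0_rE (mesh0_rE h))
    have b0 : av 0 (rE (rE (rE p))) = av 3 p :=
      (av_rE 5 _).trans ((av_rE 4 _).trans (av_rE 3 _))
    have b1 : av 1 (rE (rE (rE p))) = av 4 p :=
      (av_rE 0 _).trans ((av_rE 5 _).trans (av_rE 4 _))
    have c := gE_zero om_w1 h'.ball.le (by rw [b0]; exact a3)
    have j := jj_big om_w1 h'.ball.le (by rw [b0]; linarith) (by rw [b1]; linarith)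
    refine ⟨_, h'.step 0, by linarith [c.2.1], by linarith [c.2.2.1], ?_⟩
    rw [nsq_gE w1_nsq 0 h'.ball.le, nsq_rE, nsq_rE, nsq_rE, div_le_iff₀ (by linarith), pow_succ]
    have : (0 : ℝ) ≤ (50 / 53) ^ n := by positivity
    nlinarith

/-- p (n+1) = gE w1 0 (- p n) from the centre: gE_zero, gE_one', jj_big, nsq_gE; compactness -/
theorem lim_ne : limitSet.Nonempty := by
  have hb : closure {q | Orb q} ⊆ {p | nsq p ≤ 1} :=
    closure_minimal (fun q (h : Orb q) => h.ball.le) (isClosed_le cont_nsq continuous_const)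
  have hc : IsCompact (closure {q | Orb q}) := by
    refine Metric.isCompact_of_isClosed_isBounded isClosed_closure
      ((Metric.isBounded_closedBall (x := (0 : E)) (r := 1)).subset fun p hp => ?_)
    have h : nsq p ≤ 1 := hb hp
    rw [nsq, normSq_eq_norm_sq, normSq_eq_norm_sq] at h
    rw [mem_closedBall_zero_iff, Prod.norm_def, max_le_iff]
    constructor <;> nlinarith [norm_nonneg p.1, norm_nonneg p.2]
  obtain ⟨m, hm, mx⟩ := hc.exists_isMaxOn ⟨_, subset_closure Orb.zero⟩ cont_nsq.continuousOn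
  have h1 : nsq m = 1 := by
    refine le_antisymm (hb hm) (not_lt.1 fun c => ?_)
    obtain ⟨n, hn⟩ := exists_pow_lt_of_lt_one (sub_pos.2 c) (by norm_num : (50 / 53 : ℝ) < 1)
    obtain ⟨p, hp, -, -, k⟩ := mesh0_seq n
    have : nsq p ≤ nsq m := mx (subset_closure hp)
    linarith
  exact ⟨⟨m, (nsq_iff m).2 h1⟩, (ping_mem _).2 hm⟩

end Pool.Agent.Lib.MP_b7d179_gt.Gm
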