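import Pool.Agent.Lib.MP_b7d179_gt.G.Mesh0

/-! Steps into a lens of plain type. -/

namespace Pool.Agent.Lib.MP_b7d179_gt.Gm

open Set Metric Complex Stmt

theorem meshA_om {a : ℕ} (h : a % 3 ≠ 0) : Om (w1 ^ a) := by
  rw [pow_eq_pow_mod a w1_three]
  obtain e | e : a % 3 = 1 ∨ a % 3 = 2 := by omega
  · rw [e, pow_one]; exact om_w1
  · rw [e]; exact om_w2

theorem meshA_inv (k : ℕ) : ∃ d : ℂ, (d = 1 ∨ Om d) ∧ d * w1 ^ k = 1 := by
  refine ⟨w1 ^ (2 * k), ?_, by rw [← pow_add, show 2 * k + k = 3 * k by ring, pow_mul, w1_three,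
    one_pow]⟩
  by_cases h : 2 * k % 3 = 0
  · exact .inl (by rw [pow_eq_pow_mod _ w1_three, h, pow_zero])
  · exact .inr (meshA_om h)

theorem meshA_cap {A B c : ℂ} (hb : normSq A + normSq B ≤ 3) (hc : Om c) (h : hh A ≤ 1) :
    11 * normSq (3 - A) ≤ 20 * normSq (3 - c * A - B) := by
  have e : (-1 - c) * (c * A) = A := by unfold Om at hc; linear_combination (-A) * hc
  have o : Om (-1 - c) := by unfold Om at hc ⊢; linear_combination hc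
  have := E8 (A := c * A) (B := B) (by rwa [normSq_mul, supp_n hc, one_mul]) o (by rwa [e])
  rwa [e] at this

theorem meshA_fin {r q Q : ℝ} (hQ : 0 < Q) (h : 50 * (r * q) ≤ 49 * Q) :
    50 / 49 * r * q / Q ≤ 1 := (div_le_one hQ).2 (by linarith)

theorem meshA_sw (A B : ℂ) : normSq (3 - A - B) = normSq (3 - B - A) := by rw [sub_right_comm]

theorem meshA_g0 (k : ℕ) (p : S3) : (g 0 ^ k) p = gg 0 k p := by rw [gg, pow_zero, one_mul]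
theorem meshA_g5 (k : ℕ) (p : S3) : (g 5 ^ k) p = gg k 0 p := by rw [gg, pow_zero, mul_one]

theorem meshA_gg (a b c d : ℕ) (p : S3) : gg a b (gg c d p) = gg (a + c) (b + d) p := by
  rw [← gg_mul]; rfl

theorem meshA_rg (d : ℕ) (p : S3) : rot (gg d 0 p) = gg 0 d (rot p) := by
  rw [← meshA_g0, ← meshA_g5]
  exact congrArg (fun γ : S3 ≃ₜ S3 => γ p) (SemiconjBy.pow_right (rot_g 5) d)

theorem meshA_Q {p : S3} (h : 11 / 8 ≤ av 0 p.1) : 11 * QQ p.1 ≤ 24 := by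
  have := mul_le_mul_of_nonneg_right h (QQ_pos (nsq_S3 p).le).le
  linarith [(av_chart (nsq_S3 p).le).1]

theorem meshA_two {a b : ℕ} (ha : a % 3 ≠ 0) (hb : b % 3 ≠ 0) {p : S3} (h : 11 / 8 ≤ av 0 p.1) :
    4 ≤ QQ (gg a b p).1 :=
  QQ_gg a b p ▸ E2 (Z_ball (nsq_S3 p).le) (meshA_om ha) (meshA_om hb) (meshA_Q h)

/-- the six inequalities of `KL` in the chart -/
theorem meshA_KL {p : S3} (h : p ∈ KL) : QQ p.1 ≤ 2 ∧ QQ p.1 ≤ 2 * hh (Z1 p.1) ∧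
    QQ p.1 ≤ 2 * hh (Z2 p.1) ∧ QQ p.1 ≤ 2 * normSq (4 - 2 * Z1 p.1 - Z2 p.1) ∧
    QQ p.1 ≤ 2 * normSq (5 - 2 * Z1 p.1 - 2 * Z2 p.1) ∧
    QQ p.1 ≤ 2 * normSq (4 - Z1 p.1 - 2 * Z2 p.1) := by
  obtain ⟨h0, h1, h5, h2, h3, h4⟩ := av_chart (nsq_S3 p).le
  have k j := mul_le_mul_of_nonneg_right (h j) (QQ_pos (nsq_S3 p).le).le
  exact ⟨by linarith [k 0], by linarith [k 1], by linarith [k 5], by linarith [k 2],
    by linarith [k 3], by linarith [k 4]⟩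

theorem meshA_u {c : ℂ} (hc : Om c) {p : S3} (h : p ∈ Cap 0 ∪ cyc (g 0) (Six 1)) :
    11 * normSq (3 - Z1 p.1) ≤ 20 * normSq (3 - c * Z1 p.1 - Z2 p.1) := by
  rcases h with h | ⟨k, h⟩
  · exact meshA_cap (Z_ball (nsq_S3 p).le) hc ((chart_sets p).2.2.1.1 h)
  · rw [meshA_g0] at h
    obtain ⟨d, d1, d2⟩ := meshA_inv k
    obtain ⟨k0, k1, k5, k2, k3, k4⟩ := meshA_KL (hull_KL h)
    have := (E11 (Z_ball (nsq_S3 (gg 0 k p)).le) hc d1 k0 k1 k5 k2 k3 k4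
      (side_chart _ ▸ mul_nonneg (mul_nonneg (Real.sqrt_nonneg _) (QQ_pos (nsq_S3 _).le).le)
        (Six_side h))).1
    rwa [(Z_gg 0 k p).1, (Z_gg 0 k p).2, pow_zero, one_mul, ← mul_assoc, d2, one_mul] at this

theorem meshA_v {c : ℂ} (hc : Om c) {p : S3}
    (h : p ∈ {p : S3 | av 5 p.1 ≤ av 0 p.1} ∪ cyc (g 5) (Six 5)) :
    11 * normSq (3 - Z2 p.1) ≤ 20 * normSq (3 - Z1 p.1 - c * Z2 p.1) := by
  rw [meshA_sw]
  rcases h with h | ⟨k, h⟩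
  · obtain ⟨h0, -, h5, -⟩ := av_chart (nsq_S3 p).le
    have := mul_le_mul_of_nonneg_right h (QQ_pos (nsq_S3 p).le).le
    exact meshA_cap (add_comm (normSq (Z1 p.1)) _ ▸ Z_ball (nsq_S3 p).le) hc (by linarith)
  · rw [meshA_g5] at h
    obtain ⟨d, d1, d2⟩ := meshA_inv k
    obtain ⟨k0, k1, k5, k2, k3, k4⟩ := meshA_KL (hull_KL h)
    have s := side_chart (gg k 0 p)
    have s' := mul_nonpos_of_nonneg_of_nonpos
      (mul_nonneg (Real.sqrt_nonneg 2) (QQ_pos (nsq_S3 (gg k 0 p)).le).le) (Six_side' h)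
    rw [QQ, meshA_sw] at k0 k1 k5 k2 k3 k4
    have := (E11 (add_comm (normSq (Z1 _)) _ ▸ Z_ball (nsq_S3 (gg k 0 p)).le) hc d1 k0 k5 k1
      (sub_right_comm (4 : ℂ) _ _ ▸ k4) (sub_right_comm (5 : ℂ) _ _ ▸ k3)
      (sub_right_comm (4 : ℂ) _ _ ▸ k2) (by
        rw [← neg_sub (Z1 _), sub_right_comm, neg_mul, neg_re, s]
        exact neg_nonneg.2 s')).1
    rwa [(Z_gg k 0 p).1, (Z_gg k 0 p).2, pow_zero, one_mul, ← mul_assoc, d2, one_mul] at this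

variable (D : Dat) {a b j : ℕ}

theorem meshA_rot {x : S3} {i : Fin 6} (h : x ∈ D.X i) : rot x ∈ D.X (i + 1) :=
  (D.bk.rotX i).le ⟨x, h, rfl⟩

theorem meshA_rot' {x : S3} {i : Fin 6} (h : rot x ∈ D.X (i + 1)) : x ∈ D.X i := by
  obtain ⟨y, hy, e⟩ := (D.bk.rotX i).ge h
  exact rot.injective e ▸ hy

theorem meshA_pow {x : S3} (h : x ∈ D.X 0) : (rot ^ 2) x ∈ D.X 2 ∧ (rot ^ 3) x ∈ D.X 3 ∧
    (rot ^ 4) x ∈ D.X 4 := by
  have s (n : ℕ) (i : Fin 6) (k : (rot ^ n) x ∈ D.X i) : (rot ^ (n + 1)) x ∈ D.X (i + 1) := by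
    rw [pow_succ']; exact meshA_rot D k
  have h2 := s 1 1 (s 0 0 h)
  exact ⟨h2, s 2 2 h2, s 3 3 (s 2 2 h2)⟩

theorem meshA_five (x : S3) : rot ((rot ^ 5) x) = x :=
  congrArg (fun γ : S3 ≃ₜ S3 => γ x) ((pow_succ' rot 5).symm.trans rot_six)

/-- a nontrivial power of a map of order three -/
theorem meshA_leg {γ : S3 ≃ₜ S3} (h3 : γ ^ 3 = 1) (ha : a % 3 ≠ 0) {Y Q : Set S3} {y : S3}
    (hy : y ∈ Q) : (γ ^ a) y ∈ Y ∪ γ '' Q ∪ (γ ^ 2 : S3 ≃ₜ S3) '' Q := by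
  rw [pow_eq_pow_mod a h3]
  obtain e | e : a % 3 = 1 ∨ a % 3 = 2 := by omega
  · rw [e, pow_one]; exact .inl (.inr ⟨y, hy, rfl⟩)
  · rw [e]; exact .inr ⟨y, hy, rfl⟩

theorem meshA_in5 (ha : a % 3 ≠ 0) {y : S3} (h : y ∈ D.X 1 ∪ D.X 2) : gg a 0 y ∈ D.X 0 :=
  meshA_g5 a y ▸ D.dec.ys.ge (meshA_leg (g_cube 5) ha h)
theorem meshA_in0 (hb : b % 3 ≠ 0) {y : S3} (h : y ∈ D.X 5 ∪ D.X 4) : gg 0 b y ∈ D.X 0 :=
  meshA_g0 b y ▸ D.dec.ye.ge (meshA_leg (g_cube 0) hb h)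
theorem meshA_in1 (hb : b % 3 ≠ 0) {y : S3} (h : y ∈ D.X 2 ∪ D.X 3) : gg 0 b y ∈ D.X 1 :=
  meshA_g0 b y ▸ D.dec.x1.ge (meshA_leg (g_cube 0) hb h)

theorem meshA_av {y : S3} (h : y ∈ D.X 2 ∨ y ∈ D.X 3 ∨ y ∈ D.X 4) : 11 / 8 ≤ av 0 y.1 := by
  rcases h with h | h | h
  exacts [(hl_av (D.wl.hull _ h)).2.2, (hl_av (D.wl.hull _ h)).2.1, (hl_av (D.wl.hull _ h)).1]

/-- y = rot ^ j x lies in X j ⊆ hl j; hl_av, E1c, E2; the image is in X 0 by `Dec` -/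
theorem tr0_far (h : Stp a b j) (hj : j = 2 ∨ j = 3 ∨ j = 4) : D.Tr 0 0 a b j := by
  rintro x r ⟨hx, hr⟩
  obtain ⟨h2, h3, h4⟩ := meshA_pow D hx
  obtain ⟨ha, hb, h⟩ := h
  have two {y : S3} (k : y ∈ D.X 2 ∨ y ∈ D.X 3 ∨ y ∈ D.X 4) (a0 : a ≠ 0) (b0 : b ≠ 0) :
      53 * QQ y.1 ≤ 50 * QQ (gg a b y).1 := by
    linarith [meshA_two (a := a) (b := b) (by omega) (by omega) (meshA_av D k),
      meshA_Q (meshA_av D k)]
  have fin {y : S3} (k : 53 * QQ y.1 ≤ 50 * QQ (gg a b y).1) :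
      50 / 49 * r * QQ y.1 / QQ (gg a b y).1 ≤ 1 := by
    have q := QQ_pos (nsq_S3 y).le
    have := mul_le_mul_of_nonneg_right hr q.le
    exact meshA_fin (QQ_pos (nsq_S3 _).le) (by linarith)
  rcases hj with rfl | rfl | rfl
  · have a0 : a ≠ 0 := by omega
    refine ⟨D.dec.ye.ge (.inl (.inl ((D.dec.inE a (by omega)).2 b ⟨_, h2, rfl⟩))), fin ?_⟩
    by_cases b0 : b = 0
    · subst b0
      generalize (rot ^ 2) x = y at h2
      have k := mul_le_mul_of_nonneg_right (hl_av (D.wl.hull _ h2)).2.1 (QQ_pos (nsq_S3 y).le).le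
      have k0 := meshA_Q (meshA_av D (.inl h2))
      have k5 : 11 * QQ y.1 ≤ 24 * hh (Z2 y.1) := by
        have := (av_chart (nsq_S3 y).le).2.2.1
        change 11 / 8 * _ ≤ av 5 _ * _ at k
        linarith
      rw [QQ_gg, pow_zero, one_mul, meshA_sw]
      rw [QQ, meshA_sw] at k0 k5 ⊢
      exact E1c (add_comm (normSq (Z1 y.1)) _ ▸ Z_ball (nsq_S3 y).le) (meshA_om (by omega)) k0 k5
    · exact two (.inl h2) a0 b0
  · refine ⟨?_, fin (two (.inr (.inl h3)) (by omega) (by omega))⟩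
    have := meshA_in5 D (a := a) (by omega) (.inl (meshA_in1 D (b := b) (by omega) (.inr h3)))
    rwa [meshA_gg, add_zero, zero_add] at this
  · have b0 : b ≠ 0 := by omega
    refine ⟨D.dec.ys.ge (.inl (.inl ((D.dec.inS b (by omega)).2 a ⟨_, h4, rfl⟩))), fin ?_⟩
    by_cases a0 : a = 0
    · subst a0
      generalize (rot ^ 4) x = y at h4
      have k := mul_le_mul_of_nonneg_right (hl_av (D.wl.hull _ h4)).2.1 (QQ_pos (nsq_S3 y).le).le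
      have k1 : 11 * QQ y.1 ≤ 24 * hh (Z1 y.1) := by
        have := (av_chart (nsq_S3 y).le).2.1
        change 11 / 8 * _ ≤ av 1 _ * _ at k
        linarith
      rw [QQ_gg, pow_zero, one_mul]
      exact E1c (Z_ball (nsq_S3 y).le) (meshA_om (by omega))
        (meshA_Q (meshA_av D (.inr (.inr h4)))) k1
    · exact two (.inr (.inr h4)) a0 b0

/-- y in Yf: YF_hull, E8, E11 (mm_chart, Six_side, side_chart); y in a leg: E2 -/
theorem tr0_one (ha : a % 3 ≠ 0) : D.Tr 1 0 a 0 1 := by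
  intro x r h
  rw [pow_one]
  refine ⟨meshA_in5 D ha (.inl (meshA_rot D h.le.1)), meshA_fin (QQ_pos (nsq_S3 _).le) ?_⟩
  rcases h with ⟨⟨y, hy, rfl⟩, hr⟩ | ⟨d, hd, y, hy, rfl, hr⟩
  · have u : uw 0 y.1 = uw 5 (rot.symm y).1 := by
      rw [← uw_rE 5, ← rot_val, rot.apply_symm_apply]; rfl
    rw [rot.apply_symm_apply, QQ_gg, pow_zero, one_mul]
    have k := mul_le_mul_of_nonneg_right hr (QQ_pos (nsq_S3 y).le).le
    rw [← u, mul_assoc, (mm_chart y).1] at k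
    linarith [meshA_u (meshA_om ha) (YF_hull D.bk D.wl hy), normSq_nonneg (3 - Z1 y.1)]
  · have m : 11 / 8 ≤ av 0 (rot y).1 :=
      meshA_av D (hy.elim (fun k => .inl (meshA_rot D k)) fun k => .inr (.inl (meshA_rot D k)))
    have k : r * QQ (gg 0 d (rot y)).1 ≤ 103 / 100 * QQ (rot y).1 := by
      refine le_of_mul_le_mul_left ?_ (QQ_pos (nsq_S3 y).le)
      have := mul_le_mul_of_nonneg_right hr (QQ_pos (nsq_S3 (rot y)).le).le
      rw [mul_assoc, QQ_ratio] at this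
      linarith
    rw [meshA_rg, meshA_gg, add_zero, zero_add]
    linarith [meshA_two ha hd m, meshA_Q m]

theorem tr0_five (hb : b % 3 ≠ 0) : D.Tr 2 0 0 b 5 := by
  intro x r h
  have e := meshA_five x
  generalize (rot ^ 5) x = y at e
  subst e
  refine ⟨meshA_in0 D hb (.inl (meshA_rot' D h.le.1)), meshA_fin (QQ_pos (nsq_S3 _).le) ?_⟩
  rcases h with ⟨hy, hr⟩ | ⟨d, hd, z, hz, e, hr⟩
  · have u : uw 0 (rot y).1 = uw 5 y.1 := uw_rE 5 y.1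
    rw [QQ_gg, pow_zero, one_mul]
    have k := mul_le_mul_of_nonneg_right hr (QQ_pos (nsq_S3 y).le).le
    rw [u, mul_assoc, (mm_chart y).2] at k
    linarith [meshA_v (meshA_om hb) (Yv_hull D ⟨_, hy, rot.symm_apply_apply y⟩),
      normSq_nonneg (3 - Z2 y.1)]
  · obtain ⟨z, rfl⟩ := rot.surjective z
    rw [e] at hr
    obtain rfl := rot.injective (e.trans (meshA_rg d z).symm)
    have m : 11 / 8 ≤ av 0 z.1 := meshA_av D (.inr
      (hz.elim (fun k => .inr (meshA_rot' D k)) fun k => .inl (meshA_rot' D k)))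
    have k : r * QQ (gg d 0 z).1 ≤ 103 / 100 * QQ z.1 := by
      refine le_of_mul_le_mul_right ?_ (QQ_pos (nsq_S3 (rot z)).le)
      have := mul_le_mul_of_nonneg_left hr (QQ_pos (nsq_S3 z).le).le
      rw [mul_assoc, QQ_ratio]
      linarith
    rw [meshA_gg, add_zero, zero_add]
    linarith [meshA_two hd hb m, meshA_Q m]

theorem tr0 (h : Stp a b j) : ∃ T', D.Tr T' 0 a b j := by
  by_cases hj : j = 2 ∨ j = 3 ∨ j = 4
  · exact ⟨0, tr0_far D h hj⟩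
  · obtain ⟨ha, hb, h⟩ := h
    obtain ⟨k, rfl, rfl⟩ | ⟨k, rfl, rfl⟩ : (a % 3 ≠ 0 ∧ j = 1 ∧ b = 0) ∨
      (b % 3 ≠ 0 ∧ j = 5 ∧ a = 0) := by omega
    exacts [⟨1, tr0_one D k⟩, ⟨2, tr0_five D k⟩]

end Pool.Agent.Lib.MP_b7d179_gt.Gm
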