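import Pool.Agent.Lib.MP_b7d179_gt.G.MeshA

/-! Steps into a lens entered through wall 5. -/

namespace Pool.Agent.Lib.MP_b7d179_gt.Gm

open Set Metric Complex Stmt

theorem mb_om {b : ℕ} (hb : b % 3 ≠ 0) :
    Om (w1 ^ b) ∧ Om ((w1 ^ b) ^ 2) ∧ (w1 ^ b) ^ 2 * w1 ^ b = 1 := by
  have e : w1 ^ b = w1 ^ (b % 3) := pow_eq_pow_mod b w1_three
  have h : Om (w1 ^ b) := by
    rcases (by omega : b % 3 = 1 ∨ b % 3 = 2) with k | k <;> rw [e, k]
    · simpa using om_w1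
    · exact om_w2
  unfold Om at h ⊢
  exact ⟨h, by linear_combination ((w1 ^ b) ^ 2 - w1 ^ b + 1) * h,
    by linear_combination (w1 ^ b - 1) * h⟩

theorem mb_pos (p : S3) : 0 < QQ p.1 := QQ_pos (nsq_S3 p).le

theorem mb_six (p : S3) : rot ((rot ^ 5) p) = p := by
  have : (rot * rot ^ 5) p = p := by rw [← pow_succ', rot_six]; rfl
  exact this

theorem mb_gg (a b c d : ℕ) (p : S3) : gg a b (gg c d p) = gg (a + c) (b + d) p := by
  rw [← gg_mul]; rfl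

theorem mb_rg (d : ℕ) (p : S3) : rot (gg d 0 p) = gg 0 d (rot p) := by
  have h : SemiconjBy rot (g 5) (g 0) := rot_g 5
  have := (h.pow_right d).eq
  simp only [gg, pow_zero, mul_one, one_mul]
  exact DFunLike.congr_fun this p

/-- Far from the vertex the step across wall `0` gains a factor two. -/
theorem mb_ten {b : ℕ} (hb : b % 3 ≠ 0) {y : S3} (h : 11 / 8 ≤ av 0 y.1) :
    11 * QQ y.1 ≤ 5 * normSq (3 - w1 ^ b * Z2 y.1) := by
  obtain ⟨-, o, e⟩ := mb_om hb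
  have h0 := (av_chart (nsq_S3 y).le).1
  have hq := mb_pos y
  have k : 3 - (w1 ^ b) ^ 2 * (w1 ^ b * Z2 y.1) - Z1 y.1 = 3 - Z1 y.1 - Z2 y.1 := by
    linear_combination (-Z2 y.1) * e
  have := E10 (A := w1 ^ b * Z2 y.1) (B := Z1 y.1)
    (by rw [normSq_mul, supp_w, one_mul, add_comm, Z_sph]) o (by rw [k]; unfold QQ at *; nlinarith)
  rwa [k] at this

theorem mb_exp {b : ℕ} (hb : b % 3 ≠ 0) {y : S3} (h : 11 / 8 ≤ av 0 y.1) (h' : 11 / 8 ≤ av 1 y.1) :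
    53 * QQ y.1 ≤ 50 * QQ (gg 0 b y).1 := by
  obtain ⟨h0, h1, -⟩ := av_chart (nsq_S3 y).le
  have hq := mb_pos y
  rw [supp_QQ, pow_zero, one_mul]
  exact E1c (Z_sph y).le (mb_om hb).1 (by unfold QQ at *; nlinarith) (by unfold QQ at *; nlinarith)

variable (D : Dat) {a b j : ℕ}

theorem mb_rot {i : Fin 6} {x : S3} (h : x ∈ D.X i) (k : ℕ) :
    (rot ^ k) x ∈ D.X (i + k • 1) := by
  induction k with
  | zero => simpa using h
  | succ k ih =>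
    rw [pow_succ', succ_nsmul, ← add_assoc, ← D.bk.rotX]
    exact ⟨_, ih, rfl⟩

theorem mb_one (hb : b % 3 ≠ 0) {y : S3} (h : y ∈ D.X 2 ∪ D.X 3) : gg 0 b y ∈ D.X 1 := by
  rw [D.dec.x1, ← gg_mod]
  rcases (by omega : b % 3 = 1 ∨ b % 3 = 2) with k | k <;> rw [k]
  · exact .inl (.inr ⟨y, h, by simp [gg]⟩)
  · exact .inr ⟨y, h, by simp [gg]⟩

theorem mb_tri (hb : b % 3 ≠ 0) {y : S3} (hy : y ∈ D.Yv) :
    11 * normSq (3 - Z2 y.1) ≤ 10 * normSq (3 - w1 ^ b * Z2 y.1) := by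
  obtain ⟨o, o', e⟩ := mb_om hb
  rcases Yv_hull D hy with k | ⟨n, k⟩
  · obtain ⟨h0, -, h5, -⟩ := av_chart (nsq_S3 y).le
    have k' : hh (Z2 y.1) ≤ 1 := by
      have k : av 5 y.1 ≤ av 0 y.1 := k
      nlinarith [mul_le_mul_of_nonneg_right k (mb_pos y).le]
    have e' : (w1 ^ b) ^ 2 * (w1 ^ b * Z2 y.1) = Z2 y.1 := by linear_combination Z2 y.1 * e
    have := E9 (A := w1 ^ b * Z2 y.1) (B := Z1 y.1)
      (by rw [normSq_mul, supp_w, one_mul, add_comm, Z_sph]) o' (by rwa [e'])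
    rw [e'] at this
    linarith [normSq_nonneg (3 - Z2 y.1)]
  · have z : Z2 ((g 5 ^ n) y).1 = Z2 y.1 := by simpa [gg] using (Z_gg n 0 y).2
    rw [← z]
    generalize (g 5 ^ n) y = q at k
    have s := side_chart q
    have s' := Six_side' k
    have k0 : QQ q.1 ≤ 2 := (chart_sets q).2.2.2.1.1 (hull_KL k 0)
    have e1 : 3 - Z2 q.1 - Z1 q.1 = 3 - Z1 q.1 - Z2 q.1 := by ring
    refine ib_b (A := Z2 q.1) (B := Z1 q.1) (by rw [add_comm, Z_sph]) o (by rwa [e1]) (ib_hs ?_)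
    rw [e1, ← neg_sub, neg_mul, neg_re, s]
    exact neg_nonneg.2 (mul_nonpos_of_nonneg_of_nonpos
      (mul_nonneg (Real.sqrt_nonneg _) (mb_pos q).le) s')

/-- The two ways to bound the potential of type one. -/
theorem mb_ys {z : S3} {s : ℝ} (h : z ∈ D.Ys) (k : s ≤ 103 / 200 * normSq (3 - Z2 z.1)) :
    D.Pot 1 z (s / QQ z.1) :=
  .inl ⟨h, by rw [div_le_iff₀ (mb_pos z), mul_assoc, (mm_chart z).2]; exact k⟩

theorem mb_leg (ha : a % 3 ≠ 0) {y : S3} {s : ℝ} (h : y ∈ D.X 1 ∪ D.X 2)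
    (k : s ≤ 103 / 100 * QQ y.1) : D.Pot 1 (gg a 0 y) (s / QQ (gg a 0 y).1) :=
  .inr ⟨a, ha, y, h, rfl, by rwa [div_mul_cancel₀ _ (mb_pos _).ne']⟩

theorem mb_four (hb : b % 3 ≠ 0) {y : S3} {s : ℝ} (h : y ∈ D.X 4) (k : s ≤ 11 / 10 * QQ y.1) :
    D.Pot 1 (gg a b y) (s / QQ (gg a b y).1) := by
  refine mb_ys D ((D.dec.inS b hb).2 a ⟨y, h, rfl⟩) ?_
  have := mb_ten hb (hl_av (D.wl.hull 4 h)).1
  rw [(Z_gg a b y).2]
  linarith [mb_pos y]

theorem mb_three (ha : a % 3 ≠ 0) (hb : b % 3 ≠ 0) {y : S3} {s : ℝ} (h : y ∈ D.X 3)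
    (k : s ≤ 53 / 50 * QQ y.1) : D.Pot 1 (gg a b y) (s / QQ (gg a b y).1) := by
  have e : gg a b y = gg a 0 (gg 0 b y) := by rw [mb_gg, add_zero, zero_add]
  obtain ⟨-, h0, h1⟩ := hl_av (D.wl.hull 3 h)
  have := mb_exp hb h0 h1
  rw [e]
  exact mb_leg D ha (.inl (mb_one D hb (.inr h))) (by linarith [mb_pos (gg 0 b y)])

theorem tr1_leg (ha : a % 3 ≠ 0) : D.Tr 0 1 a 0 1 ∧ D.Tr 0 1 a 0 2 :=
  ⟨fun x r ⟨h, k⟩ => mb_leg D ha (.inl (mb_rot D h 1)) (by nlinarith [mb_pos ((rot ^ 1) x)]),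
    fun x r ⟨h, k⟩ => mb_leg D ha (.inr (mb_rot D h 2)) (by nlinarith [mb_pos ((rot ^ 2) x)])⟩

/-- E10 -/
theorem tr1_four (hb : b % 3 ≠ 0) : D.Tr 0 1 a b 4 := fun x r ⟨h, k⟩ =>
  mb_four D hb (mb_rot D h 4) (by nlinarith [mb_pos ((rot ^ 4) x)])

/-- y in Yv: Yv_hull, E9, E11; y = g 5 ^ d y', y' in X 4: E10; y' in X 3: the point is in the leg
g 5 ^ d (X 1), E1c -/
theorem tr1_five (hb : b % 3 ≠ 0) : D.Tr 2 1 0 b 5 := by
  intro x r h
  rcases h with ⟨h, k⟩ | ⟨d, hd, u, h, rfl, k⟩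
  · have e := mb_six x
    generalize (rot ^ 5) x = y at e
    subst e
    have hy : y ∈ D.Yv := ⟨_, h, rot.symm_apply_apply y⟩
    refine mb_ys D ((D.dec.inS b hb).1 ⟨y, hy, rfl⟩) ?_
    have u : uw 0 (rot y).1 = uw 5 y.1 := by rw [rot_val]; exact uw_rE 5 y.1
    have m := (mm_chart y).2
    have t := mb_tri D hb hy
    rw [u] at k
    rw [(Z_gg 0 b y).2]
    nlinarith [mb_pos y, normSq_nonneg (3 - Z2 y.1), mul_le_mul_of_nonneg_right k (mb_pos y).le]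
  · have e := mb_six u
    have h' : (rot ^ 5) u ∈ D.X 4 ∪ D.X 3 := h.imp (mb_rot D · 5) (mb_rot D · 5)
    generalize (rot ^ 5) u = y at e h'
    subst e
    have e' : (rot ^ 5) (gg 0 d (rot y)) = gg d 0 y := rot.injective (by rw [mb_six, mb_rg])
    have q := QQ_ratio d y
    have k' : r * QQ (gg d 0 y).1 ≤ 103 / 100 * QQ y.1 :=
      le_of_mul_le_mul_right (by
        rw [mul_assoc, q]; linarith [mul_le_mul_of_nonneg_left k (mb_pos y).le]) (mb_pos (rot y))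
    rw [e', mb_gg, zero_add, add_zero]
    rcases h' with h' | h'
    · exact mb_four D hb h' (by linarith [mb_pos y])
    · exact mb_three D hd hb h' (by linarith [mb_pos y])

/-- for a, b ≠ 0 and j = 2, 3: gg a b * rot ^ j = (gg a 0 * rot) * (gg b 0 * rot ^ (j - 1)); compose
tr1_leg with tr0_one or tr0_far, `Pot.mono` -/
theorem tr1 (h : Stp a b j) : ∃ T', D.Tr T' 1 a b j := by
  obtain ⟨ha, hb, ⟨h, rfl | ⟨rfl, rfl⟩⟩ | ⟨h, rfl | ⟨rfl, rfl⟩⟩ | ⟨h, h', rfl⟩⟩ := h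
  · by_cases k : b = 0
    · exact ⟨0, k ▸ (tr1_leg D (by omega)).2⟩
    · refine ⟨1, fun x r p => ?_⟩
      obtain ⟨-, k'⟩ := tr0_one D (a := b) (by omega) x r p
      have e : gg a b ((rot ^ 2) x) = gg a 0 (gg 0 b ((rot ^ 2) x)) := by
        rw [mb_gg, add_zero, zero_add]
      have q := QQ_ratio b (rot x)
      rw [pow_one, div_le_one (mb_pos _)] at k'
      rw [e]
      refine mb_leg D (by omega) (.inl (mb_one D (by omega) (.inl (mb_rot D p.le.1 2)))) ?_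
      change 50 / 49 * r * QQ (rot (rot x)).1 ≤ 103 / 100 * QQ (gg 0 b (rot (rot x))).1
      refine le_of_mul_le_mul_right ?_ (mb_pos (rot x))
      nlinarith [mul_le_mul_of_nonneg_right k' (mb_pos (rot (rot x))).le,
        mul_pos (mb_pos (rot x)) (mb_pos (gg 0 b (rot (rot x))))]
  · exact ⟨0, (tr1_leg D (by omega)).1⟩
  · exact ⟨0, tr1_four D (by omega)⟩
  · exact ⟨2, tr1_five D (by omega)⟩
  · exact ⟨0, fun x r ⟨p, k⟩ => mb_three D (by omega) (by omega) (mb_rot D p 3)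
      (by nlinarith [mb_pos ((rot ^ 3) x)])⟩

end Pool.Agent.Lib.MP_b7d179_gt.Gm
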