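import Pool.Agent.Lib.MP_b7d179_gt.G.Supp

/-! Local inequalities behind one wall and behind two neighbouring walls. -/

namespace Pool.Agent.Lib.MP_b7d179_gt.Gm

open Set Metric Complex Stmt

theorem p2_five (j : Fin 6) : j - 1 = j + 5 := by revert j; decide

/-- rotation of vertex `0` to vertex `j` -/
theorem p2_tr (j : Fin 6) : ∃ ρ : E → E, Function.Surjective ρ ∧ (∀ p, nsq (ρ p) = nsq p) ∧
    (∀ k p, av (j + k) (ρ p) = av k p) ∧ (∀ c k p, gE c (j + k) (ρ p) = ρ (gE c k p)) ∧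
    (∀ p, av j (ρ p) = av 0 p) ∧ ∀ c p, gE c j (ρ p) = ρ (gE c 0 p) := by
  have key : ∃ ρ : E → E, Function.Surjective ρ ∧ (∀ p, nsq (ρ p) = nsq p) ∧
      (∀ k p, av (j + k) (ρ p) = av k p) ∧ ∀ c k p, gE c (j + k) (ρ p) = ρ (gE c k p) := by
    induction j using supp_ind with
    | h0 => exact ⟨id, Function.surjective_id, fun _ => rfl, fun k p => by rw [zero_add]; rfl,
        fun c k p => by rw [zero_add]; rfl⟩
    | hs e ih =>
      obtain ⟨ρ, hs, hn, ha, hg⟩ := ih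
      have hr : Function.Surjective rE := fun p =>
        ⟨rE^[5] p, (Function.iterate_succ_apply' rE 5 p).symm.trans (rE_six p)⟩
      refine ⟨rE ∘ ρ, hr.comp hs, fun p => ?_, fun k p => ?_, fun c k p => ?_⟩
      · rw [Function.comp_apply, nsq_rE, hn]
      · rw [Function.comp_apply, add_right_comm, av_rE, ha]
      · rw [Function.comp_apply, Function.comp_apply, add_right_comm, ← rE_gE, hg]
  obtain ⟨ρ, hs, hn, ha, hg⟩ := key
  exact ⟨ρ, hs, hn, ha, hg, fun p => by simpa using ha 0 p, fun c p => by simpa using hg c 0 p⟩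

theorem p2_comm {c d : ℂ} (hc : Om c) (hd : Om d) (e : Fin 6) {q : E} (hq : nsq q ≤ 1) :
    gE d (e + 1) (gE c e q) = gE c e (gE d (e + 1) q) := by
  have h := act_orth e
  rw [act_two h (jj_ne (supp_n hc) e hq),
    act_two (by linarith) (jj_ne (supp_n hd) (e + 1) hq)]
  refine Prod.ext ?_ ?_ <;> simp only <;> congr 1 <;> ring

theorem p2_back {c : ℂ} (hc : Om c) (e : Fin 6) {q : E} (hq : nsq q ≤ 1) :
    gE (c ^ 2) e (gE c e q) = q := by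
  have : c ^ 2 * c = 1 := by simpa using supp_back hc 1
  rw [gE_gE (supp_n hc) (supp_n (supp_sq hc)) e hq, this, gE_one]

theorem p2_ch {p : E} (hp : nsq p ≤ 1) : (av 1 p ≤ av 0 p ↔ hh (Z1 p) ≤ 1) ∧
    (av 0 p ≤ av 1 p ↔ 1 ≤ hh (Z1 p)) ∧ (av 5 p ≤ av 0 p ↔ hh (Z2 p) ≤ 1) ∧
    (av 0 p ≤ av 5 p ↔ 1 ≤ hh (Z2 p)) := by
  have hQ := QQ_pos hp
  obtain ⟨a0, a1, a5, -⟩ := av_chart hp
  rw [supp_le hQ a0, supp_le hQ a1, supp_le hQ a0, supp_le hQ a5, a0, a1, a5]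
  refine ⟨?_, ?_, ?_, ?_⟩ <;> constructor <;> intro h <;> linarith

/-- the sphere of a wall and its two sides are invariant under the letters of this wall -/
theorem p2_inv {c : ℂ} (hc : Om c) (e : Fin 6) {q : E} (hq : nsq q ≤ 1) :
    (av (e + 1) (gE c e q) ≤ av e (gE c e q) ↔ av (e + 1) q ≤ av e q) ∧
      (av e (gE c e q) ≤ av (e + 1) (gE c e q) ↔ av e q ≤ av (e + 1) q) := by
  obtain ⟨ρ, hs, hn, ha, hg, ha0, hg0⟩ := p2_tr e
  obtain ⟨q, rfl⟩ := hs q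
  rw [hn] at hq
  simp only [hg0, ha0, ha]
  have a := p2_ch hq
  have b := p2_ch (supp_nsq hc 0 hq)
  rw [a.1, a.2.1, b.1, b.2.1, (Z_gE0 (supp_n hc) hq).1]
  exact ⟨Iff.rfl, Iff.rfl⟩

theorem p2_A0 {c : ℂ} (hc : Om c) {q : E} (hq : nsq q ≤ 1) (h : av 5 q ≤ av 0 q) :
    av 0 (gE c 0 q) ≤ 3 / 4 ∧ av 0 (gE c 0 q) < av 5 (gE c 0 q) ∧ 8 / 5 ≤ av 2 (gE c 0 q) ∧
      8 / 5 ≤ av 3 (gE c 0 q) ∧ 8 / 5 ≤ av 4 (gE c 0 q) := by
  have hp := supp_nsq hc 0 hq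
  have k : hh (c ^ 2 * Z2 (gE c 0 q)) ≤ 1 := by
    rw [(Z_gE0 (supp_n hc) hq).2, supp_back hc]; exact (p2_ch hq).2.2.1.1 h
  generalize gE c 0 q = p at *
  have hQ := QQ_pos hp
  obtain ⟨c0, -, -, c2, c3, c4⟩ := av_chart hp
  have hb := Z_ball hp
  have hb' : normSq (Z2 p) + normSq (Z1 p) ≤ 3 := by linarith
  have e3 := E3 hb' (supp_sq hc) k
  have e4 := E4 hb' (supp_sq hc) k
  have e5 := E6o (d := c) hb' (supp_sq hc) (.inr (.inl k))
  have e6 := E6n (d := c) hb' (supp_sq hc) (.inr (.inl k))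
  have e7 := E6n (d := c) hb (supp_sq hc) (.inr (.inr (.inl k)))
  rw [sub_right_comm 3] at e3 e5 e6
  rw [sub_right_comm 5] at e5
  rw [sub_right_comm 4] at e6
  rw [supp_le hQ c2, supp_le hQ c3, supp_le hQ c4, ← not_le, (p2_ch hp).2.2.1]
  unfold QQ at *
  refine ⟨by nlinarith, by linarith, by linarith, by linarith, by linarith⟩

theorem p2_B0 {c : ℂ} (hc : Om c) {q : E} (hq : nsq q ≤ 1) (h : av 2 q ≤ av 1 q) :
    av 1 (gE c 0 q) ≤ 3 / 4 ∧ av 1 (gE c 0 q) < av 2 (gE c 0 q) ∧ 8 / 5 ≤ av 5 (gE c 0 q) ∧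
      8 / 5 ≤ av 4 (gE c 0 q) ∧ 8 / 5 ≤ av 3 (gE c 0 q) := by
  have h := p2_A0 hc (q := lE 1 0 0 (-1) q)
    (by rwa [nsq_lE (by norm_num) (by norm_num) (by norm_num)]) (by rwa [supp_mir, supp_mir])
  rw [← act_gE (i := 0) (act_uw (by simp [mv]) (by simp [mv]) q) (by simp [mv]) (by simp [mv])] at h
  simp only [supp_mir] at h
  exact h

theorem p2_C0 {c d : ℂ} (hc : Om c) (hd : Om d) {q p : E} (hq : nsq q ≤ 1) (h : 8 / 5 ≤ av 0 q)
    (e : p = gE c 0 (gE d 5 q)) : av 0 p ≤ 3 / 4 ∧ av 0 p < av 1 p ∧ av 0 p < av 5 p ∧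
      8 / 5 ≤ av 2 p ∧ 8 / 5 ≤ av 3 p ∧ 8 / 5 ≤ av 4 p := by
  have hr := supp_nsq hd 5 hq
  have hp : nsq p ≤ 1 := e ▸ supp_nsq hc 0 hr
  have z1 : Z1 p = d * Z1 q := by rw [e, (Z_gE0 (supp_n hc) hr).1, (Z_gE5 (supp_n hd) hq).1]
  have z2 : Z2 p = c * Z2 q := by rw [e, (Z_gE0 (supp_n hc) hr).2, (Z_gE5 (supp_n hd) hq).2]
  have b0 := (supp_le (QQ_pos hq) (av_chart hq).1 _).1 h
  have hQ := QQ_pos hp
  obtain ⟨c0, -, -, c2, c3, c4⟩ := av_chart hp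
  have hb := Z_ball hp
  have hb' : normSq (Z2 p) + normSq (Z1 p) ≤ 3 := by linarith
  have hq1 := Z_ball hq
  have hq2 : normSq (Z2 q) + normSq (Z1 q) ≤ 3 := by linarith
  have k : normSq (3 - d ^ 2 * Z1 p - c ^ 2 * Z2 p) ≤ 2 := by
    rw [z1, z2, supp_back hc, supp_back hd]; unfold QQ at b0; linarith
  have e2 := E2 hq1 hd hc (by unfold QQ at b0; linarith)
  have e5 := E6o hb (supp_sq hd) (.inr (.inr ⟨supp_sq hc, k⟩))
  have e6 := E6n hb (supp_sq hd) (.inr (.inr (.inr ⟨supp_sq hc, k⟩)))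
  have e7 := E6n hb' (supp_sq hc) (.inr (.inr (.inr ⟨supp_sq hd, by rwa [sub_right_comm]⟩)))
  rw [sub_right_comm 3, sub_right_comm 4] at e7
  rw [← z1, ← z2] at e2
  rw [supp_le hQ c2, supp_le hQ c3, supp_le hQ c4, ← not_le, ← not_le, (p2_ch hp).1,
    (p2_ch hp).2.2.1]
  unfold QQ at *
  refine ⟨by nlinarith, fun k1 => ?_, fun k2 => ?_, by linarith, by linarith, by linarith⟩
  · have := E3 hq1 hd (z1 ▸ k1)
    linarith
  · have := E3 hq2 hc (z2 ▸ k2)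
    rw [sub_right_comm] at this
    linarith

section
variable {c d : ℂ} (hc : Om c) (e : Fin 6) {q : E} (hq : nsq q ≤ 1)
include hc hq

theorem p2_A (h : av (e + 5) q ≤ av e q) :
    av e (gE c e q) ≤ 3 / 4 ∧ av e (gE c e q) < av (e + 5) (gE c e q) ∧
      8 / 5 ≤ av (e + 2) (gE c e q) ∧ 8 / 5 ≤ av (e + 3) (gE c e q) ∧
      8 / 5 ≤ av (e + 4) (gE c e q) := by
  obtain ⟨ρ, hs, hn, ha, hg, ha0, hg0⟩ := p2_tr e
  obtain ⟨q, rfl⟩ := hs q
  simp only [hn, hg0, ha0, ha] at h hq ⊢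
  exact p2_A0 hc hq h

theorem p2_B (h : av (e + 2) q ≤ av (e + 1) q) :
    av (e + 1) (gE c e q) ≤ 3 / 4 ∧ av (e + 1) (gE c e q) < av (e + 2) (gE c e q) ∧
      8 / 5 ≤ av (e + 5) (gE c e q) ∧ 8 / 5 ≤ av (e + 4) (gE c e q) ∧
      8 / 5 ≤ av (e + 3) (gE c e q) := by
  obtain ⟨ρ, hs, hn, ha, hg, ha0, hg0⟩ := p2_tr e
  obtain ⟨q, rfl⟩ := hs q
  simp only [hn, hg0, ha] at h hq ⊢
  exact p2_B0 hc hq h

theorem p2_C (hd : Om d) {p : E} (h : 8 / 5 ≤ av e q) (k : p = gE c e (gE d (e + 5) q)) :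
    av e p ≤ 3 / 4 ∧ av e p < av (e + 1) p ∧ av e p < av (e + 5) p ∧
      8 / 5 ≤ av (e + 2) p ∧ 8 / 5 ≤ av (e + 3) p ∧ 8 / 5 ≤ av (e + 4) p := by
  obtain ⟨ρ, hs, hn, ha, hg, ha0, hg0⟩ := p2_tr e
  obtain ⟨q, rfl⟩ := hs q
  subst k
  simp only [hn, hg0, hg, ha0, ha] at h hq ⊢
  exact p2_C0 hc hd hq h rfl

/-- what the two conditions before the letter of wall `e` give after it -/
theorem p2_D (h0 : 8 / 5 ≤ av e q ∨ av (e + 5) q ≤ av e q)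
    (h1 : 8 / 5 ≤ av (e + 1) q ∨ av (e + 2) q ≤ av (e + 1) q) :
    av e (gE c e q) < av (e + 5) (gE c e q) ∧ av (e + 1) (gE c e q) < av (e + 2) (gE c e q) ∧
      8 / 5 ≤ av (e + 3) (gE c e q) ∧ 8 / 5 ≤ av (e + 4) (gE c e q) ∧
      (av e (gE c e q) < 11 / 8 ∨ av (e + 1) (gE c e q) < 11 / 8) := by
  obtain ⟨ρ, hs, hn, ha, hg, ha0, hg0⟩ := p2_tr e
  obtain ⟨q, rfl⟩ := hs q
  simp only [hn, hg0, ha0, ha] at h0 h1 hq ⊢
  have a : av 0 (gE c 0 q) < av 5 (gE c 0 q) ∧ 8 / 5 ≤ av 3 (gE c 0 q) ∧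
      8 / 5 ≤ av 4 (gE c 0 q) := by
    rcases h0 with h | h
    · obtain ⟨a1, a2, a3, -⟩ := gE_zero hc hq (by linarith)
      exact ⟨a1, by linarith, by linarith⟩
    · obtain ⟨-, a1, -, a2, a3⟩ := p2_A0 hc hq h
      exact ⟨a1, a2, a3⟩
  refine ⟨a.1, h1.elim (fun h => (gE_one' hc hq (by linarith)).1) fun h => (p2_B0 hc hq h).2.1,
    a.2.1, a.2.2, ?_⟩
  rcases h0 with h0 | h0
  · rcases h1 with h1 | h1
    · have := gE_free hc hq (by linarith) (by linarith)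
      rwa [not_and_or, not_le, not_le] at this
    · exact .inr (by linarith [(p2_B0 hc hq h1).1])
  · exact .inl (by linarith [(p2_A0 hc hq h0).1])

end

/-- images of a closed set behind a wall -/
def p2T (i : Fin 6) (S : Set E) : Set E := {p | ∃ c q, Om c ∧ nsq q ≤ 1 ∧ q ∈ S ∧ p = gE c i q}

theorem p2_closed (i : Fin 6) {S : Set E} (hS : IsClosed S) : IsClosed (p2T i S) := by
  have hB : IsCompact {q : E | nsq q ≤ 1} := by
    refine Metric.isCompact_of_isClosed_isBounded (isClosed_le cont_nsq continuous_const)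
      ((Metric.isBounded_closedBall (x := (0 : E)) (r := 1)).subset fun p hp => ?_)
    have hp' : normSq p.1 + normSq p.2 ≤ 1 := hp
    rw [normSq_eq_norm_sq, normSq_eq_norm_sq] at hp'
    rw [mem_closedBall_zero_iff, Prod.norm_def, max_le_iff]
    constructor <;> nlinarith [norm_nonneg p.1, norm_nonneg p.2]
  have k : ∀ c, Om c → IsClosed (gE c i '' ({q : E | nsq q ≤ 1} ∩ S)) := fun c hc =>
    ((hB.inter_right hS).image_of_continuousOn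
      ((contOn_gE (supp_n hc) i).mono inter_subset_left)).isClosed
  have h2 : Om (-1 - w1) := by
    have := om_w1
    unfold Om at this ⊢
    linear_combination this
  convert (k _ om_w1).union (k _ h2) using 1
  ext p
  constructor
  · rintro ⟨c, q, hc, hq, hs, rfl⟩
    rcases om_w1.cases hc with rfl | rfl
    · exact .inl ⟨q, ⟨hq, hs⟩, rfl⟩
    · exact .inr ⟨q, ⟨hq, hs⟩, rfl⟩
  · rintro (⟨q, ⟨hq, hs⟩, rfl⟩ | ⟨q, ⟨hq, hs⟩, rfl⟩)
    · exact ⟨_, q, om_w1, hq, hs, rfl⟩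
    · exact ⟨_, q, h2, hq, hs, rfl⟩

end Pool.Agent.Lib.MP_b7d179_gt.Gm
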