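import Pool.Agent.Lib.MP_b7d179_gt.G.Kap

/-! The solid torus is star shaped in each slice; the first level lenses tile the sphere. -/

namespace Pool.Agent.Lib.MP_b7d179_gt.Gm

open Set Metric Complex Stmt

/-- the least of the six functions -/
noncomputable def radM (p : S3) : ℝ := Finset.univ.inf' Finset.univ_nonempty fun j => kk j p.1

lemma rad_cont : Continuous radM :=
  Continuous.finset_inf'_apply _ fun j _ => (cont_kk j).comp continuous_subtype_val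

lemma rad_Kt (p : S3) : 0 ≤ radM p ↔ p ∈ Kt := by
  rw [radM, Finset.le_inf'_iff]
  exact ⟨fun h j => h j (Finset.mem_univ _), fun h j _ => h j⟩

lemma rad_le (p : S3) : radM p ≤ 0 ↔ ∃ j, kk j p.1 ≤ 0 := by simp [radM, Finset.inf'_le_iff]

lemma rad_norm {d : ℂ} (hd : ‖d‖ = 1) {r : ℝ} (h : 0 ≤ r) : ‖(r : ℂ) * d‖ = r := by
  rw [norm_mul, hd, mul_one, norm_real, Real.norm_of_nonneg h]

lemma rad_val {d e : ℂ} (hd : ‖d‖ = 1) (he : ‖e‖ = 1) {r : ℝ} (h : 0 ≤ r) (h' : r ≤ 1) :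
    xx (sl (r * d) e).1 = r * d ∧ yy (sl (r * d) e).1 = (√(1 - r ^ 2) : ℝ) * e := by
  have := sl_val ((rad_norm hd h).trans_le h') he
  rwa [normSq_eq_norm_sq, rad_norm hd h] at this

/-- continuity of the slice coordinates -/
lemma rad_contOn {X : Type*} [TopologicalSpace X] {A : Set X} {r : X → ℝ} {d e : X → ℂ}
    (hr : ContinuousOn r A) (hd : ContinuousOn d A) (he : ContinuousOn e A)
    (h : ∀ x ∈ A, ‖d x‖ = 1 ∧ ‖e x‖ = 1 ∧ 0 ≤ r x ∧ r x ≤ 1) :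
    ContinuousOn (fun x => sl (r x * d x) (e x)) A :=
  contOn_sl.comp (f := fun x => (r x * d x, e x))
    (((continuous_ofReal.comp_continuousOn hr).mul hd).prodMk he) fun x m =>
      ⟨mem_closedBall_zero_iff.2 ((rad_norm (h x m).1 (h x m).2.2.1).trans_le (h x m).2.2.2),
        mem_sphere_zero_iff_norm.2 (h x m).2.1⟩

theorem Rad_spec : ContinuousOn (fun q : ℂ × ℂ => Rad q.1 q.2) (sphere 0 1 ×ˢ sphere 0 1) ∧
    ∀ d e : ℂ, ‖d‖ = 1 → ‖e‖ = 1 → 0 < Rad d e ∧ Rad d e < 1 ∧ ∀ r ∈ Icc (0 : ℝ) 1,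
      (sl (r * d) e ∈ Kt ↔ r ≤ Rad d e) ∧ ((∃ j, sl (r * d) e ∈ Out j) ↔ Rad d e ≤ r) := by
  have n : ∀ {z : ℂ}, z ∈ sphere (0 : ℂ) 1 → ‖z‖ = 1 := mem_sphere_zero_iff_norm.1
  have e : (fun q : ℂ × ℂ => Rad q.1 q.2) =
      root (fun (q : ℂ × ℂ) (r : ℝ) => radM (sl (r * q.1) q.2)) 0 1 := by
    funext q
    simp only [Rad, root, rad_Kt]
  obtain ⟨h1, h2⟩ := root_spec (G := fun (q : ℂ × ℂ) (r : ℝ) => radM (sl (r * q.1) q.2))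
    (A := sphere 0 1 ×ˢ sphere 0 1) zero_lt_one
    (rad_cont.comp_continuousOn (rad_contOn (by fun_prop) (by fun_prop) (by fun_prop)
      fun x m => ⟨n m.1.1, n m.1.2, m.2.1, m.2.2⟩))
    (fun x m => (Finset.lt_inf'_iff _).2 fun j _ => kc_int
      ((rad_val (n m.1) (n m.2) le_rfl zero_le_one).1.trans (by simp)) j)
    (fun x m => not_le.1 fun h => by
      obtain ⟨j, hj⟩ := real_out (p := sl ((1 : ℝ) * x.1) x.2) (by
        rw [(rad_val (n m.1) (n m.2) zero_le_one le_rfl).1, normSq_eq_norm_sq,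
          rad_norm (n m.1) zero_le_one]
        norm_num)
      exact hj.not_ge (Kt_KL ((rad_Kt _).1 h) j))
    (fun x m u hu v hv l h => by
      obtain ⟨j, hj⟩ := (rad_le _).1 h
      exact (Finset.inf'_le _ (Finset.mem_univ j)).trans_lt
        (ray_cross j (n m.1) (n m.2) hu.1 l hv.2 hj))
  rw [← e] at h1 h2
  refine ⟨h1, fun d e hd he => ?_⟩
  obtain ⟨a, -, b⟩ := h2 (d, e) ⟨mem_sphere_zero_iff_norm.2 hd, mem_sphere_zero_iff_norm.2 he⟩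
  refine ⟨a.1, a.2, fun r hr => ⟨(rad_Kt _).symm.trans (b r hr).1,
    Iff.trans ?_ ((rad_le _).symm.trans (b r hr).2)⟩⟩
  refine ⟨fun ⟨j, h⟩ => ⟨j, h.2.2⟩, fun ⟨j, h⟩ => (cover _).elim (fun k => ?_) id⟩
  exact (Kt_bd k h).imp fun m a => a.1

lemma rad_polar (p : S3) :
    ∃ d e : ℂ, ‖d‖ = 1 ∧ ‖e‖ = 1 ∧ ∃ r ∈ Icc (0 : ℝ) 1, p = sl (r * d) e := by
  obtain ⟨h, e, he, k⟩ := sl_surj p
  obtain ⟨d, hd, l⟩ := exists_norm_mul_eq_self (xx p.1)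
  exact ⟨d, e, hd, he, _, ⟨norm_nonneg _, h⟩, by rw [mul_comm, l, k]⟩

theorem Aj_rad {j : Fin 6} {q : S3} (hq : q ∈ Aj j) :
    ∃ d e : ℂ, ‖d‖ = 1 ∧ ‖e‖ = 1 ∧ q = sl (Rad d e * d) e := by
  obtain ⟨d, e, hd, he, r, hr, rfl⟩ := rad_polar q
  have h := (Rad_spec.2 d e hd he).2.2 r hr
  exact ⟨d, e, hd, he, by rw [le_antisymm (h.1.1 hq.2) (h.2.1 ⟨j, hq.1⟩)]⟩

lemma rad_sl {p : S3} {e : ℂ} (he : ‖e‖ = 1) {c : ℝ} (hc : 0 ≤ c) (h : yy p.1 = c * e) :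
    p = sl (xx p.1) e := by
  have k := (nsq_xy p.1).symm.trans (nsq_S3 p)
  rw [h, normSq_eq_norm_sq (_ * _), rad_norm he hc] at k
  rw [sl, show 1 - normSq (xx p.1) = c ^ 2 by linarith, Real.sqrt_sq hc, ← h, xy_coe]

lemma rad_sq {r : ℝ} (h : 0 ≤ r) (h' : r < 1) : 0 < √(1 - r ^ 2) :=
  Real.sqrt_pos.2 (by nlinarith)

lemma rad_cone {Q : Set S3} {j : Fin 6} (hQ : Q ⊆ Aj j) (p : S3) : p ∈ cone Q ↔
    ∃ d e : ℂ, ‖d‖ = 1 ∧ ‖e‖ = 1 ∧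
      sl (Rad d e * d) e ∈ Q ∧ ∃ r ∈ Icc 0 (Rad d e), p = sl (r * d) e := by
  constructor
  · rintro ⟨q, hq, t, ht, s, hs, hx, hy⟩
    obtain ⟨d, e, hd, he, rfl⟩ := Aj_rad (hQ hq)
    obtain ⟨a, b, -⟩ := Rad_spec.2 d e hd he
    obtain ⟨vx, vy⟩ := rad_val hd he a.le b.le
    refine ⟨d, e, hd, he, hq, t * Rad d e, ⟨mul_nonneg ht.1 a.le, mul_le_of_le_one_left a.le ht.2⟩,
      (rad_sl he (c := s * √(1 - Rad d e ^ 2)) (by positivity) ?_).trans ?_⟩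
    · rw [hy, vy, ofReal_mul, mul_assoc]
    · rw [hx, vx, ofReal_mul, mul_assoc]
  · rintro ⟨d, e, hd, he, hq, r, hr, rfl⟩
    obtain ⟨a, b, -⟩ := Rad_spec.2 d e hd he
    obtain ⟨vx, vy⟩ := rad_val hd he a.le b.le
    obtain ⟨wx, wy⟩ := rad_val hd he hr.1 (hr.2.trans b.le)
    have s1 := rad_sq a.le b
    refine ⟨_, hq, r / Rad d e, ⟨div_nonneg hr.1 a.le, (div_le_one a).2 hr.2⟩,
      √(1 - r ^ 2) / √(1 - Rad d e ^ 2), div_pos (rad_sq hr.1 (hr.2.trans_lt b)) s1, ?_, ?_⟩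
    · rw [wx, vx, ← mul_assoc, ← ofReal_mul, div_mul_cancel₀ _ a.ne']
    · rw [wy, vy, ← mul_assoc, ← ofReal_mul, div_mul_cancel₀ _ s1.ne']

theorem Six_iff (j : Fin 6) (p : S3) : p ∈ Six j ↔ ∃ d e : ℂ, ‖d‖ = 1 ∧ ‖e‖ = 1 ∧
    sl (Rad d e * d) e ∈ Aj j ∧ ∃ r ∈ Icc 0 (Rad d e), p = sl (r * d) e := rad_cone subset_rfl p

lemma rad_mono {Q Q' : Set S3} (h : Q ⊆ Q') : cone Q ⊆ cone Q' :=
  fun _ ⟨q, a, b⟩ => ⟨q, h a, b⟩

lemma rad_self (Q : Set S3) : Q ⊆ cone Q := fun q a =>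
  ⟨q, a, 1, ⟨zero_le_one, le_rfl⟩, 1, zero_lt_one, by simp, by simp⟩

theorem Six_Kt (j : Fin 6) : Six j ⊆ Kt ∧ Ann j ⊆ Six j ∧ Ann j ⊆ Six (j + 1) ∧ Aj j ⊆ Six j := by
  refine ⟨fun p hp => ?_, rad_mono fun q a => ((Aj_adj j).1.ge a).1,
    rad_mono fun q a => ((Aj_adj j).1.ge a).2, rad_self _⟩
  obtain ⟨d, e, hd, he, -, r, hr, rfl⟩ := (Six_iff j p).1 hp
  obtain ⟨-, b, c⟩ := Rad_spec.2 d e hd he
  exact (c r ⟨hr.1, hr.2.trans b.le⟩).1.2 hr.2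

theorem Kt_six {p : S3} (hp : p ∈ Kt) : ∃ j, p ∈ Six j := by
  obtain ⟨d, e, hd, he, r, hr, rfl⟩ := rad_polar p
  obtain ⟨a, b, c⟩ := Rad_spec.2 d e hd he
  obtain ⟨j, hj⟩ := (c _ ⟨a.le, b.le⟩).2.2 le_rfl
  exact ⟨j, (Six_iff j _).2 ⟨d, e, hd, he, ⟨hj, (c _ ⟨a.le, b.le⟩).1.2 le_rfl⟩, r,
    ⟨hr.1, (c r hr).1.1 hp⟩, rfl⟩⟩

theorem Six_Out {i j : Fin 6} {p : S3} (h : p ∈ Six i) (h' : p ∈ Out j) : p ∈ Aj i ∩ Aj j := by
  refine ⟨?_, h', (Six_Kt i).1 h⟩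
  obtain ⟨d, e, hd, he, hq, r, hr, rfl⟩ := (Six_iff i p).1 h
  obtain ⟨-, b, c⟩ := Rad_spec.2 d e hd he
  rwa [le_antisymm hr.2 ((c r ⟨hr.1, hr.2.trans b.le⟩).2.1 ⟨j, h'⟩)]

lemma rad_two {j k : Fin 6} {p : S3} (h : p ∈ Six j) (h' : p ∈ Six k) :
    p ∈ kc ∨ p ∈ cone (Aj j ∩ Aj k) := by
  obtain ⟨d, e, hd, he, hq, r, hr, rfl⟩ := (Six_iff j p).1 h
  obtain ⟨d', e', hd', he', hq', r', hr', k⟩ := (Six_iff k _).1 h'
  have b := hr.2.trans_lt (Rad_spec.2 d e hd he).2.1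
  have b' := hr'.2.trans_lt (Rad_spec.2 d' e' hd' he').2.1
  obtain ⟨k1, k2⟩ := (sl_eq ((rad_norm hd hr.1).trans_le b.le) he
    ((rad_norm hd' hr'.1).trans_le b'.le) he').1 k
  obtain rfl := k2.resolve_right ((rad_norm hd hr.1).trans_lt b).ne
  obtain rfl : r = r' := by rw [← rad_norm hd hr.1, k1, rad_norm hd' hr'.1]
  by_cases z : (r : ℂ) = 0
  · exact Or.inl ((rad_val hd he hr.1 b.le).1.trans (by rw [z, zero_mul]))
  · obtain rfl := mul_left_cancel₀ z k1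
    exact Or.inr ((rad_cone inter_subset_left _).2 ⟨d, e, hd, he, ⟨hq, hq'⟩, r, hr, rfl⟩)

theorem Six_adj (e : Fin 6) : Six e ∩ Six (e + 1) = Ann e :=
  Subset.antisymm (fun _ h => (rad_two h.1 h.2).elim (kc_Ann e ·) fun k => by
    rwa [(Aj_adj e).1] at k) (subset_inter (Six_Kt e).2.1 (Six_Kt e).2.2.1)

lemma rad_kc (j : Fin 6) : kc ⊆ Six j := (kc_Ann j).trans (Six_Kt j).2.1

theorem Six_far {j k : Fin 6} (h0 : k ≠ j) (h1 : k ≠ j + 1) (h2 : k ≠ j - 1) :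
    Six j ∩ Six k = kc :=
  Subset.antisymm (fun _ h => (rad_two h.1 h.2).resolve_right fun ⟨_, a, _⟩ =>
    disjoint_left.1 (Out_disj h0 h1 h2) a.1.1 a.2.1) (subset_inter (rad_kc j) (rad_kc k))

theorem closed_Xp (j : Fin 6) : IsClosed (Six j) ∧ IsClosed (Xp j) := by
  suffices h : IsClosed (Six j) from ⟨h, h.union (closed_sets j).2.2.2.1⟩
  have n : ∀ {z : ℂ}, z ∈ sphere (0 : ℂ) 1 → ‖z‖ = 1 := mem_sphere_zero_iff_norm.1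
  obtain ⟨A, hA⟩ : ∃ A : Set ((ℂ × ℂ) × ℝ), A = (sphere 0 1 ×ˢ sphere 0 1) ×ˢ Icc 0 1 := ⟨_, rfl⟩
  have cA : IsCompact A := hA ▸ ((isCompact_sphere _ _).prod (isCompact_sphere _ _)).prod isCompact_Icc
  have cR : ContinuousOn (fun x : (ℂ × ℂ) × ℝ => Rad x.1.1 x.1.2) A :=
    Rad_spec.1.comp continuousOn_fst fun x m => (hA.le m).1
  have R : ∀ x ∈ A, ‖x.1.1‖ = 1 ∧ ‖x.1.2‖ = 1 ∧ 0 ≤ Rad x.1.1 x.1.2 ∧ Rad x.1.1 x.1.2 ≤ 1 :=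
    fun x m => have a := n (hA.le m).1.1; have b := n (hA.le m).1.2
      ⟨a, b, (Rad_spec.2 _ _ a b).1.le, (Rad_spec.2 _ _ a b).2.1.le⟩
  have c1 := rad_contOn cR (by fun_prop) (by fun_prop) R
  have c2 := rad_contOn (continuousOn_snd.mul cR) (by fun_prop) (by fun_prop) fun x m =>
    ⟨(R x m).1, (R x m).2.1, mul_nonneg (hA.le m).2.1 (R x m).2.2.1,
      mul_le_one₀ (hA.le m).2.2 (R x m).2.2.1 (R x m).2.2.2⟩
  have k := ((cA.of_isClosed_subset (c1.preimage_isClosed_of_isClosed cA.isClosed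
    (closed_sets j).2.2.2.2.1) inter_subset_left).image_of_continuousOn
      (c2.mono inter_subset_left)).isClosed
  refine (Subset.antisymm ?_ fun p hp => ?_ : _ = Six j) ▸ k
  · rintro _ ⟨x, ⟨m, hx⟩, rfl⟩
    exact (Six_iff j _).2 ⟨_, _, (R x m).1, (R x m).2.1, hx, _,
      ⟨mul_nonneg (hA.le m).2.1 (R x m).2.2.1, mul_le_of_le_one_left (R x m).2.2.1 (hA.le m).2.2⟩,
      rfl⟩
  · obtain ⟨d, e, hd, he, hq, r, hr, rfl⟩ := (Six_iff j p).1 hp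
    have a := (Rad_spec.2 d e hd he).1
    refine ⟨((d, e), r / Rad d e), ⟨hA.ge ⟨⟨mem_sphere_zero_iff_norm.2 hd,
      mem_sphere_zero_iff_norm.2 he⟩, div_nonneg hr.1 a.le, (div_le_one a).2 hr.2⟩, hq⟩, ?_⟩
    show sl (((r / Rad d e * Rad d e : ℝ) : ℂ) * d) e = _
    rw [div_mul_cancel₀ _ a.ne']

theorem Xp_adj (j : Fin 6) : Xp j ∩ Xp (j + 1) = Hp j := by
  rw [Hp, ← Out_adj]
  refine Subset.antisymm ?_ (union_subset (subset_inter ((Six_Kt j).2.1.trans subset_union_left)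
    ((Six_Kt j).2.2.1.trans subset_union_left)) (inter_subset_inter subset_union_right
      subset_union_right))
  rintro p ⟨a | a, b | b⟩
  exacts [Or.inl ((Six_adj j).le ⟨a, b⟩), Or.inr ⟨(Six_Out a b).1.1, b⟩,
    Or.inr ⟨a, (Six_Out b a).1.1⟩, Or.inr ⟨a, b⟩]

theorem Xp_far {j k : Fin 6} (h0 : k ≠ j) (h1 : k ≠ j + 1) (h2 : k ≠ j - 1) :
    Xp j ∩ Xp k = kc := by
  have d := disjoint_left.1 (Out_disj h0 h1 h2)
  refine Subset.antisymm ?_ (subset_inter ((rad_kc j).trans subset_union_left)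
    ((rad_kc k).trans subset_union_left))
  rintro p ⟨a | a, b | b⟩
  exacts [(Six_far h0 h1 h2).le ⟨a, b⟩, (d (Six_Out a b).1.1 b).elim,
    (d a (Six_Out b a).1.1).elim, (d a b).elim]

theorem Xp_cov (p : S3) : ∃ j, p ∈ Xp j :=
  (cover p).elim (fun h => (Kt_six h).imp fun _ => Or.inl) fun h => h.imp fun _ => Or.inr

theorem Xp_Kt (j : Fin 6) : Xp j ∩ Kt = Six j ∧ Hp j ∩ Kt = Ann j ∧ Hp j ∩ Uu j = Ann j := by
  have a : Ann j ⊆ Kt := (Six_Kt j).2.1.trans (Six_Kt j).1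
  have u : Kt ⊆ Uu j := fun p h => ⟨Kt_KL h j, Kt_KL h (j + 1)⟩
  have b : Hp j ∩ Uu j ⊆ Ann j := fun p h => h.1.elim id fun k =>
    rad_self (kap j) ⟨le_antisymm k.2 h.2.1, k.1.symm.trans (le_antisymm k.2 h.2.1)⟩
  exact ⟨Subset.antisymm (fun p h => h.1.elim id fun k => (Six_Kt j).2.2.2 ⟨k, h.2⟩)
    (subset_inter subset_union_left (Six_Kt j).1),
    Subset.antisymm ((inter_subset_inter_right _ u).trans b) (subset_inter subset_union_left a),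
    Subset.antisymm b (subset_inter subset_union_left (a.trans u))⟩

lemma rad_nv : ‖nv 0‖ = 1 := by
  have := nv_sq 0
  rw [← sq_eq_sq₀ (norm_nonneg _) zero_le_one, ← normSq_eq_norm_sq, normSq_apply]
  linarith

theorem Xp_ray {j : Fin 6} {p : S3} (hp : p ∈ Xp j) {r : ℝ} (hr : 0 < r) (hx : xx p.1 = r * nv 0) :
    j = 0 := by
  rcases hp with ⟨q, hq, t, ht, -, -, h, -⟩ | hp
  · have z : (t : ℂ) ≠ 0 := fun z => by
      have := rad_norm rad_nv hr.le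
      rw [← hx, h, z, zero_mul, norm_zero] at this
      exact hr.ne this
    refine (ray hq.1 (div_nonneg hr.le ht.1) (mul_left_cancel₀ z ?_)).1
    rw [← h, hx, ofReal_div, ← mul_assoc, mul_div_cancel₀ _ z]
  · exact (ray hp hr.le hx).1

theorem Mm_spec : Continuous Mm ∧ ∀ t, Mm t ∈ Aj 0 ∧ av 0 (Mm t).1 < av 1 (Mm t).1 ∧
    av 0 (Mm t).1 < av 5 (Mm t).1 ∧ (∃ r : ℝ, 0 < r ∧ r < 1 ∧ xx (Mm t).1 = r * nv 0) ∧
    ∃ s : ℝ, 0 < s ∧ yy (Mm t).1 = s * exp (t * I) := by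
  have n : ∀ t : ℝ, ‖exp (t * I)‖ = 1 := norm_exp_ofReal_mul_I
  refine ⟨continuousOn_univ.1 (rad_contOn (Rad_spec.1.comp
    (f := fun t : ℝ => (nv 0, exp (t * I))) (by fun_prop) fun t _ =>
      ⟨mem_sphere_zero_iff_norm.2 rad_nv, mem_sphere_zero_iff_norm.2 (n t)⟩) continuousOn_const
    (by fun_prop) fun t _ => ⟨rad_nv, n t, (Rad_spec.2 _ _ rad_nv (n t)).1.le,
      (Rad_spec.2 _ _ rad_nv (n t)).2.1.le⟩), fun t => ?_⟩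
  obtain ⟨a, b, c⟩ := Rad_spec.2 _ _ rad_nv (n t)
  obtain ⟨vx, vy⟩ := rad_val rad_nv (n t) a.le b.le
  obtain ⟨j, hj⟩ := (c _ ⟨a.le, b.le⟩).2.2 le_rfl
  obtain ⟨rfl, h1, h5⟩ := ray hj a.le vx
  exact ⟨⟨hj, (c _ ⟨a.le, b.le⟩).1.2 le_rfl⟩, h1, h5, ⟨_, a, b, vx⟩, _, rad_sq a.le b, vy⟩

end Pool.Agent.Lib.MP_b7d179_gt.Gm
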