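import Pool.Agent.Lib.MP_b7d179_gt.G.Ping
import Pool.Agent.Lib.MP_b7d179_gt.G.Supp
import Pool.Agent.Lib.MP_b7d179_gt.G.Rad
import Pool.Agent.Lib.MP_b7d179_gt.G.Ping21

/-! The limit set misses the core. -/

namespace Pool.Agent.Lib.MP_b7d179_gt.Gm

open Set Metric Complex Stmt

/-- allowed before the letter of wall `e` -/
def Wl (e : Fin 6) (p : E) : Prop := (8 / 5 ≤ av e p ∨ av (e - 1) p ≤ av e p) ∧
  (8 / 5 ≤ av (e + 1) p ∨ av (e + 2) p ≤ av (e + 1) p)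
/-- behind wall `e` only -/
def Z1s (e : Fin 6) (p : E) : Prop := ∃ c q, Om c ∧ nsq q ≤ 1 ∧ Wl e q ∧ p = gE c e q
/-- behind the walls `j - 1` and `j` -/
def Z2s (j : Fin 6) (p : E) : Prop := ∃ c q, Om c ∧ nsq q ≤ 1 ∧
  ((∃ d, Om d ∧ 8 / 5 ≤ av j q ∧ p = gE c j (gE d (j - 1) q)) ∨
    (av (j - 1) q ≤ av j q ∧ p = gE c j q) ∨ (av (j + 1) q ≤ av j q ∧ p = gE c (j - 1) q))

/-- normal forms with the set of possible last letters -/
inductive NF : (Fin 6 → Prop) → E → Prop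
  | zero : NF (fun _ => False) (0, 0)
  | step {s : Fin 6 → Prop} {p : E} {c : ℂ} (e : Fin 6) : NF s p → ¬ s e → Om c →
      NF (fun x => x = e ∨ (s x ∧ (x = e + 1 ∨ e = x + 1))) (gE c e p)

theorem NF.ball {s : Fin 6 → Prop} {p : E} (h : NF s p) : nsq p ≤ 1 := by
  induction h with
  | zero => simp [nsq]
  | step e _ _ hc ih => exact supp_nsq hc e ih

theorem NF.peel {s : Fin 6 → Prop} {p : E} (h : NF s p) : ∀ e, s e → ∃ c s' p', Om c ∧ NF s' p' ∧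
    ¬ s' e ∧ p = gE c e p' ∧ ∀ x, s' x → (x = e + 1 ∨ e = x + 1) → s x := by
  induction h with
  | zero => exact fun e he => he.elim
  | @step s p c e' h hs hc ih =>
    intro e he
    by_cases ee : e = e'
    · subst ee
      exact ⟨c, s, p, hc, h, hs, rfl, fun x h1 h2 => .inr ⟨h1, h2⟩⟩
    obtain ⟨h1, h2⟩ := he.resolve_left ee
    obtain ⟨d, t, q, hd, hq, ht, rfl, hx⟩ := ih e h1
    refine ⟨d, _, _, hd, NF.step e' hq (fun k => hs (hx _ k h2.symm)) hc,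
      fun k => k.elim ee fun k => ht k.1, ?_, fun x k1 k2 => .inl (k1.resolve_right fun k => ?_)⟩
    · rcases h2 with rfl | rfl
      · exact (p2_comm hc hd e' hq.ball).symm
      · exact p2_comm hd hc e hq.ball
    · have := k.2
      clear * - this k2 h2
      revert x e e'
      decide

theorem Orb.nf {p : E} (h : Orb p) : ∃ s, NF s p := by
  induction h with
  | zero => exact ⟨_, NF.zero⟩
  | @step p i _ ih =>
    obtain ⟨s, h⟩ := ih
    by_cases hi : s i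
    · obtain ⟨c, t, q, hc, hq, ht, rfl, -⟩ := h.peel i hi
      rw [gE_gE (supp_n hc) w1_nsq i hq.ball]
      rcases om_w1.cases hc with rfl | rfl
      · exact ⟨_, NF.step i hq ht (by rw [← pow_two]; exact om_w2)⟩
      · rw [show w1 * (-1 - w1) = 1 by linear_combination -w1_cube, gE_one]
        exact ⟨_, hq⟩
    · exact ⟨_, NF.step i h hi om_w1⟩

theorem Z1s.facts {e : Fin 6} {p : E} (h : Z1s e p) : av e p < av (e + 5) p ∧
    av (e + 1) p < av (e + 2) p ∧ 8 / 5 ≤ av (e + 3) p ∧ 8 / 5 ≤ av (e + 4) p ∧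
    (av e p < 11 / 8 ∨ av (e + 1) p < 11 / 8) := by
  obtain ⟨c, q, hc, hq, ⟨h0, h1⟩, rfl⟩ := h
  exact p2_D hc e hq (p2_five e ▸ h0) h1

theorem Z2s.facts {j : Fin 6} {p : E} (h : Z2s j p) : av j p ≤ 3 / 4 ∧ 8 / 5 ≤ av (j + 2) p ∧
    8 / 5 ≤ av (j + 3) p ∧ 8 / 5 ≤ av (j + 4) p := by
  obtain ⟨c, q, hc, hq, ⟨d, hd, h, k⟩ | ⟨h, rfl⟩ | ⟨h, rfl⟩⟩ := h
  · obtain ⟨a, -, -, b⟩ := p2_C hc j hq hd h (p2_five j ▸ k)
    exact ⟨a, b⟩
  · obtain ⟨a, -, b⟩ := p2_A hc j hq (p2_five j ▸ h)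
    exact ⟨a, b⟩
  · have := p2_B hc (j + 5) hq
    simp only [add_assoc, Fin.reduceAdd, add_zero] at this
    obtain ⟨a, -, b1, b2, b3⟩ := this h
    rw [p2_five]
    exact ⟨a, b3, b2, b1⟩

/-- a point behind two walls is on the near side of the next sphere, or deep behind one wall -/
theorem Z2s.up {j : Fin 6} {p : E} (h : Z2s j p) : av j p < av (j + 1) p ∨ ∃ c q, Om c ∧
    nsq q ≤ 1 ∧ 15 / 8 ≤ av j q ∧ 15 / 8 ≤ av (j + 1) q ∧ p = gE c j q := by
  obtain ⟨c, q, hc, hq, ⟨d, hd, h, k⟩ | ⟨h, rfl⟩ | ⟨h, rfl⟩⟩ := h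
  · exact .inl (p2_C hc j hq hd h (p2_five j ▸ k)).2.1
  · refine (lt_or_ge _ _).imp_right fun k => ?_
    have := av_mid j hq h ((p2_inv hc j hq).1.1 k)
    exact ⟨c, q, hc, hq, this.1, this.2.2, rfl⟩
  · have := p2_B hc (j + 5) hq
    simp only [add_assoc, Fin.reduceAdd, add_zero] at this
    rw [p2_five]
    exact .inl (this h).2.1

theorem Z2s.down {j : Fin 6} {p : E} (h : Z2s (j + 1) p) : av (j + 1) p < av j p ∨ ∃ c q, Om c ∧
    nsq q ≤ 1 ∧ 15 / 8 ≤ av j q ∧ 15 / 8 ≤ av (j + 1) q ∧ p = gE c j q := by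
  obtain ⟨c, q, hc, hq, ⟨d, hd, h, k⟩ | ⟨h, rfl⟩ | ⟨h, rfl⟩⟩ := h
  · have := (p2_C hc (j + 1) hq hd h (p2_five (j + 1) ▸ k)).2.2.1
    simp only [add_assoc, Fin.reduceAdd, add_zero] at this
    exact .inl this
  · have := (p2_A hc (j + 1) hq (p2_five (j + 1) ▸ h)).2.1
    simp only [add_assoc, Fin.reduceAdd, add_zero] at this
    exact .inl this
  · rw [add_sub_cancel_right]
    refine (lt_or_ge _ _).imp_right fun k => ?_
    have := av_mid (j + 1) hq (by rw [add_sub_cancel_right]; exact (p2_inv hc j hq).2.1 k) h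
    rw [add_sub_cancel_right] at this
    exact ⟨c, q, hc, hq, this.2.1, this.1, rfl⟩

/-- two neighbouring letters -/
theorem p2_two {c d : ℂ} (hc : Om c) (hd : Om d) {e : Fin 6} {q : E} (hq : nsq q ≤ 1)
    (h : 8 / 5 ≤ av (e + 1) q ∨ av (e + 1 + 1) q ≤ av (e + 1) q ∨ av e q ≤ av (e + 1) q) :
    Z2s (e + 1) (gE c (e + 1) (gE d e q)) := by
  unfold Z2s
  rw [add_sub_cancel_right]
  rcases h with h | h | h
  · exact ⟨c, q, hc, hq, .inl ⟨d, hd, h, rfl⟩⟩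
  · exact ⟨d, _, hd, supp_nsq hc _ hq, .inr (.inr ⟨(p2_inv hc (e + 1) hq).1.2 h, p2_comm hd hc e hq⟩)⟩
  · exact ⟨c, _, hc, supp_nsq hd _ hq, .inr (.inl ⟨(p2_inv hd e hq).2.2 h, rfl⟩)⟩

theorem NF.geo {s : Fin 6 → Prop} {p : E} (h : NF s p) :
    p = (0, 0) ∨ (∃ e, s e ∧ Z1s e p) ∨ ∃ j, s j ∧ s (j + 1) ∧ Z2s (j + 1) p := by
  induction h with
  | zero => exact .inl rfl
  | @step s p c e h hs hc ih =>
    have hp := h.ball
    have z1 : Wl e p → Z1s e (gE c e p) := fun k => ⟨c, p, hc, hp, k, rfl⟩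
    refine .inr ?_
    rcases ih with rfl | ⟨j, sj, hz⟩ | ⟨j, sj, sj', hz⟩
    · have : ∀ i, av i ((0, 0) : E) = 3 := fun i => by simp [av, wv, lin]
      exact .inl ⟨e, .inl rfl, z1 ⟨.inl (by rw [this]; norm_num), .inl (by rw [this]; norm_num)⟩⟩
    · obtain ⟨f1, f2, f3, f4, -⟩ := hz.facts
      obtain rfl | rfl | rfl | rfl | rfl | rfl : e = j ∨ e = j + 1 ∨ j = e + 1 ∨ e = j + 2 ∨
          e = j + 3 ∨ e = j + 4 := by clear * -; revert e j; decide
      · exact (hs sj).elim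
      · obtain ⟨d, q, hd, hq, ⟨-, hw⟩, rfl⟩ := hz
        refine .inr ⟨j, .inr ⟨sj, .inr rfl⟩, .inl rfl, p2_two hc hd hq (hw.imp_right fun k => .inl ?_)⟩
        simpa only [add_assoc, Fin.reduceAdd] using k
      · obtain ⟨d, q, hd, hq, ⟨hw, -⟩, rfl⟩ := hz
        rw [add_sub_cancel_right] at hw
        rw [← p2_comm hc hd e hq]
        exact .inr ⟨e, .inl rfl, .inr ⟨sj, .inl rfl⟩, p2_two hd hc hq (hw.imp_right .inr)⟩
      all_goals
        refine .inl ⟨_, .inl rfl, z1 ?_⟩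
        simp only [Wl, p2_five, add_assoc, Fin.reduceAdd, add_zero]
      · exact ⟨.inr f2.le, .inl f3⟩
      · exact ⟨.inl f3, .inl f4⟩
      · exact ⟨.inl f4, .inr f1.le⟩
    · obtain ⟨-, f2, f3, f4⟩ := hz.facts
      simp only [add_assoc, Fin.reduceAdd] at f2 f3 f4
      obtain rfl | rfl | rfl | rfl | rfl | rfl : e = j ∨ e = j + 1 ∨ j = e + 1 ∨ e = j + 1 + 1 ∨
          e = j + 3 ∨ e = j + 4 := by clear * -; revert e j; decide
      · exact (hs sj).elim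
      · exact (hs sj').elim
      · refine .inr ⟨e, .inl rfl, .inr ⟨sj, .inl rfl⟩, ?_⟩
        rcases hz.down with k | ⟨d, q, hd, hq, k, -, rfl⟩
        · exact ⟨c, p, hc, hp, .inr (.inr ⟨k.le, by rw [add_sub_cancel_right]⟩)⟩
        · rw [← p2_comm hc hd e hq]
          exact p2_two hd hc hq (.inl (by linarith))
      · refine .inr ⟨j + 1, .inr ⟨sj', .inr rfl⟩, .inl rfl, ?_⟩
        rcases hz.up with k | ⟨d, q, hd, hq, -, k, rfl⟩
        · exact ⟨c, p, hc, hp, .inr (.inl ⟨by rw [add_sub_cancel_right]; exact k.le, rfl⟩)⟩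
        · exact p2_two hc hd hq (.inl (by linarith))
      all_goals
        refine .inl ⟨_, .inl rfl, z1 ?_⟩
        simp only [Wl, p2_five, add_assoc, Fin.reduceAdd, add_zero]
      · exact ⟨.inl f2, .inl f3⟩
      · exact ⟨.inl f3, .inl f4⟩

/-- Normal forms: R s p for a state s (empty, one wall, two neighbouring walls), closed under the letters
not in s with new state {e} ∪ (s ∩ neighbours of e); if e is in s then p = gE c e p' with e not in the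
state of p' (induction, commuting letters). Transitions by E3 - E6 in the chart. -/
theorem Orb.state {p : E} (h : Orb p) : p = (0, 0) ∨ (∃ e, Z1s e p) ∨ ∃ j, Z2s j p := by
  obtain ⟨s, h⟩ := h.nf
  rcases h.geo with h | ⟨e, -, h⟩ | ⟨j, -, -, h⟩
  · exact .inl h
  · exact .inr (.inl ⟨e, h⟩)
  · exact .inr (.inr ⟨_, h⟩)

theorem p2_le (i j : Fin 6) : IsClosed {p | av i p ≤ av j p} := isClosed_le (cont_av i) (cont_av j)
theorem p2_ge (i : Fin 6) : IsClosed {p | 8 / 5 ≤ av i p} :=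
  isClosed_le continuous_const (cont_av i)

theorem Z1s.closed (e : Fin 6) : IsClosed {p | Z1s e p} :=
  p2_closed e (S := {p | Wl e p})
    (((p2_ge _).union (p2_le _ _)).inter ((p2_ge _).union (p2_le _ _)))

theorem Z2s.closed (j : Fin 6) : IsClosed {p | Z2s j p} := by
  convert (p2_closed j ((p2_closed (j - 1) (p2_ge j)).union (p2_le (j - 1) j))).union
    (p2_closed (j - 1) (p2_le (j + 1) j)) using 1
  ext p
  constructor
  · rintro ⟨c, q, hc, hq, ⟨d, hd, h, rfl⟩ | ⟨h, rfl⟩ | ⟨h, rfl⟩⟩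
    · exact .inl ⟨c, _, hc, supp_nsq hd _ hq, .inl ⟨d, q, hd, hq, h, rfl⟩, rfl⟩
    · exact .inl ⟨c, q, hc, hq, .inr h, rfl⟩
    · exact .inr ⟨c, q, hc, hq, h, rfl⟩
  · rintro (⟨c, q, hc, hq, ⟨d, r, hd, hr, h, rfl⟩ | h, rfl⟩ | ⟨c, q, hc, hq, h, rfl⟩)
    · exact ⟨c, r, hc, hr, .inl ⟨d, hd, h, rfl⟩⟩
    · exact ⟨c, q, hc, hq, .inr (.inl ⟨h, rfl⟩)⟩
    · exact ⟨c, q, hc, hq, .inr (.inr ⟨h, rfl⟩)⟩

theorem lim_state {p : S3} (h : p ∈ limitSet) : (∃ e, Z1s e p.1) ∨ ∃ j, Z2s j p.1 := by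
  have hc : IsClosed ({((0, 0) : E)} ∪ ((⋃ e, {p | Z1s e p}) ∪ ⋃ j, {p | Z2s j p})) :=
    isClosed_singleton.union
      ((isClosed_iUnion_of_finite Z1s.closed).union (isClosed_iUnion_of_finite Z2s.closed))
  have := closure_minimal (fun q hq => by
    simpa only [mem_union, mem_singleton_iff, mem_iUnion, mem_ofPred_eq]
      using ((orb_iff q).1 hq).state) hc h
  simp only [mem_union, mem_singleton_iff, mem_iUnion, mem_ofPred_eq] at this
  refine this.resolve_left fun e => ?_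
  have := nsq_S3 p
  rw [e] at this
  simp [nsq] at this

theorem lim_KL : Disjoint limitSet KL := by
  refine disjoint_left.2 fun p hp hk => ?_
  rcases lim_state hp with ⟨e, h⟩ | ⟨j, h⟩
  · rcases h.facts.2.2.2.2 with k | k
    · linarith [hk e]
    · linarith [hk (e + 1)]
  · linarith [h.facts.1, hk j]

/-- points of the limit set in the vertex cell, in the ambient space -/
def p2W (q : E) : Prop := ∃ p : S3, p ∈ limitSet ∧ p ∈ Vt ∧ p.1 = q

theorem p2W.facts {q : E} (h : p2W q) : nsq q ≤ 1 ∧ av 0 q < 3 / 2 ∧ av 0 q ≤ av 5 q ∧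
    av 0 q ≤ av 1 q ∧ 15 / 8 ≤ av 2 q ∧ 4 ≤ av 3 q ∧ 15 / 8 ≤ av 4 q := by
  obtain ⟨p, hl, hv, rfl⟩ := h
  have ho : p ∈ Out 0 := by simpa [gg] using hv 0 0
  have h5 : av 0 p.1 ≤ av 5 p.1 := ho.1
  have h1 : av 0 p.1 ≤ av 1 p.1 := ho.2.1
  have h2 : 15 / 8 ≤ av 2 p.1 := (Out_le ho).2.1
  have h4 : 15 / 8 ≤ av 4 p.1 := (Out_le ho).2.2.1
  have h3 : 4 ≤ av 3 p.1 := (Out_le ho).2.2.2
  refine ⟨(nsq_S3 p).le, lt_of_not_ge fun k => disjoint_left.1 lim_KL hl fun j => ?_,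
    h5, h1, h2, h3, h4⟩
  obtain rfl | rfl | rfl | rfl | rfl | rfl : j = 0 ∨ j = 1 ∨ j = 2 ∨ j = 3 ∨ j = 4 ∨ j = 5 := by
    clear * -; revert j; decide
  all_goals linarith

theorem p2W.back {c : ℂ} (hc : Om c) {i : Fin 6} (hi : i = 0 ∨ i = 5) {q : E} (hq : nsq q ≤ 1)
    (h : p2W (gE c i q)) : p2W q := by
  have step : ∀ r, p2W r → p2W (gE w1 i r) := by
    rintro _ ⟨p, hl, hv, rfl⟩
    refine ⟨g i p, (lim_g i p).2 hl, (sym_Vt (.inr (.inr ?_)) p).1.2 hv, rfl⟩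
    exact hi.imp (congrArg g) (congrArg g)
  have h1 := step _ h
  have h2 := step _ h1
  rw [gE_gE (supp_n hc) w1_nsq i hq] at h1 h2
  rcases om_w1.cases hc with rfl | rfl
  · rwa [← pow_two, gE_gE w2_nsq w1_nsq i hq, ← pow_succ', w1_three, gE_one] at h2
  · rwa [show w1 * (-1 - w1) = 1 by linear_combination -w1_cube, gE_one] at h1

/-- such a point comes from one of the two spheres in another chamber -/
theorem p2W.sph {p : E} (h : p2W p) : ∃ c q, Om c ∧ p2W q ∧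
    ((av 5 q ≤ av 0 q ∧ p = gE c 0 q) ∨ (av 1 q ≤ av 0 q ∧ p = gE c 5 q)) := by
  obtain ⟨-, -, f5, f1, f2, f3, f4⟩ := h.facts
  have hs : (∃ e, Z1s e p) ∨ ∃ j, Z2s j p := by
    obtain ⟨p, hl, -, rfl⟩ := h
    exact lim_state hl
  have six : ∀ j : Fin 6, j = 0 ∨ j = 1 ∨ j = 2 ∨ j = 3 ∨ j = 4 ∨ j = 5 := by decide
  rcases hs with ⟨e, hz⟩ | ⟨j, hz⟩
  · obtain ⟨a1, a2, -, -, a3⟩ := hz.facts
    obtain ⟨c, q, hc, hq, ⟨w0, w1⟩, rfl⟩ := hz
    obtain rfl | rfl | rfl | rfl | rfl | rfl := six e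
    · have k := h.back hc (.inl rfl) hq
      exact ⟨c, q, hc, k, .inl ⟨w0.resolve_left (by linarith [k.facts.2.1]), rfl⟩⟩
    · exact (a1.not_ge f1).elim
    · simp only [Fin.reduceAdd] at a3
      rcases a3 with a | a <;> linarith
    · simp only [Fin.reduceAdd] at a3
      rcases a3 with a | a <;> linarith
    · exact (a2.not_ge f5).elim
    · have k := h.back hc (.inr rfl) hq
      simp only [Fin.reduceAdd] at w1
      exact ⟨c, q, hc, k, .inr ⟨w1.resolve_left (by linarith [k.facts.2.1]), rfl⟩⟩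
  · have a := hz.facts.1
    obtain rfl | rfl | rfl | rfl | rfl | rfl := six j
    · obtain ⟨c, q, hc, hq, ⟨d, hd, k, rfl⟩ | ⟨k, rfl⟩ | ⟨k, rfl⟩⟩ := hz
      · have := (h.back hc (.inl rfl) (supp_nsq hd _ hq)).back hd (.inr rfl) hq
        linarith [this.facts.2.1]
      · exact ⟨c, q, hc, h.back hc (.inl rfl) hq, .inl ⟨k, rfl⟩⟩
      · exact ⟨c, q, hc, h.back hc (.inr rfl) hq, .inr ⟨k, rfl⟩⟩
    · rcases Z2s.down (j := 0) hz with k | ⟨c, q, hc, hq, k, -, rfl⟩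
      · exact (k.not_ge f1).elim
      · linarith [(h.back hc (.inl rfl) hq).facts.2.1]
    · linarith
    · linarith
    · linarith
    · rcases hz.up with k | ⟨c, q, hc, hq, -, k, rfl⟩
      · exact (k.not_ge f5).elim
      · simp only [Fin.reduceAdd] at k
        linarith [(h.back hc (.inr rfl) hq).facts.2.1]

/-- A point of the limit set in `Vt` with av 0 ≤ 3/2 in all nine chambers lies on g 5 ^ a '' Sb 0 with
a ≠ 0 or on g 0 ^ b '' Sb 5 with b ≠ 0; move it to a = 0 and apply this again (Vt_sph). A point of `Vt`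
with av 0 ≥ 3/2 is in `KL`. -/
theorem lim_Vt : Disjoint limitSet Vt := by
  refine disjoint_left.2 fun p hp hv => ?_
  obtain ⟨d, q, -, hq, hs⟩ := p2W.sph ⟨p, hp, hv, rfl⟩
  obtain ⟨c, r, hc, hr, hs'⟩ := hq.sph
  obtain ⟨n, f, -⟩ := hr.facts
  rcases hs with ⟨k, -⟩ | ⟨k, -⟩ <;> rcases hs' with ⟨l, rfl⟩ | ⟨l, rfl⟩
  · exact (p2_A0 hc n l).2.1.not_ge k
  · linarith [(av_mid 0 n ((p2_inv hc 5 n).2.1 k) l).1]
  · linarith [(av_mid 0 n l ((p2_inv hc 0 n).1.1 k)).1]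
  · exact (p2_B hc 5 n l).2.1.not_ge k

theorem lim_Core : Disjoint limitSet Core := by
  refine disjoint_left.2 fun p hp hc => ?_
  rcases hc with hc | ⟨a, b, hc⟩
  · exact disjoint_left.1 lim_Vt hp hc
  · have pw : ∀ i (k : ℕ) (x : S3), x ∈ limitSet → (g i ^ k) x ∈ limitSet := fun i k x hx => by
      induction k with
      | zero => exact hx
      | succ k ih => rw [pow_succ']; exact (lim_g i _).2 ih
    exact disjoint_left.1 lim_KL (pw 5 a _ (pw 0 b p hp)) (Kt_KL ((Six_Kt 0).1 hc))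

end Pool.Agent.Lib.MP_b7d179_gt.Gm
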