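import Pool.Agent.Lib.MP_b7d179_gt.G.Tube2
import Pool.Agent.Lib.MP_b7d179_gt.G.Pre1

/-! The prism is a ball; a chart that is the fibre chart near the centre. -/

namespace Pool.Agent.Lib.MP_b7d179_gt.Gm

open Set Metric Complex Stmt

/-- `p` lies over the point `q` of the vertex cell -/
def rimOv (L : S3 → ℝ) (S : S3 × ℝ → S3) (p q : S3) : Prop :=
  q ∈ Vt ∧ (p = q ∨ ∃ s, (q, s) ∈ bt Bd L ∧ p = S (q, s))

theorem rim_pow {γ : S3 ≃ₜ S3} {P : S3 → S3 → Prop} (h : ∀ p q, P p q → P (γ p) (γ q)) (k : ℕ)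
    {p q : S3} (a : P p q) : P ((γ ^ k) p) ((γ ^ k) q) := by
  induction k with
  | zero => exact a
  | succ k ih => rw [pow_succ']; exact h _ _ ih

theorem rim_back (k : ℕ) (p : S3) : (g 0 ^ (2 * k)) ((g 0 ^ k) p) = p := by
  rw [sym_pw, show 2 * k + k = 0 + 3 * k by ring, sym_p3, pow_zero]; rfl

theorem rim_ss (p : S3) : sw (sw p) = p := DFunLike.congr_fun sw_sw p

theorem rim_Z (k : ℕ) (p : S3) :
    Z1 ((g 0 ^ k) p).1 = Z1 p.1 ∧ Z2 ((g 0 ^ k) p).1 = w1 ^ k * Z2 p.1 := by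
  have := Z_gg 0 k p
  rwa [tubes_g0, pow_zero, one_mul] at this

theorem rim_cj (p : S3) : cj ((g 5 ^ 2 : S3 ≃ₜ S3) p) = g 5 (cj p) ∧ g 5 (cj (g 5 (cj p))) = p := by
  constructor <;> refine ext_Z ?_ ?_ <;>
    simp only [pow_two, Homeomorph.mul_apply, (tubes_Z _).2.1, (tubes_Z _).2.2, (Z_cj _).1,
      (Z_cj _).2, map_mul, tubes_conj, conj_conj]
  · linear_combination (w1 * (starRingEnd ℂ) (Z1 p.1)) * w1_three
  · linear_combination Z1 p.1 * w1_three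

section
variable {L : S3 → ℝ} {S : S3 × ℝ → S3} (e : IsE L S) {p q : S3} {γ : S3 ≃ₜ S3}
include e

theorem rim_xt {Q : Set S3} (hQ : Q ⊆ Vt) (h : rimOv L S p q) : p ∈ xt L S Q ↔ q ∈ Q := by
  obtain ⟨v, rfl | ⟨s, m, rfl⟩⟩ := h
  · exact xt_in e hQ v
  · exact xt_S e hQ m

theorem rim_g0 (p q : S3) (h : rimOv L S p q) : rimOv L S (g 0 p) (g 0 q) := by
  have c : g 0 = sw ∨ g 0 = cj ∨ g 0 = g 0 ∨ g 0 = g 5 := .inr (.inr (.inl rfl))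
  obtain ⟨v, rfl | ⟨s, m, rfl⟩⟩ := h
  · exact ⟨(sym_Vt c _).1.2 v, .inl rfl⟩
  · have := e.sym _ c _ m
    exact ⟨(sym_Vt c _).1.2 v, .inr ⟨s, ⟨(sym_Vt c _).2.2.2 m.1, m.2.1, m.2.2.trans this.1.ge⟩,
      this.2.symm⟩⟩

theorem rim_top (h : γ = sw ∨ γ = cj ∨ γ = g 0 ∨ γ = g 5) (p q : S3)
    (a : q ∈ Bd ∧ p = S (q, L q)) : γ q ∈ Bd ∧ γ p = S (γ q, L (γ q)) := by
  have := e.sym _ h (q, L q) ⟨a.1, e.pos _ a.1, le_rfl⟩
  exact ⟨(sym_Vt h _).2.2.2 a.1, by rw [a.2, ← this.2, this.1]⟩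

theorem rim_Pn (h : p ∈ Pn) : ∃ q, q ∈ Bd ∧ p = S (q, L q) := by
  obtain ⟨q, a, rfl⟩ := e.top.ge h
  exact ⟨q, a.1, rfl⟩

theorem rim_inv (k : ℕ) (h : p ∈ xt L S U0) : (g 0 ^ k) p ∈ xt L S U0 :=
  rim_pow (P := fun p _ => p ∈ xt L S U0) (fun p _ a => (pre_xt e).inv.le ⟨p, a, rfl⟩) k (q := p) h

theorem rim_sub : rimU (xt L S U0) ⊆ xt L S U0 := by
  rintro p ((h | ⟨p, h, rfl⟩) | ⟨k, h⟩)
  · exact h.2
  · exact (pre_xt e).invc.le ⟨p, h.2, rfl⟩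
  · rw [← rim_back k p]
    refine rim_inv e _ ?_
    rcases h with h | ⟨_, ⟨-, r, a, rfl⟩, h⟩
    · exact h.1
    · rwa [← h, rim_ss]

theorem rim_st {k : ℕ} (h : p ∈ xt L S U0) (a : sw ((g 0 ^ k) p) ∈ Pn) :
    p ∈ rimU (xt L S U0) :=
  .inr ⟨k, .inr ⟨_, ⟨a, _, rim_inv e k h, rfl⟩, rim_ss _⟩⟩

theorem rim_of_top (h : p ∈ xt L S U0) (a : q ∈ Bd ∧ p = S (q, L q)) : p ∈ rimU (xt L S U0) := by
  rcases Bd_split a.1 with ⟨k, b⟩ | ⟨k, r, b, c⟩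
  · have n : (g 5 ^ k) p ∈ Pn := e.top.le ⟨_, b, (rim_pow (P := fun p q => q ∈ Bd ∧ p = S (q, L q))
      (rim_top e (.inr (.inr (.inr rfl)))) k a).2.symm⟩
    have c (r : S3) : g 5 (g 5 (g 5 r)) = r := DFunLike.congr_fun (g_cube 5) r
    rcases (mem_cyc 5 Pn p).1 ⟨k, n⟩ with (m | ⟨r, m, rfl⟩) | ⟨r, m, rfl⟩
    · exact .inl (.inl ⟨m, h⟩)
    · refine .inl (.inr ⟨g 5 (cj (g 5 r)), ⟨?_, (pre_xt e).invc.le ⟨_, h, rfl⟩⟩, (rim_cj _).2⟩)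
      rw [← (rim_cj _).1]
      exact (sym_Pn _).2.1.2 ((c r).symm ▸ m :)
    · exact ((pre_xt e).pn.le_bot ⟨m, _, h, c r⟩).elim
  · refine rim_st e (k := k) h (e.top.le ⟨r, b, ?_⟩)
    have := rim_top e (.inl rfl) _ _ (rim_pow (P := fun p q => q ∈ Bd ∧ p = S (q, L q))
      (rim_top e (.inr (.inr (.inl rfl)))) k a)
    rw [this.2, ← c, rim_ss]

end

variable {lo : ℂ → ℝ} (l : IsLo lo) {L : S3 → ℝ} {S : S3 × ℝ → S3} (e : IsE L S)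
include l e

omit e in
theorem rim_cases {z : ℂ} {t : ℝ} (h : (z, t) ∈ btw Bz (loX L lo) (hiX L lo)) :
    ∃ u, lo z ≤ u ∧ u ≤ hiO lo z ∧ fz z u ∈ U0 ∧ ((FX S lo (z, t) = fz z u ∧ t = u) ∨
      ∃ s, (fz z u, s) ∈ bt Bd L ∧ FX S lo (z, t) = S (fz z u, s) ∧
        (s = L (fz z u) → t = loX L lo z ∨ t = hiX L lo z)) := by
  obtain ⟨hz, h1, h2⟩ := h
  have p := (l.pos z hz).2.le
  simp only [loX, hiX] at h1 h2 ⊢
  by_cases a : t < lo z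
  · exact ⟨_, le_rfl, p, (l.mem _).2 ⟨z, hz, _, le_rfl, p, rfl⟩, .inr ⟨lo z - t,
      ⟨(l.bd hz le_rfl p).2 (.inl rfl), by linarith, by linarith⟩, if_pos a,
      fun c => .inl (by linarith)⟩⟩
  by_cases b : hiO lo z < t
  · exact ⟨_, p, le_rfl, (l.mem _).2 ⟨z, hz, _, p, le_rfl, rfl⟩, .inr ⟨t - hiO lo z,
      ⟨(l.bd hz p le_rfl).2 (.inr (.inl rfl)), by linarith, by linarith⟩,
      (if_neg a).trans (if_pos b), fun c => .inr (by linarith)⟩⟩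
  · exact ⟨t, not_lt.1 a, not_lt.1 b, (l.mem _).2 ⟨z, hz, _, not_lt.1 a, not_lt.1 b, rfl⟩,
      .inl ⟨(if_neg a).trans (if_neg b), rfl⟩⟩

/-- bottom and top: Bd_split and `top`; circle arcs lie in the images of sw U; bites lie in the images
of Sb 5, where L = 0 -/
theorem FX_rim : FX S lo '' {x | x ∈ btw Bz (loX L lo) (hiX L lo) ∧
    (x.1 ∈ {z | ∃ b : ℕ, w1 ^ b * z ∈ arcC ∪ arcB} ∨ x.2 = loX L lo x.1 ∨ x.2 = hiX L lo x.1)} =
    rimU (xt L S U0) := by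
  have uv : U0 ⊆ Vt := fun _ h => h.1
  have sv : sw '' U0 ⊆ Vt := by
    rintro _ ⟨p, h, rfl⟩
    exact (sym_Vt (.inl rfl) p).1.2 h.1
  refine Subset.antisymm ?_ fun p hp => ?_
  · rintro _ ⟨⟨z, t⟩, ⟨h, r⟩, rfl⟩
    have m : FX S lo (z, t) ∈ xt L S U0 := (FX_img l e).le ⟨_, h, rfl⟩
    have hz : z ∈ Bz := h.1
    have p := (l.pos z hz).2.le
    obtain ⟨u, -, -, q, c⟩ := rim_cases l h
    have v := (fz_val (hz.1.trans (by norm_num)) u).2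
    have o : rimOv L S (FX S lo (z, t)) (fz z u) :=
      ⟨q.1, c.imp And.left fun ⟨s, a, b, _⟩ => ⟨s, a, b⟩⟩
    have o' (b) := rim_pow (rim_g0 e) b o
    rcases r with ⟨b, r | r⟩ | r | r
    · obtain ⟨-, r1, r2⟩ := (arcC_iff _).1 r
      refine .inr ⟨b, .inl ⟨rim_inv e b m, ?_⟩⟩
      rw [xt_img e uv (.inl rfl), rim_xt e sv (o' b)]
      refine ⟨_, ⟨(sym_Vt (.inl rfl) _).1.2 (o' b).1, ?_, ?_⟩, rim_ss _⟩
      · have := Z_sph ((g 0 ^ b) (fz z u))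
        rw [(Z_sw _).1, (Z_sw _).2]
        rw [(rim_Z _ _).2, v, r1] at this ⊢
        linarith
      · rwa [(Z_sw _).1, (rim_Z _ _).2, v]
    · have s5 : (g 0 ^ b) (fz z u) ∈ Sb 5 := by
        obtain ⟨a0, -, a5, -⟩ := av_chart (nsq_S3 ((g 0 ^ b) (fz z u))).le
        rw [(rim_Z _ _).2, v, r.2, mul_one] at a5
        exact mul_right_cancel₀ (QQ_pos (nsq_S3 _).le).ne' (a5.trans a0.symm)
      have E : FX S lo (z, t) = fz z u := by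
        rcases c with c | ⟨s, a, c, -⟩
        · exact c.1
        · have := e.zero _ a.1 ⟨0, b, .inr (by rwa [tubes_g0])⟩
          obtain rfl : s = 0 := le_antisymm (a.2.2.trans this.le) a.2.1
          exact c.trans (e.s0 _ a.1)
      refine rim_st e (k := b) m ((ext_Pn _).2 (.inl ⟨(sym_Vt (.inl rfl) _).1.2 ?_, ?_⟩)) <;> rw [E]
      · exact (o' b).1
      · exact (av_sw 0 _).trans (Eq.trans (Eq.symm s5) (av_sw 1 _).symm)
    · obtain rfl : t = loX L lo z := r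
      exact rim_of_top e m ⟨(l.bd hz le_rfl p).2 (.inl rfl), (FX_ends l e hz).1⟩
    · obtain rfl : t = hiX L lo z := r
      exact rim_of_top e m ⟨(l.bd hz p le_rfl).2 (.inr (.inl rfl)), (FX_ends l e hz).2⟩
  · obtain ⟨⟨z, t⟩, h, rfl⟩ := (FX_img l e).ge (rim_sub e hp)
    refine ⟨_, ⟨h, ?_⟩, rfl⟩
    have hz : z ∈ Bz := h.1
    obtain ⟨u, u1, u2, q, c⟩ := rim_cases l h
    have v := (fz_val (hz.1.trans (by norm_num)) u).2
    have o : rimOv L S (FX S lo (z, t)) (fz z u) :=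
      ⟨q.1, c.imp And.left fun ⟨s, a, b, _⟩ => ⟨s, a, b⟩⟩
    have top (r) (a : r ∈ Bd ∧ FX S lo (z, t) = S (r, L r)) :
        (∃ b : ℕ, w1 ^ b * z ∈ arcC ∪ arcB) ∨ t = loX L lo z ∨ t = hiX L lo z := by
      have m : (r, L r) ∈ bt Bd L := ⟨a.1, e.pos _ a.1, le_rfl⟩
      rcases c with ⟨c, rfl⟩ | ⟨s, b, c, d⟩
      · have L0 : L r = 0 := e.out _ m (a.2.symm.trans c ▸ q.1)
        obtain rfl : r = fz z t := by rw [← c, a.2, L0, e.s0 _ a.1]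
        rcases (l.bd hz u1 u2).1 a.1 with k | k | ⟨b, k⟩
        · exact .inr (.inl (by rw [loX, ← k, L0, sub_zero]))
        · exact .inr (.inr (by rw [hiX, ← k, L0, add_zero]))
        · exact .inl ⟨b, .inr ⟨(t0_n b z).trans_le hz.1, k⟩⟩
      · obtain ⟨rfl, k⟩ := Prod.ext_iff.1 (e.emb.2 m b (a.2.symm.trans c))
        exact .inr (d k.symm)
    rcases hp with (n | ⟨r, n, k⟩) | ⟨k, n | ⟨r, n, w⟩⟩
    · exact (rim_Pn e n.1).elim top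
    · obtain ⟨y, a⟩ := rim_Pn e n.1
      exact top _ (k ▸ rim_top e (.inr (.inr (.inr rfl))) _ _ (rim_top e (.inr (.inl rfl)) _ _ a))
    · have n := n.2
      rw [xt_img e uv (.inl rfl), rim_xt e sv (rim_pow (rim_g0 e) k o)] at n
      obtain ⟨y, a, b⟩ := n
      have z1 := (Z_sw y).1
      have z2 := (Z_sw y).2
      rw [b, (rim_Z _ _).1] at z1
      rw [b, (rim_Z _ _).2, v] at z2
      refine .inl ⟨k, .inl ((arcC_iff _).2 ⟨t0_rot k z hz, ?_, z2 ▸ a.2.2⟩)⟩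
      have s1 := Z_sph y
      have s2 := a.2.1
      have s3 := q.2.1
      rw [v, z1, ← t0_n k z, z2] at s3
      rw [z2]
      linarith
    · obtain ⟨y, a⟩ := rim_Pn e n.1
      have := rim_pow (P := fun p q => q ∈ Bd ∧ p = S (q, L q))
        (rim_top e (.inr (.inr (.inl rfl)))) (2 * k) (rim_top e (.inl rfl) _ _ a)
      rw [w, rim_back] at this
      exact top _ this
theorem ball_xt : Ball (xt L S U0) (rimU (xt L S U0)) := by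
  obtain ⟨c1, c2, c⟩ := cont_X l e
  have := ball_sand Bz_disc c1 c2
    (fun z hz => (c z hz).1.trans_lt ((l.pos z hz).2.trans_le (c z hz).2)) (FX_emb l e)
  rwa [FX_img l e, FX_rim l e] at this

end Pool.Agent.Lib.MP_b7d179_gt.Gm
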