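import Pool.Agent.Lib.MP_b7d179_gt.G.Sand1
import Pool.Agent.Lib.MP_b7d179_gt.U.Ball1

/-! The sixth of the solid torus as a region over the annulus. -/

namespace Pool.Agent.Lib.MP_b7d179_gt.Gm

open Set Metric Complex Stmt

noncomputable section

/-- the height of the region -/
def sdL (q : S3) : ℝ := 1 - max (sdk q / sdK (sde q)) (-sdk q / sdK (sdR (sde q)))
/-- the parametrisation of the region -/
def sdS (x : S3 × ℝ) : S3 := sdB (1 - x.2) (sdk x.1 / (1 - x.2)) (sde x.1)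

variable {τ k : ℝ} {e : ℂ} {q : S3}

theorem sdL_B (he : ‖e‖ = 1) : sdL (sdB 1 k e) = 1 - max (k / sdK e) (-k / sdK (sdR e)) := by
  rw [sdL, sdB_k he, sdB_e he sd_one]

theorem sdS_B (he : ‖e‖ = 1) : sdS (sdB 1 (τ * k) e, 1 - τ) = sdB τ k e := by
  rw [sdS, sdB_k he, sdB_e he sd_one, sub_sub_cancel]
  by_cases h : τ = 0
  · rw [h]
    exact sdB_zero _ _ _
  · rw [mul_div_cancel_left₀ _ h]

theorem sd_bt {x : S3 × ℝ} : x ∈ bt (Aj 0) sdL ↔ ∃ τ k e, ‖e‖ = 1 ∧ τ ∈ Icc (0 : ℝ) 1 ∧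
    (-sdK (sdR e) ≤ k ∧ k ≤ sdK e) ∧ x = (sdB 1 (τ * k) e, 1 - τ) := by
  constructor
  · obtain ⟨q, s⟩ := x
    rintro ⟨hq, h0, h1⟩
    obtain ⟨k, e, he, rfl⟩ := sdB_of hq
    have a := sdK_pos he
    have b := sdK_pos ((sdR_norm e).trans he)
    rw [sdL_B he, le_sub_comm, max_le_iff, div_le_iff₀ a, div_le_iff₀ b] at h1
    obtain ⟨h1, h2⟩ := h1
    dsimp only at h0 h1 h2
    have t0 : 0 ≤ 1 - s := by nlinarith
    refine ⟨1 - s, k / (1 - s), e, he, ⟨t0, by linarith⟩, ?_, ?_⟩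
    · rcases t0.eq_or_lt with c | c
      · rw [← c, div_zero]
        exact ⟨by linarith, a.le⟩
      · rw [le_div_iff₀ c, div_le_iff₀ c]
        constructor <;> linarith
    · rw [sub_sub_cancel]
      rcases t0.eq_or_lt with c | c
      · rw [← c, zero_mul] at h1 h2
        rw [← c, zero_mul, show k = 0 by linarith]
      · rw [mul_div_cancel₀ _ c.ne']
  · rintro ⟨τ, k, e, he, h, ⟨h1, h2⟩, rfl⟩
    have a := sdK_pos he
    have b := sdK_pos ((sdR_norm e).trans he)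
    refine ⟨(sdB_Aj he).2 ⟨by nlinarith [h.1, h.2], by nlinarith [h.1, h.2]⟩, sub_nonneg.2 h.2, ?_⟩
    rw [sdL_B he, sub_le_sub_iff_left, max_le_iff, div_le_iff₀ a, div_le_iff₀ b]
    constructor <;> nlinarith [h.1]

theorem sd_top (he : ‖e‖ = 1) : (1 - τ = sdL (sdB 1 (τ * k) e) ∧
    0 ≤ sd (nv 0) (xx (sdB 1 (τ * k) e).1)) ↔ τ = 0 ∨ (k = sdK e ∧ 0 ≤ τ) := by
  have a := sdK_pos he
  have b := sdK_pos ((sdR_norm e).trans he)
  obtain ⟨c, c0, -, c1⟩ := sdB_Z (k := τ * k) he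
  have m : 0 ≤ τ * k → max (τ * k / sdK e) (-(τ * k) / sdK (sdR e)) = τ * k / sdK e := fun h =>
    max_eq_left ((div_nonpos_of_nonpos_of_nonneg (neg_nonpos.2 h) b.le).trans (div_nonneg h a.le))
  rw [sdL_B he, show sd (nv 0) (xx (sdB 1 (τ * k) e).1) = c * (τ * k) from c1,
    mul_nonneg_iff_of_pos_left c0, sub_right_inj]
  refine ⟨fun ⟨h1, h2⟩ => ?_, ?_⟩
  · rw [m h2, eq_div_iff a.ne'] at h1
    exact (mul_eq_mul_left_iff.1 h1).symm.imp_right fun h => ⟨h.symm,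
      nonneg_of_mul_nonneg_left (h1.symm ▸ h2) a⟩
  · rintro (rfl | ⟨rfl, h⟩)
    · simp
    · rw [m (mul_nonneg h a.le), mul_div_cancel_right₀ _ a.ne']
      exact ⟨rfl, mul_nonneg h a.le⟩

theorem sde_cont : ContinuousOn sde (Aj 0) ∧ MapsTo sde (Aj 0) (sphere 0 1) := by
  have c := cont_yy.comp (continuous_subtype_val (p := fun p : ℂ × ℂ => ‖p.1‖ ^ 2 + ‖p.2‖ ^ 2 = 1))
  refine ⟨c.continuousOn.div (continuous_ofReal.comp c.norm).continuousOn fun q hq => ?_,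
    fun q hq => ?_⟩ <;> obtain ⟨k, e, he, rfl⟩ := sdB_of hq
  · obtain ⟨s, s0, h⟩ := sdB_y (k := k) he sd_one
    rw [ofReal_ne_zero, h, norm_mul, he, mul_one, norm_real]
    exact norm_ne_zero_iff.2 s0.ne'
  · rw [sdB_e he sd_one]
    exact mem_sphere_zero_iff_norm.2 he

theorem sdk_cont : ContinuousOn sdk (Aj 0) := by
  have c : Continuous fun p : S3 => sdZ (xx p.1) :=
    continuous_const.mul (cont_xx.comp continuous_subtype_val)
  refine (continuous_im.comp c).continuousOn.div (continuous_re.comp c).continuousOn fun q hq => ?_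
  obtain ⟨k, e, he, rfl⟩ := sdB_of hq
  obtain ⟨c, c0, c1, -⟩ := sdB_Z (k := k) he
  exact c1.trans_ne c0.ne'

theorem sdL_cont : ContinuousOn sdL (Aj 0) := by
  have n : ∀ q ∈ Aj 0, ‖sde q‖ = 1 := fun q hq => mem_sphere_zero_iff_norm.1 (sde_cont.2 hq)
  have cR : Continuous sdR := by unfold sdR; fun_prop
  exact continuousOn_const.sub (ContinuousOn.sup
    (sdk_cont.div (sdK_cont.comp sde_cont.1 sde_cont.2) fun q hq => (sdK_pos (n q hq)).ne')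
    (sdk_cont.neg.div (sdK_cont.comp (cR.comp_continuousOn sde_cont.1) fun q hq =>
      mem_sphere_zero_iff_norm.2 ((sdR_norm _).trans (n q hq))) fun q hq =>
      (sdK_pos ((sdR_norm _).trans (n q hq))).ne'))

theorem sdS_cont : ContinuousOn sdS (bt (Aj 0) sdL) := by
  have ce : ContinuousOn (fun x : S3 × ℝ => sde x.1) (bt (Aj 0) sdL) :=
    sde_cont.1.comp continuousOn_fst fun x hx => hx.1
  have n : ∀ x ∈ bt (Aj 0) sdL, ‖sde x.1‖ = 1 := fun x hx =>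
    mem_sphere_zero_iff_norm.1 (sde_cont.2 hx.1)
  have cd : ContinuousOn (fun x : S3 × ℝ => sdD (sdk x.1 / (1 - x.2)))
      (bt (Aj 0) sdL ∩ {x | 1 - x.2 ≠ 0}) := sdD_cont.comp_continuousOn
    ((sdk_cont.comp continuousOn_fst fun x hx => hx.1.1).div (by fun_prop) fun x hx => hx.2)
  have c := ball1_smul (A := bt (Aj 0) sdL) (r := fun x => 1 - x.2) (g := fun x =>
    ((1 * Rad (sdD (sdk x.1 / (1 - x.2))) (sde x.1) : ℝ) : ℂ) * sdD (sdk x.1 / (1 - x.2)))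
    (by fun_prop) ((continuous_ofReal.comp_continuousOn (continuousOn_const.mul (Rad_spec.1.comp
      (cd.prodMk (ce.mono inter_subset_left)) fun x hx => ⟨mem_sphere_zero_iff_norm.2 (sdD_norm _),
        sde_cont.2 hx.1.1⟩))).mul cd) fun x hx _ => (sd_lt (n x hx) sd_one).2.2.le
  refine contOn_sl.comp (ContinuousOn.prodMk (c.congr fun x _ => ?_) ce) fun x hx =>
    ⟨mem_closedBall_zero_iff.2 (sd_lt (n x hx) ?_).2.2.le, sde_cont.2 hx.1⟩
  · beta_reduce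
    rw [real_smul, one_mul, ofReal_mul, mul_assoc]
  · obtain ⟨τ, k, e, -, h, -, rfl⟩ := sd_bt.1 hx
    rwa [sub_sub_cancel]

theorem sd_Sb (he : ‖e‖ = 1) (h : sdB 1 k e ∈ Aj 0) : sdB 1 k e ∈ Sb 0 ↔ k = sdK e :=
  Iff.trans ⟨fun a => (Aj_adj 0).2.1.le ⟨h, a⟩, fun a => ((Aj_adj 0).2.1.ge a).2⟩ (sdB_kap he)

theorem sdL_sym (he : ‖e‖ = 1) : sdL (sdB 1 (-k) (sdR e)) = sdL (sdB 1 k e) ∧
    sdL (sdB 1 k (-e)) = sdL (sdB 1 k e) := by
  have he' := (sdR_norm e).trans he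
  rw [sdL_B he, sdL_B he', sdL_B ((norm_neg e).trans he), sdR_R, neg_neg, sdK_neg he,
    show sdR (-e) = -sdR e by simp [sdR], sdK_neg he']
  exact ⟨congrArg _ (max_comm _ _), rfl⟩

end

/-- For q in `Aj 0` in the slice e = yy / |yy| write xx q / nv 0 = ρ (1 + i k). -/
theorem exists_S : ∃ L S, IsS L S := by
  refine ⟨sdL, sdS, sdL_cont, fun q hq => ?_, fun q hq => ?_, ⟨sdS_cont, fun x hx y hy H => ?_⟩,
    Subset.antisymm ?_ fun p hp => ?_, fun q hq => ?_, fun x hx h => ?_, fun x hx => ?_,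
    fun x hx => ?_, fun x hx => ?_, fun γ hγ x hx => ?_⟩
  · obtain ⟨k, e, he, rfl⟩ := sdB_of hq
    have := (sd_bt.2 ⟨1, k, e, he, sd_one, (sdB_Aj he).1 hq, rfl⟩).2.2
    rwa [sub_self, one_mul] at this
  · obtain ⟨k, e, he, rfl⟩ := sdB_of hq
    have he' := (sdR_norm e).trans he
    have a := sdK_pos he
    have b := sdK_pos he'
    obtain ⟨h1, h2⟩ := (sdB_Aj he).1 hq
    rw [mem_union, ← (sw_e 5 _).1, sw_B he sd_one, sd_Sb he hq, show (5 - 5 : Fin 6) = 0 from rfl,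
      sd_Sb he' (sw_B he sd_one ▸ (sw_v 0 _).2.1.2 hq), sdL_B he, sub_eq_zero, eq_comm, max_eq_iff,
      div_eq_one_iff_eq a.ne', div_eq_one_iff_eq b.ne']
    refine or_congr (and_iff_left_of_imp fun h => ?_) (and_iff_left_of_imp fun h => ?_)
    · rw [h, div_self a.ne', div_le_one b]
      linarith
    · rw [h, div_self b.ne', div_le_one a]
      linarith
  · obtain ⟨τ, k, e, he, h, -, rfl⟩ := sd_bt.1 hx
    obtain ⟨τ', k', e', he', h', -, rfl⟩ := sd_bt.1 hy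
    rw [sdS_B he, sdS_B he'] at H
    obtain ⟨rfl, rfl, rfl | rfl⟩ := sdB_inj he he' h h' H
    · rw [zero_mul, zero_mul]
    · rfl
  · rintro _ ⟨x, hx, rfl⟩
    obtain ⟨τ, k, e, he, h, hk, rfl⟩ := sd_bt.1 hx
    rw [sdS_B he]
    exact sdB_six he h ((sdB_Aj he).2 hk)
  · obtain ⟨τ, k, e, he, h, hA, rfl⟩ := six_sdB hp
    exact ⟨_, sd_bt.2 ⟨τ, k, e, he, h, (sdB_Aj he).1 hA, rfl⟩, sdS_B he⟩
  · obtain ⟨k, e, he, rfl⟩ := sdB_of hq
    have := sdS_B (τ := 1) (k := k) he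
    rwa [sub_self, one_mul] at this
  · obtain ⟨τ, k, e, he, m, -, rfl⟩ := sd_bt.1 hx
    rw [sdS_B he] at h
    have := ((Rad_spec.2 _ _ (sdD_norm k) he).2.2 _ ⟨(sd_lt he m).1.1,
      (sd_lt he m).1.2.trans (sd_rad k he).2.le⟩).2.1 ⟨0, h⟩
    exact sub_eq_zero.2 (le_antisymm ((le_mul_iff_one_le_left (sd_rad k he).1).1 this) m.2)
  · obtain ⟨τ, k, e, he, m, -, rfl⟩ := sd_bt.1 hx
    rw [sdS_B he, sdB_ann he m, sd_top he, and_iff_left m.1]
  · obtain ⟨τ, k, e, he, m, -, rfl⟩ := sd_bt.1 hx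
    have he' := (sdR_norm e).trans he
    have t := sd_top (τ := τ) (k := -k) he'
    obtain ⟨c, c0, -, c1⟩ := sdB_Z (k := τ * k) he
    obtain ⟨d, d0, -, d1⟩ := sdB_Z (k := τ * -k) he'
    rw [show sd (nv 0) _ = _ from d1, mul_neg τ, (sdL_sym he).1, and_iff_left m.1,
      mul_nonneg_iff_of_pos_left d0, neg_nonneg] at t
    rw [sdS_B he, ← (sw_e 5 _).2.2.2.2.1, sw_B he m, show (5 - 5 : Fin 6) = 0 from rfl,
      sdB_ann he' m, ← t, show sd (nv 0) _ = _ from c1, ← not_lt (b := c * _),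
      mul_pos_iff_of_pos_left c0, not_lt]
  · obtain ⟨τ, k, e, he, m, -, rfl⟩ := sd_bt.1 hx
    obtain ⟨s, s0, h⟩ := sdB_y (k := k) he m
    obtain ⟨t, t0, h'⟩ := sdB_y (k := τ * k) he sd_one
    refine ⟨s / t, div_pos s0 t0, ?_⟩
    rw [sdS_B he, h, h', ← mul_assoc, ← ofReal_mul, div_mul_cancel₀ _ t0.ne']
  · obtain ⟨τ, k, e, he, m, -, rfl⟩ := sd_bt.1 hx
    rcases hγ with rfl | rfl
    · rw [sdS_B he, sw_B he sd_one, sw_B he m, (sdL_sym he).1, ← mul_neg]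
      exact ⟨rfl, sdS_B ((sdR_norm e).trans he)⟩
    · rw [sdS_B he, cj_B he sd_one, cj_B he m, (sdL_sym he).2]
      exact ⟨rfl, sdS_B ((norm_neg e).trans he)⟩

end Pool.Agent.Lib.MP_b7d179_gt.Gm
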