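import Pool.Agent.Lib.MP_b7d179_gt.G.Lens

/-! Slope coordinates on the sixth of the solid torus. -/

namespace Pool.Agent.Lib.MP_b7d179_gt.Gm

open Set Metric Complex Stmt

noncomputable section

/-- rotation of the vertex direction to the real axis -/
def sdZ (z : ℂ) : ℂ := (starRingEnd ℂ) (nv 0) * z
/-- the reflection in the vertex direction -/
def sdR (z : ℂ) : ℂ := mv 5 * (starRingEnd ℂ) z
/-- the unit vector of slope `k` -/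
def sdD (k : ℝ) : ℂ := nv 0 * ((1 + k * I) / (√(1 + k ^ 2) : ℝ))
/-- slope and slice of a point -/
def sdk (p : S3) : ℝ := (sdZ (xx p.1)).im / (sdZ (xx p.1)).re
def sde (p : S3) : ℂ := yy p.1 / ‖yy p.1‖
def sdK (e : ℂ) : ℝ := sdk (kp e)
/-- the point with relative radius `τ` and slope `k` in the slice of `e` -/
def sdB (τ k : ℝ) (e : ℂ) : S3 := sl (((τ * Rad (sdD k) e : ℝ) : ℂ) * sdD k) e

variable {τ τ' k k' : ℝ} {e e' : ℂ} {p q : S3}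

theorem sd_nv : (starRingEnd ℂ) (nv 0) * nv 0 = 1 := by
  apply Complex.ext <;> simp [nv] <;> nlinarith [r3]

theorem sd_mv : mv 5 = nv 0 * nv 0 := by
  apply Complex.ext <;> simp [nv, mv] <;> nlinarith [r3]

theorem sd_nn : ‖nv 0‖ = 1 := by
  have := congrArg norm sd_nv
  rw [norm_mul, RCLike.norm_conj, norm_one] at this
  nlinarith [norm_nonneg (nv 0)]

theorem sdZ_inv (z : ℂ) : nv 0 * sdZ z = z := by
  rw [sdZ, ← mul_assoc, mul_comm (nv 0), sd_nv, one_mul]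

theorem sdZ_smul (r : ℝ) (z : ℂ) : sdZ (r * z) = r * sdZ z := mul_left_comm _ _ _

theorem sdZ_R (z : ℂ) : sdZ (sdR z) = (starRingEnd ℂ) (sdZ z) := by
  simp only [sdZ, sdR, sd_mv, map_mul, conj_conj]
  linear_combination nv 0 * (starRingEnd ℂ) z * sd_nv

theorem sdR_R (z : ℂ) : sdR (sdR z) = z := by
  rw [← sdZ_inv (sdR (sdR z)), sdZ_R, sdZ_R, conj_conj, sdZ_inv]

theorem sdR_smul (r : ℝ) (z : ℂ) : sdR (r * z) = r * sdR z := by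
  simp only [sdR, map_mul, conj_ofReal]
  ring

theorem sdR_norm (z : ℂ) : ‖sdR z‖ = ‖z‖ := by
  rw [sdR, sd_mv, norm_mul, norm_mul, sd_nn, RCLike.norm_conj, one_mul, one_mul]

theorem sd_Z (n x : ℂ) : sd n x = (sdZ n).re * (sdZ x).im - (sdZ n).im * (sdZ x).re := by
  have : (starRingEnd ℂ) n * x = (starRingEnd ℂ) (sdZ n) * sdZ x := by
    simp only [sdZ, map_mul, conj_conj]
    linear_combination (-(starRingEnd ℂ) n * x) * sd_nv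
  rw [sd, this, mul_im, conj_re, conj_im]
  ring

theorem sd_n (k : ℝ) : 0 < √(1 + k ^ 2) := Real.sqrt_pos.2 (by positivity)

theorem sdZ_D (k : ℝ) :
    (sdZ (sdD k)).re = 1 / √(1 + k ^ 2) ∧ (sdZ (sdD k)).im = k / √(1 + k ^ 2) := by
  rw [sdZ, sdD, ← mul_assoc, sd_nv, one_mul, div_ofReal_re, div_ofReal_im]
  simp

theorem sdD_norm (k : ℝ) : ‖sdD k‖ = 1 := by
  rw [sdD, norm_mul, sd_nn, one_mul, norm_div, norm_real, Real.norm_of_nonneg (sd_n k).le,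
    div_eq_one_iff_eq (sd_n k).ne', ← ofReal_one, norm_add_mul_I, one_pow]

theorem sdD_cont : Continuous sdD :=
  continuous_const.mul (Continuous.div (by fun_prop) (by fun_prop) fun k =>
    ofReal_ne_zero.2 (sd_n k).ne')

theorem sdD_eq {d : ℂ} (hd : ‖d‖ = 1) (h : 0 < (sdZ d).re) :
    sdD ((sdZ d).im / (sdZ d).re) = d := by
  have h1 : ‖sdZ d‖ = 1 := by rw [sdZ, norm_mul, RCLike.norm_conj, sd_nn, hd, one_mul]
  have h2 : (sdZ d).re ^ 2 + (sdZ d).im ^ 2 = 1 := by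
    rw [sq, sq, ← normSq_apply, normSq_eq_norm_sq, h1, one_pow]
  have h3 : √(1 + ((sdZ d).im / (sdZ d).re) ^ 2) = 1 / (sdZ d).re := by
    rw [Real.sqrt_eq_iff_mul_self_eq (by positivity) (by positivity)]
    field_simp
    linarith
  obtain ⟨a, b⟩ := sdZ_D ((sdZ d).im / (sdZ d).re)
  rw [← sdZ_inv (sdD _), show sdZ (sdD _) = sdZ d from Complex.ext
    (by rw [a, h3, one_div_one_div]) (by rw [b, h3]; field_simp), sdZ_inv]

theorem sdR_D (k : ℝ) : sdR (sdD k) = sdD (-k) := by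
  rw [← sdZ_inv (sdR _), ← sdZ_inv (sdD (-k)), sdZ_R]
  congr 1
  apply Complex.ext
  · rw [conj_re, (sdZ_D _).1, (sdZ_D _).1, neg_sq]
  · rw [conj_im, (sdZ_D _).2, (sdZ_D _).2, neg_sq, neg_div]

theorem sd_rad (k : ℝ) (he : ‖e‖ = 1) : 0 < Rad (sdD k) e ∧ Rad (sdD k) e < 1 :=
  ⟨(Rad_spec.2 _ _ (sdD_norm k) he).1, (Rad_spec.2 _ _ (sdD_norm k) he).2.1⟩

theorem sd_lt (he : ‖e‖ = 1) (h : τ ∈ Icc (0 : ℝ) 1) :
    τ * Rad (sdD k) e ∈ Icc 0 (Rad (sdD k) e) ∧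
      ‖((τ * Rad (sdD k) e : ℝ) : ℂ) * sdD k‖ = τ * Rad (sdD k) e ∧
      ‖((τ * Rad (sdD k) e : ℝ) : ℂ) * sdD k‖ < 1 := by
  obtain ⟨a, b⟩ := sd_rad k he
  have c := mul_nonneg h.1 a.le
  have d := mul_le_of_le_one_left a.le h.2
  rw [norm_mul, sdD_norm, mul_one, norm_real, Real.norm_of_nonneg c]
  exact ⟨⟨c, d⟩, rfl, d.trans_lt b⟩

theorem sd_y {x : ℂ} (hx : ‖x‖ < 1) (he : ‖e‖ = 1) : ∃ s : ℝ, 0 < s ∧ yy (sl x e).1 = s * e :=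
  ⟨_, Real.sqrt_pos.2 (by rw [normSq_eq_norm_sq]; nlinarith [norm_nonneg x]), (sl_val hx.le he).2⟩

theorem sde_of (he : ‖e‖ = 1) (h : ∃ s : ℝ, 0 < s ∧ yy p.1 = s * e) : sde p = e := by
  obtain ⟨s, hs, h⟩ := h
  rw [sde, h, norm_mul, he, mul_one, norm_real, Real.norm_of_nonneg hs.le,
    mul_div_cancel_left₀ _ (ofReal_ne_zero.2 hs.ne')]

theorem sdB_x (he : ‖e‖ = 1) (h : τ ∈ Icc (0 : ℝ) 1) :
    xx (sdB τ k e).1 = ((τ * Rad (sdD k) e : ℝ) : ℂ) * sdD k := (sl_val (sd_lt he h).2.2.le he).1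

theorem sdB_y (he : ‖e‖ = 1) (h : τ ∈ Icc (0 : ℝ) 1) : ∃ s : ℝ, 0 < s ∧ yy (sdB τ k e).1 = s * e :=
  sd_y (sd_lt he h).2.2 he

theorem sdB_e (he : ‖e‖ = 1) (h : τ ∈ Icc (0 : ℝ) 1) : sde (sdB τ k e) = e := sde_of he (sdB_y he h)

theorem sd_one : (1 : ℝ) ∈ Icc (0 : ℝ) 1 := right_mem_Icc.2 zero_le_one

theorem sdB_Z (he : ‖e‖ = 1) : ∃ c : ℝ, 0 < c ∧ (sdZ (xx (sdB 1 k e).1)).re = c ∧
    (sdZ (xx (sdB 1 k e).1)).im = c * k := by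
  refine ⟨_, div_pos (sd_rad k he).1 (sd_n k), ?_⟩
  rw [sdB_x he sd_one, sdZ_smul, re_ofReal_mul, im_ofReal_mul, (sdZ_D k).1, (sdZ_D k).2]
  constructor <;> ring

theorem sdB_k (he : ‖e‖ = 1) : sdk (sdB 1 k e) = k := by
  obtain ⟨c, a, b, d⟩ := sdB_Z (k := k) he
  rw [sdk, b, d, mul_div_cancel_left₀ _ a.ne']

theorem sdB_zero (k k' : ℝ) (e : ℂ) : sdB 0 k e = sdB 0 k' e := by simp [sdB]

theorem sdB_inj (he : ‖e‖ = 1) (he' : ‖e'‖ = 1) (h : τ ∈ Icc (0 : ℝ) 1) (h' : τ' ∈ Icc (0 : ℝ) 1)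
    (H : sdB τ k e = sdB τ' k' e') : e = e' ∧ τ = τ' ∧ (τ = 0 ∨ k = k') := by
  obtain rfl : e = e' := by rw [← sdB_e (k := k) he h, H, sdB_e he' h']
  have x := sdB_x (k := k) he h
  rw [H, sdB_x he h'] at x
  obtain ⟨a, b | b⟩ := KitA_polar (sd_lt he h').1.1 (sd_lt he h).1.1
    (mem_sphere_zero_iff_norm.2 (sdD_norm _)) (mem_sphere_zero_iff_norm.2 (sdD_norm _)) x
  · have c := (mul_eq_zero.1 (a.symm.trans b)).resolve_right (sd_rad _ he).1.ne'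
    exact ⟨rfl, c.trans ((mul_eq_zero.1 b).resolve_right (sd_rad _ he).1.ne').symm, .inl c⟩
  · refine ⟨rfl, (mul_right_cancel₀ (sd_rad _ he).1.ne' (b ▸ a)).symm, .inr ?_⟩
    rw [← sdB_k (k := k) he, ← sdB_k (k := k') he, sdB, sdB, b]

theorem sdB_of (hq : q ∈ Aj 0) : ∃ k e, ‖e‖ = 1 ∧ q = sdB 1 k e := by
  obtain ⟨d, e, hd, he, rfl⟩ := Aj_rad hq
  obtain ⟨a, b, -⟩ := Rad_spec.2 d e hd he
  have x := (sl_val (x := Rad d e * d) (by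
    rw [norm_mul, hd, mul_one, norm_real, Real.norm_of_nonneg a.le]; exact b.le) he).1
  rcases Xp_pos (.inl ((Six_Kt 0).2.2.2 hq)) with c | c
  · have c' := x.symm.trans c
    rw [mul_eq_zero, ofReal_eq_zero, ← norm_eq_zero (a := d), hd] at c'
    exact (c'.elim a.ne' one_ne_zero).elim
  · rw [x, mul_left_comm, re_ofReal_mul, mul_pos_iff_of_pos_left a] at c
    exact ⟨_, e, he, by rw [sdB, sdD_eq hd c, one_mul]⟩

theorem sdB_six (he : ‖e‖ = 1) (h : τ ∈ Icc (0 : ℝ) 1) (hA : sdB 1 k e ∈ Aj 0) :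
    sdB τ k e ∈ Six 0 :=
  (Six_iff 0 _).2 ⟨_, e, sdD_norm k, he, by simpa only [sdB, one_mul] using hA, _,
    (sd_lt he h).1, rfl⟩

theorem six_sdB (hp : p ∈ Six 0) :
    ∃ τ k e, ‖e‖ = 1 ∧ τ ∈ Icc (0 : ℝ) 1 ∧ sdB 1 k e ∈ Aj 0 ∧ p = sdB τ k e := by
  obtain ⟨d, e, hd, he, hA, r, hr, rfl⟩ := (Six_iff 0 _).1 hp
  obtain ⟨k, e', he', H⟩ := sdB_of hA
  obtain ⟨a, b, -⟩ := Rad_spec.2 d e hd he
  have n : ‖(Rad d e : ℂ) * d‖ < 1 := by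
    rwa [norm_mul, hd, mul_one, norm_real, Real.norm_of_nonneg a.le]
  obtain ⟨h1, h2⟩ := (sl_eq n.le he (sd_lt he' sd_one).2.2.le he').1 H
  obtain rfl := h2.resolve_right n.ne
  obtain rfl := (KitA_polar a.le (sd_lt he sd_one).1.1 (mem_sphere_zero_iff_norm.2 hd)
    (mem_sphere_zero_iff_norm.2 (sdD_norm _)) h1).2.resolve_left a.ne'
  exact ⟨r / Rad (sdD k) e, k, e, he, ⟨div_nonneg hr.1 a.le, (div_le_one a).2 hr.2⟩, H ▸ hA,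
    by rw [sdB, div_mul_cancel₀ _ a.ne']⟩

theorem sd_kp (he : ‖e‖ = 1) : sde (kp e) = e ∧ 0 < (sdZ (xx (kp e).1)).re ∧
    0 < (sdZ (xx (kp e).1)).im ∧ kp e = sdB 1 (sdK e) e := by
  obtain ⟨a, b, c, d, -⟩ := kp_spec he
  have h1 : sde (kp e) = e := sde_of he (b ▸ sd_y c he)
  obtain ⟨k, e', he', H⟩ := sdB_of (((Aj_adj 0).2.1.ge a).1)
  have h3 : (1 : ℝ) < √3 := Real.lt_sqrt_of_sq_lt (by norm_num)
  have h4 := le_abs_self (xx (kp e).1).im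
  have h5 := neg_abs_le (xx (kp e).1).im
  have h6 := abs_nonneg (xx (kp e).1).im
  refine ⟨h1, ?_, ?_, ?_⟩
  · simp [sdZ, nv]
    nlinarith [r3]
  · simp [sdZ, nv]
    nlinarith
  · obtain rfl : e = e' := by rw [← h1, H, sdB_e he' sd_one]
    rw [sdK, H, sdB_k he]

theorem sdK_pos (he : ‖e‖ = 1) : 0 < sdK e := div_pos (sd_kp he).2.2.1 (sd_kp he).2.1

theorem sdK_cont : ContinuousOn sdK (sphere 0 1) := by
  have c : ContinuousOn (fun e => sdZ (xx (kp e).1)) (sphere 0 1) := continuousOn_const.mul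
    ((cont_xx.comp continuous_subtype_val).comp_continuousOn kp_cont)
  exact (continuous_im.comp_continuousOn c).div (continuous_re.comp_continuousOn c)
    fun e he => (sd_kp (mem_sphere_zero_iff_norm.1 he)).2.1.ne'

theorem sd_ann (he : ‖e‖ = 1) (t : ℝ) : sl (t * xx (kp e).1) e = sdB t (sdK e) e := by
  rw [(sd_kp he).2.2.2, sdB_x he sd_one, one_mul, ← mul_assoc, ← ofReal_mul, sdB]

theorem sdB_ann (he : ‖e‖ = 1) (h : τ ∈ Icc (0 : ℝ) 1) : sdB τ k e ∈ Ann 0 ↔ τ = 0 ∨ k = sdK e := by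
  rw [Ann_iff]
  refine ⟨fun ⟨e', he', t, ht, H⟩ => ?_, fun H => ⟨e, he, τ, h, ?_⟩⟩
  · obtain ⟨rfl, -, c⟩ := sdB_inj he he' h ht (H.trans (sd_ann he' t))
    exact c
  · rw [sd_ann he]
    rcases H with rfl | rfl
    · exact sdB_zero _ _ _
    · rfl

theorem sw_sl {x : ℂ} (hx : ‖x‖ ≤ 1) (he : ‖e‖ = 1) : sw (sl x e) = sl (sdR x) (sdR e) := by
  obtain ⟨a, b⟩ := sl_val hx he
  obtain ⟨c, d⟩ := sl_val ((sdR_norm x).trans_le hx) ((sdR_norm e).trans he)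
  refine ext_xy (by rw [xx_sw, a, c]; rfl) ?_
  rw [yy_sw, b, d, normSq_eq_norm_sq (sdR x), sdR_norm, ← normSq_eq_norm_sq]
  exact sdR_smul _ _

theorem cj_sl {x : ℂ} (hx : ‖x‖ ≤ 1) (he : ‖e‖ = 1) : cj (sl x e) = sl x (-e) := by
  obtain ⟨a, b⟩ := sl_val hx he
  obtain ⟨c, d⟩ := sl_val hx ((norm_neg e).trans he)
  exact ext_xy (by rw [xx_cj, a, c]) (by rw [yy_cj, b, d, mul_neg])

theorem sd_Rad (he : ‖e‖ = 1) :
    Rad (sdD (-k)) (sdR e) = Rad (sdD k) e ∧ Rad (sdD k) (-e) = Rad (sdD k) e := by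
  have n : ∀ r ∈ Icc (0 : ℝ) 1, ‖(r : ℂ) * sdD k‖ ≤ 1 := fun r hr => by
    rw [norm_mul, sdD_norm, mul_one, norm_real, Real.norm_of_nonneg hr.1]
    exact hr.2
  refine ⟨congrArg sSup (Set.ext fun r => and_congr_right fun hr => ?_),
    congrArg sSup (Set.ext fun r => and_congr_right fun hr => ?_)⟩
  · rw [← sdR_D, ← sdR_smul, ← sw_sl (n r hr) he, (sw_Kt _).1]
  · rw [← cj_sl (n r hr) he, (cj_mem 0 _).1]

theorem sw_B (he : ‖e‖ = 1) (h : τ ∈ Icc (0 : ℝ) 1) : sw (sdB τ k e) = sdB τ (-k) (sdR e) := by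
  rw [sdB, sw_sl (sd_lt he h).2.2.le he, sdR_smul, sdR_D, sdB, (sd_Rad he).1]

theorem cj_B (he : ‖e‖ = 1) (h : τ ∈ Icc (0 : ℝ) 1) : cj (sdB τ k e) = sdB τ k (-e) := by
  rw [sdB, cj_sl (sd_lt he h).2.2.le he, sdB, (sd_Rad he).2]

theorem sdB_kap (he : ‖e‖ = 1) : sdB 1 k e ∈ kap 0 ↔ k = sdK e := by
  rw [kap_iff]
  refine ⟨fun ⟨e', he', H⟩ => ?_, fun H => ⟨e, he, H ▸ (sd_kp he).2.2.2.symm⟩⟩
  obtain ⟨rfl, -, c⟩ := sdB_inj he he' sd_one sd_one (H.trans (sd_kp he').2.2.2)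
  exact c.resolve_left one_ne_zero

theorem sdK_neg (he : ‖e‖ = 1) : sdK (-e) = sdK e := by
  refine ((sdB_kap ((norm_neg e).trans he)).1 ?_).symm
  rw [← cj_B he sd_one, (cj_mem 0 _).2.2.2.2.2.2.1, sdB_kap he]

theorem sd_pt (he : ‖e‖ = 1) {r : ℝ} (h0 : 0 < r) (h1 : r ≤ Rad (sdD k) e) :
    ∃ τ ∈ Icc (0 : ℝ) 1, τ ≠ 0 ∧ xx (sdB τ k e).1 = r * sdD k ∧
      yy (sdB τ k e).1 = (√(1 - r ^ 2) : ℝ) * e := by
  have a := (sd_rad k he).1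
  have m : r / Rad (sdD k) e ∈ Icc (0 : ℝ) 1 := ⟨by positivity, (div_le_one a).2 h1⟩
  refine ⟨_, m, by positivity, by rw [sdB_x he m, div_mul_cancel₀ _ a.ne'], ?_⟩
  rw [sdB, (sl_val (sd_lt he m).2.2.le he).2, normSq_eq_norm_sq, (sd_lt he m).2.1,
    div_mul_cancel₀ _ a.ne']

theorem sd_DD {r : ℝ} (h : 0 < r) (a b : ℝ) : ∃ c : ℝ, 0 < c ∧
    sd (r * sdD a) (r * sdD b) = c * (b - a) := by
  refine ⟨r * r / (√(1 + a ^ 2) * √(1 + b ^ 2)), by have := sd_n a; have := sd_n b; positivity, ?_⟩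
  simp only [sd_Z, sdZ_smul, re_ofReal_mul, im_ofReal_mul, sdZ_D]
  ring

theorem sdB_Aj (he : ‖e‖ = 1) : sdB 1 k e ∈ Aj 0 ↔ -sdK (sdR e) ≤ k ∧ k ≤ sdK e := by
  have he' := (sdR_norm e).trans he
  obtain ⟨r, r0, r1, r2, r3⟩ : ∃ r, 0 < r ∧ r ≤ Rad (sdD k) e ∧ r ≤ Rad (sdD (sdK e)) e ∧
      r ≤ Rad (sdD (sdK (sdR e))) (sdR e) :=
    ⟨_, lt_min (sd_rad _ he).1 (lt_min (sd_rad _ he).1 (sd_rad _ he').1), min_le_left _ _,
      (min_le_right _ _).trans (min_le_left _ _), (min_le_right _ _).trans (min_le_right _ _)⟩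
  obtain ⟨τ, m, t0, x, y⟩ := sd_pt he r0 r1
  obtain ⟨u, mu, -, xu, yu⟩ := sd_pt he r0 r2
  have e1 := (sd_Rad (k := sdK (sdR e)) he').1
  rw [sdR_R] at e1
  obtain ⟨v, mv, -, xv, yv⟩ := sd_pt he r0 (r3.trans_eq e1.symm)
  have hu : sdB u (sdK e) e ∈ Hp 0 := .inl ((sdB_ann he mu).2 (.inr rfl))
  have hv : sdB v (-sdK (sdR e)) e ∈ Hp 5 := .inl ((sw_e 5 _).2.2.2.2.1.1 (by
    rw [sw_B he mv, neg_neg]
    exact (sdB_ann he' mv).2 (.inr rfl)))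
  have key := Xp_sector hu hv (yu.trans y.symm) (yv.trans y.symm)
  obtain ⟨c, c0, c1⟩ := sd_DD r0 (sdK e) k
  obtain ⟨d, d0, d1⟩ := sd_DD r0 (-sdK (sdR e)) k
  rw [x, xu, xv, c1, d1, mul_nonneg_iff_of_pos_left d0, sub_nonneg, ← not_lt,
    mul_pos_iff_of_pos_left c0, not_lt, sub_nonpos, and_comm] at key
  refine Iff.trans ⟨fun h => .inl (sdB_six he m h), fun h => ?_⟩ key
  obtain ⟨τ', k', e', he'', m', hA, H⟩ := six_sdB ((Xp_Kt 0).1.le ⟨h,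
    ((Rad_spec.2 _ _ (sdD_norm k) he).2.2 _ ⟨(sd_lt he m).1.1,
      (sd_lt he m).1.2.trans (sd_rad k he).2.le⟩).1.2 (sd_lt he m).1.2⟩)
  obtain ⟨rfl, -, c⟩ := sdB_inj he he'' m m' H
  rwa [c.resolve_left t0]

end

end Pool.Agent.Lib.MP_b7d179_gt.Gm
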