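import Pool.Agent.Lib.MP_b7d179_gt.G.Defs

/-! The first level sets of a chamber and of the vertex `0`. -/

namespace Pool.Agent.Lib.MP_b7d179_gt.Gm

open Set Metric Complex Stmt

noncomputable section

instance : Nonempty S3 := ⟨pt 0⟩

def kk (j : Fin 6) (p : E) : ℝ := 9 * av j p - min (av (j - 1) p) (av (j + 1) p) - 12

/-- the solid torus round the core circle -/
def Kt : Set S3 := {p | ∀ j, 0 ≤ kk j p.1}
def KL : Set S3 := {p | ∀ j, 3 / 2 ≤ av j p.1}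
def Out (j : Fin 6) : Set S3 :=
  {p | av j p.1 ≤ av (j - 1) p.1 ∧ av j p.1 ≤ av (j + 1) p.1 ∧ kk j p.1 ≤ 0}
def Aj (j : Fin 6) : Set S3 := Out j ∩ Kt
def Sb (e : Fin 6) : Set S3 := {p | av e p.1 = av (e + 1) p.1}
def Cap (e : Fin 6) : Set S3 := {p | av (e + 1) p.1 ≤ av e p.1}
def kap (e : Fin 6) : Set S3 := {p | av e p.1 = 3 / 2 ∧ av (e + 1) p.1 = 3 / 2}
def Uu (e : Fin 6) : Set S3 := {p | 3 / 2 ≤ av e p.1 ∧ 3 / 2 ≤ av (e + 1) p.1}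

/-- the core circle -/
def kc : Set S3 := {p | xx p.1 = 0}

/-- the point of the core circle at the angle `t` -/
def km (t : ℝ) : S3 := xy 0 (exp (t * I))

/-- cone over `Q` in the slices, towards the core circle -/
def cone (Q : Set S3) : Set S3 :=
  {p | ∃ q ∈ Q, ∃ t ∈ Icc (0 : ℝ) 1, ∃ s : ℝ, 0 < s ∧ xx p.1 = t * xx q.1 ∧ yy p.1 = s * yy q.1}

def Ann (e : Fin 6) : Set S3 := cone (kap e)
def Six (j : Fin 6) : Set S3 := cone (Aj j)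
def Hp (e : Fin 6) : Set S3 := Ann e ∪ {p | av e p.1 = av (e + 1) p.1 ∧ av e p.1 ≤ 3 / 2}
def Xp (j : Fin 6) : Set S3 := Six j ∪ Out j

/-- supports behind wall `e` -/
def Sp (e : Fin 6) : Set S3 := g e '' Uu e ∪ (g e ^ 2 : S3 ≃ₜ S3) '' Uu e

def Uq (e : Fin 6) : Set S3 := {p | p ∈ Uu e ∧ 11 / 8 ≤ av (e - 1) p.1 ∧ 11 / 8 ≤ av (e + 2) p.1}
def Sq (e : Fin 6) : Set S3 := g e '' Uq e ∪ (g e ^ 2 : S3 ≃ₜ S3) '' Uq e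

/-- hull of the lens at vertex `j` -/
def hl (j : Fin 6) : Set S3 := Six j ∪ Out j ∪ Sq (j - 1) ∪ Sq j

/-- hulls of the two balls cut out by the sphere of wall `0` -/
def FH : Set S3 := Cap 0 ∪ {p | ∃ k : ℕ, (g 0 ^ k) p ∈ Uq 0}
def NH : Set S3 := {p | av 0 p.1 ≤ av 1 p.1} ∪ {p | ∃ k : ℕ, (g 0 ^ k) p ∈ Uq 0}

/-- imaginary part of `x / n` -/
def sd (n x : ℂ) : ℝ := ((starRingEnd ℂ) n * x).im

open Classical in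
/-- the point of `kap 0` in the slice of `e` -/
def kp (e : ℂ) : S3 := Classical.epsilon fun q => q ∈ kap 0 ∧ ∃ s : ℝ, 0 < s ∧ yy q.1 = s * e

/-- the radius of `Kt` in the direction `d` of the slice of `e` -/
def Rad (d e : ℂ) : ℝ := sSup {r | r ∈ Icc (0 : ℝ) 1 ∧ sl (r * d) e ∈ Kt}

def chi (t : ℝ) : ℝ := max (-1) (min 1 (1 + 16 * t))

/-- the intermediate sphere -/
def Sx : Set S3 := {p | p.1.2.re * (√2 - chi p.1.1.re * p.1.1.re) = chi p.1.1.re * (p.1.1.im * p.1.2.im)}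

/-- the vertex cell -/
def Vt : Set S3 := {p | ∀ a b : ℕ, gg a b p ∈ Out 0}

/-- images under the stabiliser of vertex `0` -/
def orb (Q : Set S3) : Set S3 := {p | ∃ a b : ℕ, gg a b p ∈ Q}

def Core : Set S3 := Vt ∪ orb (Six 0)

/-- the boundary of the vertex cell -/
def Bd : Set S3 := Vt ∩ orb (Aj 0 ∪ Sb 0 ∪ Sb 5)

/-- the pair of pants on wall `0` -/
def Pn : Set S3 :=
  {p | p ∈ Sb 0 ∧ ∀ k : ℕ, av 0 ((g 0 ^ k) p).1 ≤ 3 / 2} ∪ {p | ∃ k : ℕ, (g 0 ^ k) p ∈ Ann 0}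

structure IsTh (Θ : S3 ≃ₜ S3) : Prop where
  supp : ∀ p : S3, ¬ (p ∈ Uu 0 ∧ 3 / 2 ≤ av 2 p.1 ∧ 3 / 2 ≤ av 5 p.1) → Θ p = p
  cap : Θ '' Cap 0 = Xp 1 ∪ Xp 2 ∪ Xp 3
  sph : Θ '' Sb 0 = Hp 0 ∪ Hp 3
  fib : ∀ p ∈ Sp 3, (Θ.symm p).1.1 = p.1.1

/-- the straightening homeomorphism of wall `0` -/
structure IsH (h : S3 ≃ₜ S3) : Prop where
  supp : ∀ p, p ∉ Sp 0 → h p = p
  ex : ∃ Θ, IsTh Θ ∧ ∀ y ∈ Uu 0, ∀ k : ℕ, k = 1 ∨ k = 2 →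
    h ((g 0 ^ k) y) = (g 0 ^ k) ((rot ^ 3 * h * (rot ^ 3)⁻¹) (Θ y))

/-- the straightening homeomorphism of wall `e` -/
def hE (h : S3 ≃ₜ S3) (e : Fin 6) : S3 ≃ₜ S3 := rot ^ (e : ℕ) * h * (rot ^ (e : ℕ))⁻¹

/-- the half spheres and the lenses -/
def HH (h : S3 ≃ₜ S3) (e : Fin 6) : Set S3 := hE h e '' Hp e
def XX (h : S3 ≃ₜ S3) (j : Fin 6) : Set S3 := hE h (j - 1) '' (hE h j '' Xp j)

/-- six discs with the common rim `kc` and the six lenses between them -/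
structure Book (H X : Fin 6 → Set S3) : Prop where
  disc : ∀ e, Disc (H e) kc
  hh : ∀ e e', e ≠ e' → H e ∩ H e' = kc
  ball : ∀ j, Ball (X j) (H (j - 1) ∪ H j)
  adj : ∀ j, X j ∩ X (j + 1) = H j
  far : ∀ j k, k ≠ j → k ≠ j + 1 → k ≠ j - 1 → X j ∩ X k = kc
  cov : ∀ p, ∃ j, p ∈ X j
  rotH : ∀ e, rot '' H e = H (e + 1)
  rotX : ∀ j, rot '' X j = X (j + 1)

/-- the two balls cut out by the sphere of wall `0`, the ball behind wall `5` -/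
def Far (X : Fin 6 → Set S3) : Set S3 := X 1 ∪ X 2 ∪ X 3
def Near (X : Fin 6 → Set S3) : Set S3 := X 0 ∪ X 5 ∪ X 4
def FarV (X : Fin 6 → Set S3) : Set S3 := X 5 ∪ X 4 ∪ X 3

/-- the tripod balls at the vertices `1` and `0`, entered through wall `0` -/
def YF (H X : Fin 6 → Set S3) : Set S3 :=
  {p | p ∈ Far X ∧ ∀ k : ℕ, (g 0 ^ k) p ∈ X 2 ∪ X 3 → (g 0 ^ k) p ∈ H 1}
def YN (H X : Fin 6 → Set S3) : Set S3 :=
  {p | p ∈ Near X ∧ ∀ k : ℕ, (g 0 ^ k) p ∈ X 5 ∪ X 4 → (g 0 ^ k) p ∈ H 5}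

/-- images under the powers of a map -/
def cyc (γ : S3 ≃ₜ S3) (Q : Set S3) : Set S3 := {p | ∃ k : ℕ, (γ ^ k) p ∈ Q}

/-- `Q` misses its images under a map of order three -/
def Free (γ : S3 ≃ₜ S3) (Q : Set S3) : Prop := ∀ p ∈ Q, γ p ∉ Q

structure Wall (H X : Fin 6 → Set S3) : Prop where
  hull : ∀ j, X j ⊆ hl j
  clean : ∀ j p, p ∉ Sq (j - 1) → p ∉ Sq j → (p ∈ X j ↔ p ∈ Xp j)
  cleanH : ∀ e p, p ∉ Sq e → (p ∈ H e ↔ p ∈ Hp e)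
  farI : g 0 '' Far X = Far X
  nearI : g 0 '' Near X = Near X
  farH : Far X ⊆ FH
  nearH : Near X ⊆ NH
  dec : H 0 = Pn ∪ g 0 '' H 3 ∪ (g 0 ^ 2 : S3 ≃ₜ S3) '' H 3
  pn3 : Pn ∩ H 3 = kc

/-- the side of the equator -/
def zt (p : S3) : ℝ := (p.1.2 * (starRingEnd ℂ) ((√2 : ℝ) - p.1.1)).im

/-- the open sector between the angles `0` and `120` -/
def Sec0 : Set ℂ := {z | 0 < z.im ∧ (w1 ^ 2 * z).im < 0}

/-- the base tube of the vertex cell -/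
def U0 : Set S3 := {p | p ∈ Vt ∧ normSq (Z2 p.1) ≤ normSq (Z1 p.1) ∧ Z1 p.1 ∈ Sec0}

/-- the base of the tube -/
def Bz : Set ℂ := {z | normSq z ≤ 3 / 2 ∧ ∀ b : ℕ, 1 ≤ normSq (2 - w1 ^ b * z)}

/-- the point over `z` at the angle `t` -/
def fz (z : ℂ) (t : ℝ) : S3 := zp ((√(3 - normSq z) : ℝ) * exp (t * I)) z

/-- the part of `Bd` on the side of wall `0` -/
def Bu : Set S3 := Bd ∩ cyc (g 0) (Sb 0 ∪ (Aj 0 ∩ {p | 0 ≤ sd (nv 0) (xx p.1)}))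

/-- the curve in the middle of the annulus `Aj 0` -/
def Mm (t : ℝ) : S3 := sl (Rad (nv 0) (exp (t * I)) * nv 0) (exp (t * I))

def bt (Q : Set S3) (L : S3 → ℝ) : Set (S3 × ℝ) := {x | x.1 ∈ Q ∧ 0 ≤ x.2 ∧ x.2 ≤ L x.1}

/-- the sixth of the solid torus as the region over the annulus `Aj 0` -/
structure IsS (L : S3 → ℝ) (S : S3 × ℝ → S3) : Prop where
  cL : ContinuousOn L (Aj 0)
  pos : ∀ x ∈ Aj 0, 0 ≤ L x
  zero : ∀ x ∈ Aj 0, L x = 0 ↔ x ∈ Sb 0 ∪ Sb 5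
  emb : Emb S (bt (Aj 0) L)
  img : S '' bt (Aj 0) L = Six 0
  s0 : ∀ x ∈ Aj 0, S (x, 0) = x
  out : ∀ x ∈ bt (Aj 0) L, S x ∈ Out 0 → x.2 = 0
  topu : ∀ x ∈ bt (Aj 0) L, S x ∈ Ann 0 ↔ x.2 = L x.1 ∧ 0 ≤ sd (nv 0) (xx x.1.1)
  topv : ∀ x ∈ bt (Aj 0) L, S x ∈ Ann 5 ↔ x.2 = L x.1 ∧ sd (nv 0) (xx x.1.1) ≤ 0
  slice : ∀ x ∈ bt (Aj 0) L, ∃ s : ℝ, 0 < s ∧ yy (S x).1 = s * yy x.1.1
  sym : ∀ γ, γ = sw ∨ γ = cj → ∀ x ∈ bt (Aj 0) L, L (γ x.1) = L x.1 ∧ S (γ x.1, x.2) = γ (S x)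

/-- the same over the whole boundary of the vertex cell -/
structure IsE (L : S3 → ℝ) (S : S3 × ℝ → S3) : Prop where
  base : IsS L S
  cL : ContinuousOn L Bd
  pos : ∀ x ∈ Bd, 0 ≤ L x
  zero : ∀ x ∈ Bd, x ∈ orb (Sb 0 ∪ Sb 5) → L x = 0
  emb : Emb S (bt Bd L)
  s0 : ∀ x ∈ Bd, S (x, 0) = x
  out : ∀ x ∈ bt Bd L, S x ∈ Vt → x.2 = 0
  img : Vt ∪ S '' bt Bd L = Core
  top : (fun x => S (x, L x)) '' Bu = Pn
  pn : ∀ x ∈ bt Bd L, S x ∈ Pn → x.1 ∈ Bu ∧ x.2 = L x.1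
  mid : ∀ t, S (Mm t, L (Mm t)) = km t
  sym : ∀ γ, γ = sw ∨ γ = cj ∨ γ = g 0 ∨ γ = g 5 →
    ∀ x ∈ bt Bd L, L (γ x.1) = L x.1 ∧ S (γ x.1, x.2) = γ (S x)

/-- a part of the vertex cell with the part of the sixths over it -/
def xt (L : S3 → ℝ) (S : S3 × ℝ → S3) (Q : Set S3) : Set S3 := Q ∪ S '' bt (Q ∩ Bd) L

/-- closed arc of the core circle, angles in units of 30 degrees -/
def ka (m n : ℕ) : Set S3 := km '' Icc (m * (Real.pi / 6)) (n * (Real.pi / 6))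
def kv (m : ℕ) : S3 := km (m * (Real.pi / 6))

/-- cells defined from the prism `U` -/
def cR (U : Set S3) : Set S3 := U ∩ sw '' U
def cHex (U : Set S3) : Set S3 := Pn ∩ U
def cSt (U : Set S3) : Set S3 := Pn ∩ sw '' U
def cHS (U : Set S3) : Set S3 := cSt U ∩ {p | 0 ≤ zt p}
def cE (U : Set S3) : Set S3 := Pn ∩ cR U
def cQ (U : Set S3) : Set S3 := cSt U ∩ {p | zt p = 0}

/-- the half turn of the square -/
def io : S3 ≃ₜ S3 := g 5 * g 0 * cj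

structure Prism (U : Set S3) : Prop where
  sub : U ⊆ Core
  cov : ∀ p ∈ Core, p ∈ cyc (g 5) U ∨ p ∈ cyc (g 0) (sw '' U)
  inv : g 0 '' U = U
  invc : (g 5 * cj : S3 ≃ₜ S3) '' U = U
  free : Free (g 5) U
  k1 : kc ∩ U = ka 2 5
  k2 : Disjoint kc (g 5 '' U)
  pn : Disjoint Pn (g 5 '' U)
  zpos : ∀ p ∈ Pn ∩ U, 0 < zt p
  aE : Arc (cE U) (kv 5) (g 0 (kv 2))
  aQ : Arc (cQ U) (kv 6) (g 0 (kv 0))
  dHS : Disc (cHS U) (cQ U ∪ ka 5 6 ∪ cE U ∪ g 0 '' ka 0 2)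
  dHex : Disc (cHex U) (cyc (g 0) (ka 2 5 ∪ cE U))
  dR : Disc (cR U) (cE U ∪ sw '' cE U ∪ io '' cE U ∪ io '' (sw '' cE U))
  ball : Ball U (cHex U ∪ (g 5 * cj : S3 ≃ₜ S3) '' cHex U ∪ cyc (g 0) (cR U ∪ sw '' cSt U))

end

end Pool.Agent.Lib.MP_b7d179_gt.Gm
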