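import Pool.Agent.Lib.MP_b7d179_gt.G.Sets
import Pool.Agent.Lib.MP_b7d179_gt.G.Chart

/-! Symmetries of the first level sets: rotation, reflection, conjugation. -/

namespace Pool.Agent.Lib.MP_b7d179_gt.Gm

open Set Metric Complex Stmt

theorem sym_cone {γ : S3 ≃ₜ S3} {L L' : ℂ → ℂ} (hL : Function.Injective L)
    (hL' : Function.Injective L') (h1 : ∀ (t : ℝ) z, L (t * z) = t * L z)
    (h2 : ∀ (t : ℝ) z, L' (t * z) = t * L' z) (hx : ∀ p, xx (γ p).1 = L (xx p.1))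
    (hy : ∀ p, yy (γ p).1 = L' (yy p.1)) {Q Q' : Set S3} (h : ∀ q, γ q ∈ Q' ↔ q ∈ Q) (p : S3) :
    γ p ∈ cone Q' ↔ p ∈ cone Q := by
  constructor
  · rintro ⟨q, hq, t, ht, s, hs, e1, e2⟩
    obtain ⟨q, rfl⟩ := γ.surjective q
    exact ⟨q, (h q).1 hq, t, ht, s, hs, hL (by rw [← hx, e1, hx, h1]),
      hL' (by rw [← hy, e2, hy, h2])⟩
  · rintro ⟨q, hq, t, ht, s, hs, e1, e2⟩
    exact ⟨γ q, (h q).2 hq, t, ht, s, hs, by rw [hx, e1, hx, h1], by rw [hy, e2, hy, h2]⟩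

theorem sym_img {γ a b : S3 ≃ₜ S3} (e : γ * a = b * γ) {Q Q' : Set S3}
    (h : ∀ q, γ q ∈ Q' ↔ q ∈ Q) (p : S3) : γ p ∈ b '' Q' ↔ p ∈ a '' Q := by
  have k : ∀ q, γ (a q) = b (γ q) := fun q => DFunLike.congr_fun e q
  constructor
  · rintro ⟨q, hq, e1⟩
    obtain ⟨q, rfl⟩ := γ.surjective q
    exact ⟨q, (h q).1 hq, γ.injective ((k q).trans e1)⟩
  · rintro ⟨q, hq, rfl⟩
    exact ⟨γ q, (h q).2 hq, (k q).symm⟩

theorem sym_two {γ a b : S3 ≃ₜ S3} (e : γ * a = b * γ) {Q Q' : Set S3}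
    (h : ∀ q, γ q ∈ Q' ↔ q ∈ Q) (p : S3) :
    γ p ∈ b '' Q' ∪ (b ^ 2 : S3 ≃ₜ S3) '' Q' ↔ p ∈ a '' Q ∪ (a ^ 2 : S3 ≃ₜ S3) '' Q :=
  or_congr (sym_img e h p) (sym_img (SemiconjBy.pow_right e 2) h p)

theorem sym_mv (i : Fin 6) : mv i ≠ 0 := fun h => by simpa [h] using mv_sq i

theorem sym_rcone {Q Q' : Set S3} (h : ∀ q, rot q ∈ Q' ↔ q ∈ Q) (p : S3) :
    rot p ∈ cone Q' ↔ p ∈ cone Q :=
  sym_cone (mul_right_injective₀ (sym_mv 1)) (mul_right_injective₀ (sym_mv 1))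
    (fun _ _ => mul_left_comm _ _ _) (fun _ _ => mul_left_comm _ _ _) xx_rot yy_rot h p

theorem sym_scone {Q Q' : Set S3} (h : ∀ q, sw q ∈ Q' ↔ q ∈ Q) (p : S3) :
    sw p ∈ cone Q' ↔ p ∈ cone Q := by
  have i : Function.Injective fun z => mv 5 * (starRingEnd ℂ) z :=
    (mul_right_injective₀ (sym_mv 5)).comp (starRingEnd ℂ).injective
  have l : ∀ (t : ℝ) (z : ℂ), mv 5 * (starRingEnd ℂ) (t * z) = t * (mv 5 * (starRingEnd ℂ) z) :=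
    fun t z => by rw [map_mul, conj_ofReal, mul_left_comm]
  exact sym_cone i i l l xx_sw yy_sw h p

theorem sym_ccone {Q Q' : Set S3} (h : ∀ q, cj q ∈ Q' ↔ q ∈ Q) (p : S3) :
    cj p ∈ cone Q' ↔ p ∈ cone Q :=
  sym_cone (L := id) Function.injective_id neg_injective (fun _ _ => rfl)
    (fun _ _ => (mul_neg _ _).symm) xx_cj yy_cj h p

theorem sym_av (j : Fin 6) (p : S3) : av j (rot p).1 = av (j - 1) p.1 := by
  rw [← av_rot (j - 1), sub_add_cancel]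

theorem sym_kkr (j : Fin 6) (p : S3) : kk j (rot p).1 = kk (j - 1) p.1 := by
  simp only [kk, sym_av, add_sub_cancel_right, sub_add_cancel]

theorem sym_kks (j : Fin 6) (p : S3) : kk j (sw p).1 = kk (-j) p.1 := by
  have h1 : -(j - 1) = -j + 1 := by revert j; decide
  have h2 : -(j + 1) = -j - 1 := by revert j; decide
  simp only [kk, av_sw, h1, h2, min_comm (av (-j + 1) p.1)]

theorem rot_Kt (p : S3) : (rot p ∈ Kt ↔ p ∈ Kt) ∧ (rot p ∈ KL ↔ p ∈ KL) ∧ (rot p ∈ kc ↔ p ∈ kc) := by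
  simp only [Kt, KL, kc, mem_ofPred_eq, sym_kkr, sym_av, xx_rot, mul_eq_zero, sym_mv, false_or]
  exact ⟨(Equiv.subRight 1).forall_congr fun _ => Iff.rfl,
    (Equiv.subRight 1).forall_congr fun _ => Iff.rfl, trivial⟩

theorem rot_e (e : Fin 6) (p : S3) : (rot p ∈ Sb (e + 1) ↔ p ∈ Sb e) ∧
    (rot p ∈ Cap (e + 1) ↔ p ∈ Cap e) ∧ (rot p ∈ kap (e + 1) ↔ p ∈ kap e) ∧
    (rot p ∈ Uu (e + 1) ↔ p ∈ Uu e) ∧ (rot p ∈ Uq (e + 1) ↔ p ∈ Uq e) ∧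
    (rot p ∈ Ann (e + 1) ↔ p ∈ Ann e) ∧ (rot p ∈ Hp (e + 1) ↔ p ∈ Hp e) ∧
    (rot p ∈ Sp (e + 1) ↔ p ∈ Sp e) ∧ (rot p ∈ Sq (e + 1) ↔ p ∈ Sq e) := by
  have h1 : e + 1 + 2 - 1 = e + 2 := by revert e; decide
  have a : ∀ q, rot q ∈ kap (e + 1) ↔ q ∈ kap e := fun q => by
    simp only [kap, mem_ofPred_eq, av_rot]
  have b : ∀ q, rot q ∈ Uu (e + 1) ↔ q ∈ Uu e := fun q => by simp only [Uu, mem_ofPred_eq, av_rot]
  have c : ∀ q, rot q ∈ Uq (e + 1) ↔ q ∈ Uq e := fun q => by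
    simp only [Uq, mem_ofPred_eq, b, sym_av, add_sub_cancel_right, h1]
  refine ⟨?_, ?_, a p, b p, c p, sym_rcone a p, or_congr (sym_rcone a p) ?_,
    sym_two (rot_g e) b p, sym_two (rot_g e) c p⟩ <;> simp only [Sb, Cap, mem_ofPred_eq, av_rot]

theorem rot_v (j : Fin 6) (p : S3) : (rot p ∈ Out (j + 1) ↔ p ∈ Out j) ∧
    (rot p ∈ Aj (j + 1) ↔ p ∈ Aj j) ∧ (rot p ∈ Six (j + 1) ↔ p ∈ Six j) ∧
    (rot p ∈ Xp (j + 1) ↔ p ∈ Xp j) ∧ (rot p ∈ hl (j + 1) ↔ p ∈ hl j) := by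
  have a : ∀ q, rot q ∈ Out (j + 1) ↔ q ∈ Out j := fun q => by
    simp only [Out, mem_ofPred_eq, sym_av, sym_kkr, add_sub_cancel_right]
  have b : ∀ q, rot q ∈ Aj (j + 1) ↔ q ∈ Aj j := fun q => and_congr (a q) (rot_Kt q).1
  have c := (rot_e (j - 1) p).2.2.2.2.2.2.2.2
  rw [sub_add_cancel] at c
  refine ⟨a p, b p, sym_rcone b p, or_congr (sym_rcone b p) (a p), or_congr (or_congr
    (or_congr (sym_rcone b p) (a p)) ?_) (rot_e j p).2.2.2.2.2.2.2.2⟩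
  rwa [add_sub_cancel_right]

theorem sw_Kt (p : S3) : (sw p ∈ Kt ↔ p ∈ Kt) ∧ (sw p ∈ KL ↔ p ∈ KL) ∧ (sw p ∈ kc ↔ p ∈ kc) := by
  simp only [Kt, KL, kc, mem_ofPred_eq, sym_kks, av_sw, xx_sw, mul_eq_zero, sym_mv, false_or,
    map_eq_zero]
  exact ⟨(Equiv.neg _).forall_congr fun _ => Iff.rfl,
    (Equiv.neg _).forall_congr fun _ => Iff.rfl, trivial⟩

theorem sw_e (e : Fin 6) (p : S3) : (sw p ∈ Sb (5 - e) ↔ p ∈ Sb e) ∧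
    (sw p ∈ kap (5 - e) ↔ p ∈ kap e) ∧ (sw p ∈ Uu (5 - e) ↔ p ∈ Uu e) ∧
    (sw p ∈ Uq (5 - e) ↔ p ∈ Uq e) ∧ (sw p ∈ Ann (5 - e) ↔ p ∈ Ann e) ∧
    (sw p ∈ Hp (5 - e) ↔ p ∈ Hp e) ∧ (sw p ∈ Sp (5 - e) ↔ p ∈ Sp e) ∧
    (sw p ∈ Sq (5 - e) ↔ p ∈ Sq e) := by
  have h1 : -(5 - e) = e + 1 := by revert e; decide
  have h2 : -(5 - e + 1) = e := by revert e; decide
  have h3 : -(5 - e - 1) = e + 2 := by revert e; decide
  have h4 : -(5 - e + 2) = e - 1 := by revert e; decide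
  have a : ∀ q, sw q ∈ kap (5 - e) ↔ q ∈ kap e := fun q => by
    simp only [kap, mem_ofPred_eq, av_sw, h1, h2]; exact and_comm
  have b : ∀ q, sw q ∈ Uu (5 - e) ↔ q ∈ Uu e := fun q => by
    simp only [Uu, mem_ofPred_eq, av_sw, h1, h2]; exact and_comm
  have c : ∀ q, sw q ∈ Uq (5 - e) ↔ q ∈ Uq e := fun q => by
    simp only [Uq, mem_ofPred_eq, b, av_sw, h3, h4]; exact and_congr_right fun _ => and_comm
  refine ⟨?_, a p, b p, c p, sym_scone a p, or_congr (sym_scone a p) ?_,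
    sym_two (sw_g e) b p, sym_two (sw_g e) c p⟩ <;> simp only [Sb, mem_ofPred_eq, av_sw, h1, h2]
  · exact eq_comm
  · exact ⟨fun h => ⟨h.1.symm, h.1 ▸ h.2⟩, fun h => ⟨h.1.symm, h.1 ▸ h.2⟩⟩

theorem sw_v (j : Fin 6) (p : S3) : (sw p ∈ Out (-j) ↔ p ∈ Out j) ∧ (sw p ∈ Aj (-j) ↔ p ∈ Aj j) ∧
    (sw p ∈ Six (-j) ↔ p ∈ Six j) ∧ (sw p ∈ Xp (-j) ↔ p ∈ Xp j) ∧
    (sw p ∈ hl (-j) ↔ p ∈ hl j) := by
  have h1 : -(-j - 1) = j + 1 := by revert j; decide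
  have h2 : -(-j + 1) = j - 1 := by revert j; decide
  have h3 : 5 - j = -j - 1 := by revert j; decide
  have h4 : 5 - (j - 1) = -j := by revert j; decide
  have a : ∀ q, sw q ∈ Out (-j) ↔ q ∈ Out j := fun q => by
    simp only [Out, mem_ofPred_eq, av_sw, sym_kks, h1, h2, neg_neg]; exact and_left_comm
  have b : ∀ q, sw q ∈ Aj (-j) ↔ q ∈ Aj j := fun q => and_congr (a q) (sw_Kt q).1
  have c := (sw_e j p).2.2.2.2.2.2.2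
  have d := (sw_e (j - 1) p).2.2.2.2.2.2.2
  rw [h3] at c
  rw [h4] at d
  exact ⟨a p, b p, sym_scone b p, or_congr (sym_scone b p) (a p), (or_congr (or_congr
    (or_congr (sym_scone b p) (a p)) c) d).trans or_right_comm⟩

theorem cj_mem (j : Fin 6) (p : S3) : (cj p ∈ Kt ↔ p ∈ Kt) ∧ (cj p ∈ kc ↔ p ∈ kc) ∧
    (cj p ∈ Out j ↔ p ∈ Out j) ∧ (cj p ∈ Aj j ↔ p ∈ Aj j) ∧ (cj p ∈ Six j ↔ p ∈ Six j) ∧
    (cj p ∈ Sb j ↔ p ∈ Sb j) ∧ (cj p ∈ kap j ↔ p ∈ kap j) ∧ (cj p ∈ Ann j ↔ p ∈ Ann j) := by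
  have a : ∀ q, cj q ∈ Aj j ↔ q ∈ Aj j := fun q => by
    simp only [Aj, Out, Kt, kk, mem_inter_iff, mem_ofPred_eq, av_cj]
  have b : ∀ q, cj q ∈ kap j ↔ q ∈ kap j := fun q => by simp only [kap, mem_ofPred_eq, av_cj]
  refine ⟨?_, Iff.rfl, ?_, a p, sym_ccone a p, ?_, b p, sym_ccone b p⟩ <;>
    simp only [Out, Kt, Sb, kk, mem_ofPred_eq, av_cj]

end Pool.Agent.Lib.MP_b7d179_gt.Gm
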