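import Pool.Agent.Lib.MP_b7d179_gt.G.Sets
import Pool.Agent.Lib.MP_b7d179_gt.G.KitA
import Pool.Agent.Lib.MP_b7d179_gt.G.KitC

/-! From the bisector sphere to the intermediate sphere, along the fibres over the first coordinate. -/

namespace Pool.Agent.Lib.MP_b7d179_gt.Gm

open Set Metric Complex Stmt

theorem th2_alg {a c s R r Y σ : ℝ} (ha : 0 < a) (hs : 0 ≤ s) (hR : 0 < R) (hr : 0 ≤ r)
    (e1 : R ^ 2 = a ^ 2 + c ^ 2) (e2 : r ^ 2 + Y ^ 2 = s ^ 2) (e3 : σ ^ 2 = 1) :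
    Y * a = c * (σ * r) ↔ Y = σ * c * s / R := by
  rw [eq_div_iff hR.ne']
  have k : (r * R) ^ 2 = (a * s) ^ 2 → r * R = a * s := fun h =>
    (pow_left_inj₀ (by positivity) (by positivity) two_ne_zero).1 h
  refine ⟨fun h => ?_, fun h => ?_⟩
  · have := k (by
      linear_combination r ^ 2 * e1 + a ^ 2 * e2 - (Y * a + c * (σ * r)) * h - c ^ 2 * r ^ 2 * e3)
    exact mul_right_cancel₀ ha.ne' (by linear_combination R * h + σ * c * this)
  · have := k (by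
      linear_combination s ^ 2 * e1 + R ^ 2 * e2 - (Y * R + σ * c * s) * h - c ^ 2 * s ^ 2 * e3)
    exact mul_right_cancel₀ hR.ne' (by linear_combination a * h - σ * c * this)

/-- the node -/
noncomputable def th2N (χ : ℝ) (w : ℂ) (σ : ℝ) : ℝ :=
  σ * (χ * w.im) * √(1 - normSq w) / √((√2 - χ * w.re) ^ 2 + (χ * w.im) ^ 2)

theorem th2_two : 1414 / 1000 < √2 := Real.lt_sqrt_of_sq_lt (by norm_num)

theorem th2_a {χ : ℝ} {w : ℂ} (h : χ ^ 2 ≤ 1) (hw : normSq w ≤ 1) : 0 < √2 - χ * w.re := by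
  rw [normSq_apply] at hw
  nlinarith [th2_two, sq_nonneg (χ - w.re), mul_self_nonneg w.im]

theorem th2_iff {χ σ Y : ℝ} {w : ℂ} (h : χ ^ 2 ≤ 1) (hσ : σ ^ 2 = 1) (hw : normSq w + Y ^ 2 ≤ 1) :
    Y * (√2 - χ * w.re) = χ * (w.im * (σ * √(1 - normSq w - Y ^ 2))) ↔ Y = th2N χ w σ := by
  have h1 : normSq w ≤ 1 := by nlinarith [sq_nonneg Y]
  have a := th2_a h h1
  rw [← mul_assoc]
  exact th2_alg a (Real.sqrt_nonneg _) (Real.sqrt_pos.2 (by positivity)) (Real.sqrt_nonneg _)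
    (Real.sq_sqrt (by positivity))
    (by rw [Real.sq_sqrt (by linarith), Real.sq_sqrt (by linarith)]; ring) hσ

theorem th2_bd {χ σ : ℝ} {w : ℂ} (h : χ ^ 2 ≤ 1) (hσ : σ ^ 2 = 1) (hw : normSq w < 1) :
    |th2N χ w σ| < min (179 / 500) √(1 - normSq w) := by
  have a := th2_a h hw.le
  have p : 0 < (√2 - χ * w.re) ^ 2 + (χ * w.im) ^ 2 := by positivity
  have h1 : th2N χ w σ ^ 2 < 1 - normSq w := by
    rw [th2N, div_pow, Real.sq_sqrt p.le, div_lt_iff₀ p, mul_pow, mul_pow, hσ,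
      Real.sq_sqrt (by linarith)]
    nlinarith [mul_pos (sub_pos.2 hw) (pow_pos a 2)]
  refine lt_min ?_ ((Real.lt_sqrt (abs_nonneg _)).2 (by rwa [sq_abs]))
  have e := (th2_iff h hσ (w := w) (Y := th2N χ w σ) (by linarith)).2 rfl
  have e2 := Real.sq_sqrt (x := 1 - normSq w - th2N χ w σ ^ 2) (by linarith)
  generalize √(1 - normSq w - th2N χ w σ ^ 2) = r at e e2
  generalize th2N χ w σ = Y at *
  rw [normSq_apply] at e2
  have b1 := mul_le_mul_of_nonneg_right h (sq_nonneg w.re)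
  have b2 := mul_le_mul_of_nonneg_right h (sq_nonneg w.im)
  have b3 : (σ * r) ^ 2 = r ^ 2 := by rw [mul_pow, hσ, one_mul]
  have c1 : 2 * √2 * Y ≤ 1 := by
    nlinarith [sq_nonneg (χ * w.re - Y), sq_nonneg (χ * w.im - σ * r)]
  have c2 : -(2 * √2 * Y) ≤ 1 := by
    nlinarith [sq_nonneg (χ * w.re + Y), sq_nonneg (χ * w.im + σ * r)]
  rw [abs_lt]
  constructor <;> nlinarith [th2_two]

theorem th2_chi (t : ℝ) : chi t ^ 2 ≤ 1 :=
  sq_le_one_iff_abs_le_one _ |>.2 (abs_le.2 ⟨le_max_left _ _,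
    max_le (by norm_num) (min_le_left _ _)⟩)

theorem th2_Sb (p : S3) : p ∈ Sb 0 ↔ p.1.2.re * (√2 - 1 * p.1.1.re) = 1 * (p.1.1.im * p.1.2.im) := by
  have e : av 0 p.1 - av 1 p.1 = 2 * √3 *
      (p.1.2.re * (√2 - 1 * p.1.1.re) - 1 * (p.1.1.im * p.1.2.im)) := by
    simp [av, wv, lin, nv, normSq_apply]
    linear_combination (√3 * (p.1.1.re * p.1.2.re + p.1.1.im * p.1.2.im)) * (-r2)
  have h : 2 * √3 ≠ 0 := by positivity
  change av 0 p.1 = av 1 p.1 ↔ _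
  rw [← sub_eq_zero, e, mul_eq_zero, or_iff_right h, sub_eq_zero]

/-- the parameter set -/
def th2A : Set (ℂ × ℝ × ℝ) := {x | x.2.1 ^ 2 = 1 ∧ normSq x.1 + x.2.2 ^ 2 ≤ 1}

/-- the parametrisation -/
noncomputable def th2E (x : ℂ × ℝ × ℝ) : E :=
  (x.1, ⟨x.2.2, x.2.1 * √(1 - normSq x.1 - x.2.2 ^ 2)⟩)

/-- the push along a fibre -/
noncomputable def th2F (u v : ℝ → ℝ) (x : ℂ × ℝ × ℝ) : ℂ × ℝ × ℝ :=
  (x.1, x.2.1, pl (-min (179 / 500) √(1 - normSq x.1)) (th2N (u x.1.re) x.1 x.2.1)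
    (th2N (v x.1.re) x.1 x.2.1) (min (179 / 500) √(1 - normSq x.1)) x.2.2)

theorem th2_nsq {x : ℂ × ℝ × ℝ} (h : x ∈ th2A) : nsq (th2E x) = 1 := by
  have := Real.sq_sqrt (x := 1 - normSq x.1 - x.2.2 ^ 2) (by linarith [h.2])
  rw [nsq, th2E, normSq_mk x.2.2]
  linear_combination √(1 - normSq x.1 - x.2.2 ^ 2) ^ 2 * h.1 + this

theorem th2_cpt : IsCompact th2A := by
  refine Metric.isCompact_of_isClosed_isBounded (IsClosed.and
    (isClosed_eq (by fun_prop) continuous_const) (isClosed_le (by fun_prop) continuous_const))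
    ((Metric.isBounded_closedBall (x := 0) (r := 1)).subset fun x hx => ?_)
  have h1 := hx.2
  rw [normSq_eq_norm_sq] at h1
  rw [mem_closedBall_zero_iff, Prod.norm_def, Prod.norm_def, max_le_iff, max_le_iff]
  refine ⟨?_, (sq_le_one_iff_abs_le_one _).1 hx.1.le, (sq_le_one_iff_abs_le_one _).1 ?_⟩ <;>
    nlinarith [norm_nonneg x.1, sq_nonneg x.2.2]

theorem th2_onto (p : S3) : ∃ x ∈ th2A, pt (th2E x) = p := by
  have h := nsq_S3 p
  rw [nsq, normSq_apply p.1.2] at h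
  have e : √(1 - normSq p.1.1 - p.1.2.re ^ 2) = |p.1.2.im| := by
    rw [← Real.sqrt_sq_eq_abs]
    congr 1
    linarith
  have b : normSq p.1.1 + p.1.2.re ^ 2 ≤ 1 := by nlinarith [mul_self_nonneg p.1.2.im]
  rcases le_total 0 p.1.2.im with c | c
  · refine ⟨(p.1.1, 1, p.1.2.re), ⟨one_pow 2, b⟩, ?_⟩
    rw [th2E, e, abs_of_nonneg c, one_mul]
    exact pt_coe p
  · refine ⟨(p.1.1, -1, p.1.2.re), ⟨neg_one_sq, b⟩, ?_⟩
    rw [th2E, e, abs_of_nonpos c, neg_one_mul, neg_neg]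
    exact pt_coe p

section
variable {u v : ℝ → ℝ} (hu : ∀ t, u t ^ 2 ≤ 1) (hv : ∀ t, v t ^ 2 ≤ 1) {x : ℂ × ℝ × ℝ}

include hu hv in
theorem th2_ok (h : x ∈ th2A) : th2N (u x.1.re) x.1 x.2.1 = th2N (v x.1.re) x.1 x.2.1 ∨
    (-min (179 / 500) √(1 - normSq x.1) < th2N (u x.1.re) x.1 x.2.1 ∧
      -min (179 / 500) √(1 - normSq x.1) < th2N (v x.1.re) x.1 x.2.1 ∧
      th2N (u x.1.re) x.1 x.2.1 < min (179 / 500) √(1 - normSq x.1) ∧
      th2N (v x.1.re) x.1 x.2.1 < min (179 / 500) √(1 - normSq x.1)) := by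
  rcases (by nlinarith [h.2, sq_nonneg x.2.2] : normSq x.1 ≤ 1).eq_or_lt with e | e
  · exact .inl (by simp [th2N, e])
  · have a := abs_lt.1 (th2_bd (hu x.1.re) h.1 e)
    have b := abs_lt.1 (th2_bd (hv x.1.re) h.1 e)
    exact .inr ⟨a.1, b.1, a.2, b.2⟩

theorem th2_fix (h : min (179 / 500) √(1 - normSq x.1) ≤ |x.2.2|) : th2F u v x = x := by
  rw [th2F, pl_out ((le_abs'.1 h))]

theorem th2_maps : MapsTo (th2F u v) th2A th2A := fun x h => by
  rcases le_total (min (179 / 500) √(1 - normSq x.1)) |x.2.2| with c | c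
  · rwa [th2_fix c]
  · have k := abs_le.2 (pl_mem (m := th2N (u x.1.re) x.1 x.2.1) (n := th2N (v x.1.re) x.1 x.2.1)
      (abs_le.1 c))
    have := (Real.le_sqrt (abs_nonneg _) (by nlinarith [h.2, sq_nonneg x.2.2])).1
      (k.trans (min_le_right _ _))
    rw [sq_abs] at this
    exact ⟨h.1, by change normSq x.1 + _ ≤ 1; exact le_sub_iff_add_le'.1 this⟩

include hu in
theorem th2_cN (cu : Continuous u) : ContinuousOn (fun x : ℂ × ℝ × ℝ => th2N (u x.1.re) x.1 x.2.1)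
    th2A := ContinuousOn.div (by fun_prop) (by fun_prop) fun x h => by
  have := th2_a (w := x.1) (hu x.1.re) (by nlinarith [h.2, sq_nonneg x.2.2])
  positivity

include hu hv in
theorem th2_cont (cu : Continuous u) (cv : Continuous v) : ContinuousOn (th2F u v) th2A :=
  continuousOn_fst.prodMk (ContinuousOn.prodMk (by fun_prop) (pl_cont (by fun_prop) (th2_cN hu cu)
    (th2_cN hv cv) (by fun_prop) (by fun_prop) fun _ h => th2_ok hu hv h))

theorem th2_inv (x : ℂ × ℝ × ℝ) : th2F v u (th2F u v x) = x := by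
  simp only [th2F, pl_inv]

theorem th2_desc : ∀ x ∈ th2A, ∀ y ∈ th2A, pt (th2E x) = pt (th2E y) →
    pt (th2E (th2F u v x)) = pt (th2E (th2F u v y)) := by
  rintro ⟨w, σ, Y⟩ hx ⟨w', σ', Y'⟩ hy e
  have e' := congrArg Subtype.val e
  rw [pt_val (th2_nsq hx), pt_val (th2_nsq hy)] at e'
  obtain ⟨rfl, e2⟩ : w = w' ∧ _ := Prod.ext_iff.1 e'
  obtain ⟨rfl, e3⟩ : Y = Y' ∧ _ := Complex.ext_iff.1 e2
  rcases mul_eq_mul_right_iff.1 e3 with e4 | e4
  · rw [show σ = σ' from e4]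
  · have k : min (179 / 500) √(1 - normSq w) ≤ |Y| := (min_le_right _ _).trans (by
      rw [← Real.sqrt_sq_eq_abs]
      exact Real.sqrt_le_sqrt (sub_nonpos.1 (Real.sqrt_eq_zero'.1 e4)))
    rwa [th2_fix k, th2_fix k]

end

/-- Parametrise the sphere by (w, σ, Y), σ = ± 1, p = (w, Y + i σ √(1 - |w|² - Y²)); with s² = 1 - |w|²
the nodes are Y = σ χ y₁ s / √((√2 - χ X)² + χ² y₁²) for χ = 1 and χ = chi X. -/
theorem exists_th2 : ∃ Θ : S3 ≃ₜ S3,
    (∀ p : S3, ¬ (p.1.1.re ≤ 0 ∧ |p.1.2.re| ≤ 179 / 500) → Θ p = p) ∧ Θ '' Sb 0 = Sx ∧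
      ∀ p, (Θ p).1.1 = p.1.1 := by
  have h1 : ∀ t : ℝ, (fun _ => (1 : ℝ)) t ^ 2 ≤ 1 := fun _ => (one_pow 2).le
  have cc : Continuous chi := by unfold chi; fun_prop
  have cE : Continuous th2E := continuous_fst.prodMk
    (equivRealProdCLM.symm.continuous.comp (f := fun x : ℂ × ℝ × ℝ =>
      (x.2.2, x.2.1 * √(1 - normSq x.1 - x.2.2 ^ 2))) (by fun_prop))
  obtain ⟨Θ, hΘ⟩ := homeo_desc th2_cpt (π := fun x => pt (th2E x))
    (contOn_pt cE.continuousOn fun _ => th2_nsq) (eq_univ_of_forall th2_onto)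
    (th2_cont h1 th2_chi continuous_const cc) (th2_cont th2_chi h1 cc continuous_const)
    th2_maps th2_maps (fun x _ => th2_inv x) (fun x _ => th2_inv x) th2_desc th2_desc
  refine ⟨Θ, fun p hp => ?_, Set.ext (Θ.surjective.forall.2 fun p => ?_), fun p => ?_⟩ <;>
    obtain ⟨x, hx, rfl⟩ := th2_onto p
  · rw [pt_val (th2_nsq hx)] at hp
    rw [(hΘ x hx).1]
    rcases not_and_or.1 hp with c | c
    · have : chi x.1.re = 1 := by
        have c' : 0 < x.1.re := not_le.1 c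
        rw [chi, min_eq_left (by linarith), max_eq_right (by norm_num)]
      simp only [th2F, this, pl_same]
    · rw [th2_fix ((min_le_left _ _).trans (not_le.1 c).le)]
  · rw [Θ.injective.mem_set_image, th2_Sb, (hΘ x hx).1, Sx, mem_ofPred_eq, pt_val (th2_nsq hx),
      pt_val (th2_nsq (th2_maps hx))]
    refine (th2_iff (h1 0) hx.1 hx.2).trans (Iff.trans ?_
      (th2_iff (th2_chi x.1.re) hx.1 (th2_maps (u := fun _ => 1) (v := chi) hx).2).symm)
    exact (pl_mono _ _ _ _).injective.eq_iff.symm.trans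
      (by rw [pl_node (th2_ok h1 th2_chi hx)]; rfl)
  · rw [(hΘ x hx).1, pt_val (th2_nsq hx), pt_val (th2_nsq (th2_maps hx))]
    rfl

end Pool.Agent.Lib.MP_b7d179_gt.Gm
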