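import Pool.Agent.Lib.MP_b7d179_gt.G.Th1
import Pool.Agent.Lib.MP_b7d179_gt.G.Th2
import Pool.Agent.Lib.MP_b7d179_gt.G.Lens
import Pool.Agent.Lib.MP_b7d179_gt.G.Supp

/-! The straightening homeomorphisms exist. -/

namespace Pool.Agent.Lib.MP_b7d179_gt.Gm

open Set Metric Complex Stmt

/-- a twisted half sphere is connected -/
theorem th_half {m : ℂ → ℂ} (cm : Continuous m) (h0 : ∀ w, normSq w ≤ 1 → m w ≠ 0) :
    IsPreconnected {p : S3 | 0 < (p.1.2 * (starRingEnd ℂ) (m p.1.1)).re} := by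
  have hC : IsPreconnected {x : ℂ × ℝ | normSq x.1 + x.2 ^ 2 < 1} := by
    refine (StarConvex.isPathConnected (a := 0) (fun x hx a b ha hb e => ?_)
      (by simp)).isConnected.isPreconnected
    have hx : normSq x.1 + x.2 ^ 2 < 1 := hx
    have hb1 : b ^ 2 ≤ 1 := by nlinarith
    have : normSq (b • x.1) + (b * x.2) ^ 2 = b ^ 2 * (normSq x.1 + x.2 ^ 2) := by
      rw [real_smul, normSq_mul, normSq_ofReal]; ring
    rw [smul_zero, zero_add]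
    refine this.trans_lt (lt_of_le_of_lt ?_ hx)
    exact mul_le_of_le_one_left (add_nonneg (normSq_nonneg _) (sq_nonneg _)) hb1
  have nz : ∀ x : ℂ × ℝ, normSq x.1 + x.2 ^ 2 < 1 → ‖m x.1‖ ≠ 0 := fun x hx =>
    norm_ne_zero_iff.2 (h0 _ (by nlinarith [sq_nonneg x.2]))
  have sp : ∀ x : ℂ × ℝ, normSq x.1 + x.2 ^ 2 < 1 →
      nsq (x.1, (((√(1 - normSq x.1 - x.2 ^ 2) : ℝ) : ℂ) + x.2 * I) * m x.1 / (‖m x.1‖ : ℝ)) = 1 :=
    fun x hx => by
    have := nz x hx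
    simp only [nsq]
    rw [normSq_div, normSq_mul, normSq_add_mul_I, Real.sq_sqrt (by linarith), normSq_ofReal,
      normSq_eq_norm_sq (m x.1)]
    field_simp
    ring
  have mm : ∀ w, m w * (starRingEnd ℂ) (m w) = (‖m w‖ : ℝ) * (‖m w‖ : ℝ) := fun w => by
    rw [mul_conj, normSq_eq_norm_sq, sq, ofReal_mul]
  have key := hC.image _ (contOn_pt (f := fun x : ℂ × ℝ =>
    (x.1, (((√(1 - normSq x.1 - x.2 ^ 2) : ℝ) : ℂ) + x.2 * I) * m x.1 / (‖m x.1‖ : ℝ)))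
    (continuousOn_fst.prodMk (ContinuousOn.div (Continuous.continuousOn (by fun_prop))
      (Continuous.continuousOn (by fun_prop)) fun x hx => ofReal_ne_zero.2 (nz x hx))) sp)
  refine Eq.subst (motive := IsPreconnected) (Subset.antisymm ?_ fun p hp => ?_) key
  · rintro _ ⟨x, hx, rfl⟩
    have hx : normSq x.1 + x.2 ^ 2 < 1 := hx
    have n := ofReal_ne_zero.2 (nz x hx)
    rw [mem_ofPred_eq, pt_val (sp x hx)]
    simp only
    rw [div_mul_eq_mul_div, mul_assoc, mm, ← mul_assoc, mul_div_cancel_right₀ _ n]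
    simp only [mul_re, add_re, ofReal_re, ofReal_im, I_re, mul_zero, I_im, sub_zero, add_zero,
      zero_mul]
    exact mul_pos (Real.sqrt_pos.2 (by linarith)) ((norm_nonneg _).lt_of_ne' (nz x hx))
  · have h1 := nsq_S3 p
    have h2 := normSq_nonneg p.1.2
    simp only [nsq] at h1
    have n : 0 < ‖m p.1.1‖ := norm_pos_iff.2 (h0 _ (by linarith))
    have n' := ofReal_ne_zero.2 n.ne'
    obtain ⟨z, hz⟩ : ∃ z, z = p.1.2 * (starRingEnd ℂ) (m p.1.1) / (‖m p.1.1‖ : ℝ) := ⟨_, rfl⟩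
    have z0 : 0 < z.re := by rw [hz, div_ofReal_re]; exact div_pos hp n
    have z1 : z.re ^ 2 + z.im ^ 2 = normSq p.1.2 := by
      rw [sq, sq, ← normSq_apply, hz, normSq_div, normSq_mul, normSq_conj, normSq_ofReal,
        normSq_eq_norm_sq (m _)]
      field_simp
    have hx : normSq p.1.1 + z.im ^ 2 < 1 := by nlinarith
    refine ⟨(p.1.1, z.im), hx, Subtype.ext ((pt_val (sp _ hx)).trans (Prod.ext rfl ?_))⟩
    simp only
    rw [show 1 - normSq p.1.1 - z.im ^ 2 = z.re ^ 2 by linarith, Real.sqrt_sq z0.le, re_add_im, hz,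
      div_mul_eq_mul_div, mul_assoc, mul_comm ((starRingEnd ℂ) _), mm]
    field_simp

/-- {av 1 < av 0} is the image of a convex set under (w, θ) ↦ (w, s exp (i θ) (√2 - w) / |√2 - w|) -/
theorem cap_conn : IsPreconnected {p : S3 | av 1 p.1 < av 0 p.1} ∧
    IsPreconnected {p : S3 | av 0 p.1 < av 1 p.1} := by
  have h0 : ∀ w : ℂ, normSq w ≤ 1 → ((√2 : ℝ) : ℂ) - w ≠ 0 := fun w hw h => by
    rw [← sub_eq_zero.1 h, normSq_ofReal, r2] at hw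
    norm_num at hw
  have h3 : (0 : ℝ) < 2 * √3 := by positivity
  have e : ∀ p : S3, av 0 p.1 - av 1 p.1 =
      2 * √3 * (p.1.2 * (starRingEnd ℂ) (((√2 : ℝ) : ℂ) - p.1.1)).re := fun p => by
    rw [av_sub]
    simp only [mul_re, conj_re, conj_im, sub_re, sub_im, ofReal_re, ofReal_im]
    ring
  refine ⟨Eq.subst (motive := IsPreconnected) (Set.ext fun p => ?_)
    (th_half (m := fun w => ((√2 : ℝ) : ℂ) - w) (by fun_prop) h0),
    Eq.subst (motive := IsPreconnected) (Set.ext fun p => ?_) (th_half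
    (m := fun w => -(((√2 : ℝ) : ℂ) - w)) (by fun_prop) fun w hw => neg_ne_zero.2 (h0 w hw))⟩
  · rw [mem_ofPred_eq, mem_ofPred_eq, ← sub_pos (a := av 0 p.1), e, mul_pos_iff_of_pos_left h3]
  · rw [mem_ofPred_eq, mem_ofPred_eq, ← sub_neg (a := av 0 p.1), e, map_neg, mul_neg, neg_re, neg_pos,
      ← neg_pos (a := 2 * √3 * _), ← mul_neg, mul_pos_iff_of_pos_left h3, neg_pos]

theorem th_av (j : Fin 6) (t : ℝ) :
    av j (0, (t : ℂ)) = 3 - 2 * (√2 * √3) * (t * (nv j).im) + 2 * (t * (nv j).im) ^ 2 := by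
  simp only [av, wv, lin, normSq_apply, sub_re, sub_im, mul_re, mul_im, add_re, add_im, ofReal_re,
    ofReal_im, zero_re, zero_im]
  linear_combination r3 + (t * (nv j).im) ^ 2 * r2

theorem th_poles : ∃ p q : S3, p ∈ Out 2 ∧ av 1 p.1 < av 0 p.1 ∧ av 2 p.1 < 3 / 2 ∧
    q ∈ Out 5 ∧ av 0 q.1 < av 1 q.1 ∧ av 5 q.1 < 3 / 2 := by
  have s0 : 0 ≤ √2 * √3 := by positivity
  have s6 : (√2 * √3) * (√2 * √3) = 6 := by linear_combination (√3 * √3) * r2 + 2 * r3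
  have s1 : 12 / 5 < √2 * √3 := by nlinarith
  have s2 : √2 * √3 < 5 / 2 := by nlinarith
  refine ⟨⟨(0, ((1 : ℝ) : ℂ)), by simp⟩, ⟨(0, ((-1 : ℝ) : ℂ)), by simp⟩, ⟨?_, ?_, ?_⟩, ?_, ?_,
    ⟨?_, ?_, ?_⟩, ?_, ?_⟩ <;> simp only [kk, th_av] <;> generalize √2 * √3 = s at * <;>
    simp [nv] <;> linarith

/-- the composite; sides by `cap_conn`, `side_of` and the fixed points (0, 1), (0, -1) -/
theorem exists_th : ∃ Θ, IsTh Θ := by
  obtain ⟨Θ1, s1, i1⟩ := exists_th1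
  obtain ⟨Θ2, s2, i2, f2⟩ := exists_th2
  have supp : ∀ p : S3, ¬ (p ∈ Uu 0 ∧ 3 / 2 ≤ av 2 p.1 ∧ 3 / 2 ≤ av 5 p.1) →
      Θ2.trans Θ1 p = p := fun p hp => by
    rw [Homeomorph.trans_apply, s2 p fun h => hp ⟨⟨((slab h.2).2.2.1 (by linarith [h.1])).1.le,
      ((slab h.2).2.2.1 (by linarith [h.1])).2.le⟩, (slab h.2).1.le, (slab h.2).2.1.le⟩]
    exact s1 p fun h => hp ⟨⟨h 0, h 1⟩, h 2, h 5⟩
  have sph : Θ2.trans Θ1 '' Sb 0 = Hp 0 ∪ Hp 3 := by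
    rw [← i1, ← i2, image_image]; rfl
  refine ⟨Θ2.trans Θ1, supp, ?_, sph, fun p hp => ?_⟩
  · generalize Θ2.trans Θ1 = Θ at supp sph
    have cl := fun j => (closed_Xp j).2
    have cF := ((cl 1).union (cl 2)).union (cl 3)
    have cN := ((cl 0).union (cl 5)).union (cl 4)
    have cov : ∀ p, p ∈ (Xp 1 ∪ Xp 2 ∪ Xp 3) ∪ (Xp 0 ∪ Xp 5 ∪ Xp 4) := fun p => by
      obtain ⟨j, hj⟩ := Xp_cov p
      fin_cases j
      exacts [Or.inr (Or.inl (Or.inl hj)), Or.inl (Or.inl (Or.inl hj)), Or.inl (Or.inl (Or.inr hj)),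
        Or.inl (Or.inr hj), Or.inr (Or.inr hj), Or.inr (Or.inl (Or.inr hj))]
    have far : ∀ {j k : Fin 6} {p}, p ∈ Xp j → p ∈ Xp k → k ≠ j ∧ k ≠ j + 1 ∧ k ≠ j - 1 →
        p ∈ Hp 0 ∪ Hp 3 := fun h h' n =>
      Or.inl (Or.inl (kc_Ann 0 ((Xp_far n.1 n.2.1 n.2.2).le ⟨h, h'⟩)))
    have mid : (Xp 1 ∪ Xp 2 ∪ Xp 3) ∩ (Xp 0 ∪ Xp 5 ∪ Xp 4) ⊆ Θ '' Sb 0 := by
      rw [sph]
      rintro p ⟨(h | h) | h, (h' | h') | h'⟩
      exacts [Or.inl ((Xp_adj 0).le ⟨h', h⟩), far h h' (by decide), far h h' (by decide),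
        far h h' (by decide), far h h' (by decide), far h h' (by decide), far h h' (by decide),
        far h h' (by decide), Or.inr ((Xp_adj 3).le ⟨h, h'⟩)]
    have off : ∀ P : Set S3, Disjoint P (Sb 0) →
        Disjoint (Θ '' P) ((Xp 1 ∪ Xp 2 ∪ Xp 3) ∩ (Xp 0 ∪ Xp 5 ∪ Xp 4)) := fun P d =>
      (disjoint_image_of_injective Θ.injective d).mono_right mid
    have o1 := off {p : S3 | av 1 p.1 < av 0 p.1} (disjoint_left.2 fun p h h' => h.ne' h')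
    have o2 := off {p : S3 | av 0 p.1 < av 1 p.1} (disjoint_left.2 fun p h h' => h.ne h')
    obtain ⟨p, q, p1, p2, p3, q1, q2, q3⟩ := th_poles
    have mp : p ∈ Θ '' {p : S3 | av 1 p.1 < av 0 p.1} := ⟨p, p2, supp p fun h => p3.not_ge h.2.1⟩
    have mq : q ∈ Θ '' {p : S3 | av 0 p.1 < av 1 p.1} := ⟨q, q2, supp q fun h => q3.not_ge h.2.2⟩
    have a1 := (side_of (cap_conn.1.image Θ Θ.continuous.continuousOn) cF cN (fun p _ => cov p)
      o1).resolve_right fun h => disjoint_left.1 o1 mp ⟨Or.inl (Or.inr (Or.inr p1)), h mp⟩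
    have a2 := (side_of (cap_conn.2.image Θ Θ.continuous.continuousOn) cF cN (fun p _ => cov p)
      o2).resolve_left fun h => disjoint_left.1 o2 mq ⟨h mq, Or.inl (Or.inr (Or.inr q1))⟩
    refine Subset.antisymm ?_ fun x hx => ?_
    · rintro _ ⟨y, hy, rfl⟩
      rcases (show av 1 y.1 ≤ av 0 y.1 from hy).lt_or_eq with h | h
      · exact a1 ⟨y, h, rfl⟩
      · rcases sph.le ⟨y, h.symm, rfl⟩ with k | k
        · exact Or.inl (Or.inl ((Xp_adj 0).ge k).2)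
        · exact Or.inr ((Xp_adj 3).ge k).1
    · obtain ⟨y, rfl⟩ := Θ.surjective x
      refine ⟨y, (le_of_not_gt fun h => ?_ : av 1 y.1 ≤ av 0 y.1), rfl⟩
      exact disjoint_left.1 o2 ⟨y, h, rfl⟩ ⟨hx, a2 ⟨y, h, rfl⟩⟩
  · have e : Θ1.symm p = p := by
      rw [Homeomorph.symm_apply_eq, s1 p (disjoint_left.1 (Sp_KL 3) hp)]
    have := f2 (Θ2.symm p)
    rw [Homeomorph.apply_symm_apply] at this
    rw [Homeomorph.symm_trans_apply, e, this]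

theorem th_pow (e : Fin 6) : rot ^ ((e + 1 : Fin 6) : ℕ) = rot * rot ^ (e : ℕ) := by
  rw [← pow_succ', pow_eq_pow_mod (e + 1 : ℕ) rot_six, Fin.val_add]
  rfl

theorem th_it {Q : Fin 6 → Set S3} (h : ∀ e p, rot p ∈ Q (e + 1) ↔ p ∈ Q e) (e : Fin 6) (p : S3) :
    (rot ^ (e : ℕ)) p ∈ Q e ↔ p ∈ Q 0 :=
  supp_ind (P := fun e => (rot ^ (e : ℕ)) p ∈ Q e ↔ p ∈ Q 0) Iff.rfl
    (fun e k => by rw [th_pow]; exact (h e _).trans k) e

theorem th_Sp (p : S3) : (rot ^ 3) p ∈ Sp 3 ↔ p ∈ Sp 0 :=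
  th_it (fun e p => (rot_e e p).2.2.2.2.2.2.2.1) 3 p

theorem th_neg (p : S3) : ((rot ^ 3) p).1 = -p.1 := by
  have m : mv 1 ^ 3 = -1 := by linear_combination (mv 1 + 1) * act_m
  have h := act_rot_pow 3 p
  rw [m, neg_one_mul, neg_one_mul] at h
  exact act_extE h.1 h.2

theorem th_norm (p : S3) : ‖p.1.1‖ ≤ 1 ∧ ‖p.1.2‖ ≤ 1 := by
  have := p.2
  constructor <;> nlinarith [norm_nonneg p.1.1, norm_nonneg p.1.2]

/-- contraction behind wall `0` -/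
theorem th_contr {c : ℂ} (hc : Om c) {p q : S3} (hp : p ∈ Uu 0) (hq : q ∈ Uu 0) :
    ‖(gE c 0 p.1).1 - (gE c 0 q.1).1‖ + ‖(gE c 0 p.1).2‖ + ‖(gE c 0 q.1).2‖ ≤
      49 / 50 * (‖p.1.1 - q.1.1‖ + ‖p.1.2‖ + ‖q.1.2‖) := by
  have big : ∀ p ∈ Uu 0, 50 / 49 ≤ ‖jj c 0 p.1‖ := fun p hp => by
    have := jj_big hc (nsq_S3 p).le (le_trans (by norm_num) hp.1) (le_trans (by norm_num) hp.2)
    rw [normSq_eq_norm_sq] at this
    exact le_of_not_gt fun h => by nlinarith [norm_nonneg (jj c 0 p.1)]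
  have two : ∀ p ∈ Uu 0, ‖(gE c 0 p.1).2‖ ≤ 49 / 50 * ‖p.1.2‖ := fun p hp => by
    have := big p hp
    rw [show (gE c 0 p.1).2 = p.1.2 / jj c 0 p.1 by simp [gE, mv], norm_div,
      div_le_iff₀ (by linarith)]
    nlinarith [norm_nonneg p.1.2]
  have b1 := big p hp
  have b2 := big q hq
  have n1 : jj c 0 p.1 ≠ 0 := norm_pos_iff.1 (by linarith)
  have n2 : jj c 0 q.1 ≠ 0 := norm_pos_iff.1 (by linarith)
  have e : (gE c 0 p.1).1 - (gE c 0 q.1).1 = c * (p.1.1 - q.1.1) / (jj c 0 p.1 * jj c 0 q.1) := by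
    have m : ((mv 0).re : ℂ) = 1 := by simp [mv]
    simp only [gE, m]
    rw [div_sub_div _ _ n1 n2]
    congr 1
    simp only [jj, chart_u0]
    linear_combination (-(1 - c) * (p.1.1 - q.1.1)) * s2
  have c1 : ‖c‖ = 1 := by
    have := supp_n hc
    rw [normSq_eq_norm_sq] at this
    nlinarith [norm_nonneg c]
  have one : ‖(gE c 0 p.1).1 - (gE c 0 q.1).1‖ ≤ 49 / 50 * ‖p.1.1 - q.1.1‖ := by
    have b3 : 50 / 49 ≤ ‖jj c 0 p.1‖ * ‖jj c 0 q.1‖ := by nlinarith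
    rw [e, norm_div, norm_mul, norm_mul, c1, one_mul, div_le_iff₀ (by linarith)]
    nlinarith [norm_nonneg (p.1.1 - q.1.1)]
  linarith [two p hp, two q hq]

/-- `fix_homeo` with ϱ p q = |p.1 - q.1| + |p.2| + |q.2|, s = rot ^ 3 (= -1), U = Uu 0; under gE c 0
the second coordinate is divided by jj and p.1 - q.1 is multiplied by c / (jj p jj q) -/
theorem exists_h : ∃ h, IsH h := by
  obtain ⟨Θ, hΘ⟩ := exists_th
  have sV : ⇑(rot ^ 3) '' Sp 0 ⊆ Sp 3 := by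
    rintro _ ⟨p, hp, rfl⟩
    exact (th_Sp p).2 hp
  have fb : ∀ p ∈ Sp 3, ‖(Θ.symm p).1.2‖ = ‖p.1.2‖ := fun p hp => by
    have h1 := (Θ.symm p).2
    rw [hΘ.fib p hp] at h1
    exact (pow_left_inj₀ (norm_nonneg _) (norm_nonneg _) two_ne_zero).1 (by linarith [p.2])
  obtain ⟨h, h1, h2⟩ := fix_homeo (g 0) (g 0 ^ 2) (rot ^ 3) Θ (Uu 0)
    (fun p q => ‖p.1.1 - q.1.1‖ + ‖p.1.2‖ + ‖q.1.2‖) (θ := 49 / 50) (C := 4)
    (closed_sets 0).2.2.2.2.2.2.2.2.1 (by norm_num) (by norm_num) (Sp_two 0)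
    (sV.trans ((Sp_nest 0).trans fun p hp => hp.1)) (fun x hx => hΘ.supp x fun k => hx k.1)
    (fun x y => by
      rw [Subtype.dist_eq, Prod.dist_eq, dist_eq_norm, dist_eq_norm]
      exact max_le (by linarith [norm_nonneg x.1.2, norm_nonneg y.1.2])
        (by linarith [norm_sub_le x.1.2 y.1.2, norm_nonneg (x.1.1 - y.1.1)]))
    (fun x y => by linarith [norm_sub_le x.1.1 y.1.1, th_norm x, th_norm y])
    (fun x y => by
      rw [th_neg, th_neg, Prod.fst_neg, Prod.fst_neg, Prod.snd_neg, Prod.snd_neg, norm_neg, norm_neg,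
        neg_sub_neg, norm_sub_rev])
    (fun x hx y hy => by
      rw [g_val, g_val, g_pow_val, g_pow_val]
      exact ⟨th_contr om_w1 hx hy, th_contr om_w2 hx hy⟩)
    (fun x hx y hy => by
      rw [hΘ.fib x (sV hx), hΘ.fib y (sV hy), fb x (sV hx), fb y (sV hy)])
  refine ⟨h, h1, Θ, hΘ, fun y hy k hk => ?_⟩
  rcases hk with rfl | rfl
  · rw [pow_one]; exact (h2 y hy).1
  · exact (h2 y hy).2

theorem IsH.supq {h : S3 ≃ₜ S3} (hh : IsH h) (e : Fin 6) (p : S3) (hp : p ∉ Sq e) : hE h e p = p := by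
  obtain ⟨Θ, hΘ, ex⟩ := hh.ex
  have key : ∀ y ∈ Uu 0, ∀ k : ℕ, k = 1 ∨ k = 2 → y ∉ Uq 0 → h ((g 0 ^ k) y) = (g 0 ^ k) y :=
    fun y hy k hk hn => by
    rw [ex y hy k hk, hΘ.supp y fun m => hn ⟨hy, le_trans (by norm_num) m.2.2,
      le_trans (by norm_num) m.2.1⟩]
    obtain ⟨z, rfl⟩ := (rot ^ 3).surjective y
    change (g 0 ^ k) ((rot ^ 3) (h ((rot ^ 3).symm ((rot ^ 3) z)))) = _
    rw [Homeomorph.symm_apply_apply, hh.supp z fun m => hn (Sp_nest 0 ((th_Sp z).2 m))]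
  obtain ⟨q, rfl⟩ := (rot ^ (e : ℕ)).surjective p
  rw [th_it (fun e p => (rot_e e p).2.2.2.2.2.2.2.2) e q] at hp
  change (rot ^ (e : ℕ)) (h ((rot ^ (e : ℕ)).symm ((rot ^ (e : ℕ)) q))) = _
  rw [Homeomorph.symm_apply_apply]
  congr 1
  by_cases m : q ∈ Sp 0
  · rcases m with ⟨y, hy, rfl⟩ | ⟨y, hy, rfl⟩
    · have := key y hy 1 (Or.inl rfl) fun m => hp (Or.inl ⟨y, m, rfl⟩)
      rwa [pow_one] at this
    · exact key y hy 2 (Or.inr rfl) fun m => hp (Or.inr ⟨y, m, rfl⟩)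
  · exact hh.supp q m

theorem hE_rot (h : S3 ≃ₜ S3) (e : Fin 6) : rot * hE h e = hE h (e + 1) * rot := by
  rw [hE, hE, th_pow]
  group

end Pool.Agent.Lib.MP_b7d179_gt.Gm
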