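import Pool.Agent.Lib.MP_b7d179_gt.G.Basic
import Pool.Agent.Lib.MP_b7d179_gt.G.KitA
import Pool.Agent.Lib.MP_b7d179_gt.G.KitC

/-! Moving one graph over the slices to another one along the chords, inside `KL`. -/

namespace Pool.Agent.Lib.MP_b7d179_gt.Gm

open Set Metric Complex Stmt

theorem th1_nrm {x : ℂ} : ‖x‖ ≤ 1 ↔ x.re ^ 2 + x.im ^ 2 ≤ 1 := by
  rw [← sq_le_one_iff₀ (norm_nonneg x), ← normSq_eq_norm_sq, normSq_apply, sq, sq]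

theorem th1_unit {e : ℂ} (he : ‖e‖ = 1) : e.re ^ 2 + e.im ^ 2 = 1 := by
  have h := normSq_eq_norm_sq e
  rw [he, normSq_apply] at h
  linarith

theorem th1_sq {x : ℂ} (hx : ‖x‖ ≤ 1) : √(1 - normSq x) ^ 2 = 1 - x.re ^ 2 - x.im ^ 2 := by
  have h := th1_nrm.1 hx
  rw [Real.sq_sqrt (by rw [normSq_apply]; nlinarith), normSq_apply]
  ring

theorem th1_co {x e : ℂ} (hx : ‖x‖ ≤ 1) (he : ‖e‖ = 1) : (sl x e).1.1.re = x.re ∧
    (sl x e).1.2.re = x.im ∧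
    (sl x e).1.1.im * (sl x e).1.2.im = (1 - x.re ^ 2 - x.im ^ 2) * (e.re * e.im) := by
  obtain ⟨h1, h2⟩ := sl_val hx he
  have a : (sl x e).1.1.im = √(1 - normSq x) * e.re := by
    simpa [yy] using congrArg Complex.re h2
  have b : (sl x e).1.2.im = √(1 - normSq x) * e.im := by
    simpa [yy] using congrArg Complex.im h2
  have c := congrArg Complex.re h1
  have d := congrArg Complex.im h1
  refine ⟨c, d, ?_⟩
  rw [a, b, ← th1_sq hx]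
  ring

theorem th1_av (j : Fin 6) {x e : ℂ} (hx : ‖x‖ ≤ 1) (he : ‖e‖ = 1) :
    av j (sl x e).1 = (√3 - √2 * ((nv j).re * x.re + (nv j).im * x.im)) ^ 2 +
      2 * (1 - x.re ^ 2 - x.im ^ 2) * ((nv j).re * e.re + (nv j).im * e.im) ^ 2 := by
  obtain ⟨h1, h2⟩ := sl_val hx he
  rw [av_xy, h1, h2, ← th1_sq hx]
  simp only [mul_re, mul_im, conj_re, conj_im, ofReal_re, ofReal_im]
  ring

theorem th1_real {s t X Y Y' u v g : ℝ} (hs : s * s = 2) (ht : t * t = 3) (s0 : 0 ≤ s) (t0 : 0 ≤ t)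
    (hX : |X| ≤ 3 / 4) (hY : |Y| ≤ 179 / 500) (hY' : |Y'| ≤ 179 / 500) (hu : u ^ 2 = 3 / 4)
    (hv : v = 1 / 2 ∨ v = -1 / 2) (g0 : 0 ≤ g) (g1 : g ≤ 1) :
    ∃ φ : ℝ, 0 ≤ φ ∧ φ ≤ 5 ∧ (t - s * (u * X + v * Y)) ^ 2 + 2 * (1 - X ^ 2 - Y ^ 2) * g =
      (t - s * (u * X + v * Y')) ^ 2 + 2 * (1 - X ^ 2 - Y' ^ 2) * g - 2 * v * (Y - Y') * φ := by
  have a1 : 244 / 100 ≤ s * t := by
    refine abs_le_of_sq_le_sq' ?_ (mul_nonneg s0 t0) |>.2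
    have : (s * t) ^ 2 = 6 := by linear_combination (t * t) * hs + 2 * ht
    rw [this]; norm_num
  have a2 : s * t ≤ 245 / 100 := by
    refine abs_le_of_sq_le_sq' ?_ (by norm_num) |>.2
    have : (s * t) ^ 2 = 6 := by linear_combination (t * t) * hs + 2 * ht
    rw [this]; norm_num
  have b : |u * X| ≤ 13 / 20 := by
    refine abs_le_of_sq_le_sq ?_ (by norm_num)
    have : X ^ 2 ≤ (3 / 4) ^ 2 := by rw [← sq_abs]; exact pow_le_pow_left₀ (abs_nonneg _) hX 2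
    rw [mul_pow, hu]; linarith
  have c : |v * (Y + Y') * (1 - 4 * g)| ≤ 1 / 2 * (179 / 250) * 3 := by
    rw [abs_mul, abs_mul]
    refine mul_le_mul (mul_le_mul ?_ ((abs_add_le _ _).trans (by linarith)) (abs_nonneg _)
      (by norm_num)) (abs_le.2 ⟨by linarith, by linarith⟩) (abs_nonneg _) (by norm_num)
    rcases hv with rfl | rfl <;> rw [abs_le] <;> norm_num
  have hv2 : v ^ 2 = 1 / 4 := by rcases hv with rfl | rfl <;> norm_num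
  rw [abs_le] at b c
  refine ⟨s * t - 2 * (u * X) - v * (Y + Y') * (1 - 4 * g), by linarith, by linarith, ?_⟩
  linear_combination ((u * X + v * Y) ^ 2 - (u * X + v * Y') ^ 2) * hs +
    (8 * (Y - Y') * (Y + Y') * g) * hv2

theorem th1_abs {m : ℝ} (h : 8 * m ^ 2 ≤ 1) : |m| ≤ 177 / 500 :=
  abs_le_of_sq_le_sq (by linarith) (by norm_num)

theorem th1_ball {X Y : ℝ} (hX : |X| ≤ 3 / 4) (hY : |Y| ≤ 179 / 500) : ‖(⟨X, Y⟩ : ℂ)‖ ≤ 1 := by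
  have a : X ^ 2 ≤ (3 / 4) ^ 2 := by rw [← sq_abs]; exact pow_le_pow_left₀ (abs_nonneg _) hX 2
  have b : Y ^ 2 ≤ (179 / 500) ^ 2 := by
    rw [← sq_abs]; exact pow_le_pow_left₀ (abs_nonneg _) hY 2
  rw [th1_nrm]
  change X ^ 2 + Y ^ 2 ≤ 1
  linarith

/-- the chord between two good points, slightly prolonged, lies in `KL` -/
theorem th1_chord {X m n Y ε : ℝ} {e : ℂ} (he : ‖e‖ = 1) (hX : |X| ≤ 3 / 4) (hm : 8 * m ^ 2 ≤ 1)
    (hn : 8 * n ^ 2 ≤ 1) (e0 : 0 ≤ ε) (e1 : ε ≤ 1 / 250) (y0 : min m n - ε ≤ Y)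
    (y1 : Y ≤ max m n + ε)
    (h : ∀ j, 3 / 2 + 5 * ε ≤ av j (sl ⟨X, m⟩ e).1 ∧ 3 / 2 + 5 * ε ≤ av j (sl ⟨X, n⟩ e).1) :
    |Y| ≤ 179 / 500 ∧ sl ⟨X, Y⟩ e ∈ KL := by
  have am := abs_le.1 (th1_abs hm)
  have an := abs_le.1 (th1_abs hn)
  have lo : |min m n| ≤ 177 / 500 :=
    abs_le.2 ⟨le_min am.1 an.1, (min_le_left _ _).trans am.2⟩
  have hi : |max m n| ≤ 177 / 500 :=
    abs_le.2 ⟨am.1.trans (le_max_left _ _), max_le am.2 an.2⟩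
  have hY : |Y| ≤ 179 / 500 :=
    abs_le.2 ⟨by linarith [(abs_le.1 lo).1], by linarith [(abs_le.1 hi).2]⟩
  have bY := th1_ball hX hY
  have hlo : ∀ j, 3 / 2 + 5 * ε ≤ av j (sl ⟨X, min m n⟩ e).1 := fun j => by
    rcases min_choice m n with k | k <;> rw [k]
    exacts [(h j).1, (h j).2]
  have hhi : ∀ j, 3 / 2 + 5 * ε ≤ av j (sl ⟨X, max m n⟩ e).1 := fun j => by
    rcases max_choice m n with k | k <;> rw [k]
    exacts [(h j).1, (h j).2]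
  have key : ∀ j, (nv j).im = 1 / 2 ∨ (nv j).im = -1 / 2 → 3 / 2 ≤ av j (sl ⟨X, Y⟩ e).1 := by
    intro j hj
    have n1 := nv_sq j
    have hu : (nv j).re ^ 2 = 3 / 4 := by rcases hj with k | k <;> rw [k] at n1 <;> linarith
    have g1 : ((nv j).re * e.re + (nv j).im * e.im) ^ 2 ≤ 1 := by
      have := th1_unit he
      nlinarith [sq_nonneg ((nv j).re * e.im - (nv j).im * e.re)]
    have step : ∀ Y', |Y'| ≤ 177 / 500 → ∃ φ : ℝ, 0 ≤ φ ∧ φ ≤ 5 ∧ av j (sl ⟨X, Y⟩ e).1 =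
        av j (sl ⟨X, Y'⟩ e).1 - 2 * (nv j).im * (Y - Y') * φ := fun Y' k => by
      have k' : |Y'| ≤ 179 / 500 := k.trans (by norm_num)
      rw [th1_av j bY he, th1_av j (th1_ball hX k') he]
      exact th1_real r2 r3 (Real.sqrt_nonneg _) (Real.sqrt_nonneg _) hX hY k' hu hj
        (sq_nonneg _) g1
    rcases hj with k | k
    · obtain ⟨φ, p0, p1, p2⟩ := step _ hi
      rw [p2, k]
      nlinarith [hhi j, mul_nonneg p0 (sub_nonneg.2 y1), mul_nonneg e0 (sub_nonneg.2 p1)]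
    · obtain ⟨φ, p0, p1, p2⟩ := step _ lo
      rw [p2, k]
      nlinarith [hlo j, mul_nonneg p0 (sub_nonneg.2 y0), mul_nonneg e0 (sub_nonneg.2 p1)]
  have sb := slab (p := sl ⟨X, Y⟩ e) (by rw [(th1_co bY he).2.1]; exact hY)
  refine ⟨hY, fun j => ?_⟩
  fin_cases j
  · exact key 0 (Or.inr rfl)
  · exact key 1 (Or.inl rfl)
  · exact sb.1.le
  · exact key 3 (Or.inl rfl)
  · exact key 4 (Or.inr rfl)
  · exact sb.2.1.le

theorem th1_mk : Continuous fun q : ℝ × ℝ => (⟨q.1, q.2⟩ : ℂ) := by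
  have : (fun q : ℝ × ℝ => (⟨q.1, q.2⟩ : ℂ)) = fun q => (q.1 : ℂ) + q.2 * I := by
    funext q
    apply Complex.ext <;> simp
  rw [this]
  fun_prop

/-- the base of the chords -/
def th1B : Set (ℝ × ℂ) := Icc (-1) 1 ×ˢ sphere 0 1

theorem th1_node {m : ℝ × ℂ → ℝ} (cm : ContinuousOn m th1B)
    (hm : ∀ z ∈ th1B, z.1 ^ 2 + m z ^ 2 ≤ 1) (j : Fin 6) :
    ContinuousOn (fun z : ℝ × ℂ => av j (sl ⟨z.1, m z⟩ z.2).1) th1B := by
  have a : ContinuousOn (fun z : ℝ × ℂ => ((⟨z.1, m z⟩ : ℂ), z.2)) th1B :=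
    (th1_mk.comp_continuousOn (continuousOn_fst.prodMk cm)).prodMk continuousOn_snd
  exact ((cont_av j).comp continuous_subtype_val).comp_continuousOn
    (contOn_sl.comp a fun z hz => ⟨mem_closedBall_zero_iff.2 (th1_nrm.2 (hm z hz)), hz.2⟩)

/-- the good case for a pair of nodes -/
def th1G (X m n : ℝ) (e : ℂ) : Prop :=
  |X| ≤ 3 / 4 ∧ 8 * m ^ 2 ≤ 1 ∧ 8 * n ^ 2 ≤ 1 ∧
    ∀ j, 3 / 2 < av j (sl ⟨X, m⟩ e).1 ∧ 3 / 2 < av j (sl ⟨X, n⟩ e).1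

theorem th1_lohi {m n : ℝ × ℂ → ℝ} (cm : ContinuousOn m th1B) (cn : ContinuousOn n th1B)
    (hm : ∀ z ∈ th1B, z.1 ^ 2 + m z ^ 2 ≤ 1) (hn : ∀ z ∈ th1B, z.1 ^ 2 + n z ^ 2 ≤ 1)
    (h : ∀ z ∈ th1B, m z = n z ∨ th1G z.1 (m z) (n z) z.2) :
    ∃ lo hi : ℝ × ℂ → ℝ, ContinuousOn lo th1B ∧ ContinuousOn hi th1B ∧ ∀ z ∈ th1B, m z = n z ∨
      ((lo z < m z ∧ lo z < n z ∧ m z < hi z ∧ n z < hi z) ∧ ∀ Y ∈ Icc (lo z) (hi z),
        ‖(⟨z.1, Y⟩ : ℂ)‖ ≤ 1 ∧ sl ⟨z.1, Y⟩ z.2 ∈ KL) := by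
  let F : Fin 6 → ℝ × ℂ → ℝ := fun j z =>
    min (av j (sl ⟨z.1, m z⟩ z.2).1) (av j (sl ⟨z.1, n z⟩ z.2).1)
  let ε : ℝ × ℂ → ℝ := fun z =>
    min (1 / 250) ((Finset.univ.inf' Finset.univ_nonempty (fun j => F j z) - 3 / 2) / 5)
  have cF : ∀ j, ContinuousOn (F j) th1B := fun j =>
    (th1_node cm hm j).inf (th1_node cn hn j)
  have cε : ContinuousOn ε th1B := continuousOn_const.inf
    (((ContinuousOn.finset_inf'_apply _ fun j _ => cF j).sub continuousOn_const).div_const _)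
  refine ⟨fun z => min (m z) (n z) - ε z, fun z => max (m z) (n z) + ε z, (cm.inf cn).sub cε,
    (cm.sup cn).add cε, fun z hz => (h z hz).imp_right fun ⟨g1, g2, g3, g4⟩ => ?_⟩
  have p : 0 < ε z := lt_min (by norm_num) (div_pos (sub_pos.2 ((Finset.lt_inf'_iff _).2
    fun j _ => lt_min (g4 j).1 (g4 j).2)) (by norm_num))
  have q : ∀ j, 3 / 2 + 5 * ε z ≤ F j z := fun j => by
    have a : ε z ≤ _ := min_le_right _ _
    have b := Finset.inf'_le (fun j => F j z) (Finset.mem_univ j)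
    linarith
  refine ⟨⟨?_, ?_, ?_, ?_⟩, fun Y hY => ?_⟩
  · linarith [min_le_left (m z) (n z)]
  · linarith [min_le_right (m z) (n z)]
  · linarith [le_max_left (m z) (n z)]
  · linarith [le_max_right (m z) (n z)]
  · have k := th1_chord (mem_sphere_zero_iff_norm.1 hz.2) g1 g2 g3 p.le (min_le_left _ _) hY.1 hY.2
      fun j => ⟨(q j).trans (min_le_left _ _), (q j).trans (min_le_right _ _)⟩
    exact ⟨th1_ball g1 k.1, k.2⟩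

theorem th1_mem {x e : ℂ} (hx : ‖x‖ ≤ 1) (he : ‖e‖ = 1) : (x.re, e) ∈ th1B :=
  ⟨abs_le.1 ((abs_re_le_norm x).trans hx), mem_sphere_zero_iff_norm.2 he⟩

/-- the push along the chords, on the parameter space -/
noncomputable def th1F (lo m n hi : ℝ × ℂ → ℝ) (q : ℂ × ℂ) : ℂ × ℂ :=
  (⟨q.1.re, pl (lo (q.1.re, q.2)) (m (q.1.re, q.2)) (n (q.1.re, q.2)) (hi (q.1.re, q.2)) q.1.im⟩, q.2)

theorem th1_F {lo m n hi : ℝ × ℂ → ℝ} (cl : ContinuousOn lo th1B) (cm : ContinuousOn m th1B)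
    (cn : ContinuousOn n th1B) (ch : ContinuousOn hi th1B) (h : ∀ z ∈ th1B, m z = n z ∨
      ((lo z < m z ∧ lo z < n z ∧ m z < hi z ∧ n z < hi z) ∧ ∀ Y ∈ Icc (lo z) (hi z),
        ‖(⟨z.1, Y⟩ : ℂ)‖ ≤ 1 ∧ sl ⟨z.1, Y⟩ z.2 ∈ KL)) :
    ContinuousOn (th1F lo m n hi) (closedBall 0 1 ×ˢ sphere 0 1) ∧
      MapsTo (th1F lo m n hi) (closedBall 0 1 ×ˢ sphere 0 1) (closedBall 0 1 ×ˢ sphere 0 1) ∧
      (∀ q ∈ closedBall (0 : ℂ) 1 ×ˢ sphere (0 : ℂ) 1, sl q.1 q.2 ∉ KL → th1F lo m n hi q = q) ∧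
      ∀ x ∈ closedBall (0 : ℂ) 1 ×ˢ sphere (0 : ℂ) 1, ∀ y ∈ closedBall (0 : ℂ) 1 ×ˢ sphere (0 : ℂ) 1,
        sl x.1 x.2 = sl y.1 y.2 → sl (th1F lo m n hi x).1 (th1F lo m n hi x).2 =
          sl (th1F lo m n hi y).1 (th1F lo m n hi y).2 := by
  have mb : MapsTo (fun q : ℂ × ℂ => (q.1.re, q.2)) (closedBall 0 1 ×ˢ sphere 0 1) th1B :=
    fun q hq => th1_mem (mem_closedBall_zero_iff.1 hq.1) (mem_sphere_zero_iff_norm.1 hq.2)
  have cb : ContinuousOn (fun q : ℂ × ℂ => (q.1.re, q.2)) (closedBall 0 1 ×ˢ sphere 0 1) := by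
    fun_prop
  have alt : ∀ q ∈ closedBall (0 : ℂ) 1 ×ˢ sphere (0 : ℂ) 1, th1F lo m n hi q = q ∨
      (sl q.1 q.2 ∈ KL ∧ ‖(th1F lo m n hi q).1‖ ≤ 1) := fun q hq => by
    rcases h _ (mb hq) with k | ⟨-, k⟩
    · left
      rw [th1F, k, pl_same]
    · by_cases c : q.1.im ∈ Icc (lo (q.1.re, q.2)) (hi (q.1.re, q.2))
      · exact Or.inr ⟨(k _ c).2, (k _ (pl_mem c)).1⟩
      · left
        rw [mem_Icc, not_and_or, not_le, not_le] at c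
        rw [th1F, pl_out (c.imp le_of_lt le_of_lt)]
  have fix : ∀ q ∈ closedBall (0 : ℂ) 1 ×ˢ sphere (0 : ℂ) 1, sl q.1 q.2 ∉ KL →
      th1F lo m n hi q = q := fun q hq k => (alt q hq).resolve_right fun c => k c.1
  refine ⟨?_, fun q hq => ?_, fix, fun x hx y hy k => ?_⟩
  · refine (th1_mk.comp_continuousOn (ContinuousOn.prodMk (by fun_prop) ?_)).prodMk continuousOn_snd
    exact pl_cont (cl.comp cb mb) (cm.comp cb mb) (cn.comp cb mb) (ch.comp cb mb) (by fun_prop)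
      fun q hq => (h _ (mb hq)).imp_right And.left
  · rcases alt q hq with k | k
    · rwa [k]
    · exact ⟨mem_closedBall_zero_iff.2 k.2, hq.2⟩
  · have x1 := mem_closedBall_zero_iff.1 hx.1
    have x2 := mem_sphere_zero_iff_norm.1 hx.2
    obtain ⟨k1, k2 | k2⟩ := (sl_eq x1 x2 (mem_closedBall_zero_iff.1 hy.1)
      (mem_sphere_zero_iff_norm.1 hy.2)).1 k
    · rw [Prod.ext k1 k2]
    · have o : sl x.1 x.2 ∉ KL := fun c => by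
        obtain ⟨j, hj⟩ := real_out (p := sl x.1 x.2)
          (by rw [(sl_val x1 x2).1, normSq_eq_norm_sq, k2]; norm_num)
        exact not_le.2 hj (c j)
      rw [fix x hx o, fix y hy (k ▸ o), k]

theorem th1_move {P Q : Set S3} {m n : ℝ × ℂ → ℝ} (cm : ContinuousOn m th1B)
    (cn : ContinuousOn n th1B) (hm : ∀ z ∈ th1B, z.1 ^ 2 + m z ^ 2 ≤ 1)
    (hn : ∀ z ∈ th1B, z.1 ^ 2 + n z ^ 2 ≤ 1)
    (h : ∀ z ∈ th1B, m z = n z ∨ th1G z.1 (m z) (n z) z.2)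
    (hP : ∀ x e : ℂ, ‖x‖ ≤ 1 → ‖e‖ = 1 → (sl x e ∈ P ↔ x.im = m (x.re, e)))
    (hQ : ∀ x e : ℂ, ‖x‖ ≤ 1 → ‖e‖ = 1 → (sl x e ∈ Q ↔ x.im = n (x.re, e))) :
    ∃ Θ : S3 ≃ₜ S3, (∀ p, p ∉ KL → Θ p = p) ∧ Θ '' P = Q := by
  obtain ⟨lo, hi, cl, ch, k⟩ := th1_lohi cm cn hm hn h
  obtain ⟨a1, a2, a3, a4⟩ := th1_F cl cm cn ch k
  obtain ⟨b1, b2, -, b4⟩ := th1_F cl cn cm ch fun z hz => (k z hz).imp Eq.symm
    fun c => ⟨⟨c.1.2.1, c.1.1, c.1.2.2.2, c.1.2.2.1⟩, c.2⟩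
  have sj : ∀ p : S3, ∃ q ∈ closedBall (0 : ℂ) 1 ×ˢ sphere (0 : ℂ) 1, sl q.1 q.2 = p := fun p => by
    obtain ⟨h1, e, he, h2⟩ := sl_surj p
    exact ⟨(xx p.1, e), ⟨mem_closedBall_zero_iff.2 h1, mem_sphere_zero_iff_norm.2 he⟩, h2⟩
  obtain ⟨Θ, hΘ⟩ := homeo_desc ((isCompact_closedBall (0 : ℂ) 1).prod (isCompact_sphere (0 : ℂ) 1))
    contOn_sl (eq_univ_of_forall sj) a1 b1 a2 b2
    (fun q _ => by simp only [th1F, pl_inv]) (fun q _ => by simp only [th1F, pl_inv]) a4 b4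
  have iff : ∀ p, Θ p ∈ Q ↔ p ∈ P := fun p => by
    obtain ⟨q, hq, rfl⟩ := sj p
    have q1 := mem_closedBall_zero_iff.1 hq.1
    have q2 := mem_sphere_zero_iff_norm.1 hq.2
    rw [(hΘ q hq).1, hP _ _ q1 q2, hQ _ _ (mem_closedBall_zero_iff.1 (a2 hq).1)
      (mem_sphere_zero_iff_norm.1 (a2 hq).2)]
    have nd := pl_node ((k _ (th1_mem q1 q2)).imp_right And.left)
    exact ⟨fun c => (pl_mono _ _ _ _).injective (c.trans nd.symm), fun c => by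
      change pl _ _ _ _ q.1.im = _
      rw [c]; exact nd⟩
  refine ⟨Θ, fun p hp => ?_, ?_⟩
  · obtain ⟨q, hq, rfl⟩ := sj p
    rw [(hΘ q hq).1, a3 q hq hp]
  · ext p
    exact ⟨fun ⟨q, hq, c⟩ => c ▸ (iff q).2 hq, fun c =>
      ⟨Θ.symm p, (iff _).1 (by rwa [Θ.apply_symm_apply]), Θ.apply_symm_apply p⟩⟩

end Pool.Agent.Lib.MP_b7d179_gt.Gm
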