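import Pool.Agent.Lib.MP_b7d179_gt.G.Rad
import Pool.Agent.Lib.MP_b7d179_gt.G.Th1a

/-! The intermediate sphere and the first level discs as graphs over the slices. -/

namespace Pool.Agent.Lib.MP_b7d179_gt.Gm

open Set Metric Complex Stmt

theorem th1_s2 : 141 / 100 ≤ √2 := Real.le_sqrt_of_sq_le (by norm_num)

theorem th1_chi (t : ℝ) : |chi t| ≤ 1 :=
  abs_le.2 ⟨le_max_left _ _, max_le (by norm_num) (min_le_left _ _)⟩

theorem th1_chi_pos {t : ℝ} (h : 0 ≤ t) : chi t = 1 := by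
  rw [chi, min_eq_left (by linarith), max_eq_right (by norm_num)]

theorem th1_chi_neg {t : ℝ} (h : t ≤ -1 / 8) : chi t = -1 :=
  max_eq_left ((min_le_right _ _).trans (by linarith))

theorem th1_cchi : Continuous chi := by unfold chi; fun_prop

theorem th1_cd {e : ℂ} (he : ‖e‖ = 1) : |e.re * e.im| ≤ 1 / 2 := by
  have := th1_unit he
  rw [abs_le]
  constructor <;> nlinarith [sq_nonneg (e.re - e.im), sq_nonneg (e.re + e.im)]

/-- the bound on a root -/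
theorem th1_bd {X Y c k : ℝ} (hc : |c| ≤ 1) (hk : |k| ≤ 1 / 2) (hb : X ^ 2 + Y ^ 2 ≤ 1)
    (h : Y * (√2 - c * X) = c * ((1 - X ^ 2 - Y ^ 2) * k)) : 8 * Y ^ 2 ≤ 1 := by
  have hX : |X| ≤ 1 := abs_le_of_sq_le_sq (by nlinarith [sq_nonneg Y]) (by norm_num)
  have cX : c * X ≤ |X| := (le_abs_self _).trans (by
    rw [abs_mul]; exact mul_le_of_le_one_left (abs_nonneg _) hc)
  have s := th1_s2
  have a : |Y| * (√2 - c * X) ≤ (1 - X ^ 2 - Y ^ 2) * (1 / 2) := by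
    rw [← abs_of_nonneg (a := √2 - c * X) (by linarith), ← abs_mul, h, abs_mul, abs_mul,
      abs_of_nonneg (a := 1 - X ^ 2 - Y ^ 2) (by linarith)]
    exact (mul_le_of_le_one_left (mul_nonneg (by linarith) (abs_nonneg _)) hc).trans
      (mul_le_mul_of_nonneg_left hk (by linarith))
  have b : 2 * √2 * |Y| ≤ 1 := by
    nlinarith [mul_le_mul_of_nonneg_left cX (abs_nonneg Y), sq_nonneg (|X| - |Y|), sq_abs X,
      sq_abs Y]
  have d := mul_self_le_mul_self (by positivity) b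
  have e : 2 * √2 * |Y| * (2 * √2 * |Y|) = 8 * Y ^ 2 := by
    linear_combination (4 * |Y| ^ 2) * r2 + 8 * sq_abs Y
  linarith

theorem th1_Sx {x e : ℂ} (hx : ‖x‖ ≤ 1) (he : ‖e‖ = 1) : sl x e ∈ Sx ↔
    x.im * (√2 - chi x.re * x.re) = chi x.re * ((1 - x.re ^ 2 - x.im ^ 2) * (e.re * e.im)) := by
  obtain ⟨h1, h2, h3⟩ := th1_co hx he
  rw [Sx, mem_ofPred_eq, h1, h2, h3]

theorem th1_Sb {x e : ℂ} (hx : ‖x‖ ≤ 1) (he : ‖e‖ = 1) : sl x e ∈ Sb 0 ↔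
    x.im * (√2 - x.re) = (1 - x.re ^ 2 - x.im ^ 2) * (e.re * e.im) := by
  obtain ⟨h1, h2, h3⟩ := th1_co hx he
  have h := av_sub (sl x e).1
  rw [h1, h2, h3] at h
  change av 0 _ = av 1 _ ↔ _
  rw [← sub_eq_zero, h, mul_eq_zero, sub_eq_zero, or_iff_right (by positivity)]

theorem th1_root {a b k : ℝ} (ha : 0 ≤ a) (hb : 0 < b) {m : ℝ}
    (hm : m = 2 * k * a / (b + √(b ^ 2 + 4 * k ^ 2 * a))) : m * b = k * (a - m ^ 2) ∧ m ^ 2 ≤ a := by
  have d2 : √(b ^ 2 + 4 * k ^ 2 * a) ^ 2 = b ^ 2 + 4 * k ^ 2 * a := Real.sq_sqrt (by positivity)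
  have d0 := Real.sqrt_nonneg (b ^ 2 + 4 * k ^ 2 * a)
  generalize √(b ^ 2 + 4 * k ^ 2 * a) = D at *
  have p : 0 < b + D := by linarith
  have e : a - m ^ 2 = 2 * a * b / (b + D) := by
    rw [hm]
    field_simp
    linear_combination a * d2
  refine ⟨?_, sub_nonneg.1 (by rw [e]; positivity)⟩
  rw [e, hm]
  ring

theorem th1_m : ∃ m : ℝ × ℂ → ℝ, ContinuousOn m th1B ∧
    (∀ z ∈ th1B, z.1 ^ 2 + m z ^ 2 ≤ 1 ∧ 8 * m z ^ 2 ≤ 1) ∧
    ∀ x e : ℂ, ‖x‖ ≤ 1 → ‖e‖ = 1 → (sl x e ∈ Sx ↔ x.im = m (x.re, e)) := by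
  let a : ℝ × ℂ → ℝ := fun z => 1 - z.1 ^ 2
  let b : ℝ × ℂ → ℝ := fun z => √2 - chi z.1 * z.1
  let k : ℝ × ℂ → ℝ := fun z => chi z.1 * (z.2.re * z.2.im)
  let m : ℝ × ℂ → ℝ := fun z => 2 * k z * a z / (b z + √(b z ^ 2 + 4 * k z ^ 2 * a z))
  have cc := th1_cchi
  have hb : ∀ z ∈ th1B, 41 / 100 ≤ b z := fun z hz => by
    have h1 : chi z.1 * z.1 ≤ 1 := (le_abs_self _).trans (by
      rw [abs_mul]; exact mul_le_one₀ (th1_chi _) (abs_nonneg _) (abs_le.2 hz.1))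
    have := th1_s2
    change _ ≤ √2 - chi z.1 * z.1
    linarith
  have hr : ∀ z ∈ th1B, m z * b z = k z * (a z - m z ^ 2) ∧ m z ^ 2 ≤ a z := fun z hz =>
    th1_root (sub_nonneg.2 ((sq_le_one_iff_abs_le_one _).2 (abs_le.2 hz.1)))
      (by linarith [hb z hz]) rfl
  have hs : ∀ z ∈ th1B, z.1 ^ 2 + m z ^ 2 ≤ 1 ∧ 8 * m z ^ 2 ≤ 1 := fun z hz => by
    obtain ⟨h1, h2⟩ := hr z hz
    have h3 : z.1 ^ 2 + m z ^ 2 ≤ 1 := by change _ ≤ 1 - z.1 ^ 2 at h2; linarith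
    refine ⟨h3, th1_bd (th1_chi z.1) (th1_cd (mem_sphere_zero_iff_norm.1 hz.2)) h3 ?_⟩
    linear_combination h1
  refine ⟨m, ContinuousOn.div (by fun_prop) (by fun_prop) fun z hz => ?_, hs, fun x e hx he => ?_⟩
  · have := hb z hz
    positivity
  · have hz := th1_mem hx he
    obtain ⟨h1, -⟩ := hr _ hz
    have h2 := abs_le.1 (th1_abs (hs _ hz).2)
    have h3 := hb _ hz
    rw [th1_Sx hx he]
    refine ⟨fun h => ?_, fun h => by rw [h]; linear_combination h1⟩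
    have h4 := abs_le.1 (th1_abs (th1_bd (th1_chi _) (th1_cd he) (th1_nrm.1 hx) h))
    have h5 : |k (x.re, e) * (x.im + m (x.re, e))| ≤ 1 / 2 * (177 / 250) := by
      rw [abs_mul]
      refine mul_le_mul ?_ (abs_le.2 ⟨by linarith, by linarith⟩) (abs_nonneg _) (by norm_num)
      change |chi x.re * (e.re * e.im)| ≤ _
      rw [abs_mul]
      exact (mul_le_of_le_one_left (abs_nonneg _) (th1_chi _)).trans (th1_cd he)
    have h6 : (x.im - m (x.re, e)) * (b (x.re, e) + k (x.re, e) * (x.im + m (x.re, e))) = 0 := by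
      linear_combination h - h1
    exact sub_eq_zero.1 ((mul_eq_zero.1 h6).resolve_right (by linarith [(abs_le.1 h5).1]))

/-- on the bisector, in one slice, a larger first coordinate gives a larger real part -/
theorem th1_ord {x x' e : ℂ} (hx : ‖x‖ ≤ 1) (hx' : ‖x'‖ ≤ 1) (he : ‖e‖ = 1) (h : sl x e ∈ Sb 0)
    (h' : sl x' e ∈ Sb 0) (h0 : 0 ≤ x.re) (h1 : x.re ≤ x'.re) (h2 : normSq x' ≤ normSq x) :
    x.re = x'.re ∧ normSq x = normSq x' := by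
  rw [th1_Sb hx he] at h
  rw [th1_Sb hx' he] at h'
  rw [normSq_apply, normSq_apply] at h2 ⊢
  have n := th1_nrm.1 hx
  have n' := th1_nrm.1 hx'
  have s := th1_s2
  have r : x'.re ≤ 1 := (re_le_norm x').trans hx'
  have a : |x.im| * (√2 - x.re) = (1 - x.re ^ 2 - x.im ^ 2) * |e.re * e.im| := by
    rw [← abs_of_nonneg (a := √2 - x.re) (by linarith), ← abs_mul, h, abs_mul,
      abs_of_nonneg (by linarith)]
  have a' : |x'.im| * (√2 - x'.re) = (1 - x'.re ^ 2 - x'.im ^ 2) * |e.re * e.im| := by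
    rw [← abs_of_nonneg (a := √2 - x'.re) (by linarith), ← abs_mul, h', abs_mul,
      abs_of_nonneg (by linarith)]
  have b : |x.im| * (√2 - x.re) ≤ |x'.im| * (√2 - x.re) := by
    rw [a]
    refine (mul_le_mul_of_nonneg_right (by nlinarith) (abs_nonneg _)).trans (a'.symm.trans_le ?_)
    exact mul_le_mul_of_nonneg_left (by linarith) (abs_nonneg _)
  have c := sq_le_sq.2 (le_of_mul_le_mul_right b (by linarith))
  have d := pow_le_pow_left₀ h0 h1 2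
  exact ⟨(pow_left_inj₀ h0 (h0.trans h1) two_ne_zero).1 (by nlinarith), by nlinarith⟩

theorem th1_kp {e : ℂ} (he : ‖e‖ = 1) : av 0 (kp e).1 = 3 / 2 ∧ kp e ∈ Sb 0 :=
  ⟨(kp_spec he).1.1, (kp_spec he).1.1.trans (kp_spec he).1.2.symm⟩

/-- comparison of a point of the bisector with the point of `kap 0` in its slice -/
theorem th1_cmp {x e : ℂ} (hx : ‖x‖ ≤ 1) (he : ‖e‖ = 1) (h : sl x e ∈ Sb 0) (h0 : 0 < x.re) :
    av 0 (sl x e).1 ≤ 3 / 2 ↔ (xx (kp e).1).re ≤ x.re := by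
  obtain ⟨-, k2, k3, -, -, k6, -⟩ := kp_spec he
  obtain ⟨k0, k1⟩ := th1_kp he
  have xp : 0 < (sl x e).1.1.re := by rw [(th1_co hx he).1]; exact h0
  have xq : 0 < (kp e).1.1.re := lt_trans (by norm_num) k6
  have yp := (sl_val hx he).2
  have yq := (sl_val k3.le he).2
  rw [k2] at yq
  have n : normSq x ≤ 1 := by rw [normSq_apply]; nlinarith [th1_nrm.1 hx]
  have n' : normSq (xx (kp e).1) ≤ 1 := by rw [normSq_apply]; nlinarith [th1_nrm.1 k3.le]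
  constructor
  · intro c
    by_contra d
    rw [not_le] at d
    refine d.ne (th1_ord hx k3.le he h (by rwa [k2]) h0.le d.le ?_).1
    by_contra f
    rw [not_le] at f
    have := (pure_mono k1 h xq xp he (Real.sqrt_nonneg _) yq yp).2
      (Real.sqrt_lt_sqrt (by linarith) (by linarith))
    linarith
  · intro c
    have f : normSq (xx (kp e).1) ≤ normSq x := by
      by_contra f
      rw [not_le] at f
      exact f.ne' (th1_ord k3.le hx he (by rwa [k2]) h xq.le c f.le).2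
    have g := pure_mono h k1 xp xq he (Real.sqrt_nonneg _) yp yq
    rcases (Real.sqrt_le_sqrt (show 1 - normSq x ≤ 1 - normSq (xx (kp e).1) by linarith)).eq_or_lt
      with l | l
    · rw [g.1 l, k0]
    · exact (g.2 l).le.trans k0.le

theorem th1_ray {e : ℂ} (he : ‖e‖ = 1) {t : ℝ} (ht : t ∈ Icc (0 : ℝ) 1) :
    ‖(t : ℂ) * xx (kp e).1‖ < 1 := by
  rw [norm_mul, Complex.norm_of_nonneg ht.1]
  exact (mul_le_of_le_one_left (norm_nonneg _) ht.2).trans_lt (kp_spec he).2.2.1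

theorem th1_Ann {x e : ℂ} (hx : ‖x‖ ≤ 1) (he : ‖e‖ = 1) : sl x e ∈ Ann 0 ↔ 0 ≤ x.re ∧
    x.re ≤ (xx (kp e).1).re ∧ x.im = x.re * ((xx (kp e).1).im / (xx (kp e).1).re) := by
  have a : 0 < (xx (kp e).1).re := lt_trans (by norm_num) (kp_spec he).2.2.2.2.2.1
  rw [Ann_iff]
  constructor
  · rintro ⟨e', he', t, ht, h⟩
    have r := th1_ray he' ht
    obtain ⟨h1, h2⟩ := (sl_eq hx he r.le he').1 h
    obtain rfl : e = e' := h2.resolve_right (h1 ▸ r.ne)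
    rw [h1, re_ofReal_mul, im_ofReal_mul]
    exact ⟨mul_nonneg ht.1 a.le, mul_le_of_le_one_left a.le ht.2, by field_simp⟩
  · rintro ⟨h1, h2, h3⟩
    refine ⟨e, he, x.re / (xx (kp e).1).re, ⟨div_nonneg h1 a.le, (div_le_one a).2 h2⟩, ?_⟩
    congr 1
    apply Complex.ext
    · rw [re_ofReal_mul]; field_simp
    · rw [im_ofReal_mul, h3]; ring

theorem th1_H0 {x e : ℂ} (hx : ‖x‖ ≤ 1) (he : ‖e‖ = 1) : sl x e ∈ Hp 0 ↔ (0 ≤ x.re ∧
    x.re ≤ (xx (kp e).1).re ∧ x.im = x.re * ((xx (kp e).1).im / (xx (kp e).1).re)) ∨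
      ((xx (kp e).1).re ≤ x.re ∧ sl x e ∈ Sb 0) := by
  have a : 0 < (xx (kp e).1).re := lt_trans (by norm_num) (kp_spec he).2.2.2.2.2.1
  refine or_congr (th1_Ann hx he) ⟨fun h => ⟨(th1_cmp hx he h.1 ?_).1 h.2, h.1⟩,
    fun h => ⟨h.2, (th1_cmp hx he h.2 (a.trans_le h.1)).2 h.1⟩⟩
  have := Sb_sec h.1 h.2
  rw [(th1_co hx he).1] at this
  exact lt_of_le_of_lt (by positivity) this

/-- strictly inside the annulus all the `av j` exceed `3 / 2` -/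
theorem th1_n0 {x e : ℂ} (hx : ‖x‖ ≤ 1) (he : ‖e‖ = 1) (h : sl x e ∈ Ann 0)
    (h1 : x.re < (xx (kp e).1).re) :
    8 * x.im ^ 2 ≤ 1 ∧ ∀ j, 3 / 2 < av j (sl x e).1 := by
  obtain ⟨a1, a2, a3⟩ := (th1_Ann hx he).1 h
  obtain ⟨k1, k2, k3, -, k5, k6, k7⟩ := kp_spec he
  have a : 0 < (xx (kp e).1).re := lt_trans (by norm_num) k6
  have y : 8 * x.im ^ 2 ≤ 1 := by
    have t : (x.re / (xx (kp e).1).re) ^ 2 ≤ 1 :=
      pow_le_one₀ (div_nonneg a1 a.le) ((div_le_one a).2 a2)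
    have : x.im ^ 2 = (x.re / (xx (kp e).1).re) ^ 2 * (xx (kp e).1).im ^ 2 := by rw [a3]; ring
    nlinarith [sq_nonneg (xx (kp e).1).im]
  have ay := th1_abs y
  obtain ⟨c1, c2, -⟩ := th1_co hx he
  obtain ⟨s2, s5, -, s34⟩ := slab (p := sl x e) (by rw [c2]; linarith)
  obtain ⟨s3, s4⟩ := s34 (by rw [c1]; linarith)
  have kt := (Six_Kt 0).1 ((Six_Kt 0).2.1 h)
  have kl := Kt_KL kt
  have no : ¬ (av 0 (sl x e).1 = 3 / 2 ∧ av 1 (sl x e).1 = 3 / 2) := fun c => by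
    have n : normSq x < 1 := by rw [normSq_apply]; nlinarith
    have n' : normSq (xx (kp e).1) < 1 := by
      rw [normSq_eq_norm_sq]; exact pow_lt_one₀ (norm_nonneg _) k3 two_ne_zero
    have yq := (sl_val k3.le he).2
    rw [k2] at yq
    have := (kap_ex he).unique ⟨c, _, Real.sqrt_pos.2 (sub_pos.2 n), (sl_val hx he).2⟩
      ⟨k1, _, Real.sqrt_pos.2 (sub_pos.2 n'), yq⟩
    exact h1.ne (by rw [← this, (sl_val hx he).1])
  have q0 : 0 ≤ 9 * av 0 (sl x e).1 - min (av 5 (sl x e).1) (av 1 (sl x e).1) - 12 := kt 0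
  have q1 : 0 ≤ 9 * av 1 (sl x e).1 - min (av 0 (sl x e).1) (av 2 (sl x e).1) - 12 := kt 1
  have s0 : 3 / 2 < av 0 (sl x e).1 := (kl 0).lt_of_ne fun c => no ⟨c.symm, le_antisymm
    ((min_le_iff.1 (show min (av 5 (sl x e).1) (av 1 (sl x e).1) ≤ 3 / 2 by linarith)).resolve_left
      (not_le.2 s5)) (kl 1)⟩
  have s1 : 3 / 2 < av 1 (sl x e).1 := (kl 1).lt_of_ne fun c => not_le.2 (lt_min s0 s2) (by linarith)
  refine ⟨y, fun j => ?_⟩
  fin_cases j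
  exacts [s0, s1, s2, s3, s4, s5]

theorem th1_neg {x e : ℂ} (hx : ‖x‖ ≤ 1) (he : ‖e‖ = 1) :
    rot (rot (rot (sl x e))) = sl (-x) (-e) := by
  have m : mv 1 * (mv 1 * mv 1) = -1 := by linear_combination (mv 1 + 1) * act_m
  obtain ⟨a, b⟩ := sl_val hx he
  obtain ⟨c, d⟩ := sl_val (x := -x) (e := -e) (by rwa [norm_neg]) (by rwa [norm_neg])
  refine ext_xy ?_ ?_
  · rw [xx_rot, xx_rot, xx_rot, a, c]
    linear_combination x * m
  · rw [yy_rot, yy_rot, yy_rot, b, d, normSq_neg]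
    linear_combination ((√(1 - normSq x) : ℝ) * e) * m

theorem th1_neg_av {x e : ℂ} (hx : ‖x‖ ≤ 1) (he : ‖e‖ = 1) (j : Fin 6) :
    av (j + 1 + 1 + 1) (sl (-x) (-e)).1 = av j (sl x e).1 := by
  rw [← th1_neg hx he, av_rot, av_rot, av_rot]

theorem th1_neg_H {x e : ℂ} (hx : ‖x‖ ≤ 1) (he : ‖e‖ = 1) :
    sl x e ∈ Hp 3 ↔ sl (-x) (-e) ∈ Hp 0 := by
  rw [← th1_neg hx he]
  exact ((rot_e 5 _).2.2.2.2.2.2.1.trans ((rot_e 4 _).2.2.2.2.2.2.1.trans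
    (rot_e 3 _).2.2.2.2.2.2.1)).symm

theorem th1_Sx_pos {x e : ℂ} (hx : ‖x‖ ≤ 1) (he : ‖e‖ = 1) (h : 0 ≤ x.re) :
    sl x e ∈ Sx ↔ sl x e ∈ Sb 0 := by
  rw [th1_Sx hx he, th1_Sb hx he, th1_chi_pos h, one_mul, one_mul]

theorem th1_Sx_neg {x e : ℂ} (hx : ‖x‖ ≤ 1) (he : ‖e‖ = 1) (h : x.re ≤ -1 / 8) :
    sl x e ∈ Sx ↔ sl (-x) (-e) ∈ Sb 0 := by
  rw [th1_Sx hx he, th1_Sb (by rwa [norm_neg]) (by rwa [norm_neg]), th1_chi_neg h]
  simp only [neg_re, neg_im]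
  constructor <;> intro k <;> linear_combination -k

end Pool.Agent.Lib.MP_b7d179_gt.Gm
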