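import Pool.Agent.Lib.MP_b7d179_gt.G.Rad
import Pool.Agent.Lib.MP_b7d179_gt.G.KitA
import Pool.Agent.Lib.MP_b7d179_gt.G.KitC
import Pool.Agent.Lib.MP_b7d179_gt.G.Th1b

/-! From the intermediate sphere to the first level sphere, along the chords of the slices. -/

namespace Pool.Agent.Lib.MP_b7d179_gt.Gm

open Set Metric Complex Stmt

theorem th1_n {m : ℝ × ℂ → ℝ} (cm : ContinuousOn m th1B)
    (hm : ∀ x e : ℂ, ‖x‖ ≤ 1 → ‖e‖ = 1 → (sl x e ∈ Sx ↔ x.im = m (x.re, e))) :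
    ∃ n : ℝ × ℂ → ℝ, ContinuousOn n th1B ∧ ∀ z ∈ th1B,
      ((xx (kp z.2).1).re ≤ z.1 ∨ z.1 ≤ -(xx (kp (-z.2)).1).re → n z = m z) ∧
      (0 ≤ z.1 → z.1 ≤ (xx (kp z.2).1).re →
        n z = z.1 * ((xx (kp z.2).1).im / (xx (kp z.2).1).re)) ∧
      (-(xx (kp (-z.2)).1).re ≤ z.1 → z.1 ≤ 0 →
        n z = z.1 * ((xx (kp (-z.2)).1).im / (xx (kp (-z.2)).1).re)) := by
  let A : ℝ × ℂ → ℂ := fun z => xx (kp z.2).1
  let B : ℝ × ℂ → ℂ := fun z => xx (kp (-z.2)).1
  have cx : Continuous fun p : S3 => xx p.1 := cont_xx.comp continuous_subtype_val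
  have u1 : ∀ z ∈ th1B, ‖z.2‖ = 1 := fun z hz => mem_sphere_zero_iff_norm.1 hz.2
  have u2 : ∀ z ∈ th1B, ‖-z.2‖ = 1 := fun z hz => by rw [norm_neg, u1 z hz]
  have cA : ContinuousOn A th1B :=
    cx.comp_continuousOn (kp_cont.comp continuousOn_snd fun z hz => hz.2)
  have cB : ContinuousOn B th1B := cx.comp_continuousOn
    (kp_cont.comp continuousOn_snd.neg fun z hz => mem_sphere_zero_iff_norm.2 (u2 z hz))
  have pA : ∀ z ∈ th1B, 1 / 2 < (A z).re ∧ (A z).re < 3 / 4 := fun z hz =>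
    (kp_spec (u1 z hz)).2.2.2.2.2
  have pB : ∀ z ∈ th1B, 1 / 2 < (B z).re ∧ (B z).re < 3 / 4 := fun z hz =>
    (kp_spec (u2 z hz)).2.2.2.2.2
  have rA := continuous_re.comp_continuousOn cA
  have rB := continuous_re.comp_continuousOn cB
  have iA := continuous_im.comp_continuousOn cA
  have iB := continuous_im.comp_continuousOn cB
  let u : ℝ × ℂ → ℝ := fun z => max (-(B z).re) (min z.1 (A z).re)
  have cu : ContinuousOn u th1B := rB.neg.sup (continuousOn_fst.inf rA)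
  have mu : MapsTo (fun z => (u z, z.2)) th1B th1B := fun z hz =>
    ⟨⟨le_max_of_le_left (by linarith [pB z hz]),
      max_le (by linarith [pB z hz]) ((min_le_left _ _).trans hz.1.2)⟩, hz.2⟩
  refine ⟨fun z => m z - m (u z, z.2) +
    (max (u z) 0 * ((A z).im / (A z).re) + min (u z) 0 * ((B z).im / (B z).re)),
    (cm.sub (cm.comp (cu.prodMk continuousOn_snd) mu)).add
      (((cu.sup continuousOn_const).mul (iA.div rA fun z hz => ?_)).add
        ((cu.inf continuousOn_const).mul (iB.div rB fun z hz => ?_))), fun z hz => ?_⟩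
  · exact (lt_trans (by norm_num) (pA z hz).1).ne'
  · exact (lt_trans (by norm_num) (pB z hz).1).ne'
  obtain ⟨a1, a2⟩ := pA z hz
  obtain ⟨b1, b2⟩ := pB z hz
  have nA : ‖A z‖ ≤ 1 := (kp_spec (u1 z hz)).2.2.1.le
  have nB : ‖-B z‖ ≤ 1 := by rw [norm_neg]; exact (kp_spec (u2 z hz)).2.2.1.le
  have mA : (A z).im = m ((A z).re, z.2) := by
    refine (hm _ _ nA (u1 z hz)).1 ((th1_Sx_pos nA (u1 z hz) (by linarith)).2 ?_)
    rw [(kp_spec (u1 z hz)).2.1]
    exact (th1_kp (u1 z hz)).2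
  have mB : -(B z).im = m (-(B z).re, z.2) := by
    refine (hm _ _ nB (u1 z hz)).1 ((th1_Sx_neg nB (u1 z hz) (by rw [neg_re]; linarith)).2 ?_)
    rw [neg_neg, (kp_spec (u2 z hz)).2.1]
    exact (th1_kp (u2 z hz)).2
  have mid : -(B z).re ≤ z.1 → z.1 ≤ (A z).re → u z = z.1 := fun h h' => by
    change max _ (min _ _) = _
    rw [min_eq_left h', max_eq_right h]
  refine ⟨fun h => ?_, fun h h' => ?_, fun h h' => ?_⟩
  · rcases h with h | h
    · have e : u z = (A z).re := by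
        change max _ (min _ _) = _
        rw [min_eq_right h, max_eq_right (by linarith)]
      have : (A z).re ≠ 0 := by linarith
      simp only
      rw [e, ← mA, max_eq_left (by linarith), min_eq_right (by linarith)]
      field_simp
      ring
    · have e : u z = -(B z).re := max_eq_left ((min_le_left _ _).trans h)
      have : (B z).re ≠ 0 := by linarith
      simp only
      rw [e, ← mB, max_eq_right (by linarith), min_eq_left (by linarith)]
      field_simp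
      ring
  · simp only
    rw [mid (by linarith) h', max_eq_left h, min_eq_right h]
    ring
  · simp only
    rw [mid h (by linarith), max_eq_right h', min_eq_left h']
    ring

theorem th1_r {X : ℝ} {e : ℂ} (he : ‖e‖ = 1) (h0 : 0 ≤ X) (h1 : X ≤ (xx (kp e).1).re) :
    ‖(⟨X, X * ((xx (kp e).1).im / (xx (kp e).1).re)⟩ : ℂ)‖ ≤ 1 := by
  have a : 0 < (xx (kp e).1).re := lt_trans (by norm_num) (kp_spec he).2.2.2.2.2.1
  refine le_of_eq_of_le (congrArg norm ?_)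
    (th1_ray he (t := X / (xx (kp e).1).re) ⟨div_nonneg h0 a.le, (div_le_one a).2 h1⟩).le
  apply Complex.ext
  · rw [re_ofReal_mul]; field_simp
  · rw [im_ofReal_mul]; ring

/-- between the two curves the points of the intermediate sphere have all `av j > 3 / 2` -/
theorem th1_m0 {x e : ℂ} (hx : ‖x‖ ≤ 1) (he : ‖e‖ = 1) (h : sl x e ∈ Sx) (hy : 8 * x.im ^ 2 ≤ 1)
    (h0 : -(xx (kp (-e)).1).re < x.re) (h1 : x.re < (xx (kp e).1).re) (j : Fin 6) :
    3 / 2 < av j (sl x e).1 := by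
  obtain ⟨c1, c2, -⟩ := th1_co hx he
  obtain ⟨s2, s5, s01, s34⟩ := slab (p := sl x e) (by rw [c2]; linarith [th1_abs hy])
  rw [c1] at s01 s34
  have k01 : 3 / 2 < av 0 (sl x e).1 ∧ 3 / 2 < av 1 (sl x e).1 := by
    rcases le_or_gt x.re (1 / 8) with c | c
    · exact s01 c
    · have b := (th1_Sx_pos hx he (by linarith)).1 h
      have d := not_le.1 fun k => not_le.2 h1 ((th1_cmp hx he b (by linarith)).1 k)
      exact ⟨d, d.trans_eq b⟩
  have k34 : 3 / 2 < av 3 (sl x e).1 ∧ 3 / 2 < av 4 (sl x e).1 := by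
    rcases le_or_gt (-1 / 8) x.re with c | c
    · exact s34 c
    · have b := (th1_Sx_neg hx he c.le).1 h
      have d : 3 / 2 < av 0 (sl (-x) (-e)).1 := not_le.1 fun k => by
        have := (th1_cmp (by rwa [norm_neg]) (by rwa [norm_neg]) b (by rw [neg_re]; linarith)).1 k
        rw [neg_re] at this
        linarith
      exact ⟨d.trans_eq (th1_neg_av hx he 3), (d.trans_eq b).trans_eq (th1_neg_av hx he 4)⟩
  fin_cases j
  exacts [k01.1, k01.2, s2, k34.1, k34.2, s5]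

/-- In the slice of `e` both spheres are graphs Y = m (X, e), Y = n (X, e) over X ∈ [-1, 1]: `m` is the root
of Y (√2 - χ X) = χ (1 - X² - Y²) e.re e.im; `n` = X · im / re of xx (kp e) for 0 ≤ X ≤ re, the same with
-xx (kp (-e)) for X ≤ 0, and `m` outside. Where they differ both points have all `av j > 3/2` and
|Y| ≤ 1 / √8; for |Y| ≤ 179/500 and |X| ≤ 3/4 each `av j` is monotone in Y (or use `slab`), and it is
Lipschitz in Y. lo = min m n - ε, hi = max m n + ε with ε a small multiple of the least margin;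
`pl`, `homeo_desc` with `sl`. -/
theorem exists_th1 : ∃ Θ : S3 ≃ₜ S3, (∀ p, p ∉ KL → Θ p = p) ∧ Θ '' Sx = Hp 0 ∪ Hp 3 := by
  obtain ⟨m, cm, bm, hm⟩ := th1_m
  obtain ⟨n, cn, hn⟩ := th1_n cm hm
  have key : ∀ z ∈ th1B, z.1 ^ 2 + n z ^ 2 ≤ 1 ∧ (m z = n z ∨ th1G z.1 (m z) (n z) z.2) := by
    intro z hz
    obtain ⟨n1, n2, n3⟩ := hn z hz
    have u1 : ‖z.2‖ = 1 := mem_sphere_zero_iff_norm.1 hz.2
    have u2 : ‖-z.2‖ = 1 := by rwa [norm_neg]
    by_cases c : (xx (kp z.2).1).re ≤ z.1 ∨ z.1 ≤ -(xx (kp (-z.2)).1).re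
    · exact ⟨n1 c ▸ (bm z hz).1, Or.inl (n1 c).symm⟩
    rw [not_or, not_le, not_le] at c
    have a := (kp_spec u1).2.2.2.2.2.2
    have b := (kp_spec u2).2.2.2.2.2.2
    have q : ‖(⟨z.1, m z⟩ : ℂ)‖ ≤ 1 := th1_nrm.2 (bm z hz).1
    have gm := th1_m0 q u1 ((hm _ _ q u1).2 rfl) (bm z hz).2 c.2 c.1
    have gn : ‖(⟨z.1, n z⟩ : ℂ)‖ ≤ 1 ∧ 8 * n z ^ 2 ≤ 1 ∧
        ∀ j, 3 / 2 < av j (sl ⟨z.1, n z⟩ z.2).1 := by
      rcases le_total 0 z.1 with d | d
      · have r := th1_r u1 d c.1.le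
        rw [← n2 d c.1.le] at r
        exact ⟨r, th1_n0 r u1 ((th1_Ann r u1).2 ⟨d, c.1.le, n2 d c.1.le⟩) c.1⟩
      · have f : -z.1 < (xx (kp (-z.2)).1).re := by linarith [c.2]
        have r := th1_r u2 (neg_nonneg.2 d) f.le
        rw [neg_mul, ← n3 c.2.le d] at r
        change ‖-(⟨z.1, n z⟩ : ℂ)‖ ≤ 1 at r
        obtain ⟨g1, g2⟩ := th1_n0 r u2 ((th1_Ann r u2).2 ⟨neg_nonneg.2 d, f.le, by
          change -n z = -z.1 * _
          rw [n3 c.2.le d, neg_mul]⟩) f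
        rw [norm_neg] at r
        refine ⟨r, ?_, fun j => (g2 _).trans_eq (th1_neg_av r u1 j)⟩
        change 8 * (-n z) ^ 2 ≤ 1 at g1
        rwa [neg_sq] at g1
    exact ⟨th1_nrm.1 gn.1, Or.inr ⟨abs_le.2 ⟨by linarith [c.2], by linarith [c.1]⟩, (bm z hz).2,
      gn.2.1, fun j => ⟨gm j, gn.2.2 j⟩⟩⟩
  refine th1_move cm cn (fun z hz => (bm z hz).1) (fun z hz => (key z hz).1)
    (fun z hz => (key z hz).2) hm fun x e hx he => ?_
  obtain ⟨n1, n2, n3⟩ := hn _ (th1_mem hx he)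
  have u2 : ‖-e‖ = 1 := by rwa [norm_neg]
  have a := (kp_spec he).2.2.2.2.2.1
  have b := (kp_spec u2).2.2.2.2.2.1
  simp only at n1 n2 n3
  rw [mem_union, th1_neg_H hx he, th1_H0 hx he, th1_H0 (by rwa [norm_neg]) u2, neg_re, neg_im]
  constructor
  · rintro ((⟨h1, h2, h3⟩ | ⟨h1, h2⟩) | (⟨h1, h2, h3⟩ | ⟨h1, h2⟩))
    · rw [n2 h1 h2, h3]
    · rw [n1 (Or.inl h1)]
      exact (hm x e hx he).1 ((th1_Sx_pos hx he (by linarith)).2 h2)
    · rw [n3 (by linarith) (by linarith)]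
      linarith
    · rw [n1 (Or.inr (by linarith))]
      exact (hm x e hx he).1 ((th1_Sx_neg hx he (by linarith)).2 h2)
  · intro h
    rcases le_total 0 x.re with c | c
    · rcases le_total x.re (xx (kp e).1).re with d | d
      · exact Or.inl (Or.inl ⟨c, d, h.trans (n2 c d)⟩)
      · exact Or.inl (Or.inr ⟨d, (th1_Sx_pos hx he c).1
          ((hm x e hx he).2 (h.trans (n1 (Or.inl d))))⟩)
    · rcases le_total (-(xx (kp (-e)).1).re) x.re with d | d
      · exact Or.inr (Or.inl ⟨by linarith, by linarith, by rw [h, n3 d c, neg_mul]⟩)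
      · exact Or.inr (Or.inr ⟨by linarith, (th1_Sx_neg hx he (by linarith)).1
          ((hm x e hx he).2 (h.trans (n1 (Or.inr d))))⟩)

end Pool.Agent.Lib.MP_b7d179_gt.Gm
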