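import Pool.Agent.Lib.MP_b7d179_gt.G.Th
import Pool.Agent.Lib.MP_b7d179_gt.G.Hull

/-! The true half spheres and lenses. -/

namespace Pool.Agent.Lib.MP_b7d179_gt.Gm

open Set Metric Complex Stmt

theorem tr1_prod {Z ι : Type*} [TopologicalSpace Z] (a : ι → Z ≃ₜ Z) (A : ι → Set Z)
    (s1 : ∀ e p, p ∉ A e → a e p = p) (m : ∀ e, ∀ p ∈ A e, a e p ∈ A e)
    (dj : ∀ e e', e ≠ e' → Disjoint (A e) (A e')) (s : Finset ι) :
    ∃ F : Z ≃ₜ Z, (∀ p, (∀ e ∈ s, p ∉ A e) → F p = p) ∧ ∀ e ∈ s, ∀ p ∈ A e, F p = a e p := by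
  classical
  induction s using Finset.induction_on with
  | empty => exact ⟨1, fun _ _ => rfl, fun e he => absurd he (Finset.notMem_empty e)⟩
  | insert i s hi ih =>
    obtain ⟨F, f1, f2⟩ := ih
    refine ⟨a i * F, fun p hp => ?_, fun e he p hp => ?_⟩
    · change a i (F p) = p
      rw [f1 p fun e he => hp e (Finset.mem_insert_of_mem he), s1 i p (hp i (Finset.mem_insert_self ..))]
    · change a i (F p) = a e p
      rcases Finset.mem_insert.1 he with rfl | he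
      · rw [f1 p fun e' he' => Set.disjoint_left.1 (dj e e' fun z => hi (z ▸ he')) hp]
      · rw [f2 e he p hp, s1 i _ (Set.disjoint_left.1 (dj e i fun z => hi (z ▸ he)) (m e p hp))]

theorem tr1_img {Z : Type*} [TopologicalSpace Z] {F G : Z ≃ₜ Z} {W : Set Z}
    (k : ∀ p, F p = G p ∨ ∃ A : Set Z, p ∈ A ∧ F p ∈ A ∧ G (F p) = F p ∧ (A ⊆ W ∨ Disjoint A W)) :
    G '' W = F '' W := by
  have r : ∀ p, G.symm (F p) ∈ W ↔ p ∈ W := fun p => by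
    rcases k p with e | ⟨A, h1, h2, h3, h4⟩
    · rw [e, G.symm_apply_apply]
    · rw [G.symm_apply_eq.2 h3.symm]
      rcases h4 with h4 | h4
      · exact iff_of_true (h4 h2) (h4 h1)
      · exact iff_of_false (Set.disjoint_left.1 h4 h2) (Set.disjoint_left.1 h4 h1)
  ext q
  rw [G.image_eq_preimage_symm, F.image_eq_preimage_symm, mem_preimage, mem_preimage,
    ← r (F.symm q), F.apply_symm_apply]

theorem tr1_fix {Z : Type*} [TopologicalSpace Z] {F : Z ≃ₜ Z} {p : Z} (e : F p = p) (W : Set Z) :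
    p ∈ F '' W ↔ p ∈ W := by
  conv_lhs => rw [← e]
  exact F.injective.mem_set_image

theorem tr1_conj {Z : Type*} [TopologicalSpace Z] {r a b : Z ≃ₜ Z} (e : r * a = b * r) (W : Set Z) :
    r '' (a '' W) = b '' (r '' W) := by
  rw [image_image, image_image]
  exact image_congr fun p _ => DFunLike.congr_fun e p

theorem tr1_emb {Z : Type*} [TopologicalSpace Z] (F : Z ≃ₜ Z) (A : Set Z) : Emb F A :=
  ⟨F.continuous.continuousOn, F.injective.injOn⟩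

theorem tr1_near (p : S3) : av 0 p.1 ≤ av 1 p.1 ↔ p ∉ Cap 0 ∨ p ∈ Sb 0 := by
  change _ ↔ ¬ av 1 p.1 ≤ av 0 p.1 ∨ av 0 p.1 = av 1 p.1
  rw [not_le, le_iff_lt_or_eq]

theorem tr1_US {p : S3} (hp : p ∈ Uu 0) : p ∉ Sp 0 := fun k =>
  (Sp_facts k).2.2.2.2.2.2 ⟨by linarith [hp.1], by linarith [hp.2]⟩

theorem tr1_Sb (k : ℕ) (p : S3) : (g 0 ^ k) p ∈ Sb 0 ↔ p ∈ Sb 0 := by
  induction k with
  | zero => rfl
  | succ k ih => rw [pow_succ']; exact (g_Sb 0 _).1.trans ih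

theorem tr1_H3 : Hp 3 ⊆ Uu 0 := by
  rintro p (hp | ⟨h1, h2⟩)
  · have k := hull_KL ((Six_Kt 3).2.1 hp)
    exact ⟨k 0, k 1⟩
  · have a : 6 ≤ av 0 p.1 + av 3 p.1 := av_opp 0 p.1
    have b : 6 ≤ av 1 p.1 + av 4 p.1 := av_opp 1 p.1
    have c : av 3 p.1 = av 4 p.1 := h1
    exact ⟨by linarith, by change 3 / 2 ≤ av 1 p.1; linarith⟩

theorem tr1_nf {H X : Fin 6 → Set S3} (b : Book H X) (p : S3) :
    p ∈ Near X ↔ p ∉ Far X ∨ p ∈ H 0 ∪ H 3 := by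
  have k0 : kc ⊆ H 0 := fun q hq => ((b.hh 0 3 (by decide)).ge hq).1
  have a0 : X 0 ∩ X 1 = H 0 := b.adj 0
  have a3 : X 3 ∩ X 4 = H 3 := b.adj 3
  have f : ∀ j k, k ≠ j → k ≠ j + 1 → k ≠ j - 1 → p ∈ X j → p ∈ X k → p ∈ H 0 ∪ H 3 :=
    fun j k h1 h2 h3 u v => Or.inl (k0 ((b.far j k h1 h2 h3).le ⟨u, v⟩))
  constructor
  · intro hp
    by_cases hf : p ∈ Far X
    · right
      rcases hp with (u | u) | u <;> rcases hf with (v | v) | v
      · exact Or.inl (a0.le ⟨u, v⟩)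
      all_goals first
        | exact f _ _ (by decide) (by decide) (by decide) u v
        | exact Or.inr (a3.le ⟨v, u⟩)
    · exact Or.inl hf
  · rintro (hp | hp | hp)
    · obtain ⟨j, hj⟩ := b.cov p
      fin_cases j
      · exact Or.inl (Or.inl hj)
      · exact (hp (Or.inl (Or.inl hj))).elim
      · exact (hp (Or.inl (Or.inr hj))).elim
      · exact (hp (Or.inr hj)).elim
      · exact Or.inr hj
      · exact Or.inl (Or.inr hj)
    · exact Or.inl (Or.inl (a0.ge hp).1)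
    · exact Or.inr (a3.ge hp).2

variable {h : S3 ≃ₜ S3} (hh : IsH h)
include hh

theorem tr1_sp (e : Fin 6) (p : S3) (hp : p ∉ Sp e) : hE h e p = p :=
  hh.supq e p fun k => hp (Sq_Sp e k)

theorem tr1_mem (e : Fin 6) (p : S3) (hp : p ∈ Sp e) : hE h e p ∈ Sp e :=
  kitC_mem (tr1_sp hh e) hp

/-- the product of the six straightening maps (disjoint supports `Sq e`) carries `Hp e` to `HH h e` and
`Xp j` to `XX h j`, because `Sp e` misses `Hp e'`, `Xp j` off the two lenses at `e` and lies in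
their union -/
theorem exists_all : ∃ F : S3 ≃ₜ S3, (∀ e, F '' Hp e = HH h e) ∧ (∀ j, F '' Xp j = XX h j) ∧
    (∀ p, (∀ e, p ∉ Sq e) → F p = p) ∧ ∀ e, ∀ p ∈ Sp e, F p = hE h e p ∧ F p ∈ Sp e := by
  obtain ⟨F, f1, f2⟩ := tr1_prod (hE h) Sp (tr1_sp hh) (tr1_mem hh) (fun _ _ => Sp_disj) Finset.univ
  have f1' : ∀ p, (∀ e, p ∉ Sp e) → F p = p := fun p hp => f1 p fun e _ => hp e
  have f2' : ∀ e, ∀ p ∈ Sp e, F p = hE h e p := fun e => f2 e (Finset.mem_univ e)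
  refine ⟨F, fun e => image_congr fun p hp => ?_, fun j => ?_, fun p hp => ?_,
    fun e p hp => ⟨f2' e p hp, by rw [f2' e p hp]; exact tr1_mem hh e p hp⟩⟩
  · by_cases k : p ∈ Sp e
    · exact f2' e p k
    · rw [tr1_sp hh e p k]
      refine f1' p fun e' k' => ?_
      by_cases z : e' = e
      · exact k (z ▸ k')
      · exact Set.disjoint_left.1 (Sp_Hp z) k' hp
  · rw [XX, image_image]
    refine image_congr fun p hp => ?_
    have ne : ∀ j : Fin 6, j ≠ j - 1 := by decide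
    by_cases k : p ∈ Sp j
    · rw [f2' j p k, tr1_sp hh _ _ (Set.disjoint_left.1 (Sp_disj (ne j)) (tr1_mem hh j p k))]
    · rw [tr1_sp hh j p k]
      by_cases k' : p ∈ Sp (j - 1)
      · exact f2' _ p k'
      · rw [tr1_sp hh _ p k']
        refine f1' p fun e z => Set.disjoint_left.1 (Sp_Xp (e := e) (j := j) (fun w => k ?_)
          fun w => k' ?_) z hp
        · rwa [w]
        · rwa [w, add_sub_cancel_right]
  · by_cases k : ∃ e, p ∈ Sp e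
    · obtain ⟨e, k⟩ := k
      rw [f2' e p k, hh.supq e p (hp e)]
    · exact f1' p fun e z => k ⟨e, z⟩

theorem book_t : Book (HH h) (XX h) := by
  obtain ⟨F, f1, f2, f3, -⟩ := exists_all hh
  have b := book_p
  have k : F '' kc = kc := (image_congr fun p hp => f3 p fun e z =>
    Set.disjoint_left.1 (Sp_KL e) (Sq_Sp e z) (hull_KL (rad_kc 0 hp))).trans (image_id' _)
  have i : ∀ A B : Set S3, F '' A ∩ F '' B = F '' (A ∩ B) := fun A B =>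
    (image_inter F.injective).symm
  refine ⟨fun e => ?_, fun e e' ne => ?_, fun j => ?_, fun j => ?_, fun j l h1 h2 h3 => ?_,
    fun p => ?_, fun e => ?_, fun j => ?_⟩
  · obtain ⟨φ, e1, e2, e3⟩ := b.disc e
    exact ⟨F ∘ φ, (tr1_emb F univ).comp e1 (subset_univ _), by rw [image_comp, e2, f1],
      by rw [image_comp, e3, k]⟩
  · rw [← f1, ← f1, i, b.hh e e' ne, k]
  · obtain ⟨φ, e1, e2, e3⟩ := b.ball j
    exact ⟨F ∘ φ, (tr1_emb F univ).comp e1 (subset_univ _), by rw [image_comp, e2, f2],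
      by rw [image_comp, e3, image_union, f1, f1]⟩
  · rw [← f2, ← f2, i, b.adj, f1]
  · rw [← f2, ← f2, i, b.far j l h1 h2 h3, k]
  · obtain ⟨j, hj⟩ := b.cov (F.symm p)
    exact ⟨j, f2 j ▸ ⟨_, hj, F.apply_symm_apply p⟩⟩
  · rw [HH, tr1_conj (hE_rot h e), b.rotH, HH]
  · rw [XX, tr1_conj (hE_rot h _), tr1_conj (hE_rot h _), b.rotX, XX, sub_add_cancel,
      add_sub_cancel_right]

theorem tr1_T : ∃ T : S3 ≃ₜ S3, T * g 0 = g 0 * T ∧ T '' Cap 0 = Far (XX h) ∧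
    T '' Sb 0 = HH h 0 ∪ HH h 3 ∧ (∀ p, (∀ k : ℕ, (g 0 ^ k) p ∉ Uq 0) → T p = p) ∧
    (∀ p ∈ Sp 0, T p = hE h 0 p) ∧ ∀ p, T p ∈ Uu 0 ↔ p ∈ Uu 0 := by
  obtain ⟨F, f1, f2, f3, f4⟩ := exists_all hh
  obtain ⟨Θ, th, ex⟩ := hh.ex
  have e0 : hE h 0 = h := by simp [hE]
  have s1 : ∀ p, p ∉ Uq 0 → (hE h 3 * Θ) p = p := fun p hp => by
    change hE h 3 (Θ p) = p
    rw [th.supp p fun k => hp ⟨k.1, by linarith [k.2.2, show av (0 - 1) p.1 = av 5 p.1 from rfl],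
      by linarith [k.2.1, show av (0 + 2) p.1 = av 2 p.1 from rfl]⟩]
    exact tr1_sp hh 3 p fun k => hp (Sp_nest 0 k)
  have s2 : ∀ p, p ∉ Uu 0 → (hE h 3 * Θ) p = p := fun p hp => s1 p fun k => hp k.1
  have tU : ∀ p ∈ Uu 0, (h * (hE h 3 * Θ)) p = (hE h 3 * Θ) p := fun p hp =>
    hh.supp _ (tr1_US (kitC_mem s2 hp))
  have tS : ∀ p, p ∉ Uu 0 → (h * (hE h 3 * Θ)) p = h p := fun p hp => congrArg h (s2 p hp)
  have tk : ∀ y ∈ Uu 0, ∀ k : ℕ, (h * (hE h 3 * Θ)) ((g 0 ^ k) y) =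
      (g 0 ^ k) ((hE h 3 * Θ) y) := fun y hy k => by
    rw [pow_eq_pow_mod _ (g_cube 0)]
    rcases (by omega : k % 3 = 0 ∨ k % 3 = 1 ∨ k % 3 = 2) with e | e | e <;> rw [e]
    · exact tU y hy
    · rw [tS _ fun z => tr1_US z (Or.inl ⟨y, hy, by rw [pow_one]⟩)]
      exact ex y hy 1 (Or.inl rfl)
    · rw [tS _ fun z => tr1_US z (Or.inr ⟨y, hy, rfl⟩)]
      exact ex y hy 2 (Or.inr rfl)
  have t0 : ∀ p, p ∉ cyc (g 0) (Uu 0) → (h * (hE h 3 * Θ)) p = p := fun p hp => by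
    rw [mem_cyc, union_assoc] at hp
    rw [tS p fun z => hp (Or.inl z)]
    exact hh.supp p fun z => hp (Or.inr z)
  have G : ∀ W : Set S3, (∀ e, e ≠ 0 → e ≠ 3 → Sp e ⊆ W ∨ Disjoint (Sp e) W) →
      (h * hE h 3 : S3 ≃ₜ S3) '' W = F '' W := fun W hW => tr1_img fun p => by
    have o : ∀ q, q ∉ Sp 0 → q ∉ Sp 3 → (h * hE h 3 : S3 ≃ₜ S3) q = q := fun q a b => by
      change h (hE h 3 q) = q
      rw [tr1_sp hh 3 q b, hh.supp q a]
    by_cases k : ∃ e, p ∈ Sp e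
    · obtain ⟨e, k⟩ := k
      obtain ⟨u, v⟩ := f4 e p k
      by_cases z0 : e = 0
      · subst z0
        left
        change _ = h (hE h 3 p)
        rw [u, e0, tr1_sp hh 3 p (Set.disjoint_left.1 (Sp_disj (by decide)) k)]
      by_cases z3 : e = 3
      · subst z3
        left
        change _ = h (hE h 3 p)
        rw [← u, hh.supp _ (Set.disjoint_left.1 (Sp_disj (by decide)) v)]
      · exact Or.inr ⟨Sp e, k, v, o _ (Set.disjoint_left.1 (Sp_disj z0) v)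
          (Set.disjoint_left.1 (Sp_disj z3) v), hW e z0 z3⟩
    · rw [o p (fun z => k ⟨0, z⟩) fun z => k ⟨3, z⟩]
      exact Or.inl (f3 p fun e z => k ⟨e, Sq_Sp e z⟩)
  have im : ∀ W : Set S3, (h * (hE h 3 * Θ) : S3 ≃ₜ S3) '' W =
      (h * hE h 3 : S3 ≃ₜ S3) '' (Θ '' W) := fun W => by rw [image_image]; rfl
  refine ⟨h * (hE h 3 * Θ), Homeomorph.ext fun p => ?_, ?_, ?_, fun p hp => ?_,
    fun p hp => by rw [e0]; exact tS p fun z => tr1_US z hp, fun p => ?_⟩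
  · change (h * (hE h 3 * Θ)) (g 0 p) = g 0 ((h * (hE h 3 * Θ)) p)
    by_cases k : p ∈ cyc (g 0) (Uu 0)
    · obtain ⟨k, hk⟩ := k
      have e : p = (g 0 ^ (2 * k)) ((g 0 ^ k) p) := by
        rw [sym_pw, show 2 * k + k = 0 + 3 * k by omega, sym_p3]; rfl
      have e' : ∀ (l : ℕ) q, g 0 ((g 0 ^ l) q) = (g 0 ^ (l + 1)) q := fun l q => by
        rw [pow_succ']; rfl
      generalize (g 0 ^ k) p = y at hk e
      rw [e, e', tk y hk, tk y hk, e']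
    · rw [t0 p k, t0 _ fun ⟨l, hl⟩ => k ⟨l + 1, by rw [pow_succ]; exact hl⟩]
  · rw [im, th.cap, G, image_union, image_union, f2, f2, f2, Far]
    intro e z0 z3
    have d : ∀ e : Fin 6, (∀ j : Fin 6, j = 1 ∨ j = 2 ∨ j = 3 → j ≠ e ∧ j ≠ e + 1) →
        Disjoint (Sp e) (Xp 1 ∪ Xp 2 ∪ Xp 3) := fun e k => by
      rw [disjoint_union_right, disjoint_union_right]
      exact ⟨⟨Sp_Xp (k 1 (by simp)).1 (k 1 (by simp)).2, Sp_Xp (k 2 (by simp)).1 (k 2 (by simp)).2⟩,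
        Sp_Xp (k 3 (by simp)).1 (k 3 (by simp)).2⟩
    fin_cases e
    · exact absurd rfl z0
    · exact Or.inl fun p hp => Or.inl ((Sp_out 1 hp).imp Or.inr Or.inr)
    · exact Or.inl fun p hp => (Sp_out 2 hp).elim (fun a => Or.inl (Or.inr (Or.inr a)))
        fun a => Or.inr (Or.inr a)
    · exact absurd rfl z3
    · exact Or.inr (d 4 (by decide))
    · exact Or.inr (d 5 (by decide))
  · rw [im, th.sph, G, image_union, f1, f1]
    exact fun e z0 z3 => Or.inr (disjoint_union_right.2 ⟨Sp_Hp z0, Sp_Hp z3⟩)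
  · have k : p ∉ cyc (g 0) (Uq 0) := fun ⟨k, z⟩ => hp k z
    rw [mem_cyc, union_assoc] at k
    change h ((hE h 3 * Θ) p) = p
    rw [s1 p fun z => k (Or.inl z), ← e0]
    exact hh.supq 0 p fun z => k (Or.inr z)
  · refine ⟨fun k => by_contra fun z => ?_, fun k => by rw [tU p k]; exact kitC_mem s2 k⟩
    rw [tS p z] at k
    exact z (h.injective (hh.supp _ (tr1_US k)) ▸ k)

/-- `Far` is the image of `Cap 0` under T = ∏ g^k (hE h 3 ∘ Θ) g^(-k) = h ∘ hE h 3 ∘ Θ, which commutes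
with `g 0` and is supported in the three images of `Uq 0` -/
theorem exists_T : ∃ T : S3 ≃ₜ S3, T * g 0 = g 0 * T ∧ T '' Cap 0 = Far (XX h) ∧
    T '' {p | av 0 p.1 ≤ av 1 p.1} = Near (XX h) ∧ T '' Sb 0 = HH h 0 ∪ HH h 3 ∧
    ∀ p, (∀ k : ℕ, (g 0 ^ k) p ∉ Uq 0) → T p = p := by
  obtain ⟨T, t1, t2, t3, t4, -⟩ := tr1_T hh
  refine ⟨T, t1, t2, ?_, t3, t4⟩
  ext q
  obtain ⟨p, rfl⟩ := T.surjective q
  rw [tr1_nf (book_t hh), ← t2, ← t3, T.injective.mem_set_image, T.injective.mem_set_image,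
    T.injective.mem_set_image]
  exact tr1_near p

theorem tr1_dec : HH h 0 = Pn ∪ g 0 '' HH h 3 ∪ (g 0 ^ 2 : S3 ≃ₜ S3) '' HH h 3 := by
  obtain ⟨T, t1, -, t3, -, t5, t6⟩ := tr1_T hh
  have cm : ∀ (k : ℕ) y, T ((g 0 ^ k) y) = (g 0 ^ k) (T y) := fun k y =>
    DFunLike.congr_fun (Commute.pow_right t1 k).eq y
  have an : ∀ p, p ∈ Ann 0 ↔ p ∈ HH h 0 ∧ p ∈ Uu 0 := fun p => by
    rw [← (Xp_Kt 0).2.2]
    exact and_congr_left fun k => (tr1_fix (tr1_sp hh 0 p (tr1_US k)) _).symm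
  have h3 : HH h 3 ⊆ Uu 0 := by
    rintro _ ⟨p, hp, rfl⟩
    exact kitC_mem (fun q hq => tr1_sp hh 3 q fun z => hq (Sp_nest 0 z).1) (tr1_H3 hp)
  have sp : ∀ k : ℕ, k = 1 ∨ k = 2 → ∀ y ∈ Uu 0, (g 0 ^ k) y ∈ Sp 0 := by
    rintro k (rfl | rfl) y hy
    · exact Or.inl ⟨y, hy, by rw [pow_one]⟩
    · exact Or.inr ⟨y, hy, rfl⟩
  have sp' : ∀ p ∈ Sp 0, ∃ k : ℕ, (k = 1 ∨ k = 2) ∧ ∃ y ∈ Uu 0, p = (g 0 ^ k) y := by
    rintro _ (⟨y, hy, rfl⟩ | ⟨y, hy, rfl⟩)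
    · exact ⟨1, Or.inl rfl, y, hy, by rw [pow_one]⟩
    · exact ⟨2, Or.inr rfl, y, hy, rfl⟩
  have bk : ∀ (k : ℕ) y, (g 0 ^ (2 * k)) ((g 0 ^ k) y) = y := fun k y => by
    rw [sym_pw, show 2 * k + k = 0 + 3 * k by omega, sym_p3]; rfl
  have up : ∀ k : ℕ, k = 1 ∨ k = 2 → ∀ y ∈ HH h 0 ∪ HH h 3, y ∈ Uu 0 → (g 0 ^ k) y ∈ HH h 0 := by
    intro k hk y hy hu
    rw [← t3] at hy
    obtain ⟨x, hx, rfl⟩ := hy
    have m := sp k hk x ((t6 x).1 hu)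
    have s : av 0 ((g 0 ^ k) x).1 = av (0 + 1) ((g 0 ^ k) x).1 := (tr1_Sb k x).2 hx
    rw [← cm, t5 _ m]
    refine ⟨_, Or.inr ⟨s, by_contra fun z => (Sp_facts m).2.2.2.2.2.2 ⟨?_, ?_⟩⟩, rfl⟩ <;> linarith
  have cy : ∀ p ∈ cyc (g 0) (Ann 0), p ∈ HH h 0 := fun p hp => by
    rw [mem_cyc] at hp
    rcases hp with (hp | ⟨y, hy, rfl⟩) | ⟨y, hy, rfl⟩
    · exact ((an p).1 hp).1
    · have := up 1 (Or.inl rfl) y (Or.inl ((an y).1 hy).1) ((an y).1 hy).2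
      rwa [pow_one] at this
    · exact up 2 (Or.inr rfl) y (Or.inl ((an y).1 hy).1) ((an y).1 hy).2
  refine Subset.antisymm ?_ ?_
  · rintro _ ⟨p, hp, rfl⟩
    rcases hp with hp | ⟨h1, h2⟩
    · rw [tr1_sp hh 0 p (tr1_US ((an p).1 hp).2)]
      exact Or.inl (Or.inl (Or.inr ⟨0, hp⟩))
    by_cases m : p ∈ Sp 0
    · obtain ⟨k, hk, y, hy, rfl⟩ := sp' p m
      rw [← t5 _ m, cm]
      have z : T y ∈ HH h 0 ∪ HH h 3 := t3 ▸ mem_image_of_mem T ((tr1_Sb k y).1 h1)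
      rcases z with z | z
      · exact Or.inl (Or.inl (Or.inr ⟨2 * k, by rw [bk]; exact (an _).2 ⟨z, (t6 y).2 hy⟩⟩))
      · rcases hk with rfl | rfl
        · exact Or.inl (Or.inr ⟨_, z, by rw [pow_one]⟩)
        · exact Or.inr ⟨_, z, rfl⟩
    · rw [tr1_sp hh 0 p m]
      refine Or.inl (Or.inl (Or.inl ⟨h1, fun k => by_contra fun z => ?_⟩))
      have s : av 0 ((g 0 ^ k) p).1 = av (0 + 1) ((g 0 ^ k) p).1 := (tr1_Sb k p).2 h1
      have u : (g 0 ^ k) p ∈ Uu 0 := ⟨by linarith, by linarith⟩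
      have e := bk k p
      rw [pow_eq_pow_mod _ (g_cube 0)] at e
      rcases (by omega : 2 * k % 3 = 0 ∨ 2 * k % 3 = 1 ∨ 2 * k % 3 = 2) with c | c
      · rw [c] at e
        exact z (by rw [show (g 0 ^ k) p = p from e]; exact h2)
      · exact m (e ▸ sp _ c _ u)
  · rintro p ((hp | ⟨y, hy, rfl⟩) | ⟨y, hy, rfl⟩)
    · rcases hp with ⟨h1, h2⟩ | hp
      · by_cases m : p ∈ Sp 0
        · obtain ⟨k, -, y, hy, rfl⟩ := sp' p m
          have a := h2 (2 * k)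
          have s : av 0 y.1 = av (0 + 1) y.1 := (tr1_Sb k y).1 h1
          rw [bk] at a
          exact cy _ ⟨2 * k, by
            rw [bk]; exact rad_self _ ⟨le_antisymm a hy.1, s ▸ le_antisymm a hy.1⟩⟩
        · exact (tr1_fix (tr1_sp hh 0 p m) _).2 (Or.inr ⟨h1, h2 0⟩)
      · exact cy p hp
    · have := up 1 (Or.inl rfl) y (Or.inr hy) (h3 hy)
      rwa [pow_one] at this
    · exact up 2 (Or.inr rfl) y (Or.inr hy) (h3 hy)

theorem wall_t : Wall (HH h) (XX h) := by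
  obtain ⟨T, t1, t2, t3, -, t5⟩ := exists_T hh
  have cl : ∀ j p, p ∉ Sq (j - 1) → p ∉ Sq j → (p ∈ XX h j ↔ p ∈ Xp j) := fun j p a b =>
    (tr1_fix (hh.supq _ p a) _).trans (tr1_fix (hh.supq _ p b) _)
  have iv : ∀ W : Set S3, (∀ p, g 0 p ∈ W ↔ p ∈ W) → g 0 '' (T '' W) = T '' W := fun W k => by
    rw [tr1_conj t1.symm]
    congr 1
    ext q
    obtain ⟨p, rfl⟩ := (g 0).surjective q
    rw [(g 0).injective.mem_set_image, k]
  have hl' : ∀ W : Set S3, T '' W ⊆ W ∪ {p | ∃ k : ℕ, (g 0 ^ k) p ∈ Uq 0} := fun W p hp => by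
    by_cases k : ∃ k : ℕ, (g 0 ^ k) p ∈ Uq 0
    · exact Or.inr k
    · exact Or.inl ((tr1_fix (t5 p fun l z => k ⟨l, z⟩) W).1 hp)
  have b := (book_t hh).hh 0 3 (by decide)
  refine ⟨fun j p hp => ?_, cl, fun e p a => tr1_fix (hh.supq e p a) _, ?_, ?_, ?_, ?_,
    tr1_dec hh, Subset.antisymm (fun p hp => b.le ⟨?_, hp.2⟩) fun p hp =>
      ⟨Or.inr ⟨0, kc_Ann 0 hp⟩, (b.ge hp).2⟩⟩
  · by_cases a : p ∈ Sq (j - 1)
    · exact Or.inl (Or.inr a)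
    by_cases c : p ∈ Sq j
    · exact Or.inr c
    · exact Or.inl (Or.inl ((cl j p a c).1 hp))
  · rw [← t2]
    exact iv _ fun p => (g_Sb 0 p).2
  · rw [← t3]
    refine iv _ fun p => ?_
    rw [mem_ofPred_eq, mem_ofPred_eq, tr1_near, tr1_near, (g_Sb 0 p).1, (g_Sb 0 p).2]
  · rw [← t2]
    exact hl' _
  · rw [← t3]
    exact hl' _
  · rw [tr1_dec hh]
    exact Or.inl (Or.inl hp.1)

end Pool.Agent.Lib.MP_b7d179_gt.Gm
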