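import Pool.Agent.Lib.MP_b7d179_gt.G.Hull
import Pool.Agent.Lib.MP_b7d179_gt.G.Supp

/-! The core, the far balls and the tripod balls. -/

namespace Pool.Agent.Lib.MP_b7d179_gt.Gm

open Set Metric Complex Stmt

theorem t2_pow {γ : S3 ≃ₜ S3} {P : S3 → Prop} (h : ∀ p, P (γ p) ↔ P p) (k : ℕ) (p : S3) :
    P ((γ ^ k) p) ↔ P p := by
  induction k with
  | zero => rfl
  | succ k ih =>
    rw [pow_succ']
    exact (h _).trans ih

theorem t2_img {γ : S3 ≃ₜ S3} {F F' : Set S3} (h : γ '' F = F') (p : S3) : γ p ∈ F' ↔ p ∈ F := by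
  rw [← h]
  exact γ.injective.mem_set_image

theorem t2_le (e : Fin 6) (p : S3) :
    av e (g e p).1 ≤ av (e + 1) (g e p).1 ↔ av e p.1 ≤ av (e + 1) p.1 := by
  obtain ⟨a, b⟩ := g_Sb e p
  rw [le_iff_eq_or_lt, le_iff_eq_or_lt, ← not_le, ← not_le]
  exact or_congr a b.not

theorem t2_Sq {e : Fin 6} {q : S3} (h : q ∈ Sq e) : ∃ k : ℕ, (g e ^ k) q ∈ Uq e := by
  rcases h with ⟨y, hy, rfl⟩ | ⟨y, hy, rfl⟩
  · refine ⟨2, ?_⟩
    rwa [show (g e ^ 2) (g e y) = (g e ^ 3) y from by rw [pow_succ _ 2]; rfl, g_cube]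
  · refine ⟨1, ?_⟩
    rwa [show (g e ^ 1) ((g e ^ 2 : S3 ≃ₜ S3) y) = (g e ^ 3) y from by
      rw [pow_succ' _ 2, pow_one]; rfl, g_cube]

theorem t2_out {e : Fin 6} {p : S3} (hp : p ∈ Sp e) : (av e p.1 ≤ av (e + 1) p.1 → p ∈ Out e) ∧
    (av (e + 1) p.1 ≤ av e p.1 → p ∈ Out (e + 1)) := by
  obtain ⟨a1, a2, -, -, -, -, a3⟩ := Sp_facts hp
  have i : ∀ e : Fin 6, e + 1 - 1 = e ∧ e + 1 + 1 = e + 2 := by decide
  refine ⟨fun h => ⟨a2.le, h, ?_⟩, fun h => ⟨by rwa [(i e).1], by rw [(i e).2]; exact a1.le, ?_⟩⟩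
  · have := le_min a2.le h
    have k : av e p.1 < 11 / 8 := lt_of_not_ge fun k => a3 ⟨k, k.trans h⟩
    unfold kk
    linarith
  · have := le_min h a1.le
    have k : av (e + 1) p.1 < 11 / 8 := lt_of_not_ge fun k => a3 ⟨k.trans h, k⟩
    unfold kk
    rw [(i e).1, (i e).2]
    linarith

theorem t2_not {e : Fin 6} {p : S3} (h0 : 11 / 8 ≤ av e p.1) (h1 : 11 / 8 ≤ av (e + 1) p.1) :
    p ∉ Sq e := fun h => (Sp_facts (Sq_Sp e h)).2.2.2.2.2.2 ⟨h0, h1⟩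

theorem t2_Uq {e : Fin 6} {p : S3} (h : p ∈ Uq e) : p ∉ Sq (e - 1) ∧ p ∉ Sq e ∧ p ∉ Sq (e + 1) := by
  have i : ∀ e : Fin 6, e - 1 + 1 = e ∧ e + 1 + 1 = e + 2 := by decide
  have a : 11 / 8 ≤ av e p.1 := le_trans (by norm_num) h.1.1
  have b : 11 / 8 ≤ av (e + 1) p.1 := le_trans (by norm_num) h.1.2
  exact ⟨t2_not h.2.1 (by rwa [(i e).1]), t2_not a b, t2_not b (by rw [(i e).2]; exact h.2.2)⟩

theorem t2_gg (a b : ℕ) (p : S3) : gg a b p = (g 5 ^ a) ((g 0 ^ b) p) ∧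
    gg a b p = (g 0 ^ b) ((g 5 ^ a) p) := by
  have h : Commute (g 5) (g 0) := g_comm 5
  exact ⟨rfl, by rw [gg, (h.pow_pow a b).eq]; rfl⟩

theorem t2_ss (p : S3) : sw (sw p) = p := DFunLike.congr_fun sw_sw p

theorem t2_g0 (p : S3) : rot (sw (g 0 p)) = g 0 (rot (sw p)) := by
  rw [hull_sw, hull_rot]
  rfl

theorem t2_g0k (k : ℕ) (q : S3) : (g 0 ^ k) (rot (sw q)) = rot (sw ((g 0 ^ k) q)) := by
  induction k with
  | zero => rfl
  | succ k ih =>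
    rw [pow_succ']
    change g 0 ((g 0 ^ k) (rot (sw q))) = rot (sw (g 0 ((g 0 ^ k) q)))
    rw [ih, t2_g0]

theorem t2_core : Pn ⊆ Core := by
  rintro p (h | ⟨k, h⟩)
  · exact .inl (Vt_Sb.ge h).1
  · exact .inr ⟨0, k, (Six_Kt 0).2.1 h⟩

theorem t2_far {F : Set S3} (h1 : ∀ p, g 0 p ∈ F ↔ p ∈ F) (h2 : F ⊆ FH)
    (h3 : ∀ p ∈ F, (∀ e, p ∉ Sp e) → p ∈ Xp 1 ∪ Xp 2 ∪ Xp 3) : Core ∩ F ⊆ Pn := by
  have key : ∀ q ∈ F, (∀ e, q ∉ Sp e) → q ∈ Xp 0 → q ∈ Hp 0 := by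
    intro q a b c
    rcases h3 q a b with (d | d) | d
    · exact (Xp_adj 0).le ⟨c, d⟩
    · exact .inl (kc_Ann 0 ((Xp_far (by decide) (by decide) (by decide)).le ⟨c, d⟩))
    · exact .inl (kc_Ann 0 ((Xp_far (by decide) (by decide) (by decide)).le ⟨c, d⟩))
  rintro p ⟨hp | ⟨a, c, hp⟩, hF⟩
  · rcases h2 hF with h | ⟨k, h⟩
    · exact .inl (Vt_Sb.le ⟨hp, le_antisymm (hp 0 0).2.1 h⟩)
    · have v := (t2_pow (P := (· ∈ Vt)) (fun q => (sym_Vt (γ := g 0) (by simp) q).1) k p).2 hp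
      refine .inr ⟨k, (Xp_Kt 0).2.2.le ⟨key _ ((t2_pow h1 k p).2 hF) (fun e he => ?_)
        (.inr (v 0 0)), h.1⟩⟩
      linarith [(Vt_clean v e he).2, h.1.1]
  · have f := (t2_pow h1 c p).2 hF
    have k := hull_KL hp
    have u : FH ⊆ hullW := union_subset subset_union_right fun _ ⟨_, h⟩ => hull_Uq h
    have e := hull_free.pow (u (h2 f))
      (k := a) (.inl ⟨0, le_trans (by norm_num) (k 0), le_trans (by norm_num) (k 5)⟩)
    rw [(t2_gg a c p).1, e] at hp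
    exact .inr ⟨c, (Xp_Kt 0).2.1.le ⟨key _ f (fun e he =>
      Set.disjoint_left.1 (Sp_KL e) he (hull_KL hp)) (.inl hp), (Six_Kt 0).1 hp⟩⟩

theorem t2_Vt {p : S3} (h : ∀ a b, gg a b p ∈ Out 0 ∪ Sq 5 ∪ Sq 0) : p ∈ Vt := by
  intro a b
  rcases h a b with (q | q) | q
  · exact q
  · obtain ⟨k, y⟩ := t2_Sq q
    have e : (g 5 ^ k) (gg a b p) = gg (k + a) b p := by
      rw [gg, gg, pow_add, mul_assoc]
      rfl
    refine (t2_out (Sq_Sp _ q)).2 ((t2_pow (P := (· ∈ Cap 5)) (fun q => (g_Sb 5 q).2) k _).1 ?_)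
    rcases h (k + a) b with (z | z) | z <;> rw [← e] at z
    · exact z.1
    · exact ((t2_Uq y).2.1 z).elim
    · exact ((t2_Uq y).2.2 z).elim
  · obtain ⟨k, y⟩ := t2_Sq q
    have e : (g 0 ^ k) (gg a b p) = gg a (k + b) p := by
      rw [(t2_gg _ _ _).2, (t2_gg _ _ _).2, pow_add]
      rfl
    refine (t2_out (Sq_Sp _ q)).1
      ((t2_pow (P := fun q => av 0 q.1 ≤ av (0 + 1) q.1) (t2_le 0) k _).1 ?_)
    rcases h a (k + b) with (z | z) | z <;> rw [← e] at z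
    · exact z.2.1
    · exact ((t2_Uq y).1 z).elim
    · exact ((t2_Uq y).2.1 z).elim

variable {H X : Fin 6 → Set S3} (b : Book H X) (w : Wall H X)
include b w

theorem farV_rot : rot '' FarV X = Near X ∧ g 5 '' FarV X = FarV X := by
  have a : rot '' FarV X = Near X := by
    rw [FarV, image_union, image_union, b.rotX, b.rotX, b.rotX]
    rfl
  refine ⟨a, ext fun p => ?_⟩
  obtain ⟨q, rfl⟩ := (g 5).surjective p
  rw [(g 5).injective.mem_set_image, ← t2_img a, ← t2_img a, hull_rot]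
  exact (t2_img w.nearI _).symm

omit b in
theorem t2_H : Pn ⊆ H 0 := fun _ h => w.dec.ge (.inl (.inl h))

omit b in
theorem t2_clean {p : S3} (h : ∀ e, p ∉ Sp e) {j : Fin 6} (hp : p ∈ X j) : p ∈ Xp j :=
  (w.clean j p (fun k => h _ (Sq_Sp _ k)) fun k => h _ (Sq_Sp _ k)).1 hp

/-- a point of `Vt` near the chamber is in no support (Vt_clean), so `clean` applies; a point of
`Sq 5` is not in `Far`; off the three images of `Uq 0` use `farH`, `nearH` -/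
theorem core_far : Core ∩ Far X = Pn :=
  Subset.antisymm (t2_far (t2_img w.farI) w.farH fun _ a h =>
    a.imp (Or.imp (t2_clean w h) (t2_clean w h)) (t2_clean w h))
    fun _ h => ⟨t2_core h, .inl (.inl ((b.adj 0).ge (t2_H w h)).2)⟩

theorem core_farV : Core ∩ FarV X = sw '' Pn := by
  have r := t2_img (farV_rot b w).1
  have c : ∀ p, sw p ∈ Core ↔ p ∈ Core := fun p => (sym_Vt (γ := sw) (by simp) p).2.1
  refine Subset.antisymm (fun p hp => ⟨sw p, ?_, t2_ss p⟩) ?_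
  · refine t2_far (F := {q | rot (sw q) ∈ Near X}) (fun q => ?_) (fun q hq => ?_)
      (fun q hq h => ?_) ⟨(c p).2 hp.1, ?_⟩
    · change rot (sw (g 0 q)) ∈ Near X ↔ rot (sw q) ∈ Near X
      rw [t2_g0]
      exact t2_img w.nearI _
    · rcases w.nearH hq with h | ⟨k, h⟩
      · have a0 : av 0 (rot (sw q)).1 = av 1 q.1 := (av_rot 5 _).trans (av_sw 5 q)
        have a1 : av 1 (rot (sw q)).1 = av 0 q.1 := (av_rot 0 _).trans (av_sw 0 q)
        exact .inl (a0.ge.trans (le_trans h a1.le))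
      · rw [t2_g0k] at h
        exact .inr ⟨k, (sw_e 0 _).2.2.2.1.1 ((rot_e 5 _).2.2.2.2.1.1 h)⟩
    · have h' : ∀ e, rot (sw q) ∉ Sp e := fun e he => by
        have i : ∀ e : Fin 6, e = 5 - (-e) + 1 := by decide
        rw [i e] at he
        exact h _ ((sw_e _ q).2.2.2.2.2.2.1.1 ((rot_e _ _).2.2.2.2.2.2.2.1.1 he))
      rcases hq with (a | a) | a
      · exact .inl (.inl ((sw_v 1 q).2.2.2.1.1 ((rot_v 5 _).2.2.2.1.1 (t2_clean w h' a))))
      · exact .inl (.inr ((sw_v 2 q).2.2.2.1.1 ((rot_v 4 _).2.2.2.1.1 (t2_clean w h' a))))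
      · exact .inr ((sw_v 3 q).2.2.2.1.1 ((rot_v 3 _).2.2.2.1.1 (t2_clean w h' a)))
    · change rot (sw (sw p)) ∈ Near X
      rw [t2_ss]
      exact (r p).2 hp.2
  · rintro _ ⟨s, hs, rfl⟩
    exact ⟨(c s).2 (t2_core hs),
      (r _).1 (.inl (.inl ((b.adj 0).ge (t2_H w ((sym_Pn s).2.2.1.2 hs))).1))⟩

theorem core_cov (p : S3) : p ∈ Core ∨ p ∈ cyc (g 5) (Far X) ∨ p ∈ cyc (g 0) (FarV X) := by
  by_contra h
  simp only [not_or] at h
  obtain ⟨h1, h2, h3⟩ := h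
  refine h1 (.inl (t2_Vt fun a c => ?_))
  have f1 : gg a c p ∉ Far X := fun k => h2 ⟨a, by
    rw [(t2_gg a c p).2] at k
    exact (t2_pow (t2_img w.farI) c _).1 k⟩
  have f2 : gg a c p ∉ FarV X := fun k =>
    h3 ⟨c, (t2_pow (t2_img (farV_rot b w).2) a _).1 k⟩
  obtain ⟨j, hj⟩ := b.cov (gg a c p)
  fin_cases j
  · rcases w.hull _ hj with ((k | k) | k) | k
    · exact (h1 (.inr ⟨a, c, k⟩)).elim
    · exact .inl (.inl k)
    · exact .inl (.inr k)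
    · exact .inr k
  · exact (f1 (.inl (.inl hj))).elim
  · exact (f1 (.inl (.inr hj))).elim
  · exact (f1 (.inr hj)).elim
  · exact (f2 (.inl (.inr hj))).elim
  · exact (f2 (.inl (.inl hj))).elim

theorem core_sub : Core ⊆ X 0 := by
  intro p hp
  have f1 : p ∈ Far X → p ∈ X 0 := fun k => ((b.adj 0).ge (t2_H w ((core_far b w).le ⟨hp, k⟩))).1
  have f2 : p ∈ FarV X → p ∈ X 0 := fun k => by
    obtain ⟨s, hs, rfl⟩ := (core_farV b w).le ⟨hp, k⟩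
    exact ((b.adj 5).ge ((t2_img (b.rotH 5) _).1 (t2_H w ((sym_Pn s).2.2.1.2 hs)))).2
  obtain ⟨j, hj⟩ := b.cov p
  fin_cases j
  · exact hj
  · exact f1 (.inl (.inl hj))
  · exact f1 (.inl (.inr hj))
  · exact f1 (.inr hj)
  · exact f2 (.inl (.inr hj))
  · exact f2 (.inl (.inl hj))

theorem free_t : Free (g 5) (Far X) ∧ Free (g 0) (FarV X) ∧ Free (g 0) (X 2 ∪ X 3) ∧
    Free (g 0) (X 5 ∪ X 4) := by
  have r := t2_img (farV_rot b w).1
  refine ⟨fun p h k => far_free p (w.farH h) (w.farH k), fun p h k => ?_,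
    fun p h k => legs_free p (h.imp (w.hull _ ·) (w.hull _ ·)) (k.imp (w.hull _ ·) (w.hull _ ·)),
    fun p h k => legs_free' p (h.imp (w.hull _ ·) (w.hull _ ·)) (k.imp (w.hull _ ·) (w.hull _ ·))⟩
  have := (r _).2 k
  rw [hull_rot] at this
  exact near_free _ (w.nearH ((r p).2 h)) (w.nearH this)

theorem Pn_sub : Pn ⊆ H 0 ∧ kc ⊆ Pn ∧ Pn ∩ (X 2 ∪ X 3) = kc ∧ Pn ∩ (X 5 ∪ X 4) = kc := by
  have k : kc ⊆ Pn := fun _ h => (w.pn3.ge h).1
  have a := fun p (h : p ∈ Pn) => (b.adj 0).ge (t2_H w h)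
  have f1 := b.far 0 2 (by decide) (by decide) (by decide)
  have f2 := b.far 0 3 (by decide) (by decide) (by decide)
  have f3 := b.far 1 5 (by decide) (by decide) (by decide)
  have f4 := b.far 1 4 (by decide) (by decide) (by decide)
  exact ⟨t2_H w, k, Subset.antisymm
    (fun p h => h.2.elim (fun c => f1.le ⟨(a p h.1).1, c⟩) fun c => f2.le ⟨(a p h.1).1, c⟩)
    fun p h => ⟨k h, .inl (f1.ge h).2⟩, Subset.antisymm
    (fun p h => h.2.elim (fun c => f3.le ⟨(a p h.1).2, c⟩) fun c => f4.le ⟨(a p h.1).2, c⟩)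
    fun p h => ⟨k h, .inl (f3.ge h).2⟩⟩

theorem YF_hull : YF H X ⊆ Cap 0 ∪ cyc (g 0) (Six 1) := by
  rintro p ⟨h1, h2⟩
  rcases w.farH h1 with h | ⟨k, h⟩
  · exact .inl h
  · have c := (t2_pow (P := (· ∈ Cap 0)) (fun q => (g_Sb 0 q).2) k p).1
    have x : (g 0 ^ k) p ∈ X 1 := by
      rcases (t2_pow (t2_img w.farI) k p).2 h1 with (a | a) | a
      · exact a
      · exact ((b.adj 1).ge (h2 k (.inl a))).1
      · exact ((b.adj 1).ge (h2 k (.inr a))).1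
    rcases w.hull _ x with ((y | y) | y) | y
    · exact .inr ⟨k, y⟩
    · exact .inl (c y.1)
    · exact ((t2_Uq h).2.1 y).elim
    · exact ((t2_Uq h).2.2 y).elim

theorem YN_hull : YN H X ⊆ {p | av 0 p.1 ≤ av 1 p.1} ∪ cyc (g 0) (Six 0) := by
  rintro p ⟨h1, h2⟩
  rcases w.nearH h1 with h | ⟨k, h⟩
  · exact .inl h
  · have c := (t2_pow (P := fun q => av 0 q.1 ≤ av (0 + 1) q.1) (t2_le 0) k p).1
    have x : (g 0 ^ k) p ∈ X 0 := by
      rcases (t2_pow (t2_img w.nearI) k p).2 h1 with (a | a) | a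
      · exact a
      · exact ((b.adj 5).ge (h2 k (.inl a))).2
      · exact ((b.adj 5).ge (h2 k (.inr a))).2
    rcases w.hull _ x with ((y | y) | y) | y
    · exact .inr ⟨k, y⟩
    · exact .inl (c y.2.1)
    · exact ((t2_Uq h).1 y).elim
    · exact ((t2_Uq h).2.1 y).elim

end Pool.Agent.Lib.MP_b7d179_gt.Gm
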