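import Pool.Agent.Lib.MP_b7d179_gt.G.IneqA

/-! Inequalities for the crossing of the boundary of the vertex cell along a fibre circle. -/

namespace Pool.Agent.Lib.MP_b7d179_gt.Gm

open Complex

theorem tube1_slope {x y : ℝ} (h : 3 / 2 ≤ x ^ 2 + y ^ 2) (h' : x ^ 2 + y ^ 2 ≤ 3) (x0 : 0 < x)
    (y0 : 0 ≤ y) (hA : 1 ≤ (2 - x) ^ 2 + y ^ 2) : 21 / 50 * x < y := by
  by_contra k
  have k1 : y ^ 2 ≤ (21 / 50 * x) ^ 2 := pow_le_pow_left₀ y0 (not_lt.1 k) 2
  have k2 : 9 / 8 ≤ x := by nlinarith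
  have k3 : x ≤ 2 := by nlinarith
  nlinarith [mul_nonneg (sub_nonneg.2 k2) (sub_nonneg.2 k3)]

theorem tube1_chord {x y x' y' p q : ℝ} (e : x ^ 2 + y ^ 2 = x' ^ 2 + y' ^ 2) (hx : x' < x)
    (hy : 0 < y + y') (s : 0 < p * y - q * x + (p * y' - q * x')) :
    p * x' + q * y' < p * x + q * y := by
  have k : (x - x') * (p * y - q * x + (p * y' - q * x')) =
      (y + y') * (p * x + q * y - (p * x' + q * y')) := by linear_combination (-q) * e
  exact sub_pos.1 ((mul_pos_iff_of_pos_left hy).1 (k ▸ mul_pos (sub_pos.2 hx) s))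

theorem tube1_thin {x y a b : ℝ} (hB : a ^ 2 + b ^ 2 ≤ 3 / 2) (h : 3 / 2 ≤ x ^ 2 + y ^ 2)
    (h' : x ^ 2 + y ^ 2 ≤ 3) (x0 : 0 < x) (s : 21 / 50 * x < y) (k : (3 - a) * y + b * x < 0) :
    (2 - x) ^ 2 + y ^ 2 - 8 * ((3 - a) * y + b * x) < (2 - a) ^ 2 + b ^ 2 := by
  have a0 : a ≤ 5 / 4 := by nlinarith
  have m : (3 - a) * (21 / 50 * x) < (3 - a) * y := mul_lt_mul_of_pos_left s (by linarith)
  have k1 : 21 / 50 * (3 - a) < -b := by
    by_contra c
    nlinarith [mul_le_mul_of_nonneg_right (not_lt.1 c) x0.le]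
  have k2 : (21 / 50 * (3 - a)) ^ 2 ≤ (-b) ^ 2 := pow_le_pow_left₀ (by linarith) k1.le 2
  have k3 : a ≤ 41 / 50 := by nlinarith
  have k4 : -b - 21 / 50 * (3 - a) ≤ 7 / 100 := by
    nlinarith [sq_nonneg (a - 2373 / 5000), sq_nonneg (b + 113 / 100)]
  have k5 : -b ≤ 9 / 20 * (3 - a) := by
    nlinarith [sq_nonneg (a - 63 / 125), sq_nonneg (b + 28 / 25)]
  have k6 : y ≤ 9 / 20 * x := by
    by_contra c
    nlinarith [mul_lt_mul_of_pos_left (not_le.1 c) (by linarith : 0 < 3 - a),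
      mul_le_mul_of_nonneg_right k5 x0.le]
  have k7 : y ^ 2 ≤ (9 / 20 * x) ^ 2 := pow_le_pow_left₀ (by linarith) k6 2
  have k8 : 111 / 100 ≤ x := by nlinarith
  have k9 : x ≤ 87 / 50 := by nlinarith
  have l1 : (2 - x) ^ 2 + y ^ 2 ≤ 21 / 20 := by
    nlinarith [mul_nonneg (sub_nonneg.2 k8) (sub_nonneg.2 k9)]
  have l2 : -((3 - a) * y + b * x) ≤ 61 / 500 := by
    nlinarith [mul_le_mul_of_nonneg_right k4 x0.le]
  nlinarith

theorem tube1_real {x y x' y' a b : ℝ} (hB : a ^ 2 + b ^ 2 ≤ 3 / 2)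
    (h : x ^ 2 + y ^ 2 + (a ^ 2 + b ^ 2) = 3) (h' : x' ^ 2 + y' ^ 2 + (a ^ 2 + b ^ 2) = 3)
    (y0 : 0 ≤ y) (y0' : 0 ≤ y') (x0 : 0 < x') (hx : x' < x) (hA : 1 ≤ (2 - x) ^ 2 + y ^ 2)
    (h1 : 9 ≤ 4 * ((3 - x - a) ^ 2 + (y + b) ^ 2) + ((2 - x) ^ 2 + y ^ 2))
    (h2 : 9 ≤ 4 * ((3 - x - a) ^ 2 + (y + b) ^ 2) + ((2 - a) ^ 2 + b ^ 2)) :
    9 < 4 * ((3 - x' - a) ^ 2 + (y' + b) ^ 2) + ((2 - x') ^ 2 + y' ^ 2) ∧
      9 < 4 * ((3 - x' - a) ^ 2 + (y' + b) ^ 2) + ((2 - a) ^ 2 + b ^ 2) := by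
  have n := add_nonneg (sq_nonneg a) (sq_nonneg b)
  have e : x ^ 2 + y ^ 2 = x' ^ 2 + y' ^ 2 := by linarith
  have x1 := x0.trans hx
  have s := tube1_slope (by linarith) (by linarith) x1 y0 hA
  have s' := tube1_slope (by linarith) (by linarith) x0 y0' (by linarith)
  have a0 : 0 < 3 - a := by linarith [sq_nonneg (a - 1), sq_nonneg b]
  have a1 : 0 < 7 - 2 * a := by linarith
  have hy : 0 < y + y' := by linarith
  have c : 0 ≤ 21 / 50 * (7 - 2 * a) + 2 * b := by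
    linarith [sq_nonneg (a - 21 / 50), sq_nonneg (b + 1)]
  have p1 : ∀ u v : ℝ, 0 < u → 21 / 50 * u < v → 0 < (7 - 2 * a) * v - (-2 * b) * u :=
    fun u v u0 k => by linarith [mul_lt_mul_of_pos_left k a1, mul_nonneg c u0.le]
  have c1 := tube1_chord e hx hy (add_pos (p1 x y x1 s) (p1 x' y' x0 s'))
  refine ⟨by linarith, ?_⟩
  rcases le_or_gt 0 ((3 - a) * y + b * x) with k | k
  · have y1 : y < y' := by
      by_contra l
      linarith [pow_le_pow_left₀ y0' (not_lt.1 l) 2, pow_lt_pow_left₀ hx x0.le two_ne_zero]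
    have k1 : x' * y < x * y' := mul_lt_mul'' hx y1 x0.le y0
    have k2 : 0 < (3 - a) * y' + b * x' := by
      refine (mul_pos_iff_of_pos_left x1).1 ?_
      linarith [mul_lt_mul_of_pos_left k1 a0, mul_nonneg x0.le k]
    have c2 := tube1_chord (p := 3 - a) (q := -b) e hx hy (by linarith)
    linarith
  · have t := tube1_thin hB (by linarith) (by linarith) x1 s k
    have m : 0 ≤ (3 - a) * y := mul_nonneg a0.le y0
    have b0 : b < 0 := by
      by_contra l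
      linarith [mul_nonneg (not_lt.1 l) x1.le]
    have X0 : 0 ≤ (3 - a) * x - b * y := by
      linarith [mul_nonneg (neg_pos.2 b0).le y0, mul_pos a0 x1]
    have q : ((3 - a) * x' - b * y') ^ 2 + ((3 - a) * y' + b * x') ^ 2 =
        ((3 - a) * x - b * y) ^ 2 + ((3 - a) * y + b * x) ^ 2 := by
      linear_combination (-((3 - a) ^ 2 + b ^ 2)) * e
    have q' : ((3 - a) * x' - b * y') ^ 2 ≤ ((3 - a) * x - b * y - ((3 - a) * y + b * x)) ^ 2 := by
      linarith [mul_nonneg X0 (neg_pos.2 k).le, sq_nonneg ((3 - a) * y' + b * x')]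
    linarith [(abs_le_of_sq_le_sq' q' (by linarith)).2]

/-- the form that decides on which side of the solid torus a point lies -/
noncomputable def tubeF (A B : ℂ) : ℝ := 4 * normSq (3 - A - B) + min (hh A) (hh B)

theorem tube1_n (A : ℂ) : normSq A = A.re ^ 2 + A.im ^ 2 := by rw [normSq_apply]; ring
theorem tube1_h (A : ℂ) : hh A = (2 - A.re) ^ 2 + A.im ^ 2 := by simp [hh, normSq_apply]; ring
theorem tube1_q (A B : ℂ) :
    normSq (3 - A - B) = (3 - A.re - B.re) ^ 2 + (A.im + B.im) ^ 2 := by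
  simp [normSq_apply]; ring

theorem tube1_far {A B : ℂ} (hA : A.re ≤ 0) (hB : normSq B ≤ 3 / 2) :
    1 < hh A ∧ 9 < tubeF A B := by
  have m : 0 ≤ min (hh A) (hh B) := le_min (normSq_nonneg _) (normSq_nonneg _)
  rw [tube1_n] at hB
  have b : B.re ≤ 5 / 4 := by nlinarith
  rw [tubeF, tube1_q, tube1_h A] at *
  exact ⟨by nlinarith, by nlinarith⟩

theorem tube1_cross {A A' B : ℂ} (hB : normSq B ≤ 3 / 2) (h : normSq A + normSq B = 3)
    (h' : normSq A' + normSq B = 3) (y0 : 0 ≤ A.im) (y0' : 0 ≤ A'.im) (hx : A'.re < A.re)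
    (hA : 1 ≤ hh A) (hF : 9 ≤ tubeF A B) : 1 < hh A' ∧ 9 < tubeF A' B := by
  rcases le_or_gt A'.re 0 with k | k
  · exact tube1_far k hB
  have f1 : 9 ≤ 4 * normSq (3 - A - B) + hh A := hF.trans (by
    rw [tubeF]; gcongr; exact min_le_left _ _)
  have f2 : 9 ≤ 4 * normSq (3 - A - B) + hh B := hF.trans (by
    rw [tubeF]; gcongr; exact min_le_right _ _)
  rw [tubeF, ← min_add_add_left, lt_min_iff]
  simp only [tube1_q] at f1 f2 ⊢
  simp only [tube1_n, tube1_h] at *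
  exact ⟨by nlinarith, tube1_real hB h h' y0 y0' k hx hA f1 f2⟩

/-- the two ends of a fibre do not meet -/
theorem tube1_sep {A B c d : ℂ} (h : normSq A + normSq B ≤ 3) (hc : Om c) (hd : d = 1 ∨ Om d)
    (h1 : 1 ≤ hh A) (h2 : 1 ≤ hh (c * A)) (h3 : 1 ≤ hh B) (h4 : 1 ≤ hh (d * B)) :
    9 < tubeF A B ∨ 9 < tubeF (c * A) (d * B) := by
  by_contra k
  rw [not_or, not_lt, not_lt, tubeF, tubeF] at k
  have k1 := le_min h1 h3
  have k2 := le_min h2 h4
  rcases hd with rfl | hd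
  · have := E1 (A := B) (B := A) (by linarith) hc (by rw [sub_right_comm]; linarith [k.1])
      (by rw [one_mul] at k k2; rw [sub_right_comm]; linarith [k.2])
    linarith
  · have := E2 h hc hd (by linarith [k.1])
    linarith [k.2]

theorem tube1_cap {A B c : ℂ} (h : normSq A + normSq B ≤ 3) (hc : Om c) (k : hh (c * A) ≤ 1) :
    1 < hh A ∧ 9 < tubeF A B := by
  have m : 0 ≤ min (hh A) (hh B) := le_min (normSq_nonneg _) (normSq_nonneg _)
  have := E3 h hc k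
  have := E4 h hc k
  exact ⟨by linarith, by rw [tubeF]; linarith⟩

end Pool.Agent.Lib.MP_b7d179_gt.Gm
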