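import Pool.Agent.Lib.MP_b7d179_gt.G.Tube0
import Pool.Agent.Lib.MP_b7d179_gt.G.Tube1A

/-! The base tube of the vertex cell is the region between two graphs. -/

namespace Pool.Agent.Lib.MP_b7d179_gt.Gm

open Set Metric Complex Stmt

/-- the first coordinate of a point of the fibre -/
noncomputable def tubeA (z : ℂ) (t : ℝ) : ℂ := (√(3 - normSq z) : ℝ) * exp (t * I)

/-- the conditions of the vertex cell that involve the first coordinate `A` -/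
def tubeP (R : ℝ → ℝ → Prop) (A z : ℂ) : Prop := R 1 (hh A) ∧ ∀ b : ℕ, R 9 (tubeF A (w1 ^ b * z))

theorem tube1_all {Q : ℂ → Prop} (z : ℂ) :
    (∀ b : ℕ, Q (w1 ^ b * z)) ↔ Q z ∧ Q (w1 * z) ∧ Q (w1 ^ 2 * z) := by
  refine ⟨fun h => ⟨by simpa using h 0, by simpa using h 1, h 2⟩, fun h b => ?_⟩
  rw [pow_eq_pow_mod b w1_three]
  obtain e | e | e : b % 3 = 0 ∨ b % 3 = 1 ∨ b % 3 = 2 := by omega
  all_goals rw [e]
  exacts [by simpa using h.1, by simpa using h.2.1, h.2.2]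

theorem tube1_w {Q : ℂ → Prop} (z : ℂ) :
    (∀ b : ℕ, Q (w1 ^ b * (w1 * z))) ↔ ∀ b : ℕ, Q (w1 ^ b * z) := by
  refine ⟨fun h b => ?_, fun h b => ?_⟩
  · rw [show w1 ^ b * z = w1 ^ (b + 2) * (w1 * z) by linear_combination (-w1 ^ b * z) * w1_three]
    exact h _
  · rw [← mul_assoc, ← pow_succ]; exact h _

theorem tube1_c {Q : ℂ → Prop} (z : ℂ) : (∀ b : ℕ, Q (w1 ^ b * (starRingEnd ℂ) z)) ↔
    ∀ b : ℕ, Q ((starRingEnd ℂ) (w1 ^ b * z)) := by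
  have e : (w1 ^ 2) ^ 2 = w1 := by linear_combination w1 * w1_three
  rw [tube1_all, tube1_all (Q := fun z => Q ((starRingEnd ℂ) z))]
  simp only [map_mul, map_pow, sym_cw, e]
  exact and_congr_right fun _ => and_comm

theorem tube1_nw (b : ℕ) (z : ℂ) : normSq (w1 ^ b * z) = normSq z := by
  rw [normSq_mul, map_pow, w1_nsq, one_pow, one_mul]

theorem tube1_hc (z : ℂ) : hh ((starRingEnd ℂ) z) = hh z := by simp [tube1_h]

theorem tube1_Pc (R : ℝ → ℝ → Prop) (A z : ℂ) :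
    tubeP R ((starRingEnd ℂ) A) ((starRingEnd ℂ) z) ↔ tubeP R A z := by
  have e : ∀ B, tubeF ((starRingEnd ℂ) A) ((starRingEnd ℂ) B) = tubeF A B := fun B => by
    simp only [tubeF, tube1_hc, tube1_q, conj_re, conj_im]; ring
  rw [tubeP, tube1_c (Q := fun B => R 9 (tubeF _ B)), tube1_hc]
  simp only [e, tubeP]

theorem tube1_Bw {z : ℂ} (h : z ∈ Bz) : w1 * z ∈ Bz :=
  ⟨by simpa [w1_nsq] using h.1, (tube1_w (Q := fun B => 1 ≤ normSq (2 - B)) z).2 h.2⟩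

theorem tube1_Bc {z : ℂ} (h : z ∈ Bz) : (starRingEnd ℂ) z ∈ Bz :=
  ⟨by simpa using h.1, (tube1_c (Q := fun B => 1 ≤ hh B) z).2 fun b => (tube1_hc _).symm ▸ h.2 b⟩

theorem tube1_A {z : ℂ} (h : normSq z ≤ 3 / 2) (t : ℝ) : normSq (tubeA z t) + normSq z = 3 ∧
    ∃ r : ℝ, 1 < r ∧ r < 2 ∧ (tubeA z t).re = r * Real.cos t ∧ (tubeA z t).im = r * Real.sin t ∧
      r = √(3 - normSq z) := by
  have n := normSq_nonneg z
  refine ⟨?_, _, Real.lt_sqrt_of_sq_lt (by linarith), (Real.sqrt_lt' two_pos).2 (by linarith),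
    by rw [tubeA, re_ofReal_mul, exp_ofReal_mul_I_re],
    by rw [tubeA, im_ofReal_mul, exp_ofReal_mul_I_im], rfl⟩
  rw [tubeA, normSq_mul, normSq_ofReal, Real.mul_self_sqrt (by linarith), normSq_eq_norm_sq (exp _),
    norm_exp_ofReal_mul_I]
  ring

theorem tube1_c3 : Real.cos (2 * Real.pi / 3) = -1 / 2 ∧ Real.sin (2 * Real.pi / 3) = √3 / 2 := by
  rw [show 2 * Real.pi / 3 = Real.pi - Real.pi / 3 by ring, Real.cos_pi_sub, Real.sin_pi_sub,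
    Real.cos_pi_div_three, Real.sin_pi_div_three]
  exact ⟨by ring, rfl⟩

theorem tube1_e : exp ((2 * Real.pi / 3 : ℝ) * I) = w1 :=
  Complex.ext ((exp_ofReal_mul_I_re _).trans tube1_c3.1) ((exp_ofReal_mul_I_im _).trans tube1_c3.2)

theorem tube1_A1 (z : ℂ) (t : ℝ) : w1 * tubeA z t = tubeA z (2 * Real.pi / 3 + t) := by
  rw [tubeA, tubeA, ofReal_add, add_mul, exp_add, tube1_e, mul_left_comm]

theorem tube1_A2 (z : ℂ) (t : ℝ) : tubeA ((starRingEnd ℂ) z) (2 * Real.pi / 3 - t) =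
    (starRingEnd ℂ) (w1 ^ 2 * tubeA z t) := by
  have e : (w1 ^ 2) ^ 2 = w1 := by linear_combination w1 * w1_three
  rw [tubeA, tubeA, normSq_conj, map_mul, map_mul, map_pow, sym_cw, e, conj_ofReal, ← exp_conj,
    map_mul, conj_ofReal, conj_I, ofReal_sub, sub_mul, sub_eq_add_neg (_ * I), exp_add, tube1_e,
    mul_neg, mul_left_comm]

theorem tube1_root : ∃ lo : ℂ → ℝ, ContinuousOn lo Bz ∧ ∀ z ∈ Bz, lo z ∈ Ioo 0 (2 * Real.pi / 3) ∧
    ∀ t ∈ Icc 0 (2 * Real.pi / 3), (tubeP (· ≤ ·) (tubeA z t) z ↔ lo z ≤ t) ∧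
      (tubeP (· < ·) (tubeA z t) z ↔ lo z < t) := by
  have p := Real.pi_pos
  obtain ⟨G, cG, h1, h2⟩ : ∃ G : ℂ → ℝ → ℝ, Continuous (fun x : ℂ × ℝ => G x.1 x.2) ∧
      (∀ z t, G z t ≤ 0 ↔ tubeP (· ≤ ·) (tubeA z t) z) ∧
      ∀ z t, G z t < 0 ↔ tubeP (· < ·) (tubeA z t) z := by
    refine ⟨fun z t => max (1 - hh (tubeA z t)) (max (9 - tubeF (tubeA z t) z) (max
      (9 - tubeF (tubeA z t) (w1 * z)) (9 - tubeF (tubeA z t) (w1 ^ 2 * z)))), ?_, fun z t => ?_,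
      fun z t => ?_⟩
    · unfold tubeF hh tubeA; fun_prop
    · rw [tubeP, tube1_all (Q := fun B => 9 ≤ tubeF _ B)]; simp only [max_le_iff, sub_nonpos]
    · rw [tubeP, tube1_all (Q := fun B => 9 < tubeF _ B)]; simp only [max_lt_iff, sub_neg]
  refine (root_spec (G := G) (A := Bz) (s := 0) (t := 2 * Real.pi / 3) (by positivity)
    cG.continuousOn (fun z hz => not_le.1 fun k => ?_) (fun z hz => (h2 _ _).2 ?_)
    fun z hz u hu v hv l k => (h2 _ _).2 ?_).elim fun c h => ⟨_, c, fun z hz => ⟨(h z hz).1,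
      fun t ht => ⟨(h1 z t).symm.trans ((h z hz).2.2 t ht).2, (h2 z t).symm.trans (by
        rw [← not_le, ((h z hz).2.2 t ht).1, not_le])⟩⟩⟩
  · obtain ⟨-, r, r1, r2, e1, e2, -⟩ := tube1_A hz.1 0
    have : 1 ≤ hh _ := ((h1 _ _).1 k).1
    rw [tube1_h, e1, e2, Real.cos_zero, Real.sin_zero] at this
    nlinarith
  · obtain ⟨-, r, r1, -, e1, -⟩ := tube1_A hz.1 (2 * Real.pi / 3)
    have e : (tubeA z (2 * Real.pi / 3)).re ≤ 0 := by rw [e1, tube1_c3.1]; linarith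
    exact ⟨(tube1_far e hz.1).1, fun b => (tube1_far e ((tube1_nw b z).trans_le hz.1)).2⟩
  · obtain ⟨n, r, r1, -, e1, e2, rfl⟩ := tube1_A hz.1 u
    obtain ⟨n', r, -, -, e1', e2', rfl⟩ := tube1_A hz.1 v
    have k := (h1 _ _).1 k
    have s : ∀ t ∈ Icc 0 (2 * Real.pi / 3), t ∈ Icc 0 Real.pi := fun t ht =>
      ⟨ht.1, by linarith [ht.2]⟩
    have := fun b : ℕ => tube1_cross (A' := tubeA z v) ((tube1_nw b z).trans_le hz.1)
      ((tube1_nw b z).symm ▸ n) ((tube1_nw b z).symm ▸ n')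
      (e2 ▸ mul_nonneg (Real.sqrt_nonneg _) (Real.sin_nonneg_of_mem_Icc (s u hu)))
      (e2' ▸ mul_nonneg (Real.sqrt_nonneg _) (Real.sin_nonneg_of_mem_Icc (s v hv)))
      (e1 ▸ e1' ▸ mul_lt_mul_of_pos_left (Real.strictAntiOn_cos (s u hu) (s v hv) l) (by linarith))
      k.1 (k.2 b)
    exact ⟨(this 0).1, fun b => (this b).2⟩

theorem tube1_two {A z : ℂ} (h : normSq A + normSq z = 3) (hz : z ∈ Bz) :
    tubeP (· < ·) A z ∨ tubeP (· < ·) (w1 ^ 2 * A) z := by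
  have n : ∀ b : ℕ, normSq A + normSq (w1 ^ b * z) ≤ 3 := fun b => by rw [tube1_nw, h]
  rcases le_or_gt (hh A) 1 with k | k
  · have := fun b => tube1_cap (A := w1 ^ 2 * A) ((tube1_nw 2 A).symm ▸ n b) om_w1 (by
      rwa [← mul_assoc, ← pow_succ', w1_three, one_mul])
    exact .inr ⟨(this 0).1, fun b => (this b).2⟩
  rcases le_or_gt (hh (w1 ^ 2 * A)) 1 with l | l
  · have := fun b => tube1_cap (n b) om_w2 l
    exact .inl ⟨k, fun b => (this b).2⟩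
  refine or_iff_not_imp_left.2 fun m => ⟨l, ?_⟩
  obtain ⟨b, hb⟩ := not_forall.1 fun a => m ⟨k, a⟩
  have : ∀ d : ℕ, 9 < tubeF (w1 ^ 2 * A) (w1 ^ d * (w1 ^ b * z)) := fun d => by
    refine (tube1_sep (n b) om_w2 ?_ k.le l.le (hz.2 b) ?_).resolve_left hb
    · simpa using (tube1_all (Q := fun c => c = 1 ∨ Om c) 1).2
        ⟨.inl rfl, .inr (by simpa using om_w1), .inr (by simpa using om_w2)⟩ d
    · rw [← mul_assoc, ← pow_add]; exact hz.2 _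
  intro d
  have e := this (d + 2 * b)
  rwa [← mul_assoc, ← pow_add, add_assoc, show 2 * b + b = 3 * b by ring, pow_add, pow_mul,
    w1_three, one_pow, mul_one] at e

theorem tube1_Vt (p : S3) : p ∈ Vt ↔ (∀ b : ℕ, 1 ≤ hh (w1 ^ b * Z2 p.1)) ∧
    ∀ a : ℕ, tubeP (· ≤ ·) (w1 ^ a * Z1 p.1) (Z2 p.1) :=
  (mem_Vt p).trans ⟨fun h => ⟨h.2.1, fun a => ⟨h.1 a, h.2.2 a⟩⟩,
    fun h => ⟨fun a => (h.2 a).1, h.1, fun a => (h.2 a).2⟩⟩

/-- G (z, t) = max (1 - hh A) (max over b of 9 - 4 |3 - A - w1^b z|² - min (hh A) (hh (w1^b z))),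
A = √(3 - |z|²) exp (i t), crosses zero strictly. -/
theorem exists_lo : ∃ lo : ℂ → ℝ, ContinuousOn lo Bz ∧ (∀ z ∈ Bz, 0 < lo z ∧
      lo z < 2 * Real.pi / 3 - lo ((starRingEnd ℂ) z)) ∧
    (∀ z ∈ Bz, lo (w1 * z) = lo z) ∧
    (∀ p, p ∈ U0 ↔ ∃ z ∈ Bz, ∃ t, lo z ≤ t ∧ t ≤ 2 * Real.pi / 3 - lo ((starRingEnd ℂ) z) ∧
      p = fz z t) ∧
    ∀ z ∈ Bz, ∀ t, lo z ≤ t → t ≤ 2 * Real.pi / 3 - lo ((starRingEnd ℂ) z) →
      (fz z t ∈ Sb 0 ∪ cyc (g 0) (Aj 0) ↔ t = lo z) := by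
  obtain ⟨lo, c, h⟩ := tube1_root
  have pi := Real.pi_pos
  have h' : ∀ z ∈ Bz, ∀ t ∈ Icc 0 (2 * Real.pi / 3),
      (tubeP (· ≤ ·) (w1 ^ 2 * tubeA z t) z ↔ t ≤ 2 * Real.pi / 3 - lo ((starRingEnd ℂ) z)) ∧
      (tubeP (· < ·) (w1 ^ 2 * tubeA z t) z ↔ t < 2 * Real.pi / 3 - lo ((starRingEnd ℂ) z)) :=
    fun z hz t ht => by
      have := (h _ (tube1_Bc hz)).2 (2 * Real.pi / 3 - t) ⟨by linarith [ht.2], by linarith [ht.1]⟩
      rwa [tube1_A2, tube1_Pc, tube1_Pc, le_sub_comm, lt_sub_comm] at this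
  have v : ∀ z ∈ Bz, ∀ t, Z1 (fz z t).1 = tubeA z t ∧ Z2 (fz z t).1 = z := fun z hz t =>
    fz_val (by linarith [hz.1]) t
  have u : ∀ z ∈ Bz, ∀ t, lo z ≤ t → t ≤ 2 * Real.pi / 3 - lo ((starRingEnd ℂ) z) →
      t ∈ Icc 0 (2 * Real.pi / 3) ∧ fz z t ∈ U0 := fun z hz t a b => by
    have t0 : 0 < t := (h z hz).1.1.trans_le a
    have t1 : t < 2 * Real.pi / 3 := by linarith [(h _ (tube1_Bc hz)).1.1]
    have ht : t ∈ Icc 0 (2 * Real.pi / 3) := ⟨t0.le, t1.le⟩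
    obtain ⟨n, r, r1, -, -, e2, -⟩ := tube1_A hz.1 t
    obtain ⟨-, r', r1', -, e1', -⟩ := tube1_A hz.1 (2 * Real.pi / 3 + t)
    obtain ⟨-, s, s1, -, -, e3, -⟩ := tube1_A (tube1_Bc hz).1 (2 * Real.pi / 3 - t)
    have e : (w1 * tubeA z t).re ≤ 0 := by
      rw [tube1_A1, e1']
      exact mul_nonpos_of_nonneg_of_nonpos (by linarith)
        (Real.cos_nonpos_of_pi_div_two_le_of_le (by linarith) (by linarith))
    refine ⟨ht, (tube1_Vt _).2 ?_, ?_, ?_, ?_⟩ <;> simp only [v z hz t]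
    · exact ⟨hz.2, (tube1_all (Q := fun A => tubeP (· ≤ ·) A z) _).2 ⟨((h z hz).2 t ht).1.2 a,
        ⟨(tube1_far e hz.1).1.le, fun b => (tube1_far e ((tube1_nw b z).trans_le hz.1)).2.le⟩,
        (h' z hz t ht).1.2 b⟩⟩
    · linarith [hz.1]
    · exact e2 ▸ mul_pos (by linarith) (Real.sin_pos_of_pos_of_lt_pi t0 (by linarith))
    · rw [tube1_A2, conj_im] at e3
      have := mul_pos (by linarith : 0 < s)
        (Real.sin_pos_of_pos_of_lt_pi (x := 2 * Real.pi / 3 - t) (by linarith) (by linarith))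
      linarith
  refine ⟨lo, c, fun z hz => ⟨(h z hz).1.1, ?_⟩, fun z hz => ?_, fun p => ⟨fun hp => ?_,
    fun ⟨z, hz, t, a, b, e⟩ => e ▸ (u z hz t a b).2⟩, fun z hz t a b => ?_⟩
  · have ht := Ioo_subset_Icc_self (h z hz).1
    exact (h' z hz _ ht).2.1 ((tube1_two (tube1_A hz.1 _).1 hz).resolve_left fun k =>
      lt_irrefl _ (((h z hz).2 _ ht).2.1 k))
  · have e : ∀ t, tubeP (· ≤ ·) (tubeA (w1 * z) t) (w1 * z) ↔ tubeP (· ≤ ·) (tubeA z t) z :=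
      fun t => by
        rw [show tubeA (w1 * z) t = tubeA z t by simp [tubeA, w1_nsq]]
        exact and_congr_right fun _ => tube1_w (Q := fun B => 9 ≤ tubeF _ B) z
    have a := Ioo_subset_Icc_self (h z hz).1
    have b := Ioo_subset_Icc_self (h _ (tube1_Bw hz)).1
    exact le_antisymm (((h _ (tube1_Bw hz)).2 _ a).1.1 ((e _).2 (((h z hz).2 _ a).1.2 le_rfl)))
      (((h z hz).2 _ b).1.1 ((e _).1 (((h _ (tube1_Bw hz)).2 _ b).1.2 le_rfl)))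
  · obtain ⟨a, b, s1, s2⟩ := hp
    obtain ⟨a1, a2⟩ := (tube1_Vt p).1 a
    have n := Z_sph p
    have hz : Z2 p.1 ∈ Bz := ⟨by linarith, a1⟩
    have e : Z1 p.1 = tubeA (Z2 p.1) (arg (Z1 p.1)) := by
      rw [tubeA, ← n, add_sub_cancel_right, ← norm_def, norm_mul_exp_arg_mul_I]
    have ht : arg (Z1 p.1) ∈ Icc 0 (2 * Real.pi / 3) := by
      refine ⟨arg_nonneg_iff.2 s1.le, not_lt.1 fun k => ?_⟩
      obtain ⟨-, s, r1, -, -, e3, -⟩ := tube1_A (tube1_Bc hz).1 (2 * Real.pi / 3 - arg (Z1 p.1))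
      rw [tube1_A2, conj_im, ← e] at e3
      have := mul_nonpos_of_nonneg_of_nonpos (by linarith : 0 ≤ s)
        (Real.sin_nonpos_of_nonpos_of_neg_pi_le (x := 2 * Real.pi / 3 - arg (Z1 p.1))
          (by linarith) (by linarith [arg_le_pi (Z1 p.1)]))
      linarith
    exact ⟨_, hz, _, ((h _ hz).2 _ ht).1.1 (e ▸ by simpa using a2 0),
      (h' _ hz _ ht).1.1 (e ▸ a2 2), ext_Z (e.trans (v _ hz _).1.symm) (v _ hz _).2.symm⟩
  · obtain ⟨ht, hU, -⟩ := u z hz t a b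
    have k : ∀ k : ℕ, (g 0 ^ k) (fz z t) ∈ Aj 0 ↔ tubeF (tubeA z t) (w1 ^ k * z) ≤ 9 := fun k => by
      have o := hU 0 k
      have e := (chart_sets (gg 0 k (fz z t))).2.2.2.2
      have q := QQ_pos (nsq_S3 (gg 0 k (fz z t))).le
      have e' : kk 0 (gg 0 k (fz z t)).1 * QQ (gg 0 k (fz z t)).1 =
          3 * (9 - tubeF (tubeA z t) (w1 ^ k * z)) := by
        rw [e, QQ, (Z_gg _ _ _).1, (Z_gg _ _ _).2, (v z hz t).1, (v z hz t).2, pow_zero, one_mul,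
          tubeF, sub_sub]
      refine (Aj_iff (gg 0 k (fz z t))).trans ⟨fun l => ?_, fun l => ⟨o.1, o.2.1, le_antisymm o.2.2
        (nonneg_of_mul_nonneg_left (by linarith) q), (Out_le o).1⟩⟩
      rw [l.2.2.1, zero_mul] at e'
      linarith
    obtain ⟨p1, p2⟩ := ((h z hz).2 t ht).1.2 a
    rw [eq_comm, ← a.not_lt_iff_eq, ← ((h z hz).2 t ht).2, tubeP, not_and_or, not_forall]
    refine or_congr ?_ (exists_congr fun b => (k b).trans not_lt.symm)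
    rw [(chart_sets _).1, (v z hz t).1, not_lt]
    exact ⟨le_of_eq, fun l => le_antisymm l p1⟩

end Pool.Agent.Lib.MP_b7d179_gt.Gm
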