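import Pool.Agent.Lib.MP_b7d179_gt.G.Tube1
import Pool.Agent.Lib.MP_b7d179_gt.G.Xt

/-! The prism as the region between the extended graphs. -/

namespace Pool.Agent.Lib.MP_b7d179_gt.Gm

open Set Metric Complex Stmt

theorem exists_isLo : ∃ lo, IsLo lo := by
  obtain ⟨lo, a, b, c, d, e⟩ := exists_lo
  exact ⟨lo, a, b, c, d, e⟩

theorem Bz_sym (z : ℂ) : (w1 * z ∈ Bz ↔ z ∈ Bz) ∧ ((starRingEnd ℂ) z ∈ Bz ↔ z ∈ Bz) :=
  ⟨⟨fun h => tubes_back z ▸ t0_rot 2 _ h, tube1_Bw⟩,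
    fun h => conj_conj z ▸ tube1_Bc h, tube1_Bc⟩

theorem fz_sym {z : ℂ} (hz : normSq z ≤ 3) (t : ℝ) : g 0 (fz z t) = fz (w1 * z) t ∧
    g 5 (cj (fz z t)) = fz ((starRingEnd ℂ) z) (2 * Real.pi / 3 - t) := by
  have h1 : normSq (w1 * z) ≤ 3 := (t0_n1 z).symm ▸ hz
  have h2 : normSq ((starRingEnd ℂ) z) ≤ 3 := (normSq_conj z).symm ▸ hz
  have e : (w1 ^ 2) ^ 2 = w1 := by linear_combination w1 * w1_three
  refine ⟨ext_Z ?_ ?_, ext_Z ?_ ?_⟩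
  · rw [(tubes_Z _).1.1, (fz_val hz t).1, (fz_val h1 t).1, t0_n1]
  · rw [(tubes_Z _).1.2, (fz_val hz t).2, (fz_val h1 t).2]
  · rw [(tubes_Zc _).1, (fz_val hz t).1, (fz_val h2 _).1]
    refine Eq.trans ?_ (tube1_A2 z t).symm
    rw [map_mul (starRingEnd ℂ) (w1 ^ 2), map_pow, sym_cw, e, tubeA]
  · rw [(tubes_Zc _).2, (fz_val hz t).2, (fz_val h2 _).2]

theorem tube2_n {z : ℂ} (hz : z ∈ Bz) : normSq z ≤ 3 := by linarith [hz.1]

theorem tube2_closed : IsClosed Bz := by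
  obtain ⟨φ, h, e, -⟩ := Bz_disc
  exact e ▸ (h.compact subset_rfl (isCompact_closedBall 0 1)).isClosed

theorem tube2_btw {a b : ℂ → ℝ} (ha : ContinuousOn a Bz) (hb : ContinuousOn b Bz) :
    IsClosed (btw Bz a b) := by
  have c : IsClosed {x : ℂ × ℝ | x.1 ∈ Bz} := tube2_closed.preimage continuous_fst
  have f : ∀ {a : ℂ → ℝ}, ContinuousOn a Bz →
      ContinuousOn (fun x : ℂ × ℝ => a x.1) {x : ℂ × ℝ | x.1 ∈ Bz} := fun h =>
    h.comp continuousOn_fst fun _ m => m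
  have := (c.isClosed_le (f ha) continuousOn_snd).inter (c.isClosed_le continuousOn_snd (f hb))
  convert this using 1
  ext x
  exact ⟨fun h => ⟨⟨h.1, h.2.1⟩, h.1, h.2.2⟩, fun h => ⟨h.1.1, h.1.2, h.2.2⟩⟩

variable {lo : ℂ → ℝ} (l : IsLo lo)
include l

theorem tube2_U0 {z : ℂ} (hz : z ∈ Bz) {t : ℝ} (h1 : lo z ≤ t) (h2 : t ≤ hiO lo z) :
    fz z t ∈ U0 := (l.mem _).2 ⟨z, hz, t, h1, h2, rfl⟩

theorem tube2_Icc {z : ℂ} (hz : z ∈ Bz) {t : ℝ} (h1 : lo z ≤ t) (h2 : t ≤ hiO lo z) :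
    (z, t) ∈ Bz ×ˢ Icc 0 (2 * Real.pi / 3) :=
  ⟨hz, (l.pos z hz).1.le.trans h1, h2.trans (sub_le_self _ (l.pos _ (tube1_Bc hz)).1.le)⟩

theorem IsLo.bd {z : ℂ} (hz : z ∈ Bz) {t : ℝ} (h1 : lo z ≤ t) (h2 : t ≤ hiO lo z) :
    fz z t ∈ Bd ↔ t = lo z ∨ t = hiO lo z ∨ ∃ b : ℕ, hh (w1 ^ b * z) = 1 := by
  rw [U0_Bd (tube2_U0 l hz h1 h2), l.bot z hz t h1 h2, (fz_sym (tube2_n hz) t).2,
    l.bot _ (tube1_Bc hz) _ (le_sub_comm.1 h2) (by rw [hiO, conj_conj]; linarith)]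
  refine or_congr_right (or_congr ?_ (exists_congr fun b => ?_))
  · rw [hiO]
    constructor <;> intro h <;> linarith
  · rw [(chart_sets _).2.1, ← tubes_g0, (Z_gg _ _ _).2, (fz_val (tube2_n hz) t).2]

theorem IsLo.bu {z : ℂ} (hz : z ∈ Bz) {t : ℝ} (h1 : lo z ≤ t) (h2 : t ≤ hiO lo z) :
    fz z t ∈ Bu → t = lo z := by
  rintro ⟨-, k, h | h⟩
  · refine (l.bot z hz t h1 h2).1 (.inl ?_)
    rw [(chart_sets _).1, ← tubes_g0, (Z_gg _ _ _).1, pow_zero, one_mul] at h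
    exact (chart_sets _).1.2 h
  · exact (l.bot z hz t h1 h2).1 (.inr ⟨k, h.1⟩)

theorem tube2_bd {z : ℂ} (hz : z ∈ Bz) : fz z (lo z) ∈ Bd ∧ fz z (hiO lo z) ∈ Bd :=
  ⟨(l.bd hz le_rfl (l.pos z hz).2.le).2 (.inl rfl),
    (l.bd hz (l.pos z hz).2.le le_rfl).2 (.inr (.inl rfl))⟩

theorem tube2_hi : ContinuousOn (hiO lo) Bz :=
  continuousOn_const.sub (l.cont.comp continuous_conj.continuousOn fun _ => tube1_Bc)

theorem tube2_cf : ContinuousOn (fun z => fz z (lo z)) Bz ∧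
    ContinuousOn (fun z => fz z (hiO lo z)) Bz :=
  ⟨fz_emb.1.comp (f := fun z => (z, lo z)) (continuousOn_id.prodMk l.cont)
      fun z hz => tube2_Icc l hz le_rfl (l.pos z hz).2.le,
    fz_emb.1.comp (f := fun z => (z, hiO lo z)) (continuousOn_id.prodMk (tube2_hi l))
      fun z hz => tube2_Icc l hz (l.pos z hz).2.le le_rfl⟩

theorem tube2_inj {z z' : ℂ} (hz : z ∈ Bz) (hz' : z' ∈ Bz) {t t' : ℝ} (h1 : lo z ≤ t)
    (h2 : t ≤ hiO lo z) (h1' : lo z' ≤ t') (h2' : t' ≤ hiO lo z') (h : fz z t = fz z' t') :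
    z = z' ∧ t = t' :=
  Prod.ext_iff.1 (fz_emb.2 (tube2_Icc l hz h1 h2) (tube2_Icc l hz' h1' h2') h)

variable {L : S3 → ℝ} {S : S3 × ℝ → S3} (e : IsE L S)
include e

theorem cont_X : ContinuousOn (loX L lo) Bz ∧ ContinuousOn (hiX L lo) Bz ∧
    ∀ z ∈ Bz, loX L lo z ≤ lo z ∧ hiO lo z ≤ hiX L lo z :=
  ⟨l.cont.sub (e.cL.comp (tube2_cf l).1 fun _ hz => (tube2_bd l hz).1),
    (tube2_hi l).add (e.cL.comp (tube2_cf l).2 fun _ hz => (tube2_bd l hz).2),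
    fun _ hz => ⟨sub_le_self _ (e.pos _ (tube2_bd l hz).1),
      le_add_of_nonneg_right (e.pos _ (tube2_bd l hz).2)⟩⟩

/-- the three formulas -/
theorem tube2_val {x : ℂ × ℝ} (hz : x.1 ∈ Bz) :
    (x.2 ≤ lo x.1 → FX S lo x = S (fz x.1 (lo x.1), lo x.1 - x.2)) ∧
    (lo x.1 ≤ x.2 → x.2 ≤ hiO lo x.1 → FX S lo x = fz x.1 x.2) ∧
    (hiO lo x.1 ≤ x.2 → FX S lo x = S (fz x.1 (hiO lo x.1), x.2 - hiO lo x.1)) := by
  have p := (l.pos _ hz).2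
  have m : lo x.1 ≤ x.2 → x.2 ≤ hiO lo x.1 → FX S lo x = fz x.1 x.2 := fun a b => by
    rw [FX, if_neg a.not_gt, if_neg b.not_gt]
  refine ⟨fun a => ?_, m, fun a => ?_⟩
  · rcases a.lt_or_eq with a | a
    · rw [FX, if_pos a]
    · rw [m a.ge (a.trans_le p.le), a, sub_self, e.s0 _ (tube2_bd l hz).1]
  · rcases a.lt_or_eq with a | a
    · rw [FX, if_neg (p.trans a).not_gt, if_pos a]
    · rw [m (p.le.trans_eq a) a.ge, ← a, sub_self, e.s0 _ (tube2_bd l hz).2]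

omit e in
theorem tube2_bt {x : ℂ × ℝ} (hz : x.1 ∈ Bz) :
    (loX L lo x.1 ≤ x.2 → x.2 ≤ lo x.1 → (fz x.1 (lo x.1), lo x.1 - x.2) ∈ bt (U0 ∩ Bd) L) ∧
    (hiO lo x.1 ≤ x.2 → x.2 ≤ hiX L lo x.1 →
      (fz x.1 (hiO lo x.1), x.2 - hiO lo x.1) ∈ bt (U0 ∩ Bd) L) :=
  ⟨fun a b => ⟨⟨tube2_U0 l hz le_rfl (l.pos _ hz).2.le, (tube2_bd l hz).1⟩, sub_nonneg.2 b,
      sub_le_comm.1 a⟩,
    fun a b => ⟨⟨tube2_U0 l hz (l.pos _ hz).2.le le_rfl, (tube2_bd l hz).2⟩, sub_nonneg.2 a,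
      sub_le_iff_le_add'.2 b⟩⟩

/-- the normal form of a point of the region -/
theorem tube2_spec {x : ℂ × ℝ} (hx : x ∈ btw Bz (loX L lo) (hiX L lo)) :
    (lo x.1 ≤ x.2 ∧ x.2 ≤ hiO lo x.1 ∧ FX S lo x = fz x.1 x.2) ∨
      ∃ s r, lo x.1 ≤ s ∧ s ≤ hiO lo x.1 ∧ 0 < r ∧ (fz x.1 s, r) ∈ bt (U0 ∩ Bd) L ∧
        FX S lo x = S (fz x.1 s, r) ∧
        (s = lo x.1 ∧ x.2 = s - r ∨ s = hiO lo x.1 ∧ x.2 = s + r) := by
  obtain ⟨hz, a, b⟩ := hx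
  have p := (l.pos _ hz).2.le
  obtain ⟨v1, v2, v3⟩ := tube2_val l e hz
  rcases lt_or_ge x.2 (lo x.1) with k | k
  · exact .inr ⟨_, _, le_rfl, p, sub_pos.2 k, (tube2_bt l hz).1 a k.le, v1 k.le,
      .inl ⟨rfl, by ring⟩⟩
  rcases lt_or_ge (hiO lo x.1) x.2 with k' | k'
  · exact .inr ⟨_, _, p, le_rfl, sub_pos.2 k', (tube2_bt l hz).2 k'.le b, v3 k'.le,
      .inr ⟨rfl, by ring⟩⟩
  · exact .inl ⟨k, k', v2 k k'⟩

theorem FX_emb : Emb (FX S lo) (btw Bz (loX L lo) (hiX L lo)) := by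
  have sb : ∀ {y : S3 × ℝ}, y ∈ bt (U0 ∩ Bd) L → y ∈ bt Bd L := fun h => ⟨h.1.2, h.2⟩
  obtain ⟨c1, c2, -⟩ := cont_X l e
  have f : ∀ {Y : Type} [TopologicalSpace Y] {u : ℂ → Y} {a b : ℂ → ℝ}, ContinuousOn u Bz →
      ContinuousOn (fun x : ℂ × ℝ => u x.1) (btw Bz a b) := fun h =>
    h.comp continuousOn_fst fun _ m => m.1
  constructor
  · have k1 : ContinuousOn (FX S lo) (btw Bz (loX L lo) lo) :=
      (e.emb.1.comp (f := fun x : ℂ × ℝ => (fz x.1 (lo x.1), lo x.1 - x.2))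
        ((f (tube2_cf l).1).prodMk ((f l.cont).sub continuousOn_snd))
        fun x hx => sb ((tube2_bt l hx.1).1 hx.2.1 hx.2.2)).congr
        fun x hx => (tube2_val l e hx.1).1 hx.2.2
    have k2 : ContinuousOn (FX S lo) (btw Bz lo (hiO lo)) :=
      (fz_emb.1.mono fun x hx => tube2_Icc l hx.1 hx.2.1 hx.2.2).congr
        fun x hx => (tube2_val l e hx.1).2.1 hx.2.1 hx.2.2
    have k3 : ContinuousOn (FX S lo) (btw Bz (hiO lo) (hiX L lo)) :=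
      (e.emb.1.comp (f := fun x : ℂ × ℝ => (fz x.1 (hiO lo x.1), x.2 - hiO lo x.1))
        ((f (tube2_cf l).2).prodMk (continuousOn_snd.sub (f (tube2_hi l))))
        fun x hx => sb ((tube2_bt l hx.1).2 hx.2.1 hx.2.2)).congr
        fun x hx => (tube2_val l e hx.1).2.2 hx.2.1
    have d1 := tube2_btw c1 l.cont
    have d2 := tube2_btw l.cont (tube2_hi l)
    refine ((k1.union_of_isClosed k2 d1 d2).union_of_isClosed k3 (d1.union d2)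
      (tube2_btw (tube2_hi l) c2)).mono fun x hx => ?_
    rcases le_total x.2 (lo x.1) with k | k
    · exact .inl (.inl ⟨hx.1, hx.2.1, k⟩)
    rcases le_total x.2 (hiO lo x.1) with k' | k'
    · exact .inl (.inr ⟨hx.1, k, k'⟩)
    · exact .inr ⟨hx.1, k', hx.2.2⟩
  · intro x hx y hy h
    rcases tube2_spec l e hx with ⟨a, b, v⟩ | ⟨s, r, a, b, r0, m, v, k⟩ <;>
      rcases tube2_spec l e hy with ⟨a', b', v'⟩ | ⟨s', r', a', b', r0', m', v', k'⟩ <;>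
      rw [v, v'] at h
    · exact Prod.ext_iff.2 (tube2_inj l hx.1 hy.1 a b a' b' h)
    · exact absurd (e.out _ (sb m') (h ▸ (tube2_U0 l hx.1 a b).1)) r0'.ne'
    · exact absurd (e.out _ (sb m) (h ▸ (tube2_U0 l hy.1 a' b').1)) r0.ne'
    · obtain ⟨e1, e2⟩ := Prod.ext_iff.1 (e.emb.2 (sb m) (sb m') h)
      obtain ⟨e3, e4⟩ := tube2_inj l hx.1 hy.1 a b a' b' e1
      have e5 : r = r' := e2
      have p := (l.pos _ hx.1).2
      rw [← e3] at k'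
      refine Prod.ext e3 ?_
      rcases k with k | k <;> rcases k' with k' | k' <;> linarith [k.1, k.2, k'.1, k'.2]

theorem FX_img : FX S lo '' btw Bz (loX L lo) (hiX L lo) = xt L S U0 := by
  have u : U0 ⊆ FX S lo '' btw Bz (loX L lo) (hiX L lo) := fun p hp => by
    obtain ⟨z, hz, t, a, b, rfl⟩ := (l.mem p).1 hp
    obtain ⟨a', b'⟩ := (cont_X l e).2.2 z hz
    exact ⟨(z, t), ⟨hz, a'.trans a, b.trans b'⟩, (tube2_val l e (x := (z, t)) hz).2.1 a b⟩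
  refine subset_antisymm ?_ (union_subset u ?_)
  · rintro _ ⟨x, hx, rfl⟩
    rcases tube2_spec l e hx with ⟨a, b, v⟩ | ⟨s, r, -, -, -, m, v, -⟩
    · exact .inl (v ▸ tube2_U0 l hx.1 a b)
    · exact .inr ⟨_, m, v.symm⟩
  · rintro _ ⟨⟨p, r⟩, ⟨⟨hp, hb⟩, r0, r1⟩, rfl⟩
    obtain ⟨z, hz, t, a, b, rfl⟩ := (l.mem p).1 hp
    obtain ⟨a', b'⟩ := (cont_X l e).2.2 z hz
    have p := (l.pos z hz).2.le
    change 0 ≤ r at r0
    change r ≤ L (fz z t) at r1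
    rcases (l.bd hz a b).1 hb with rfl | rfl | ⟨k, h⟩
    · refine ⟨(z, lo z - r), ⟨hz, sub_le_sub_left r1 _, ((sub_le_self _ r0).trans p).trans b'⟩, ?_⟩
      rw [(tube2_val l e (x := (z, lo z - r)) hz).1 (sub_le_self _ r0), sub_sub_cancel]
    · refine ⟨(z, hiO lo z + r), ⟨hz, a'.trans (p.trans (le_add_of_nonneg_right r0)),
        add_le_add le_rfl r1⟩, ?_⟩
      rw [(tube2_val l e (x := (z, hiO lo z + r)) hz).2.2 (le_add_of_nonneg_right r0),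
        add_sub_cancel_left]
    · have z0 : L (fz z t) = 0 := e.zero _ hb ⟨0, k, .inr ((chart_sets _).2.1.2 (by
        rw [(Z_gg _ _ _).2, (fz_val (tube2_n hz) t).2, h]))⟩
      obtain rfl : r = 0 := le_antisymm (z0 ▸ r1) r0
      rw [e.s0 _ hb]
      exact u hp

theorem FX_ends {z : ℂ} (hz : z ∈ Bz) :
    FX S lo (z, loX L lo z) = S (fz z (lo z), L (fz z (lo z))) ∧
      FX S lo (z, hiX L lo z) = S (fz z (hiO lo z), L (fz z (hiO lo z))) := by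
  obtain ⟨a, b⟩ := (cont_X l e).2.2 z hz
  constructor
  · rw [(tube2_val l e (x := (z, loX L lo z)) hz).1 a, loX, sub_sub_cancel]
  · rw [(tube2_val l e (x := (z, hiX L lo z)) hz).2.2 b, hiX, add_sub_cancel_left]

end Pool.Agent.Lib.MP_b7d179_gt.Gm
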