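import Pool.Agent.Lib.MP_b7d179_gt.G.Chart
import Pool.Agent.Lib.MP_b7d179_gt.F.Cap

/-! Caps of the vertex chart are standard balls. -/

namespace Pool.Agent.Lib.MP_b7d179_gt.Gm

open Set Metric Complex Stmt

/-- the real boost along the unit vector `n` -/
noncomputable def zsB (n : ℂ) (c s : ℝ) (p : E) : E :=
  ((p.1 + ((c - 1) * lin n p - s) * n.re) / (c - s * lin n p),
    (p.2 + ((c - 1) * lin n p - s) * n.im) / (c - s * lin n p))

section
variable {n : ℂ} {c s : ℝ} {p : E}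

theorem zs_form (hn : n.re ^ 2 + n.im ^ 2 = 1) (h : c ^ 2 = 1 + s ^ 2) (p : E) :
    normSq (p.1 + ((c - 1) * lin n p - s) * n.re) + normSq (p.2 + ((c - 1) * lin n p - s) * n.im) -
      normSq (c - s * lin n p) = nsq p - 1 := by
  have hu : (lin n p).re = n.re * p.1.re + n.im * p.2.re := by simp [lin]
  have hv : (lin n p).im = n.re * p.1.im + n.im * p.2.im := by simp [lin]
  simp only [nsq, normSq_apply, add_re, add_im, mul_re, mul_im, sub_re, sub_im, one_re, one_im,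
    ofReal_re, ofReal_im]
  generalize (lin n p).re = u at *
  generalize (lin n p).im = v at *
  linear_combination (((c - 1) * u - s) ^ 2 + ((c - 1) * v) ^ 2) * hn -
    2 * ((c - 1) * u - s) * hu - 2 * ((c - 1) * v) * hv + (u ^ 2 + v ^ 2 - 1) * h

theorem zs_ne (hn : n.re ^ 2 + n.im ^ 2 = 1) (h : c ^ 2 = 1 + s ^ 2) (hp : nsq p = 1) :
    (c : ℂ) - s * lin n p ≠ 0 := by
  intro e
  have e1 : c = s * (n.re * p.1.re + n.im * p.2.re) := by
    have := congrArg Complex.re e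
    simp [lin] at this
    linarith
  simp only [nsq, normSq_apply] at hp
  have k : (n.re * p.1.re + n.im * p.2.re) ^ 2 ≤ 1 := by
    nlinarith [sq_nonneg (n.re * p.2.re - n.im * p.1.re), sq_nonneg p.1.im, sq_nonneg p.2.im]
  rw [e1, mul_pow] at h
  nlinarith [sq_nonneg s]

theorem zs_nsq (hn : n.re ^ 2 + n.im ^ 2 = 1) (h : c ^ 2 = 1 + s ^ 2) (p : E) (hp : nsq p = 1) :
    nsq (zsB n c s p) = 1 := by
  have f := zs_form hn h p
  have hj := normSq_pos.2 (zs_ne hn h hp)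
  rw [hp] at f
  simp only [nsq, zsB, normSq_div]
  rw [← add_div, div_eq_one_iff_eq hj.ne']
  linarith

theorem zs_lin (k : ℂ) (hj : (c : ℂ) - s * lin n p ≠ 0) : lin k (zsB n c s p) =
    (lin k p + ((c - 1) * lin n p - s) * (k.re * n.re + k.im * n.im)) / (c - s * lin n p) := by
  simp only [zsB]
  generalize lin n p = l at *
  generalize (c : ℂ) - s * l = D at *
  simp only [lin]
  field_simp
  ring

theorem zs_inv (hn : n.re ^ 2 + n.im ^ 2 = 1) (h : c ^ 2 = 1 + s ^ 2) (p : E) (hp : nsq p = 1) :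
    zsB n c (-s) (zsB n c s p) = p := by
  have hj := zs_ne hn h hp
  have hn' : (n.re : ℂ) * n.re + n.im * n.im = 1 := by
    rw [← pow_two, ← pow_two]; exact_mod_cast hn
  have h' : (c : ℂ) ^ 2 = 1 + (s : ℂ) ^ 2 := by exact_mod_cast h
  have e : lin n (zsB n c s p) = (c * lin n p - s) / (c - s * lin n p) := by
    rw [zs_lin n hj, hn']; congr 1; ring
  have d : (c : ℂ) - ((-s : ℝ) : ℂ) * ((c * lin n p - s) / (c - s * lin n p)) =
      1 / (c - s * lin n p) := by
    push_cast; field_simp; linear_combination h'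
  rw [zsB, e, d]
  simp only [zsB]
  push_cast
  generalize lin n p = l at *
  obtain ⟨D, hD⟩ : ∃ D, D = (c : ℂ) - s * l := ⟨_, rfl⟩
  rw [← hD] at hj ⊢
  refine Prod.ext ?_ ?_ <;> simp only <;> field_simp
  · linear_combination (l * n.re) * h' + (s * n.re) * hD
  · linear_combination (l * n.im) * h' + (s * n.im) * hD

theorem zs_cont {X : Type} [TopologicalSpace X] (hn : n.re ^ 2 + n.im ^ 2 = 1) {c s : X → ℝ}
    {p : X → E} (hc : Continuous c) (hs : Continuous s) (hp : Continuous p)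
    (h : ∀ x, c x ^ 2 = 1 + s x ^ 2) (h1 : ∀ x, nsq (p x) = 1) :
    Continuous fun x => zsB n (c x) (s x) (p x) := by
  have l : Continuous fun x => lin n (p x) := by unfold lin; fun_prop
  exact (Continuous.div (by fun_prop) (by fun_prop) fun x => zs_ne hn (h x) (h1 x)).prodMk
    (Continuous.div (by fun_prop) (by fun_prop) fun x => zs_ne hn (h x) (h1 x))

theorem zs_contOn (hn : n.re ^ 2 + n.im ^ 2 = 1) (h : c ^ 2 = 1 + s ^ 2) :
    ContinuousOn (zsB n c s) {p | nsq p = 1} :=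
  continuousOn_iff_continuous_domRestrict.2
    (zs_cont hn continuous_const continuous_const continuous_subtype_val (fun _ => h) fun x => x.2)

/-- the boost as a homeomorphism -/
noncomputable def zsH (hn : n.re ^ 2 + n.im ^ 2 = 1) (h : c ^ 2 = 1 + s ^ 2) : S3 ≃ₜ S3 :=
  mkH (zsB n c s) (zsB n c (-s)) (zs_nsq hn h) (zs_nsq hn (h.trans (by ring)))
    (zs_contOn hn h) (zs_contOn hn (h.trans (by ring))) (zs_inv hn h)
    (fun p hp => by
      have := zs_inv (s := -s) hn (h.trans (by ring)) p hp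
      rwa [neg_neg] at this)
end

theorem zs_sq (t : ℝ) : √(1 + 2 * t ^ 2) ^ 2 = 1 + (-(√2 * t)) ^ 2 := by
  rw [Real.sq_sqrt (by positivity), neg_sq, mul_pow, Real.sq_sqrt (by norm_num)]

/-- the unit vector that reads off the first chart coordinate -/
noncomputable def zsK : ℂ := ⟨-√2 / 2 + (√3 - 1) * √2 * √3 / 4, √2 * √3 / 2 - (√3 - 1) * √2 / 4⟩

theorem zsK_sq : zsK.re ^ 2 + zsK.im ^ 2 = 1 := by
  have h2 := r2
  have h3 := r3
  simp only [zsK]
  generalize √2 = a at *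
  generalize √3 = b at *
  have : (-a / 2 + (b - 1) * a * b / 4) ^ 2 + (a * b / 2 - (b - 1) * a / 4) ^ 2 =
      a * a * ((-2 + (b - 1) * b) ^ 2 + (b + 1) ^ 2) / 16 := by ring
  rw [this, h2]
  linear_combination ((b * b - 2 * b + 1) / 8) * h3

theorem zs_Z1 {p : E} (hp : nsq p = 1) : Z1 p = (√3 : ℝ) * lin zsK (zsB (nv 0) √3 √2 p) := by
  have hj := zs_ne (c := √3) (s := √2) (nv_sq 0) (by nlinarith [r2, r3]) hp
  rw [zs_lin zsK hj, Z1, wv, mul_div_assoc]
  congr 2
  have h2 := s2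
  have h3 := s3
  simp only [uw, lin, zsK, nv, mv]
  simp
  generalize ((√2 : ℝ) : ℂ) = a at *
  generalize ((√3 : ℝ) : ℂ) = b at *
  linear_combination (-1 / 2) * h2 - ((b - 1) * (b / 2 * p.1 - p.2 / 2) - a) * (b - 1) * a / 8 * h3

/-- (Z1, Z2) / √3 = A (T p), T the real boost along n = nv 0 that takes the vertex to the centre,
T p = (p + ((c - 1) λ - σ) n) / (c - σ λ), λ = lin n p, c = √3, σ = √2, A real orthogonal. Path
c = √(1 + 2 t²), σ = √2 t; `iso_of_bij`, `std_cap`, `Std.map` with the inverse boost. -/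
theorem std_Z {e : ℂ} (he : ‖e‖ = 1) {c : ℝ} (hc : |c| < 1) :
    L.Std {p | ((starRingEnd ℂ) e * Z1 p.1).re ≤ c * √3}
      {p | ((starRingEnd ℂ) e * Z1 p.1).re = c * √3} := by
  have hx : ‖e * zsK.re‖ ^ 2 + ‖e * zsK.im‖ ^ 2 = 1 := by
    simp only [norm_mul, he, one_mul, Complex.norm_real, Real.norm_eq_abs, sq_abs]
    exact zsK_sq
  let x₀ : S3 := ⟨(e * zsK.re, e * zsK.im), hx⟩
  let J : unitInterval → S3 ≃ₜ S3 := fun t => zsH (nv_sq 0) (zs_sq t)
  have cJ : Continuous fun p : unitInterval × S3 => J p.1 p.2 :=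
    (zs_cont (nv_sq 0) (c := fun p : unitInterval × S3 => √(1 + 2 * (p.1 : ℝ) ^ 2))
      (s := fun p => -(√2 * p.1)) (p := fun p => p.2.1) (by fun_prop) (by fun_prop) (by fun_prop)
      (fun p => zs_sq p.1) fun p => nsq_S3 p.2).subtype_mk _
  have J0 : ∀ x, J 0 x = x := fun x => Subtype.ext (by
    show zsB (nv 0) √(1 + 2 * (0 : ℝ) ^ 2) (-(√2 * 0)) x.1 = x.1
    simp [zsB])
  have key : ∀ p : S3, ((starRingEnd ℂ) e * Z1 p.1).re = L.ip ((J 1).symm p) x₀ * √3 := fun p => by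
    have e1 : ((J 1).symm p).1 = zsB (nv 0) √3 √2 p.1 := by
      show zsB (nv 0) √(1 + 2 * (1 : ℝ) ^ 2) (-(-(√2 * 1))) p.1 = _
      norm_num
    rw [zs_Z1 (nsq_S3 p), L.ip, e1]
    generalize zsB (nv 0) √3 √2 p.1 = q
    simp [x₀, lin]
    ring
  have p3 : (0 : ℝ) < √3 := by positivity
  have := F.Std.map (F.std_cap x₀ hc) cJ J0
  simp only [← Homeomorph.preimage_symm, preimage_ofPred_eq] at this
  simp only [key, mul_le_mul_iff_left₀ p3, mul_left_inj' p3.ne']
  exact this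

end Pool.Agent.Lib.MP_b7d179_gt.Gm
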